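import Pool.Agent.Lib.MP_b16327_pr.GeoC

/-! # Invariant area on the disc -/

namespace Pool.Agent.Lib.MP_b16327_pr

open Complex MeasureTheory ComplexConjugate Filter
open scoped Complex.UnitDisc Topology BoundedContinuousFunction

noncomputable section

/-- the open disc of Euclidean radius `R` about `0` -/
def ballD (R : ℝ) : Set 𝔻 := {w : 𝔻 | ‖(w : ℂ)‖ < R}

theorem isOpen_ballD (R : ℝ) : IsOpen (ballD R) :=
  isOpen_lt (continuous_norm.comp UnitDisc.continuous_coe) continuous_const

theorem measurableSet_ballD (R : ℝ) : MeasurableSet (ballD R) :=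
  (isOpen_ballD R).measurableSet

private theorem AreaA_range : Set.range (fun z : 𝔻 => (z : ℂ)) = Metric.ball (0 : ℂ) 1 := by
  ext z
  simp only [Set.mem_range, Metric.mem_ball, dist_zero_right]
  constructor
  · rintro ⟨w, rfl⟩
    exact w.norm_lt_one
  · intro h
    exact ⟨UnitDisc.mk z h, UnitDisc.coe_mk z h⟩

private theorem AreaA_openEmb : Topology.IsOpenEmbedding (fun z : 𝔻 => (z : ℂ)) :=
  ⟨UnitDisc.isEmbedding_coe, by rw [AreaA_range]; exact Metric.isOpen_ball⟩

theorem measurableEmbedding_coe : MeasurableEmbedding (fun z : 𝔻 => (z : ℂ)) :=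
  AreaA_openEmb.measurableEmbedding

theorem area_apply {s : Set 𝔻} (hs : MeasurableSet s) :
    area s = ∫⁻ z in (fun z : 𝔻 => (z : ℂ)) '' s, ENNReal.ofReal (1 / (1 - ‖z‖ ^ 2) ^ 2) := by
  have hmp : MeasurePreserving (fun z : 𝔻 => (z : ℂ))
      (Measure.comap (fun z : 𝔻 => (z : ℂ)) (volume : Measure ℂ))
      (volume.restrict (Set.range (fun z : 𝔻 => (z : ℂ)))) :=
    ⟨measurableEmbedding_coe.measurable, by rw [measurableEmbedding_coe.map_comap]⟩
  unfold area
  rw [withDensity_apply _ hs,
    ← Set.inter_eq_self_of_subset_left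
      (Set.image_subset_range (fun z : 𝔻 => (z : ℂ)) s),
    ← Measure.restrict_restrict' measurableEmbedding_coe.measurableSet_range,
    ← hmp.setLIntegral_comp_emb measurableEmbedding_coe]

private theorem AreaA_deriv (g : SU11) {z : ℂ} (hz : ‖z‖ ≤ 1) :
    HasDerivAt g.mob (1 / (g.den z) ^ 2) z := by
  have h0 := g.den_ne_zero hz
  have h1 : HasDerivAt (fun w : ℂ => g.a * w + g.b) g.a z := by
    simpa using ((hasDerivAt_id z).const_mul g.a).add_const g.b
  have h2 : HasDerivAt (fun w : ℂ => g.den w) (conj g.b) z := by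
    unfold SU11.den
    simpa using ((hasDerivAt_id z).const_mul (conj g.b)).add_const (conj g.a)
  have h3 := h1.div h2 h0
  have h4 : (g.a * g.den z - (g.a * z + g.b) * conj g.b) / (g.den z) ^ 2 = 1 / (g.den z) ^ 2 := by
    congr 1
    have h5 := g.det'
    unfold SU11.den
    linear_combination h5
  rw [h4] at h3
  exact h3

private theorem AreaA_det (c : ℂ) :
    ((ContinuousLinearMap.toSpanSingleton ℂ c).restrictScalars ℝ : ℂ →L[ℝ] ℂ).det = normSq c := by
  simp [ContinuousLinearMap.det, LinearMap.det_restrictScalars, Algebra.norm_complex_eq]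

private theorem AreaA_image (g : SU11) {s : Set 𝔻} (hs : MeasurableSet s) :
    area ((fun z : 𝔻 => g • z) '' s) = area s := by
  have hme : MeasurableEmbedding (fun z : 𝔻 => g • z) := by
    have hinv : Function.LeftInverse (fun z : 𝔻 => g⁻¹ • z) (fun z : 𝔻 => g • z) :=
      fun z => inv_smul_smul g z
    have hinv2 : Function.RightInverse (fun z : 𝔻 => g⁻¹ • z) (fun z : 𝔻 => g • z) :=
      fun z => smul_inv_smul g z
    exact (Homeomorph.toMeasurableEquiv
      { toFun := fun z : 𝔻 => g • z
        invFun := fun z : 𝔻 => g⁻¹ • z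
        left_inv := hinv
        right_inv := hinv2
        continuous_toFun := continuous_smul_disc g
        continuous_invFun := continuous_smul_disc g⁻¹ }).measurableEmbedding
  rw [area_apply (hme.measurableSet_image.2 hs), area_apply hs]
  have himg : (fun z : 𝔻 => (z : ℂ)) '' ((fun z : 𝔻 => g • z) '' s) =
      g.mob '' ((fun z : 𝔻 => (z : ℂ)) '' s) := by
    rw [Set.image_image, Set.image_image]
    rfl
  rw [himg]
  have hsm : MeasurableSet ((fun z : 𝔻 => (z : ℂ)) '' s) :=
    measurableEmbedding_coe.measurableSet_image.2 hs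
  have hinj : Set.InjOn g.mob ((fun z : 𝔻 => (z : ℂ)) '' s) := by
    rintro _ ⟨z, _, rfl⟩ _ ⟨w, _, rfl⟩ h
    have h1 : g • z = g • w := UnitDisc.coe_injective h
    have h2 := MulAction.injective g h1
    rw [h2]
  have main := lintegral_image_eq_lintegral_abs_det_fderiv_mul volume hsm
    (f := g.mob)
    (f' := fun z => (ContinuousLinearMap.toSpanSingleton ℂ (1 / (g.den z) ^ 2)).restrictScalars ℝ)
    (by
      rintro _ ⟨z, _, rfl⟩
      have h := (AreaA_deriv g z.norm_lt_one.le).hasFDerivAt.restrictScalars ℝ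
      exact h.hasFDerivWithinAt)
    hinj (fun z => ENNReal.ofReal (1 / (1 - ‖z‖ ^ 2) ^ 2))
  rw [main]
  apply setLIntegral_congr_fun hsm
  rintro _ ⟨z, _, rfl⟩
  simp only
  rw [AreaA_det, ← ENNReal.ofReal_mul (abs_nonneg _)]
  congr 1
  have h1 := one_sub_smul g z
  rw [coe_smul] at h1
  rw [h1]
  have h0 := g.den_ne_zero z.norm_lt_one.le
  have h2 : 0 < normSq (g.den z) := normSq_pos.2 h0
  have h3 : (1 : ℝ) - ‖(z : ℂ)‖ ^ 2 ≠ 0 := by
    have := UnitDisc.sq_norm_lt_one z
    linarith
  rw [map_div₀, map_pow, map_one, abs_of_nonneg (by positivity)]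
  field_simp

/-- invariance of the area: `|mob g'|^2 = 1/|den|^4` and `one_sub_smul`; copy the proof of
`SMulInvariantMeasure (GL (Fin 2) ℝ) ℍ volume` in
`Mathlib/Analysis/Complex/UpperHalfPlane/Measure.lean`
(`lintegral_image_eq_lintegral_abs_det_fderiv_mul`) -/
theorem measurePreserving_smul (g : SU11) :
    MeasurePreserving (fun z : 𝔻 => g • z) area area := by
  refine ⟨(continuous_smul_disc g).measurable, ?_⟩
  ext s hs
  rw [Measure.map_apply (continuous_smul_disc g).measurable hs]
  have h : (fun z : 𝔻 => g • z) ⁻¹' s = (fun z : 𝔻 => g⁻¹ • z) '' s := by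
    ext z
    simp only [Set.mem_preimage, Set.mem_image]
    constructor
    · intro h
      exact ⟨g • z, h, inv_smul_smul g z⟩
    · rintro ⟨w, hw, rfl⟩
      rwa [smul_inv_smul]
  rw [h, AreaA_image g⁻¹ hs]

private theorem AreaA_secondCountable : SecondCountableTopology 𝔻 :=
  UnitDisc.isEmbedding_coe.secondCountableTopology

private theorem AreaA_locFin : IsLocallyFiniteMeasure area := by
  have : IsFiniteMeasureOnCompacts
      (Measure.comap (fun z : 𝔻 => (z : ℂ)) (volume : Measure ℂ)) :=
    IsFiniteMeasureOnCompacts.comap' _ UnitDisc.continuous_coe measurableEmbedding_coe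
  have : LocallyCompactSpace 𝔻 := AreaA_openEmb.locallyCompactSpace
  have : IsLocallyFiniteMeasure
      (Measure.comap (fun z : 𝔻 => (z : ℂ)) (volume : Measure ℂ)) := inferInstance
  unfold area
  apply IsLocallyFiniteMeasure.withDensity_ofReal
  apply Continuous.div continuous_const
  · exact (continuous_const.sub ((continuous_norm.comp UnitDisc.continuous_coe).pow 2)).pow 2
  · intro z
    have := UnitDisc.sq_norm_lt_one z
    have h : (0 : ℝ) < 1 - ‖(z : ℂ)‖ ^ 2 := by linarith
    exact pow_ne_zero 2 h.ne'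

instance instSFiniteArea : SigmaFinite area := by
  have := AreaA_locFin
  have := AreaA_secondCountable
  infer_instance

instance instLocFinArea : IsFiniteMeasureOnCompacts area := by
  have := AreaA_locFin
  infer_instance

private theorem AreaA_vol_le {s : Set 𝔻} (hs : MeasurableSet s) :
    volume ((fun z : 𝔻 => (z : ℂ)) '' s) ≤ area s := by
  have hsm : MeasurableSet ((fun z : 𝔻 => (z : ℂ)) '' s) :=
    measurableEmbedding_coe.measurableSet_image.2 hs
  rw [area_apply hs, ← setLIntegral_one]
  apply setLIntegral_mono' hsm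
  rintro _ ⟨z, _, rfl⟩
  rw [← ENNReal.ofReal_one]
  apply ENNReal.ofReal_le_ofReal
  have h1 := UnitDisc.sq_norm_lt_one z
  have h2 : (0 : ℝ) < 1 - ‖(z : ℂ)‖ ^ 2 := by linarith
  rw [le_div_iff₀ (by positivity), one_mul]
  have h3 : (0 : ℝ) ≤ ‖(z : ℂ)‖ ^ 2 := by positivity
  nlinarith

instance instOpenPosArea : area.IsOpenPosMeasure := by
  refine ⟨fun U hU hne h0 => ?_⟩
  have h1 := AreaA_vol_le hU.measurableSet
  rw [h0] at h1
  have h2 : IsOpen ((fun z : 𝔻 => (z : ℂ)) '' U) := AreaA_openEmb.isOpenMap U hU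
  have h3 : 0 < volume ((fun z : 𝔻 => (z : ℂ)) '' U) := h2.measure_pos volume (hne.image _)
  exact absurd h1 (not_le.2 h3)

theorem area_ballD_lt_top {R : ℝ} (hR : R < 1) : area (ballD R) < ⊤ := by
  refine (measure_mono ?_).trans_lt (isCompact_closedBallD hR).measure_lt_top
  intro z hz
  exact le_of_lt (show ‖(z : ℂ)‖ < R from hz)

theorem area_ballD_pos {R : ℝ} (hR : 0 < R) : 0 < area (ballD R) := by
  exact (isOpen_ballD R).measure_pos area ⟨0, by simpa [ballD] using hR⟩

/-- circles have area zero -/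
theorem area_circle (r : ℝ) : area {w : 𝔻 | ‖(w : ℂ)‖ = r} = 0 := by
  have hm : MeasurableSet {w : 𝔻 | ‖(w : ℂ)‖ = r} :=
    (isClosed_eq (continuous_norm.comp UnitDisc.continuous_coe) continuous_const).measurableSet
  rw [area_apply hm]
  apply setLIntegral_measure_zero
  refine measure_mono_null (t := Metric.sphere (0 : ℂ) r) ?_ (Measure.addHaar_sphere _ _ _)
  rintro _ ⟨z, hz, rfl⟩
  simpa using hz

theorem measurePreserving_rot (ξ : Circle) :
    MeasurePreserving (fun z : 𝔻 => ξ • z) area area := by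
  have h := measurePreserving_smul (rotG ξ)
  simp only [rotG_smul] at h
  exact h

end

end Pool.Agent.Lib.MP_b16327_pr
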