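import Pool.Agent.Lib.MP_b16327_pr.GeoC

/-! # Arc length on the circle -/

namespace Pool.Agent.Lib.MP_b16327_pr

open Complex MeasureTheory ComplexConjugate Filter
open scoped Complex.UnitDisc Topology BoundedContinuousFunction

noncomputable section

private theorem CircA_measExp : Measurable (fun t : ℝ => Circle.exp t) :=
  Circle.exp.continuous.measurable

private theorem CircA_const : ENNReal.ofReal (1 / (2 * Real.pi)) ≠ 0 := by
  rw [Ne, ENNReal.ofReal_eq_zero, not_le]
  positivity

instance instProbLam : IsProbabilityMeasure lam := by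
  constructor
  unfold lam
  rw [Measure.smul_apply, Measure.map_apply CircA_measExp MeasurableSet.univ, Set.preimage_univ,
    Measure.restrict_apply_univ, Real.volume_Ioc, smul_eq_mul, ← ENNReal.ofReal_mul (by positivity)]
  rw [sub_zero, one_div_mul_cancel (by positivity), ENNReal.ofReal_one]

theorem integral_lam {E : Type*} [NormedAddCommGroup E] [NormedSpace ℝ E] [CompleteSpace E]
    (f : ℂ → E) (r : ℝ) (hf : AEStronglyMeasurable (fun ξ : Circle => f (r * (ξ : ℂ))) lam) : ∫ ξ : Circle, f (r * (ξ : ℂ)) ∂lam = Real.circleAverage f 0 r := by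
  have hf' : AEStronglyMeasurable (fun ξ : Circle => f (r * (ξ : ℂ)))
      (Measure.map Circle.exp (volume.restrict (Set.Ioc 0 (2 * Real.pi)))) :=
    hf.mono_ac (Measure.absolutelyContinuous_smul CircA_const)
  unfold lam
  rw [integral_smul_measure, integral_map CircA_measExp.aemeasurable hf',
    Real.circleAverage_def, intervalIntegral.integral_of_le (by positivity),
    ENNReal.toReal_ofReal (by positivity), one_div]
  congr 1
  refine integral_congr_ae (Filter.Eventually.of_forall fun t => ?_)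
  simp only [circleMap, zero_add, Circle.coe_exp]

/-- arc length through the additive circle -/
private theorem CircA_map_exp (t : ℝ) :
    Measure.map Circle.exp (volume.restrict (Set.Ioc t (t + 2 * Real.pi))) =
      haveI : Fact (0 < 2 * Real.pi) := ⟨by positivity⟩
      Measure.map (AddCircle.toCircle (T := 2 * Real.pi)) volume := by
  have : Fact (0 < 2 * Real.pi) := ⟨by positivity⟩
  have h1 := (AddCircle.measurePreserving_mk (2 * Real.pi) t).map_eq
  rw [← h1, Measure.map_map AddCircle.continuous_toCircle.measurable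
    (AddCircle.measurePreserving_mk (2 * Real.pi) t).measurable]
  congr 1
  funext x
  rw [Function.comp_apply, AddCircle.toCircle_apply_mk]
  congr 1
  rw [div_self (by positivity), one_mul]

private theorem CircA_lam_eq (t : ℝ) : lam = ENNReal.ofReal (1 / (2 * Real.pi)) •
    Measure.map Circle.exp (volume.restrict (Set.Ioc t (t + 2 * Real.pi))) := by
  unfold lam
  have h := CircA_map_exp 0
  rw [zero_add] at h
  rw [CircA_map_exp t, h]

/-- rotation invariance -/
theorem lam_rot (ξ : Circle) : Measure.map (fun η : Circle => ξ * η) lam = lam := by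
  obtain ⟨t, rfl⟩ : ∃ t : ℝ, Circle.exp t = ξ := ⟨arg ξ, Circle.exp_arg ξ⟩
  have hm : Measurable (fun η : Circle => Circle.exp t * η) :=
    (continuous_const.mul continuous_id).measurable
  conv_rhs => rw [CircA_lam_eq t]
  unfold lam
  rw [Measure.map_smul, Measure.map_map hm CircA_measExp]
  congr 1
  have h1 : (fun η : Circle => Circle.exp t * η) ∘ (fun x : ℝ => Circle.exp x) =
      (fun x : ℝ => Circle.exp x) ∘ (fun x : ℝ => t + x) := by
    funext x
    simp only [Function.comp_apply, Circle.exp_add]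
  have h2 : Measure.map (fun x : ℝ => t + x) (volume.restrict (Set.Ioc 0 (2 * Real.pi))) =
      volume.restrict (Set.Ioc t (t + 2 * Real.pi)) := by
    have h3 := (measurePreserving_add_left volume t).restrict_preimage
      (measurableSet_Ioc : MeasurableSet (Set.Ioc t (t + 2 * Real.pi)))
    have h4 : (fun x : ℝ => t + x) ⁻¹' (Set.Ioc t (t + 2 * Real.pi)) =
        Set.Ioc 0 (2 * Real.pi) := by
      ext x
      simp only [Set.mem_preimage, Set.mem_Ioc]
      constructor
      · rintro ⟨h5, h6⟩; constructor <;> linarith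
      · rintro ⟨h5, h6⟩; constructor <;> linarith
    rw [h4] at h3
    exact h3.map_eq
  change Measure.map ((fun η : Circle => Circle.exp t * η) ∘ (fun x : ℝ => Circle.exp x)) _ =
    Measure.map (fun x : ℝ => Circle.exp x) _
  rw [h1, ← Measure.map_map CircA_measExp (measurable_const_add t), h2]

theorem lam_inv : Measure.map (fun η : Circle => η⁻¹) lam = lam := by
  have hm : Measurable (fun η : Circle => η⁻¹) := continuous_inv.measurable
  conv_rhs => rw [CircA_lam_eq (-(2 * Real.pi))]
  unfold lam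
  rw [Measure.map_smul, Measure.map_map hm CircA_measExp]
  congr 1
  have h1 : (fun η : Circle => η⁻¹) ∘ (fun x : ℝ => Circle.exp x) =
      (fun x : ℝ => Circle.exp x) ∘ (fun x : ℝ => -x) := by
    funext x
    simp only [Function.comp_apply, Circle.exp_neg]
  have h2 : Measure.map (fun x : ℝ => -x) (volume.restrict (Set.Ioc 0 (2 * Real.pi))) =
      volume.restrict (Set.Ioc (-(2 * Real.pi)) (-(2 * Real.pi) + 2 * Real.pi)) := by
    have h3 := (Measure.measurePreserving_neg (volume : Measure ℝ)).restrict_preimage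
      (measurableSet_Ico : MeasurableSet (Set.Ico (-(2 * Real.pi)) 0))
    have h4 : (Neg.neg : ℝ → ℝ) ⁻¹' (Set.Ico (-(2 * Real.pi)) 0) =
        Set.Ioc 0 (2 * Real.pi) := by
      ext x
      simp only [Set.mem_preimage, Set.mem_Ioc, Set.mem_Ico]
      constructor
      · rintro ⟨h5, h6⟩; constructor <;> linarith
      · rintro ⟨h5, h6⟩; constructor <;> linarith
    rw [h4] at h3
    rw [neg_add_cancel]
    have h5 : volume.restrict (Set.Ioc (-(2 * Real.pi)) 0) =
        volume.restrict (Set.Ico (-(2 * Real.pi)) 0) :=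
      (Measure.restrict_congr_set Ico_ae_eq_Ioc).symm
    rw [h5]
    exact h3.map_eq
  change Measure.map ((fun η : Circle => η⁻¹) ∘ (fun x : ℝ => Circle.exp x)) _ =
    Measure.map (fun x : ℝ => Circle.exp x) _
  rw [h1, ← Measure.map_map CircA_measExp measurable_neg, h2]

/-- the arc `{ξ : |ξ - x| < δ}` has small measure, uniformly in the point `x` of the plane -/
theorem lam_arc_le : ∃ C : ℝ, 0 < C ∧ ∀ (x : ℂ) (δ : ℝ), 0 < δ →
    lam {ξ : Circle | ‖(ξ : ℂ) - x‖ < δ} ≤ ENNReal.ofReal (C * δ) := by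
  -- arcs about `1`
  have h1 : ∀ δ : ℝ, 0 < δ → lam {ξ : Circle | ‖(ξ : ℂ) - 1‖ < δ} ≤ ENNReal.ofReal δ := by
    intro δ hδ
    have hmeas : MeasurableSet {ξ : Circle | ‖(ξ : ℂ) - 1‖ < δ} := by
      apply IsOpen.measurableSet
      exact isOpen_lt (by fun_prop) continuous_const
    rw [CircA_lam_eq (-Real.pi), Measure.smul_apply, Measure.map_apply CircA_measExp hmeas,
      Measure.restrict_apply (CircA_measExp hmeas), smul_eq_mul]
    have hsub : (fun t : ℝ => Circle.exp t) ⁻¹' {ξ : Circle | ‖(ξ : ℂ) - 1‖ < δ} ∩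
        Set.Ioc (-Real.pi) (-Real.pi + 2 * Real.pi) ⊆
        Set.Icc (-(Real.pi / 2 * δ)) (Real.pi / 2 * δ) := by
      rintro t ⟨ht1, ht2, ht3⟩
      have ht1' : ‖((Circle.exp t : Circle) : ℂ) - 1‖ < δ := ht1
      rw [Circle.coe_exp, mul_comm (t : ℂ) I, Complex.norm_exp_I_mul_ofReal_sub_one,
        Real.norm_eq_abs, abs_mul, abs_two] at ht1'
      have h2 : |t / 2| ≤ Real.pi / 2 := by
        rw [abs_div, abs_two]
        have : |t| ≤ Real.pi := abs_le.2 ⟨by linarith, by linarith⟩
        linarith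
      have h3 := Real.mul_abs_le_abs_sin h2
      rw [abs_div, abs_two] at h3
      have h4 : 2 / Real.pi * (|t| / 2) * 2 < δ := by linarith
      have h5 : |t| < Real.pi / 2 * δ := by
        have h6 : 2 / Real.pi * (|t| / 2) * 2 = |t| * (2 / Real.pi) := by ring
        rw [h6] at h4
        have hp := Real.pi_pos
        have h7 : |t| = (|t| * (2 / Real.pi)) * (Real.pi / 2) := by field_simp
        rw [h7]
        nlinarith
      exact ⟨by linarith [neg_abs_le t], by linarith [le_abs_self t]⟩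
    refine le_trans (mul_le_mul_right (measure_mono hsub) _) ?_
    rw [Real.volume_Icc, ← ENNReal.ofReal_mul (by positivity)]
    apply ENNReal.ofReal_le_ofReal
    have hp := Real.pi_pos
    have : 1 / (2 * Real.pi) * (Real.pi / 2 * δ - -(Real.pi / 2 * δ)) = δ / 2 := by
      field_simp
      ring
    rw [this]
    linarith
  refine ⟨2, two_pos, ?_⟩
  intro x δ hδ
  by_cases hne : ∃ ξ₀ : Circle, ‖(ξ₀ : ℂ) - x‖ < δ
  · obtain ⟨ξ₀, h0⟩ := hne
    have hmeas : MeasurableSet {ξ : Circle | ‖(ξ : ℂ) - 1‖ < 2 * δ} := by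
      apply IsOpen.measurableSet
      exact isOpen_lt (by fun_prop) continuous_const
    have hm : Measurable (fun η : Circle => ξ₀⁻¹ * η) :=
      (continuous_const.mul continuous_id).measurable
    have h2 : {ξ : Circle | ‖(ξ : ℂ) - x‖ < δ} ⊆
        (fun η : Circle => ξ₀⁻¹ * η) ⁻¹' {ξ : Circle | ‖(ξ : ℂ) - 1‖ < 2 * δ} := by
      intro ξ hξ
      have hξ' : ‖(ξ : ℂ) - x‖ < δ := hξ
      show ‖((ξ₀⁻¹ * ξ : Circle) : ℂ) - 1‖ < 2 * δ
      have h3 : ((ξ₀⁻¹ * ξ : Circle) : ℂ) - 1 = ((ξ₀⁻¹ : Circle) : ℂ) * ((ξ : ℂ) - ξ₀) := by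
        rw [Circle.coe_mul, mul_sub]
        congr 1
        rw [← Circle.coe_mul, inv_mul_cancel, Circle.coe_one]
      rw [h3, norm_mul, Circle.norm_coe, one_mul]
      calc ‖(ξ : ℂ) - ξ₀‖ = ‖((ξ : ℂ) - x) - ((ξ₀ : ℂ) - x)‖ := by congr 1; ring
        _ ≤ ‖(ξ : ℂ) - x‖ + ‖(ξ₀ : ℂ) - x‖ := norm_sub_le _ _
        _ < 2 * δ := by linarith
    refine le_trans (measure_mono h2) ?_
    rw [← Measure.map_apply hm hmeas, lam_rot]
    exact h1 _ (by positivity)
  · have : {ξ : Circle | ‖(ξ : ℂ) - x‖ < δ} = ∅ := by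
      ext ξ
      simp only [Set.mem_ofPred_eq, Set.mem_empty_iff_false, iff_false]
      exact fun h => hne ⟨ξ, h⟩
    rw [this, measure_empty]
    exact zero_le

/-- an absolutely continuous finite measure gives uniformly small mass to small arcs
(`lam_arc_le` and absolute continuity of the integral: `Measure.AbsolutelyContinuous` and
`MeasureTheory.exists_pos_setLIntegral_lt_of_measure_lt`) -/
theorem small_arcs (ν : Measure Circle) [IsFiniteMeasure ν] (hν : ν ≪ lam) {ε : ℝ} (hε : 0 < ε) :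
    ∃ δ : ℝ, 0 < δ ∧ δ ≤ 1 ∧ ∀ x : ℂ, ν.real {ξ : Circle | ‖(ξ : ℂ) - x‖ < δ} ≤ ε := by
  obtain ⟨C, hC, hC'⟩ := lam_arc_le
  obtain ⟨η, hη, hη'⟩ := exists_pos_setLIntegral_lt_of_measure_lt
    (Measure.lintegral_rnDeriv_lt_top ν lam).ne (ε := ENNReal.ofReal ε)
    (by rw [Ne, ENNReal.ofReal_eq_zero, not_le]; exact hε)
  obtain ⟨η', hη0, hη1⟩ : ∃ η' : ℝ, 0 < η' ∧ ENNReal.ofReal η' ≤ η := by
    by_cases htop : η = ⊤
    · exact ⟨1, one_pos, by rw [htop]; exact le_top⟩
    · exact ⟨η.toReal, ENNReal.toReal_pos hη.ne' htop, by rw [ENNReal.ofReal_toReal htop]⟩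
  refine ⟨min 1 (η' / (2 * C)), lt_min one_pos (by positivity), min_le_left _ _, ?_⟩
  intro x
  have hδ : 0 < min 1 (η' / (2 * C)) := lt_min one_pos (by positivity)
  have h1 := hC' x _ hδ
  have h2 : C * min 1 (η' / (2 * C)) < η' := by
    calc C * min 1 (η' / (2 * C)) ≤ C * (η' / (2 * C)) :=
          mul_le_mul_of_nonneg_left (min_le_right _ _) hC.le
      _ = η' / 2 := by field_simp
      _ < η' := by linarith
  have h3 : lam {ξ : Circle | ‖(ξ : ℂ) - x‖ < min 1 (η' / (2 * C))} < η :=
    lt_of_le_of_lt h1 (lt_of_lt_of_le ((ENNReal.ofReal_lt_ofReal_iff hη0).2 h2) hη1)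
  have h4 := hη' _ h3
  rw [Measure.setLIntegral_rnDeriv hν] at h4
  rw [Measure.real]
  exact ENNReal.toReal_le_of_le_ofReal hε.le h4.le

end

end Pool.Agent.Lib.MP_b16327_pr
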