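import Pool.Agent.Lib.MP_b16327_pr.AreaA
import Pool.Agent.Lib.MP_b16327_pr.CircA

/-! # Invariant area: integrals -/

namespace Pool.Agent.Lib.MP_b16327_pr

open Complex MeasureTheory ComplexConjugate Filter
open scoped Complex.UnitDisc Topology BoundedContinuousFunction

noncomputable section

variable {E : Type*} [NormedAddCommGroup E] [NormedSpace ℝ E] [CompleteSpace E]

/-- the homeomorphism of the disc given by an element of the group -/
private def AreaB_homeo (g : SU11) : 𝔻 ≃ₜ 𝔻 where
  toEquiv := MulAction.toPerm g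
  continuous_toFun := continuous_smul_disc g
  continuous_invFun := continuous_smul_disc g⁻¹

private theorem AreaB_secondCountable : SecondCountableTopology 𝔻 :=
  UnitDisc.isEmbedding_coe.secondCountableTopology

/-- the homeomorphism of the disc given by a rotation -/
private def AreaB_homeoRot (ξ : Circle) : 𝔻 ≃ₜ 𝔻 where
  toEquiv := MulAction.toPerm ξ
  continuous_toFun := continuous_rot_smul.comp (Continuous.prodMk continuous_const continuous_id)
  continuous_invFun := continuous_rot_smul.comp (Continuous.prodMk continuous_const continuous_id)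

theorem integral_smul_area (g : SU11) (F : 𝔻 → E) :
    ∫ w, F (g • w) ∂area = ∫ w, F w ∂area :=
  (measurePreserving_smul g).integral_comp (AreaB_homeo g).measurableEmbedding F

private theorem AreaB_integral_rot (ξ : Circle) (F : 𝔻 → E) :
    ∫ w, F (ξ • w) ∂area = ∫ w, F w ∂area :=
  (measurePreserving_rot ξ).integral_comp (AreaB_homeoRot ξ).measurableEmbedding F

private theorem AreaB_norm_rot (ξ : Circle) (w : 𝔻) : ‖((ξ • w : 𝔻) : ℂ)‖ = ‖(w : ℂ)‖ := by
  rw [UnitDisc.coe_circle_smul, norm_mul, Circle.norm_coe, one_mul]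

/-- averaging over rotations: Fubini on `Circle × 𝔻` and `measurePreserving_rot` -/
theorem integral_rot (h : ℝ → ℝ) (hh : Measurable h) (F : 𝔻 → E) (hF : Continuous F)
    (hint : Integrable (fun w : 𝔻 => h ‖(w : ℂ)‖ • F w) area) :
    ∫ w : 𝔻, h ‖(w : ℂ)‖ • F w ∂area =
      ∫ w : 𝔻, h ‖(w : ℂ)‖ • (∫ ξ : Circle, F (ξ • w) ∂lam) ∂area := by
  have := AreaB_secondCountable
  have hmeas : AEStronglyMeasurable (fun q : Circle × 𝔻 => h ‖(q.2 : ℂ)‖ • F (q.1 • q.2))
      (lam.prod area) := by
    apply AEStronglyMeasurable.smul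
    · apply Measurable.aestronglyMeasurable
      exact hh.comp ((UnitDisc.continuous_coe.comp continuous_snd).norm.measurable)
    · exact (hF.comp continuous_rot_smul).aestronglyMeasurable
  have hrot : ∀ ξ : Circle, Integrable (fun w : 𝔻 => h ‖(w : ℂ)‖ • F (ξ • w)) area := by
    intro ξ
    have h1 := (measurePreserving_rot ξ).integrable_comp_emb
      (AreaB_homeoRot ξ).measurableEmbedding (g := fun w : 𝔻 => h ‖(w : ℂ)‖ • F w)
    have h2 := h1.2 hint
    refine h2.congr (Filter.Eventually.of_forall fun w => ?_)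
    simp only [Function.comp_apply, AreaB_norm_rot]
  have hprod : Integrable (fun q : Circle × 𝔻 => h ‖(q.2 : ℂ)‖ • F (q.1 • q.2))
      (lam.prod area) := by
    rw [integrable_prod_iff hmeas]
    refine ⟨Filter.Eventually.of_forall hrot, ?_⟩
    have h3 : ∀ ξ : Circle, ∫ w : 𝔻, ‖h ‖(w : ℂ)‖ • F (ξ • w)‖ ∂area =
        ∫ w : 𝔻, ‖h ‖(w : ℂ)‖ • F w‖ ∂area := by
      intro ξ
      rw [← AreaB_integral_rot ξ (fun w : 𝔻 => ‖h ‖(w : ℂ)‖ • F w‖)]
      refine integral_congr_ae (Filter.Eventually.of_forall fun w => ?_)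
      simp only [AreaB_norm_rot]
    simp only [h3]
    exact integrable_const _
  have h4 : ∀ ξ : Circle, ∫ w : 𝔻, h ‖(w : ℂ)‖ • F (ξ • w) ∂area =
      ∫ w : 𝔻, h ‖(w : ℂ)‖ • F w ∂area := by
    intro ξ
    rw [← AreaB_integral_rot ξ (fun w : 𝔻 => h ‖(w : ℂ)‖ • F w)]
    refine integral_congr_ae (Filter.Eventually.of_forall fun w => ?_)
    simp only [AreaB_norm_rot]
  have h5 := integral_integral_swap (μ := lam) (ν := area)
    (f := fun (ξ : Circle) (w : 𝔻) => h ‖(w : ℂ)‖ • F (ξ • w)) hprod
  simp only [h4] at h5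
  rw [integral_const, probReal_univ, one_smul] at h5
  rw [h5]
  refine integral_congr_ae (Filter.Eventually.of_forall fun w => ?_)
  exact integral_smul _ _

private theorem AreaB_integrableOn {R : ℝ} (hR : R < 1) (F : 𝔻 → E) (hF : Continuous F) :
    IntegrableOn F (ballD R) area := by
  have := AreaB_secondCountable
  have : T2Space 𝔻 := UnitDisc.isEmbedding_coe.t2Space
  have h1 : IntegrableOn F {z : 𝔻 | ‖(z : ℂ)‖ ≤ R} area :=
    hF.continuousOn.integrableOn_compact (isCompact_closedBallD hR)
  refine h1.mono_set fun z hz => ?_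
  have hz' : ‖(z : ℂ)‖ < R := hz
  exact hz'.le

/-- version on `ballD R` -/
theorem setIntegral_rot {R : ℝ} (hR : R < 1) (F : 𝔻 → E) (hF : Continuous F) :
    ∫ w in ballD R, F w ∂area = ∫ w in ballD R, (∫ ξ : Circle, F (ξ • w) ∂lam) ∂area := by
  have hind : ∀ (G : 𝔻 → E) (w : 𝔻), (Set.Iio R).indicator (fun _ => (1 : ℝ)) ‖(w : ℂ)‖ • G w =
      (ballD R).indicator G w := by
    intro G w
    by_cases hw : ‖(w : ℂ)‖ < R
    · rw [Set.indicator_of_mem (Set.mem_Iio.2 hw), Set.indicator_of_mem (show w ∈ ballD R from hw),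
        one_smul]
    · rw [Set.indicator_of_notMem (fun h => hw (Set.mem_Iio.1 h)),
        Set.indicator_of_notMem (show w ∉ ballD R from hw), zero_smul]
  have hm : Measurable ((Set.Iio R).indicator (fun _ : ℝ => (1 : ℝ))) :=
    measurable_const.indicator measurableSet_Iio
  have h1 := integral_rot ((Set.Iio R).indicator (fun _ => (1 : ℝ))) hm F hF (by
    simp only [hind]
    rw [integrable_indicator_iff (measurableSet_ballD R)]
    exact AreaB_integrableOn hR F hF)
  have h2 : ∀ w : 𝔻, (Set.Iio R).indicator (fun _ => (1 : ℝ)) ‖(w : ℂ)‖ •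
      (∫ ξ : Circle, F (ξ • w) ∂lam) =
      (ballD R).indicator (fun w => ∫ ξ : Circle, F (ξ • w) ∂lam) w :=
    fun w => hind (fun w => ∫ ξ : Circle, F (ξ • w) ∂lam) w
  simp only [hind F, h2] at h1
  rwa [integral_indicator (measurableSet_ballD R), integral_indicator (measurableSet_ballD R)] at h1

/-- `log (1/‖w‖)` is locally integrable -/
theorem integrable_log_norm {R : ℝ} (hR : R < 1) :
    IntegrableOn (fun w : 𝔻 => Real.log ‖(w : ℂ)‖) (ballD R) area := by
  -- integrability in the plane
  have h1 : IntegrableOn (fun x : ℂ => Real.log ‖x‖) (Metric.ball (0 : ℂ) R) volume := by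
    rw [integrableOn_fun_norm_addHaar (μ := (volume : Measure ℂ)) (f := Real.log)]
    rw [Complex.finrank_real_complex]
    have hcont : Continuous (fun y : ℝ => y * Real.log y) := Real.continuous_mul_log
    have h2 : IntegrableOn (fun y : ℝ => y * Real.log y) (Set.Icc 0 R) volume :=
      hcont.continuousOn.integrableOn_compact isCompact_Icc
    have h3 := h2.mono_set Set.Ioo_subset_Icc_self
    refine h3.congr_fun (fun y _ => ?_) measurableSet_Ioo
    simp
  -- integrability with respect to the Euclidean area on the disc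
  have h2 : IntegrableOn (fun w : 𝔻 => Real.log ‖(w : ℂ)‖) (ballD R)
      (Measure.comap (fun z : 𝔻 => (z : ℂ)) (volume : Measure ℂ)) := by
    have h3 := (measurableEmbedding_coe.integrableOn_map_iff
      (μ := Measure.comap (fun z : 𝔻 => (z : ℂ)) (volume : Measure ℂ))
      (f := fun x : ℂ => Real.log ‖x‖) (s := Metric.ball (0 : ℂ) R)).1 (by
        rw [measurableEmbedding_coe.map_comap]
        exact h1.mono_measure Measure.restrict_le_self)
    have h4 : (fun z : 𝔻 => (z : ℂ)) ⁻¹' Metric.ball (0 : ℂ) R = ballD R := by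
      ext z
      simp [ballD]
    rw [h4] at h3
    exact h3
  -- the density is bounded
  have hmeas : Measurable (fun z : 𝔻 => ENNReal.ofReal (1 / (1 - ‖(z : ℂ)‖ ^ 2) ^ 2)) := by
    apply Measurable.ennreal_ofReal
    apply Measurable.const_div
    exact ((measurable_const.sub ((UnitDisc.continuous_coe.norm.measurable).pow_const 2)).pow_const 2)
  unfold area
  rw [IntegrableOn, restrict_withDensity (measurableSet_ballD R)]
  have hle : ((Measure.comap (fun z : 𝔻 => (z : ℂ)) (volume : Measure ℂ)).restrict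
      (ballD R)).withDensity (fun z : 𝔻 => ENNReal.ofReal (1 / (1 - ‖(z : ℂ)‖ ^ 2) ^ 2)) ≤
      ENNReal.ofReal (1 / (1 - R ^ 2) ^ 2) •
        ((Measure.comap (fun z : 𝔻 => (z : ℂ)) (volume : Measure ℂ)).restrict (ballD R)) := by
    rw [← withDensity_const]
    apply withDensity_mono
    rw [Filter.EventuallyLE, ae_restrict_iff' (measurableSet_ballD R)]
    refine Filter.Eventually.of_forall fun z hz => ?_
    apply ENNReal.ofReal_le_ofReal
    have hz' : ‖(z : ℂ)‖ < R := hz
    have h0 := norm_nonneg (z : ℂ)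
    have h5 : 0 < 1 - R ^ 2 := by nlinarith
    have h6 : 1 - R ^ 2 ≤ 1 - ‖(z : ℂ)‖ ^ 2 := by nlinarith
    apply one_div_le_one_div_of_le (by positivity)
    exact pow_le_pow_left₀ h5.le h6 2
  exact Integrable.mono_measure (h2.smul_measure ENNReal.ofReal_ne_top) hle

end

end Pool.Agent.Lib.MP_b16327_pr
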