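import Pool.Agent.Lib.MP_b16327_pr.AreaB

/-! # The averaging operator -/

namespace Pool.Agent.Lib.MP_b16327_pr

open Complex MeasureTheory ComplexConjugate Filter
open scoped Complex.UnitDisc Topology BoundedContinuousFunction

noncomputable section

variable {E : Type*} [NormedAddCommGroup E] [NormedSpace ℝ E] [CompleteSpace E]

/-- average over the hyperbolic ball of radius `R` about `z` of `w ↦ F z w` -/
def AvF (R : ℝ) (F : 𝔻 → 𝔻 → E) (z : 𝔻) : E :=
  (area.real (ballD R))⁻¹ • ∫ w in ballD R, F z (tr z • w) ∂area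

/-- the averaging operator `M` -/
def Mop (R : ℝ) (u : 𝔻 → E) (z : 𝔻) : E := AvF R (fun _ w => u w) z

set_option linter.unusedSectionVars false

/-! ### topology of the disc -/

theorem AvA_isOpenEmbedding_coe : Topology.IsOpenEmbedding (fun z : 𝔻 => (z : ℂ)) := by
  refine ⟨UnitDisc.isEmbedding_coe, ?_⟩
  have : Set.range (fun z : 𝔻 => (z : ℂ)) = Metric.ball (0 : ℂ) 1 := by
    ext x
    constructor
    · rintro ⟨z, rfl⟩
      simpa using z.norm_lt_one
    · intro hx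
      exact ⟨UnitDisc.mk x (by simpa using hx), rfl⟩
  rw [this]
  exact Metric.isOpen_ball

instance AvA_secondCountable : SecondCountableTopology 𝔻 :=
  UnitDisc.isEmbedding_coe.secondCountableTopology

instance AvA_t2Space : T2Space 𝔻 := UnitDisc.isEmbedding_coe.t2Space

instance AvA_locallyCompactSpace : LocallyCompactSpace 𝔻 :=
  AvA_isOpenEmbedding_coe.locallyCompactSpace

/-- the homeomorphism `z ↦ g • z` -/
def AvA_homeo (g : SU11) : 𝔻 ≃ₜ 𝔻 where
  toFun z := g • z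
  invFun z := g⁻¹ • z
  left_inv z := by simp
  right_inv z := by simp
  continuous_toFun := continuous_smul_disc g
  continuous_invFun := continuous_smul_disc g⁻¹

theorem AvA_measurableEmbedding (g : SU11) : MeasurableEmbedding (fun z : 𝔻 => g • z) :=
  (AvA_homeo g).measurableEmbedding

/-- the closed and the open disc have the same area -/
theorem AvA_ball_ae_eq (R : ℝ) : (ballD R : Set 𝔻) =ᵐ[area] {w : 𝔻 | ‖(w : ℂ)‖ ≤ R} := by
  have h := area_circle R
  have h1 : ∀ᵐ w : 𝔻 ∂area, ¬ ‖(w : ℂ)‖ = R := by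
    rw [ae_iff]
    simpa using h
  filter_upwards [h1] with w hw
  apply propext
  constructor
  · intro h2
    exact le_of_lt (show ‖(w : ℂ)‖ < R from h2)
  · intro h2
    exact lt_of_le_of_ne (show ‖(w : ℂ)‖ ≤ R from h2) hw

theorem AvA_setIntegral_closed (R : ℝ) (f : 𝔻 → E) :
    ∫ w in ballD R, f w ∂area = ∫ w in {w : 𝔻 | ‖(w : ℂ)‖ ≤ R}, f w ∂area :=
  setIntegral_congr_set (AvA_ball_ae_eq R)

theorem AvA_integrableOn {R : ℝ} (hR : R < 1) {f : 𝔻 → E} (hf : Continuous f) :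
    IntegrableOn f (ballD R) area := by
  have h1 : IntegrableOn f {w : 𝔻 | ‖(w : ℂ)‖ ≤ R} area :=
    hf.continuousOn.integrableOn_compact (isCompact_closedBallD hR)
  exact h1.mono_set (fun w hw => le_of_lt (show ‖(w : ℂ)‖ < R from hw))

theorem AvA_continuous_tr_smul (z : 𝔻) : Continuous (fun w : 𝔻 => tr z • w) :=
  continuous_smul_disc (tr z)

theorem AvA_pd_smul_zero (g : SU11) (w : 𝔻) : pd (g • (0 : 𝔻)) (g • w) = ‖(w : ℂ)‖ := by
  rw [pd_smul, pd_zero_left]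

theorem AvA_pd_tr (z w : 𝔻) : pd z (tr z • w) = ‖(w : ℂ)‖ := by
  have := AvA_pd_smul_zero (tr z) w
  rwa [tr_smul_zero] at this

theorem AvA_real_pos {R : ℝ} (hR0 : 0 < R) (hR : R < 1) : 0 < area.real (ballD R) :=
  ENNReal.toReal_pos (area_ballD_pos hR0).ne' (area_ballD_lt_top hR).ne

/-- kernel form with a general `g` -/
theorem AvA_kernel_aux (R : ℝ) (f : 𝔻 → E) (g : SU11) :
    ∫ w in ballD R, f (g • w) ∂area = ∫ w in {w : 𝔻 | pd (g • (0 : 𝔻)) w < R}, f w ∂area := by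
  rw [← (measurePreserving_smul g).setIntegral_preimage_emb (AvA_measurableEmbedding g) f]
  have : (fun z : 𝔻 => g • z) ⁻¹' {w : 𝔻 | pd (g • (0 : 𝔻)) w < R} = ballD R := by
    ext w
    change pd (g • (0 : 𝔻)) (g • w) < R ↔ ‖(w : ℂ)‖ < R
    rw [AvA_pd_smul_zero]
  rw [this]

/-- kernel form of the average -/
theorem AvF_kernel (R : ℝ) (F : 𝔻 → 𝔻 → E) (z : 𝔻) :
    AvF R F z = (area.real (ballD R))⁻¹ • ∫ w in {w : 𝔻 | pd z w < R}, F z w ∂area := by
  unfold AvF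
  rw [AvA_kernel_aux R (F z) (tr z), tr_smul_zero]

/-- general `g`: the choice of `g` with `g • 0 = z` does not matter (rotation invariance) -/
theorem AvF_eq_of_smul (R : ℝ) (F : 𝔻 → 𝔻 → E) (g : SU11) :
    AvF R F (g • (0 : 𝔻)) =
      (area.real (ballD R))⁻¹ • ∫ w in ballD R, F (g • (0 : 𝔻)) (g • w) ∂area := by
  rw [AvF_kernel, AvA_kernel_aux R (F (g • (0 : 𝔻))) g]

/-- equivariance -/
theorem AvF_smul (R : ℝ) (F : 𝔻 → 𝔻 → E) (g : SU11) (z : 𝔻) :
    AvF R F (g • z) = AvF R (fun z w => F (g • z) (g • w)) z := by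
  have h1 : g • z = (g * tr z) • (0 : 𝔻) := by rw [mul_smul, tr_smul_zero]
  rw [h1, AvF_eq_of_smul]
  unfold AvF
  simp only [mul_smul, tr_smul_zero]

theorem Mop_smul (R : ℝ) (u : 𝔻 → E) (g : SU11) (z : 𝔻) :
    Mop R u (g • z) = Mop R (fun w => u (g • w)) z := by
  unfold Mop
  rw [AvF_smul]

theorem AvA_continuous_slice {F : 𝔻 → 𝔻 → E}
    (hF : Continuous (fun p : 𝔻 × 𝔻 => F p.1 p.2)) (z : 𝔻) :
    Continuous (fun w : 𝔻 => F z (tr z • w)) :=
  hF.comp (continuous_const.prodMk (AvA_continuous_tr_smul z))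

theorem integrableOn_AvF {R : ℝ} (hR : R < 1) {F : 𝔻 → 𝔻 → E}
    (hF : Continuous (fun p : 𝔻 × 𝔻 => F p.1 p.2)) (z : 𝔻) :
    IntegrableOn (fun w : 𝔻 => F z (tr z • w)) (ballD R) area :=
  AvA_integrableOn hR (AvA_continuous_slice hF z)

/-- continuity (dominated convergence; `F` is bounded on compact sets) -/
theorem continuous_AvF {R : ℝ} (hR : R < 1) {F : 𝔻 → 𝔻 → E}
    (hF : Continuous (fun p : 𝔻 × 𝔻 => F p.1 p.2)) : Continuous (AvF R F) := by
  have h1 : Continuous (Function.uncurry (fun z w : 𝔻 => F z (tr z • w))) := by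
    have : Continuous (fun p : 𝔻 × 𝔻 => (p.1, tr p.1 • p.2)) :=
      continuous_fst.prodMk continuous_tr_smul
    exact hF.comp this
  have h2 := continuous_parametric_integral_of_continuous (μ := area) h1
    (isCompact_closedBallD hR)
  have h3 : AvF R F = fun z => (area.real (ballD R))⁻¹ •
      ∫ w in {w : 𝔻 | ‖(w : ℂ)‖ ≤ R}, F z (tr z • w) ∂area := by
    funext z
    unfold AvF
    rw [AvA_setIntegral_closed]
  rw [h3]
  exact h2.const_smul _

theorem AvA_continuous_snd {u : 𝔻 → E} (hu : Continuous u) :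
    Continuous (fun p : 𝔻 × 𝔻 => (fun _ w : 𝔻 => u w) p.1 p.2) := hu.comp continuous_snd

theorem continuous_Mop {R : ℝ} (hR : R < 1) {u : 𝔻 → E} (hu : Continuous u) :
    Continuous (Mop R u) :=
  continuous_AvF hR (AvA_continuous_snd hu)

theorem AvF_add {R : ℝ} (hR : R < 1) {F G : 𝔻 → 𝔻 → E}
    (hF : Continuous (fun p : 𝔻 × 𝔻 => F p.1 p.2)) (hG : Continuous (fun p : 𝔻 × 𝔻 => G p.1 p.2))
    (z : 𝔻) : AvF R (fun z w => F z w + G z w) z = AvF R F z + AvF R G z := by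
  unfold AvF
  rw [integral_add (integrableOn_AvF hR hF z) (integrableOn_AvF hR hG z), smul_add]

theorem AvF_sub {R : ℝ} (hR : R < 1) {F G : 𝔻 → 𝔻 → E}
    (hF : Continuous (fun p : 𝔻 × 𝔻 => F p.1 p.2)) (hG : Continuous (fun p : 𝔻 × 𝔻 => G p.1 p.2))
    (z : 𝔻) : AvF R (fun z w => F z w - G z w) z = AvF R F z - AvF R G z := by
  unfold AvF
  rw [integral_sub (integrableOn_AvF hR hF z) (integrableOn_AvF hR hG z), smul_sub]

/-- factors depending on the centre only come out (no hypothesis needed) -/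
theorem AvF_smul_left (R : ℝ) (c : 𝔻 → ℝ) (F : 𝔻 → 𝔻 → E) (z : 𝔻) :
    AvF R (fun z w => c z • F z w) z = c z • AvF R F z := by
  unfold AvF
  rw [integral_smul, smul_comm]

theorem AvF_const_left {R : ℝ} (hR0 : 0 < R) (hR : R < 1) (c : 𝔻 → E) (z : 𝔻) :
    AvF R (fun z _ => c z) z = c z := by
  unfold AvF
  rw [setIntegral_const, smul_smul, inv_mul_cancel₀ (AvA_real_pos hR0 hR).ne', one_smul]

theorem Mop_const {R : ℝ} (hR0 : 0 < R) (hR : R < 1) (c : E) (z : 𝔻) :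
    Mop R (fun _ => c) z = c :=
  AvF_const_left hR0 hR (fun _ => c) z

theorem Mop_add {R : ℝ} (hR : R < 1) {u v : 𝔻 → E} (hu : Continuous u) (hv : Continuous v)
    (z : 𝔻) : Mop R (fun w => u w + v w) z = Mop R u z + Mop R v z :=
  AvF_add hR (AvA_continuous_snd hu) (AvA_continuous_snd hv) z

theorem Mop_sub {R : ℝ} (hR : R < 1) {u v : 𝔻 → E} (hu : Continuous u) (hv : Continuous v)
    (z : 𝔻) : Mop R (fun w => u w - v w) z = Mop R u z - Mop R v z :=
  AvF_sub hR (AvA_continuous_snd hu) (AvA_continuous_snd hv) z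

/-- norm bound -/
theorem norm_AvF_le {R : ℝ} (hR0 : 0 < R) (hR : R < 1) {F : 𝔻 → 𝔻 → E} {z : 𝔻} {C : ℝ}
    (hC : ∀ w : 𝔻, pd z w < R → ‖F z w‖ ≤ C) : ‖AvF R F z‖ ≤ C := by
  have hp := AvA_real_pos hR0 hR
  unfold AvF
  rw [norm_smul, norm_inv, Real.norm_of_nonneg hp.le]
  have h1 : ‖∫ w in ballD R, F z (tr z • w) ∂area‖ ≤ C * area.real (ballD R) := by
    apply norm_setIntegral_le_of_norm_le_const (area_ballD_lt_top hR)
    intro w hw
    apply hC
    rw [AvA_pd_tr]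
    exact hw
  calc (area.real (ballD R))⁻¹ * ‖∫ w in ballD R, F z (tr z • w) ∂area‖
      ≤ (area.real (ballD R))⁻¹ * (C * area.real (ballD R)) :=
        mul_le_mul_of_nonneg_left h1 (inv_nonneg.2 hp.le)
    _ = C := by field_simp

theorem norm_Mop_sub_le {R : ℝ} (hR0 : 0 < R) (hR : R < 1) {u : 𝔻 → E} (hu : Continuous u)
    {z : 𝔻} {C : ℝ} (hC : ∀ w : 𝔻, pd z w < R → ‖u w - u z‖ ≤ C) : ‖Mop R u z - u z‖ ≤ C := by
  have h1 : Mop R u z - u z = AvF R (fun _ w => u w - u z) z := by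
    have h2 := Mop_sub hR hu (continuous_const (y := u z)) z
    rw [Mop_const hR0 hR] at h2
    exact h2.symm
  rw [h1]
  exact norm_AvF_le hR0 hR hC

theorem AvF_mul_left (R : ℝ) (c : 𝔻 → ℂ) (F : 𝔻 → 𝔻 → ℂ) (z : 𝔻) :
    AvF R (fun z w => c z * F z w) z = c z * AvF R F z := by
  unfold AvF
  rw [integral_const_mul, mul_smul_comm]

theorem Mop_mul_left (R : ℝ) (c : ℂ) (u : 𝔻 → ℂ) (z : 𝔻) :
    Mop R (fun w => c * u w) z = c * Mop R u z :=
  AvF_mul_left R (fun _ => c) (fun _ w => u w) z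

theorem Mop_ofReal (R : ℝ) (u : 𝔻 → ℝ) (z : 𝔻) :
    Mop R (fun w => (u w : ℂ)) z = ((Mop R u z : ℝ) : ℂ) := by
  have h := integral_ofReal (𝕜 := ℂ) (μ := area.restrict (ballD R)) (f := fun w => u (tr z • w))
  change (area.real (ballD R))⁻¹ • (∫ w in ballD R, ((u (tr z • w) : ℝ) : ℂ) ∂area) =
    (((area.real (ballD R))⁻¹ • ∫ w in ballD R, u (tr z • w) ∂area : ℝ) : ℂ)
  rw [Complex.real_smul, smul_eq_mul, Complex.ofReal_mul]
  exact congrArg _ h

theorem AvF_mono {R : ℝ} (hR : R < 1) {F G : 𝔻 → 𝔻 → ℝ}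
    (hF : Continuous (fun p : 𝔻 × 𝔻 => F p.1 p.2)) (hG : Continuous (fun p : 𝔻 × 𝔻 => G p.1 p.2))
    {z : 𝔻} (hFG : ∀ w : 𝔻, pd z w < R → F z w ≤ G z w) : AvF R F z ≤ AvF R G z := by
  unfold AvF
  rw [smul_eq_mul, smul_eq_mul]
  apply mul_le_mul_of_nonneg_left _ (inv_nonneg.2 measureReal_nonneg)
  apply setIntegral_mono_on (integrableOn_AvF hR hF z) (integrableOn_AvF hR hG z)
    (measurableSet_ballD R)
  intro w hw
  apply hFG
  rw [AvA_pd_tr]
  exact hw

end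

end Pool.Agent.Lib.MP_b16327_pr
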