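import Mathlib

/-! # Bordered operators -/

namespace Pool.Agent.Lib.MP_b16327_pr

open Complex MeasureTheory ComplexConjugate Filter
open scoped Complex.UnitDisc Topology BoundedContinuousFunction

noncomputable section

/-- BORDERED OPERATOR.  `T_c (v, e) = (v - M_c v + e • one, I v)` on `E × ℂ`.  `T_0` is bijective:
`I(one) = 1`, `I ∘ M_0 = I`, `M_0 one = one` and `S` inverts `1 - M_0` on `ker I`.  So `T_c` is
invertible for `c` near `0`, with inverse holomorphic in `c`
(`ContinuousLinearMap.inverse`, `Ring.inverse`, `differentiableAt_inverse`,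
open mapping not needed: the inverse of `T_0` is explicit:
`T_0⁻¹(g, t) = (S (g - I g • one) + t • one, I g)`).
Set `(φ_c, e_c) = T_c⁻¹ (0, 1)`, `Ec c = - e_c`, `(Rs_c g, ε_c g) = T_c⁻¹ (g, 0)`. -/
theorem bordered {E V : Type*} [NormedAddCommGroup E] [NormedSpace ℂ E] [CompleteSpace E]
    [NormedAddCommGroup V] [NormedSpace ℂ V]
    (M : V → E →L[ℂ] E) (hM : Differentiable ℂ M) (one : E) (I : E →L[ℂ] ℂ)
    (h1 : I one = 1) (hM1 : M 0 one = one) (hI : ∀ v, I (M 0 v) = I v)
    (S : E →L[ℂ] E) (hS : ∀ v, I v = 0 → I (S v) = 0 ∧ S v - M 0 (S v) = v ∧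
      S (v - M 0 v) = v) :
    ∃ ρ : ℝ, 0 < ρ ∧ ∃ (φ : V → E) (Ec : V → ℂ) (Rs : V → E →L[ℂ] E) (εs : V → E →L[ℂ] ℂ),
      DifferentiableOn ℂ φ (Metric.ball 0 ρ) ∧ DifferentiableOn ℂ Ec (Metric.ball 0 ρ) ∧
      DifferentiableOn ℂ Rs (Metric.ball 0 ρ) ∧ φ 0 = one ∧
      ∀ c ∈ Metric.ball (0 : V) ρ,
        φ c - M c (φ c) = Ec c • one ∧ I (φ c) = 1 ∧
        (∀ g, Rs c g - M c (Rs c g) = g - εs c g • one ∧ I (Rs c g) = 0) ∧
        (∀ v t, v - M c v = t • one → v = I v • φ c ∧ t = I v * Ec c) := by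
  -- the bordered operator
  set A0 : (E × ℂ) →L[ℂ] (E × ℂ) :=
    ((ContinuousLinearMap.fst ℂ E ℂ) + (ContinuousLinearMap.snd ℂ E ℂ).smulRight one).prod
      (I.comp (ContinuousLinearMap.fst ℂ E ℂ)) with hA0
  set A : V → (E × ℂ) →L[ℂ] (E × ℂ) := fun c =>
    A0 - (ContinuousLinearMap.inl ℂ E ℂ).comp ((M c).comp (ContinuousLinearMap.fst ℂ E ℂ)) with hA
  have hAap : ∀ c v e, A c (v, e) = (v - M c v + e • one, I v) := by
    intro c v e
    simp only [hA, hA0, _root_.sub_apply, ContinuousLinearMap.prod_apply,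
      _root_.add_apply, ContinuousLinearMap.coe_fst', ContinuousLinearMap.smulRight_apply,
      ContinuousLinearMap.coe_snd', ContinuousLinearMap.comp_apply, ContinuousLinearMap.inl_apply,
      Prod.mk_sub_mk, sub_zero]
    refine Prod.ext ?_ rfl
    show v + e • one - M c v = v - M c v + e • one
    abel
  have hAdiff : Differentiable ℂ A := by
    refine (differentiable_const _).sub ?_
    exact (differentiable_const _).clm_comp (hM.clm_comp (differentiable_const _))
  -- the inverse at zero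
  set B0 : (E × ℂ) →L[ℂ] (E × ℂ) :=
    (S.comp (ContinuousLinearMap.fst ℂ E ℂ -
      (I.comp (ContinuousLinearMap.fst ℂ E ℂ)).smulRight one) +
      (ContinuousLinearMap.snd ℂ E ℂ).smulRight one).prod
      (I.comp (ContinuousLinearMap.fst ℂ E ℂ)) with hB0
  have hB0ap : ∀ g t, B0 (g, t) = (S (g - I g • one) + t • one, I g) := by
    intro g t
    rfl
  have hAB : A 0 * B0 = 1 := by
    refine ContinuousLinearMap.ext fun x => ?_
    obtain ⟨g, t⟩ := x
    show A 0 (B0 (g, t)) = (g, t)
    rw [hB0ap, hAap]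
    have hw : I (g - I g • one) = 0 := by
      rw [map_sub, map_smul, h1, smul_eq_mul, mul_one, sub_self]
    obtain ⟨s1, s2, _⟩ := hS _ hw
    refine Prod.ext ?_ ?_
    · show S (g - I g • one) + t • one - M 0 (S (g - I g • one) + t • one) + I g • one = g
      rw [map_add, map_smul, hM1]
      calc S (g - I g • one) + t • one - (M 0 (S (g - I g • one)) + t • one) + I g • one
          = (S (g - I g • one) - M 0 (S (g - I g • one))) + I g • one := by abel
        _ = g := by rw [s2]; abel
    · show I (S (g - I g • one) + t • one) = t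
      rw [map_add, map_smul, h1, s1, smul_eq_mul, mul_one, zero_add]
  have hBA : B0 * A 0 = 1 := by
    refine ContinuousLinearMap.ext fun x => ?_
    obtain ⟨v, e⟩ := x
    show B0 (A 0 (v, e)) = (v, e)
    rw [hAap, hB0ap]
    have hIg : I (v - M 0 v + e • one) = e := by
      rw [map_add, map_sub, hI, sub_self, map_smul, h1, smul_eq_mul, mul_one, zero_add]
    rw [hIg]
    have hw : I (v - I v • one) = 0 := by
      rw [map_sub, map_smul, h1, smul_eq_mul, mul_one, sub_self]
    obtain ⟨_, _, s3⟩ := hS _ hw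
    refine Prod.ext ?_ rfl
    show S (v - M 0 v + e • one - e • one) + I v • one = v
    have e1 : v - M 0 v + e • one - e • one = (v - I v • one) - M 0 (v - I v • one) := by
      rw [map_sub, map_smul, hM1]
      abel
    rw [e1, s3]
    abel
  have hU0 : IsUnit (A 0) := ⟨⟨A 0, B0, hAB, hBA⟩, rfl⟩
  have hopen : IsOpen (A ⁻¹' {x | IsUnit x}) := Units.isOpen.preimage hAdiff.continuous
  obtain ⟨ρ, hρ, hball⟩ := Metric.isOpen_iff.mp hopen 0 hU0
  have hBdiff : DifferentiableOn ℂ (fun c => Ring.inverse (A c)) (Metric.ball 0 ρ) := by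
    intro c hc
    have hu : IsUnit (A c) := hball hc
    exact ((differentiableAt_inverse hu).comp c (hAdiff c)).differentiableWithinAt
  have hmul : ∀ c ∈ Metric.ball (0 : V) ρ, ∀ x, A c (Ring.inverse (A c) x) = x := by
    intro c hc x
    have hu : IsUnit (A c) := hball hc
    have := Ring.mul_inverse_cancel (A c) hu
    exact congrArg (fun T : (E × ℂ) →L[ℂ] (E × ℂ) => T x) this
  have hmul' : ∀ c ∈ Metric.ball (0 : V) ρ, ∀ x, Ring.inverse (A c) (A c x) = x := by
    intro c hc x
    have hu : IsUnit (A c) := hball hc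
    have := Ring.inverse_mul_cancel (A c) hu
    exact congrArg (fun T : (E × ℂ) →L[ℂ] (E × ℂ) => T x) this
  refine ⟨ρ, hρ, fun c => (Ring.inverse (A c) (0, 1)).1, fun c => -(Ring.inverse (A c) (0, 1)).2,
    fun c => (ContinuousLinearMap.fst ℂ E ℂ).comp ((Ring.inverse (A c)).comp
      (ContinuousLinearMap.inl ℂ E ℂ)),
    fun c => (ContinuousLinearMap.snd ℂ E ℂ).comp ((Ring.inverse (A c)).comp
      (ContinuousLinearMap.inl ℂ E ℂ)), ?_, ?_, ?_, ?_, ?_⟩
  · exact (hBdiff.clm_apply (differentiableOn_const _)).fst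
  · exact ((hBdiff.clm_apply (differentiableOn_const _)).snd).neg
  · exact (differentiableOn_const _).clm_comp (hBdiff.clm_comp (differentiableOn_const _))
  · have h2 : A 0 (one, 0) = (0, 1) := by
      rw [hAap, hM1, h1]
      simp
    have h3 := hmul' 0 (Metric.mem_ball_self hρ) (one, 0)
    rw [h2] at h3
    show (Ring.inverse (A 0) (0, 1)).1 = one
    rw [h3]
  · intro c hc
    have h2 := hmul c hc (0, 1)
    have h2' : A c ((Ring.inverse (A c) (0, 1)).1, (Ring.inverse (A c) (0, 1)).2) = (0, 1) := h2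
    rw [hAap] at h2'
    have h2a := congrArg Prod.fst h2'
    have h2b := congrArg Prod.snd h2'
    refine ⟨?_, h2b, ?_, ?_⟩
    · have h2a' : (Ring.inverse (A c) (0, 1)).1 - M c (Ring.inverse (A c) (0, 1)).1 +
        (Ring.inverse (A c) (0, 1)).2 • one = 0 := h2a
      show (Ring.inverse (A c) (0, 1)).1 - M c (Ring.inverse (A c) (0, 1)).1 =
        (-(Ring.inverse (A c) (0, 1)).2) • one
      rw [neg_smul]
      exact eq_neg_of_add_eq_zero_left h2a'
    · intro g
      have h3 : A c ((Ring.inverse (A c) (g, 0)).1, (Ring.inverse (A c) (g, 0)).2) = (g, 0) :=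
        hmul c hc (g, 0)
      rw [hAap] at h3
      have h3a : (Ring.inverse (A c) (g, 0)).1 - M c (Ring.inverse (A c) (g, 0)).1 +
        (Ring.inverse (A c) (g, 0)).2 • one = g := congrArg Prod.fst h3
      have h3b : I (Ring.inverse (A c) (g, 0)).1 = 0 := congrArg Prod.snd h3
      refine ⟨?_, h3b⟩
      show (Ring.inverse (A c) (g, 0)).1 - M c (Ring.inverse (A c) (g, 0)).1 =
        g - (Ring.inverse (A c) (g, 0)).2 • one
      exact eq_sub_of_add_eq h3a
    · intro v t hvt
      have h4 : A c (v, -t) = (I v) • ((0 : E), (1 : ℂ)) := by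
        rw [hAap, hvt]
        refine Prod.ext ?_ ?_
        · show t • one + (-t) • one = I v • (0 : E)
          rw [neg_smul, smul_zero, add_neg_cancel]
        · show I v = I v * 1
          rw [mul_one]
      have h5 := hmul' c hc (v, -t)
      rw [h4, map_smul] at h5
      have h5a : I v • (Ring.inverse (A c) (0, 1)).1 = v := congrArg Prod.fst h5
      have h5b : I v • (Ring.inverse (A c) (0, 1)).2 = -t := congrArg Prod.snd h5
      refine ⟨h5a.symm, ?_⟩
      rw [smul_eq_mul] at h5b
      rw [mul_neg, h5b, neg_neg]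

end

end Pool.Agent.Lib.MP_b16327_pr
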