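import Mathlib

/-! # Two lemmas of complex analysis -/

namespace Pool.Agent.Lib.MP_b16327_pr

open Complex MeasureTheory ComplexConjugate Filter
open scoped Complex.UnitDisc Topology BoundedContinuousFunction

noncomputable section

/-- CONTINUATION.  A holomorphic function near `0` in `ℂ^n` vanishing at all small purely imaginary
points vanishes near `0`: for `c*` with `‖c*‖ < ρ/3` consider
`s ↦ F (i (Im c* - s Re c*))` on `|s| < 2`, zero for real `s`, and take `s = i`. -/
theorem eq_zero_of_imaginary {n : ℕ} (hn : 0 < n) {F : (Fin n → ℂ) → ℂ} {ρ : ℝ} (hρ : 0 < ρ)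
    (hF : DifferentiableOn ℂ F (Metric.ball 0 ρ))
    (h0 : ∀ c ∈ Metric.ball (0 : Fin n → ℂ) ρ, (∀ j, (c j).re = 0) → c ≠ 0 → F c = 0) :
    ∀ c ∈ Metric.ball (0 : Fin n → ℂ) (ρ / 4), F c = 0 := by
  -- the sequence `1 / (k + 1)`
  have hseq : Tendsto (fun k : ℕ => ((1 / ((k : ℝ) + 1) : ℝ) : ℂ)) atTop (𝓝 0) := by
    have h := (Complex.continuous_ofReal.tendsto 0).comp
      (tendsto_one_div_add_atTop_nhds_zero_nat (𝕜 := ℝ))
    simpa [Function.comp_def] using h
  -- the value at zero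
  have hF0 : F 0 = 0 := by
    have hcont : ContinuousAt F 0 :=
      (hF.differentiableAt (Metric.ball_mem_nhds 0 hρ)).continuousAt
    have hc : Tendsto (fun k : ℕ => (fun _ : Fin n => ((1 / ((k : ℝ) + 1) : ℝ) : ℂ) * I))
        atTop (𝓝 (0 : Fin n → ℂ)) := by
      rw [tendsto_pi_nhds]
      intro j
      have := hseq.mul_const I
      simpa using this
    have h1 : Tendsto (fun k : ℕ => F (fun _ : Fin n => ((1 / ((k : ℝ) + 1) : ℝ) : ℂ) * I))
        atTop (𝓝 (F 0)) := hcont.tendsto.comp hc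
    have h2 : ∀ᶠ k : ℕ in atTop, F (fun _ : Fin n => ((1 / ((k : ℝ) + 1) : ℝ) : ℂ) * I) = 0 := by
      filter_upwards [hc.eventually (Metric.ball_mem_nhds 0 hρ)] with k hk
      refine h0 _ hk ?_ ?_
      · intro j
        simp
      · intro h3
        have h4 := congrFun h3 ⟨0, hn⟩
        have h5 : ((k : ℝ) + 1) ≠ 0 := by positivity
        simp only [Pi.zero_apply, mul_eq_zero, Complex.ofReal_eq_zero, one_div, inv_eq_zero,
          Complex.I_ne_zero, or_false] at h4
        exact h5 h4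
    exact tendsto_nhds_unique (h1.congr' h2) tendsto_const_nhds
  have h0' : ∀ c ∈ Metric.ball (0 : Fin n → ℂ) ρ, (∀ j, (c j).re = 0) → F c = 0 := by
    intro c hc hre
    by_cases hc0 : c = 0
    · rw [hc0, hF0]
    · exact h0 c hc hre hc0
  intro c hc
  rw [mem_ball_zero_iff] at hc
  set x : Fin n → ℂ := fun j => ((c j).re : ℂ) with hx
  set y : Fin n → ℂ := fun j => ((c j).im : ℂ) with hy
  have hxn : ‖x‖ ≤ ‖c‖ := by
    refine (pi_norm_le_iff_of_nonneg (norm_nonneg _)).mpr fun j => ?_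
    rw [hx]
    show ‖((c j).re : ℂ)‖ ≤ ‖c‖
    rw [Complex.norm_real]
    exact (Complex.abs_re_le_norm (c j)).trans (norm_le_pi_norm c j)
  have hyn : ‖y‖ ≤ ‖c‖ := by
    refine (pi_norm_le_iff_of_nonneg (norm_nonneg _)).mpr fun j => ?_
    rw [hy]
    show ‖((c j).im : ℂ)‖ ≤ ‖c‖
    rw [Complex.norm_real]
    exact (Complex.abs_im_le_norm (c j)).trans (norm_le_pi_norm c j)
  set L : ℂ → (Fin n → ℂ) := fun s => I • y - (I * s) • x with hL
  have hLball : ∀ s ∈ Metric.ball (0 : ℂ) 3, L s ∈ Metric.ball (0 : Fin n → ℂ) ρ := by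
    intro s hs
    rw [mem_ball_zero_iff] at hs ⊢
    have h1 : ‖L s‖ ≤ ‖y‖ + ‖s‖ * ‖x‖ := by
      refine (norm_sub_le _ _).trans ?_
      rw [norm_smul, norm_smul, norm_mul, Complex.norm_I, one_mul, one_mul]
    have h2 : ‖s‖ * ‖x‖ ≤ 3 * ‖c‖ := mul_le_mul hs.le hxn (norm_nonneg _) (by norm_num)
    linarith
  have hLd : Differentiable ℂ L := by
    refine (differentiable_const _).sub ?_
    exact ((differentiable_const _).mul differentiable_id).smul_const _
  have hg : DifferentiableOn ℂ (fun s => F (L s)) (Metric.ball 0 3) :=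
    hF.comp hLd.differentiableOn hLball
  have hga : AnalyticOnNhd ℂ (fun s => F (L s)) (Metric.ball 0 3) :=
    hg.analyticOnNhd Metric.isOpen_ball
  have hfreq : ∃ᶠ z in 𝓝[≠] (0 : ℂ), (fun s => F (L s)) z = 0 := by
    have hseq' : Tendsto (fun k : ℕ => ((1 / ((k : ℝ) + 1) : ℝ) : ℂ)) atTop (𝓝[≠] 0) := by
      refine tendsto_nhdsWithin_iff.mpr ⟨hseq, Eventually.of_forall fun k => ?_⟩
      have h5 : ((k : ℝ) + 1) ≠ 0 := by positivity
      simp only [Set.mem_compl_iff, Set.mem_singleton_iff, Complex.ofReal_eq_zero, one_div,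
        inv_eq_zero]
      exact h5
    refine hseq'.frequently (Eventually.frequently ?_)
    have hev : ∀ᶠ k : ℕ in atTop, ((1 / ((k : ℝ) + 1) : ℝ) : ℂ) ∈ Metric.ball (0 : ℂ) 3 :=
      hseq.eventually (Metric.ball_mem_nhds 0 (by norm_num))
    filter_upwards [hev] with k hk
    refine h0' _ (hLball _ hk) ?_
    intro j
    simp [hL, hx, hy]
  have hz := hga.eqOn_zero_of_preconnected_of_frequently_eq_zero
    (convex_ball (0 : ℂ) 3).isPreconnected (Metric.mem_ball_self (by norm_num)) hfreq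
  have hI : (I : ℂ) ∈ Metric.ball (0 : ℂ) 3 := by
    rw [mem_ball_zero_iff, Complex.norm_I]
    norm_num
  have hfin := hz hI
  have hLI : L I = c := by
    funext j
    show I • y j - (I * I) • x j = c j
    rw [Complex.I_mul_I, smul_eq_mul, smul_eq_mul]
    rw [hx, hy]
    apply Complex.ext <;> simp
  have hfin' : F (L I) = 0 := hfin
  rw [hLI] at hfin'
  exact hfin'

/-- CLOSURE.  `E` holomorphic near `0` in `ℂ^n`, `E (p) = 0`, `E (p - t • q) ≠ 0`; then every
neighbourhood of `p` contains zeros of the form `p + ε • d + z • q` with `ε ≠ 0`.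
Let `f(z) = E(p + z q)`: not identically zero on the disc `|z| < r`, so its zero at `0` is
isolated; choose a small circle `|z| = s` with `f ≠ 0` on it; for small `ε`,
`|E(p + ε d + z q)| ≥ m/2` on the circle and `< m/2` at `z = 0`, and if there were no zero inside,
the maximum principle for `1/E` would be violated. -/
theorem zeros_near {n : ℕ} {F : (Fin n → ℂ) → ℂ} {ρ : ℝ}
    (hF : DifferentiableOn ℂ F (Metric.ball 0 ρ)) {p q d : Fin n → ℂ} {t : ℝ} (ht : 0 < t)
    (hseg : ∀ z : ℂ, ‖z‖ ≤ t → p + z • q ∈ Metric.ball (0 : Fin n → ℂ) ρ)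
    (h0 : F p = 0) (h1 : F (p + (-(t : ℂ)) • q) ≠ 0) {δ : ℝ} (hδ : 0 < δ) :
    ∃ (ε : ℝ) (z : ℂ), 0 < ε ∧ ε < δ ∧ ‖z‖ < δ ∧
      p + (ε : ℂ) • d + z • q ∈ Metric.ball (0 : Fin n → ℂ) ρ ∧
      F (p + (ε : ℂ) • d + z • q) = 0 := by
  -- the domain of the one-variable function
  set U : Set ℂ := (fun z : ℂ => p + z • q) ⁻¹' Metric.ball (0 : Fin n → ℂ) ρ with hU
  have hLd : Differentiable ℂ (fun z : ℂ => p + z • q) :=
    (differentiable_const _).add (differentiable_id.smul_const _)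
  have hUo : IsOpen U := Metric.isOpen_ball.preimage hLd.continuous
  have hUc : Convex ℝ U := by
    intro a ha b hb α β hα hβ hαβ
    have hab := convex_ball (0 : Fin n → ℂ) ρ ha hb hα hβ hαβ
    have e : α • (p + a • q) + β • (p + b • q) = p + (α • a + β • b) • q := by
      rw [smul_add, smul_add, add_smul]
      have h2 : α • p + β • p = p := by rw [← add_smul, hαβ, one_smul]
      calc α • p + α • a • q + (β • p + β • b • q)
          = (α • p + β • p) + (α • a • q + β • b • q) := by abel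
        _ = p + ((α • a) • q + (β • b) • q) := by rw [h2, smul_assoc, smul_assoc]
    show p + (α • a + β • b) • q ∈ Metric.ball (0 : Fin n → ℂ) ρ
    rw [← e]
    exact hab
  have hfd : DifferentiableOn ℂ (fun z : ℂ => F (p + z • q)) U :=
    hF.comp hLd.differentiableOn (fun z hz => hz)
  have hfa : AnalyticOnNhd ℂ (fun z : ℂ => F (p + z • q)) U := hfd.analyticOnNhd hUo
  have h0U : (0 : ℂ) ∈ U := hseg 0 (by rw [norm_zero]; exact ht.le)
  have htU : (-(t : ℂ)) ∈ U := hseg _ (by rw [norm_neg, Complex.norm_real, Real.norm_of_nonneg ht.le])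
  have hnf : ¬ ∃ᶠ z in 𝓝[≠] (0 : ℂ), (fun z : ℂ => F (p + z • q)) z = 0 := by
    intro hfr
    exact h1 (hfa.eqOn_zero_of_preconnected_of_frequently_eq_zero hUc.isPreconnected h0U hfr htU)
  rw [not_frequently, eventually_nhdsWithin_iff, Metric.eventually_nhds_iff] at hnf
  obtain ⟨r0, hr0, hr⟩ := hnf
  set s : ℝ := min (min r0 δ) t / 2 with hs
  have hspos : 0 < s := by
    rw [hs]
    have : 0 < min (min r0 δ) t := lt_min (lt_min hr0 hδ) ht
    linarith
  have hsr : s < r0 := by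
    have h2 : min (min r0 δ) t ≤ r0 := (min_le_left _ _).trans (min_le_left _ _)
    rw [hs]; rw [hs] at hspos; linarith
  have hsδ : s < δ := by
    have h2 : min (min r0 δ) t ≤ δ := (min_le_left _ _).trans (min_le_right _ _)
    rw [hs]; rw [hs] at hspos; linarith
  have hst : s < t := by
    have h2 : min (min r0 δ) t ≤ t := min_le_right _ _
    rw [hs]; rw [hs] at hspos; linarith
  -- minimum on the circle
  have hcU : ∀ z ∈ Metric.closedBall (0 : ℂ) s, z ∈ U := by
    intro z hz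
    rw [mem_closedBall_zero_iff] at hz
    exact hseg z (hz.trans hst.le)
  have hcont : ContinuousOn (fun z : ℂ => ‖F (p + z • q)‖) (Metric.sphere 0 s) :=
    (hfd.continuousOn.mono fun z hz => hcU z (Metric.sphere_subset_closedBall hz)).norm
  have hsne : (Metric.sphere (0 : ℂ) s).Nonempty := NormedSpace.sphere_nonempty.mpr hspos.le
  obtain ⟨z0, hz0, hmin⟩ := (isCompact_sphere (0 : ℂ) s).exists_isMinOn hsne hcont
  set m : ℝ := ‖F (p + z0 • q)‖ with hm
  have hmpos : 0 < m := by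
    rw [hm, norm_pos_iff]
    rw [mem_sphere_zero_iff_norm] at hz0
    have h2 : dist z0 0 < r0 := by rw [dist_zero_right, hz0]; exact hsr
    refine hr h2 ?_
    intro h3
    rw [Set.mem_singleton_iff] at h3
    rw [h3, norm_zero] at hz0
    exact hspos.ne hz0
  have hmle : ∀ z ∈ Metric.sphere (0 : ℂ) s, m ≤ ‖F (p + z • q)‖ := fun z hz => hmin hz
  -- uniformity in `z`
  have huni : ∀ᶠ ε : ℝ in 𝓝 0, ∀ z ∈ Metric.closedBall (0 : ℂ) s,
      (p + (ε : ℂ) • d + z • q ∈ Metric.ball (0 : Fin n → ℂ) ρ ∧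
        ‖F (p + (ε : ℂ) • d + z • q) - F (p + z • q)‖ < m / 4) := by
    refine (isCompact_closedBall (0 : ℂ) s).eventually_forall_of_forall_eventually ?_
    intro z hz
    have hzU : p + z • q ∈ Metric.ball (0 : Fin n → ℂ) ρ := hcU z hz
    have hA : Continuous (fun x : ℝ × ℂ => p + (x.1 : ℂ) • d + x.2 • q) := by
      refine (continuous_const.add ?_).add (continuous_snd.smul continuous_const)
      exact (Complex.continuous_ofReal.comp continuous_fst).smul continuous_const
    have hB : Continuous (fun x : ℝ × ℂ => p + x.2 • q) :=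
      continuous_const.add (continuous_snd.smul continuous_const)
    have hA0 : p + (((0 : ℝ), z).1 : ℂ) • d + ((0 : ℝ), z).2 • q = p + z • q := by
      simp
    have hFc : ContinuousAt F (p + z • q) :=
      (hF.differentiableAt (Metric.isOpen_ball.mem_nhds hzU)).continuousAt
    have hFA : ContinuousAt (fun x : ℝ × ℂ => F (p + (x.1 : ℂ) • d + x.2 • q)) ((0 : ℝ), z) := by
      refine ContinuousAt.comp (g := F) ?_ hA.continuousAt
      rw [hA0]
      exact hFc
    have hFB : ContinuousAt (fun x : ℝ × ℂ => F (p + x.2 • q)) ((0 : ℝ), z) :=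
      ContinuousAt.comp (g := F) hFc hB.continuousAt
    have hdiff : ContinuousAt (fun x : ℝ × ℂ =>
        ‖F (p + (x.1 : ℂ) • d + x.2 • q) - F (p + x.2 • q)‖) ((0 : ℝ), z) := (hFA.sub hFB).norm
    have hval : ‖F (p + (((0 : ℝ), z).1 : ℂ) • d + ((0 : ℝ), z).2 • q) -
        F (p + ((0 : ℝ), z).2 • q)‖ < m / 4 := by
      rw [hA0, sub_self, norm_zero]
      linarith
    have he1 := hA.continuousAt.eventually (Metric.isOpen_ball.mem_nhds (hA0 ▸ hzU))
    have he2 := hdiff.eventually (gt_mem_nhds hval)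
    exact he1.and he2
  have hpick : ∃ ε : ℝ, (∀ z ∈ Metric.closedBall (0 : ℂ) s,
      (p + (ε : ℂ) • d + z • q ∈ Metric.ball (0 : Fin n → ℂ) ρ ∧
        ‖F (p + (ε : ℂ) • d + z • q) - F (p + z • q)‖ < m / 4)) ∧ ε ∈ Set.Ioo 0 δ :=
    ((huni.filter_mono nhdsWithin_le_nhds).and (Ioo_mem_nhdsGT hδ)).exists
  obtain ⟨ε, hε, hε0, hεδ⟩ := hpick
  by_contra hcon
  push Not at hcon
  have hne : ∀ z ∈ Metric.closedBall (0 : ℂ) s, F (p + (ε : ℂ) • d + z • q) ≠ 0 := by
    intro z hz
    refine hcon ε z hε0 hεδ ?_ (hε z hz).1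
    rw [mem_closedBall_zero_iff] at hz
    exact lt_of_le_of_lt hz hsδ
  have hcl : closure (Metric.ball (0 : ℂ) s) = Metric.closedBall 0 s := closure_ball 0 hspos.ne'
  have hgd : DiffContOnCl ℂ (fun z : ℂ => F (p + (ε : ℂ) • d + z • q)) (Metric.ball 0 s) := by
    refine DifferentiableOn.diffContOnCl ?_
    rw [hcl]
    refine hF.comp ?_ (fun z hz => (hε z hz).1)
    exact ((differentiable_const _).add (differentiable_id.smul_const _)).differentiableOn
  have hinv : DiffContOnCl ℂ (fun z : ℂ => F (p + (ε : ℂ) • d + z • q))⁻¹ (Metric.ball 0 s) :=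
    hgd.inv (by rw [hcl]; exact hne)
  have hbound : ∀ z ∈ frontier (Metric.ball (0 : ℂ) s),
      ‖(fun z : ℂ => F (p + (ε : ℂ) • d + z • q))⁻¹ z‖ ≤ (3 * m / 4)⁻¹ := by
    intro z hz
    rw [frontier_ball (0 : ℂ) hspos.ne'] at hz
    have h2 := hmle z hz
    have h3 := (hε z (Metric.sphere_subset_closedBall hz)).2
    rw [Pi.inv_apply, norm_inv]
    refine inv_anti₀ (by linarith) ?_
    have h4 : ‖F (p + z • q)‖ ≤ ‖F (p + (ε : ℂ) • d + z • q)‖ +
        ‖F (p + (ε : ℂ) • d + z • q) - F (p + z • q)‖ := by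
      have := norm_sub_le (F (p + (ε : ℂ) • d + z • q))
        (F (p + (ε : ℂ) • d + z • q) - F (p + z • q))
      rwa [sub_sub_cancel] at this
    linarith
  have hmax := Complex.norm_le_of_forall_mem_frontier_norm_le Metric.isBounded_ball hinv hbound
    (z := 0) (by rw [hcl]; exact Metric.mem_closedBall_self hspos.le)
  have h00 := (hε 0 (Metric.mem_closedBall_self hspos.le)).2
  have e0 : p + (0 : ℂ) • q = p := by rw [zero_smul, add_zero]
  rw [e0, h0, sub_zero] at h00
  have hne0 := hne 0 (Metric.mem_closedBall_self hspos.le)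
  have hpos0 : 0 < ‖F (p + (ε : ℂ) • d + (0 : ℂ) • q)‖ := norm_pos_iff.mpr hne0
  rw [Pi.inv_apply, norm_inv, inv_le_inv₀ hpos0 (by linarith)] at hmax
  linarith

end

end Pool.Agent.Lib.MP_b16327_pr
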