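import Pool.Agent.Lib.MP_b16327_pr.GeoC

/-! # Conformal factors on the circle -/

namespace Pool.Agent.Lib.MP_b16327_pr

open Complex MeasureTheory ComplexConjugate Filter
open scoped Complex.UnitDisc Topology BoundedContinuousFunction

noncomputable section

private theorem CircB_den_zero (g : SU11) : g.den 0 = conj g.a := by
  unfold SU11.den
  ring

private theorem CircB_normSq_a_pos (g : SU11) : 0 < normSq g.a :=
  normSq_pos.2 g.a_ne_zero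

private theorem CircB_exp_Lg (g : SU11) : Real.exp (Lg g) = normSq g.a := by
  unfold Lg
  exact Real.exp_log (CircB_normSq_a_pos g)

private theorem CircB_exp_neg_Lg (g : SU11) : Real.exp (-Lg g) = (normSq g.a)⁻¹ := by
  rw [Real.exp_neg, CircB_exp_Lg]

private theorem CircB_smul_zero (g : SU11) : ((g • (0 : 𝔻) : 𝔻) : ℂ) = g.b / conj g.a := by
  rw [coe_smul, UnitDisc.coe_zero]
  unfold SU11.mob
  rw [CircB_den_zero, mul_zero, zero_add]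

private theorem CircB_inv_smul_zero (g : SU11) : ((g⁻¹ • (0 : 𝔻) : 𝔻) : ℂ) = -g.b / g.a := by
  rw [CircB_smul_zero, SU11.inv_a, SU11.inv_b, Complex.conj_conj]

private theorem CircB_norm_num (g : SU11) (ξ : Circle) :
    ‖g.a * (ξ : ℂ) + g.b‖ = ‖g.den (ξ : ℂ)‖ := by
  have h0 := g.den_ne_zero ξ.norm_coe.le
  have h1 := g.norm_mob_eq ξ.norm_coe
  unfold SU11.mob at h1
  rwa [norm_div, div_eq_one_iff_eq (norm_ne_zero_iff.2 h0)] at h1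

private theorem CircB_norm_sub (g : SU11) (ξ : Circle) :
    ‖(ξ : ℂ) - ((g⁻¹ • (0 : 𝔻) : 𝔻) : ℂ)‖ = ‖g.den (ξ : ℂ)‖ / ‖g.a‖ := by
  have ha := g.a_ne_zero
  have h : (ξ : ℂ) - ((g⁻¹ • (0 : 𝔻) : 𝔻) : ℂ) = (g.a * (ξ : ℂ) + g.b) / g.a := by
    rw [CircB_inv_smul_zero]
    field_simp
    ring
  rw [h, norm_div, CircB_norm_num]

private theorem CircB_Jac (g : SU11) (ξ : Circle) : Jac g ξ = 1 / normSq ((g⁻¹).den ξ) := by
  unfold Jac SU11.den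
  rw [SU11.inv_a, SU11.inv_b, Complex.conj_conj, map_neg]
  congr 2
  ring

private theorem CircB_den_continuous (g : SU11) : Continuous (fun ξ : Circle => g.den (ξ : ℂ)) := by
  unfold SU11.den
  exact (continuous_const.mul continuous_subtype_val).add continuous_const

theorem continuous_smul_circle (g : SU11) : Continuous (fun ξ : Circle => g • ξ) := by
  refine Topology.IsInducing.subtypeVal.continuous_iff.2 ?_
  show Continuous (fun ξ : Circle => g.mob (ξ : ℂ))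
  have h : Continuous (fun ξ : Circle => (g.a * (ξ : ℂ) + g.b) / g.den (ξ : ℂ)) :=
    ((continuous_const.mul continuous_subtype_val).add continuous_const).div
      (CircB_den_continuous g) fun ξ : Circle => g.den_ne_zero (Circle.norm_coe ξ).le
  exact h

/-- TRACKING.  `|g 0 - g ξ| = e^{-L(g)} / |ξ - g⁻¹ 0|`.
`g 0 = b / conj a`, `g ξ - g 0 = ξ / (conj a * den g ξ)` (use `det'`), and
`g⁻¹ 0 = - b / a`, `|den g ξ| = |a| |1 + (conj b / conj a) ξ| = |a| |ξ - g⁻¹ 0|`. -/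
theorem tracking (g : SU11) (ξ : Circle) :
    ‖((g • (0 : 𝔻) : 𝔻) : ℂ) - ((g • ξ : Circle) : ℂ)‖ * ‖(ξ : ℂ) - ((g⁻¹ • (0 : 𝔻) : 𝔻) : ℂ)‖
      = Real.exp (-Lg g) := by
  have ha : ‖g.a‖ ≠ 0 := norm_ne_zero_iff.2 g.a_ne_zero
  have hd : ‖g.den (ξ : ℂ)‖ ≠ 0 := norm_ne_zero_iff.2 (g.den_ne_zero ξ.norm_coe.le)
  rw [coe_smul, coe_smul_circle, UnitDisc.coe_zero,
    mob_sub_mob g (by simp) ξ.norm_coe.le, CircB_norm_sub, norm_div, norm_mul, CircB_den_zero,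
    Complex.norm_conj, zero_sub, norm_neg, Circle.norm_coe, CircB_exp_neg_Lg,
    Complex.normSq_eq_norm_sq]
  field_simp

theorem Jac_pos (g : SU11) (ξ : Circle) : 0 < Jac g ξ := by
  rw [CircB_Jac]
  exact one_div_pos.2 (normSq_pos.2 ((g⁻¹).den_ne_zero ξ.norm_coe.le))

theorem Jac_one (ξ : Circle) : Jac 1 ξ = 1 := by
  unfold Jac
  simp

/-- cocycle -/
theorem Jac_mul (g h : SU11) (ξ : Circle) : Jac (g * h) ξ = Jac g ξ * Jac h (g⁻¹ • ξ) := by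
  rw [CircB_Jac, CircB_Jac, CircB_Jac, mul_inv_rev, SU11.den_mul _ _ ξ.norm_coe.le, map_mul,
    coe_smul_circle, one_div_mul_one_div, mul_comm]

/-- `J_g(g ξ) = |den g ξ|^2 = e^{L(g)} |ξ - g⁻¹ 0|^2` -/
theorem Jac_smul (g : SU11) (ξ : Circle) :
    Jac g (g • ξ) = Real.exp (Lg g) * ‖(ξ : ℂ) - ((g⁻¹ • (0 : 𝔻) : 𝔻) : ℂ)‖ ^ 2 := by
  have ha : ‖g.a‖ ≠ 0 := norm_ne_zero_iff.2 g.a_ne_zero
  have hd : g.den (ξ : ℂ) ≠ 0 := g.den_ne_zero ξ.norm_coe.le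
  have h1 : (g⁻¹).den (g.mob ξ) * g.den ξ = 1 := by
    rw [← SU11.den_mul _ _ ξ.norm_coe.le, inv_mul_cancel]
    unfold SU11.den
    simp
  have h2 : (g⁻¹).den (g.mob ξ) = (g.den ξ)⁻¹ := eq_inv_of_mul_eq_one_left h1
  rw [CircB_Jac, coe_smul_circle, h2, CircB_norm_sub, CircB_exp_Lg, Complex.normSq_eq_norm_sq,
    Complex.normSq_eq_norm_sq, norm_inv]
  have hd' : ‖g.den (ξ : ℂ)‖ ≠ 0 := norm_ne_zero_iff.2 hd
  field_simp

/-- Poisson kernel form: `J_g(ξ) = (1 - |g0|^2)/|ξ - g0|^2` -/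
theorem Jac_eq_poisson (g : SU11) (ξ : Circle) :
    Jac g ξ = (1 - ‖((g • (0 : 𝔻) : 𝔻) : ℂ)‖ ^ 2) / ‖(ξ : ℂ) - ((g • (0 : 𝔻) : 𝔻) : ℂ)‖ ^ 2 := by
  have ha : ‖g.a‖ ≠ 0 := norm_ne_zero_iff.2 g.a_ne_zero
  have h1 : 1 - ‖((g • (0 : 𝔻) : 𝔻) : ℂ)‖ ^ 2 = 1 / ‖g.a‖ ^ 2 := by
    rw [one_sub_smul, UnitDisc.coe_zero, CircB_den_zero, Complex.normSq_conj, norm_zero,
      Complex.normSq_eq_norm_sq]
    norm_num
  have h2 : ‖(ξ : ℂ) - ((g • (0 : 𝔻) : 𝔻) : ℂ)‖ = ‖(g⁻¹).den (ξ : ℂ)‖ / ‖g.a‖ := by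
    have h := CircB_norm_sub g⁻¹ ξ
    rw [inv_inv, SU11.inv_a, Complex.norm_conj] at h
    exact h
  have hd : ‖(g⁻¹).den (ξ : ℂ)‖ ≠ 0 := norm_ne_zero_iff.2 ((g⁻¹).den_ne_zero ξ.norm_coe.le)
  rw [CircB_Jac, h1, h2, Complex.normSq_eq_norm_sq]
  field_simp

private theorem CircB_norm_le (g : SU11) (ξ : Circle) :
    ‖(g⁻¹).den (ξ : ℂ)‖ ≤ ‖g.a‖ + ‖g.b‖ ∧ ‖g.a‖ - ‖g.b‖ ≤ ‖(g⁻¹).den (ξ : ℂ)‖ := by
  have h : (g⁻¹).den (ξ : ℂ) = g.a - conj g.b * ξ := by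
    unfold SU11.den
    rw [SU11.inv_a, SU11.inv_b, Complex.conj_conj, map_neg]
    ring
  have h2 : ‖conj g.b * (ξ : ℂ)‖ = ‖g.b‖ := by
    rw [norm_mul, Complex.norm_conj, Circle.norm_coe, mul_one]
  rw [h]
  constructor
  · rw [← h2]
    exact norm_sub_le _ _
  · rw [← h2]
    exact norm_sub_norm_le _ _

/-- `|a - conj b ξ| ≥ |a| - |b| = 1/(|a| + |b|) ≥ 1/(2|a|)` -/
theorem Jac_le (g : SU11) (ξ : Circle) : Jac g ξ ≤ 4 * Real.exp (Lg g) := by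
  have hlt := g.norm_b_lt
  have hb := norm_nonneg g.b
  have h1 := (CircB_norm_le g ξ).2
  have hd := g.det
  rw [Complex.normSq_eq_norm_sq, Complex.normSq_eq_norm_sq] at hd
  have hpos : 0 < ‖(g⁻¹).den (ξ : ℂ)‖ := norm_pos_iff.2 ((g⁻¹).den_ne_zero ξ.norm_coe.le)
  have h2 : 1 ≤ 2 * ‖g.a‖ * ‖(g⁻¹).den (ξ : ℂ)‖ := by
    have h3 : (‖g.a‖ + ‖g.b‖) * (‖g.a‖ - ‖g.b‖) = 1 := by nlinarith
    have h4 : (‖g.a‖ + ‖g.b‖) * (‖g.a‖ - ‖g.b‖) ≤ 2 * ‖g.a‖ * ‖(g⁻¹).den (ξ : ℂ)‖ := by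
      apply mul_le_mul (by linarith) h1 (by linarith) (by positivity)
    linarith
  rw [CircB_Jac, CircB_exp_Lg, Complex.normSq_eq_norm_sq, Complex.normSq_eq_norm_sq,
    div_le_iff₀ (by positivity)]
  nlinarith

/-- `|a - conj b ξ| ≤ 2|a|` -/
theorem le_Jac (g : SU11) (ξ : Circle) : Real.exp (-Lg g) / 4 ≤ Jac g ξ := by
  have hlt := g.norm_b_lt
  have h1 := (CircB_norm_le g ξ).1
  have ha : 0 < ‖g.a‖ := norm_pos_iff.2 g.a_ne_zero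
  have hpos : 0 < ‖(g⁻¹).den (ξ : ℂ)‖ := norm_pos_iff.2 ((g⁻¹).den_ne_zero ξ.norm_coe.le)
  rw [CircB_Jac, CircB_exp_neg_Lg, Complex.normSq_eq_norm_sq, Complex.normSq_eq_norm_sq,
    div_le_div_iff₀ (by norm_num) (by positivity), inv_mul_le_iff₀ (by positivity)]
  nlinarith

theorem continuous_Jac (g : SU11) : Continuous (Jac g) := by
  have h : Jac g = fun ξ : Circle => 1 / normSq ((g⁻¹).den ξ) := funext (CircB_Jac g)
  rw [h]
  exact continuous_const.div (Complex.continuous_normSq.comp (CircB_den_continuous g⁻¹))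
    fun ξ => (normSq_pos.2 ((g⁻¹).den_ne_zero ξ.norm_coe.le)).ne'

end

end Pool.Agent.Lib.MP_b16327_pr
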