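import Pool.Agent.Lib.MP_b16327_pr.CircA
import Pool.Agent.Lib.MP_b16327_pr.CircB

/-! # Change of variables on the circle -/

namespace Pool.Agent.Lib.MP_b16327_pr

open Complex MeasureTheory ComplexConjugate Filter
open scoped Complex.UnitDisc Topology BoundedContinuousFunction

noncomputable section

private theorem CircC_integrable {E : Type*} [NormedAddCommGroup E] (F : Circle → E)
    (hF : Continuous F) (μ : Measure Circle) [IsFiniteMeasure μ] : Integrable F μ :=
  hF.integrable_of_hasCompactSupport (HasCompactSupport.of_compactSpace F)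

/-- the coordinate function as a bounded continuous function -/
private def CircC_id : Circle →ᵇ ℂ :=
  BoundedContinuousFunction.mkOfCompact ⟨fun ξ : Circle => (ξ : ℂ), continuous_subtype_val⟩

private theorem CircC_id_apply (ξ : Circle) : CircC_id ξ = (ξ : ℂ) := rfl

/-- finite measures on the circle with the same Fourier coefficients agree -/
private theorem CircC_ext {P P' : Measure Circle} [IsFiniteMeasure P] [IsFiniteMeasure P']
    (h : ∀ n : ℤ, ∫ ξ : Circle, (ξ : ℂ) ^ n ∂P = ∫ ξ : Circle, (ξ : ℂ) ^ n ∂P') : P = P' := by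
  let A : StarSubalgebra ℂ (Circle →ᵇ ℂ) := StarAlgebra.adjoin ℂ {CircC_id}
  refine ext_of_forall_mem_subalgebra_integral_eq_of_polish (𝕜 := ℂ) (A := A) ?_ ?_
  · intro x y hxy
    refine ⟨CircC_id.toContinuousMapStarₐ ℂ, ⟨_, ⟨CircC_id, ?_, rfl⟩, rfl⟩, ?_⟩
    · exact StarAlgebra.subset_adjoin ℂ _ (Set.mem_singleton _)
    · intro he
      apply hxy
      exact Circle.coe_injective he
  · intro g hg
    have hg' : g ∈ Submodule.span ℂ (Submonoid.closure ({CircC_id} ∪ star {CircC_id} :
        Set (Circle →ᵇ ℂ)) : Set (Circle →ᵇ ℂ)) := by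
      rw [← StarAlgebra.adjoin_eq_span]
      exact hg
    have key : ∀ f ∈ Submonoid.closure ({CircC_id} ∪ star {CircC_id} : Set (Circle →ᵇ ℂ)),
        ∃ n : ℤ, ∀ ξ : Circle, f ξ = (ξ : ℂ) ^ n := by
      intro f hf
      induction hf using Submonoid.closure_induction with
      | mem f hf =>
        rcases hf with hf | hf
        · rw [Set.mem_singleton_iff] at hf
          subst hf
          exact ⟨1, fun ξ => by rw [CircC_id_apply, zpow_one]⟩
        · rw [Set.mem_star, Set.mem_singleton_iff] at hf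
          refine ⟨-1, fun ξ => ?_⟩
          have h1 : f = star CircC_id := by rw [← hf, star_star]
          rw [h1, BoundedContinuousFunction.star_apply, CircC_id_apply, zpow_neg, zpow_one,
            ← Circle.coe_inv, Circle.coe_inv_eq_conj]
          rfl
      | one => exact ⟨0, fun ξ => by simp⟩
      | mul f₁ f₂ _ _ h₁ h₂ =>
        obtain ⟨n₁, h₁⟩ := h₁
        obtain ⟨n₂, h₂⟩ := h₂
        refine ⟨n₁ + n₂, fun ξ => ?_⟩
        rw [BoundedContinuousFunction.mul_apply, h₁, h₂, zpow_add₀ (Circle.coe_ne_zero ξ)]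
    clear hg
    induction hg' using Submodule.span_induction with
    | mem f hf =>
      obtain ⟨n, hn⟩ := key f hf
      simp_rw [hn]
      exact h n
    | zero => simp
    | add f₁ f₂ _ _ h₁ h₂ =>
      have e : ∀ ξ : Circle, (f₁ + f₂) ξ = f₁ ξ + f₂ ξ := fun ξ => rfl
      simp_rw [e]
      rw [integral_add (f₁.integrable P) (f₂.integrable P),
        integral_add (f₁.integrable P') (f₂.integrable P')]
      rw [h₁, h₂]
    | smul c f _ hf =>
      have e : ∀ ξ : Circle, (c • f) ξ = c • f ξ := fun ξ => rfl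
      simp_rw [e]
      rw [integral_smul, integral_smul, hf]

private theorem CircC_withDensity (g : SU11) (F : Circle → ℂ) :
    ∫ ξ, F ξ ∂(lam.withDensity (fun ξ => ENNReal.ofReal (Jac g ξ))) =
      ∫ ξ, Jac g ξ • F ξ ∂lam := by
  rw [integral_withDensity_eq_integral_toReal_smul
    ((continuous_Jac g).measurable.ennreal_ofReal) (ae_of_all _ fun _ => ENNReal.ofReal_lt_top)]
  congr 1
  ext ξ
  rw [ENNReal.toReal_ofReal (Jac_pos g ξ).le]

private theorem CircC_diff (g : SU11) (m : ℕ) :
    DiffContOnCl ℂ (fun z => g.mob z ^ m) (Metric.ball 0 1) := by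
  apply DifferentiableOn.diffContOnCl
  rw [closure_ball _ one_ne_zero]
  intro z hz
  have hz1 : ‖z‖ ≤ 1 := by simpa using hz
  have h0 := g.den_ne_zero hz1
  apply DifferentiableAt.differentiableWithinAt
  have h1 : DifferentiableAt ℂ (fun z => g.mob z) z := by
    have h2 : DifferentiableAt ℂ (fun z => (g.a * z + g.b) / (conj g.b * z + conj g.a)) z := by
      apply DifferentiableAt.div
      · fun_prop
      · fun_prop
      · exact h0
    exact h2
  exact h1.pow m

private theorem CircC_zero (g : SU11) : ((g • (0 : 𝔻) : 𝔻) : ℂ) = g.mob 0 := by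
  rw [coe_smul]
  rfl

private theorem CircC_coe : Continuous (fun ξ : Circle => (ξ : ℂ)) := continuous_subtype_val

/-- the positive Fourier coefficients -/
private theorem CircC_pow (g : SU11) (m : ℕ) :
    ∫ ξ : Circle, ((g • ξ : Circle) : ℂ) ^ m ∂lam = ∫ ξ : Circle, Jac g ξ • (ξ : ℂ) ^ m ∂lam := by
  have h1 : ∫ ξ : Circle, ((g • ξ : Circle) : ℂ) ^ m ∂lam = g.mob 0 ^ m := by
    have hc : Continuous (fun ξ : Circle => ((g • ξ : Circle) : ℂ) ^ m) :=
      (CircC_coe.comp (continuous_smul_circle g)).pow m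
    have e : (fun ξ : Circle => ((g • ξ : Circle) : ℂ) ^ m) =
        fun ξ : Circle => g.mob (((1 : ℝ) : ℂ) * (ξ : ℂ)) ^ m := by
      funext ξ
      rw [coe_smul_circle]
      simp
    have h := integral_lam (fun z => g.mob z ^ m) 1 (by rw [← e]; exact hc.aestronglyMeasurable)
    rw [e, h]
    have := (CircC_diff g m)
    rw [show (1 : ℝ) = |1| by simp] at this
    exact this.circleAverage
  have h2 : ∫ ξ : Circle, Jac g ξ • (ξ : ℂ) ^ m ∂lam = g.mob 0 ^ m := by
    set w : ℂ := ((g • (0 : 𝔻) : 𝔻) : ℂ) with hw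
    have e : (fun ξ : Circle => Jac g ξ • (ξ : ℂ) ^ m) = fun ξ : Circle =>
        ((‖((1 : ℝ) : ℂ) * (ξ : ℂ) - 0‖ ^ 2 - ‖w - 0‖ ^ 2) /
          ‖(((1 : ℝ) : ℂ) * (ξ : ℂ) - 0) - (w - 0)‖ ^ 2) • (((1 : ℝ) : ℂ) * (ξ : ℂ)) ^ m := by
      funext ξ
      have hn : ‖(ξ : ℂ)‖ = 1 := ξ.norm_coe
      rw [Jac_eq_poisson, ← hw, Complex.ofReal_one, one_mul, sub_zero, sub_zero, hn, one_pow]
    have hc : Continuous (fun ξ : Circle => Jac g ξ • (ξ : ℂ) ^ m) :=
      (continuous_Jac g).smul (CircC_coe.pow m)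
    have h := integral_lam (fun z : ℂ => ((‖z - 0‖ ^ 2 - ‖w - 0‖ ^ 2) /
      ‖(z - 0) - (w - 0)‖ ^ 2) • z ^ m) 1 (by rw [← e]; exact hc.aestronglyMeasurable)
    rw [e, h]
    have hd : DiffContOnCl ℂ (fun z : ℂ => z ^ m) (Metric.ball 0 1) :=
      (differentiable_id.pow m).diffContOnCl
    have hwb : w ∈ Metric.ball (0 : ℂ) 1 := by
      rw [mem_ball_zero_iff]
      exact (g • (0 : 𝔻) : 𝔻).norm_lt_one
    rw [hd.circleAverage_poissonKernel_smul' hwb, hw, CircC_zero]
  rw [h1, h2]

/-- all Fourier coefficients -/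
private theorem CircC_zpow (g : SU11) (n : ℤ) :
    ∫ ξ : Circle, ((g • ξ : Circle) : ℂ) ^ n ∂lam = ∫ ξ : Circle, Jac g ξ • (ξ : ℂ) ^ n ∂lam := by
  obtain ⟨m, rfl | rfl⟩ := n.eq_nat_or_neg
  · simp only [zpow_natCast]
    exact CircC_pow g m
  · have e : ∀ ξ : Circle, (ξ : ℂ) ^ (-(m : ℤ)) = conj ((ξ : ℂ) ^ m) := by
      intro ξ
      rw [zpow_neg, zpow_natCast]
      apply Complex.inv_eq_conj
      rw [norm_pow, Circle.norm_coe, one_pow]
    simp only [e]
    have e2 : ∀ ξ : Circle, Jac g ξ • conj ((ξ : ℂ) ^ m) = conj (Jac g ξ • (ξ : ℂ) ^ m) := by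
      intro ξ
      simp
    simp only [e2]
    rw [integral_conj, integral_conj, CircC_pow]

/-- `g_* λ = J_g λ`.  Both sides are finite measures; test on the trigonometric monomials
`ξ ^ n`: for `n ≥ 0`, `∫ (g ξ)^n dλ = (g 0)^n` by the mean value property of the holomorphic
function `z ↦ (mob g z)^n` (holomorphic near the closed disc), and
`∫ ξ^n P(g0, ξ) dλ = (g0)^n` by the Poisson formula (`DiffContOnCl.circleAverage_poissonKernel_smul`
or the harmonic version); take conjugates for `n < 0`; conclude by density of trigonometric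
polynomials in `C(Circle)` (Stone-Weierstrass) and `ext_of_forall_integral_eq_of_IsFiniteMeasure`.
Alternatively: change of variables in the angle. -/
theorem map_lam (g : SU11) :
    Measure.map (fun ξ : Circle => g • ξ) lam =
      lam.withDensity (fun ξ => ENNReal.ofReal (Jac g ξ)) := by
  have hm : Measurable (fun ξ : Circle => g • ξ) := (continuous_smul_circle g).measurable
  have : IsFiniteMeasure (Measure.map (fun ξ : Circle => g • ξ) lam) := inferInstance
  have : IsFiniteMeasure (lam.withDensity (fun ξ => ENNReal.ofReal (Jac g ξ))) :=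
    isFiniteMeasure_withDensity_ofReal
      (CircC_integrable (Jac g) (continuous_Jac g) lam).hasFiniteIntegral
  apply CircC_ext
  intro n
  rw [integral_map hm.aemeasurable
    ((CircC_coe.zpow₀ n (fun ξ => Or.inl (Circle.coe_ne_zero ξ))).aestronglyMeasurable),
    CircC_withDensity]
  exact CircC_zpow g n

/-- consequences for integrals -/
theorem integral_smul_lam (g : SU11) (F : Circle → ℂ) (hF : Continuous F) :
    ∫ ξ, F (g • ξ) ∂lam = ∫ ξ, (Jac g ξ : ℂ) * F ξ ∂lam := by
  have hm : Measurable (fun ξ : Circle => g • ξ) := (continuous_smul_circle g).measurable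
  rw [← integral_map hm.aemeasurable hF.aestronglyMeasurable, map_lam, CircC_withDensity]
  simp only [Complex.real_smul]

/-- all `g` preserve the measure class of arc length -/
theorem map_absolutelyContinuous (g : SU11) {ν : Measure Circle} (hν : ν ≪ lam) :
    Measure.map (fun ξ : Circle => g • ξ) ν ≪ lam := by
  have h1 : Measurable (fun ξ : Circle => g • ξ) := (continuous_smul_circle g).measurable
  refine (hν.map h1).trans ?_
  rw [map_lam]
  exact withDensity_absolutelyContinuous _ _

theorem map_mutuallySingular (g : SU11) {ν : Measure Circle} (hν : ν ⟂ₘ lam) :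
    Measure.map (fun ξ : Circle => g • ξ) ν ⟂ₘ lam := by
  obtain ⟨S, hS, h1, h2⟩ := hν
  have m1 : Measurable (fun ξ : Circle => g • ξ) := (continuous_smul_circle g).measurable
  have m2 : Measurable (fun ξ : Circle => g⁻¹ • ξ) := (continuous_smul_circle g⁻¹).measurable
  refine ⟨(fun ξ : Circle => g⁻¹ • ξ) ⁻¹' S, m2 hS, ?_, ?_⟩
  · rw [Measure.map_apply m1 (m2 hS)]
    have : (fun ξ : Circle => g • ξ) ⁻¹' ((fun ξ : Circle => g⁻¹ • ξ) ⁻¹' S) = S := by
      ext ξ
      simp
    rw [this, h1]
  · have h3 : Measure.map (fun ξ : Circle => g⁻¹ • ξ) lam ≪ lam :=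
      map_absolutelyContinuous g⁻¹ Measure.AbsolutelyContinuous.rfl
    have h4 := h3 h2
    rw [Measure.map_apply m2 hS.compl] at h4
    exact h4

end

end Pool.Agent.Lib.MP_b16327_pr
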