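import Pool.Agent.Lib.MP_b16327_pr.AvA

/-! # The circle mean value property -/

namespace Pool.Agent.Lib.MP_b16327_pr

open Complex MeasureTheory ComplexConjugate Filter
open scoped Complex.UnitDisc Topology BoundedContinuousFunction

noncomputable section

/-- `u` is continuous and has the mean value property on all hyperbolic circles -/
structure CMV (u : 𝔻 → ℂ) : Prop where
  cont : Continuous u
  mean : ∀ (g : SU11) (x : 𝔻), ∫ ξ : Circle, u (g • (ξ • x)) ∂lam = u (g • (0 : 𝔻))

/-- holomorphic functions on the disc -/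
def Holo (f : ℂ → ℂ) : Prop := DifferentiableOn ℂ f (Metric.ball (0 : ℂ) 1)

theorem CmvA_integrable {E : Type*} [NormedAddCommGroup E] {f : Circle → E}
    (hf : Continuous f) : Integrable f lam :=
  hf.integrable_of_hasCompactSupport (HasCompactSupport.of_compactSpace f)

theorem CmvA_cont {u : 𝔻 → ℂ} (hu : Continuous u) (g : SU11) (x : 𝔻) :
    Continuous (fun ξ : Circle => u (g • (ξ • x))) :=
  hu.comp ((continuous_smul_disc g).comp
    (continuous_rot_smul.comp (Continuous.prodMk continuous_id continuous_const)))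

theorem CmvA_continuous_of_holo {f : ℂ → ℂ} (hf : Holo f) : Continuous (fun z : 𝔻 => f z) := by
  have h := hf.continuousOn
  refine h.comp_continuous UnitDisc.continuous_coe (fun z => ?_)
  rw [mem_ball_zero_iff]
  exact z.norm_lt_one

theorem CmvA_holo_mob {f : ℂ → ℂ} (hf : Holo f) (g : SU11) : Holo (fun z => f (g.mob z)) := by
  have hm : DifferentiableOn ℂ g.mob (Metric.ball (0 : ℂ) 1) := by
    unfold SU11.mob SU11.den
    intro z hz
    rw [mem_ball_zero_iff] at hz
    have h0 := g.den_ne_zero hz.le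
    unfold SU11.den at h0
    apply DifferentiableAt.differentiableWithinAt
    fun_prop (disch := exact h0)
  refine DifferentiableOn.comp hf hm (fun z hz => ?_)
  rw [mem_ball_zero_iff] at hz ⊢
  exact g.norm_mob_lt hz

/-- mean value property about the origin -/
theorem CmvA_mean_zero {h : ℂ → ℂ} (hh : Holo h) (x : 𝔻) :
    ∫ ξ : Circle, h ((ξ : ℂ) * x) ∂lam = h 0 := by
  set r : ℝ := ‖(x : ℂ)‖ with hr
  have hr1 : r < 1 := x.norm_lt_one
  have hr0 : 0 ≤ r := norm_nonneg _
  set ζ : Circle := Circle.exp (x : ℂ).arg with hζ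
  have hx : (x : ℂ) = r * (ζ : ℂ) := by
    rw [hζ, Circle.coe_exp, hr, Complex.norm_mul_exp_arg_mul_I]
  have hcont : Continuous (fun η : Circle => h (r * (η : ℂ))) := by
    refine hh.continuousOn.comp_continuous (by fun_prop) (fun η => ?_)
    rw [mem_ball_zero_iff, norm_mul, Circle.norm_coe, mul_one, Complex.norm_real,
      Real.norm_of_nonneg hr0]
    exact hr1
  have h1 : ∫ ξ : Circle, h ((ξ : ℂ) * x) ∂lam = ∫ η : Circle, h (r * (η : ℂ)) ∂lam := by
    conv_rhs => rw [← lam_rot ζ]
    rw [integral_map (by fun_prop) hcont.aestronglyMeasurable]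
    refine integral_congr_ae (Eventually.of_forall fun ξ => ?_)
    simp only
    rw [hx, Circle.coe_mul]
    ring_nf
  rw [h1, integral_lam h r hcont.aestronglyMeasurable]
  refine DiffContOnCl.circleAverage ?_
  rw [abs_of_nonneg hr0]
  refine DifferentiableOn.diffContOnCl (hh.mono ?_)
  refine (Metric.closure_ball_subset_closedBall).trans ?_
  exact Metric.closedBall_subset_ball hr1

/-- `z ↦ f (mob g z)` is holomorphic on the disc; mean value property
(`DiffContOnCl.circleAverage` / Mathlib `Complex.MeanValue`) -/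
theorem Holo.cmv {f : ℂ → ℂ} (hf : Holo f) : CMV (fun z : 𝔻 => f z) := by
  refine ⟨CmvA_continuous_of_holo hf, fun g x => ?_⟩
  have h := CmvA_mean_zero (CmvA_holo_mob hf g) x
  simp only [coe_smul, UnitDisc.coe_circle_smul, UnitDisc.coe_zero]
  exact h

theorem CMV.conj {u : 𝔻 → ℂ} (hu : CMV u) : CMV (fun z => conj (u z)) := by
  refine ⟨Complex.continuous_conj.comp hu.cont, fun g x => ?_⟩
  rw [integral_conj, hu.mean]

theorem CMV.add {u v : 𝔻 → ℂ} (hu : CMV u) (hv : CMV v) : CMV (fun z => u z + v z) := by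
  refine ⟨hu.cont.add hv.cont, fun g x => ?_⟩
  rw [integral_add (CmvA_integrable (CmvA_cont hu.cont g x))
    (CmvA_integrable (CmvA_cont hv.cont g x)), hu.mean, hv.mean]

theorem CMV.const_mul {u : 𝔻 → ℂ} (hu : CMV u) (c : ℂ) : CMV (fun z => c * u z) := by
  refine ⟨continuous_const.mul hu.cont, fun g x => ?_⟩
  rw [integral_const_mul, hu.mean]

theorem CMV.sub {u v : 𝔻 → ℂ} (hu : CMV u) (hv : CMV v) : CMV (fun z => u z - v z) := by
  refine ⟨hu.cont.sub hv.cont, fun g x => ?_⟩
  rw [integral_sub (CmvA_integrable (CmvA_cont hu.cont g x))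
    (CmvA_integrable (CmvA_cont hv.cont g x)), hu.mean, hv.mean]

theorem CMV.const (c : ℂ) : CMV (fun _ => c) := by
  refine ⟨continuous_const, fun g x => ?_⟩
  simp

theorem CMV.smul {u : 𝔻 → ℂ} (hu : CMV u) (g : SU11) : CMV (fun z => u (g • z)) := by
  refine ⟨hu.cont.comp (continuous_smul_disc g), fun h x => ?_⟩
  have h1 := hu.mean (g * h) x
  simp only [mul_smul] at h1
  exact h1

/-- `M u = u`: `Mop R u z` is an average of circle averages (`setIntegral_rot`) -/
theorem CMV.mop {u : 𝔻 → ℂ} (hu : CMV u) {R : ℝ} (hR0 : 0 < R) (hR : R < 1) (z : 𝔻) :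
    Mop R u z = u z := by
  unfold Mop AvF
  rw [setIntegral_rot hR (fun w => u (tr z • w)) (hu.cont.comp (continuous_smul_disc _))]
  simp only [hu.mean, tr_smul_zero]
  rw [setIntegral_const, smul_smul, inv_mul_cancel₀, one_smul]
  rw [Measure.real, ENNReal.toReal_ne_zero]
  exact ⟨(area_ballD_pos hR0).ne', (area_ballD_lt_top hR).ne⟩

end

end Pool.Agent.Lib.MP_b16327_pr
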