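import Pool.Agent.Lib.MP_b16327_pr.CmvA

/-! # Averages of log(1-|z|^2) -/

namespace Pool.Agent.Lib.MP_b16327_pr

open Complex MeasureTheory ComplexConjugate Filter
open scoped Complex.UnitDisc Topology BoundedContinuousFunction

noncomputable section

/-- `ℓ_m`, the average of `Λ₀(w) = dL w 0` over `ballD R` -/
def ellR (R : ℝ) : ℝ := Mop R (fun w => dL w 0) 0

theorem CmvB_cont : Continuous (fun w : 𝔻 => dL w 0) := by
  have h : Continuous (fun w : 𝔻 => ((w, (0 : 𝔻)) : 𝔻 × 𝔻)) :=
    Continuous.prodMk continuous_id continuous_const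
  have h2 := continuous_dL.comp h
  unfold Function.comp at h2
  simpa only using h2

theorem CmvB_ne (z w : 𝔻) : 0 < (1 + conj (z : ℂ) * w).re := by
  have h1 : ‖conj (z : ℂ) * (w : ℂ)‖ < 1 := by
    rw [norm_mul, Complex.norm_conj]
    have h2 := z.norm_lt_one
    have h3 := w.norm_lt_one
    nlinarith [norm_nonneg (z : ℂ), norm_nonneg (w : ℂ)]
  have h2 := Complex.abs_re_le_norm (conj (z : ℂ) * (w : ℂ))
  have h3 := abs_lt.mp (lt_of_le_of_lt h2 h1)
  rw [Complex.add_re, Complex.one_re]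
  linarith [h3.1]

theorem CmvB_formula (z w : 𝔻) :
    dL (tr z • w) 0 = dL z 0 + dL w 0 + 2 * Real.log ‖1 + conj (z : ℂ) * w‖ := by
  have hz : 0 < 1 - ‖(z : ℂ)‖ ^ 2 := by
    have := UnitDisc.sq_norm_lt_one z
    linarith
  have hw : 0 < 1 - ‖(w : ℂ)‖ ^ 2 := by
    have := UnitDisc.sq_norm_lt_one w
    linarith
  have hne : 1 + conj (z : ℂ) * w ≠ 0 := by
    intro h
    have := CmvB_ne z w
    rw [h] at this
    simp at this
  have hN : 0 < ‖1 + conj (z : ℂ) * w‖ := norm_pos_iff.2 hne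
  have hden : normSq ((tr z).den w) = (1 - ‖(z : ℂ)‖ ^ 2)⁻¹ * ‖1 + conj (z : ℂ) * w‖ ^ 2 := by
    have e1 : (tr z).den w
        = (((Real.sqrt (1 - ‖(z : ℂ)‖ ^ 2))⁻¹ : ℝ) : ℂ) * (1 + conj (z : ℂ) * w) := by
      unfold SU11.den tr
      simp only [map_mul, Complex.conj_ofReal]
      ring
    rw [e1, map_mul, Complex.normSq_ofReal, ← mul_inv, Real.mul_self_sqrt hz.le,
      Complex.normSq_eq_norm_sq]
  rw [dL_zero, dL_zero, dL_zero, one_sub_smul, hden, Real.log_div hw.ne' (by positivity),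
    Real.log_mul (by positivity) (by positivity), Real.log_inv, Real.log_pow]
  push_cast
  ring

theorem ellR_pos {R : ℝ} (hR0 : 0 < R) (hR : R < 1) : 0 < ellR R := by
  unfold ellR Mop AvF
  have hint : IntegrableOn (fun w : 𝔻 => dL (tr 0 • w) 0) (ballD R) area :=
    integrableOn_AvF hR (F := fun _ w => dL w 0)
      (CmvB_cont.comp continuous_snd) 0
  simp only [tr_zero, one_smul] at hint ⊢
  have hr : 0 < area.real (ballD R) := by
    rw [Measure.real]
    exact ENNReal.toReal_pos (area_ballD_pos hR0).ne' (area_ballD_lt_top hR).ne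
  have hi : 0 < ∫ w in ballD R, dL w 0 ∂area := by
    rw [setIntegral_pos_iff_support_of_nonneg_ae
      (Eventually.of_forall fun w => dL_nonneg w 0) hint]
    have hsupp : Function.support (fun w : 𝔻 => dL w 0) = (fun w : 𝔻 => (w : ℂ)) ⁻¹' {0}ᶜ := by
      ext w
      simp only [Function.mem_support, Set.mem_preimage, Set.mem_compl_iff, Set.mem_singleton_iff]
      rw [dL_zero]
      constructor
      · intro h h0
        apply h
        rw [h0]
        simp
      · intro h h0
        apply h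
        have h1 : Real.log (1 - ‖(w : ℂ)‖ ^ 2) = 0 := by linarith
        have hw : 0 < 1 - ‖(w : ℂ)‖ ^ 2 := by
          have := UnitDisc.sq_norm_lt_one w
          linarith
        have h2 : 1 - ‖(w : ℂ)‖ ^ 2 = 1 := by
          have := Real.exp_log hw
          rw [h1, Real.exp_zero] at this
          exact this.symm
        have h3 : ‖(w : ℂ)‖ = 0 := by
          have : ‖(w : ℂ)‖ ^ 2 = 0 := by linarith
          exact pow_eq_zero_iff (two_ne_zero) |>.mp this
        exact norm_eq_zero.mp h3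
    rw [hsupp]
    have hopen : IsOpen ((fun w : 𝔻 => (w : ℂ)) ⁻¹' {0}ᶜ ∩ ballD R) :=
      (isOpen_compl_singleton.preimage UnitDisc.continuous_coe).inter (isOpen_ballD R)
    refine hopen.measure_pos _ ?_
    have hR2 : ‖((R / 2 : ℝ) : ℂ)‖ < 1 := by
      rw [Complex.norm_real, Real.norm_of_nonneg (by linarith)]
      linarith
    refine ⟨UnitDisc.mk ((R / 2 : ℝ) : ℂ) hR2, ?_, ?_⟩
    · intro h
      have h1 : ((R / 2 : ℝ) : ℂ) = 0 := h
      have h2 : (R / 2 : ℝ) = 0 := by exact_mod_cast h1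
      linarith
    · change ‖((UnitDisc.mk ((R / 2 : ℝ) : ℂ) hR2 : 𝔻) : ℂ)‖ < R
      rw [UnitDisc.coe_mk, Complex.norm_real, Real.norm_of_nonneg (by linarith)]
      linarith
  rw [smul_eq_mul]
  positivity

/-- circle averages of `Λ₀` about `z` -/
theorem circ_dL (z x : 𝔻) : ∫ ξ : Circle, dL (tr z • (ξ • x)) 0 ∂lam = dL z 0 + dL x 0 := by
  have hx : ∀ ξ : Circle, dL (ξ • x) 0 = dL x 0 := by
    intro ξ
    rw [dL_zero, dL_zero, UnitDisc.coe_circle_smul, norm_mul, Circle.norm_coe, one_mul]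
  have hh : Holo (fun w : ℂ => Complex.log (1 + conj (z : ℂ) * w)) := by
    intro w hw
    rw [mem_ball_zero_iff] at hw
    apply DifferentiableAt.differentiableWithinAt
    refine DifferentiableAt.clog (by fun_prop) ?_
    left
    exact CmvB_ne z (UnitDisc.mk w hw)
  have h1 := CmvA_mean_zero hh x
  simp only [mul_zero, add_zero, Complex.log_one] at h1
  have hcont : Continuous (fun ξ : Circle => Complex.log (1 + conj (z : ℂ) * ((ξ : ℂ) * x))) := by
    have := (CmvA_continuous_of_holo hh).comp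
      (continuous_rot_smul.comp (Continuous.prodMk continuous_id
        (continuous_const (y := x))))
    refine this.congr (fun ξ => ?_)
    simp [UnitDisc.coe_circle_smul]
  have h2 : ∫ ξ : Circle, Real.log ‖1 + conj (z : ℂ) * ((ξ : ℂ) * x)‖ ∂lam = 0 := by
    have h3 := Complex.reCLM.integral_comp_comm (CmvA_integrable hcont)
    rw [h1] at h3
    simp only [Complex.reCLM_apply, Complex.log_re, Complex.zero_re] at h3
    exact h3
  have hint : Integrable (fun ξ : Circle => 2 * Real.log ‖1 + conj (z : ℂ) * ((ξ : ℂ) * x)‖) lam := by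
    refine Integrable.const_mul ?_ 2
    have h3 := Complex.reCLM.integrable_comp (CmvA_integrable hcont)
    simpa only [Complex.reCLM_apply, Complex.log_re] using h3
  have h4 : ∀ ξ : Circle, dL (tr z • (ξ • x)) 0
      = (dL z 0 + dL x 0) + 2 * Real.log ‖1 + conj (z : ℂ) * ((ξ : ℂ) * x)‖ := by
    intro ξ
    rw [CmvB_formula, hx, UnitDisc.coe_circle_smul]
  simp only [h4]
  rw [integral_add (integrable_const _) hint, integral_const_mul, h2]
  simp

/-- `M Λ₀ = Λ₀ + ℓ_m`.  With `g = tr z`: `1 - |g w|^2 = (1-|z|^2)(1-|w|^2)/|1 + conj z w|^2`, so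
`Λ₀(g w) = Λ₀(z) + Λ₀(w) + 2 log |1 + conj z w|`, and the circle averages of
`log |1 + conj z w|` vanish (real part of the holomorphic function `log(1 + conj z w)`, or
`circleAverage_log_norm_sub_const_of_mem_closedBall` and friends). -/
theorem Mop_dL {R : ℝ} (hR0 : 0 < R) (hR : R < 1) (z : 𝔻) :
    Mop R (fun w => dL w 0) z = dL z 0 + ellR R := by
  have hr : area.real (ballD R) ≠ 0 := by
    rw [Measure.real, ENNReal.toReal_ne_zero]
    exact ⟨(area_ballD_pos hR0).ne', (area_ballD_lt_top hR).ne⟩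
  have hint : IntegrableOn (fun w : 𝔻 => dL (tr 0 • w) 0) (ballD R) area :=
    integrableOn_AvF hR (F := fun _ w => dL w 0)
      (CmvB_cont.comp continuous_snd) 0
  have hfin : area (ballD R) ≠ ⊤ := (area_ballD_lt_top hR).ne
  unfold ellR Mop AvF
  rw [setIntegral_rot hR (fun w => dL (tr z • w) 0) (CmvB_cont.comp (continuous_smul_disc _))]
  simp only [circ_dL, tr_zero, one_smul] at hint ⊢
  have hc : IntegrableOn (fun _ : 𝔻 => dL z 0) (ballD R) area := integrableOn_const hfin
  rw [integral_add hc hint, setIntegral_const, smul_add, smul_smul,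
    inv_mul_cancel₀ hr, one_smul]

/-- `dL (tr z • w) 0 ≤ dL z 0 + dL w 0 + log 4` and the lower bound
`dL z 0 ≤ dL (tr z • w) 0 + dL w 0 + log 4` -/
theorem dL_tr_smul_le (z w : 𝔻) : dL (tr z • w) 0 ≤ dL z 0 + dL w 0 + Real.log 4 := by
  rw [CmvB_formula]
  have hne : 1 + conj (z : ℂ) * w ≠ 0 := by
    intro h
    have := CmvB_ne z w
    rw [h] at this
    simp at this
  have hN : 0 < ‖1 + conj (z : ℂ) * w‖ := norm_pos_iff.2 hne
  have h2 : ‖1 + conj (z : ℂ) * (w : ℂ)‖ ≤ 2 := by
    refine (norm_add_le _ _).trans ?_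
    rw [norm_one, norm_mul, Complex.norm_conj]
    have h2 := z.norm_lt_one
    have h3 := w.norm_lt_one
    nlinarith [norm_nonneg (z : ℂ), norm_nonneg (w : ℂ)]
  have h3 : Real.log ‖1 + conj (z : ℂ) * (w : ℂ)‖ ≤ Real.log 2 := Real.log_le_log hN h2
  have h4 : Real.log 4 = 2 * Real.log 2 := by
    rw [show (4 : ℝ) = 2 ^ 2 by norm_num, Real.log_pow]
    push_cast
    ring
  linarith

end

end Pool.Agent.Lib.MP_b16327_pr
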