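import Pool.Agent.Lib.MP_b16327_pr.GeoC

/-! # Classification of elements -/

namespace Pool.Agent.Lib.MP_b16327_pr

open Complex MeasureTheory ComplexConjugate Filter
open scoped Complex.UnitDisc Topology BoundedContinuousFunction

noncomputable section

private theorem CommA_fix (g : SU11) (z : 𝔻)
    (h : conj g.b * 0 + (g.a * (z : ℂ) + g.b) = (z : ℂ) * (conj g.b * z + conj g.a)) :
    g • z = z := by
  apply UnitDisc.coe_injective
  rw [coe_smul]
  unfold SU11.mob
  rw [div_eq_iff (g.den_ne_zero z.norm_lt_one.le)]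
  unfold SU11.den
  rw [← h]
  ring

private theorem CommA_sign {g h : SU11} (ε : ℝ) (hε : ε * ε = 1) (h1 : g.a = (ε : ℂ) * h.a)
    (h2 : g.b = (ε : ℂ) * h.b) {z : 𝔻} : g • z = h • z := by
  apply UnitDisc.coe_injective
  rw [coe_smul, coe_smul]
  have hε0 : (ε : ℂ) ≠ 0 := by
    intro h0
    have h3 : ε = 0 := by exact_mod_cast h0
    rw [h3] at hε
    norm_num at hε
  unfold SU11.mob SU11.den
  rw [h1, h2, map_mul, map_mul, Complex.conj_ofReal]
  have e1 : (ε : ℂ) * h.a * (z : ℂ) + (ε : ℂ) * h.b = (ε : ℂ) * (h.a * z + h.b) := by ring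
  have e2 : (ε : ℂ) * conj h.b * (z : ℂ) + (ε : ℂ) * conj h.a =
      (ε : ℂ) * (conj h.b * z + conj h.a) := by ring
  rw [e1, e2, mul_div_mul_left _ _ hε0]

/-- real eigenvectors of `u ↦ a u + b conj u` -/
private theorem CommA_eigen (g : SU11) (h : 1 < |g.a.re|) (l m : ℝ) (h1 : l + m = 2 * g.a.re)
    (h2 : l * m = 1) : ∃ u : ℂ, u ≠ 0 ∧ g.a * u + g.b * conj u = (l : ℂ) * u := by
  have hdet := g.det'
  have e1 : g.a + conj g.a = (l : ℂ) + m := by
    rw [Complex.add_conj]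
    have : ((l + m : ℝ) : ℂ) = ((2 * g.a.re : ℝ) : ℂ) := by rw [h1]
    rw [← this]
    push_cast
    ring
  have e2 : (l : ℂ) * m = 1 := by exact_mod_cast h2
  by_cases hu : g.a + g.b - m = 0
  · by_cases hv : g.a - g.b - m = 0
    · exfalso
      have hb : g.b = 0 := by
        linear_combination (hu - hv) / 2
      have ha : g.a = (m : ℂ) := by
        linear_combination (hu + hv) / 2
      have hre : g.a.re = m := by rw [ha, Complex.ofReal_re]
      have hm : m * m = 1 := by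
        have h3 := g.det
        rw [ha, hb, Complex.normSq_ofReal, map_zero, sub_zero] at h3
        exact h3
      rw [hre] at h
      have h4 := abs_mul_abs_self m
      nlinarith
    · refine ⟨I * (g.a - g.b - m), mul_ne_zero Complex.I_ne_zero hv, ?_⟩
      simp only [map_mul, map_sub, Complex.conj_I, Complex.conj_ofReal]
      linear_combination (-I) * hdet + I * e2 + I * g.a * e1 - I * g.b * e1
  · refine ⟨g.a + g.b - m, hu, ?_⟩
    simp only [map_add, map_sub, Complex.conj_ofReal]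
    linear_combination (-1 : ℂ) * hdet + e2 + g.a * e1 + g.b * e1

private theorem CommA_Qd (g : SU11) (z : 𝔻) : Qd z (g • z) =
    ‖(z : ℂ) * g.den z - (g.a * z + g.b)‖ ^ 2 / (1 - ‖(z : ℂ)‖ ^ 2) ^ 2 := by
  have h0 := g.den_ne_zero z.norm_lt_one.le
  have h1 : 0 < 1 - ‖(z : ℂ)‖ ^ 2 := by linarith [UnitDisc.sq_norm_lt_one z]
  have h2 : (z : ℂ) - ((g • z : 𝔻) : ℂ) = ((z : ℂ) * g.den z - (g.a * z + g.b)) / g.den z := by
    rw [coe_smul]
    unfold SU11.mob
    field_simp
  have h3 : 0 < ‖g.den z‖ := norm_pos_iff.2 h0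
  unfold Qd
  rw [h2, one_sub_smul, norm_div, Complex.normSq_eq_norm_sq]
  field_simp

/-- elliptic or central: `|Re a| < 1` or `b = 0` and `|Re a| = 1`: there is a fixed point.
If `|Re a| < 1` then `|Im a|^2 = 1 - (Re a)^2 + |b|^2 > |b|^2`, and
`z = i (Im a ∓ √((Im a)^2 - |b|^2)) / conj b` (one of the roots of
`conj b z^2 + (conj a - a) z - b = 0`) has modulus `< 1` (for `b = 0` take `z = 0`). -/
theorem fixed_of_elliptic (g : SU11) (h : |g.a.re| < 1) : ∃ z : 𝔻, g • z = z := by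
  by_cases hb : g.b = 0
  · refine ⟨0, CommA_fix g 0 ?_⟩
    rw [UnitDisc.coe_zero, hb]
    ring
  have hdet := g.det
  rw [Complex.normSq_apply, Complex.normSq_eq_norm_sq] at hdet
  set m : ℝ := g.a.im with hm
  have hc2 : g.a.re * g.a.re < 1 := by
    have := abs_lt.1 h
    nlinarith
  have hs0 : 0 < m * m - ‖g.b‖ ^ 2 := by linarith
  obtain ⟨y, hy, hy2⟩ : ∃ y : ℝ, y ^ 2 - 2 * m * y + ‖g.b‖ ^ 2 = 0 ∧ y ^ 2 < ‖g.b‖ ^ 2 := by
    have hsq := Real.sq_sqrt hs0.le
    have hsp := Real.sqrt_pos.2 hs0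
    set s : ℝ := Real.sqrt (m * m - ‖g.b‖ ^ 2) with hs
    have hbp : 0 < ‖g.b‖ ^ 2 := by
      have := norm_pos_iff.2 hb
      positivity
    rcases le_total 0 m with hm0 | hm0
    · refine ⟨m - s, by nlinarith, ?_⟩
      have h1 : (m - s) * (m + s) = ‖g.b‖ ^ 2 := by nlinarith
      have h2 : 0 < m + s := by linarith
      have h3 : 0 < m - s := by
        by_contra hcon
        push Not at hcon
        nlinarith
      nlinarith
    · refine ⟨m + s, by nlinarith, ?_⟩
      have h1 : (m + s) * (m - s) = ‖g.b‖ ^ 2 := by nlinarith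
      have h2 : m - s < 0 := by linarith
      have h3 : m + s < 0 := by
        by_contra hcon
        push Not at hcon
        nlinarith
      nlinarith
  have hB : conj g.b ≠ 0 := by
    intro h0
    exact hb ((map_eq_zero _).1 h0)
  have hz : ‖I * (y : ℂ) / conj g.b‖ < 1 := by
    rw [norm_div, norm_mul, Complex.norm_I, one_mul, Complex.norm_real, Complex.norm_conj,
      div_lt_one (norm_pos_iff.2 hb), Real.norm_eq_abs]
    exact abs_lt_of_sq_lt_sq hy2 (norm_nonneg _)
  refine ⟨UnitDisc.mk _ hz, CommA_fix g _ ?_⟩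
  rw [UnitDisc.coe_mk]
  set z : ℂ := I * (y : ℂ) / conj g.b with hzdef
  have hBz : conj g.b * z = I * y := by
    rw [hzdef, mul_div_cancel₀ _ hB]
  have h1 : g.a - conj g.a = 2 * I * m := by
    apply Complex.ext <;> simp [hm]
    ring
  have h2 : g.b * conj g.b = ((‖g.b‖ ^ 2 : ℝ) : ℂ) := by
    rw [Complex.mul_conj, Complex.normSq_eq_norm_sq]
  have h3 : ((y ^ 2 - 2 * m * y + ‖g.b‖ ^ 2 : ℝ) : ℂ) = 0 := by rw [hy]; simp
  push_cast at h2 h3
  apply mul_left_cancel₀ hB
  have hI : I ^ 2 = -1 := Complex.I_sq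
  linear_combination (g.a - conj g.a - conj g.b * z - I * y) * hBz + I * y * h1 + h2 + h3 +
    (-(y : ℂ) ^ 2 + 2 * m * y) * hI

/-- hyperbolic: `|Re a| > 1`: normal form.  There are `k` and `t > 0` with
`g z = k A_t k⁻¹ z` on the disc.  The fixed points on the circle are
`(i Im a ± √((Re a)^2 - 1)) / conj b`; choose `k` mapping `-1, 1` to the repelling and attracting
fixed points: the matrix `[[a, b],[conj b, conj a]]` has real eigenvalues `e^{±t/2}` (up to sign).
(`k` can be written down explicitly: rotate so that ..., or: `SU11` acts transitively on pairs of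
distinct boundary points.) -/
theorem normal_form_of_hyperbolic (g : SU11) (h : 1 < |g.a.re|) :
    ∃ (k : SU11) (t : ℝ), 0 < t ∧ ∀ z : 𝔻, g • z = (k * At t * k⁻¹) • z := by
  -- the sign and the translation length
  obtain ⟨ε, hε, hε2⟩ : ∃ ε : ℝ, ε * ε = 1 ∧ ε * |g.a.re| = g.a.re := by
    rcases le_total 0 g.a.re with h0 | h0
    · exact ⟨1, by norm_num, by rw [abs_of_nonneg h0, one_mul]⟩
    · exact ⟨-1, by norm_num, by rw [abs_of_nonpos h0]; ring⟩
  obtain ⟨s, hs0, hs⟩ : ∃ s : ℝ, 0 < s ∧ Real.cosh s = |g.a.re| :=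
    ⟨Real.arcosh |g.a.re|, Real.arcosh_pos h, Real.cosh_arcosh h.le⟩
  set E : ℝ := Real.exp s with hE
  set F : ℝ := Real.exp (-s) with hF
  have hEF : E * F = 1 := by rw [hE, hF, ← Real.exp_add, add_neg_cancel, Real.exp_zero]
  have hch : Real.cosh s = (E + F) / 2 := Real.cosh_eq s
  have hsh : Real.sinh s = (E - F) / 2 := Real.sinh_eq s
  have hEF' : F < E := Real.exp_lt_exp.2 (by linarith)
  have hre : ε * E + ε * F = 2 * g.a.re := by
    rw [← hε2, ← hs, hch]
    ring
  have hprod : (ε * E) * (ε * F) = 1 := by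
    calc (ε * E) * (ε * F) = (ε * ε) * (E * F) := by ring
      _ = 1 := by rw [hε, hEF, one_mul]
  obtain ⟨u, hu0, hu⟩ := CommA_eigen g h (ε * E) (ε * F) hre hprod
  obtain ⟨v, hv0, hv⟩ := CommA_eigen g h (ε * F) (ε * E) (by linarith) (by linarith)
  have hD : (u * conj v).im ≠ 0 := by
    intro h0
    have h1 : conj u * v = u * conj v := by
      have : conj (u * conj v) = u * conj v := Complex.conj_eq_iff_im.2 h0
      rw [map_mul, Complex.conj_conj] at this
      exact this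
    have h2 : ((ε * E - ε * F : ℝ) : ℂ) * (u * v) = 0 := by
      rw [Complex.ofReal_sub]
      linear_combination (-v) * hu + u * hv + g.b * h1
    have h3 : (ε * E - ε * F : ℝ) ≠ 0 := by
      intro h4
      have h5 : (ε * ε) * (E - F) = 0 := by
        calc (ε * ε) * (E - F) = ε * (ε * E - ε * F) := by ring
          _ = 0 := by rw [h4, mul_zero]
      rw [hε, one_mul] at h5
      linarith
    rcases mul_eq_zero.1 h2 with h4 | h4
    · exact h3 (by exact_mod_cast h4)
    · exact (mul_ne_zero hu0 hv0) h4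
  set D : ℝ := (u * conj v).im with hDdef
  have hDc : (D : ℂ) ≠ 0 := by exact_mod_cast hD
  set w : ℂ := I * v / D with hw
  have hwD : w * D = I * v := by rw [hw, div_mul_cancel₀ _ hDc]
  have hwc : conj w * D = -(I * conj v) := by
    have := congrArg conj hwD
    rw [map_mul, map_mul, Complex.conj_ofReal, Complex.conj_I] at this
    rw [this]
    ring
  have hw2 : g.a * w - g.b * conj w = ((ε * F : ℝ) : ℂ) * w := by
    apply mul_right_cancel₀ hDc
    linear_combination (g.a - ((ε * F : ℝ) : ℂ)) * hwD - g.b * hwc + I * hv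
  have hdet : normSq ((u + w) / 2) - normSq ((u - w) / 2) = 1 := by
    have h1 : ((normSq ((u + w) / 2) - normSq ((u - w) / 2) : ℝ) : ℂ) =
        (u * conj w + conj u * w) / 2 := by
      push_cast
      rw [← Complex.mul_conj, ← Complex.mul_conj]
      simp only [map_div₀, map_add, map_sub, Complex.conj_ofNat]
      ring
    have h2 : u * conj v - conj u * v = 2 * I * D := by
      have h3 := Complex.sub_conj (u * conj v)
      rw [map_mul, Complex.conj_conj] at h3
      rw [h3, ← hDdef]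
      push_cast
      ring
    have h4 : ((normSq ((u + w) / 2) - normSq ((u - w) / 2) : ℝ) : ℂ) = 1 := by
      rw [h1]
      apply mul_right_cancel₀ hDc
      have hI : I ^ 2 = -1 := Complex.I_sq
      linear_combination (u / 2) * hwc + (conj u / 2) * hwD - (I / 2) * h2 - (D : ℂ) * hI
    exact_mod_cast h4
  refine ⟨⟨(u + w) / 2, (u - w) / 2, hdet⟩, 2 * s, by linarith, fun z => ?_⟩
  set k : SU11 := ⟨(u + w) / 2, (u - w) / 2, hdet⟩ with hk
  have hka : k.a = (u + w) / 2 := rfl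
  have hkb : k.b = (u - w) / 2 := rfl
  have hAa : (At (2 * s)).a = ((Real.cosh s : ℝ) : ℂ) := by
    change ((Real.cosh (2 * s / 2) : ℝ) : ℂ) = _
    rw [mul_div_cancel_left₀ _ two_ne_zero]
  have hAb : (At (2 * s)).b = ((Real.sinh s : ℝ) : ℂ) := by
    change ((Real.sinh (2 * s / 2) : ℝ) : ℂ) = _
    rw [mul_div_cancel_left₀ _ two_ne_zero]
  have e1 : (g * k).a = (ε : ℂ) * (k * At (2 * s)).a := by
    rw [SU11.mul_a, SU11.mul_a, hka, hkb, hAa, hAb, Complex.conj_ofReal, hch, hsh]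
    simp only [map_div₀, map_sub, Complex.conj_ofNat]
    push_cast at hu hw2 ⊢
    linear_combination (1 / 2 : ℂ) * hu + (1 / 2 : ℂ) * hw2
  have e2 : (g * k).b = (ε : ℂ) * (k * At (2 * s)).b := by
    rw [SU11.mul_b, SU11.mul_b, hka, hkb, hAa, hAb, Complex.conj_ofReal, hch, hsh]
    simp only [map_div₀, map_add, Complex.conj_ofNat]
    push_cast at hu hw2 ⊢
    linear_combination (1 / 2 : ℂ) * hu - (1 / 2 : ℂ) * hw2
  have e3 : g • z = (g * k) • (k⁻¹ • z) := by
    rw [smul_smul, mul_assoc, mul_inv_cancel, mul_one]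
  rw [e3, CommA_sign ε hε e1 e2, smul_smul]

/-- parabolic elements have arbitrarily small displacement: `|Re a| = 1`, `b ≠ 0`:
`Qd z (g z) = |conj b z^2 + (conj a - a) z - b|^2 / (1 - |z|^2)^2`, and the quadratic has the
double root `ξ₀ = i Im a / conj b` on the circle, so along `z = r ξ₀` it is
`|b|^2 (1-r)^4 / (1-r^2)^2 → 0`. -/
theorem parabolic_small (g : SU11) (h : |g.a.re| = 1) {ε : ℝ} (hε : 0 < ε) :
    ∃ z : 𝔻, Qd z (g • z) < ε := by
  have hdet := g.det
  rw [Complex.normSq_apply, Complex.normSq_eq_norm_sq] at hdet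
  have hc2 : g.a.re * g.a.re = 1 := by
    have := abs_mul_abs_self g.a.re
    rw [h] at this
    linarith
  set m : ℝ := g.a.im with hm
  have hmb : m * m = ‖g.b‖ ^ 2 := by linarith
  have h1 : g.a - conj g.a = 2 * I * m := by
    apply Complex.ext <;> simp [hm]
    ring
  have hI : I ^ 2 = -1 := Complex.I_sq
  by_cases hb : g.b = 0
  · refine ⟨0, ?_⟩
    have : g • (0 : 𝔻) = 0 := by
      apply CommA_fix
      rw [UnitDisc.coe_zero, hb]
      ring
    rw [this, Qd_self]
    exact hε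
  have hB : conj g.b ≠ 0 := by
    intro h0
    exact hb ((map_eq_zero _).1 h0)
  set b2 : ℝ := ‖g.b‖ ^ 2 with hb2
  have hb2p : 0 < b2 := by
    have := norm_pos_iff.2 hb
    positivity
  obtain ⟨δ, hδ0, hδ1, hδ⟩ : ∃ δ : ℝ, 0 < δ ∧ δ ≤ 1 ∧ b2 * δ ^ 2 < ε := by
    refine ⟨min 1 (ε / (b2 + 1)), lt_min one_pos (by positivity), min_le_left _ _, ?_⟩
    set δ : ℝ := min 1 (ε / (b2 + 1))
    have h2 : 0 < δ := lt_min one_pos (by positivity)
    have h3 : δ ≤ 1 := min_le_left _ _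
    have h4 : δ ≤ ε / (b2 + 1) := min_le_right _ _
    calc b2 * δ ^ 2 ≤ b2 * δ := by
          gcongr
          nlinarith
      _ ≤ b2 * (ε / (b2 + 1)) := by gcongr
      _ < ε := by
          rw [mul_div_assoc', div_lt_iff₀ (by linarith)]
          nlinarith
  have hnorm : ‖((1 - δ : ℝ) : ℂ) * (I * m / conj g.b)‖ = 1 - δ := by
    rw [norm_mul, norm_div, norm_mul, Complex.norm_I, one_mul, Complex.norm_real,
      Complex.norm_real, Complex.norm_conj, Real.norm_eq_abs, Real.norm_eq_abs,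
      abs_of_nonneg (by linarith : (0 : ℝ) ≤ 1 - δ)]
    have h5 : |m| = ‖g.b‖ := by
      apply (pow_left_inj₀ (abs_nonneg _) (norm_nonneg _) two_ne_zero).1
      rw [sq_abs, ← hb2, ← hmb]
      ring
    rw [h5, div_self (norm_ne_zero_iff.2 hb), mul_one]
  have hz : ‖((1 - δ : ℝ) : ℂ) * (I * m / conj g.b)‖ < 1 := by rw [hnorm]; linarith
  refine ⟨UnitDisc.mk _ hz, ?_⟩
  set z : 𝔻 := UnitDisc.mk _ hz with hzdef
  have hzc : (z : ℂ) = ((1 - δ : ℝ) : ℂ) * (I * m / conj g.b) := UnitDisc.coe_mk _ _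
  have hzn : ‖(z : ℂ)‖ = 1 - δ := by rw [hzc, hnorm]
  have hBz : conj g.b * (z : ℂ) = ((1 - δ : ℝ) : ℂ) * (I * m) := by
    rw [hzc]
    field_simp
  have h2 : g.b * conj g.b = ((b2 : ℝ) : ℂ) := by
    rw [Complex.mul_conj, Complex.normSq_eq_norm_sq]
  have h3 : ((m * m : ℝ) : ℂ) = ((b2 : ℝ) : ℂ) := by rw [hmb]
  have h4 : (z : ℂ) * g.den z - (g.a * z + g.b) = -(g.b * (δ : ℂ) ^ 2) := by
    apply mul_left_cancel₀ hB
    unfold SU11.den
    push_cast at hBz h3
    linear_combination (conj g.b * (z : ℂ) + (1 - (δ : ℂ)) * (I * m) + conj g.a - g.a) * hBz -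
      (1 - (δ : ℂ)) * (I * m) * h1 - (1 - (δ : ℂ) ^ 2) * h2 + ((1 - (δ : ℂ)) ^ 2 * (m : ℂ) ^ 2 -
      2 * (1 - (δ : ℂ)) * (m : ℂ) ^ 2) * hI + (-(1 - (δ : ℂ)) ^ 2 + 2 * (1 - (δ : ℂ))) * h3
  have hQ := CommA_Qd g z
  rw [hQ, h4, hzn, norm_neg, norm_mul, norm_pow, Complex.norm_real, Real.norm_eq_abs, abs_of_pos hδ0]
  have h5 : 1 - (1 - δ) ^ 2 = δ * (2 - δ) := by ring
  rw [h5, mul_pow, ← hb2]
  have h6 : 1 ≤ (2 - δ) ^ 2 := by nlinarith
  have h7 : 0 < 2 - δ := by linarith
  rw [div_lt_iff₀ (by positivity)]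
  calc b2 * (δ ^ 2) ^ 2 = (b2 * δ ^ 2) * δ ^ 2 := by ring
    _ < ε * δ ^ 2 := by gcongr
    _ ≤ ε * (δ * (2 - δ)) ^ 2 := by
        rw [mul_pow]
        have : δ ^ 2 ≤ δ ^ 2 * (2 - δ) ^ 2 := le_mul_of_one_le_right (by positivity) h6
        gcongr

end

end Pool.Agent.Lib.MP_b16327_pr
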