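import Pool.Agent.Lib.MP_b16327_pr.HarmB

/-! # Functions with the mean value property are p + conj q -/

namespace Pool.Agent.Lib.MP_b16327_pr

open Complex MeasureTheory ComplexConjugate Filter
open scoped Complex.UnitDisc Topology BoundedContinuousFunction

noncomputable section

/-- real parts of holomorphic functions: by `CMV.poisson` and `herglotz_holo`, `u` is on every
`‖z‖ < r` the real part of a holomorphic function, so harmonic on the disc; use
`InnerProductSpace.HarmonicOnNhd.exists_analyticOnNhd_ball_re_eq` -/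
theorem CMV.exists_re {u : 𝔻 → ℝ} (hu : CMV (fun z => (u z : ℂ))) :
    ∃ f : ℂ → ℂ, Holo f ∧ ∀ z : 𝔻, (f z).re = u z := by
  classical
  obtain ⟨U, hU⟩ : ∃ U : ℂ → ℝ, U = fun w => if h : ‖w‖ < 1 then u (UnitDisc.mk w h) else 0 :=
    ⟨_, rfl⟩
  have hUz : ∀ z : 𝔻, U z = u z := by
    intro z
    rw [hU]
    simp only
    rw [dif_pos z.norm_lt_one]
    refine congrArg u ?_
    apply UnitDisc.coe_injective
    rw [UnitDisc.coe_mk]
  have huc : Continuous u := by
    have h1 := Complex.continuous_re.comp hu.cont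
    exact h1
  -- harmonicity
  have hharm : InnerProductSpace.HarmonicOnNhd U (Metric.ball (0 : ℂ) 1) := by
    intro w hw
    rw [mem_ball_zero_iff] at hw
    obtain ⟨r, hr1, hr2⟩ := exists_between hw
    have hr0 : 0 < r := lt_of_le_of_lt (norm_nonneg _) hr1
    have hn : ∀ ξ : Circle, ‖r * (ξ : ℂ)‖ < 1 := by
      intro ξ
      rw [norm_mul, Circle.norm_coe, mul_one, Complex.norm_real, Real.norm_of_nonneg hr0.le]
      exact hr2
    have hrn : ‖(r : ℂ)‖ < 1 := by
      rw [Complex.norm_real, Real.norm_of_nonneg hr0.le]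
      exact hr2
    have hUc : Continuous (fun ξ : Circle => u (UnitDisc.mk (r * (ξ : ℂ)) (hn ξ))) := by
      have h1 : Continuous (fun ξ : Circle => u (ξ • UnitDisc.mk (r : ℂ) hrn)) :=
        huc.comp (continuous_rot_smul.comp (Continuous.prodMk continuous_id continuous_const))
      refine h1.congr (fun ξ => congrArg u ?_)
      apply UnitDisc.coe_injective
      rw [UnitDisc.coe_circle_smul, UnitDisc.coe_mk, UnitDisc.coe_mk, mul_comm]
    have hholo := herglotz_holo (fun ξ : Circle => u (UnitDisc.mk (r * (ξ : ℂ)) (hn ξ))) hUc hr0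
    have han := hholo.analyticAt (Metric.isOpen_ball.mem_nhds
      (show w ∈ Metric.ball (0 : ℂ) r by rwa [mem_ball_zero_iff]))
    have h1 := han.harmonicAt_re
    rw [InnerProductSpace.harmonicAt_congr_nhds (f₂ := fun z : ℂ => (∫ ξ : Circle,
      ((u (UnitDisc.mk (r * (ξ : ℂ)) (hn ξ)) : ℝ) : ℂ) *
        ((r * (ξ : ℂ) + z) / (r * (ξ : ℂ) - z)) ∂lam).re)]
    · exact h1
    · filter_upwards [Metric.isOpen_ball.mem_nhds
        (show w ∈ Metric.ball (0 : ℂ) r by rwa [mem_ball_zero_iff])] with z hz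
      rw [mem_ball_zero_iff] at hz
      have hz1 : ‖z‖ < 1 := hz.trans hr2
      have h2 := hu.poisson hr0 hr2 (UnitDisc.mk z hz1) (by rwa [UnitDisc.coe_mk])
      have h3 := hUz (UnitDisc.mk z hz1)
      rw [h2] at h3
      simpa only [UnitDisc.coe_mk] using h3
  obtain ⟨F, hF, hFr⟩ := InnerProductSpace.HarmonicOnNhd.exists_analyticOnNhd_ball_re_eq hharm
  refine ⟨F, hF.differentiableOn, fun z => ?_⟩
  have h1 := hFr (show (z : ℂ) ∈ Metric.ball (0 : ℂ) 1 by
    rw [mem_ball_zero_iff]; exact z.norm_lt_one)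
  simp only at h1
  rw [h1, hUz]

/-- `u = p + conj q` (`u = u₁ + i u₂`, `u₁ = Re f`, `u₂ = Re g`, `p = (f + i g)/2`,
`q = (f - i g)/2`) -/
theorem CMV.decomp {u : 𝔻 → ℂ} (hu : CMV u) :
    ∃ p q : ℂ → ℂ, Holo p ∧ Holo q ∧ ∀ z : 𝔻, u z = p z + conj (q z) := by
  have h1 : CMV (fun z => (((u z).re : ℝ) : ℂ)) := by
    have h2 := (hu.add hu.conj).const_mul (1 / 2)
    have h3 : (fun z => (((u z).re : ℝ) : ℂ)) = fun z => (1 / 2 : ℂ) * (u z + conj (u z)) := by
      funext z
      rw [Complex.add_conj]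
      push_cast
      ring
    rw [h3]
    exact h2
  have h1' : CMV (fun z => (((u z).im : ℝ) : ℂ)) := by
    have h2 := (hu.sub hu.conj).const_mul (-I / 2)
    have h3 : (fun z => (((u z).im : ℝ) : ℂ)) = fun z => (-I / 2 : ℂ) * (u z - conj (u z)) := by
      funext z
      rw [Complex.sub_conj]
      push_cast
      linear_combination ((u z).im : ℂ) * I_mul_I
    rw [h3]
    exact h2
  obtain ⟨f, hf, hfr⟩ := h1.exists_re
  obtain ⟨g, hg, hgr⟩ := h1'.exists_re
  refine ⟨fun z => (f z + I * g z) / 2, fun z => (f z - I * g z) / 2, ?_, ?_, ?_⟩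
  · exact (hf.add (hg.const_mul I)).div_const 2
  · exact (hf.sub (hg.const_mul I)).div_const 2
  · intro z
    have e1 : f z + conj (f z) = 2 * (((u z).re : ℝ) : ℂ) := by
      rw [Complex.add_conj, hfr]
      push_cast
      ring
    have e2 : g z + conj (g z) = 2 * (((u z).im : ℝ) : ℂ) := by
      rw [Complex.add_conj, hgr]
      push_cast
      ring
    have e3 := Complex.re_add_im (u z)
    simp only [map_div₀, map_sub, map_mul, Complex.conj_I, map_ofNat]
    rw [← e3]
    linear_combination (-1 / 2 : ℂ) * e1 - (I / 2) * e2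

/-- a holomorphic function with constant real part, or equal to an antiholomorphic function up to
..., is constant: if `p z + conj (q z) = 0` on the disc then `p` is constant -/
theorem holo_eq_antiholo {p q : ℂ → ℂ} (hp : Holo p) (hq : Holo q)
    (h : ∀ z : 𝔻, p z + conj (q z) = 0) : ∃ c : ℂ, ∀ z : 𝔻, p z = c := by
  refine ⟨p 0, fun z => ?_⟩
  have hz : (z : ℂ) ∈ Metric.ball (0 : ℂ) 1 := by
    rw [mem_ball_zero_iff]
    exact z.norm_lt_one
  have h0 : (0 : ℂ) ∈ Metric.ball (0 : ℂ) 1 := by simp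
  refine Metric.isOpen_ball.is_const_of_fderiv_eq_zero (𝕜 := ℂ)
    (convex_ball (0 : ℂ) 1).isPreconnected hp ?_ hz h0
  intro w hw
  have hpw : HasFDerivAt p (fderiv ℂ p w) w :=
    (hp.differentiableAt (Metric.isOpen_ball.mem_nhds hw)).hasFDerivAt
  have hqw : HasFDerivAt q (fderiv ℂ q w) w :=
    (hq.differentiableAt (Metric.isOpen_ball.mem_nhds hw)).hasFDerivAt
  have h1 : HasFDerivAt (fun x => p x + conj (q x))
      ((fderiv ℂ p w).restrictScalars ℝ +
        (Complex.conjCLE : ℂ →L[ℝ] ℂ).comp ((fderiv ℂ q w).restrictScalars ℝ)) w := by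
    refine (hpw.restrictScalars ℝ).add ?_
    exact ((Complex.conjCLE : ℂ →L[ℝ] ℂ).hasFDerivAt).comp w (hqw.restrictScalars ℝ)
  have h2 : HasFDerivAt (fun x => p x + conj (q x)) (0 : ℂ →L[ℝ] ℂ) w := by
    refine (hasFDerivAt_const (0 : ℂ) w).congr_of_eventuallyEq ?_
    filter_upwards [Metric.isOpen_ball.mem_nhds hw] with x hx
    rw [mem_ball_zero_iff] at hx
    exact h (UnitDisc.mk x hx)
  have h3 := h1.unique h2
  have e1 : fderiv ℂ p w 1 + conj (fderiv ℂ q w 1) = 0 := by
    have := congrArg (fun L : ℂ →L[ℝ] ℂ => L 1) h3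
    simpa using this
  have e2 : fderiv ℂ p w I + conj (fderiv ℂ q w I) = 0 := by
    have := congrArg (fun L : ℂ →L[ℝ] ℂ => L I) h3
    simpa using this
  have hpI : fderiv ℂ p w I = I * fderiv ℂ p w 1 := by
    have h5 := (fderiv ℂ p w).map_smul I 1
    rwa [smul_eq_mul, mul_one, smul_eq_mul] at h5
  have hqI : fderiv ℂ q w I = I * fderiv ℂ q w 1 := by
    have h5 := (fderiv ℂ q w).map_smul I 1
    rwa [smul_eq_mul, mul_one, smul_eq_mul] at h5
  rw [hpI, hqI, map_mul, Complex.conj_I] at e2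
  have e3 : fderiv ℂ p w 1 = 0 := by
    have h4 : (2 * I) * fderiv ℂ p w 1 = 0 := by linear_combination e2 + I * e1
    rcases mul_eq_zero.mp h4 with h5 | h5
    · exact absurd h5 (mul_ne_zero two_ne_zero I_ne_zero)
    · exact h5
  ext
  simpa using e3

/-- composition with the group -/
theorem Holo.comp_smul {f : ℂ → ℂ} (hf : Holo f) (g : SU11) :
    Holo (fun z => f (g.mob z)) :=
  CmvA_holo_mob hf g

end

end Pool.Agent.Lib.MP_b16327_pr
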