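import Pool.Agent.Lib.MP_b16327_pr.HypA

/-! # Hyperbolic elements and side functions -/

namespace Pool.Agent.Lib.MP_b16327_pr

open Complex MeasureTheory ComplexConjugate Filter
open scoped Complex.UnitDisc Topology BoundedContinuousFunction

noncomputable section

/-- a hyperbolic element of `Γ` with a normal form -/
structure HypD (Γ : Subgroup SU11) where
  /-- the element -/
  a : Γ
  /-- conjugation to the real axis -/
  g : SU11
  /-- translation length -/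
  T : ℝ
  T_pos : 0 < T
  eq : ∀ z : 𝔻, (a : SU11) • z = (g * At T * g⁻¹) • z

namespace HypD

variable {Γ : Subgroup SU11} (H : HypD Γ)

/-- side function of the axis of `a` -/
def s (z : 𝔻) : ℝ := s0 (H.g⁻¹ • z)

private theorem HypB_axis (z : 𝔻) : H.g⁻¹ • ((H.a : SU11) • z) = At H.T • (H.g⁻¹ • z) := by
  rw [H.eq, smul_smul, smul_smul]
  congr 1
  group

private theorem HypB_axis' (z : 𝔻) :
    H.g⁻¹ • ((H.a : SU11)⁻¹ • z) = At (-H.T) • (H.g⁻¹ • z) := by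
  have h := HypB_axis H ((H.a : SU11)⁻¹ • z)
  rw [smul_inv_smul] at h
  have h2 : At (-H.T) * At H.T = 1 := by rw [← At_add, neg_add_cancel, At_zero]
  rw [h, smul_smul (At (-H.T)), h2, one_smul]

private theorem HypB_zpow (n : ℤ) (z : 𝔻) :
    H.g⁻¹ • (((H.a : SU11) ^ n) • z) = At (n * H.T) • (H.g⁻¹ • z) := by
  induction n using Int.induction_on generalizing z with
  | zero => simp [At_zero]
  | succ n ih =>
    rw [zpow_add_one, mul_smul, ih, HypB_axis, smul_smul, ← At_add]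
    congr 2
    push_cast
    ring
  | pred n ih =>
    rw [zpow_sub_one, mul_smul, ih, HypB_axis', smul_smul, ← At_add]
    congr 2
    push_cast
    ring

theorem continuous_s : Continuous H.s := by
  unfold s s0
  exact continuous_const.max
    (continuous_const.min (continuous_yc.comp (continuous_smul_disc H.g⁻¹)))

theorem abs_s_le (z : 𝔻) : |H.s z| ≤ 1 := by
  unfold s s0
  rw [abs_le]
  exact ⟨le_max_left _ _, max_le (by norm_num) (min_le_left _ _)⟩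

theorem s_zpow (n : ℤ) (z : 𝔻) : H.s (((H.a : SU11) ^ n) • z) = H.s z := by
  unfold s s0
  rw [HypB_zpow, yc_At]

theorem s_smul (z : 𝔻) : H.s ((H.a : SU11) • z) = H.s z := by
  have h := s_zpow H 1 z
  rwa [zpow_one] at h

private theorem HypB_preconn {r : ℝ} (hr : r < 1) : IsPreconnected {z : 𝔻 | ‖(z : ℂ)‖ ≤ r} := by
  rw [← UnitDisc.isEmbedding_coe.isInducing.isPreconnected_image]
  have h : ((↑) : 𝔻 → ℂ) '' {z : 𝔻 | ‖(z : ℂ)‖ ≤ r} = Metric.closedBall (0 : ℂ) r := by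
    ext w
    simp only [Set.mem_image, Set.mem_ofPred_eq, mem_closedBall_zero_iff]
    constructor
    · rintro ⟨z, hz, rfl⟩
      exact hz
    · intro hw
      exact ⟨UnitDisc.mk w (lt_of_le_of_lt hw hr), by simpa using hw, by simp⟩
  rw [h]
  exact (convex_closedBall _ _).isPreconnected

/-- a point where the side function of `δ⁻¹` is not saturated -/
private theorem HypB_point {r : ℝ} (hr : r < 1) (δ : SU11) {z w : 𝔻} (hz : ‖(z : ℂ)‖ ≤ r)
    (hw : ‖(w : ℂ)‖ ≤ r) (hne : H.s (δ⁻¹ • z) ≠ H.s (δ⁻¹ • w)) :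
    ∃ z' : 𝔻, ‖(z' : ℂ)‖ ≤ r ∧ |yc (H.g⁻¹ • (δ⁻¹ • z'))| ≤ 1 := by
  by_contra hcon
  push Not at hcon
  set f : 𝔻 → ℝ := fun z => yc (H.g⁻¹ • (δ⁻¹ • z)) with hf
  have hfc : Continuous f :=
    continuous_yc.comp ((continuous_smul_disc H.g⁻¹).comp (continuous_smul_disc δ⁻¹))
  have hs : ∀ z, H.s (δ⁻¹ • z) = max (-1) (min 1 (f z)) := fun z => rfl
  have hpos : ∀ z : 𝔻, 1 < f z → H.s (δ⁻¹ • z) = 1 := by
    intro z h
    rw [hs, min_eq_left h.le, max_eq_right (by norm_num)]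
  have hneg : ∀ z : 𝔻, f z < -1 → H.s (δ⁻¹ • z) = -1 := by
    intro z h
    rw [hs, min_eq_right (by linarith), max_eq_left h.le]
  have hcase : ∀ z : 𝔻, ‖(z : ℂ)‖ ≤ r → 1 < f z ∨ f z < -1 := by
    intro z hz
    rcases lt_abs.1 (hcon z hz) with h | h
    · exact Or.inl h
    · exact Or.inr (by linarith)
  have hivt : ∀ z w : 𝔻, ‖(z : ℂ)‖ ≤ r → ‖(w : ℂ)‖ ≤ r → f z < -1 → 1 < f w → False := by
    intro z w hz hw h1 h2
    have h3 := (HypB_preconn hr).intermediate_value (f := f) hz hw hfc.continuousOn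
    obtain ⟨y, hy, hy0⟩ := h3 (show (0 : ℝ) ∈ Set.Icc (f z) (f w) from ⟨by linarith, by linarith⟩)
    rcases hcase y hy with h | h <;> rw [hy0] at h <;> linarith
  rcases hcase z hz with h1 | h1 <;> rcases hcase w hw with h2 | h2
  · exact hne (by rw [hpos z h1, hpos w h2])
  · exact hivt w z hw hz h2 h1
  · exact hivt z w hz hw h1 h2
  · exact hne (by rw [hneg z h1, hneg w h2])

/-- every coset with a non saturated point is represented in a finite set -/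
private theorem HypB_finite (hd : IsDisc Γ) {r : ℝ} (hr : r < 1) :
    ∃ S : Set Γ, S.Finite ∧ ∀ δ : Γ, (∃ z' : 𝔻, ‖(z' : ℂ)‖ ≤ r ∧
      |yc (H.g⁻¹ • (((δ : SU11))⁻¹ • z'))| ≤ 1) → ∃ n : ℤ, δ * (H.a ^ n)⁻¹ ∈ S := by
  obtain ⟨r1, hr1, htube⟩ := tube_compact H.T
  obtain ⟨r2, -, hr2, hK⟩ := isCompact_subset
    ((isCompact_closedBallD hr1).image (continuous_smul_disc H.g))
  have hr3 : max r r2 < 1 := max_lt hr hr2
  refine ⟨{γ | γ⁻¹ ∈ {γ : Γ | ∃ z : 𝔻, ‖(z : ℂ)‖ ≤ max r r2 ∧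
    ‖(((γ : SU11) • z : 𝔻) : ℂ)‖ ≤ max r r2}}, ?_, ?_⟩
  · exact (finite_meet hd hr3).preimage (inv_injective.injOn)
  rintro δ ⟨z', hz', hy⟩
  set x : ℝ := xc (H.g⁻¹ • (((δ : SU11))⁻¹ • z')) with hx
  have hT := H.T_pos
  refine ⟨-⌊x / H.T⌋, ?_⟩
  refine ⟨z', le_trans hz' (le_max_left _ _), ?_⟩
  refine le_trans ?_ (le_max_right _ _)
  have hcoe : (((δ * (H.a ^ (-⌊x / H.T⌋))⁻¹)⁻¹ : Γ) : SU11) =
      (H.a : SU11) ^ (-⌊x / H.T⌋) * ((δ : SU11))⁻¹ := by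
    push_cast
    group
  rw [hcoe, mul_smul]
  set y : 𝔻 := (H.a : SU11) ^ (-⌊x / H.T⌋) • (((δ : SU11))⁻¹ • z') with hyd
  have h1 : H.g⁻¹ • y = At ((-⌊x / H.T⌋ : ℤ) * H.T) • (H.g⁻¹ • (((δ : SU11))⁻¹ • z')) := by
    rw [hyd, HypB_zpow]
  have h2 : |yc (H.g⁻¹ • y)| ≤ 1 := by
    rw [h1, yc_At]
    exact hy
  have h3 : |xc (H.g⁻¹ • y)| ≤ H.T := by
    rw [h1, xc_At, ← hx]
    have h4 : (⌊x / H.T⌋ : ℝ) * H.T ≤ x := by
      have := Int.floor_le (x / H.T)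
      calc (⌊x / H.T⌋ : ℝ) * H.T ≤ (x / H.T) * H.T := mul_le_mul_of_nonneg_right this hT.le
        _ = x := div_mul_cancel₀ _ hT.ne'
    have h5 : x < ((⌊x / H.T⌋ : ℝ) + 1) * H.T := by
      have := Int.lt_floor_add_one (x / H.T)
      calc x = (x / H.T) * H.T := (div_mul_cancel₀ _ hT.ne').symm
        _ < ((⌊x / H.T⌋ : ℝ) + 1) * H.T := mul_lt_mul_of_pos_right this hT
    rw [abs_le]
    push_cast
    constructor <;> nlinarith
  have h6 := htube _ h2 h3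
  have h7 : y = H.g • (H.g⁻¹ • y) := (smul_inv_smul _ _).symm
  rw [h7]
  exact hK _ ⟨H.g⁻¹ • y, h6, rfl⟩

/-- FINITENESS.  For `r < 1` there is a finite set `F ⊆ Γ` of elements in different cosets of
`⟨a⟩` such that every coset `δ⟨a⟩` for which `s ∘ δ⁻¹` is not constant on `‖z‖ ≤ r` is represented
in `F`.  Proof: if `s ∘ δ⁻¹` is not constant on the connected set `‖z‖ ≤ r`, some point `z'` of it
has `|yc (g⁻¹ δ⁻¹ z')| < 1` (otherwise the continuous function `s ∘ δ⁻¹` takes only the values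
`±1`), and after multiplying `δ` on the right by a power of `a` also
`|xc (g⁻¹ δ⁻¹ z')| ≤ T`, so `δ⁻¹ z'` lies in a fixed compact set; `finite_meet`. -/
theorem finite_cosets (hd : IsDisc Γ) {r : ℝ} (hr : r < 1) :
    ∃ F : Finset Γ, (∀ δ ∈ F, ∀ δ' ∈ F, δ⁻¹ * δ' ∈ Subgroup.zpowers H.a → δ = δ') ∧
      ∀ δ : Γ, (∃ z w : 𝔻, ‖(z : ℂ)‖ ≤ r ∧ ‖(w : ℂ)‖ ≤ r ∧
        H.s (((δ : SU11))⁻¹ • z) ≠ H.s (((δ : SU11))⁻¹ • w)) →
        ∃ δ' ∈ F, δ⁻¹ * δ' ∈ Subgroup.zpowers H.a := by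
  classical
  obtain ⟨S, hS, hcov⟩ := HypB_finite H hd hr
  let mk : Γ → Γ ⧸ Subgroup.zpowers H.a := fun δ => (δ : Γ ⧸ Subgroup.zpowers H.a)
  refine ⟨(hS.toFinset.image mk).image Quotient.out, ?_, ?_⟩
  · intro δ hδ δ' hδ' hrel
    obtain ⟨q, -, rfl⟩ := Finset.mem_image.1 hδ
    obtain ⟨q', -, rfl⟩ := Finset.mem_image.1 hδ'
    have h1 : mk (Quotient.out q) = mk (Quotient.out q') := QuotientGroup.eq.2 hrel
    have h2 : mk (Quotient.out q) = q := QuotientGroup.out_eq' q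
    have h3 : mk (Quotient.out q') = q' := QuotientGroup.out_eq' q'
    rw [h2, h3] at h1
    rw [h1]
  · rintro δ ⟨z, w, hz, hw, hne⟩
    obtain ⟨n, hn⟩ := hcov δ (HypB_point H hr δ hz hw hne)
    refine ⟨Quotient.out (mk (δ * (H.a ^ n)⁻¹)), ?_, ?_⟩
    · exact Finset.mem_image_of_mem _ (Finset.mem_image_of_mem _ (hS.mem_toFinset.2 hn))
    · apply QuotientGroup.eq.1
      have h2 : mk (Quotient.out (mk (δ * (H.a ^ n)⁻¹))) = mk (δ * (H.a ^ n)⁻¹) :=
        QuotientGroup.out_eq' _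
      change mk δ = mk _
      rw [h2]
      apply QuotientGroup.eq.2
      rw [inv_mul_cancel_left]
      exact Subgroup.inv_mem _ (Subgroup.zpow_mem _ (Subgroup.mem_zpowers _) n)

end HypD

end

end Pool.Agent.Lib.MP_b16327_pr
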