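import Pool.Agent.Lib.MP_b16327_pr.CommA
import Pool.Agent.Lib.MP_b16327_pr.HypB
import Pool.Agent.Lib.MP_b16327_pr.HarmC

/-! # Commutators with non-zero flux -/

namespace Pool.Agent.Lib.MP_b16327_pr

open Complex MeasureTheory ComplexConjugate Filter
open scoped Complex.UnitDisc Topology BoundedContinuousFunction

noncomputable section

private theorem CommB_Qd_cont (g : SU11) : Continuous (fun z : 𝔻 => Qd z (g • z)) := by
  have h1 : Continuous (fun z : 𝔻 => (z : ℂ)) := UnitDisc.continuous_coe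
  have h2 : Continuous (fun z : 𝔻 => ((g • z : 𝔻) : ℂ)) := h1.comp (continuous_smul_disc g)
  unfold Qd
  refine Continuous.div (by fun_prop) (by fun_prop) fun z => ?_
  have h3 := UnitDisc.sq_norm_lt_one z
  have h4 := UnitDisc.sq_norm_lt_one (g • z)
  exact mul_ne_zero (by linarith) (by linarith)

private theorem CommB_Qd_pos {z w : 𝔻} (h : z ≠ w) : 0 < Qd z w := by
  have h1 : (z : ℂ) - w ≠ 0 := fun h0 => h (UnitDisc.coe_injective (sub_eq_zero.1 h0))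
  have h3 := UnitDisc.sq_norm_lt_one z
  have h4 := UnitDisc.sq_norm_lt_one w
  unfold Qd
  have h5 : 0 < ‖(z : ℂ) - w‖ := norm_pos_iff.2 h1
  exact div_pos (by positivity) (mul_pos (by linarith) (by linarith))

private theorem CommB_finite {Γ : Subgroup SU11} (hd : IsDisc Γ) {r : ℝ} (hr0 : 0 ≤ r)
    (hr : r < 1) : {g : SU11 | g ∈ Γ ∧ ∃ w : 𝔻, ‖(w : ℂ)‖ ≤ r ∧ Qd w (g • w) ≤ 1}.Finite := by
  refine (hd (Real.exp ((2 * -Real.log (1 - r ^ 2) + Real.log 2 + 2 * Real.log 4) / 2))).subset ?_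
  rintro g ⟨hg, w, hw, hQ⟩
  refine ⟨hg, ?_⟩
  have h0 : dL w 0 ≤ -Real.log (1 - r ^ 2) := by
    rw [dL_zero]
    have h1 : 0 < 1 - r ^ 2 := by nlinarith
    have h2 : 1 - r ^ 2 ≤ 1 - ‖(w : ℂ)‖ ^ 2 := by nlinarith [norm_nonneg (w : ℂ)]
    have h3 := Real.log_le_log h1 h2
    linarith
  have h1 : dL (g • w) w ≤ Real.log 2 := by
    rw [dL_comm]
    unfold dL
    exact Real.log_le_log (by linarith [Qd_nonneg w (g • w)]) (by linarith)
  have h2 : Lg g ≤ 2 * -Real.log (1 - r ^ 2) + Real.log 2 + 2 * Real.log 4 := by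
    rw [← dL_smul_zero]
    have t1 := dL_triangle (g • (0 : 𝔻)) (g • w) 0
    have t2 := dL_triangle (g • w) w 0
    rw [dL_smul, dL_comm 0 w] at t1
    linarith
  have h3 : ‖g.a‖ ^ 2 ≤ Real.exp (2 * -Real.log (1 - r ^ 2) + Real.log 2 + 2 * Real.log 4) := by
    have h4 : 0 < normSq g.a := Complex.normSq_pos.2 g.a_ne_zero
    rw [← Complex.normSq_eq_norm_sq, ← Real.exp_log h4]
    exact Real.exp_le_exp.2 h2
  have h5 : Real.exp (2 * -Real.log (1 - r ^ 2) + Real.log 2 + 2 * Real.log 4) =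
      Real.exp ((2 * -Real.log (1 - r ^ 2) + Real.log 2 + 2 * Real.log 4) / 2) ^ 2 := by
    rw [← Real.exp_nat_mul]
    congr 1
    push_cast
    ring
  rw [h5] at h3
  exact (pow_le_pow_iff_left₀ (norm_nonneg _) (Real.exp_nonneg _) two_ne_zero).1 h3

private theorem CommB_unif {α : Type*} {S : Set α} (hS : S.Finite) {P : α → ℝ → Prop}
    (hmono : ∀ x ε ε', ε' ≤ ε → P x ε → P x ε') (h : ∀ x ∈ S, ∃ ε : ℝ, 0 < ε ∧ P x ε) :
    ∃ ε : ℝ, 0 < ε ∧ ∀ x ∈ S, P x ε := by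
  induction S, hS using Set.Finite.induction_on with
  | empty => exact ⟨1, one_pos, fun x hx => absurd hx (Set.notMem_empty x)⟩
  | @insert a S _ _ ih =>
    obtain ⟨ε1, h1, h1'⟩ := ih fun x hx => h x (Set.mem_insert_of_mem _ hx)
    obtain ⟨ε2, h2, h2'⟩ := h a (Set.mem_insert _ _)
    refine ⟨min ε1 ε2, lt_min h1 h2, ?_⟩
    rintro x (rfl | hx)
    · exact hmono _ _ _ (min_le_right _ _) h2'
    · exact hmono _ _ _ (min_le_left _ _) (h1' x hx)

/-- in a discrete cocompact group the displacement of the elements without fixed point is bounded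
below: conjugate by `γ` with `‖γ z‖ ≤ r`; there are only finitely many `δ ∈ Γ` with
`Qd w (δ w) ≤ 1` for some `‖w‖ ≤ r`, and each of those without fixed point has positive minimal
displacement on the compact disc `‖w‖ ≤ r`. -/
theorem displacement_bound {Γ : Subgroup SU11} (hd : IsDisc Γ) (hc : IsCocpt Γ) :
    ∃ ε : ℝ, 0 < ε ∧ ∀ g ∈ Γ, (∀ z : 𝔻, g • z ≠ z) → ∀ z : 𝔻, ε ≤ Qd z (g • z) := by
  obtain ⟨r, hr, hcov⟩ := hc
  have hr0 : 0 ≤ r := by
    obtain ⟨g, -, hg⟩ := hcov 0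
    exact (norm_nonneg _).trans hg
  obtain ⟨ε, hε, hS⟩ := CommB_unif (CommB_finite hd hr0 hr)
    (P := fun g ε => (∀ z : 𝔻, g • z ≠ z) → ∀ w : 𝔻, ‖(w : ℂ)‖ ≤ r → ε ≤ Qd w (g • w))
    (fun g ε ε' he hP hz w hw => he.trans (hP hz w hw))
    (by
      rintro g ⟨-, -⟩
      by_cases hz : ∀ z : 𝔻, g • z ≠ z
      · have hne : ({z : 𝔻 | ‖(z : ℂ)‖ ≤ r}).Nonempty := ⟨0, by
          simpa using hr0⟩
        obtain ⟨w, hw, hmin⟩ := (isCompact_closedBallD hr).exists_isMinOn hne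
          (CommB_Qd_cont g).continuousOn
        exact ⟨Qd w (g • w), CommB_Qd_pos (hz w).symm, fun _ w' hw' => hmin hw'⟩
      · exact ⟨1, one_pos, fun h => absurd h hz⟩)
  refine ⟨min ε 1, lt_min hε one_pos, fun g hg hz z => ?_⟩
  obtain ⟨γ, hγ, hγz⟩ := hcov z
  have e1 : Qd z (g • z) = Qd (γ • z) ((γ * g * γ⁻¹) • (γ • z)) := by
    rw [← Qd_smul γ z (g • z), ← mul_smul, ← mul_smul]
    congr 2
    group
  rw [e1]
  by_cases h1 : Qd (γ • z) ((γ * g * γ⁻¹) • (γ • z)) ≤ 1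
  · refine (min_le_left _ _).trans (hS (γ * g * γ⁻¹) ⟨?_, γ • z, hγz, h1⟩ ?_ _ hγz)
    · exact Γ.mul_mem (Γ.mul_mem hγ hg) (Γ.inv_mem hγ)
    · intro w hw
      apply hz (γ⁻¹ • w)
      rw [mul_smul, mul_smul] at hw
      exact eq_inv_smul_iff.2 hw
  · exact (min_le_right _ _).trans (not_le.1 h1).le

/-- every element without fixed point is hyperbolic -/
theorem exists_hypD {Γ : Subgroup SU11} (hd : IsDisc Γ) (hc : IsCocpt Γ) (a : Γ)
    (ha : ∀ z : 𝔻, (a : SU11) • z ≠ z) : ∃ H : HypD Γ, H.a = a := by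
  rcases lt_trichotomy |(a : SU11).a.re| 1 with h | h | h
  · obtain ⟨z, hz⟩ := fixed_of_elliptic _ h
    exact absurd hz (ha z)
  · obtain ⟨ε, hε, hdis⟩ := displacement_bound hd hc
    obtain ⟨z, hz⟩ := parabolic_small _ h hε
    exact absurd (hdis a a.2 ha z) (not_le.2 hz)
  · obtain ⟨k, t, ht, hk⟩ := normal_form_of_hyperbolic _ h
    exact ⟨⟨a, k, t, ht, hk⟩, rfl⟩

/-- the additive cocycle of the holomorphic part: if `Φ = p + conj q` and
`Φ (γ z) = l γ Φ z` then `p (γ z) = l γ p z + κ γ` -/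
theorem exists_kappa {Γ : Subgroup SU11} {l : Γ → ℂ} {Φ : 𝔻 → ℂ} {p q : ℂ → ℂ} (hp : Holo p)
    (hq : Holo q) (hΦ : ∀ z : 𝔻, Φ z = p z + conj (q z))
    (heq : ∀ (γ : Γ) (z : 𝔻), Φ ((γ : SU11) • z) = l γ * Φ z) :
    ∃ κ : Γ → ℂ, ∀ (γ : Γ) (z : 𝔻), p (((γ : SU11) • z : 𝔻) : ℂ) = l γ * p z + κ γ := by
  have key : ∀ γ : Γ, ∃ c : ℂ, ∀ z : 𝔻, p (((γ : SU11) • z : 𝔻) : ℂ) = l γ * p z + c := by
    intro γ
    have hP : Holo (fun z => p ((γ : SU11).mob z) - l γ * p z) := by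
      have h1 := Holo.comp_smul hp (γ : SU11)
      unfold Holo at *
      exact h1.sub (hp.const_mul _)
    have hQ : Holo (fun z => q ((γ : SU11).mob z) - conj (l γ) * q z) := by
      have h1 := Holo.comp_smul hq (γ : SU11)
      unfold Holo at *
      exact h1.sub (hq.const_mul _)
    obtain ⟨c, hc⟩ := holo_eq_antiholo hP hQ (fun z => by
      have h1 := heq γ z
      rw [hΦ, hΦ, coe_smul] at h1
      simp only [map_sub, map_mul, Complex.conj_conj]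
      linear_combination h1)
    refine ⟨c, fun z => ?_⟩
    have h2 := hc z
    rw [coe_smul]
    linear_combination h2
  choose κ hκ using key
  exact ⟨κ, hκ⟩

/-- NON-VANISHING FLUX.  Let `l` be multiplicative, `l γ₀ ≠ 1`, `Φ = p + conj q ≠ 0` equivariant
under `l`.  Either there is a hyperbolic commutator `a = [γ, γ₀]` with `p (a z) = p z + κ`,
`κ ≠ 0`, or there is a non-zero holomorphic `F` which is equivariant under `l`, or a non-zero
holomorphic `F` equivariant under `conj l`.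
Proof: `κ(γδ) = l(γ) κ(δ) + κ(γ)`, so `κ([γ,γ₀]) = κ(γ)(1 - l γ₀) - κ(γ₀)(1 - l γ)`.  A commutator
with a fixed point `z₀` has `κ = 0` (evaluate at `z₀`).  If all vanish then
`κ(γ) = y (1 - l γ)`, `y = κ(γ₀)/(1 - l γ₀)`, and `p - y`, `q + conj y` work; they are not both `0`. -/
theorem exists_flux {Γ : Subgroup SU11} (hd : IsDisc Γ) (hc : IsCocpt Γ) {l : Γ → ℂ}
    (hmul : ∀ γ δ, l (γ * δ) = l γ * l δ) (hone : l 1 = 1) (hne : ∀ γ, l γ ≠ 0)
    {γ₀ : Γ} (hγ₀ : l γ₀ ≠ 1) {Φ : 𝔻 → ℂ} {p q : ℂ → ℂ} (hp : Holo p) (hq : Holo q)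
    (hΦ : ∀ z : 𝔻, Φ z = p z + conj (q z)) (h0 : ∃ z, Φ z ≠ 0)
    (heq : ∀ (γ : Γ) (z : 𝔻), Φ ((γ : SU11) • z) = l γ * Φ z) :
    (∃ (H : HypD Γ) (γ δ : Γ) (κ : ℂ), H.a = γ * δ * γ⁻¹ * δ⁻¹ ∧ κ ≠ 0 ∧
      ∀ z : 𝔻, p (((H.a : SU11) • z : 𝔻) : ℂ) = p z + κ) ∨
    (∃ F : ℂ → ℂ, Holo F ∧ (∃ z : 𝔻, F z ≠ 0) ∧
      ∀ (γ : Γ) (z : 𝔻), F (((γ : SU11) • z : 𝔻) : ℂ) = l γ * F z) ∨
    (∃ F : ℂ → ℂ, Holo F ∧ (∃ z : 𝔻, F z ≠ 0) ∧
      ∀ (γ : Γ) (z : 𝔻), F (((γ : SU11) • z : 𝔻) : ℂ) = conj (l γ) * F z) := by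
  obtain ⟨κ, hκ⟩ := exists_kappa hp hq hΦ heq
  have hco : ∀ γ δ : Γ, κ (γ * δ) = l γ * κ δ + κ γ := by
    intro γ δ
    have h1 := hκ (γ * δ) 0
    have h2 := hκ γ ((δ : SU11) • (0 : 𝔻))
    have h3 := hκ δ 0
    rw [← mul_smul] at h2
    rw [Subgroup.coe_mul, hmul] at h1
    rw [h3] at h2
    linear_combination h2 - h1
  have hinv : ∀ γ : Γ, l γ⁻¹ = (l γ)⁻¹ := by
    intro γ
    have h1 := hmul γ⁻¹ γ
    rw [inv_mul_cancel, hone] at h1
    exact eq_inv_of_mul_eq_one_left h1.symm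
  have hcomm : ∀ γ : Γ, l (γ * γ₀ * γ⁻¹ * γ₀⁻¹) = 1 := by
    intro γ
    rw [hmul, hmul, hmul, hinv, hinv]
    have h1 := hne γ
    have h2 := hne γ₀
    field_simp
  by_cases hall : ∀ γ : Γ, κ (γ * γ₀ * γ⁻¹ * γ₀⁻¹) = 0
  · right
    have hl0 : 1 - l γ₀ ≠ 0 := fun h => hγ₀ (sub_eq_zero.1 h).symm
    obtain ⟨y, hy⟩ : ∃ y, y = κ γ₀ / (1 - l γ₀) := ⟨_, rfl⟩
    have hyκ : ∀ γ : Γ, κ γ = y * (1 - l γ) := by
      intro γ
      have h1 := hco γ γ₀
      have h2 := hco (γ * γ₀ * γ⁻¹ * γ₀⁻¹) (γ₀ * γ)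
      have h3 := hco γ₀ γ
      rw [hcomm, hall, one_mul, add_zero] at h2
      have h4 : γ * γ₀ * γ⁻¹ * γ₀⁻¹ * (γ₀ * γ) = γ * γ₀ := by group
      rw [h4] at h2
      rw [hy]
      field_simp
      linear_combination h2 - h1 + h3
    have hF : ∀ (γ : Γ) (z : 𝔻), p (((γ : SU11) • z : 𝔻) : ℂ) - y = l γ * (p z - y) := by
      intro γ z
      rw [hκ, hyκ]
      ring
    by_cases hF0 : ∃ z : 𝔻, p z - y ≠ 0
    · left
      refine ⟨fun z => p z - y, ?_, hF0, hF⟩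
      unfold Holo at *
      exact hp.sub (differentiableOn_const y)
    · right
      push Not at hF0
      refine ⟨fun z => q z + conj y, ?_, ?_, ?_⟩
      · unfold Holo at *
        exact hq.add (differentiableOn_const _)
      · obtain ⟨z, hz⟩ := h0
        refine ⟨z, fun h1 => hz ?_⟩
        have h2 := congrArg conj h1
        rw [map_add, Complex.conj_conj, map_zero] at h2
        rw [hΦ]
        linear_combination hF0 z + h2
      · intro γ z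
        have h1 := heq γ z
        rw [hΦ, hΦ] at h1
        have h2 := hF γ z
        have h3 : conj (q (((γ : SU11) • z : 𝔻) : ℂ) + conj y) =
            conj (conj (l γ) * (q z + conj y)) := by
          simp only [map_add, map_mul, Complex.conj_conj]
          linear_combination h1 - h2
        exact (starRingEnd ℂ).injective h3
  · left
    push Not at hall
    obtain ⟨γ, hγ⟩ := hall
    have hp' : ∀ z : 𝔻, p ((((γ * γ₀ * γ⁻¹ * γ₀⁻¹ : Γ) : SU11) • z : 𝔻) : ℂ) =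
        p z + κ (γ * γ₀ * γ⁻¹ * γ₀⁻¹) := by
      intro z
      rw [hκ, hcomm, one_mul]
    obtain ⟨H, hH⟩ := exists_hypD hd hc (γ * γ₀ * γ⁻¹ * γ₀⁻¹) (fun z hz => by
      have h1 := hp' z
      rw [hz] at h1
      exact hγ (by linear_combination -h1))
    refine ⟨H, γ, γ₀, κ (γ * γ₀ * γ⁻¹ * γ₀⁻¹), hH, hγ, ?_⟩
    rw [hH]
    exact hp'

end

end Pool.Agent.Lib.MP_b16327_pr
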