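import Pool.Agent.Lib.MP_b16327_pr.DriftA

/-! # Uniform drift -/

namespace Pool.Agent.Lib.MP_b16327_pr

open Complex MeasureTheory ComplexConjugate Filter
open scoped Complex.UnitDisc Topology BoundedContinuousFunction

noncomputable section

namespace Walk

variable (W : Walk)

private theorem DriftB_stat_real {W : Walk} {ν : Measure Circle} [IsFiniteMeasure ν]
    (h : W.Stat ν) (f : Circle → ℝ) (hf : Integrable f ν) :
    ∫ ξ, f ξ ∂ν = ∑ i, W.p i * ∫ ξ, f (W.h i • ξ) ∂ν := by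
  have h1 := h.integral (fun ξ => (f ξ : ℂ)) hf.ofReal
  have h2 : ((∫ ξ, f ξ ∂ν : ℝ) : ℂ) = ((∑ i, W.p i * ∫ ξ, f (W.h i • ξ) ∂ν : ℝ) : ℂ) := by
    rw [← integral_complex_ofReal, h1]
    push_cast
    refine Finset.sum_congr rfl fun i _ => ?_
    rw [integral_complex_ofReal, Complex.real_smul]
  exact_mod_cast h2

private theorem DriftB_cont (g h : SU11) :
    Continuous (fun ξ : Circle => Real.log (Jac g (h • ξ))) :=
  Continuous.log ((continuous_Jac g).comp (continuous_smul_circle h))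
    (fun ξ => (Jac_pos g (h • ξ)).ne')

private theorem DriftB_int {ν : Measure Circle} [IsFiniteMeasure ν] {f : Circle → ℝ}
    (hf : Continuous f) : Integrable f ν :=
  integrableOn_univ.1 (hf.continuousOn.integrableOn_compact isCompact_univ)

private theorem DriftB_log_mul (g h : SU11) (ξ : Circle) :
    Real.log (Jac (g * h) ((g * h) • ξ)) =
      Real.log (Jac g (g • (h • ξ))) + Real.log (Jac h (h • ξ)) := by
  rw [Jac_mul, mul_smul, inv_smul_smul, Real.log_mul (Jac_pos _ _).ne' (Jac_pos _ _).ne']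

/-- additivity: `Λ(W^n) = n Λ(W)` (`Jac_mul`, stationarity) -/
theorem Lam_pow (ν : Measure Circle) [IsProbabilityMeasure ν] (hst : W.Stat ν) (n : ℕ) :
    (W.pow n).Lam ν = n * W.Lam ν := by
  induction n with
  | zero =>
    have h : (W.pow 0).Lam ν =
        ∑ _i : Unit, (1 : ℝ) * ∫ ξ, Real.log (Jac (1 : SU11) ((1 : SU11) • ξ)) ∂ν := rfl
    rw [h]
    simp [Jac_one]
  | succ n ih =>
    have h : (W.pow (n + 1)).Lam ν = ∑ q : (W.pow n).ι × W.ι, ((W.pow n).p q.1 * W.p q.2) *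
        ∫ ξ, Real.log (Jac ((W.pow n).h q.1 * W.h q.2)
          (((W.pow n).h q.1 * W.h q.2) • ξ)) ∂ν := rfl
    rw [h, Fintype.sum_prod_type]
    have h1 : ∀ (i : (W.pow n).ι) (j : W.ι),
        ∫ ξ, Real.log (Jac ((W.pow n).h i * W.h j) (((W.pow n).h i * W.h j) • ξ)) ∂ν =
        ∫ ξ, Real.log (Jac ((W.pow n).h i) ((W.pow n).h i • (W.h j • ξ))) ∂ν +
          ∫ ξ, Real.log (Jac (W.h j) (W.h j • ξ)) ∂ν := by
      intro i j
      rw [← integral_add]
      · exact integral_congr_ae (Eventually.of_forall fun ξ => DriftB_log_mul _ _ ξ)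
      · exact DriftB_int ((DriftB_cont ((W.pow n).h i) ((W.pow n).h i)).comp
          (continuous_smul_circle (W.h j)))
      · exact DriftB_int (DriftB_cont (W.h j) (W.h j))
    simp only [h1]
    have h2 : ∀ i : (W.pow n).ι, ∑ j, (W.pow n).p i * W.p j *
        (∫ ξ, Real.log (Jac ((W.pow n).h i) ((W.pow n).h i • (W.h j • ξ))) ∂ν +
          ∫ ξ, Real.log (Jac (W.h j) (W.h j • ξ)) ∂ν) =
        (W.pow n).p i * ∫ ξ, Real.log (Jac ((W.pow n).h i) ((W.pow n).h i • ξ)) ∂ν +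
          (W.pow n).p i * W.Lam ν := by
      intro i
      rw [DriftB_stat_real hst (fun ξ => Real.log (Jac ((W.pow n).h i) ((W.pow n).h i • ξ)))
        (DriftB_int (DriftB_cont ((W.pow n).h i) ((W.pow n).h i)))]
      unfold Lam
      rw [Finset.mul_sum, Finset.mul_sum, ← Finset.sum_add_distrib]
      exact Finset.sum_congr rfl fun j _ => by ring
    simp only [h2]
    rw [Finset.sum_add_distrib, ← Finset.sum_mul, (W.pow n).sum, one_mul]
    change (W.pow n).Lam ν + W.Lam ν = _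
    rw [ih]
    push_cast
    ring

/-- `L(w) + log 4 ≤ n R` on the support of `W^n`, `n ≥ 1` -/
theorem Lg_pow_le (R : ℝ) (hR : ∀ i, Lg (W.h i) + Real.log 4 ≤ R) (n : ℕ) :
    ∀ i, Lg ((W.pow n).h i) ≤ n * R := by
  induction n with
  | zero =>
    intro i
    have h : (W.pow 0).h i = 1 := rfl
    rw [h, Lg_one]
    simp
  | succ n ih =>
    rintro ⟨i, j⟩
    have h : (W.pow (n + 1)).h (i, j) = (W.pow n).h i * W.h j := rfl
    rw [h]
    have h1 := Lg_mul_le ((W.pow n).h i) (W.h j)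
    have h2 := ih i
    have h3 := hR j
    push_cast
    linarith

private theorem DriftB_pt (g w : SU11) (ξ : Circle) {δ : ℝ} (hδ : 0 < δ) (hδ1 : δ ≤ 1) :
    Real.log (Jac w (w • ξ)) - Real.log 4 + 2 * Real.log δ -
      Set.indicator {η : Circle | ‖(η : ℂ) - ((g⁻¹ • (0 : 𝔻) : 𝔻) : ℂ)‖ < δ}
        (fun _ => (2 * Lg w + 2 * Real.log 4)) (w • ξ) ≤ Lg (g * w) - Lg g := by
  have hl4 : 0 < Real.log 4 := Real.log_pos (by norm_num)
  have hlδ : Real.log δ ≤ 0 := Real.log_nonpos hδ.le hδ1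
  have hJw : Real.log (Jac w (w • ξ)) ≤ Real.log 4 + Lg w := by
    calc Real.log (Jac w (w • ξ)) ≤ Real.log (4 * Real.exp (Lg w)) :=
          Real.log_le_log (Jac_pos _ _) (Jac_le _ _)
      _ = Real.log 4 + Lg w := by
          rw [Real.log_mul (by norm_num) (Real.exp_pos _).ne', Real.log_exp]
  by_cases h : ‖((w • ξ : Circle) : ℂ) - ((g⁻¹ • (0 : 𝔻) : 𝔻) : ℂ)‖ < δ
  · rw [Set.indicator_of_mem (show (w • ξ) ∈
      {η : Circle | ‖(η : ℂ) - ((g⁻¹ • (0 : 𝔻) : 𝔻) : ℂ)‖ < δ} from h)]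
    have h1 := Lg_le_mul g w
    have h2 := Lg_nonneg w
    linarith
  · rw [Set.indicator_of_notMem (show (w • ξ) ∉
      {η : Circle | ‖(η : ℂ) - ((g⁻¹ • (0 : 𝔻) : 𝔻) : ℂ)‖ < δ} from h)]
    push Not at h
    have h1 : Real.log (Jac (g * w) ((g * w) • ξ)) ≤ Real.log 4 + Lg (g * w) := by
      calc Real.log (Jac (g * w) ((g * w) • ξ)) ≤ Real.log (4 * Real.exp (Lg (g * w))) :=
            Real.log_le_log (Jac_pos _ _) (Jac_le _ _)
        _ = Real.log 4 + Lg (g * w) := by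
            rw [Real.log_mul (by norm_num) (Real.exp_pos _).ne', Real.log_exp]
    rw [DriftB_log_mul, Jac_smul g (w • ξ)] at h1
    have hpos : 0 < ‖((w • ξ : Circle) : ℂ) - ((g⁻¹ • (0 : 𝔻) : 𝔻) : ℂ)‖ := hδ.trans_le h
    rw [Real.log_mul (Real.exp_pos _).ne' (by positivity), Real.log_exp, Real.log_pow] at h1
    have h2 : Real.log δ ≤ Real.log ‖((w • ξ : Circle) : ℂ) - ((g⁻¹ • (0 : 𝔻) : 𝔻) : ℂ)‖ :=
      Real.log_le_log hδ h
    push_cast at h1
    linarith

/-- UNIFORM DRIFT.  For all `g, w` and `ξ`, with `η = w ξ`, `x = g⁻¹ 0`: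
`L(g w) + log 4 ≥ log J_{gw}(g w ξ) = log J_g(g η) + log J_w(w ξ)
 = L(g) + 2 log |η - x| + log J_w(w ξ)`.
If `|η - x| ≥ δ` use this; in general `L(g w) ≥ L(g) - L(w) - log 4` and
`log J_w ≤ log 4 + L(w)`.  So always
`L(gw) - L(g) ≥ log J_w(wξ) - log 4 + 2 log δ - 1_{|η-x|<δ} (2 L(w) + 2 log 4)`.
Average over `w ~ W^n`, `ξ ~ ν` (then `η ~ ν`): `≥ n Λ - C_δ - ε(δ) (2 n R + 2 log 4)`.  Choose `δ`
with `2 R ε(δ) < Λ/2` (`small_arcs`), then `n` large. -/
theorem exists_drift {Γ : Subgroup SU11} (hΓ : Γ = Subgroup.closure (W.h '' {i | 0 < W.p i}))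
    (hunb : ∀ C : ℝ, ∃ g ∈ Γ, C ≤ Lg g)
    (ν : Measure Circle) [IsProbabilityMeasure ν] (hν : ν ≪ lam) (hst : W.Stat ν) :
    ∃ n : ℕ, 0 < n ∧ ∀ g, Lg g + 1 ≤ ∑ i, (W.pow n).p i * Lg (g * (W.pow n).h i) := by
  have hΛ : 0 < W.Lam ν := W.Lam_pos hΓ hunb ν hν hst
  set Λ := W.Lam ν with hΛdef
  have hl4 : 0 < Real.log 4 := Real.log_pos (by norm_num)
  -- the bound R
  obtain ⟨R, hR1, hR⟩ : ∃ R : ℝ, 1 ≤ R ∧ ∀ i, Lg (W.h i) + Real.log 4 ≤ R := by
    refine ⟨1 + ∑ i, (Lg (W.h i) + Real.log 4), ?_, fun i => ?_⟩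
    · have : 0 ≤ ∑ i, (Lg (W.h i) + Real.log 4) :=
        Finset.sum_nonneg fun i _ => add_nonneg (Lg_nonneg _) hl4.le
      linarith
    · have : Lg (W.h i) + Real.log 4 ≤ ∑ i, (Lg (W.h i) + Real.log 4) :=
        Finset.single_le_sum (f := fun i => Lg (W.h i) + Real.log 4)
          (fun i _ => add_nonneg (Lg_nonneg _) hl4.le) (Finset.mem_univ i)
      linarith
  have hε : 0 < Λ / (4 * R) := by positivity
  obtain ⟨δ, hδ, hδ1, hsm⟩ := small_arcs ν hν hε
  set ε := Λ / (4 * R) with hεdef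
  have hRε : 2 * R * ε = Λ / 2 := by
    rw [hεdef]
    field_simp
    ring
  obtain ⟨n, hn⟩ := exists_nat_gt ((1 + Real.log 4 - 2 * Real.log δ + 2 * ε * Real.log 4) / (Λ / 2))
  have hn' : 1 + Real.log 4 - 2 * Real.log δ + 2 * ε * Real.log 4 < n * (Λ / 2) := by
    rwa [div_lt_iff₀ (by positivity)] at hn
  have hlδ : Real.log δ ≤ 0 := Real.log_nonpos hδ.le hδ1
  refine ⟨n, ?_, fun g => ?_⟩
  · rcases Nat.eq_zero_or_pos n with h0 | h0
    · exfalso
      rw [h0] at hn'
      have : 0 ≤ 2 * ε * Real.log 4 := by positivity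
      simp only [Nat.cast_zero, zero_mul] at hn'
      linarith
    · exact h0
  · set V := W.pow n with hV
    have hstV : V.Stat ν := hst.pow n
    set A : Set Circle := {η : Circle | ‖(η : ℂ) - ((g⁻¹ • (0 : 𝔻) : 𝔻) : ℂ)‖ < δ} with hA
    have hAm : MeasurableSet A := by
      have : IsOpen A := isOpen_lt (by fun_prop) continuous_const
      exact this.measurableSet
    -- integrated inequality for each i
    have hi : ∀ i, ∫ ξ, Real.log (Jac (V.h i) (V.h i • ξ)) ∂ν - Real.log 4 + 2 * Real.log δ -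
        (2 * (n * R) + 2 * Real.log 4) *
          ∫ ξ, Set.indicator A (fun _ => (1 : ℝ)) (V.h i • ξ) ∂ν ≤
        Lg (g * V.h i) - Lg g := by
      intro i
      have hI1 : Integrable (fun ξ => Real.log (Jac (V.h i) (V.h i • ξ))) ν :=
        DriftB_int (DriftB_cont _ _)
      have hI2 : Integrable (fun ξ => Set.indicator A (fun _ => (1 : ℝ)) (V.h i • ξ)) ν := by
        have : (fun ξ : Circle => Set.indicator A (fun _ => (1 : ℝ)) (V.h i • ξ)) =
            Set.indicator ((fun ξ : Circle => V.h i • ξ) ⁻¹' A) (fun _ => (1 : ℝ)) := by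
          ext ξ
          rfl
        rw [this]
        exact (integrable_const (1 : ℝ)).indicator
          ((continuous_smul_circle (V.h i)).measurable hAm)
      have hpt : ∀ ξ, Real.log (Jac (V.h i) (V.h i • ξ)) + (- Real.log 4 + 2 * Real.log δ) -
          (2 * (n * R) + 2 * Real.log 4) * Set.indicator A (fun _ => (1 : ℝ)) (V.h i • ξ) ≤
          Lg (g * V.h i) - Lg g := by
        intro ξ
        have h1 := DriftB_pt g (V.h i) ξ hδ hδ1
        have h2 : Lg (V.h i) ≤ n * R := W.Lg_pow_le R hR n i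
        have h3 : Set.indicator A (fun _ => (2 * Lg (V.h i) + 2 * Real.log 4)) (V.h i • ξ) ≤
            (2 * (n * R) + 2 * Real.log 4) * Set.indicator A (fun _ => (1 : ℝ)) (V.h i • ξ) := by
          by_cases hm : (V.h i • ξ) ∈ A
          · rw [Set.indicator_of_mem hm, Set.indicator_of_mem hm]
            linarith
          · rw [Set.indicator_of_notMem hm, Set.indicator_of_notMem hm]
            simp
        linarith
      have h4 := integral_mono (μ := ν)
        (f := fun ξ => Real.log (Jac (V.h i) (V.h i • ξ)) + (- Real.log 4 + 2 * Real.log δ) -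
          (2 * (n * R) + 2 * Real.log 4) * Set.indicator A (fun _ => (1 : ℝ)) (V.h i • ξ))
        (g := fun _ => Lg (g * V.h i) - Lg g)
        ((hI1.add (integrable_const _)).sub (hI2.const_mul _)) (integrable_const _) hpt
      have h5 : ∫ ξ, (Real.log (Jac (V.h i) (V.h i • ξ)) + (- Real.log 4 + 2 * Real.log δ) -
          (2 * (n * R) + 2 * Real.log 4) * Set.indicator A (fun _ => (1 : ℝ)) (V.h i • ξ)) ∂ν =
          ∫ ξ, Real.log (Jac (V.h i) (V.h i • ξ)) ∂ν + (- Real.log 4 + 2 * Real.log δ) -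
          (2 * (n * R) + 2 * Real.log 4) *
            ∫ ξ, Set.indicator A (fun _ => (1 : ℝ)) (V.h i • ξ) ∂ν := by
        have hI3 : Integrable (fun ξ => Real.log (Jac (V.h i) (V.h i • ξ)) +
            (- Real.log 4 + 2 * Real.log δ)) ν := hI1.add (integrable_const _)
        rw [integral_sub hI3 (hI2.const_mul _),
          integral_add hI1 (integrable_const _), integral_const_mul]
        simp
      rw [h5] at h4
      simp only [integral_const, probReal_univ, smul_eq_mul, one_mul] at h4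
      linarith
    -- sum with weights
    have hsum : ∑ i, V.p i * (∫ ξ, Real.log (Jac (V.h i) (V.h i • ξ)) ∂ν - Real.log 4 +
        2 * Real.log δ - (2 * (n * R) + 2 * Real.log 4) *
          ∫ ξ, Set.indicator A (fun _ => (1 : ℝ)) (V.h i • ξ) ∂ν) ≤
        ∑ i, V.p i * (Lg (g * V.h i) - Lg g) :=
      Finset.sum_le_sum fun i _ => mul_le_mul_of_nonneg_left (hi i) (V.nonneg i)
    have hL : ∑ i, V.p i * (∫ ξ, Real.log (Jac (V.h i) (V.h i • ξ)) ∂ν - Real.log 4 +
        2 * Real.log δ - (2 * (n * R) + 2 * Real.log 4) *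
          ∫ ξ, Set.indicator A (fun _ => (1 : ℝ)) (V.h i • ξ) ∂ν) =
        V.Lam ν + (- Real.log 4 + 2 * Real.log δ) - (2 * (n * R) + 2 * Real.log 4) *
          ∑ i, V.p i * ∫ ξ, Set.indicator A (fun _ => (1 : ℝ)) (V.h i • ξ) ∂ν := by
      have e1 : ∀ i, V.p i * (∫ ξ, Real.log (Jac (V.h i) (V.h i • ξ)) ∂ν - Real.log 4 +
        2 * Real.log δ - (2 * (n * R) + 2 * Real.log 4) *
          ∫ ξ, Set.indicator A (fun _ => (1 : ℝ)) (V.h i • ξ) ∂ν) =
          V.p i * ∫ ξ, Real.log (Jac (V.h i) (V.h i • ξ)) ∂ν +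
            V.p i * (- Real.log 4 + 2 * Real.log δ) - (2 * (n * R) + 2 * Real.log 4) *
            (V.p i * ∫ ξ, Set.indicator A (fun _ => (1 : ℝ)) (V.h i • ξ) ∂ν) := by
        intro i
        ring
      simp only [e1]
      rw [Finset.sum_sub_distrib, Finset.sum_add_distrib, ← Finset.sum_mul, V.sum, one_mul,
        ← Finset.mul_sum]
      rfl
    have hR' : ∑ i, V.p i * (Lg (g * V.h i) - Lg g) = ∑ i, V.p i * Lg (g * V.h i) - Lg g := by
      simp only [mul_sub]
      rw [Finset.sum_sub_distrib, ← Finset.sum_mul, V.sum, one_mul]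
    have hind : ∑ i, V.p i * ∫ ξ, Set.indicator A (fun _ => (1 : ℝ)) (V.h i • ξ) ∂ν =
        ν.real A := by
      rw [← DriftB_stat_real hstV (Set.indicator A (fun _ => (1 : ℝ)))
        ((integrable_const (1 : ℝ)).indicator hAm), integral_indicator hAm]
      simp
    have hAε : ν.real A ≤ ε := hsm _
    rw [hL, hR', hind, hV, W.Lam_pow ν hst n] at hsum
    have h6 : (2 * (n * R) + 2 * Real.log 4) * ν.real A ≤
        (2 * (n * R) + 2 * Real.log 4) * ε :=
      mul_le_mul_of_nonneg_left hAε (by positivity)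
    have h7 : (2 * (n * R) + 2 * Real.log 4) * ε = n * (Λ / 2) + 2 * ε * Real.log 4 := by
      rw [← hRε]
      ring
    rw [← hΛdef] at hsum
    linarith

end Walk

end

end Pool.Agent.Lib.MP_b16327_pr
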