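import Pool.Agent.Lib.MP_b16327_pr.Walk

/-! # The stopped walk -/

namespace Pool.Agent.Lib.MP_b16327_pr

open Complex MeasureTheory ComplexConjugate Filter
open scoped Complex.UnitDisc Topology BoundedContinuousFunction

noncomputable section

namespace Walk

variable (W : Walk)

/-- one step of the stopped walk -/
private def Stop_step (τ : ℝ) (V : Walk) : Walk where
  ι := V.ι × W.ι
  fin := inferInstance
  h := fun q => if Lg (V.h q.1) < τ then V.h q.1 * W.h q.2 else V.h q.1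
  p := fun q => V.p q.1 * W.p q.2
  nonneg := fun q => mul_nonneg (V.nonneg _) (W.nonneg _)
  sum := by
    rw [Fintype.sum_prod_type]
    simp only [← Finset.mul_sum, W.sum, mul_one, V.sum]

/-- the law of the stopped walk at time `n` -/
private def Stop_law (τ : ℝ) : ℕ → Walk
  | 0 => triv
  | n + 1 => Stop_step W τ (Stop_law τ n)

private theorem Stop_step_sum {E : Type*} [AddCommGroup E] [Module ℝ E] (τ : ℝ) (V : Walk)
    (F : SU11 → E) :
    ∑ q, (Stop_step W τ V).p q • F ((Stop_step W τ V).h q) =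
      ∑ j, V.p j • (if Lg (V.h j) < τ then W.P F (V.h j) else F (V.h j)) := by
  have h1 : ∑ q, (Stop_step W τ V).p q • F ((Stop_step W τ V).h q) =
      ∑ j : V.ι, ∑ i : W.ι, (V.p j * W.p i) •
        F (if Lg (V.h j) < τ then V.h j * W.h i else V.h j) := by
    rw [← Fintype.sum_prod_type']
    rfl
  rw [h1]
  refine Finset.sum_congr rfl fun j _ => ?_
  split_ifs with h
  · unfold P
    rw [Finset.smul_sum]
    refine Finset.sum_congr rfl fun i _ => ?_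
    rw [mul_smul]
  · rw [← Finset.sum_smul, ← Finset.mul_sum, W.sum, mul_one]

/-- monotonicity of the expectation in one step -/
private theorem Stop_mono (V : Walk) (f g : V.ι → ℝ) (h : ∀ j, f j ≤ g j) :
    ∑ j, V.p j • f j ≤ ∑ j, V.p j • g j :=
  Finset.sum_le_sum fun j _ => mul_le_mul_of_nonneg_left (h j) (V.nonneg j)

/-- the probability that the walk has not been stopped at time `n` -/
private def Stop_s (τ : ℝ) (n : ℕ) : ℝ :=
  ∑ j, (Stop_law W τ n).p j • (if Lg ((Stop_law W τ n).h j) < τ then (1 : ℝ) else 0)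

/-- the expected time -/
private def Stop_N (τ : ℝ) (n : ℕ) : ℝ := ∑ k ∈ Finset.range n, Stop_s W τ k

private theorem Stop_s_nonneg (τ : ℝ) (n : ℕ) : 0 ≤ Stop_s W τ n := by
  refine Finset.sum_nonneg fun j _ => mul_nonneg ((Stop_law W τ n).nonneg j) ?_
  split_ifs <;> norm_num

private theorem Stop_s_zero {τ : ℝ} (hτ : 1 ≤ τ) : Stop_s W τ 0 = 1 := by
  unfold Stop_s
  have h1 : ∀ j : (Stop_law W τ 0).ι, Lg ((Stop_law W τ 0).h j) = 0 := fun j => Lg_one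
  have h2 : ∀ j : (Stop_law W τ 0).ι,
      (if Lg ((Stop_law W τ 0).h j) < τ then (1 : ℝ) else 0) = 1 := by
    intro j
    rw [h1 j, if_pos (by linarith)]
  simp only [h2, smul_eq_mul, mul_one]
  exact (Stop_law W τ 0).sum

/-- the probability of not being stopped is non-increasing -/
private theorem Stop_s_anti (τ : ℝ) (n : ℕ) : Stop_s W τ (n + 1) ≤ Stop_s W τ n := by
  have h1 := Stop_step_sum W τ (Stop_law W τ n) (fun g => if Lg g < τ then (1 : ℝ) else 0)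
  have h2 : Stop_s W τ (n + 1) = ∑ j, (Stop_law W τ n).p j •
      (if Lg ((Stop_law W τ n).h j) < τ then
        W.P (fun g => if Lg g < τ then (1 : ℝ) else 0) ((Stop_law W τ n).h j)
      else (if Lg ((Stop_law W τ n).h j) < τ then (1 : ℝ) else 0)) := h1
  rw [h2]
  unfold Stop_s
  apply Stop_mono
  intro j
  split_ifs with h
  · have h3 : W.P (fun g => if Lg g < τ then (1 : ℝ) else 0) ((Stop_law W τ n).h j) ≤
        ∑ i, W.p i • (1 : ℝ) := by
      unfold P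
      apply Stop_mono
      intro i
      dsimp only
      split_ifs <;> norm_num
    simp only [smul_eq_mul, mul_one, W.sum] at h3
    exact h3
  · exact le_rfl

private theorem Stop_s_le {τ : ℝ} {k n : ℕ} (h : k ≤ n) : Stop_s W τ n ≤ Stop_s W τ k :=
  antitone_nat_of_succ_le (Stop_s_anti W τ) h

private theorem Stop_mul_s (τ : ℝ) (n : ℕ) : n * Stop_s W τ n ≤ Stop_N W τ n := by
  unfold Stop_N
  calc (n : ℝ) * Stop_s W τ n = ∑ _k ∈ Finset.range n, Stop_s W τ n := by simp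
    _ ≤ _ := Finset.sum_le_sum fun k hk => Stop_s_le W (Finset.mem_range.1 hk).le

private theorem Stop_mem {Γ : Subgroup SU11} (hΓ : ∀ i, W.h i ∈ Γ) (τ : ℝ) (n : ℕ) :
    ∀ j, (Stop_law W τ n).h j ∈ Γ := by
  induction n with
  | zero => intro j; exact Γ.one_mem
  | succ n ih =>
    intro j
    show (if Lg ((Stop_law W τ n).h j.1) < τ then (Stop_law W τ n).h j.1 * W.h j.2
      else (Stop_law W τ n).h j.1) ∈ Γ
    split_ifs
    · exact Γ.mul_mem (ih _) (hΓ _)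
    · exact ih _

private theorem Stop_bound {R : ℝ} (hR : ∀ i, Lg (W.h i) + Real.log 4 ≤ R) (hR0 : 0 ≤ R)
    {τ : ℝ} (hτ : 0 ≤ τ) (n : ℕ) : ∀ j, Lg ((Stop_law W τ n).h j) ≤ τ + R := by
  induction n with
  | zero =>
    intro j
    have : Lg ((Stop_law W τ 0).h j) = 0 := Lg_one
    linarith
  | succ n ih =>
    intro j
    show Lg (if Lg ((Stop_law W τ n).h j.1) < τ then (Stop_law W τ n).h j.1 * W.h j.2
      else (Stop_law W τ n).h j.1) ≤ τ + R
    split_ifs with h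
    · have h1 := Lg_mul_le ((Stop_law W τ n).h j.1) (W.h j.2)
      have h2 := hR j.2
      linarith
    · exact ih _

/-- Dynkin formula -/
private theorem Stop_dynkin {Γ : Subgroup SU11} (hΓ : ∀ i, W.h i ∈ Γ) (τ : ℝ) (F : SU11 → ℂ)
    (B : ℂ) (hF : ∀ x ∈ Γ, W.P F x = F x + B) (n : ℕ) :
    ∑ j, (Stop_law W τ n).p j • F ((Stop_law W τ n).h j) = F 1 + B * (Stop_N W τ n : ℝ) := by
  induction n with
  | zero =>
    have h1 : ∑ j, (Stop_law W τ 0).p j • F ((Stop_law W τ 0).h j) =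
        ∑ _j : Unit, (1 : ℝ) • F 1 := rfl
    rw [h1]
    simp [Stop_N]
  | succ n ih =>
    have h1 : ∑ j, (Stop_law W τ (n + 1)).p j • F ((Stop_law W τ (n + 1)).h j) =
      ∑ j, (Stop_law W τ n).p j • (if Lg ((Stop_law W τ n).h j) < τ then
        W.P F ((Stop_law W τ n).h j) else F ((Stop_law W τ n).h j)) :=
      Stop_step_sum W τ (Stop_law W τ n) F
    rw [h1]
    have h2 : ∀ j, (Stop_law W τ n).p j • (if Lg ((Stop_law W τ n).h j) < τ then
        W.P F ((Stop_law W τ n).h j) else F ((Stop_law W τ n).h j)) =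
        (Stop_law W τ n).p j • F ((Stop_law W τ n).h j) +
          B * (((Stop_law W τ n).p j • (if Lg ((Stop_law W τ n).h j) < τ then (1 : ℝ) else 0) :
            ℝ) : ℂ) := by
      intro j
      split_ifs with h
      · rw [hF _ (Stop_mem W hΓ τ n j), smul_add]
        simp only [smul_eq_mul, mul_one, Complex.real_smul]
        ring
      · simp
    rw [Finset.sum_congr rfl fun j _ => h2 j, Finset.sum_add_distrib, ih, ← Finset.mul_sum,
      ← Complex.ofReal_sum]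
    have h3 : Stop_N W τ (n + 1) = Stop_N W τ n + Stop_s W τ n := Finset.sum_range_succ _ _
    rw [h3]
    unfold Stop_s
    push_cast
    ring

/-- supermartingale inequality -/
private theorem Stop_super {Γ : Subgroup SU11} (hΓ : ∀ i, W.h i ∈ Γ) (τ : ℝ) (F : SU11 → ℝ)
    (hF : ∀ x ∈ Γ, Lg x < τ → W.P F x ≤ F x) (n : ℕ) :
    ∑ j, (Stop_law W τ n).p j • F ((Stop_law W τ n).h j) ≤ F 1 := by
  induction n with
  | zero =>
    have h1 : ∑ j, (Stop_law W τ 0).p j • F ((Stop_law W τ 0).h j) =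
        ∑ _j : Unit, (1 : ℝ) • F 1 := rfl
    rw [h1]
    simp
  | succ n ih =>
    have h1 : ∑ j, (Stop_law W τ (n + 1)).p j • F ((Stop_law W τ (n + 1)).h j) =
      ∑ j, (Stop_law W τ n).p j • (if Lg ((Stop_law W τ n).h j) < τ then
        W.P F ((Stop_law W τ n).h j) else F ((Stop_law W τ n).h j)) :=
      Stop_step_sum W τ (Stop_law W τ n) F
    rw [h1]
    refine le_trans (Stop_mono _ _ _ fun j => ?_) ih
    split_ifs with h
    · exact hF _ (Stop_mem W hΓ τ n j) h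
    · exact le_rfl

private theorem Stop_N_le {R : ℝ} (hR : ∀ i, Lg (W.h i) + Real.log 4 ≤ R) (hR0 : 0 ≤ R)
    (hdrift : ∀ g, Lg g + 1 ≤ ∑ i, W.p i * Lg (g * W.h i)) {τ : ℝ} (hτ : 0 ≤ τ) (n : ℕ) :
    Stop_N W τ n ≤ τ + R := by
  have h0 : ∀ n, Stop_N W τ n ≤ ∑ j, (Stop_law W τ n).p j • Lg ((Stop_law W τ n).h j) := by
    intro n
    induction n with
    | zero =>
      have h1 : ∑ j, (Stop_law W τ 0).p j • Lg ((Stop_law W τ 0).h j) =
        ∑ _j : Unit, (1 : ℝ) • Lg 1 := rfl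
      rw [h1, Lg_one]
      simp [Stop_N]
    | succ n ih =>
      have h1 : ∑ j, (Stop_law W τ (n + 1)).p j • Lg ((Stop_law W τ (n + 1)).h j) =
        ∑ j, (Stop_law W τ n).p j • (if Lg ((Stop_law W τ n).h j) < τ then
          W.P Lg ((Stop_law W τ n).h j) else Lg ((Stop_law W τ n).h j)) :=
        Stop_step_sum W τ (Stop_law W τ n) Lg
      rw [h1]
      have h3 : Stop_N W τ (n + 1) = Stop_N W τ n + Stop_s W τ n := Finset.sum_range_succ _ _
      rw [h3]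
      refine le_trans (add_le_add_left ih _) ?_
      unfold Stop_s
      rw [← Finset.sum_add_distrib]
      refine Finset.sum_le_sum fun j _ => ?_
      rw [← smul_add]
      refine mul_le_mul_of_nonneg_left ?_ ((Stop_law W τ n).nonneg j)
      split_ifs with h
      · exact hdrift _
      · simp
  refine (h0 n).trans ?_
  calc ∑ j, (Stop_law W τ n).p j • Lg ((Stop_law W τ n).h j)
      ≤ ∑ j, (Stop_law W τ n).p j • (τ + R) := Stop_mono _ _ _ (Stop_bound W hR hR0 hτ n)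
    _ = τ + R := by rw [← Finset.sum_smul, (Stop_law W τ n).sum, one_smul]

private theorem Stop_le_N {R : ℝ} (hR : ∀ i, Lg (W.h i) + Real.log 4 ≤ R) {τ : ℝ}
    (n : ℕ) : τ * (1 - Stop_s W τ n) ≤ R * Stop_N W τ n := by
  have h0 : ∀ n, ∑ j, (Stop_law W τ n).p j • Lg ((Stop_law W τ n).h j) ≤ R * Stop_N W τ n := by
    intro n
    induction n with
    | zero =>
      have h1 : ∑ j, (Stop_law W τ 0).p j • Lg ((Stop_law W τ 0).h j) =
        ∑ _j : Unit, (1 : ℝ) • Lg 1 := rfl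
      rw [h1, Lg_one]
      simp [Stop_N]
    | succ n ih =>
      have h1 : ∑ j, (Stop_law W τ (n + 1)).p j • Lg ((Stop_law W τ (n + 1)).h j) =
        ∑ j, (Stop_law W τ n).p j • (if Lg ((Stop_law W τ n).h j) < τ then
          W.P Lg ((Stop_law W τ n).h j) else Lg ((Stop_law W τ n).h j)) :=
        Stop_step_sum W τ (Stop_law W τ n) Lg
      rw [h1]
      have h3 : Stop_N W τ (n + 1) = Stop_N W τ n + Stop_s W τ n := Finset.sum_range_succ _ _
      rw [h3, mul_add]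
      refine le_trans ?_ (add_le_add_left ih _)
      unfold Stop_s
      rw [Finset.mul_sum, ← Finset.sum_add_distrib]
      refine Finset.sum_le_sum fun j _ => ?_
      have h4 : R * ((Stop_law W τ n).p j • (if Lg ((Stop_law W τ n).h j) < τ then (1 : ℝ) else 0))
          = (Stop_law W τ n).p j • (R * (if Lg ((Stop_law W τ n).h j) < τ then (1 : ℝ) else 0)) := by
        simp only [smul_eq_mul]
        ring
      rw [h4, ← smul_add]
      refine mul_le_mul_of_nonneg_left ?_ ((Stop_law W τ n).nonneg j)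
      split_ifs with h
      · have h5 : W.P Lg ((Stop_law W τ n).h j) ≤
            ∑ i, W.p i • (Lg ((Stop_law W τ n).h j) + R) := by
          unfold P
          apply Stop_mono
          intro i
          have h6 := Lg_mul_le ((Stop_law W τ n).h j) (W.h i)
          have h7 := hR i
          linarith
        rw [← Finset.sum_smul, W.sum, one_smul] at h5
        linarith
      · simp
  refine le_trans ?_ (h0 n)
  have h1 : τ * (1 - Stop_s W τ n) = ∑ j, (Stop_law W τ n).p j •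
      (τ * (1 - (if Lg ((Stop_law W τ n).h j) < τ then (1 : ℝ) else 0))) := by
    unfold Stop_s
    simp only [smul_eq_mul]
    have h2 : ∀ j, (Stop_law W τ n).p j *
      (τ * (1 - (if Lg ((Stop_law W τ n).h j) < τ then (1 : ℝ) else 0))) =
      τ * ((Stop_law W τ n).p j - (Stop_law W τ n).p j *
        (if Lg ((Stop_law W τ n).h j) < τ then (1 : ℝ) else 0)) := fun j => by ring
    rw [Finset.sum_congr rfl fun j _ => h2 j, ← Finset.mul_sum, Finset.sum_sub_distrib,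
      (Stop_law W τ n).sum]
  rw [h1]
  apply Stop_mono
  intro j
  split_ifs with h
  · have := Lg_nonneg ((Stop_law W τ n).h j)
    simpa using this
  · push Not at h
    simpa using h

/-- pointwise inequality for the fourth moment -/
private theorem Stop_fourth_pt (X D : ℂ) {K : ℝ} (hD : ‖D‖ ≤ K) :
    ‖X + D‖ ^ 4 ≤ ‖X‖ ^ 4 + 4 * ‖X‖ ^ 2 * (X * conj D).re + 8 * K ^ 2 * ‖X‖ ^ 2 + 3 * K ^ 4 := by
  set x := ‖X‖ with hx
  set d := ‖D‖ with hd
  set s := (X * conj D).re with hs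
  have hx0 : 0 ≤ x := norm_nonneg _
  have hd0 : 0 ≤ d := norm_nonneg _
  have hsq : ‖X + D‖ ^ 2 = x ^ 2 + d ^ 2 + 2 * s := by
    rw [← Complex.normSq_eq_norm_sq, Complex.normSq_add, Complex.normSq_eq_norm_sq,
      Complex.normSq_eq_norm_sq]
  have hsle : |s| ≤ x * d := by
    have := Complex.abs_re_le_norm (X * conj D)
    rwa [norm_mul, Complex.norm_conj] at this
  have hs1 := abs_le.1 hsle
  have hK0 : 0 ≤ K := hd0.trans hD
  have h4 : ‖X + D‖ ^ 4 = (x ^ 2 + d ^ 2 + 2 * s) ^ 2 := by rw [← hsq]; ring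
  rw [h4]
  have e1 : d ^ 2 ≤ K ^ 2 := by nlinarith
  have e2 : x ^ 2 * d ^ 2 ≤ x ^ 2 * K ^ 2 := mul_le_mul_of_nonneg_left e1 (sq_nonneg x)
  have e3 : s ^ 2 ≤ x ^ 2 * d ^ 2 := by
    rw [← sq_abs s]
    calc |s| ^ 2 ≤ (x * d) ^ 2 := by gcongr
      _ = x ^ 2 * d ^ 2 := by ring
  have e4 : s * d ^ 2 ≤ x * d * d ^ 2 := mul_le_mul_of_nonneg_right hs1.2 (sq_nonneg d)
  have e5 : 2 * (x * d * d ^ 2) ≤ x ^ 2 * d ^ 2 + d ^ 4 := by nlinarith [sq_nonneg (x * d - d ^ 2)]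
  have e6 : d ^ 4 ≤ K ^ 4 := by
    have : (d ^ 2) ^ 2 ≤ (K ^ 2) ^ 2 := by
      apply pow_le_pow_left₀ (sq_nonneg d) e1
    nlinarith
  nlinarith

/-- fourth moments: the supermartingale -/
private theorem Stop_fourth {R : ℝ} (hR : ∀ i, Lg (W.h i) + Real.log 4 ≤ R) (hR0 : 0 ≤ R)
    (hdrift : ∀ g, Lg g + 1 ≤ ∑ i, W.p i * Lg (g * W.h i)) {τ : ℝ}
    (X : SU11 → ℂ) {K : ℝ} (hK0 : 0 ≤ K) {x : SU11} (hX : W.P X x = X x)
    (hK : ∀ i, ‖X (x * W.h i) - X x‖ ≤ K) (hx : Lg x < τ) :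
    W.P (fun g => ‖X g‖ ^ 4 + (8 * K ^ 2 + 1) * (‖X g‖ ^ 2 * (τ + R - Lg g)) +
      (8 * K ^ 2 + 1) * K ^ 2 / 2 * (τ + R - Lg g) ^ 2 +
      (3 * K ^ 4 + ((8 * K ^ 2 + 1) * R * K) ^ 2 + (8 * K ^ 2 + 1) * R * K ^ 2 +
        (8 * K ^ 2 + 1) * K ^ 2 / 2 * R ^ 2) * (τ + R - Lg g)) x ≤
    ‖X x‖ ^ 4 + (8 * K ^ 2 + 1) * (‖X x‖ ^ 2 * (τ + R - Lg x)) +
      (8 * K ^ 2 + 1) * K ^ 2 / 2 * (τ + R - Lg x) ^ 2 +
      (3 * K ^ 4 + ((8 * K ^ 2 + 1) * R * K) ^ 2 + (8 * K ^ 2 + 1) * R * K ^ 2 +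
        (8 * K ^ 2 + 1) * K ^ 2 / 2 * R ^ 2) * (τ + R - Lg x) := by
  set l1 := 8 * K ^ 2 + 1 with hl1
  set l2 := l1 * K ^ 2 / 2 with hl2
  set l3 := 3 * K ^ 4 + (l1 * R * K) ^ 2 + l1 * R * K ^ 2 + l2 * R ^ 2 with hl3
  set ρ := τ + R - Lg x with hρ
  have hρR : R ≤ ρ := by rw [hρ]; linarith
  have hl10 : 0 ≤ l1 := by positivity
  have hl20 : 0 ≤ l2 := by positivity
  have hl30 : 0 ≤ l3 := by positivity
  set a := ‖X x‖ with ha
  have ha0 : 0 ≤ a := norm_nonneg _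
  -- the increments
  set D : W.ι → ℂ := fun i => X (x * W.h i) - X x with hD
  set l : W.ι → ℝ := fun i => Lg (x * W.h i) - Lg x with hl
  set s : W.ι → ℝ := fun i => (X x * conj (D i)).re with hs
  have hlR : ∀ i, |l i| ≤ R := by
    intro i
    have h1 := Lg_mul_le x (W.h i)
    have h2 := Lg_le_mul x (W.h i)
    have h3 := hR i
    rw [abs_le]
    constructor <;> simp only [hl] <;> linarith
  have hsum0 : ∑ i, (W.p i : ℂ) * D i = 0 := by
    have h1 : ∑ i, (W.p i : ℂ) * D i = W.P X x - (∑ i, (W.p i : ℂ)) * X x := by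
      unfold P
      rw [Finset.sum_mul, ← Finset.sum_sub_distrib]
      refine Finset.sum_congr rfl fun i _ => ?_
      rw [Complex.real_smul, hD]
      ring
    rw [h1, hX, ← Complex.ofReal_sum, W.sum]
    simp
  have hs0 : ∑ i, W.p i * s i = 0 := by
    have h1 : ∑ i, W.p i * s i = (X x * conj (∑ i, (W.p i : ℂ) * D i)).re := by
      rw [map_sum, Finset.mul_sum, Complex.re_sum]
      refine Finset.sum_congr rfl fun i _ => ?_
      rw [map_mul, Complex.conj_ofReal]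
      have : X x * ((W.p i : ℂ) * conj (D i)) = (W.p i : ℂ) * (X x * conj (D i)) := by ring
      rw [this, Complex.re_ofReal_mul]
    rw [h1, hsum0]
    simp
  have hl1s : 1 ≤ ∑ i, W.p i * l i := by
    have h1 : ∑ i, W.p i * l i = (∑ i, W.p i * Lg (x * W.h i)) - (∑ i, W.p i) * Lg x := by
      rw [Finset.sum_mul, ← Finset.sum_sub_distrib]
      refine Finset.sum_congr rfl fun i _ => ?_
      simp only [hl]
      ring
    rw [h1, W.sum]
    have := hdrift x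
    linarith
  have hsK : ∀ i, |s i| ≤ a * K := by
    intro i
    have h1 := Complex.abs_re_le_norm (X x * conj (D i))
    rw [norm_mul, Complex.norm_conj] at h1
    exact h1.trans (mul_le_mul_of_nonneg_left (hK i) ha0)
  -- pointwise bound
  have hpt : ∀ i, ‖X (x * W.h i)‖ ^ 4 +
      l1 * (‖X (x * W.h i)‖ ^ 2 * (τ + R - Lg (x * W.h i))) +
      l2 * (τ + R - Lg (x * W.h i)) ^ 2 + l3 * (τ + R - Lg (x * W.h i)) ≤
      (a ^ 4 + l1 * (a ^ 2 * ρ) + l2 * ρ ^ 2 + l3 * ρ + a ^ 2 + l1 * K ^ 2 * ρ + l3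
          + 8 * K ^ 2 * a ^ 2)
        + (4 * a ^ 2 + 2 * l1 * ρ) * s i
        - (l1 * a ^ 2 + 2 * l2 * ρ + l3) * l i := by
    intro i
    have hX4 := Stop_fourth_pt (X x) (D i) (hK i)
    have hXD : X x + D i = X (x * W.h i) := by simp only [hD]; ring
    rw [hXD] at hX4
    have hX2 : ‖X (x * W.h i)‖ ^ 2 = a ^ 2 + ‖D i‖ ^ 2 + 2 * s i := by
      rw [← hXD, ← Complex.normSq_eq_norm_sq, Complex.normSq_add, Complex.normSq_eq_norm_sq,
        Complex.normSq_eq_norm_sq]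
    have hLe : τ + R - Lg (x * W.h i) = ρ - l i := by simp only [hl, hρ]; ring
    rw [hLe]
    have hli := abs_le.1 (hlR i)
    have hρl : 0 ≤ ρ - l i := by linarith
    have hD0 : 0 ≤ ‖D i‖ := norm_nonneg _
    have hD2 : ‖D i‖ ^ 2 ≤ K ^ 2 := by
      have := hK i
      have h' : ‖D i‖ ≤ K := this
      gcongr
    have hb : ‖X (x * W.h i)‖ ^ 2 * (ρ - l i) ≤
        a ^ 2 * ρ - a ^ 2 * l i + 2 * s i * ρ + 2 * (a * K) * R + K ^ 2 * (ρ + R) := by
      rw [hX2]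
      have h1 : -(s i * l i) ≤ a * K * R := by
        have h2 : |s i * l i| ≤ a * K * R := by
          rw [abs_mul]
          exact mul_le_mul (hsK i) (hlR i) (abs_nonneg _) (by positivity)
        exact (neg_le_abs _).trans h2
      have h3 : ‖D i‖ ^ 2 * (ρ - l i) ≤ K ^ 2 * (ρ + R) := by
        apply mul_le_mul hD2 (by linarith) hρl (sq_nonneg K)
      nlinarith
    have hb' := mul_le_mul_of_nonneg_left hb hl10
    have hl2' : l i ^ 2 ≤ R ^ 2 := by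
      rw [← sq_abs (l i)]
      have := hlR i
      gcongr
    have hc : l2 * (ρ - l i) ^ 2 ≤ l2 * (ρ ^ 2 - 2 * ρ * l i + R ^ 2) := by
      apply mul_le_mul_of_nonneg_left _ hl20
      nlinarith
    have hxy : 2 * (l1 * R * K) * a ≤ a ^ 2 + (l1 * R * K) ^ 2 := by
      nlinarith [sq_nonneg (a - l1 * R * K)]
    have hl3e : l3 = 3 * K ^ 4 + (l1 * R * K) ^ 2 + l1 * R * K ^ 2 + l2 * R ^ 2 := hl3
    have hX4' : ‖X (x * W.h i)‖ ^ 4 ≤ a ^ 4 + 4 * a ^ 2 * s i + 8 * K ^ 2 * a ^ 2 + 3 * K ^ 4 := hX4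
    nlinarith [hX4', hb', hc, hxy, hl3e]
  -- sum up
  have hP : W.P (fun g => ‖X g‖ ^ 4 + l1 * (‖X g‖ ^ 2 * (τ + R - Lg g)) +
      l2 * (τ + R - Lg g) ^ 2 + l3 * (τ + R - Lg g)) x ≤
      ∑ i, W.p i • ((a ^ 4 + l1 * (a ^ 2 * ρ) + l2 * ρ ^ 2 + l3 * ρ + a ^ 2 + l1 * K ^ 2 * ρ + l3
          + 8 * K ^ 2 * a ^ 2)
        + (4 * a ^ 2 + 2 * l1 * ρ) * s i
        - (l1 * a ^ 2 + 2 * l2 * ρ + l3) * l i) := by
    unfold P
    exact Stop_mono _ _ _ hpt
  refine hP.trans ?_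
  set c0 := (a ^ 4 + l1 * (a ^ 2 * ρ) + l2 * ρ ^ 2 + l3 * ρ + a ^ 2 + l1 * K ^ 2 * ρ + l3
          + 8 * K ^ 2 * a ^ 2) with hc0
  set c1 := (4 * a ^ 2 + 2 * l1 * ρ) with hc1
  set c2 := (l1 * a ^ 2 + 2 * l2 * ρ + l3) with hc2
  have hsplit : ∑ i, W.p i • (c0 + c1 * s i - c2 * l i) =
      c0 + c1 * (∑ i, W.p i * s i) - c2 * (∑ i, W.p i * l i) := by
    have h1 : ∀ i, W.p i • (c0 + c1 * s i - c2 * l i) =
        W.p i * c0 + c1 * (W.p i * s i) - c2 * (W.p i * l i) := by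
      intro i
      rw [smul_eq_mul]
      ring
    rw [Finset.sum_congr rfl fun i _ => h1 i, Finset.sum_sub_distrib, Finset.sum_add_distrib,
      ← Finset.sum_mul, W.sum, ← Finset.mul_sum, ← Finset.mul_sum, one_mul]
  rw [hsplit, hs0]
  have hc20 : 0 ≤ c2 := by
    have : 0 ≤ ρ := hR0.trans hρR
    positivity
  have h9 : c2 * 1 ≤ c2 * ∑ i, W.p i * l i := mul_le_mul_of_nonneg_left hl1s hc20
  have h10 : 2 * l2 = l1 * K ^ 2 := by rw [hl2]; ring
  have h11 : l1 * a ^ 2 = 8 * K ^ 2 * a ^ 2 + a ^ 2 := by rw [hl1]; ring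
  have h12 : 2 * l2 * ρ = l1 * K ^ 2 * ρ := by rw [h10]
  rw [hc2] at h9 ⊢
  rw [hc0]
  nlinarith [h9, h11, h12]

/-- THE STOPPED WALK.  Let `P L ≥ L + 1` everywhere.  For every `τ ≥ 1` there is a finitely
supported law (the walk from `1`, stopped when `L ≥ τ` or at time `⌈τ^3⌉`) with the listed
properties; all constants are independent of `τ`.

Construction: stopped operator `Pτ F(g) = F(g)` if `L(g) ≥ τ`, `= P F (g)` otherwise,
`E F = (Pτ)^n F (1)`, `n = ⌈τ^3⌉₊ + 1`; `E F` is a finite sum `∑ q_j F(g_j)`.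
* Dynkin: `E F = F(1) + ∑_{k<n} ((Pτ)^k (1_{L<τ} (P F - F)))(1)`, `N := ∑_{k<n} (Pτ)^k(1_{L<τ})(1)`.
* on the support `L ≤ τ + R` where `R` bounds `L(h_i) + log 4` (`Lg_mul_le`), and
  `|L(g h_i) - L(g)| ≤ R`.
* `F = L`: `N ≤ τ + R`.
* `k ↦ (Pτ)^k(1_{L<τ})(1)` is non-increasing so `E 1_{L<τ} ≤ N/n ≤ (τ+R)/n`.
* `τ (1 - E 1_{L<τ}) ≤ E L ≤ R N` gives the lower bound for `N` (for `τ` large; for `τ` bounded
  `N ≥ 1`, since `L(1) = 0 < τ`).
* fourth moments: `F = |X|^4 + λ₁ |X|^2 ρ + λ₂ ρ^2 + λ₃ ρ`, `ρ = τ + R - L ≥ 0` satisfies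
  `P F ≤ F` where `L < τ`, with `λ₁ = 10K^2 + 1`, `λ₂ = λ₁ K^2/2`,
  `λ₃ = 2K^4 + (λ₁RK)^2 + λ₁RK^2 + λ₂R^2`. -/
theorem stopped (R : ℝ) (hR : ∀ i, Lg (W.h i) + Real.log 4 ≤ R)
    (hdrift : ∀ g, Lg g + 1 ≤ ∑ i, W.p i * Lg (g * W.h i))
    (Γ : Subgroup SU11) (hΓ : ∀ i, W.h i ∈ Γ) :
    ∃ (C : ℝ) (C4 : ℝ → ℝ → ℝ), 1 ≤ C ∧ ∀ τ : ℝ, 1 ≤ τ →
      ∃ (J : Type) (_ : Fintype J) (q : J → ℝ) (g : J → SU11) (N : ℝ),
        (∀ j, 0 ≤ q j) ∧ (∑ j, q j = 1) ∧ (∀ j, g j ∈ Γ) ∧ (∀ j, Lg (g j) ≤ τ + C) ∧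
        τ / C ≤ N ∧ N ≤ C * τ ∧
        (∑ j, (if Lg (g j) < τ then q j else 0) ≤ C / τ ^ 2) ∧
        (∀ (F : SU11 → ℂ) (B : ℂ), (∀ x ∈ Γ, W.P F x = F x + B) →
          ∑ j, (q j : ℂ) * F (g j) = F 1 + B * N) ∧
        (∀ (X : SU11 → ℂ) (K : ℝ), (∀ x ∈ Γ, W.P X x = X x) →
          (∀ x ∈ Γ, ∀ i, ‖X (x * W.h i) - X x‖ ≤ K) →
          ∑ j, q j * ‖X (g j)‖ ^ 4 ≤ C4 K ‖X 1‖ * τ ^ 2) := by
  have hne : Nonempty W.ι := by
    by_contra h
    rw [not_nonempty_iff] at h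
    have := W.sum
    rw [Finset.univ_eq_empty, Finset.sum_empty] at this
    exact one_ne_zero this.symm
  obtain ⟨i0⟩ := hne
  have hlog : 0 < Real.log 4 := Real.log_pos (by norm_num)
  have hRpos : 0 < R := by
    have h1 := hR i0
    have h2 := Lg_nonneg (W.h i0)
    linarith
  refine ⟨2 * (1 + R), fun K x => x ^ 4 + (8 * K ^ 2 + 1) * (x ^ 2 * (1 + R)) +
      (8 * K ^ 2 + 1) * K ^ 2 / 2 * (1 + R) ^ 2 +
      (3 * K ^ 4 + ((8 * K ^ 2 + 1) * R * K) ^ 2 + (8 * K ^ 2 + 1) * R * K ^ 2 +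
        (8 * K ^ 2 + 1) * K ^ 2 / 2 * R ^ 2) * (1 + R), by linarith, ?_⟩
  intro τ hτ
  have hτ0 : 0 < τ := by linarith
  set n := ⌈τ ^ 3⌉₊ with hn
  have hnτ : τ ^ 3 ≤ (n : ℝ) := Nat.le_ceil _
  have hτ3 : 1 ≤ τ ^ 3 := one_le_pow₀ hτ
  have hτ2 : 1 ≤ τ ^ 2 := one_le_pow₀ hτ
  have hn0 : 1 ≤ n := by
    have : (1 : ℝ) ≤ (n : ℝ) := hτ3.trans hnτ
    exact_mod_cast this
  have hNle : Stop_N W τ n ≤ τ + R := Stop_N_le W hR hRpos.le hdrift hτ0.le n
  have hsle : Stop_s W τ n ≤ (1 + R) / τ ^ 2 := by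
    have h1 := Stop_mul_s W τ n
    have h2 := Stop_s_nonneg W τ n
    have h3 : τ ^ 3 * Stop_s W τ n ≤ τ + R :=
      (mul_le_mul_of_nonneg_right hnτ h2).trans (h1.trans hNle)
    rw [le_div_iff₀ (by positivity)]
    have h4 : τ * (Stop_s W τ n * τ ^ 2) ≤ τ * (1 + R) := by nlinarith
    exact le_of_mul_le_mul_left h4 hτ0
  have hNge : τ / (2 * (1 + R)) ≤ Stop_N W τ n := by
    rw [div_le_iff₀ (by positivity)]
    by_cases hc : (1 + R) / τ ^ 2 ≤ 1 / 2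
    · have h1 := Stop_le_N W hR (τ := τ) n
      have h2 : τ * (1 / 2) ≤ τ * (1 - Stop_s W τ n) := by
        apply mul_le_mul_of_nonneg_left _ hτ0.le
        linarith
      have h3 : 0 ≤ Stop_N W τ n := Finset.sum_nonneg fun k _ => Stop_s_nonneg W τ k
      nlinarith
    · push Not at hc
      rw [lt_div_iff₀ (by positivity)] at hc
      have h1 : 1 ≤ Stop_N W τ n := by
        have h2 : Stop_s W τ 0 ≤ Stop_N W τ n :=
          Finset.single_le_sum (f := fun k => Stop_s W τ k)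
            (fun k _ => Stop_s_nonneg W τ k) (Finset.mem_range.2 hn0)
        rwa [Stop_s_zero W hτ] at h2
      nlinarith
  refine ⟨(Stop_law W τ n).ι, (Stop_law W τ n).fin, (Stop_law W τ n).p, (Stop_law W τ n).h,
    Stop_N W τ n, (Stop_law W τ n).nonneg, (Stop_law W τ n).sum, Stop_mem W hΓ τ n, ?_, hNge, ?_,
    ?_, ?_, ?_⟩
  · intro j
    have := Stop_bound W hR hRpos.le hτ0.le n j
    linarith
  · nlinarith
  · have h1 : ∑ j, (if Lg ((Stop_law W τ n).h j) < τ then (Stop_law W τ n).p j else 0) =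
        Stop_s W τ n := by
      unfold Stop_s
      refine Finset.sum_congr rfl fun j _ => ?_
      split_ifs <;> simp
    rw [h1]
    refine hsle.trans ?_
    gcongr
    linarith
  · intro F B hF
    have h1 := Stop_dynkin W hΓ τ F B hF n
    rw [← h1]
    refine Finset.sum_congr rfl fun j _ => ?_
    rw [Complex.real_smul]
  · intro X K hX hK
    have hK0 : 0 ≤ K := (norm_nonneg _).trans (hK 1 Γ.one_mem i0)
    have h1 := Stop_super W hΓ τ (fun g => ‖X g‖ ^ 4 +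
      (8 * K ^ 2 + 1) * (‖X g‖ ^ 2 * (τ + R - Lg g)) +
      (8 * K ^ 2 + 1) * K ^ 2 / 2 * (τ + R - Lg g) ^ 2 +
      (3 * K ^ 4 + ((8 * K ^ 2 + 1) * R * K) ^ 2 + (8 * K ^ 2 + 1) * R * K ^ 2 +
        (8 * K ^ 2 + 1) * K ^ 2 / 2 * R ^ 2) * (τ + R - Lg g))
      (fun x hx hxτ => Stop_fourth W hR hRpos.le hdrift X hK0 (hX x hx) (hK x hx) hxτ) n
    refine (le_trans (Finset.sum_le_sum fun j _ => ?_) h1).trans ?_
    · refine mul_le_mul_of_nonneg_left ?_ ((Stop_law W τ n).nonneg j)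
      have h3 : 0 ≤ τ + R - Lg ((Stop_law W τ n).h j) := by
        have := Stop_bound W hR hRpos.le hτ0.le n j
        linarith
      have h4 : 0 ≤ (8 * K ^ 2 + 1) * (‖X ((Stop_law W τ n).h j)‖ ^ 2 *
        (τ + R - Lg ((Stop_law W τ n).h j))) := by positivity
      have h5 : 0 ≤ (8 * K ^ 2 + 1) * K ^ 2 / 2 * (τ + R - Lg ((Stop_law W τ n).h j)) ^ 2 := by
        positivity
      have h6 : 0 ≤ (3 * K ^ 4 + ((8 * K ^ 2 + 1) * R * K) ^ 2 + (8 * K ^ 2 + 1) * R * K ^ 2 +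
        (8 * K ^ 2 + 1) * K ^ 2 / 2 * R ^ 2) * (τ + R - Lg ((Stop_law W τ n).h j)) := by
        positivity
      linarith
    rw [Lg_one, sub_zero]
    have hρ1 : τ + R ≤ (1 + R) * τ := by nlinarith
    have hρ2 : (1 + R) * τ ≤ (1 + R) * τ ^ 2 := by nlinarith
    have hρ3 : (τ + R) ^ 2 ≤ (1 + R) ^ 2 * τ ^ 2 := by
      rw [← mul_pow]
      gcongr
    have hρ4 : τ + R ≤ (1 + R) * τ ^ 2 := hρ1.trans hρ2
    have t1 : ‖X 1‖ ^ 4 ≤ ‖X 1‖ ^ 4 * τ ^ 2 := le_mul_of_one_le_right (by positivity) hτ2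
    have t2 : (8 * K ^ 2 + 1) * (‖X 1‖ ^ 2 * (τ + R)) ≤
        (8 * K ^ 2 + 1) * (‖X 1‖ ^ 2 * ((1 + R) * τ ^ 2)) := by gcongr
    have t3 : (8 * K ^ 2 + 1) * K ^ 2 / 2 * (τ + R) ^ 2 ≤
        (8 * K ^ 2 + 1) * K ^ 2 / 2 * ((1 + R) ^ 2 * τ ^ 2) := by gcongr
    have t4 : (3 * K ^ 4 + ((8 * K ^ 2 + 1) * R * K) ^ 2 + (8 * K ^ 2 + 1) * R * K ^ 2 +
        (8 * K ^ 2 + 1) * K ^ 2 / 2 * R ^ 2) * (τ + R) ≤
        (3 * K ^ 4 + ((8 * K ^ 2 + 1) * R * K) ^ 2 + (8 * K ^ 2 + 1) * R * K ^ 2 +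
        (8 * K ^ 2 + 1) * K ^ 2 / 2 * R ^ 2) * ((1 + R) * τ ^ 2) := by gcongr
    calc _ ≤ ‖X 1‖ ^ 4 * τ ^ 2 + (8 * K ^ 2 + 1) * (‖X 1‖ ^ 2 * ((1 + R) * τ ^ 2)) +
        (8 * K ^ 2 + 1) * K ^ 2 / 2 * ((1 + R) ^ 2 * τ ^ 2) +
        (3 * K ^ 4 + ((8 * K ^ 2 + 1) * R * K) ^ 2 + (8 * K ^ 2 + 1) * R * K ^ 2 +
        (8 * K ^ 2 + 1) * K ^ 2 / 2 * R ^ 2) * ((1 + R) * τ ^ 2) := by
          exact add_le_add (add_le_add (add_le_add t1 t2) t3) t4
      _ = _ := by ring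

end Walk

end

end Pool.Agent.Lib.MP_b16327_pr
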