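import Pool.Agent.Lib.MP_b16327_pr.PoisC
import Pool.Agent.Lib.MP_b16327_pr.DriftB
import Pool.Agent.Lib.MP_b16327_pr.Stop

/-! # Comparison: preparations -/

namespace Pool.Agent.Lib.MP_b16327_pr

open Complex MeasureTheory ComplexConjugate Filter
open scoped Complex.UnitDisc Topology BoundedContinuousFunction

noncomputable section

private theorem CompA_rad {τ : ℝ} (hτ : 0 ≤ τ) :
    ((rad τ : 𝔻) : ℂ) = ((‖((rad τ : 𝔻) : ℂ)‖ : ℝ) : ℂ) := by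
  have h : ((rad τ : 𝔻) : ℂ) = ((Real.sqrt (1 - Real.exp (-τ)) : ℝ) : ℂ) := by
    unfold rad
    rw [dif_pos hτ]
    rfl
  rw [h, Complex.norm_real, Real.norm_of_nonneg (Real.sqrt_nonneg _)]

/-- geometric tracking: if `τ ≤ L(g) ≤ τ + C` and `|ξ - g⁻¹0| ≥ δ` then `dL (g0) ((gξ) rad τ)` is
bounded by a constant depending on `C, δ` only -/
theorem tracking_dL (C δ : ℝ) (hδ : 0 < δ) : ∃ D : ℝ, ∀ (g : SU11) (ξ : Circle) (τ : ℝ), 0 ≤ τ →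
    τ ≤ Lg g → Lg g ≤ τ + C → δ ≤ ‖(ξ : ℂ) - ((g⁻¹ • (0 : 𝔻) : 𝔻) : ℂ)‖ →
    dL (g • (0 : 𝔻)) ((g • ξ) • rad τ) ≤ D := by
  refine ⟨Real.log (1 + (1 / δ + 1) ^ 2 * Real.exp C), fun g ξ τ hτ h1 h2 h3 => ?_⟩
  unfold dL
  have hQ0 := Qd_nonneg (g • (0 : 𝔻)) ((g • ξ) • rad τ)
  refine Real.log_le_log (by linarith) (by
    have hz := one_sub_norm_smul_zero g
    have hζ : ‖(((g • ξ) • rad τ : 𝔻) : ℂ)‖ = ‖((rad τ : 𝔻) : ℂ)‖ := by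
      rw [UnitDisc.coe_circle_smul, norm_mul, Circle.norm_coe, one_mul]
    have hr := norm_rad hτ
    have hτe : 0 < Real.exp (-τ) := Real.exp_pos _
    have hLe : 0 < Real.exp (-Lg g) := Real.exp_pos _
    have hden : (1 - ‖((g • (0 : 𝔻) : 𝔻) : ℂ)‖ ^ 2) * (1 - ‖(((g • ξ) • rad τ : 𝔻) : ℂ)‖ ^ 2) =
        Real.exp (-Lg g) * Real.exp (-τ) := by
      rw [hz, hζ, hr]; ring
    have hne : 0 ≤ ‖((rad τ : 𝔻) : ℂ)‖ := norm_nonneg _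
    have hlt : ‖((rad τ : 𝔻) : ℂ)‖ < 1 := (rad τ).norm_lt_one
    -- the radial segment
    have hreal : ((rad τ : 𝔻) : ℂ) = ((‖((rad τ : 𝔻) : ℂ)‖ : ℝ) : ℂ) := CompA_rad hτ
    have hseg : ‖((g • ξ : Circle) : ℂ) - (((g • ξ) • rad τ : 𝔻) : ℂ)‖ ≤ Real.exp (-τ) := by
      rw [UnitDisc.coe_circle_smul]
      have e1 : ((g • ξ : Circle) : ℂ) - ((g • ξ : Circle) : ℂ) * ((rad τ : 𝔻) : ℂ) =
          ((g • ξ : Circle) : ℂ) * ((1 - ‖((rad τ : 𝔻) : ℂ)‖ : ℝ) : ℂ) := by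
        rw [Complex.ofReal_sub, ← hreal, Complex.ofReal_one]; ring
      rw [e1, norm_mul, Circle.norm_coe, one_mul, Complex.norm_real,
        Real.norm_of_nonneg (by linarith)]
      nlinarith
    have htr := tracking g ξ
    have hd1 : ‖((g • (0 : 𝔻) : 𝔻) : ℂ) - ((g • ξ : Circle) : ℂ)‖ ≤ Real.exp (-τ) / δ := by
      rw [le_div_iff₀ hδ]
      calc ‖((g • (0 : 𝔻) : 𝔻) : ℂ) - ((g • ξ : Circle) : ℂ)‖ * δ
          ≤ ‖((g • (0 : 𝔻) : 𝔻) : ℂ) - ((g • ξ : Circle) : ℂ)‖ *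
            ‖(ξ : ℂ) - ((g⁻¹ • (0 : 𝔻) : 𝔻) : ℂ)‖ := by gcongr
        _ = Real.exp (-Lg g) := htr
        _ ≤ Real.exp (-τ) := Real.exp_le_exp.2 (by linarith)
    have hd : ‖((g • (0 : 𝔻) : 𝔻) : ℂ) - (((g • ξ) • rad τ : 𝔻) : ℂ)‖ ≤
        Real.exp (-τ) * (1 / δ + 1) := by
      calc ‖((g • (0 : 𝔻) : 𝔻) : ℂ) - (((g • ξ) • rad τ : 𝔻) : ℂ)‖
          ≤ ‖((g • (0 : 𝔻) : 𝔻) : ℂ) - ((g • ξ : Circle) : ℂ)‖ +
            ‖((g • ξ : Circle) : ℂ) - (((g • ξ) • rad τ : 𝔻) : ℂ)‖ := norm_sub_le_norm_sub_add_norm_sub _ _ _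
        _ ≤ Real.exp (-τ) / δ + Real.exp (-τ) := add_le_add hd1 hseg
        _ = Real.exp (-τ) * (1 / δ + 1) := by ring
    have hQ : Qd (g • (0 : 𝔻)) ((g • ξ) • rad τ) ≤ (1 / δ + 1) ^ 2 * Real.exp C := by
      unfold Qd
      rw [hden, div_le_iff₀ (by positivity)]
      have h4 : ‖((g • (0 : 𝔻) : 𝔻) : ℂ) - (((g • ξ) • rad τ : 𝔻) : ℂ)‖ ^ 2 ≤
          (Real.exp (-τ) * (1 / δ + 1)) ^ 2 := pow_le_pow_left₀ (norm_nonneg _) hd 2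
      refine le_trans h4 ?_
      have h5 : Real.exp (-τ) ≤ Real.exp C * Real.exp (-Lg g) := by
        rw [← Real.exp_add]
        exact Real.exp_le_exp.2 (by linarith)
      calc (Real.exp (-τ) * (1 / δ + 1)) ^ 2
          = (1 / δ + 1) ^ 2 * Real.exp (-τ) * Real.exp (-τ) := by ring
        _ ≤ (1 / δ + 1) ^ 2 * (Real.exp C * Real.exp (-Lg g)) * Real.exp (-τ) := by gcongr
        _ = (1 / δ + 1) ^ 2 * Real.exp C * (Real.exp (-Lg g) * Real.exp (-τ)) := by ring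
    linarith)

/-- Cauchy-Schwarz for the finite measure `∑ q_j δ_{g_j} ⊗ ν` -/
theorem cs_sum {J : Type} [Fintype J] (q : J → ℝ) (hq : ∀ j, 0 ≤ q j) (ν : Measure Circle)
    [IsProbabilityMeasure ν] (A B : J → Circle → ℝ) (hA : ∀ j, Integrable (fun ξ => A j ξ ^ 2) ν)
    (hB : ∀ j, Integrable (fun ξ => B j ξ ^ 2) ν) (hAm : ∀ j, Measurable (A j))
    (hBm : ∀ j, Measurable (B j)) :
    |∑ j, q j * ∫ ξ, A j ξ * B j ξ ∂ν| ≤
      Real.sqrt (∑ j, q j * ∫ ξ, A j ξ ^ 2 ∂ν) * Real.sqrt (∑ j, q j * ∫ ξ, B j ξ ^ 2 ∂ν) := by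
  have hAB : ∀ j, Integrable (fun ξ => A j ξ * B j ξ) ν := by
    intro j
    refine Integrable.mono' ((hA j).add (hB j)) ((hAm j).mul (hBm j)).aestronglyMeasurable ?_
    refine Eventually.of_forall fun ξ => ?_
    rw [Real.norm_eq_abs, abs_le]
    simp only [Pi.add_apply]
    constructor <;> nlinarith [sq_nonneg (A j ξ + B j ξ), sq_nonneg (A j ξ - B j ξ),
      sq_nonneg (A j ξ), sq_nonneg (B j ξ)]
  set α : ℝ := ∑ j, q j * ∫ ξ, A j ξ ^ 2 ∂ν with hα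
  set β : ℝ := ∑ j, q j * ∫ ξ, A j ξ * B j ξ ∂ν with hβ
  set γ : ℝ := ∑ j, q j * ∫ ξ, B j ξ ^ 2 ∂ν with hγ
  have hα0 : 0 ≤ α := Finset.sum_nonneg fun j _ =>
    mul_nonneg (hq j) (integral_nonneg fun ξ => sq_nonneg _)
  have key : ∀ t : ℝ, 0 ≤ α * (t * t) + (2 * β) * t + γ := by
    intro t
    have h1 : ∀ j, ∫ ξ, (t * A j ξ + B j ξ) ^ 2 ∂ν =
        t * t * ∫ ξ, A j ξ ^ 2 ∂ν + 2 * t * ∫ ξ, A j ξ * B j ξ ∂ν + ∫ ξ, B j ξ ^ 2 ∂ν := by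
      intro j
      have i1 : Integrable (fun ξ => t * t * A j ξ ^ 2) ν := (hA j).const_mul _
      have i2 : Integrable (fun ξ => 2 * t * (A j ξ * B j ξ)) ν := (hAB j).const_mul _
      calc ∫ ξ, (t * A j ξ + B j ξ) ^ 2 ∂ν
          = ∫ ξ, (t * t * A j ξ ^ 2 + 2 * t * (A j ξ * B j ξ)) + B j ξ ^ 2 ∂ν :=
            integral_congr_ae (Eventually.of_forall fun ξ => by ring)
        _ = ∫ ξ, (t * t * A j ξ ^ 2 + 2 * t * (A j ξ * B j ξ)) ∂ν + ∫ ξ, B j ξ ^ 2 ∂ν :=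
            integral_add (i1.add i2) (hB j)
        _ = ∫ ξ, t * t * A j ξ ^ 2 ∂ν + ∫ ξ, 2 * t * (A j ξ * B j ξ) ∂ν +
            ∫ ξ, B j ξ ^ 2 ∂ν := by rw [integral_add i1 i2]
        _ = _ := by rw [integral_const_mul, integral_const_mul]
    have h2 : 0 ≤ ∑ j, q j * ∫ ξ, (t * A j ξ + B j ξ) ^ 2 ∂ν := Finset.sum_nonneg fun j _ =>
      mul_nonneg (hq j) (integral_nonneg fun ξ => sq_nonneg _)
    have h3 : ∑ j, q j * ∫ ξ, (t * A j ξ + B j ξ) ^ 2 ∂ν = α * (t * t) + (2 * β) * t + γ := by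
      simp only [h1]
      rw [hα, hβ, hγ, Finset.sum_mul, Finset.mul_sum, Finset.sum_mul, ← Finset.sum_add_distrib,
        ← Finset.sum_add_distrib]
      refine Finset.sum_congr rfl fun j _ => ?_
      ring
    rwa [h3] at h2
  have hd := discrim_le_zero key
  unfold discrim at hd
  have h4 : β ^ 2 ≤ α * γ := by nlinarith
  rw [← Real.sqrt_mul hα0]
  exact Real.abs_le_sqrt h4

/-- data of a pair for the comparison theorem -/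
structure PairData (W : Walk) (Γ : Subgroup SU11) (R : ℝ) where
  /-- first function -/
  u : 𝔻 → ℂ
  /-- second function -/
  u' : 𝔻 → ℂ
  /-- correction -/
  κ : 𝔻 → ℂ
  /-- the first martingale -/
  X : SU11 → ℂ
  /-- the second martingale -/
  X' : SU11 → ℂ
  /-- correction -/
  κ' : SU11 → ℂ
  /-- continuous growth -/
  Bm : ℂ
  /-- discrete growth -/
  Bμ : ℂ
  hu : Continuous u
  hu' : Continuous u'
  hκ : Continuous κ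
  hL : CLip u
  hL' : CLip u'
  hκb : ∃ C : ℝ, ∀ z, ‖κ z‖ ≤ C
  hM : ∀ z, Mop R u z = u z
  hM' : ∀ z, Mop R u' z = u' z
  hBm : ∀ z, Mop R (fun w => u w * u' w + κ w) z - (u z * u' z + κ z) = Bm
  hX : ∃ C : ℝ, ∀ g ∈ Γ, ‖X g - u (g • (0 : 𝔻))‖ ≤ C
  hX' : ∃ C : ℝ, ∀ g ∈ Γ, ‖X' g - u' (g • (0 : 𝔻))‖ ≤ C
  hκ'b : ∃ C : ℝ, ∀ g ∈ Γ, ‖κ' g‖ ≤ C
  hPX : ∀ g ∈ Γ, W.P X g = X g
  hPX' : ∀ g ∈ Γ, W.P X' g = X' g
  hBμ : ∀ g ∈ Γ, W.P (fun x => X x * X' x + κ' x) g = (X g * X' g + κ' g) + Bμ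

/-- replace the walk by a power -/
theorem PairData.exists_pow {W : Walk} {Γ : Subgroup SU11} {R : ℝ} (hΓ : ∀ i, W.h i ∈ Γ)
    (D : PairData W Γ R) (n : ℕ) :
    ∃ D' : PairData (W.pow n) Γ R, D'.Bm = D.Bm ∧ D'.Bμ = n * D.Bμ := by
  refine ⟨{ u := D.u, u' := D.u', κ := D.κ, X := D.X, X' := D.X', κ' := D.κ', Bm := D.Bm,
            Bμ := n * D.Bμ, hu := D.hu, hu' := D.hu', hκ := D.hκ, hL := D.hL, hL' := D.hL',
            hκb := D.hκb, hM := D.hM, hM' := D.hM', hBm := D.hBm, hX := D.hX, hX' := D.hX',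
            hκ'b := D.hκ'b, hPX := fun g hg => ?_, hPX' := fun g hg => ?_,
            hBμ := fun g hg => ?_ }, rfl, rfl⟩
  · have h := W.pow_P hΓ (F := D.X) (B := 0) (fun g hg => by rw [D.hPX g hg, add_zero]) n g hg
    rw [h, mul_zero, add_zero]
  · have h := W.pow_P hΓ (F := D.X') (B := 0) (fun g hg => by rw [D.hPX' g hg, add_zero]) n g hg
    rw [h, mul_zero, add_zero]
  · exact W.pow_P hΓ (F := fun x => D.X x * D.X' x + D.κ' x) (B := D.Bμ) D.hBμ n g hg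

end

end Pool.Agent.Lib.MP_b16327_pr
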