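import Pool.Agent.Lib.MP_b16327_pr.CompA

/-! # Comparison: main estimate -/

namespace Pool.Agent.Lib.MP_b16327_pr

open Complex MeasureTheory ComplexConjugate Filter
open scoped Complex.UnitDisc Topology BoundedContinuousFunction

noncomputable section

private theorem cb_meas_smul (x : SU11) : Measurable (fun ξ : Circle => x • ξ) :=
  (continuous_smul_circle x).measurable

private theorem cb_int {ν : Measure Circle} [IsFiniteMeasure ν] {E : Type*}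
    [NormedAddCommGroup E] {H : Circle → E} (hH : AEStronglyMeasurable H ν) {M : ℝ}
    (hM : ∀ ξ, ‖H ξ‖ ≤ M) : Integrable H ν :=
  Integrable.of_bound hH M (Eventually.of_forall hM)

/-- stationarity for the stopped family -/
private theorem cb_stat {W : Walk} {Γ : Subgroup SU11}
    {ν : Measure Circle} [IsProbabilityMeasure ν] (hst : W.Stat ν)
    {J : Type} [Fintype J] {q : J → ℝ} {g : J → SU11} {N : ℝ}
    (h : ∀ (F : SU11 → ℂ) (B : ℂ), (∀ x ∈ Γ, W.P F x = F x + B) →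
          ∑ j, (q j : ℂ) * F (g j) = F 1 + B * N)
    {H : Circle → ℂ} (hH : Measurable H) {M : ℝ} (hM : ∀ ξ, ‖H ξ‖ ≤ M) :
    ∑ j, (q j : ℂ) * ∫ ξ, H (g j • ξ) ∂ν = ∫ ξ, H ξ ∂ν := by
  have h1 := h (fun x => ∫ ξ, H (x • ξ) ∂ν) 0 (fun x _ => by
    rw [add_zero, Walk.Stat.integral hst (fun ξ => H (x • ξ))
      (cb_int ((hH.comp (cb_meas_smul x)).aestronglyMeasurable) (fun ξ => hM _))]
    unfold Walk.P
    simp only [mul_smul])
  rw [h1]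
  simp

private theorem cb_stat_real {W : Walk} {Γ : Subgroup SU11}
    {ν : Measure Circle} [IsProbabilityMeasure ν] (hst : W.Stat ν)
    {J : Type} [Fintype J] {q : J → ℝ} {g : J → SU11} {N : ℝ}
    (h : ∀ (F : SU11 → ℂ) (B : ℂ), (∀ x ∈ Γ, W.P F x = F x + B) →
          ∑ j, (q j : ℂ) * F (g j) = F 1 + B * N)
    {G : Circle → ℝ} (hG : Measurable G) {M : ℝ} (hM : ∀ ξ, |G ξ| ≤ M) :
    ∑ j, q j * ∫ ξ, G (g j • ξ) ∂ν = ∫ ξ, G ξ ∂ν := by
  have h1 := cb_stat hst h (H := fun ξ => (G ξ : ℂ)) (Complex.measurable_ofReal.comp hG) (M := M)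
    (fun ξ => by simpa using hM ξ)
  simp only [integral_complex_ofReal] at h1
  exact_mod_cast h1

/-- increments of `X` are bounded -/
private theorem cb_inc {W : Walk} {Γ : Subgroup SU11} (hΓ : ∀ i, W.h i ∈ Γ) {u : 𝔻 → ℂ}
    {X : SU11 → ℂ} (hL : CLip u) {C : ℝ} (hX : ∀ g ∈ Γ, ‖X g - u (g • (0 : 𝔻))‖ ≤ C) :
    ∃ K : ℝ, ∀ x ∈ Γ, ∀ i, ‖X (x * W.h i) - X x‖ ≤ K := by
  obtain ⟨Cu, hCu0, hCu⟩ := hL
  refine ⟨2 * C + Cu * (1 + ∑ i, Lg (W.h i)), fun x hx i => ?_⟩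
  have h1 := hX x hx
  have h2 := hX (x * W.h i) (Γ.mul_mem hx (hΓ i))
  have h3 := hCu ((x * W.h i) • (0 : 𝔻)) (x • (0 : 𝔻))
  have h4 : dL ((x * W.h i) • (0 : 𝔻)) (x • (0 : 𝔻)) = Lg (W.h i) := by
    rw [mul_smul, dL_smul, dL_smul_zero]
  have h5 : Lg (W.h i) ≤ ∑ i, Lg (W.h i) :=
    Finset.single_le_sum (f := fun i => Lg (W.h i)) (fun i _ => Lg_nonneg _) (Finset.mem_univ i)
  rw [h4] at h3
  have h6 : X (x * W.h i) - X x = (X (x * W.h i) - u ((x * W.h i) • (0 : 𝔻))) +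
      (u ((x * W.h i) • (0 : 𝔻)) - u (x • (0 : 𝔻))) - (X x - u (x • (0 : 𝔻))) := by ring
  rw [h6]
  have h7 := norm_sub_le ((X (x * W.h i) - u ((x * W.h i) • (0 : 𝔻))) +
      (u ((x * W.h i) • (0 : 𝔻)) - u (x • (0 : 𝔻)))) (X x - u (x • (0 : 𝔻)))
  have h8 := norm_add_le (X (x * W.h i) - u ((x * W.h i) • (0 : 𝔻)))
      (u ((x * W.h i) • (0 : 𝔻)) - u (x • (0 : 𝔻)))
  have h9 := mul_le_mul_of_nonneg_left h5 hCu0
  nlinarith

private theorem cb_dens {f : Circle → ℝ} (hf : Measurable f) (hf0 : ∀ ξ, 0 ≤ f ξ)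
    {ν : Measure Circle} (hν : ν = lam.withDensity (fun ξ => ENNReal.ofReal (f ξ)))
    {E : Type*} [NormedAddCommGroup E] [NormedSpace ℝ E] (G : Circle → E) :
    ∫ ξ, G ξ ∂ν = ∫ ξ, f ξ • G ξ ∂lam := by
  rw [hν, integral_withDensity_eq_integral_toReal_smul hf.ennreal_ofReal
    (Eventually.of_forall fun _ => ENNReal.ofReal_lt_top)]
  simp only [ENNReal.toReal_ofReal (hf0 _)]

/-- the pointwise estimate -/
private theorem cb_pt (x x' v v' : ℂ) (k : ℝ) (hk : 0 ≤ k) (e b : Prop) [Decidable e]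
    [Decidable b] (hgood : e → ¬ b → ‖x - v‖ ≤ k ∧ ‖x' - v'‖ ≤ k) :
    ‖x * x' - v * v' * (((if e then (1 : ℝ) else 0 : ℝ)) : ℂ)‖ ≤
      (if e then (0 : ℝ) else 1) * (‖x‖ * ‖x'‖) + (if b then (1 : ℝ) else 0) * (‖x‖ * ‖x'‖) +
        (if b then (1 : ℝ) else 0) * (‖v‖ * ‖v'‖ * (if e then (1 : ℝ) else 0)) +
        k * (‖x‖ + ‖x'‖ + k) := by
  have n1 := norm_nonneg x
  have n2 := norm_nonneg x'
  have n3 := norm_nonneg v
  have n4 := norm_nonneg v'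
  have n5 : 0 ≤ k * (‖x‖ + ‖x'‖ + k) := by positivity
  by_cases he : e
  · by_cases hb : b
    · simp only [he, hb, if_true, Complex.ofReal_one, mul_one, one_mul, zero_mul, zero_add]
      have := norm_sub_le (x * x') (v * v')
      rw [norm_mul, norm_mul] at this
      linarith
    · obtain ⟨h1, h2⟩ := hgood he hb
      simp only [he, hb, if_true, if_false, Complex.ofReal_one, mul_one, zero_mul, zero_add]
      have h3 : x * x' - v * v' = (x - v) * x' + v * (x' - v') := by ring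
      have h4 : ‖v‖ ≤ ‖x‖ + k := by
        have : v = x - (x - v) := by ring
        calc ‖v‖ = ‖x - (x - v)‖ := by rw [← this]
          _ ≤ ‖x‖ + ‖x - v‖ := norm_sub_le _ _
          _ ≤ _ := by linarith
      rw [h3]
      refine (norm_add_le _ _).trans ?_
      rw [norm_mul, norm_mul]
      have h5 : ‖x - v‖ * ‖x'‖ ≤ k * ‖x'‖ := mul_le_mul_of_nonneg_right h1 n2
      have h6 : ‖v‖ * ‖x' - v'‖ ≤ (‖x‖ + k) * k :=
        mul_le_mul h4 h2 (norm_nonneg _) (by positivity)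
      nlinarith
  · simp only [he, if_false, Complex.ofReal_zero, mul_zero, sub_zero, one_mul]
    rw [norm_mul]
    have : 0 ≤ (if b then (1 : ℝ) else 0) * (‖x‖ * ‖x'‖) := by
      split_ifs <;> positivity
    linarith

private theorem cb_amgm {x s : ℝ} (hx : 0 ≤ x) (hs : 0 < s) : x ≤ s + x ^ 4 / s ^ 3 := by
  rcases le_total x s with h | h
  · have : 0 ≤ x ^ 4 / s ^ 3 := by positivity
    linarith
  · have h1 : x ≤ x ^ 4 / s ^ 3 := by
      rw [le_div_iff₀ (by positivity)]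
      have : s ^ 3 ≤ x ^ 3 := pow_le_pow_left₀ hs.le h 3
      nlinarith [mul_le_mul_of_nonneg_left this hx]
    linarith

/-- first moments from fourth moments -/
private theorem cb_mom {J : Type} [Fintype J] {q : J → ℝ} (hq : ∀ j, 0 ≤ q j)
    (hq1 : ∑ j, q j = 1) {x : J → ℝ} (hx : ∀ j, 0 ≤ x j) {A τ : ℝ} (hτ : 1 ≤ τ)
    (h : ∑ j, q j * x j ^ 4 ≤ A * τ ^ 2) : ∑ j, q j * x j ≤ (1 + A) * Real.sqrt τ := by
  have hs : 0 < Real.sqrt τ := Real.sqrt_pos.2 (by linarith)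
  set s := Real.sqrt τ with hsdef
  have hs2 : s ^ 2 = τ := Real.sq_sqrt (by linarith)
  have h1 : ∑ j, q j * x j ≤ ∑ j, (q j * s + (q j * x j ^ 4) / s ^ 3) := by
    refine Finset.sum_le_sum fun j _ => ?_
    have := mul_le_mul_of_nonneg_left (cb_amgm (hx j) hs) (hq j)
    rw [mul_add, ← mul_div_assoc] at this
    exact this
  rw [Finset.sum_add_distrib, ← Finset.sum_mul, hq1, ← Finset.sum_div] at h1
  have h2 : (∑ j, q j * x j ^ 4) / s ^ 3 ≤ A * s := by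
    rw [div_le_iff₀ (by positivity)]
    calc _ ≤ A * τ ^ 2 := h
      _ = A * s * s ^ 3 := by rw [← hs2]; ring
  linarith

private theorem cb_bdd {U : Circle → ℂ} (hU : Continuous U) : ∃ M : ℝ, 0 ≤ M ∧ ∀ ξ, ‖U ξ‖ ≤ M := by
  obtain ⟨M, hM⟩ := isCompact_univ.exists_bound_of_continuousOn (f := U) hU.continuousOn
  exact ⟨M, (norm_nonneg _).trans (hM 1 (Set.mem_univ _)), fun ξ => hM ξ (Set.mem_univ _)⟩

private theorem cb_int4 {U : Circle → ℂ} (hU : Continuous U) (ν : Measure Circle)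
    [IsFiniteMeasure ν] : Integrable (fun ξ => ‖U ξ‖ ^ 4) ν := by
  obtain ⟨M, hM0, hM⟩ := cb_bdd hU
  have hc : Continuous (fun ξ => ‖U ξ‖ ^ 4) := by fun_prop
  refine cb_int hc.measurable.aestronglyMeasurable (M := M ^ 4) fun ξ => ?_
  rw [Real.norm_of_nonneg (by positivity)]
  exact pow_le_pow_left₀ (norm_nonneg _) (hM ξ) 4

/-- fourth moment bound for the product on the good part of the circle -/
private theorem cb_prod {f : Circle → ℝ} (hf : Measurable f) (hf0 : ∀ ξ, 0 ≤ f ξ)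
    {ν : Measure Circle} (hν : ν = lam.withDensity (fun ξ => ENNReal.ofReal (f ξ)))
    {U U' : Circle → ℂ} (hU : Continuous U) (hU' : Continuous U') {B₀ A A' : ℝ} (hB₀ : 1 ≤ B₀)
    (h1 : ∫ ξ, ‖U ξ‖ ^ 4 ∂lam ≤ A) (h2 : ∫ ξ, ‖U' ξ‖ ^ 4 ∂lam ≤ A') :
    ∫ ξ, (‖U ξ‖ * ‖U' ξ‖ * (if f ξ ≤ B₀ then (1 : ℝ) else 0)) ^ 2 ∂ν ≤ B₀ * (A + A') := by
  rw [cb_dens hf hf0 hν]
  have i1 : Integrable (fun ξ => ‖U ξ‖ ^ 4) lam := cb_int4 hU lam
  have i2 : Integrable (fun ξ => ‖U' ξ‖ ^ 4) lam := cb_int4 hU' lam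
  calc _ ≤ ∫ ξ, B₀ * (‖U ξ‖ ^ 4 + ‖U' ξ‖ ^ 4) ∂lam := by
        refine integral_mono_of_nonneg (Eventually.of_forall fun ξ => ?_)
          ((i1.add i2).const_mul _) (Eventually.of_forall fun ξ => ?_)
        · have := hf0 ξ
          simp only [smul_eq_mul, Pi.zero_apply]
          positivity
        · simp only [smul_eq_mul]
          have n1 : 0 ≤ ‖U ξ‖ ^ 4 := by positivity
          have n2 : 0 ≤ ‖U' ξ‖ ^ 4 := by positivity
          split_ifs with h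
          · have h3 : (‖U ξ‖ * ‖U' ξ‖ * 1) ^ 2 ≤ ‖U ξ‖ ^ 4 + ‖U' ξ‖ ^ 4 := by
              nlinarith [sq_nonneg (‖U ξ‖ ^ 2 - ‖U' ξ‖ ^ 2)]
            exact mul_le_mul h h3 (by positivity) (by linarith)
          · have : 0 ≤ B₀ * (‖U ξ‖ ^ 4 + ‖U' ξ‖ ^ 4) := by positivity
            simpa using this
    _ = B₀ * (∫ ξ, ‖U ξ‖ ^ 4 ∂lam + ∫ ξ, ‖U' ξ‖ ^ 4 ∂lam) := by
        rw [integral_const_mul, integral_add i1 i2]
    _ ≤ _ := by gcongr

/-- MAIN ESTIMATE, core form: everything except the choice of constants. -/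
private theorem cb_core {W : Walk} {Γ : Subgroup SU11}
    {f : Circle → ℝ} (hf : Measurable f) (hf0 : ∀ ξ, 0 ≤ f ξ)
    {ν : Measure Circle} [IsProbabilityMeasure ν]
    (hν : ν = lam.withDensity (fun ξ => ENNReal.ofReal (f ξ))) (hst : W.Stat ν)
    {X X' : SU11 → ℂ} {U U' : Circle → ℂ} (hU : Continuous U) (hU' : Continuous U')
    {B₀ δ ε τ k A A5 C0 : ℝ} (hB₀ : 1 ≤ B₀) (hε : 0 ≤ ε) (hτ : 1 ≤ τ) (hk : 0 ≤ k)
    (harc : ∀ x : ℂ, ν.real {ξ : Circle | ‖(ξ : ℂ) - x‖ < δ} ≤ ε)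
    {J : Type} [Fintype J] {q : J → ℝ} {g : J → SU11} {N : ℝ}
    (hq : ∀ j, 0 ≤ q j) (hq1 : ∑ j, q j = 1)
    (hmass : ∑ j, (if Lg (g j) < τ then q j else 0) ≤ C0 / τ ^ 2)
    (h : ∀ (F : SU11 → ℂ) (B : ℂ), (∀ x ∈ Γ, W.P F x = F x + B) →
          ∑ j, (q j : ℂ) * F (g j) = F 1 + B * N)
    (h4 : ∑ j, q j * ‖X (g j)‖ ^ 4 ≤ A * τ ^ 2)
    (h4' : ∑ j, q j * ‖X' (g j)‖ ^ 4 ≤ A * τ ^ 2)
    (h5 : ∫ ξ, ‖U ξ‖ ^ 4 ∂lam ≤ A5 * τ ^ 2) (h5' : ∫ ξ, ‖U' ξ‖ ^ 4 ∂lam ≤ A5 * τ ^ 2)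
    (hgood : ∀ (j : J) (ξ : Circle), τ ≤ Lg (g j) → δ ≤ ‖(ξ : ℂ) - (((g j)⁻¹ • (0 : 𝔻) : 𝔻) : ℂ)‖ →
      ‖X (g j) - U (g j • ξ)‖ ≤ k ∧ ‖X' (g j) - U' (g j • ξ)‖ ≤ k) :
    ‖∑ j, (q j : ℂ) * (X (g j) * X' (g j)) - ∫ ξ : Circle, U ξ * U' ξ *
            ((if f ξ ≤ B₀ then f ξ else 0 : ℝ) : ℂ) ∂lam‖ ≤
      Real.sqrt (ν.real {ξ | B₀ < f ξ}) * Real.sqrt (A * τ ^ 2) +
      Real.sqrt (ε + C0 / τ ^ 2) * Real.sqrt (A * τ ^ 2) +
      Real.sqrt (ε + C0 / τ ^ 2) * Real.sqrt (B₀ * (A5 * τ ^ 2 + A5 * τ ^ 2)) +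
      k * (2 * ((1 + A) * Real.sqrt τ) + k) := by
  classical
  obtain ⟨M, hM0, hM⟩ := cb_bdd hU
  obtain ⟨M', hM'0, hM'⟩ := cb_bdd hU'
  set e : Circle → ℝ := fun ξ => if f ξ ≤ B₀ then (1 : ℝ) else 0 with he
  have hE : MeasurableSet {ξ | f ξ ≤ B₀} := measurableSet_le hf measurable_const
  have hem : Measurable e := Measurable.ite hE measurable_const measurable_const
  have he1 : ∀ ξ, |e ξ| ≤ 1 := fun ξ => by simp only [he]; split_ifs <;> simp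
  have he0 : ∀ ξ, 0 ≤ e ξ := fun ξ => by simp only [he]; split_ifs <;> simp
  -- the function H
  set H : Circle → ℂ := fun ξ => U ξ * U' ξ * ((e ξ : ℝ) : ℂ) with hH
  have hHm : Measurable H := (hU.measurable.mul hU'.measurable).mul
    (Complex.measurable_ofReal.comp hem)
  have hHb : ∀ ξ, ‖H ξ‖ ≤ M * M' * 1 := fun ξ => by
    simp only [hH, norm_mul, Complex.norm_real, Real.norm_eq_abs]
    have := hM ξ
    have := hM' ξ
    have := he1 ξ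
    gcongr
  have e1 : ∫ ξ : Circle, U ξ * U' ξ * ((if f ξ ≤ B₀ then f ξ else 0 : ℝ) : ℂ) ∂lam =
      ∫ ξ, H ξ ∂ν := by
    rw [cb_dens hf hf0 hν]
    refine integral_congr_ae (Eventually.of_forall fun ξ => ?_)
    simp only [hH, he, Complex.real_smul]
    split_ifs <;> simp
    ring
  rw [e1, ← cb_stat hst h hHm hHb]
  -- functions for Cauchy-Schwarz
  set a : J → Circle → ℝ := fun j ξ => if f (g j • ξ) ≤ B₀ then (0 : ℝ) else 1 with ha
  set b : J → Circle → ℝ := fun j ξ =>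
    if ‖(ξ : ℂ) - (((g j)⁻¹ • (0 : 𝔻) : 𝔻) : ℂ)‖ < δ ∨ Lg (g j) < τ then (1 : ℝ) else 0 with hb
  set p : J → Circle → ℝ := fun j _ => ‖X (g j)‖ * ‖X' (g j)‖ with hp
  set r : J → Circle → ℝ := fun j ξ => ‖U (g j • ξ)‖ * ‖U' (g j • ξ)‖ *
    (if f (g j • ξ) ≤ B₀ then (1 : ℝ) else 0) with hr
  have hEj : ∀ j, MeasurableSet {ξ : Circle | f (g j • ξ) ≤ B₀} := fun j =>
    measurableSet_le (hf.comp (cb_meas_smul _)) measurable_const
  have hbadm : ∀ j, MeasurableSet {ξ : Circle |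
      ‖(ξ : ℂ) - (((g j)⁻¹ • (0 : 𝔻) : 𝔻) : ℂ)‖ < δ ∨ Lg (g j) < τ} := fun j => by
    have m1 : MeasurableSet {ξ : Circle | ‖(ξ : ℂ) - (((g j)⁻¹ • (0 : 𝔻) : 𝔻) : ℂ)‖ < δ} :=
      measurableSet_lt (by fun_prop : Continuous (fun ξ : Circle =>
        ‖(ξ : ℂ) - (((g j)⁻¹ • (0 : 𝔻) : 𝔻) : ℂ)‖)).measurable measurable_const
    exact m1.union (MeasurableSet.const (Lg (g j) < τ))
  have ham : ∀ j, Measurable (a j) := fun j =>
    Measurable.ite (hEj j) measurable_const measurable_const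
  have hbm : ∀ j, Measurable (b j) := fun j =>
    Measurable.ite (hbadm j) measurable_const measurable_const
  have hpm : ∀ j, Measurable (p j) := fun j => measurable_const
  have hrm : ∀ j, Measurable (r j) := fun j =>
    (((hU.norm.measurable.comp (cb_meas_smul _))).mul
      ((hU'.norm.measurable.comp (cb_meas_smul _)))).mul
      (Measurable.ite (hEj j) measurable_const measurable_const)
  have hab : ∀ j ξ, a j ξ = 0 ∨ a j ξ = 1 := fun j ξ => by simp only [ha]; split_ifs <;> simp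
  have hbb : ∀ j ξ, b j ξ = 0 ∨ b j ξ = 1 := fun j ξ => by simp only [hb]; split_ifs <;> simp
  have ha2 : ∀ j ξ, a j ξ ^ 2 = a j ξ := fun j ξ => by
    rcases hab j ξ with h | h <;> rw [h] <;> norm_num
  have hb2 : ∀ j ξ, b j ξ ^ 2 = b j ξ := fun j ξ => by
    rcases hbb j ξ with h | h <;> rw [h] <;> norm_num
  have ha1 : ∀ j ξ, |a j ξ| ≤ 1 := fun j ξ => by
    rcases hab j ξ with h | h <;> rw [h] <;> norm_num
  have hb1 : ∀ j ξ, |b j ξ| ≤ 1 := fun j ξ => by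
    rcases hbb j ξ with h | h <;> rw [h] <;> norm_num
  have hr1 : ∀ j ξ, |r j ξ| ≤ M * M' * 1 := fun j ξ => by
    have := hHb (g j • ξ)
    simp only [hH, he, norm_mul, Complex.norm_real, Real.norm_eq_abs] at this
    simp only [hr, abs_mul, abs_norm]
    exact this
  have ia : ∀ j, Integrable (fun ξ => a j ξ ^ 2) ν := fun j => by
    refine cb_int ((ham j).pow_const 2).aestronglyMeasurable (M := 1) fun ξ => ?_
    rw [ha2]; exact ha1 j ξ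
  have ib : ∀ j, Integrable (fun ξ => b j ξ ^ 2) ν := fun j => by
    refine cb_int ((hbm j).pow_const 2).aestronglyMeasurable (M := 1) fun ξ => ?_
    rw [hb2]; exact hb1 j ξ
  have ip : ∀ j, Integrable (fun ξ => p j ξ ^ 2) ν := fun j => by
    simp only [hp]
    exact integrable_const _
  have ir : ∀ j, Integrable (fun ξ => r j ξ ^ 2) ν := fun j => by
    refine cb_int ((hrm j).pow_const 2).aestronglyMeasurable (M := (M * M' * 1) ^ 2) fun ξ => ?_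
    rw [norm_pow]
    exact pow_le_pow_left₀ (norm_nonneg _) (hr1 j ξ) 2
  have iap : ∀ j, Integrable (fun ξ => a j ξ * p j ξ) ν := fun j => by
    refine cb_int ((ham j).mul (hpm j)).aestronglyMeasurable
      (M := 1 * (‖X (g j)‖ * ‖X' (g j)‖)) fun ξ => ?_
    rw [norm_mul]
    refine mul_le_mul (ha1 j ξ) ?_ (norm_nonneg _) zero_le_one
    rw [Real.norm_of_nonneg (by simp only [hp]; positivity)]
  have ibp : ∀ j, Integrable (fun ξ => b j ξ * p j ξ) ν := fun j => by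
    refine cb_int ((hbm j).mul (hpm j)).aestronglyMeasurable
      (M := 1 * (‖X (g j)‖ * ‖X' (g j)‖)) fun ξ => ?_
    rw [norm_mul]
    refine mul_le_mul (hb1 j ξ) ?_ (norm_nonneg _) zero_le_one
    rw [Real.norm_of_nonneg (by simp only [hp]; positivity)]
  have ibr : ∀ j, Integrable (fun ξ => b j ξ * r j ξ) ν := fun j => by
    refine cb_int ((hbm j).mul (hrm j)).aestronglyMeasurable
      (M := 1 * (M * M' * 1)) fun ξ => ?_
    rw [norm_mul]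
    exact mul_le_mul (hb1 j ξ) (hr1 j ξ) (norm_nonneg _) zero_le_one
  have iH : ∀ j, Integrable (fun ξ => H (g j • ξ)) ν := fun j =>
    cb_int (hHm.comp (cb_meas_smul _)).aestronglyMeasurable (fun ξ => hHb _)
  -- masses
  have ma : ∑ j, q j * ∫ ξ, a j ξ ^ 2 ∂ν = ν.real {ξ | B₀ < f ξ} := by
    have h1 := cb_stat_real hst h (G := fun ξ => if f ξ ≤ B₀ then (0 : ℝ) else 1)
      (Measurable.ite hE measurable_const measurable_const) (M := 1)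
      (fun ξ => by split_ifs <;> simp)
    simp only [ha2]
    simp only [ha]
    rw [h1]
    have h2 : (fun ξ => if f ξ ≤ B₀ then (0 : ℝ) else 1) =
        Set.indicator {ξ | B₀ < f ξ} (fun _ => (1 : ℝ)) := by
      funext ξ
      by_cases hh : f ξ ≤ B₀
      · rw [if_pos hh, Set.indicator_of_notMem]
        exact not_lt.2 hh
      · rw [if_neg hh, Set.indicator_of_mem]
        exact not_le.1 hh
    rw [h2, integral_indicator_const _ (measurableSet_lt measurable_const hf)]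
    simp
  have mb : ∑ j, q j * ∫ ξ, b j ξ ^ 2 ∂ν ≤ ε + C0 / τ ^ 2 := by
    simp only [hb2]
    have h1 : ∀ j, q j * ∫ ξ, b j ξ ∂ν ≤ q j * ε + (if Lg (g j) < τ then q j else 0) := by
      intro j
      by_cases hj : Lg (g j) < τ
      · rw [if_pos hj]
        have : ∫ ξ, b j ξ ∂ν = 1 := by
          simp only [hb, hj, or_true, if_true]
          simp
        rw [this]
        have := mul_nonneg (hq j) hε
        linarith
      · rw [if_neg hj, add_zero]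
        refine mul_le_mul_of_nonneg_left ?_ (hq j)
        have h2 : b j = Set.indicator {ξ : Circle | ‖(ξ : ℂ) - (((g j)⁻¹ • (0 : 𝔻) : 𝔻) : ℂ)‖ < δ}
            (fun _ => (1 : ℝ)) := by
          funext ξ
          simp only [hb, hj, or_false, Set.indicator, Set.mem_ofPred_eq]
        have h3 : MeasurableSet {ξ : Circle | ‖(ξ : ℂ) - (((g j)⁻¹ • (0 : 𝔻) : 𝔻) : ℂ)‖ < δ} :=
          measurableSet_lt (by fun_prop : Continuous (fun ξ : Circle =>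
            ‖(ξ : ℂ) - (((g j)⁻¹ • (0 : 𝔻) : 𝔻) : ℂ)‖)).measurable measurable_const
        rw [h2, integral_indicator_const _ h3]
        simpa using harc _
    refine (Finset.sum_le_sum fun j _ => h1 j).trans ?_
    rw [Finset.sum_add_distrib, ← Finset.sum_mul, hq1, one_mul]
    linarith
  have mp : ∑ j, q j * ∫ ξ, p j ξ ^ 2 ∂ν ≤ A * τ ^ 2 := by
    have h1 : ∀ j, q j * ∫ ξ, p j ξ ^ 2 ∂ν ≤
        (q j * ‖X (g j)‖ ^ 4 + q j * ‖X' (g j)‖ ^ 4) / 2 := by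
      intro j
      have : ∫ ξ, p j ξ ^ 2 ∂ν = (‖X (g j)‖ * ‖X' (g j)‖) ^ 2 := by
        simp [hp]
      rw [this]
      have h2 : (‖X (g j)‖ * ‖X' (g j)‖) ^ 2 ≤ (‖X (g j)‖ ^ 4 + ‖X' (g j)‖ ^ 4) / 2 := by
        nlinarith [sq_nonneg (‖X (g j)‖ ^ 2 - ‖X' (g j)‖ ^ 2)]
      have := mul_le_mul_of_nonneg_left h2 (hq j)
      linarith
    refine (Finset.sum_le_sum fun j _ => h1 j).trans ?_
    rw [← Finset.sum_div, Finset.sum_add_distrib]
    linarith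
  have mr : ∑ j, q j * ∫ ξ, r j ξ ^ 2 ∂ν ≤ B₀ * (A5 * τ ^ 2 + A5 * τ ^ 2) := by
    have h1 := cb_stat_real hst h
      (G := fun ξ => (‖U ξ‖ * ‖U' ξ‖ * (if f ξ ≤ B₀ then (1 : ℝ) else 0)) ^ 2)
      (((hU.norm.measurable.mul hU'.norm.measurable).mul
        (Measurable.ite hE measurable_const measurable_const)).pow_const 2)
      (M := (M * M' * 1) ^ 2)
      (fun ξ => by
        have := hHb ξ
        simp only [hH, he, norm_mul, Complex.norm_real, Real.norm_eq_abs] at this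
        rw [abs_pow, abs_mul, abs_mul, abs_norm, abs_norm]
        exact pow_le_pow_left₀ (by positivity) this 2)
    simp only [hr]
    rw [h1]
    exact cb_prod hf hf0 hν hU hU' hB₀ h5 h5'
  have T1 : |∑ j, q j * ∫ ξ, a j ξ * p j ξ ∂ν| ≤
      Real.sqrt (ν.real {ξ | B₀ < f ξ}) * Real.sqrt (A * τ ^ 2) := by
    refine (cs_sum q hq ν a p ia ip ham hpm).trans ?_
    rw [ma]
    gcongr
  have T2 : |∑ j, q j * ∫ ξ, b j ξ * p j ξ ∂ν| ≤
      Real.sqrt (ε + C0 / τ ^ 2) * Real.sqrt (A * τ ^ 2) := by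
    refine (cs_sum q hq ν b p ib ip hbm hpm).trans ?_
    gcongr
  have T3 : |∑ j, q j * ∫ ξ, b j ξ * r j ξ ∂ν| ≤
      Real.sqrt (ε + C0 / τ ^ 2) * Real.sqrt (B₀ * (A5 * τ ^ 2 + A5 * τ ^ 2)) := by
    refine (cs_sum q hq ν b r ib ir hbm hrm).trans ?_
    gcongr
  have T4 : ∑ j, q j * (k * (‖X (g j)‖ + ‖X' (g j)‖ + k)) ≤
      k * (2 * ((1 + A) * Real.sqrt τ) + k) := by
    have m1 := cb_mom hq hq1 (fun j => norm_nonneg (X (g j))) hτ h4
    have m2 := cb_mom hq hq1 (fun j => norm_nonneg (X' (g j))) hτ h4'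
    have e2 : ∑ j, q j * (k * (‖X (g j)‖ + ‖X' (g j)‖ + k)) =
        k * (∑ j, q j * ‖X (g j)‖ + ∑ j, q j * ‖X' (g j)‖ + (∑ j, q j) * k) := by
      rw [Finset.sum_mul, ← Finset.sum_add_distrib, ← Finset.sum_add_distrib, Finset.mul_sum]
      exact Finset.sum_congr rfl fun j _ => by ring
    rw [e2, hq1, one_mul]
    refine mul_le_mul_of_nonneg_left ?_ hk
    linarith
  -- main pointwise estimate
  have main : ∀ j, ‖X (g j) * X' (g j) - ∫ ξ, H (g j • ξ) ∂ν‖ ≤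
      ∫ ξ, a j ξ * p j ξ ∂ν + ∫ ξ, b j ξ * p j ξ ∂ν + ∫ ξ, b j ξ * r j ξ ∂ν +
        k * (‖X (g j)‖ + ‖X' (g j)‖ + k) := by
    intro j
    have e3 : X (g j) * X' (g j) - ∫ ξ, H (g j • ξ) ∂ν =
        ∫ ξ, (X (g j) * X' (g j) - H (g j • ξ)) ∂ν := by
      rw [integral_sub (integrable_const _) (iH j)]
      simp
    have i1 : Integrable (fun ξ => a j ξ * p j ξ + b j ξ * p j ξ) ν := (iap j).add (ibp j)
    have i2 : Integrable (fun ξ => a j ξ * p j ξ + b j ξ * p j ξ + b j ξ * r j ξ) ν :=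
      i1.add (ibr j)
    have e4 : ∫ ξ, a j ξ * p j ξ ∂ν + ∫ ξ, b j ξ * p j ξ ∂ν + ∫ ξ, b j ξ * r j ξ ∂ν +
        k * (‖X (g j)‖ + ‖X' (g j)‖ + k) =
        ∫ ξ, (a j ξ * p j ξ + b j ξ * p j ξ + b j ξ * r j ξ +
        k * (‖X (g j)‖ + ‖X' (g j)‖ + k)) ∂ν := by
      rw [integral_add i2 (integrable_const _), integral_add i1 (ibr j),
        integral_add (iap j) (ibp j)]
      simp
    rw [e3, e4]
    refine (norm_integral_le_integral_norm _).trans ?_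
    refine integral_mono_of_nonneg (Eventually.of_forall fun ξ => norm_nonneg _)
      (i2.add (integrable_const _))
      (Eventually.of_forall fun ξ => ?_)
    exact cb_pt (X (g j)) (X' (g j)) (U (g j • ξ)) (U' (g j • ξ)) k hk (f (g j • ξ) ≤ B₀)
      (‖(ξ : ℂ) - (((g j)⁻¹ • (0 : 𝔻) : 𝔻) : ℂ)‖ < δ ∨ Lg (g j) < τ)
      (fun _ hbad => by
        rw [not_or, not_lt, not_lt] at hbad
        exact hgood j ξ hbad.2 hbad.1)
  have e5 : ∑ j, (q j : ℂ) * (X (g j) * X' (g j)) - ∑ j, (q j : ℂ) * ∫ ξ, H (g j • ξ) ∂ν =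
      ∑ j, (q j : ℂ) * (X (g j) * X' (g j) - ∫ ξ, H (g j • ξ) ∂ν) := by
    rw [← Finset.sum_sub_distrib]
    exact Finset.sum_congr rfl fun j _ => by ring
  rw [e5]
  calc _ ≤ ∑ j, q j * (∫ ξ, a j ξ * p j ξ ∂ν + ∫ ξ, b j ξ * p j ξ ∂ν + ∫ ξ, b j ξ * r j ξ ∂ν +
        k * (‖X (g j)‖ + ‖X' (g j)‖ + k)) := by
        refine (norm_sum_le _ _).trans (Finset.sum_le_sum fun j _ => ?_)
        rw [norm_mul, Complex.norm_real, Real.norm_of_nonneg (hq j)]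
        exact mul_le_mul_of_nonneg_left (main j) (hq j)
    _ = ∑ j, q j * ∫ ξ, a j ξ * p j ξ ∂ν + ∑ j, q j * ∫ ξ, b j ξ * p j ξ ∂ν +
        ∑ j, q j * ∫ ξ, b j ξ * r j ξ ∂ν +
        ∑ j, q j * (k * (‖X (g j)‖ + ‖X' (g j)‖ + k)) := by
        rw [← Finset.sum_add_distrib, ← Finset.sum_add_distrib, ← Finset.sum_add_distrib]
        exact Finset.sum_congr rfl fun j _ => by ring
    _ ≤ _ := by
        have := le_abs_self (∑ j, q j * ∫ ξ, a j ξ * p j ξ ∂ν)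
        have := le_abs_self (∑ j, q j * ∫ ξ, b j ξ * p j ξ ∂ν)
        have := le_abs_self (∑ j, q j * ∫ ξ, b j ξ * r j ξ ∂ν)
        linarith

/-- MAIN ESTIMATE.  `ν = f λ`, `0 ≤ f`, `E = {f ≤ B₀}`, `φ = f 1_E`.  For the stopped family
`(q, g, N)` of `Walk.stopped` (`hJ` packages its properties) and `τ ≥ 1`:
`|Bμ N - ∫ u u'(ξ rad τ) φ dλ| ≤ C_δ √τ + C τ (ν(Eᶜ)^{1/2} + (1 + B₀)^{1/2} (ε + C/τ²)^{1/2})`,
`ε = ε(δ)` from `small_arcs`.  See the notes for the proof. -/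
theorem main_estimate {W : Walk} {Γ : Subgroup SU11} {R : ℝ} (hR0 : 0 < R) (hR : R < 1)
    (hΓ : ∀ i, W.h i ∈ Γ) (D : PairData W Γ R)
    (f : Circle → ℝ) (hf : Measurable f) (hf0 : ∀ ξ, 0 ≤ f ξ)
    (ν : Measure Circle) [IsProbabilityMeasure ν]
    (hν : ν = lam.withDensity (fun ξ => ENNReal.ofReal (f ξ))) (hst : W.Stat ν)
    {C0 : ℝ} {C4 : ℝ → ℝ → ℝ} (hC0 : 1 ≤ C0) :
    ∃ C : ℝ, 0 ≤ C ∧ ∀ (B₀ δ ε : ℝ), 1 ≤ B₀ → 0 < δ → 0 ≤ ε →
      (∀ x : ℂ, ν.real {ξ : Circle | ‖(ξ : ℂ) - x‖ < δ} ≤ ε) →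
      ∃ Cδ : ℝ, ∀ τ : ℝ, 1 ≤ τ →
      ∀ (J : Type) (_ : Fintype J) (q : J → ℝ) (g : J → SU11) (N : ℝ),
        (∀ j, 0 ≤ q j) → (∑ j, q j = 1) → (∀ j, g j ∈ Γ) → (∀ j, Lg (g j) ≤ τ + C0) →
        (∑ j, (if Lg (g j) < τ then q j else 0) ≤ C0 / τ ^ 2) →
        (∀ (F : SU11 → ℂ) (B : ℂ), (∀ x ∈ Γ, W.P F x = F x + B) →
          ∑ j, (q j : ℂ) * F (g j) = F 1 + B * N) →
        (∀ (X : SU11 → ℂ) (K : ℝ), (∀ x ∈ Γ, W.P X x = X x) →
          (∀ x ∈ Γ, ∀ i, ‖X (x * W.h i) - X x‖ ≤ K) →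
          ∑ j, q j * ‖X (g j)‖ ^ 4 ≤ C4 K ‖X 1‖ * τ ^ 2) →
        ‖D.Bμ * N - ∫ ξ : Circle, D.u (ξ • rad τ) * D.u' (ξ • rad τ) *
            ((if f ξ ≤ B₀ then f ξ else 0 : ℝ) : ℂ) ∂lam‖ ≤
          Cδ * Real.sqrt τ + C * τ * (Real.sqrt (ν.real {ξ | B₀ < f ξ}) +
            Real.sqrt (1 + B₀) * Real.sqrt (ε + C0 / τ ^ 2)) := by
  obtain ⟨Cu, hCu0, hCu⟩ := D.hL
  obtain ⟨Cu', hCu'0, hCu'⟩ := D.hL'
  obtain ⟨CX, hCX⟩ := D.hX
  obtain ⟨CX', hCX'⟩ := D.hX'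
  obtain ⟨Cκ, hCκ⟩ := D.hκ'b
  obtain ⟨K, hK⟩ := cb_inc hΓ D.hL hCX
  obtain ⟨K', hK'⟩ := cb_inc hΓ D.hL' hCX'
  obtain ⟨C5, hC5, h5⟩ := l4_bound hR0 hR D.hu D.hL D.hM
  obtain ⟨C5', hC5', h5'⟩ := l4_bound hR0 hR D.hu' D.hL' D.hM'
  have hCX0 : 0 ≤ CX := (norm_nonneg _).trans (hCX 1 Γ.one_mem)
  have hCX'0 : 0 ≤ CX' := (norm_nonneg _).trans (hCX' 1 Γ.one_mem)
  set A4 : ℝ := |C4 K ‖D.X 1‖| + |C4 K' ‖D.X' 1‖| with hA4
  have hA40 : 0 ≤ A4 := by positivity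
  set A5 : ℝ := 4 * (C5 + C5') with hA5
  have hA50 : 0 ≤ A5 := by positivity
  refine ⟨2 * Real.sqrt A4 + Real.sqrt (2 * A5), by positivity, ?_⟩
  intro B₀ δ ε hB₀ hδ hε harc
  obtain ⟨Dδ, hDδ⟩ := tracking_dL C0 δ hδ
  set k : ℝ := CX + CX' + (Cu + Cu') * (1 + |Dδ|) with hk
  have hk0 : 0 ≤ k := by positivity
  set c1 : ℝ := |Cκ| + ‖D.X 1 * D.X' 1 + D.κ' 1‖ with hc1
  have hc10 : 0 ≤ c1 := by positivity
  refine ⟨c1 + k * (2 * (1 + A4) + k), ?_⟩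
  intro τ hτ J _ q g N hq hq1 hgΓ hgL hmass hF hX4
  have hτ0 : (0 : ℝ) ≤ τ := by linarith
  have hs1 : 1 ≤ Real.sqrt τ := Real.one_le_sqrt.2 hτ
  have hUc : Continuous (fun ξ : Circle => D.u (ξ • rad τ)) :=
    D.hu.comp (continuous_rot_smul.comp (continuous_id.prodMk continuous_const))
  have hUc' : Continuous (fun ξ : Circle => D.u' (ξ • rad τ)) :=
    D.hu'.comp (continuous_rot_smul.comp (continuous_id.prodMk continuous_const))
  have h4 : ∑ j, q j * ‖D.X (g j)‖ ^ 4 ≤ A4 * τ ^ 2 := by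
    refine (hX4 D.X K D.hPX hK).trans (mul_le_mul_of_nonneg_right ?_ (by positivity))
    have := le_abs_self (C4 K ‖D.X 1‖)
    have := abs_nonneg (C4 K' ‖D.X' 1‖)
    linarith
  have h4' : ∑ j, q j * ‖D.X' (g j)‖ ^ 4 ≤ A4 * τ ^ 2 := by
    refine (hX4 D.X' K' D.hPX' hK').trans (mul_le_mul_of_nonneg_right ?_ (by positivity))
    have := le_abs_self (C4 K' ‖D.X' 1‖)
    have := abs_nonneg (C4 K ‖D.X 1‖)
    linarith
  have hτ2 : (1 + τ) ^ 2 ≤ 4 * τ ^ 2 := by nlinarith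
  have m5 : ∫ ξ : Circle, ‖D.u (ξ • rad τ)‖ ^ 4 ∂lam ≤ A5 * τ ^ 2 := by
    refine (h5 (rad τ)).trans ?_
    rw [dL_rad hτ0]
    have h1 := mul_le_mul_of_nonneg_left hτ2 hC5
    have h2 : 0 ≤ C5' * τ ^ 2 := by positivity
    nlinarith
  have m5' : ∫ ξ : Circle, ‖D.u' (ξ • rad τ)‖ ^ 4 ∂lam ≤ A5 * τ ^ 2 := by
    refine (h5' (rad τ)).trans ?_
    rw [dL_rad hτ0]
    have h1 := mul_le_mul_of_nonneg_left hτ2 hC5'
    have h2 : 0 ≤ C5 * τ ^ 2 := by positivity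
    nlinarith
  have hgood : ∀ (j : J) (ξ : Circle), τ ≤ Lg (g j) →
      δ ≤ ‖(ξ : ℂ) - (((g j)⁻¹ • (0 : 𝔻) : 𝔻) : ℂ)‖ →
      ‖D.X (g j) - D.u ((g j • ξ) • rad τ)‖ ≤ k ∧ ‖D.X' (g j) - D.u' ((g j • ξ) • rad τ)‖ ≤ k := by
    intro j ξ h1 h2
    have h3 := hDδ (g j) ξ τ hτ0 h1 (hgL j) h2
    have h3' : dL (g j • (0 : 𝔻)) ((g j • ξ) • rad τ) ≤ |Dδ| := h3.trans (le_abs_self _)
    have a1 := hCX (g j) (hgΓ j)
    have a1' := hCX' (g j) (hgΓ j)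
    have a2 := hCu (g j • (0 : 𝔻)) ((g j • ξ) • rad τ)
    have a2' := hCu' (g j • (0 : 𝔻)) ((g j • ξ) • rad τ)
    have a3 : Cu * (1 + dL (g j • (0 : 𝔻)) ((g j • ξ) • rad τ)) ≤ Cu * (1 + |Dδ|) := by gcongr
    have a3' : Cu' * (1 + dL (g j • (0 : 𝔻)) ((g j • ξ) • rad τ)) ≤ Cu' * (1 + |Dδ|) := by gcongr
    have p1 : 0 ≤ Cu * (1 + |Dδ|) := by positivity
    have p2 : 0 ≤ Cu' * (1 + |Dδ|) := by positivity
    constructor
    · have := norm_add_le (D.X (g j) - D.u (g j • (0 : 𝔻)))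
        (D.u (g j • (0 : 𝔻)) - D.u ((g j • ξ) • rad τ))
      rw [sub_add_sub_cancel] at this
      linarith
    · have := norm_add_le (D.X' (g j) - D.u' (g j • (0 : 𝔻)))
        (D.u' (g j • (0 : 𝔻)) - D.u' ((g j • ξ) • rad τ))
      rw [sub_add_sub_cancel] at this
      linarith
  have core := cb_core hf hf0 hν hst (X := D.X) (X' := D.X')
    (U := fun ξ : Circle => D.u (ξ • rad τ)) (U' := fun ξ : Circle => D.u' (ξ • rad τ)) hUc hUc'
    hB₀ hε hτ hk0 harc hq hq1 hmass hF h4 h4' m5 m5' hgood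
  -- the walk side
  have hw := hF (fun x => D.X x * D.X' x + D.κ' x) D.Bμ D.hBμ
  have hw2 : D.Bμ * N = (∑ j, (q j : ℂ) * (D.X (g j) * D.X' (g j))) +
      ((∑ j, (q j : ℂ) * D.κ' (g j)) - (D.X 1 * D.X' 1 + D.κ' 1)) := by
    simp only [mul_add, Finset.sum_add_distrib] at hw ⊢
    linear_combination -hw
  have hκs : ‖∑ j, (q j : ℂ) * D.κ' (g j)‖ ≤ |Cκ| := by
    refine (norm_sum_le _ _).trans ?_
    calc ∑ j, ‖(q j : ℂ) * D.κ' (g j)‖ ≤ ∑ j, q j * |Cκ| := by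
          refine Finset.sum_le_sum fun j _ => ?_
          rw [norm_mul, Complex.norm_real, Real.norm_of_nonneg (hq j)]
          exact mul_le_mul_of_nonneg_left ((hCκ (g j) (hgΓ j)).trans (le_abs_self _)) (hq j)
      _ = |Cκ| := by rw [← Finset.sum_mul, hq1, one_mul]
  have hrest : ‖(∑ j, (q j : ℂ) * D.κ' (g j)) - (D.X 1 * D.X' 1 + D.κ' 1)‖ ≤ c1 :=
    (norm_sub_le _ _).trans (by rw [hc1]; gcongr)
  rw [hw2, add_sub_right_comm]
  refine (norm_add_le _ _).trans ?_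
  refine (add_le_add core hrest).trans ?_
  -- square roots
  have s1 : Real.sqrt (A4 * τ ^ 2) = Real.sqrt A4 * τ := by
    rw [Real.sqrt_mul hA40, Real.sqrt_sq hτ0]
  have s2 : Real.sqrt (B₀ * (A5 * τ ^ 2 + A5 * τ ^ 2)) = Real.sqrt B₀ * Real.sqrt (2 * A5) * τ := by
    have : B₀ * (A5 * τ ^ 2 + A5 * τ ^ 2) = B₀ * (2 * A5) * τ ^ 2 := by ring
    rw [this, Real.sqrt_mul (by positivity), Real.sqrt_sq hτ0, Real.sqrt_mul (by linarith)]
  rw [s1, s2]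
  have s3 : Real.sqrt B₀ ≤ Real.sqrt (1 + B₀) := Real.sqrt_le_sqrt (by linarith)
  have s4 : 1 ≤ Real.sqrt (1 + B₀) := Real.one_le_sqrt.2 (by linarith)
  set n := Real.sqrt (ν.real {ξ | B₀ < f ξ})
  set m := Real.sqrt (ε + C0 / τ ^ 2)
  set t := Real.sqrt (1 + B₀)
  set α := Real.sqrt A4
  set β := Real.sqrt (2 * A5)
  set s := Real.sqrt τ
  have hn : 0 ≤ n := Real.sqrt_nonneg _
  have hm : 0 ≤ m := Real.sqrt_nonneg _
  have hα : 0 ≤ α := Real.sqrt_nonneg _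
  have hβ : 0 ≤ β := Real.sqrt_nonneg _
  have ht : 0 ≤ t := Real.sqrt_nonneg _
  have q1 : n * (α * τ) ≤ (2 * α + β) * τ * n := by
    have h1 : 0 ≤ (α + β) * τ * n := by positivity
    have h2 : (2 * α + β) * τ * n = n * (α * τ) + (α + β) * τ * n := by ring
    linarith
  have q2 : m * (α * τ) ≤ α * τ * (t * m) := by
    have h1 : m ≤ t * m := le_mul_of_one_le_left hm s4
    have h2 := mul_le_mul_of_nonneg_left h1 (mul_nonneg hα hτ0)
    have h3 : m * (α * τ) = α * τ * m := by ring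
    linarith
  have q3 : m * (Real.sqrt B₀ * β * τ) ≤ β * τ * (t * m) := by
    have h1 : Real.sqrt B₀ * m ≤ t * m := mul_le_mul_of_nonneg_right s3 hm
    have h2 := mul_le_mul_of_nonneg_left h1 (mul_nonneg hβ hτ0)
    have h3 : m * (Real.sqrt B₀ * β * τ) = β * τ * (Real.sqrt B₀ * m) := by ring
    linarith
  have q4 : 0 ≤ α * τ * (t * m) := by positivity
  have q5 : k * (2 * ((1 + A4) * s) + k) + c1 ≤ (c1 + k * (2 * (1 + A4) + k)) * s := by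
    have h1 : 0 ≤ (s - 1) * (k * k + c1) := mul_nonneg (by linarith) (by positivity)
    have h2 : (c1 + k * (2 * (1 + A4) + k)) * s =
        k * (2 * ((1 + A4) * s) + k) + c1 + (s - 1) * (k * k + c1) := by ring
    linarith
  have q6 : (2 * α + β) * τ * (n + t * m) =
      (2 * α + β) * τ * n + 2 * (α * τ * (t * m)) + β * τ * (t * m) := by ring
  linarith

end

end Pool.Agent.Lib.MP_b16327_pr
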