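import Pool.Agent.Lib.MP_b16327_pr.CompB

/-! # Comparison theorem -/

namespace Pool.Agent.Lib.MP_b16327_pr

open Complex MeasureTheory ComplexConjugate Filter
open scoped Complex.UnitDisc Topology BoundedContinuousFunction

noncomputable section

/-- mass of the truncated density -/
private theorem CompC_mass (f : Circle → ℝ) (hf : Measurable f) (hf0 : ∀ ξ, 0 ≤ f ξ)
    (ν : Measure Circle) [IsProbabilityMeasure ν]
    (hν : ν = lam.withDensity (fun ξ => ENNReal.ofReal (f ξ))) (B : ℝ) :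
    ∫ ξ, (if f ξ ≤ B then f ξ else 0) ∂lam = 1 - ν.real {ξ | B < f ξ} := by
  have hS : MeasurableSet {ξ | f ξ ≤ B} := measurableSet_le hf measurable_const
  have h1 : (fun ξ => (if f ξ ≤ B then f ξ else 0)) = {ξ | f ξ ≤ B}.indicator f := by
    funext ξ
    simp [Set.indicator_apply]
  have h2 : {ξ | B < f ξ} = {ξ | f ξ ≤ B}ᶜ := by
    ext ξ
    simp
  have h3 : ν.real {ξ | f ξ ≤ B} = ∫ ξ in {ξ | f ξ ≤ B}, f ξ ∂lam := by
    rw [integral_eq_lintegral_of_nonneg_ae (Eventually.of_forall hf0) hf.aestronglyMeasurable,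
      measureReal_def, hν, withDensity_apply _ hS]
  have h4 : ν.real {ξ | B < f ξ} = 1 - ν.real {ξ | f ξ ≤ B} := by
    rw [h2, probReal_compl_eq_one_sub hS]
  rw [h1, integral_indicator hS, ← h3, h4]
  ring

private theorem CompC_tail (f : Circle → ℝ) (hf : Measurable f)
    (ν : Measure Circle) [IsProbabilityMeasure ν] :
    Tendsto (fun m : ℕ => ν.real {ξ | ((m : ℝ) + 1) < f ξ}) atTop (𝓝 0) := by
  have h1 : Tendsto (fun m : ℕ => ν {ξ | ((m : ℝ) + 1) < f ξ}) atTop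
      (𝓝 (ν (⋂ m : ℕ, {ξ | ((m : ℝ) + 1) < f ξ}))) := by
    apply tendsto_measure_iInter_atTop
    · intro m
      exact (measurableSet_lt measurable_const hf).nullMeasurableSet
    · intro a b hab ξ hξ
      have : (a : ℝ) ≤ b := by exact_mod_cast hab
      simp only [Set.mem_ofPred_eq] at hξ ⊢
      linarith
    · exact ⟨0, measure_ne_top _ _⟩
  have h2 : (⋂ m : ℕ, {ξ | ((m : ℝ) + 1) < f ξ}) = ∅ := by
    ext ξ
    simp only [Set.mem_iInter, Set.mem_ofPred_eq, Set.mem_empty_iff_false, iff_false, not_forall,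
      not_lt]
    obtain ⟨m, hm⟩ := exists_nat_ge (f ξ)
    exact ⟨m, by linarith⟩
  rw [h2, measure_empty] at h1
  have h3 := (ENNReal.tendsto_toReal (ENNReal.zero_ne_top)).comp h1
  simpa [measureReal_def, Function.comp_def] using h3

/-- limit form of the main estimate along a sequence -/
private theorem CompC_limit {W : Walk} {Γ : Subgroup SU11} {R : ℝ} (hR0 : 0 < R) (hR : R < 1)
    (hΓ : ∀ i, W.h i ∈ Γ) (D : PairData W Γ R)
    (f : Circle → ℝ) (hf : Measurable f) (hf0 : ∀ ξ, 0 ≤ f ξ)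
    (ν : Measure Circle) [IsProbabilityMeasure ν] (hac : ν ≪ lam)
    (hν : ν = lam.withDensity (fun ξ => ENNReal.ofReal (f ξ))) (hst : W.Stat ν)
    {C0 : ℝ} {C4 : ℝ → ℝ → ℝ} (hC0 : 1 ≤ C0)
    (τ : ℕ → ℝ) (hτ1 : ∀ k, 1 ≤ τ k) (hτ : Tendsto τ atTop atTop) (N : ℕ → ℝ) (c : ℝ)
    (hc : Tendsto (fun k => N k / τ k) atTop (𝓝 c))
    (hJ : ∀ k, ∃ (J : Type) (_ : Fintype J) (q : J → ℝ) (g : J → SU11),
        (∀ j, 0 ≤ q j) ∧ (∑ j, q j = 1) ∧ (∀ j, g j ∈ Γ) ∧ (∀ j, Lg (g j) ≤ τ k + C0) ∧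
        (∑ j, (if Lg (g j) < τ k then q j else 0) ≤ C0 / τ k ^ 2) ∧
        (∀ (F : SU11 → ℂ) (B : ℂ), (∀ x ∈ Γ, W.P F x = F x + B) →
          ∑ j, (q j : ℂ) * F (g j) = F 1 + B * N k) ∧
        (∀ (X : SU11 → ℂ) (K : ℝ), (∀ x ∈ Γ, W.P X x = X x) →
          (∀ x ∈ Γ, ∀ i, ‖X (x * W.h i) - X x‖ ≤ K) →
          ∑ j, q j * ‖X (g j)‖ ^ 4 ≤ C4 K ‖X 1‖ * τ k ^ 2)) :
    D.Bμ * c = D.Bm / ellR R := by
  obtain ⟨C, hC, hmain⟩ := main_estimate hR0 hR hΓ D f hf hf0 ν hν hst (C4 := C4) hC0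
  -- step 1 : fixed `B₀`, `ε`
  have step1 : ∀ B₀ : ℝ, 1 ≤ B₀ → ∀ ε : ℝ, 0 < ε →
      ‖D.Bμ * c - D.Bm / ellR R * (((1 - ν.real {ξ | B₀ < f ξ} : ℝ)) : ℂ)‖ ≤
        C * (Real.sqrt (ν.real {ξ | B₀ < f ξ}) + Real.sqrt (1 + B₀) * Real.sqrt ε) := by
    intro B₀ hB₀ ε hε
    obtain ⟨δ, hδ, -, hδε⟩ := small_arcs ν hac hε
    obtain ⟨Cδ, hCδ⟩ := hmain B₀ δ ε hB₀ hδ hε.le hδε
    set φ : Circle → ℝ := fun ξ => (if f ξ ≤ B₀ then f ξ else 0) with hφ
    have hφm : Measurable φ := by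
      apply Measurable.ite (measurableSet_le hf measurable_const) hf measurable_const
    have hφb : ∀ ξ, |φ ξ| ≤ B₀ := by
      intro ξ
      simp only [hφ]
      split_ifs with h
      · rw [abs_of_nonneg (hf0 ξ)]; exact h
      · rw [abs_zero]; linarith
    have hcirc := circle_asymptotics hR0 hR D.hu D.hu' D.hκ D.hL D.hL' D.hκb D.hM D.hM' D.hBm φ hφm hφb
    have hmass : ∫ ξ, φ ξ ∂lam = 1 - ν.real {ξ | B₀ < f ξ} :=
      CompC_mass f hf hf0 ν hν B₀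
    rw [hmass] at hcirc
    have hcirc' := hcirc.comp hτ
    -- left hand side
    have hL : Tendsto (fun k => ‖D.Bμ * ((N k / τ k : ℝ) : ℂ) - (((τ k : ℝ) : ℂ)⁻¹ *
        ∫ ξ : Circle, D.u (ξ • rad (τ k)) * D.u' (ξ • rad (τ k)) * (φ ξ : ℂ) ∂lam)‖) atTop
        (𝓝 ‖D.Bμ * c - D.Bm / ellR R * (((1 - ν.real {ξ | B₀ < f ξ} : ℝ)) : ℂ)‖) := by
      apply Tendsto.norm
      apply Tendsto.sub
      · apply Tendsto.const_mul
        exact (Complex.continuous_ofReal.tendsto c).comp hc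
      · exact hcirc'
    have hRt : Tendsto (fun k => Cδ * (Real.sqrt (τ k))⁻¹ + C * (Real.sqrt (ν.real {ξ | B₀ < f ξ}) +
            Real.sqrt (1 + B₀) * Real.sqrt (ε + C0 / τ k ^ 2))) atTop
        (𝓝 (Cδ * 0 + C * (Real.sqrt (ν.real {ξ | B₀ < f ξ}) +
            Real.sqrt (1 + B₀) * Real.sqrt (ε + 0)))) := by
      have hs : Tendsto (fun k => (Real.sqrt (τ k))⁻¹) atTop (𝓝 0) :=
        tendsto_inv_atTop_zero.comp (Real.tendsto_sqrt_atTop.comp hτ)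
      have hs2 : Tendsto (fun k => C0 / τ k ^ 2) atTop (𝓝 0) := by
        apply Tendsto.const_div_atTop
        exact (tendsto_pow_atTop two_ne_zero).comp hτ
      have hs3 : Tendsto (fun k => Real.sqrt (ε + C0 / τ k ^ 2)) atTop (𝓝 (Real.sqrt (ε + 0))) :=
        (Real.continuous_sqrt.tendsto _).comp (tendsto_const_nhds.add hs2)
      exact (hs.const_mul _).add (((hs3.const_mul _).const_add _).const_mul _)
    have hle : ∀ k, ‖D.Bμ * ((N k / τ k : ℝ) : ℂ) - (((τ k : ℝ) : ℂ)⁻¹ *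
        ∫ ξ : Circle, D.u (ξ • rad (τ k)) * D.u' (ξ • rad (τ k)) * (φ ξ : ℂ) ∂lam)‖ ≤
        Cδ * (Real.sqrt (τ k))⁻¹ + C * (Real.sqrt (ν.real {ξ | B₀ < f ξ}) +
            Real.sqrt (1 + B₀) * Real.sqrt (ε + C0 / τ k ^ 2)) := by
      intro k
      obtain ⟨J, hJf, q, g, h1, h2, h3, h4, h5, h6, h7⟩ := hJ k
      have hτ0 : 0 < τ k := lt_of_lt_of_le one_pos (hτ1 k)
      have hm := hCδ (τ k) (hτ1 k) J hJf q g (N k) h1 h2 h3 h4 h5 h6 h7
      have e1 : D.Bμ * ((N k / τ k : ℝ) : ℂ) - (((τ k : ℝ) : ℂ)⁻¹ *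
          ∫ ξ : Circle, D.u (ξ • rad (τ k)) * D.u' (ξ • rad (τ k)) * (φ ξ : ℂ) ∂lam) =
          ((τ k : ℝ) : ℂ)⁻¹ * (D.Bμ * N k - ∫ ξ : Circle, D.u (ξ • rad (τ k)) *
            D.u' (ξ • rad (τ k)) * (φ ξ : ℂ) ∂lam) := by
        push_cast
        ring
      rw [e1, norm_mul, norm_inv, Complex.norm_real, Real.norm_of_nonneg hτ0.le]
      have e2 : Cδ * (Real.sqrt (τ k))⁻¹ + C * (Real.sqrt (ν.real {ξ | B₀ < f ξ}) +
            Real.sqrt (1 + B₀) * Real.sqrt (ε + C0 / τ k ^ 2)) =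
          (τ k)⁻¹ * (Cδ * Real.sqrt (τ k) + C * τ k * (Real.sqrt (ν.real {ξ | B₀ < f ξ}) +
            Real.sqrt (1 + B₀) * Real.sqrt (ε + C0 / τ k ^ 2))) := by
        have hsq : Real.sqrt (τ k) * Real.sqrt (τ k) = τ k := Real.mul_self_sqrt hτ0.le
        have hs0 : Real.sqrt (τ k) ≠ 0 := (Real.sqrt_pos.2 hτ0).ne'
        have e3 : (Real.sqrt (τ k))⁻¹ = (τ k)⁻¹ * Real.sqrt (τ k) := by
          rw [eq_comm, inv_mul_eq_div, div_eq_iff hτ0.ne']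
          nth_rewrite 3 [← hsq]
          field_simp
        rw [e3]
        field_simp
      rw [e2]
      exact mul_le_mul_of_nonneg_left hm (inv_nonneg.2 hτ0.le)
    have hfin := le_of_tendsto_of_tendsto' hL hRt hle
    simpa using hfin
  -- step 2 : `ε → 0`
  have step2 : ∀ B₀ : ℝ, 1 ≤ B₀ →
      ‖D.Bμ * c - D.Bm / ellR R * (((1 - ν.real {ξ | B₀ < f ξ} : ℝ)) : ℂ)‖ ≤
        C * Real.sqrt (ν.real {ξ | B₀ < f ξ}) := by
    intro B₀ hB₀
    have ht : Tendsto (fun ε : ℝ => C * (Real.sqrt (ν.real {ξ | B₀ < f ξ}) +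
        Real.sqrt (1 + B₀) * Real.sqrt ε)) (𝓝[>] 0) (𝓝 (C * (Real.sqrt (ν.real {ξ | B₀ < f ξ}) +
        Real.sqrt (1 + B₀) * Real.sqrt 0))) := by
      apply Tendsto.mono_left _ nhdsWithin_le_nhds
      apply Continuous.tendsto
      fun_prop
    have := ge_of_tendsto ht (by
      filter_upwards [self_mem_nhdsWithin] with ε hε
      exact step1 B₀ hB₀ ε hε)
    simpa using this
  -- step 3 : `B₀ → ∞`
  have ht := CompC_tail f hf ν
  have hL : Tendsto (fun m : ℕ => ‖D.Bμ * c - D.Bm / ellR R *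
      (((1 - ν.real {ξ | ((m : ℝ) + 1) < f ξ} : ℝ)) : ℂ)‖) atTop
      (𝓝 ‖D.Bμ * c - D.Bm / ellR R * (((1 - 0 : ℝ)) : ℂ)‖) := by
    apply Tendsto.norm
    apply Tendsto.sub tendsto_const_nhds
    apply Tendsto.const_mul
    exact (Complex.continuous_ofReal.tendsto _).comp (tendsto_const_nhds.sub ht)
  have hRt : Tendsto (fun m : ℕ => C * Real.sqrt (ν.real {ξ | ((m : ℝ) + 1) < f ξ})) atTop
      (𝓝 (C * Real.sqrt 0)) :=
    ((Real.continuous_sqrt.tendsto _).comp ht).const_mul _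
  have hfin := le_of_tendsto_of_tendsto' hL hRt (fun m => step2 _ (by
    have : (0 : ℝ) ≤ m := Nat.cast_nonneg m
    linarith))
  rw [Real.sqrt_zero, mul_zero] at hfin
  have h0 := norm_le_zero_iff.1 hfin
  rw [sub_zero, Complex.ofReal_one, mul_one] at h0
  exact sub_eq_zero.1 h0

/-- THE COMPARISON THEOREM: the ratio `Bμ / Bm` is the same for all pairs -/
theorem comparison (W : Walk) {Γ : Subgroup SU11}
    (hΓ : Γ = Subgroup.closure (W.h '' {i | 0 < W.p i})) (hΓ' : ∀ i, W.h i ∈ Γ)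
    (hunb : ∀ C : ℝ, ∃ g ∈ Γ, C ≤ Lg g)
    (ν : Measure Circle) [IsProbabilityMeasure ν] (hν : ν ≪ lam) (hst : W.Stat ν)
    {R : ℝ} (hR0 : 0 < R) (hR : R < 1) :
    ∃ K : ℝ, 0 < K ∧ ∀ D : PairData W Γ R, D.Bμ = K * D.Bm := by
  classical
  obtain ⟨n, hn0, hn⟩ := W.exists_drift hΓ hunb ν hν hst
  have hΓW : ∀ i, (W.pow n).h i ∈ Γ := W.pow_mem hΓ' n
  have hstW : (W.pow n).Stat ν := hst.pow n
  obtain ⟨R', hR'⟩ : ∃ R' : ℝ, ∀ i, Lg ((W.pow n).h i) + Real.log 4 ≤ R' := by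
    obtain ⟨R', hR'⟩ := (Set.finite_range (fun i => Lg ((W.pow n).h i) + Real.log 4)).bddAbove
    exact ⟨R', fun i => hR' ⟨i, rfl⟩⟩
  obtain ⟨C, C4, hC1, hstop⟩ := (W.pow n).stopped R' hR' hn Γ hΓW
  have hC0 : 0 < C := lt_of_lt_of_le one_pos hC1
  -- the density
  set f : Circle → ℝ := fun ξ => (ν.rnDeriv lam ξ).toReal with hf_def
  have hf : Measurable f := (Measure.measurable_rnDeriv ν lam).ennreal_toReal
  have hf0 : ∀ ξ, 0 ≤ f ξ := fun ξ => ENNReal.toReal_nonneg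
  have hνf : ν = lam.withDensity (fun ξ => ENNReal.ofReal (f ξ)) := by
    have h1 := Measure.withDensity_rnDeriv_eq ν lam hν
    conv_lhs => rw [← h1]
    apply withDensity_congr_ae
    filter_upwards [Measure.rnDeriv_lt_top ν lam] with ξ hξ
    rw [hf_def]
    exact (ENNReal.ofReal_toReal hξ.ne).symm
  -- the stopping data
  choose J hJf q g N h1 h2 h3 h4 h5 h6 h7 h8 h9 using
    fun k : ℕ => hstop ((k : ℝ) + 1) (by
      have : (0 : ℝ) ≤ k := Nat.cast_nonneg k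
      linarith)
  have hτpos : ∀ k : ℕ, (0 : ℝ) < (k : ℝ) + 1 := fun k => by
    have : (0 : ℝ) ≤ k := Nat.cast_nonneg k
    linarith
  have hmem : ∀ k, N k / ((k : ℝ) + 1) ∈ Set.Icc (1 / C) C := by
    intro k
    constructor
    · rw [le_div_iff₀ (hτpos k)]
      have := h5 k
      calc 1 / C * ((k : ℝ) + 1) = ((k : ℝ) + 1) / C := by ring
        _ ≤ N k := this
    · rw [div_le_iff₀ (hτpos k)]
      exact h6 k
  obtain ⟨c, hc, ψ, hψ, hlim⟩ := isCompact_Icc.tendsto_subseq hmem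
  have hcpos : 0 < c := lt_of_lt_of_le (by positivity) hc.1
  have hell := ellR_pos hR0 hR
  have hnR : (0 : ℝ) < n := by exact_mod_cast hn0
  have hτlim : Tendsto (fun k : ℕ => ((ψ k : ℕ) : ℝ) + 1) atTop atTop := by
    apply tendsto_atTop_add_const_right
    exact tendsto_natCast_atTop_atTop.comp hψ.tendsto_atTop
  refine ⟨1 / (n * c * ellR R), by positivity, fun D => ?_⟩
  obtain ⟨D', hD1, hD2⟩ := D.exists_pow hΓ' n
  have key := CompC_limit hR0 hR hΓW D' f hf hf0 ν hν hνf hstW (C4 := C4) hC1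
    (fun k => ((ψ k : ℕ) : ℝ) + 1) (fun k => by
      have : (0 : ℝ) ≤ ((ψ k : ℕ) : ℝ) := Nat.cast_nonneg _
      linarith) hτlim (fun k => N (ψ k)) c hlim
    (fun k => ⟨J (ψ k), hJf (ψ k), q (ψ k), g (ψ k), h1 (ψ k), h2 (ψ k), h3 (ψ k), h4 (ψ k),
      h7 (ψ k), h8 (ψ k), h9 (ψ k)⟩)
  rw [hD1, hD2] at key
  have hn' : (n : ℂ) ≠ 0 := by exact_mod_cast hn0.ne'
  have hc' : (c : ℂ) ≠ 0 := by exact_mod_cast hcpos.ne'
  have hl' : (ellR R : ℂ) ≠ 0 := by exact_mod_cast hell.ne'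
  have e1 : D.Bμ = (n * D.Bμ * c) / (n * c) := by
    field_simp
  rw [e1, key]
  push_cast
  field_simp

end

end Pool.Agent.Lib.MP_b16327_pr
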