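import Pool.Agent.Lib.MP_b16327_pr.HypB

/-! # Cocycle functions -/

namespace Pool.Agent.Lib.MP_b16327_pr

open Complex MeasureTheory ComplexConjugate Filter
open scoped Complex.UnitDisc Topology BoundedContinuousFunction

noncomputable section

namespace HypD

variable {Γ : Subgroup SU11} (H : HypD Γ)

/-- the set of cosets of `⟨a⟩` -/
abbrev Q : Type := Γ ⧸ Subgroup.zpowers H.a

/-- the term of the relative Poincaré series -/
def term (l : Γ → ℂ) (q : H.Q) (z : 𝔻) : ℂ :=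
  l q.out * ((H.s (((q.out : Γ) : SU11)⁻¹ • z) : ℂ) - (H.s (((q.out : Γ) : SU11)⁻¹ • (0 : 𝔻)) : ℂ))

/-- the cocycle function `b_a(z) = ∑_{δ ∈ Γ/⟨a⟩} λ(δ) (s(δ⁻¹ z) - s(δ⁻¹ 0))` -/
def bco (l : Γ → ℂ) (z : 𝔻) : ℂ := ∑ᶠ q : H.Q, H.term l q z

/-- multiplicative functions with `λ(a) = 1` -/
structure Adm (l : Γ → ℂ) : Prop where
  one : l 1 = 1
  mul : ∀ γ δ : Γ, l (γ * δ) = l γ * l δ
  a : l H.a = 1

variable {H} in
private theorem HypC_zpow {l : Γ → ℂ} (hl : H.Adm l) (n : ℤ) : l (H.a ^ n) = 1 := by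
  have hnat : ∀ k : ℕ, l (H.a ^ k) = 1 := by
    intro k
    induction k with
    | zero => rw [pow_zero, hl.one]
    | succ k ih => rw [pow_succ, hl.mul, ih, hl.a, one_mul]
  obtain ⟨k, rfl | rfl⟩ := n.eq_nat_or_neg
  · rw [zpow_natCast]
    exact hnat k
  · have h1 : l (H.a ^ (-(k : ℤ)) * H.a ^ k) = 1 := by
      rw [zpow_neg, zpow_natCast, inv_mul_cancel, hl.one]
    rw [hl.mul, hnat k, mul_one] at h1
    exact h1

/-- the function `s ∘ δ⁻¹` depends only on the coset -/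
private theorem HypC_s (δ : Γ) (n : ℤ) (z : 𝔻) :
    H.s ((((δ * H.a ^ n : Γ) : SU11))⁻¹ • z) = H.s (((δ : SU11))⁻¹ • z) := by
  have h1 : (((δ * H.a ^ n : Γ) : SU11))⁻¹ = ((H.a : SU11)) ^ (-n) * ((δ : SU11))⁻¹ := by
    rw [Subgroup.coe_mul, mul_inv_rev, Subgroup.coe_zpow, zpow_neg]
  rw [h1, mul_smul, H.s_zpow]

/-- the term computed with any representative of the coset -/
private theorem HypC_term {l : Γ → ℂ} (hl : H.Adm l) (δ : Γ) (z : 𝔻) :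
    H.term l (δ : H.Q) z =
      l δ * ((H.s (((δ : SU11))⁻¹ • z) : ℂ) - (H.s (((δ : SU11))⁻¹ • (0 : 𝔻)) : ℂ)) := by
  obtain ⟨h, hh⟩ := QuotientGroup.mk_out_eq_mul (Subgroup.zpowers H.a) δ
  obtain ⟨n, hn⟩ := Subgroup.mem_zpowers_iff.1 h.2
  have hout : ((δ : H.Q).out : Γ) = δ * H.a ^ n := by rw [hn]; exact hh
  unfold term
  rw [hout, HypC_s, HypC_s, hl.mul, HypC_zpow hl, mul_one]

/-- the finite set of representatives, with the support statement -/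
private theorem HypC_support (hd : IsDisc Γ) {r : ℝ} (hr : r < 1) :
    ∃ F : Finset Γ, (∀ δ ∈ F, ∀ δ' ∈ F, (δ : H.Q) = (δ' : H.Q) → δ = δ') ∧
      ∀ l : Γ → ℂ, H.Adm l → ∀ z : 𝔻, ‖(z : ℂ)‖ ≤ r → ∀ q : H.Q, H.term l q z ≠ 0 →
        ∃ δ ∈ F, (δ : H.Q) = q := by
  obtain ⟨F, hF1, hF2⟩ := H.finite_cosets hd hr
  refine ⟨F, ?_, ?_⟩
  · intro δ hδ δ' hδ' h
    exact hF1 δ hδ δ' hδ' (QuotientGroup.eq.1 h)
  · intro l hl z hz q hq
    obtain ⟨δ, rfl⟩ := QuotientGroup.mk_surjective q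
    rw [H.HypC_term hl] at hq
    have hne : H.s (((δ : SU11))⁻¹ • z) ≠ H.s (((δ : SU11))⁻¹ • (0 : 𝔻)) := by
      intro h
      apply hq
      rw [h, sub_self, mul_zero]
    have h0 : ‖((0 : 𝔻) : ℂ)‖ ≤ r := by
      have : (0 : ℝ) ≤ r := (norm_nonneg _).trans hz
      simpa using this
    obtain ⟨δ', hδ', h⟩ := hF2 δ ⟨z, 0, hz, h0, hne⟩
    refine ⟨δ', hδ', ?_⟩
    exact (QuotientGroup.eq.2 h).symm

/-- finite formula, uniform in `λ` -/
theorem bco_finite (hd : IsDisc Γ) {r : ℝ} (hr : r < 1) :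
    ∃ F : Finset Γ, ∀ l : Γ → ℂ, H.Adm l → ∀ z : 𝔻, ‖(z : ℂ)‖ ≤ r → H.bco l z =
      ∑ δ ∈ F, l δ * ((H.s (((δ : SU11))⁻¹ • z) : ℂ) - (H.s (((δ : SU11))⁻¹ • (0 : 𝔻)) : ℂ)) := by
  classical
  obtain ⟨F, hF1, hF2⟩ := H.HypC_support hd hr
  refine ⟨F, ?_⟩
  intro l hl z hz
  unfold bco
  rw [finsum_eq_sum_of_support_subset (s := F.image (fun δ : Γ => (δ : H.Q)))]
  · rw [Finset.sum_image (fun δ hδ δ' hδ' h => hF1 δ hδ δ' hδ' h)]
    exact Finset.sum_congr rfl fun δ _ => H.HypC_term hl δ z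
  · intro q hq
    rw [Function.mem_support] at hq
    obtain ⟨δ, hδ, h⟩ := hF2 l hl z hz q hq
    rw [Finset.coe_image]
    exact ⟨δ, hδ, h⟩

private theorem HypC_fin (hd : IsDisc Γ) {l : Γ → ℂ} (hl : H.Adm l) (z : 𝔻) :
    (Function.support (fun q : H.Q => H.term l q z)).Finite := by
  classical
  obtain ⟨F, hF1, hF2⟩ := H.HypC_support hd z.norm_lt_one
  refine (F.image (fun δ : Γ => (δ : H.Q))).finite_toSet.subset ?_
  intro q hq
  rw [Function.mem_support] at hq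
  obtain ⟨δ, hδ, h⟩ := hF2 l hl z le_rfl q hq
  rw [Finset.coe_image]
  exact ⟨δ, hδ, h⟩

private theorem HypC_cont (δ : Γ) : Continuous fun z : 𝔻 => H.s (((δ : SU11))⁻¹ • z) :=
  H.continuous_s.comp (continuous_smul_disc _)

theorem bco_zero (l : Γ → ℂ) : H.bco l 0 = 0 := by
  unfold bco term
  simp

theorem continuous_bco (hd : IsDisc Γ) {l : Γ → ℂ} (hl : H.Adm l) : Continuous (H.bco l) := by
  rw [continuous_iff_continuousAt]
  intro z0
  have h1 : ‖(z0 : ℂ)‖ < 1 := z0.norm_lt_one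
  obtain ⟨F, hF⟩ := H.bco_finite hd (r := (‖(z0 : ℂ)‖ + 1) / 2) (by linarith)
  have hev : (fun z : 𝔻 => ∑ δ ∈ F, l δ * ((H.s (((δ : SU11))⁻¹ • z) : ℂ) -
      (H.s (((δ : SU11))⁻¹ • (0 : 𝔻)) : ℂ))) =ᶠ[𝓝 z0] H.bco l := by
    have hc : Continuous fun z : 𝔻 => ‖(z : ℂ)‖ := by fun_prop
    have hlt : ‖(z0 : ℂ)‖ < (‖(z0 : ℂ)‖ + 1) / 2 := by linarith
    filter_upwards [hc.continuousAt.eventually_lt continuousAt_const hlt] with z hz
    exact (hF l hl z hz.le).symm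
  refine ContinuousAt.congr ?_ hev
  apply Continuous.continuousAt
  apply continuous_finsetSum
  intro δ _
  have := H.HypC_cont δ
  fun_prop

/-- cocycle property -/
theorem bco_smul (hd : IsDisc Γ) {l : Γ → ℂ} (hl : H.Adm l) (γ : Γ) (z : 𝔻) :
    H.bco l ((γ : SU11) • z) = l γ * H.bco l z + H.bco l ((γ : SU11) • (0 : 𝔻)) := by
  rw [← sub_eq_iff_eq_add]
  unfold bco
  rw [← finsum_sub_distrib (H.HypC_fin hd hl _) (H.HypC_fin hd hl _), ← smul_eq_mul (l γ),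
    smul_finsum' _ (H.HypC_fin hd hl _)]
  rw [← finsum_comp_equiv (MulAction.toPerm γ : Equiv.Perm H.Q)]
  apply finsum_congr
  intro q
  obtain ⟨δ, rfl⟩ := QuotientGroup.mk_surjective q
  have hq : (MulAction.toPerm γ : Equiv.Perm H.Q) (δ : H.Q) = ((γ * δ : Γ) : H.Q) := rfl
  have hinv : ∀ w : 𝔻, (((γ * δ : Γ) : SU11))⁻¹ • ((γ : SU11) • w) = ((δ : SU11))⁻¹ • w := by
    intro w
    rw [Subgroup.coe_mul, mul_inv_rev, mul_smul, inv_smul_smul]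
  rw [hq]
  change H.term l ((γ * δ : Γ) : H.Q) ((γ : SU11) • z) -
    H.term l ((γ * δ : Γ) : H.Q) ((γ : SU11) • (0 : 𝔻)) = l γ • H.term l (δ : H.Q) z
  rw [H.HypC_term hl, H.HypC_term hl, H.HypC_term hl, hinv, hinv, hl.mul, smul_eq_mul]
  ring

/-- the average only depends on the values on the ball -/
private theorem HypC_Mop_congr (R : ℝ) {u v : 𝔻 → ℂ} {z : 𝔻} (h : ∀ w : 𝔻, pd z w < R → u w = v w) :
    Mop R u z = Mop R v z := by
  unfold Mop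
  rw [AvF_kernel, AvF_kernel]
  congr 1
  apply setIntegral_congr_fun
  · apply IsOpen.measurableSet
    exact isOpen_lt (continuous_pd.comp (by fun_prop : Continuous fun w : 𝔻 => (z, w))) continuous_const
  · intro w hw
    exact h w hw

private theorem HypC_Mop_sum {R : ℝ} (hR0 : 0 < R) (hR : R < 1) (F : Finset Γ) (f : Γ → 𝔻 → ℂ)
    (hf : ∀ δ, Continuous (f δ)) (z : 𝔻) :
    Mop R (fun w => ∑ δ ∈ F, f δ w) z = ∑ δ ∈ F, Mop R (f δ) z := by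
  classical
  induction F using Finset.induction_on with
  | empty =>
    simp only [Finset.sum_empty]
    exact Mop_const hR0 hR (0 : ℂ) z
  | insert δ F hδ ih =>
    simp only [Finset.sum_insert hδ]
    rw [Mop_add hR (hf δ) (continuous_finsetSum _ fun δ _ => hf δ), ih]

/-- `M b_a - b_a = ∑_δ λ(δ) (M s - s)(δ⁻¹ z)`, finite formula on `‖z‖ ≤ r` -/
theorem mbco_finite (hd : IsDisc Γ) {R : ℝ} (hR0 : 0 < R) (hR : R < 1) {r : ℝ} (hr : r < 1) :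
    ∃ F : Finset Γ, ∀ l : Γ → ℂ, H.Adm l → ∀ z : 𝔻, ‖(z : ℂ)‖ ≤ r →
      Mop R (H.bco l) z - H.bco l z =
      ∑ δ ∈ F, l δ * ((Mop R H.s (((δ : SU11))⁻¹ • z) - H.s (((δ : SU11))⁻¹ • z) : ℝ) : ℂ) := by
  obtain ⟨r', hr', hr'2⟩ := norm_le_of_pd_lt hr hR
  obtain ⟨F, hF⟩ := H.bco_finite hd (r := max r r') (max_lt hr hr')
  refine ⟨F, ?_⟩
  intro l hl z hz
  have h1 : Mop R (H.bco l) z = Mop R (fun w => ∑ δ ∈ F, l δ * ((H.s (((δ : SU11))⁻¹ • w) : ℂ) -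
      (H.s (((δ : SU11))⁻¹ • (0 : 𝔻)) : ℂ))) z := by
    apply HypC_Mop_congr
    intro w hw
    exact hF l hl w ((hr'2 z w hz hw).trans (le_max_right _ _))
  have hc : ∀ δ : Γ, Continuous fun w : 𝔻 => (H.s (((δ : SU11))⁻¹ • w) : ℂ) := by
    intro δ
    have := H.HypC_cont δ
    fun_prop
  rw [h1, HypC_Mop_sum hR0 hR F (fun δ w => l δ * ((H.s (((δ : SU11))⁻¹ • w) : ℂ) -
      (H.s (((δ : SU11))⁻¹ • (0 : 𝔻)) : ℂ))) (by
        intro δ
        have := hc δ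
        fun_prop), hF l hl z (hz.trans (le_max_left _ _)), ← Finset.sum_sub_distrib]
  apply Finset.sum_congr rfl
  intro δ _
  rw [Mop_mul_left, Mop_sub hR (hc δ) continuous_const, Mop_const hR0 hR,
    Mop_ofReal R (fun w => H.s (((δ : SU11))⁻¹ • w)), ← Mop_smul R H.s (((δ : SU11))⁻¹) z]
  push_cast
  ring

end HypD

end

end Pool.Agent.Lib.MP_b16327_pr
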