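import Pool.Agent.Lib.MP_b16327_pr.FluxB
import Pool.Agent.Lib.MP_b16327_pr.HypC

/-! # The flux formula -/

namespace Pool.Agent.Lib.MP_b16327_pr

open Complex MeasureTheory ComplexConjugate Filter
open scoped Complex.UnitDisc Topology BoundedContinuousFunction

noncomputable section

private theorem fluxC_second : SecondCountableTopology 𝔻 :=
  UnitDisc.isEmbedding_coe.secondCountableTopology

private theorem fluxC_t2 : T2Space 𝔻 := UnitDisc.isEmbedding_coe.t2Space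

attribute [local instance] fluxC_second fluxC_t2

private theorem fluxC_s0 : Continuous s0 := by
  unfold s0
  exact continuous_const.max (continuous_const.min continuous_yc)

private theorem fluxC_psi0_bd (T : ℝ) (z : 𝔻) : 0 ≤ psi0 T z ∧ psi0 T z ≤ 1 := by
  unfold psi0; split_ifs <;> norm_num

private theorem fluxC_psi0_supp {T : ℝ} {z : 𝔻} (h : psi0 T z ≠ 0) : |xc z| ≤ T := by
  unfold psi0 at h
  rw [Ne, ite_eq_right_iff, not_forall] at h
  obtain ⟨⟨h1, h2⟩, -⟩ := h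
  rw [abs_of_nonneg h1]; exact h2.le

private theorem fluxC_f0_supp {R : ℝ} (hR0 : 0 < R) (hR : R < 1) {z : 𝔻} (h : f0 R z ≠ 0) :
    ∃ w : 𝔻, pd z w < R ∧ s0 w ≠ s0 z := by
  by_contra hcon
  push Not at hcon
  apply h
  have := norm_Mop_sub_le hR0 hR fluxC_s0 (z := z) (C := 0) (fun w hw => by
    rw [hcon w hw, sub_self, norm_zero])
  exact norm_le_zero_iff.1 this

private theorem fluxC_supp {R : ℝ} (hR0 : 0 < R) (hR : R < 1) (T : ℝ) : ∃ r : ℝ, r < 1 ∧
    ∀ z : 𝔻, psi0 T z ≠ 0 → f0 R z ≠ 0 → ‖(z : ℂ)‖ ≤ r := by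
  obtain ⟨r, hr, h1⟩ := f0_support hR0 hR T
  exact ⟨r, hr, fun z h2 h3 => h1 z (fluxC_f0_supp hR0 hR h3) (fluxC_psi0_supp h2)⟩

private theorem fluxC_int {R : ℝ} (hR0 : 0 < R) (hR : R < 1) (T : ℝ) {H : 𝔻 → ℂ}
    (hH : Continuous H) :
    Integrable (fun z : 𝔻 => (psi0 T z : ℂ) * ((f0 R z : ℂ) * H z)) area := by
  obtain ⟨r, hr, h1⟩ := fluxC_supp hR0 hR T
  have hKc := isCompact_closedBallD hr
  have hf : Continuous (f0 R) := continuous_f0 hR
  have hcont : Continuous (fun p : 𝔻 => (f0 R p : ℂ) * H p) := by fun_prop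
  obtain ⟨C, hC⟩ := hKc.exists_bound_of_continuousOn hcont.continuousOn
  have hmeas : Measurable (fun p : 𝔻 => (psi0 T p : ℂ) * ((f0 R p : ℂ) * H p)) :=
    (Complex.measurable_ofReal.comp (psi0_measurable T)).mul hcont.measurable
  have hsupp : Function.support (fun p : 𝔻 => (psi0 T p : ℂ) * ((f0 R p : ℂ) * H p)) ⊆
      {z : 𝔻 | ‖(z : ℂ)‖ ≤ r} := by
    intro p hp
    rw [Function.mem_support] at hp
    exact h1 p (fun h0 => hp (by rw [h0]; simp)) (fun h0 => hp (by rw [h0]; simp))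
  rw [← integrableOn_iff_integrable_of_support_subset hsupp]
  apply Measure.integrableOn_of_bounded (M := C) hKc.measure_lt_top.ne hmeas.aestronglyMeasurable
  rw [ae_restrict_iff' hKc.measurableSet]
  apply Eventually.of_forall
  intro p hp
  have hb := fluxC_psi0_bd T p
  have hc := hC p hp
  rw [norm_mul, Complex.norm_real, Real.norm_eq_abs, abs_of_nonneg hb.1]
  calc psi0 T p * _ ≤ 1 * C := mul_le_mul hb.2 hc (norm_nonneg _) zero_le_one
    _ = C := one_mul C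

/-- `M s - s = f0 ∘ g⁻¹` -/
private theorem fluxC_ms {Γ : Subgroup SU11} (H : HypD Γ) (R : ℝ) (z : 𝔻) :
    Mop R H.s z - H.s z = f0 R (H.g⁻¹ • z) := by
  unfold f0
  rw [Mop_smul]
  rfl

private theorem fluxC_int' {Γ : Subgroup SU11} (H : HypD Γ) {R : ℝ} (hR0 : 0 < R) (hR : R < 1)
    {Φ : 𝔻 → ℂ} (hΦ : Continuous Φ) :
    Integrable (fun z => (psi0 H.T (H.g⁻¹ • z) : ℂ) * (((Mop R H.s z - H.s z : ℝ) : ℂ) * Φ z))
      area := by
  have h1 := fluxC_int hR0 hR H.T (hΦ.comp (continuous_smul_disc H.g))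
  have h2 := (measurePreserving_smul H.g⁻¹).integrable_comp_of_integrable h1
  refine h2.congr (Eventually.of_forall (fun z => ?_))
  simp only [Function.comp_apply, smul_inv_smul]
  rw [fluxC_ms]

/-- powers of `a` -/
private theorem fluxC_pow {Γ : Subgroup SU11} (H : HypD Γ) (n : ℤ) (z : 𝔻) :
    (((H.a ^ n : Γ)) : SU11) • z = H.g • (((At H.T) ^ n : SU11) • (H.g⁻¹ • z)) := by
  have h1 : ∀ z : 𝔻, ((H.a : Γ) : SU11) • z = H.g • (At H.T • (H.g⁻¹ • z)) := by
    intro z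
    rw [H.eq, mul_smul, mul_smul]
  have h2 : ∀ z : 𝔻, ((H.a : Γ) : SU11)⁻¹ • z = H.g • ((At H.T)⁻¹ • (H.g⁻¹ • z)) := by
    intro z
    rw [inv_smul_eq_iff, h1, inv_smul_smul, smul_inv_smul, smul_inv_smul]
  induction n using Int.induction_on generalizing z with
  | zero => simp
  | succ n ih =>
    rw [zpow_add_one, zpow_add_one, Subgroup.coe_mul, mul_smul, ih, h1, inv_smul_smul, mul_smul]
  | pred n ih =>
    rw [zpow_sub_one, zpow_sub_one, Subgroup.coe_mul, mul_smul, ih, Subgroup.coe_inv, h2,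
      inv_smul_smul, mul_smul]

private theorem fluxC_At_zpow (T : ℝ) (n : ℤ) : (At T) ^ n = At (n * T) := by
  let f : Multiplicative ℝ →* SU11 :=
    { toFun := fun t => At (Multiplicative.toAdd t)
      map_one' := by simpa using At_zero
      map_mul' := fun s t => by simpa using At_add _ _ }
  have h := map_zpow f (Multiplicative.ofAdd T) n
  have h2 : f (Multiplicative.ofAdd T ^ n) = At (n * T) := by
    show At (Multiplicative.toAdd (Multiplicative.ofAdd T ^ n)) = _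
    rw [toAdd_zpow, toAdd_ofAdd, zsmul_eq_mul]
  have h3 : f (Multiplicative.ofAdd T) = At T := rfl
  rw [h3] at h
  rw [← h, h2]

/-- the partition of unity `psi0 ∘ g⁻¹` for `⟨a⟩` -/
private theorem fluxC_sum {Γ : Subgroup SU11} (H : HypD Γ) (z : 𝔻) :
    HasSum (fun l : Subgroup.zpowers H.a => psi0 H.T (H.g⁻¹ • (l • z))) 1 := by
  have hT := H.T_pos
  have key : ∀ n : ℤ, (0 ≤ xc (H.g⁻¹ • z) + n * H.T ∧ xc (H.g⁻¹ • z) + n * H.T < H.T) ↔
      n = -⌊(xc (H.g⁻¹ • z)) / H.T⌋ := by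
    intro n
    constructor
    · rintro ⟨h1, h2⟩
      have : ⌊(xc (H.g⁻¹ • z)) / H.T⌋ = -n := by
        rw [Int.floor_eq_iff]
        push_cast
        constructor
        · rw [le_div_iff₀ hT]; linarith
        · rw [div_lt_iff₀ hT]; linarith
      omega
    · intro hn
      have h3 := Int.floor_le ((xc (H.g⁻¹ • z)) / H.T)
      have h4 := Int.lt_floor_add_one ((xc (H.g⁻¹ • z)) / H.T)
      rw [le_div_iff₀ hT] at h3
      rw [div_lt_iff₀ hT] at h4
      subst hn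
      push_cast
      constructor <;> linarith
  have hval : ∀ n : ℤ, psi0 H.T (H.g⁻¹ • ((((H.a ^ n : Γ)) : SU11) • z)) =
      if n = -⌊(xc (H.g⁻¹ • z)) / H.T⌋ then 1 else 0 := by
    intro n
    rw [fluxC_pow, inv_smul_smul]
    unfold psi0
    rw [fluxC_At_zpow, xc_At]
    simp only [key]
  set n0 : ℤ := -⌊(xc (H.g⁻¹ • z)) / H.T⌋ with hn0
  have h1 : psi0 H.T (H.g⁻¹ • ((⟨H.a ^ n0, Subgroup.zpow_mem_zpowers _ _⟩ :
      Subgroup.zpowers H.a) • z)) = 1 := by
    show psi0 H.T (H.g⁻¹ • ((((H.a ^ n0 : Γ)) : SU11) • z)) = 1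
    rw [hval, if_pos rfl]
  rw [← h1]
  apply hasSum_single
  intro l hl
  obtain ⟨l, n, rfl⟩ := l
  show psi0 H.T (H.g⁻¹ • ((((H.a ^ n : Γ)) : SU11) • z)) = 0
  rw [hval, if_neg]
  intro hn
  apply hl
  apply Subtype.ext
  show H.a ^ n = H.a ^ n0
  rw [hn]

private theorem fluxC_adm {Γ : Subgroup SU11} (H : HypD Γ) {l l' : Γ → ℂ} (hl : H.Adm l)
    (hll : ∀ γ, l γ * l' γ = 1) (n : ℤ) : l' (H.a ^ n) = 1 := by
  have hinv : l H.a⁻¹ = 1 := by
    have h1 := hl.mul H.a⁻¹ H.a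
    rw [inv_mul_cancel, hl.one, hl.a, mul_one] at h1
    exact h1.symm
  have h2 : l (H.a ^ n) = 1 := by
    induction n using Int.induction_on with
    | zero => simpa using hl.one
    | succ n ih => rw [zpow_add_one, hl.mul, ih, hl.a, mul_one]
    | pred n ih => rw [zpow_sub_one, hl.mul, ih, hinv, mul_one]
  have h3 := hll (H.a ^ n)
  rwa [h2, one_mul] at h3

/-- `M - 1` applied to a finite sum -/
private theorem fluxC_Mop_sum {ι : Type*} {R : ℝ} (hR0 : 0 < R) (hR : R < 1) (S : Finset ι)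
    (c d : ι → ℂ) (u : ι → 𝔻 → ℝ) (hu : ∀ i, Continuous (u i)) (z : 𝔻) :
    Mop R (fun w => ∑ i ∈ S, c i * ((u i w : ℂ) - d i)) z - ∑ i ∈ S, c i * ((u i z : ℂ) - d i) =
      ∑ i ∈ S, c i * ((Mop R (u i) z - u i z : ℝ) : ℂ) := by
  classical
  induction S using Finset.induction_on with
  | empty => simp only [Finset.sum_empty, sub_zero]; exact Mop_const hR0 hR 0 z
  | insert i S hi ih =>
    have hc : ∀ j, Continuous (fun w => c j * ((u j w : ℂ) - d j)) := fun j =>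
      continuous_const.mul ((Complex.continuous_ofReal.comp (hu j)).sub continuous_const)
    have hcs : Continuous (fun w => ∑ i ∈ S, c i * ((u i w : ℂ) - d i)) :=
      continuous_finsetSum _ (fun j _ => hc j)
    have e1 : (fun w => ∑ j ∈ insert i S, c j * ((u j w : ℂ) - d j)) =
        fun w => c i * ((u i w : ℂ) - d i) + ∑ j ∈ S, c j * ((u j w : ℂ) - d j) := by
      funext w
      rw [Finset.sum_insert hi]
    rw [e1, Mop_add hR (hc i) hcs, Finset.sum_insert hi, Finset.sum_insert hi, ← ih]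
    have hui : Continuous (fun w => (u i w : ℂ)) := Complex.continuous_ofReal.comp (hu i)
    rw [Mop_mul_left R (c i) (fun w => (u i w : ℂ) - d i),
      Mop_sub hR hui continuous_const, Mop_const hR0 hR, Mop_ofReal]
    push_cast
    ring

/-- the average only depends on the values on the ball -/
private theorem fluxC_Mop_congr {R : ℝ} {u v : 𝔻 → ℂ} {z : 𝔻} (h : ∀ w, pd z w < R → u w = v w) :
    Mop R u z = Mop R v z := by
  unfold Mop
  rw [AvF_kernel, AvF_kernel]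
  congr 1
  apply setIntegral_congr_fun
  · exact (isOpen_lt (continuous_pd.comp (Continuous.prodMk_right z)) continuous_const).measurableSet
  · intro w hw
    exact h w hw

private theorem fluxC_quot {Γ : Subgroup SU11} (H : HypD Γ) :
    Function.Bijective (fun p : Subgroup.zpowers H.a × H.Q => (p.2.out * p.1 : Γ)) := by
  have hmk : ∀ (q : H.Q) (l : Subgroup.zpowers H.a), ((q.out * l : Γ) : H.Q) = q := by
    intro q l
    rw [QuotientGroup.mk_mul_of_mem _ l.2, QuotientGroup.out_eq']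
  constructor
  · rintro ⟨l, q⟩ ⟨l', q'⟩ h
    have h0 : (q.out * l : Γ) = q'.out * l' := h
    have h1 : q = q' := by rw [← hmk q l, h0, hmk]
    subst h1
    have h2 : (l : Γ) = l' := mul_left_cancel h0
    rw [Subtype.ext h2]
  · intro γ
    refine ⟨(⟨(γ : H.Q).out⁻¹ * γ, ?_⟩, (γ : H.Q)), ?_⟩
    · rw [← QuotientGroup.eq, QuotientGroup.out_eq']
    · show (γ : H.Q).out * ((γ : H.Q).out⁻¹ * γ) = γ
      rw [mul_inv_cancel_left]

/-- unfolding of the relative Poincaré series: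
`tot * I((M b_a - b_a) Φ) = ∫ ψ (M s - s) Φ` where `ψ z = psi0 T (g⁻¹ z)`, `s = H.s`.
With `F = (M s - s) Φ` (invariant under `a`) one has `(M b_a - b_a) Φ = ∑_q F(q⁻¹ z)`, and both
sides equal `∑_{q ∈ Γ/⟨a⟩} ∫ θ(q z) F(z)`. -/
theorem unfold_bco {Γ : Subgroup SU11} (hd : IsDisc Γ) (P : PU Γ) (H : HypD Γ) {R : ℝ}
    (hR0 : 0 < R) (hR : R < 1) {l l' : Γ → ℂ} (hl : H.Adm l) (hll : ∀ γ, l γ * l' γ = 1)
    {Φ : 𝔻 → ℂ} (hΦ : Continuous Φ) (heq : ∀ (γ : Γ) (z : 𝔻), Φ ((γ : SU11) • z) = l' γ * Φ z) :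
    ∫ z, (P.θ z : ℂ) * ((Mop R (H.bco l) z - H.bco l z) * Φ z) ∂area =
      ∫ z, (psi0 H.T (H.g⁻¹ • z) : ℂ) * (((Mop R H.s z - H.s z : ℝ) : ℂ) * Φ z) ∂area := by
  classical
  have hcnt : Countable Γ := countable_of_disc hd
  have hcntQ : Countable H.Q := Quotient.countable
  obtain ⟨r1, hr1, h1⟩ := norm_le_of_pd_lt P.r_lt hR
  set r : ℝ := max 0 (max P.r r1) with hr
  have hrlt : r < 1 := max_lt one_pos (max_lt P.r_lt hr1)
  obtain ⟨F, -, hF⟩ := H.finite_cosets hd hrlt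
  set Q0 : Finset H.Q := F.image (fun δ : Γ => (δ : H.Q)) with hQ0
  have hconst : ∀ q : H.Q, q ∉ Q0 → ∀ z w : 𝔻, ‖(z : ℂ)‖ ≤ r → ‖(w : ℂ)‖ ≤ r →
      H.s (((q.out : Γ) : SU11)⁻¹ • z) = H.s (((q.out : Γ) : SU11)⁻¹ • w) := by
    intro q hq z w hz hw
    by_contra hne
    obtain ⟨δ', hδ', hmem⟩ := hF q.out ⟨z, w, hz, hw, hne⟩
    apply hq
    rw [hQ0, Finset.mem_image]
    refine ⟨δ', hδ', ?_⟩
    rw [← QuotientGroup.eq, QuotientGroup.out_eq'] at hmem
    exact hmem.symm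
  have h0r : ‖((0 : 𝔻) : ℂ)‖ ≤ r := by simp [hr]
  have hb : ∀ z : 𝔻, ‖(z : ℂ)‖ ≤ r → H.bco l z = ∑ q ∈ Q0, H.term l q z := by
    intro z hz
    unfold HypD.bco
    apply finsum_eq_sum_of_support_subset
    intro q hq
    rw [Function.mem_support] at hq
    by_contra hq2
    apply hq
    unfold HypD.term
    rw [hconst q hq2 z 0 hz h0r, sub_self, mul_zero]
  have hsc : ∀ q : H.Q, Continuous (fun w : 𝔻 => H.s (((q.out : Γ) : SU11)⁻¹ • w)) := fun q =>
    H.continuous_s.comp (continuous_smul_disc _)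
  have hM : ∀ z : 𝔻, ‖(z : ℂ)‖ ≤ P.r → Mop R (H.bco l) z - H.bco l z =
      ∑ q ∈ Q0, l q.out * ((Mop R H.s (((q.out : Γ) : SU11)⁻¹ • z) -
        H.s (((q.out : Γ) : SU11)⁻¹ • z) : ℝ) : ℂ) := by
    intro z hz
    have hz' : ‖(z : ℂ)‖ ≤ r := hz.trans ((le_max_left _ _).trans (le_max_right _ _))
    rw [hb z hz', fluxC_Mop_congr (v := fun w => ∑ q ∈ Q0, H.term l q w)
      (fun w hw => hb w ((h1 z w hz hw).trans ((le_max_right _ _).trans (le_max_right _ _))))]
    unfold HypD.term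
    rw [fluxC_Mop_sum hR0 hR Q0 (fun q => l q.out)
      (fun q => (H.s (((q.out : Γ) : SU11)⁻¹ • (0 : 𝔻)) : ℂ))
      (fun q w => H.s (((q.out : Γ) : SU11)⁻¹ • w)) hsc z]
    apply Finset.sum_congr rfl
    intro q _
    rw [Mop_smul]
  -- the function `f = M s - s`
  set f : 𝔻 → ℝ := fun z => Mop R H.s z - H.s z with hf
  have hfc : Continuous f := (continuous_Mop hR H.continuous_s).sub H.continuous_s
  have hf0 : ∀ (q : H.Q), q ∉ Q0 → ∀ z : 𝔻, ‖((((q.out : Γ) : SU11) • z : 𝔻) : ℂ)‖ ≤ P.r →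
      f z = 0 := by
    intro q hq z hz
    set w : 𝔻 := ((q.out : Γ) : SU11) • z with hw
    have hzw : z = ((q.out : Γ) : SU11)⁻¹ • w := by rw [hw, inv_smul_smul]
    have hwr : ‖(w : ℂ)‖ ≤ r := hz.trans ((le_max_left _ _).trans (le_max_right _ _))
    have h2 : f z = Mop R (fun x => H.s (((q.out : Γ) : SU11)⁻¹ • x)) w -
        H.s (((q.out : Γ) : SU11)⁻¹ • w) := by
      rw [hf]
      simp only
      rw [hzw, Mop_smul]
    rw [h2]
    have h3 := norm_Mop_sub_le hR0 hR (hsc q) (z := w) (C := 0) (fun x hx => by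
      rw [hconst q hq x w ((h1 w x hz hx).trans ((le_max_right _ _).trans (le_max_right _ _))) hwr,
        sub_self, norm_zero])
    exact norm_le_zero_iff.1 h3
  -- left side
  have hLint : ∀ q : H.Q, Integrable (fun z => (P.θ z : ℂ) *
      ((l q.out * (f (((q.out : Γ) : SU11)⁻¹ • z) : ℂ)) * Φ z)) area := fun q =>
    P.integrable ((continuous_const.mul (Complex.continuous_ofReal.comp
      (hfc.comp (continuous_smul_disc _)))).mul hΦ)
  have hL : ∫ z, (P.θ z : ℂ) * ((Mop R (H.bco l) z - H.bco l z) * Φ z) ∂area =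
      ∑ q ∈ Q0, ∫ z, (P.θ z : ℂ) * ((l q.out * (f (((q.out : Γ) : SU11)⁻¹ • z) : ℂ)) * Φ z) ∂area := by
    rw [← integral_finsetSum _ (fun q _ => hLint q)]
    congr 1
    funext z
    by_cases hθ : P.θ z = 0
    · simp [hθ]
    · rw [hM z (P.supp z hθ), Finset.sum_mul, Finset.mul_sum]
  have hL2 : ∀ q : H.Q, ∫ z, (P.θ z : ℂ) *
      ((l q.out * (f (((q.out : Γ) : SU11)⁻¹ • z) : ℂ)) * Φ z) ∂area =
      ∫ z, (P.θ (((q.out : Γ) : SU11) • z) : ℂ) * ((f z : ℂ) * Φ z) ∂area := by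
    intro q
    rw [← integral_smul_area ((q.out : Γ) : SU11)]
    congr 1
    funext z
    rw [inv_smul_smul, heq]
    linear_combination ((P.θ (((q.out : Γ) : SU11) • z) : ℂ) * (f z : ℂ) * Φ z) * hll q.out
  have hLint2 : ∀ q : H.Q, Integrable (fun z => (P.θ (((q.out : Γ) : SU11) • z) : ℂ) *
      ((f z : ℂ) * Φ z)) area := by
    intro q
    have h3 := (measurePreserving_smul ((q.out : Γ) : SU11)).integrable_comp_of_integrable
      (P.integrable (v := fun z => (f (((q.out : Γ) : SU11)⁻¹ • z) : ℂ) *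
        Φ (((q.out : Γ) : SU11)⁻¹ • z))
      ((Complex.continuous_ofReal.comp (hfc.comp (continuous_smul_disc _))).mul
        (hΦ.comp (continuous_smul_disc _))))
    refine h3.congr (Eventually.of_forall (fun z => ?_))
    simp only [Function.comp_apply, inv_smul_smul]
  -- the second partition of unity
  have hsumm : ∀ z : 𝔻, Summable (fun q : H.Q => P.θ (((q.out : Γ) : SU11) • z)) := fun z =>
    (P.sum z).summable.comp_injective (Quotient.out_injective (s := QuotientGroup.leftRel (Subgroup.zpowers H.a)))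
  set ψ' : 𝔻 → ℝ := fun z => ∑' q : H.Q, P.θ (((q.out : Γ) : SU11) • z) with hψ'
  have hψm : Measurable ψ' := by
    have e1 : ψ' = fun z => (∑' q : H.Q, ENNReal.ofReal (P.θ (((q.out : Γ) : SU11) • z))).toReal := by
      funext z
      rw [← ENNReal.ofReal_tsum_of_nonneg (fun q => P.nonneg _) (hsumm z),
        ENNReal.toReal_ofReal (tsum_nonneg (fun q => P.nonneg _))]
    rw [e1]
    apply Measurable.ennreal_toReal
    apply Measurable.tsum
    intro q
    exact ENNReal.measurable_ofReal.comp (P.cont.comp (continuous_smul_disc _)).measurable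
  have hψsum : ∀ z : 𝔻, HasSum (fun k : Subgroup.zpowers H.a => ψ' (k • z)) 1 := by
    intro z
    have h3 := ((Equiv.ofBijective _ (fluxC_quot H)).hasSum_iff
      (f := fun γ : Γ => P.θ ((γ : SU11) • z)) (a := 1)).2 (P.sum z)
    refine h3.prod_fiberwise (fun k => ?_)
    have h4 := (hsumm (k • z)).hasSum
    have h5 : (fun c => ((fun γ : Γ => P.θ ((γ : SU11) • z)) ∘
        (Equiv.ofBijective _ (fluxC_quot H))) (k, c)) =
        fun q : H.Q => P.θ (((q.out : Γ) : SU11) • k • z) := by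
      funext q
      show P.θ ((((q.out * (k : Γ) : Γ)) : SU11) • z) = _
      rw [Subgroup.coe_mul, mul_smul]
      rfl
    rw [h5]
    exact h4
  have hFinv : ∀ (k : Subgroup.zpowers H.a) (z : 𝔻), (f (k • z) : ℂ) * Φ (k • z) = (f z : ℂ) * Φ z := by
    rintro ⟨k, n, rfl⟩ z
    show (f ((((H.a ^ n : Γ)) : SU11) • z) : ℂ) * Φ ((((H.a ^ n : Γ)) : SU11) • z) = _
    rw [heq, fluxC_adm H hl hll, one_mul]
    congr 2
    rw [hf]
    simp only
    rw [fluxC_ms, fluxC_ms, fluxC_pow, inv_smul_smul, fluxC_At_zpow, f0_At]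
  have hunf := (unfold_abs area (Λ := Subgroup.zpowers H.a)
    (fun k => measurePreserving_smul (((k : Γ) : SU11)))
    (fun z => psi0 H.T (H.g⁻¹ • z)) ψ'
    ((psi0_measurable H.T).comp (continuous_smul_disc _).measurable)
    (fun z => (fluxC_psi0_bd H.T _).1) (fluxC_sum H) hψm
    (fun z => tsum_nonneg (fun q => P.nonneg _)) hψsum
    (fun z => (f z : ℂ) * Φ z)
    ((Complex.continuous_ofReal.comp hfc).mul hΦ).measurable hFinv
    (fluxC_int' H hR0 hR hΦ)).2
  have hR1 : ∫ z, (ψ' z : ℂ) * ((f z : ℂ) * Φ z) ∂area =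
      ∑ q ∈ Q0, ∫ z, (P.θ (((q.out : Γ) : SU11) • z) : ℂ) * ((f z : ℂ) * Φ z) ∂area := by
    rw [← integral_finsetSum _ (fun q _ => hLint2 q)]
    congr 1
    funext z
    rw [← Finset.sum_mul]
    by_cases hfz : f z = 0
    · simp [hfz]
    · have h3 : ψ' z = ∑ q ∈ Q0, P.θ (((q.out : Γ) : SU11) • z) := by
        rw [hψ']
        simp only
        apply tsum_eq_sum
        intro q hq
        by_contra hne
        exact hfz (hf0 q hq z (P.supp _ hne))
      rw [h3]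
      push_cast
      rfl
  rw [hL, Finset.sum_congr rfl (fun q _ => hL2 q), ← hR1, ← hunf]

private theorem fluxC_holo (g : SU11) {p : ℂ → ℂ} (hp : Holo p) : Holo (fun z => p (g.mob z)) := by
  have h1 : DifferentiableOn ℂ (fun z => g.mob z) (Metric.ball (0 : ℂ) 1) := by
    unfold SU11.mob SU11.den
    apply DifferentiableOn.div
    · fun_prop
    · fun_prop
    · intro z hz
      exact g.den_ne_zero (mem_ball_zero_iff.1 hz).le
  exact DifferentiableOn.comp hp h1 (fun z hz => by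
    rw [mem_ball_zero_iff] at hz ⊢
    exact g.norm_mob_lt hz)

/-- THE FLUX FORMULA -/
theorem flux {Γ : Subgroup SU11} (hd : IsDisc Γ) (P : PU Γ) (H : HypD Γ) {R : ℝ}
    (hR0 : 0 < R) (hR : R < 1) :
    ∃ c₀ : ℂ, c₀ ≠ 0 ∧ ∀ (l l' : Γ → ℂ), H.Adm l → (∀ γ, l γ * l' γ = 1) →
      ∀ (Φ : 𝔻 → ℂ) (p q : ℂ → ℂ) (κ : ℂ), Continuous Φ → Holo p → Holo q →
        (∀ z : 𝔻, Φ z = p z + conj (q z)) →
        (∀ (γ : Γ) (z : 𝔻), Φ ((γ : SU11) • z) = l' γ * Φ z) →
        (∀ z : 𝔻, p (((H.a : SU11) • z : 𝔻) : ℂ) = p z + κ) →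
        P.I (fun z => (Mop R (H.bco l) z - H.bco l z) * Φ z) = c₀ * κ := by
  have hT := H.T_pos
  refine ⟨((P.tot : ℝ) : ℂ)⁻¹ * (2 * I / H.T *
    ((∫ z, psi0 H.T z * (f0 R z * yc z) ∂area : ℝ) : ℂ)), ?_, ?_⟩
  · have h1 : ((P.tot : ℝ) : ℂ) ≠ 0 := by exact_mod_cast P.tot_pos.ne'
    have h2 : ((∫ z, psi0 H.T z * (f0 R z * yc z) ∂area : ℝ) : ℂ) ≠ 0 := by
      exact_mod_cast (integral_f0_yc hR0 hR hT).ne
    have h3 : ((H.T : ℝ) : ℂ) ≠ 0 := by exact_mod_cast hT.ne'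
    exact mul_ne_zero (inv_ne_zero h1)
      (mul_ne_zero (div_ne_zero (mul_ne_zero two_ne_zero I_ne_zero) h3) h2)
  · intro l l' hl hll Φ p q κ hΦ hp hq hpq heq hκ
    unfold PU.I
    rw [unfold_bco hd P H hR0 hR hl hll hΦ heq]
    have hstep : ∫ z, (psi0 H.T (H.g⁻¹ • z) : ℂ) * (((Mop R H.s z - H.s z : ℝ) : ℂ) * Φ z) ∂area =
        ∫ z, (psi0 H.T z : ℂ) * ((f0 R z : ℂ) * Φ (H.g • z)) ∂area := by
      rw [← integral_smul_area H.g]
      congr 1
      funext z
      rw [fluxC_ms, inv_smul_smul]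
    have hag : ∀ z : 𝔻, H.g • (At H.T • z) = ((H.a : Γ) : SU11) • (H.g • z) := by
      intro z
      rw [H.eq, mul_smul, mul_smul, inv_smul_smul]
    have hl'a : l' H.a = 1 := by
      have h1 := hll H.a
      rwa [hl.a, one_mul] at h1
    have hax := flux_axis hR0 hR hT (Φ := fun z => Φ (H.g • z)) (p := fun z => p (H.g.mob z))
      (q := fun z => q (H.g.mob z)) (fluxC_holo H.g hp) (fluxC_holo H.g hq)
      (fun z => by rw [hpq, coe_smul])
      (fun z => by rw [hag, heq, hl'a, one_mul])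
      (κ := κ)
      (fun z => by
        have h1 := hκ (H.g • z)
        rw [← hag] at h1
        rw [← coe_smul, ← coe_smul]
        exact h1)
    rw [hstep, hax]
    ring

end

end Pool.Agent.Lib.MP_b16327_pr
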