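import Pool.Agent.Lib.MP_b16327_pr.JA

/-! # The complex structure J and maximum modulus -/

namespace Pool.Agent.Lib.MP_b16327_pr

open Complex MeasureTheory ComplexConjugate Filter
open scoped Complex.UnitDisc Topology BoundedContinuousFunction

noncomputable section

/-- maximum modulus for holomorphic functions with invariant modulus -/
theorem JB_const {Γ : Subgroup SU11} (hc : IsCocpt Γ) {G : ℂ → ℂ} (hG : Holo G)
    (h : ∀ (γ : Γ) (z : 𝔻), ‖G (((γ : SU11) • z : 𝔻) : ℂ)‖ = ‖G z‖) (z w : 𝔻) : G z = G w := by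
  obtain ⟨r, hr, hcov⟩ := hc
  have hsub : Metric.closedBall (0:ℂ) r ⊆ Metric.ball 0 1 := Metric.closedBall_subset_ball hr
  have hr0 : 0 ≤ r := by
    obtain ⟨g, _, hg⟩ := hcov 0
    exact (norm_nonneg _).trans hg
  obtain ⟨c, hcK, hcmax⟩ := (isCompact_closedBall (0:ℂ) r).exists_isMaxOn ⟨0, by simp [hr0]⟩
    ((hG.continuousOn.mono hsub).norm)
  have hmax : IsMaxOn (norm ∘ G) (Metric.ball 0 1) c := by
    rw [isMaxOn_iff]
    intro y hy
    have hy1 : ‖y‖ < 1 := by simpa using hy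
    obtain ⟨g, hg, hgy⟩ := hcov (UnitDisc.mk y hy1)
    have h1 := h ⟨g, hg⟩ (UnitDisc.mk y hy1)
    have h2 := isMaxOn_iff.1 hcmax ((g • (UnitDisc.mk y hy1) : 𝔻) : ℂ) (by simpa using hgy)
    simp only [Function.comp]
    rw [UnitDisc.coe_mk] at h1
    rw [← h1]
    exact h2
  have heq := Complex.eqOn_of_isPreconnected_of_isMaxOn_norm
    (convex_ball (0:ℂ) 1).isPreconnected Metric.isOpen_ball hG (hsub hcK) hmax
  have hz : (z : ℂ) ∈ Metric.ball (0:ℂ) 1 := by simpa using z.norm_lt_one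
  have hw : (w : ℂ) ∈ Metric.ball (0:ℂ) 1 := by simpa using w.norm_lt_one
  rw [heq hz, heq hw]
  rfl

/-- uniqueness: if `Re Ψ` is invariant then `Ψ` is constant (maximum principle), so `x = 0`
implies `x' = 0` -/
theorem IsPsi.unique {Γ : Subgroup SU11} (hc : IsCocpt Γ) {Ψ₁ Ψ₂ : ℂ → ℂ} {x x₁ x₂ : HomR Γ}
    (h1 : IsPsi Ψ₁ x x₁) (h2 : IsPsi Ψ₂ x x₂) : x₁ = x₂ := by
  obtain ⟨hh1, he1⟩ := h1
  obtain ⟨hh2, he2⟩ := h2
  have key : ∀ (γ : Γ) (t : ℝ), Complex.exp ((t * (ev x₁ γ - ev x₂ γ) : ℝ) * I) = 1 := by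
    intro γ t
    have hG : Holo (fun z => Complex.exp (t * (Ψ₁ z - Ψ₂ z))) := by
      unfold Holo at *
      exact ((hh1.sub hh2).const_mul _).cexp
    have hinv : ∀ (γ : Γ) (z : 𝔻), Complex.exp (t * (Ψ₁ (((γ : SU11) • z : 𝔻) : ℂ) -
        Ψ₂ (((γ : SU11) • z : 𝔻) : ℂ))) = Complex.exp ((t * (ev x₁ γ - ev x₂ γ) : ℝ) * I) *
        Complex.exp (t * (Ψ₁ z - Ψ₂ z)) := by
      intro γ z
      rw [he1, he2, ← Complex.exp_add]
      congr 1
      push_cast
      ring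
    have hconst := JB_const hc hG (fun γ z => by
      rw [hinv, norm_mul, Complex.norm_exp_ofReal_mul_I, one_mul]) ((γ : SU11) • (0 : 𝔻)) 0
    rw [hinv] at hconst
    exact mul_right_cancel₀ (Complex.exp_ne_zero _) (by rw [hconst, one_mul])
  ext γ
  obtain ⟨γ, rfl⟩ : ∃ g : Γ, Additive.ofMul g = γ := ⟨Additive.toMul γ, rfl⟩
  change ev x₁ γ = ev x₂ γ
  by_contra hne
  have hne' : ev x₁ γ - ev x₂ γ ≠ 0 := sub_ne_zero.2 hne
  have h3 := key γ (Real.pi / (ev x₁ γ - ev x₂ γ))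
  rw [div_mul_cancel₀ _ hne', Complex.exp_pi_mul_I] at h3
  norm_num at h3

theorem JB_add {Γ : Subgroup SU11} {Ψ₁ Ψ₂ : ℂ → ℂ} {x x' y y' : HomR Γ}
    (h1 : IsPsi Ψ₁ x x') (h2 : IsPsi Ψ₂ y y') :
    IsPsi (fun z => Ψ₁ z + Ψ₂ z) (x + y) (x' + y') := by
  refine ⟨?_, ?_⟩
  · have := h1.1; have := h2.1; unfold Holo at *; exact h1.1.add h2.1
  · intro γ z
    simp only
    rw [h1.2, h2.2]
    simp only [ev, AddMonoidHom.add_apply]
    push_cast
    ring

theorem JB_smul {Γ : Subgroup SU11} {Ψ : ℂ → ℂ} {x x' : HomR Γ}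
    (h1 : IsPsi Ψ x x') (c : ℝ) : IsPsi (fun z => (c : ℂ) * Ψ z) (c • x) (c • x') := by
  refine ⟨?_, ?_⟩
  · have := h1.1; unfold Holo at *; exact h1.1.const_mul _
  · intro γ z
    simp only
    rw [h1.2]
    simp only [ev, AddMonoidHom.smul_apply, smul_eq_mul]
    push_cast
    ring

theorem JB_I {Γ : Subgroup SU11} {Ψ : ℂ → ℂ} {x x' : HomR Γ}
    (h1 : IsPsi Ψ x x') : IsPsi (fun z => -I * Ψ z) x' (-x) := by
  refine ⟨?_, ?_⟩
  · have := h1.1; unfold Holo at *; exact h1.1.const_mul _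
  · intro γ z
    simp only
    rw [h1.2]
    simp only [ev, AddMonoidHom.neg_apply]
    push_cast
    linear_combination (-(x' (Additive.ofMul γ) : ℂ)) * Complex.I_mul_I

/-- the complex structure -/
theorem exists_J {Γ : Subgroup SU11} (hd : IsDisc Γ) (hc : IsCocpt Γ) :
    ∃ J : HomR Γ →ₗ[ℝ] HomR Γ, (∀ x, J (J x) = -x) ∧ ∀ x, ∃ Ψ, IsPsi Ψ x (J x) := by
  choose Ψ J hJ using fun x : HomR Γ => exists_Psi hd hc x
  refine ⟨{ toFun := J
            map_add' := fun x y => IsPsi.unique hc (hJ (x + y)) (JB_add (hJ x) (hJ y))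
            map_smul' := fun c x => IsPsi.unique hc (hJ (c • x)) (JB_smul (hJ x) c) }, ?_, ?_⟩
  · intro x
    exact IsPsi.unique hc (hJ (J x)) (JB_I (hJ x))
  · intro x
    exact ⟨Ψ x, hJ x⟩

/-- MAXIMUM MODULUS.  If `F ≠ 0` is holomorphic with `F (γ z) = exp (χ γ) F z`, then with
`x = Re χ` and `Ψ` an abelian integral with periods `x + i J x`, the function `F e^{-Ψ}` has
`Γ`-invariant modulus, so attains its maximum and is constant; hence
`exp (χ γ) = exp (x γ + i J x γ)`. -/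
theorem max_modulus {Γ : Subgroup SU11} (hc : IsCocpt Γ) {F Ψ : ℂ → ℂ} (hF : Holo F)
    (hF0 : ∃ z : 𝔻, F z ≠ 0) (χ : Γ → ℂ)
    (hχ : ∀ (γ : Γ) (z : 𝔻), F (((γ : SU11) • z : 𝔻) : ℂ) = Complex.exp (χ γ) * F z)
    {x x' : HomR Γ} (hx : ∀ γ, (χ γ).re = ev x γ) (hΨ : IsPsi Ψ x x') (γ : Γ) :
    Complex.exp (χ γ) = Complex.exp (ev x γ + ev x' γ * I) := by
  have hG : Holo (fun z => F z * Complex.exp (-Ψ z)) := by
    have := hΨ.1
    unfold Holo at *
    exact hF.mul this.neg.cexp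
  have hinv : ∀ (γ : Γ) (z : 𝔻), F (((γ : SU11) • z : 𝔻) : ℂ) *
      Complex.exp (-Ψ (((γ : SU11) • z : 𝔻) : ℂ)) =
      (Complex.exp (χ γ) * Complex.exp (-(ev x γ + ev x' γ * I))) *
        (F z * Complex.exp (-Ψ z)) := by
    intro γ z
    rw [hχ, hΨ.2, neg_add, Complex.exp_add]
    ring
  obtain ⟨z₀, hz₀⟩ := hF0
  have hconst := JB_const hc hG (fun γ z => by
    rw [hinv, norm_mul, norm_mul, Complex.norm_exp, Complex.norm_exp, hx, ← Real.exp_add]
    simp) ((γ : SU11) • z₀) z₀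
  rw [hinv] at hconst
  have hne : F z₀ * Complex.exp (-Ψ z₀) ≠ 0 :=
    mul_ne_zero hz₀ (Complex.exp_ne_zero _)
  have h1 : Complex.exp (χ γ) * Complex.exp (-(ev x γ + ev x' γ * I)) = 1 :=
    mul_right_cancel₀ hne (by rw [hconst, one_mul])
  rw [Complex.exp_neg] at h1
  exact (mul_inv_eq_one₀ (Complex.exp_ne_zero _)).1 h1

/-- equality in the mean value inequality -/
theorem JB_ball {R : ℝ} (hR0 : 0 < R) (hR : R < 1)
    {Φ : 𝔻 → ℂ} (hΦ : Continuous Φ) {z₀ : 𝔻} (hM : Mop R Φ z₀ = Φ z₀)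
    (hmax : ∀ w, ‖Φ w‖ ≤ ‖Φ z₀‖) {w : 𝔻} (hw : pd z₀ w < R) : Φ w = Φ z₀ := by
  classical
  -- the nonnegative function
  set h : 𝔻 → ℝ := fun w => (conj (Φ z₀) * (Φ z₀ - Φ w)).re with hh
  have hcont : Continuous h := by
    rw [hh]
    exact Complex.continuous_re.comp (continuous_const.mul (continuous_const.sub hΦ))
  have hnn : ∀ w, ‖Φ w - Φ z₀‖ ^ 2 ≤ 2 * h w := by
    intro w
    have h1 := hmax w
    have h2 : ‖Φ w‖ ^ 2 ≤ ‖Φ z₀‖ ^ 2 := pow_le_pow_left₀ (norm_nonneg _) h1 2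
    rw [← Complex.normSq_eq_norm_sq, ← Complex.normSq_eq_norm_sq] at h2
    rw [← Complex.normSq_eq_norm_sq]
    simp only [hh, Complex.normSq_apply, Complex.mul_re, Complex.conj_re, Complex.conj_im,
      Complex.sub_re, Complex.sub_im] at h2 ⊢
    nlinarith
  have hnn0 : ∀ w, 0 ≤ h w := fun w => by
    have := hnn w
    nlinarith [sq_nonneg ‖Φ w - Φ z₀‖]
  -- the average of h is zero
  have hMh : Mop R h z₀ = 0 := by
    have e1 : ((Mop R h z₀ : ℝ) : ℂ) = Mop R (fun w => (h w : ℂ)) z₀ := (Mop_ofReal R h z₀).symm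
    have hcc : Continuous (fun w => conj (Φ z₀) * (Φ z₀ - Φ w)) :=
      continuous_const.mul (continuous_const.sub hΦ)
    have e2 : Mop R (fun w => conj (Φ z₀) * (Φ z₀ - Φ w)) z₀ = 0 := by
      rw [Mop_mul_left, Mop_sub hR continuous_const hΦ, Mop_const hR0 hR, hM, sub_self, mul_zero]
    -- real part of the Bochner integral
    have e3 : Mop R h z₀ = (Mop R (fun w => conj (Φ z₀) * (Φ z₀ - Φ w)) z₀).re := by
      unfold Mop AvF
      rw [Complex.smul_re]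
      congr 1
      have hint : IntegrableOn (fun w : 𝔻 => conj (Φ z₀) * (Φ z₀ - Φ (tr z₀ • w))) (ballD R) area :=
        integrableOn_AvF (F := fun _ w => conj (Φ z₀) * (Φ z₀ - Φ w)) hR
          (hcc.comp continuous_snd) z₀
      exact (integral_re hint)
    rw [e3, e2, Complex.zero_re]
  rw [Mop, AvF_kernel] at hMh
  have hA : 0 < area.real (ballD R) :=
    ENNReal.toReal_pos (area_ballD_pos hR0).ne' (area_ballD_lt_top hR).ne
  have hint0 : ∫ w in {w : 𝔻 | pd z₀ w < R}, h w ∂area = 0 := by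
    rcases smul_eq_zero.1 hMh with h1 | h1
    · exact absurd h1 (inv_pos.2 hA).ne'
    · exact h1
  have hopen : IsOpen {w : 𝔻 | pd z₀ w < R} := by
    have : Continuous (fun w : 𝔻 => pd z₀ w) :=
      continuous_pd.comp (continuous_const.prodMk continuous_id)
    exact isOpen_lt this continuous_const
  obtain ⟨r', hr', hsub⟩ := norm_le_of_pd_lt (r := ‖(z₀ : ℂ)‖) z₀.norm_lt_one hR
  have : T2Space 𝔻 := UnitDisc.isEmbedding_coe.t2Space
  have hintg : IntegrableOn h {w : 𝔻 | pd z₀ w < R} area := by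
    refine (hcont.continuousOn.integrableOn_compact (isCompact_closedBallD hr')).mono_set ?_
    intro w hw
    exact hsub z₀ w le_rfl hw
  have hae : h =ᵐ[area.restrict {w : 𝔻 | pd z₀ w < R}] 0 :=
    (setIntegral_eq_zero_iff_of_nonneg_ae (Eventually.of_forall hnn0) hintg).1 hint0
  have heq : Set.EqOn h 0 {w : 𝔻 | pd z₀ w < R} :=
    Measure.eqOn_open_of_ae_eq hae hopen hcont.continuousOn continuousOn_const
  have h0 := heq hw
  have h1 := hnn w
  simp only [Pi.zero_apply] at h0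
  rw [h0, mul_zero] at h1
  have h2 : ‖Φ w - Φ z₀‖ = 0 := by
    have := sq_nonneg ‖Φ w - Φ z₀‖
    exact pow_eq_zero_iff two_ne_zero |>.1 (le_antisymm h1 this)
  exact sub_eq_zero.1 (norm_eq_zero.1 h2)

/-- bounded holomorphic invariant ... : an `M`-harmonic (or `CMV`) function with invariant modulus
attaining its maximum is constant; consequence: if `Φ` is `CMV`, nonzero and
`Φ (γ z) = λ(γ) Φ z` with `|λ| = 1`, then `λ = 1`. -/
theorem unitary_trivial {Γ : Subgroup SU11} (hc : IsCocpt Γ) {R : ℝ} (hR0 : 0 < R) (hR : R < 1)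
    {Φ : 𝔻 → ℂ} (hΦ : Continuous Φ) (hM : ∀ z, Mop R Φ z = Φ z) (h0 : ∃ z, Φ z ≠ 0)
    (l : Γ → ℂ) (hl : ∀ γ, ‖l γ‖ = 1)
    (heq : ∀ (γ : Γ) (z : 𝔻), Φ ((γ : SU11) • z) = l γ * Φ z) (γ : Γ) : l γ = 1 := by
  obtain ⟨r, hr, hcov⟩ := hc
  obtain ⟨z₁, hz₁⟩ := h0
  have hne : {z : 𝔻 | ‖(z : ℂ)‖ ≤ r}.Nonempty := by
    obtain ⟨g, _, hg⟩ := hcov 0
    exact ⟨_, hg⟩
  obtain ⟨z₀, _, hz₀⟩ := (isCompact_closedBallD hr).exists_isMaxOn hne hΦ.norm.continuousOn
  have hmax : ∀ w, ‖Φ w‖ ≤ ‖Φ z₀‖ := by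
    intro w
    obtain ⟨g, hg, hgw⟩ := hcov w
    have h1 := heq ⟨g, hg⟩ w
    have h2 := isMaxOn_iff.1 hz₀ (g • w) hgw
    have h3 : Φ (g • w) = l ⟨g, hg⟩ * Φ w := h1
    rw [h3, norm_mul, hl, one_mul] at h2
    exact h2
  have hz0 : Φ z₀ ≠ 0 := by
    intro h
    have := hmax z₁
    rw [h, norm_zero] at this
    exact hz₁ (norm_le_zero_iff.1 this)
  -- the level set is clopen
  have hclopen : IsClopen {w : 𝔻 | Φ w = Φ z₀} := by
    refine ⟨isClosed_eq hΦ continuous_const, ?_⟩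
    rw [isOpen_iff_mem_nhds]
    intro w hw
    have hw' : Φ w = Φ z₀ := hw
    have hopen : IsOpen {v : 𝔻 | pd w v < R} := by
      have : Continuous (fun v : 𝔻 => pd w v) :=
        continuous_pd.comp (continuous_const.prodMk continuous_id)
      exact isOpen_lt this continuous_const
    have hmem : w ∈ {v : 𝔻 | pd w v < R} := by
      have : pd w w = 0 := by simp [pd]
      rw [Set.mem_ofPred_eq, this]
      exact hR0
    refine Filter.mem_of_superset (hopen.mem_nhds hmem) ?_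
    intro v hv
    have := JB_ball hR0 hR hΦ (hM w) (fun u => by rw [hw']; exact hmax u) hv
    rw [Set.mem_ofPred_eq, this, hw']
  have hpre : PreconnectedSpace 𝔻 := by
    change PreconnectedSpace (Metric.ball (0 : ℂ) 1)
    exact Subtype.preconnectedSpace (convex_ball (0 : ℂ) 1).isPreconnected
  have huniv : {w : 𝔻 | Φ w = Φ z₀} = Set.univ := hclopen.eq_univ ⟨z₀, rfl⟩
  have h1 : Φ ((γ : SU11) • z₀) = Φ z₀ := by
    have : ((γ : SU11) • z₀) ∈ {w : 𝔻 | Φ w = Φ z₀} := by rw [huniv]; trivial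
    exact this
  rw [heq] at h1
  exact mul_right_cancel₀ hz0 (by rw [h1, one_mul])

/-- linearly independent homomorphisms separate small characters: if `X` is linearly independent
there is `ρ > 0` such that for real `d` with `|d_j| < ρ`, `∑ d_j X_j(γ) ∈ 2π ℤ` for all `γ` implies
`d = 0`.  (Choose `γ_1, …, γ_n` with `(X_j(γ_i))` invertible.) -/
theorem small_char {Γ : Subgroup SU11} {n : ℕ} (X : Fin n → HomR Γ)
    (hX : LinearIndependent ℝ X) : ∃ ρ : ℝ, 0 < ρ ∧ ∀ d : Fin n → ℝ, (∀ j, |d j| < ρ) →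
      (∀ γ : Γ, Complex.exp ((∑ j, d j * ev (X j) γ : ℝ) * I) = 1) → d = 0 := by
  classical
  have hcover : ∀ d : Fin n → ℝ, d ≠ 0 → ∃ γ : Γ, ∑ j, d j * ev (X j) γ ≠ 0 := by
    intro d hd
    by_contra hcon
    push Not at hcon
    apply hd
    have h1 : ∑ j, d j • X j = 0 := by
      refine DFunLike.ext _ _ (fun γ => ?_)
      have h2 := hcon (Additive.toMul γ)
      rw [AddMonoidHom.zero_apply, AddMonoidHom.finsetSum_apply]
      simpa [ev, AddMonoidHom.smul_apply] using h2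
    funext j
    exact Fintype.linearIndependent_iff.1 hX d h1 j
  obtain ⟨t, ht⟩ := (isCompact_sphere (0 : Fin n → ℝ) 1).elim_finite_subcover
    (fun γ : Γ => {d : Fin n → ℝ | ∑ j, d j * ev (X j) γ ≠ 0})
    (fun γ => by
      have hcont : Continuous (fun d : Fin n → ℝ => ∑ j, d j * ev (X j) γ) :=
        continuous_finsetSum _ (fun j _ => (continuous_apply j).mul continuous_const)
      exact isOpen_ne_fun hcont continuous_const)
    (fun d hd => by
      have hd0 : d ≠ 0 := by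
        intro h
        rw [h] at hd
        simp at hd
      obtain ⟨γ, hγ⟩ := hcover d hd0
      exact Set.mem_iUnion.2 ⟨γ, hγ⟩)
  set B : ℝ := ∑ γ ∈ t, ∑ j, |ev (X j) γ| with hB
  have hB0 : 0 ≤ B := Finset.sum_nonneg (fun γ _ => Finset.sum_nonneg (fun j _ => abs_nonneg _))
  refine ⟨1 / (1 + B), by positivity, ?_⟩
  intro d hd hexp
  by_contra hne
  have hnorm : 0 < ‖d‖ := norm_pos_iff.2 hne
  have hmem : (‖d‖⁻¹ • d) ∈ Metric.sphere (0 : Fin n → ℝ) 1 := by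
    rw [mem_sphere_zero_iff_norm, norm_smul, norm_inv, norm_norm, inv_mul_cancel₀ hnorm.ne']
  obtain ⟨γ, hγt, hγ⟩ : ∃ γ ∈ t, ∑ j, (‖d‖⁻¹ • d) j * ev (X j) γ ≠ 0 := by
    have := ht hmem
    simpa using this
  have hγ' : ∑ j, d j * ev (X j) γ ≠ 0 := by
    intro h
    apply hγ
    have : ∑ j, (‖d‖⁻¹ • d) j * ev (X j) γ = ‖d‖⁻¹ * ∑ j, d j * ev (X j) γ := by
      rw [Finset.mul_sum]
      refine Finset.sum_congr rfl (fun j _ => ?_)
      simp only [Pi.smul_apply, smul_eq_mul]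
      ring
    rw [this, h, mul_zero]
  -- the value is small
  have hsmall : |∑ j, d j * ev (X j) γ| < 1 := by
    have h1 : |∑ j, d j * ev (X j) γ| ≤ ∑ j, (1 / (1 + B)) * |ev (X j) γ| := by
      refine (Finset.abs_sum_le_sum_abs _ _).trans (Finset.sum_le_sum (fun j _ => ?_))
      rw [abs_mul]
      exact mul_le_mul_of_nonneg_right (hd j).le (abs_nonneg _)
    have h2 : ∑ j, |ev (X j) γ| ≤ B :=
      Finset.single_le_sum (f := fun γ => ∑ j, |ev (X j) γ|)
        (fun γ _ => Finset.sum_nonneg (fun j _ => abs_nonneg _)) hγt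
    rw [← Finset.mul_sum] at h1
    have h3 : 1 / (1 + B) * ∑ j, |ev (X j) γ| ≤ 1 / (1 + B) * B :=
      mul_le_mul_of_nonneg_left h2 (by positivity)
    have h4 : 1 / (1 + B) * B < 1 := by
      rw [one_div, inv_mul_lt_iff₀ (by positivity)]
      linarith
    linarith
  have hexpγ := hexp γ
  rw [Complex.exp_eq_one_iff] at hexpγ
  obtain ⟨k, hk⟩ := hexpγ
  have hk' : (∑ j, d j * ev (X j) γ : ℝ) = k * (2 * Real.pi) := by
    have h1 : ((∑ j, d j * ev (X j) γ : ℝ) : ℂ) * I = ((k * (2 * Real.pi) : ℝ) : ℂ) * I := by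
      rw [hk]
      push_cast
      ring
    exact_mod_cast mul_right_cancel₀ Complex.I_ne_zero h1
  have hk0 : k = 0 := by
    by_contra hk0
    have h1 : (1 : ℝ) ≤ |(k : ℝ)| := by
      have : (1 : ℤ) ≤ |k| := Int.one_le_abs hk0
      exact_mod_cast this
    rw [hk', abs_mul, abs_of_pos Real.two_pi_pos] at hsmall
    nlinarith [Real.pi_gt_three]
  rw [hk0] at hk'
  apply hγ'
  rw [hk']
  simp

end

end Pool.Agent.Lib.MP_b16327_pr
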