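import Pool.Agent.Lib.MP_b16327_pr.PairC
import Pool.Agent.Lib.MP_b16327_pr.FluxC
import Pool.Agent.Lib.MP_b16327_pr.CommB
import Pool.Agent.Lib.MP_b16327_pr.JB

/-! # Zeros of the spectral function and non-vanishing fluxes -/

namespace Pool.Agent.Lib.MP_b16327_pr

open Complex MeasureTheory ComplexConjugate Filter
open scoped Complex.UnitDisc Topology BoundedContinuousFunction

noncomputable section

/-- characters `x + i J x` -/
def Hol (c : Fin 4 → ℂ) : Prop := c 1 = I * c 0 ∧ c 3 = I * c 2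

/-- characters `x - i J x` -/
def AHol (c : Fin 4 → ℂ) : Prop := c 1 = -I * c 0 ∧ c 3 = -I * c 2

/-- the four homomorphisms -/
def X4 {Γ : Subgroup SU11} (J : HomR Γ →ₗ[ℝ] HomR Γ) (x y : HomR Γ) : Fin 4 → HomR Γ :=
  ![x, J x, y, J y]

/-- the smallness property of `small_char` -/
def Small {Γ : Subgroup SU11} {n : ℕ} (X : Fin n → HomR Γ) (ρ : ℝ) : Prop :=
  0 < ρ ∧ ∀ d : Fin n → ℝ, (∀ j, |d j| < ρ) →
      (∀ γ : Γ, Complex.exp ((∑ j, d j * ev (X j) γ : ℝ) * I) = 1) → d = 0

theorem ev_add {Γ : Subgroup SU11} (x y : HomR Γ) (γ : Γ) : ev (x + y) γ = ev x γ + ev y γ := rfl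

theorem ev_smul {Γ : Subgroup SU11} (a : ℝ) (x : HomR Γ) (γ : Γ) : ev (a • x) γ = a * ev x γ := rfl

theorem ev_neg {Γ : Subgroup SU11} (x : HomR Γ) (γ : Γ) : ev (-x) γ = -ev x γ := rfl

theorem hol_of_holo {Γ : Subgroup SU11} (hc : IsCocpt Γ) (J : HomR Γ →ₗ[ℝ] HomR Γ)
    (hJJ : ∀ x, J (J x) = -x) (hΨ : ∀ x, ∃ Ψ, IsPsi Ψ x (J x)) {x y : HomR Γ} {ρ : ℝ}
    (hρ : Small (X4 J x y) ρ) {c : Fin 4 → ℂ} (hcs : ∀ j, ‖c j‖ < ρ / 2) {F : ℂ → ℂ}
    (hF : Holo F) (hF0 : ∃ z : 𝔻, F z ≠ 0)
    (heq : ∀ (γ : Γ) (z : 𝔻), F (((γ : SU11) • z : 𝔻) : ℂ) = lc (X4 J x y) c γ * F z) :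
    Hol c := by
  set x' : HomR Γ := (c 0).re • x + (c 1).re • J x + (c 2).re • y + (c 3).re • J y with hx'
  obtain ⟨Ψ, hΨ'⟩ := hΨ x'
  have hJx' : J x' = (c 0).re • J x - (c 1).re • x + (c 2).re • J y - (c 3).re • y := by
    rw [hx']
    simp only [map_add, map_smul, hJJ, smul_neg]
    abel
  have hchi : ∀ γ : Γ, chi (X4 J x y) c γ =
      c 0 * (ev x γ : ℂ) + c 1 * (ev (J x) γ : ℂ) + c 2 * (ev y γ : ℂ) + c 3 * (ev (J y) γ : ℂ) := by
    intro γ
    unfold chi X4
    rw [Fin.sum_univ_four]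
    rfl
  have hev' : ∀ γ : Γ, ev x' γ = (c 0).re * ev x γ + (c 1).re * ev (J x) γ + (c 2).re * ev y γ +
      (c 3).re * ev (J y) γ := by
    intro γ
    rw [hx']
    rfl
  have hevJ : ∀ γ : Γ, ev (J x') γ = (c 0).re * ev (J x) γ - (c 1).re * ev x γ +
      (c 2).re * ev (J y) γ - (c 3).re * ev y γ := by
    intro γ
    rw [hJx']
    rfl
  have hre : ∀ γ : Γ, (chi (X4 J x y) c γ).re = ev x' γ := by
    intro γ
    rw [hchi, hev']
    simp
  have key := max_modulus hc hF hF0 (chi (X4 J x y) c) heq hre hΨ'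
  set d : Fin 4 → ℝ := ![(c 0).im + (c 1).re, (c 1).im - (c 0).re, (c 2).im + (c 3).re,
    (c 3).im - (c 2).re] with hd
  have hd0 : d = 0 := by
    refine hρ.2 d ?_ ?_
    · intro j
      have h0 := hcs 0
      have h1 := hcs 1
      have h2 := hcs 2
      have h3 := hcs 3
      have a0 := Complex.abs_re_le_norm (c 0)
      have a1 := Complex.abs_re_le_norm (c 1)
      have a2 := Complex.abs_re_le_norm (c 2)
      have a3 := Complex.abs_re_le_norm (c 3)
      have b0 := Complex.abs_im_le_norm (c 0)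
      have b1 := Complex.abs_im_le_norm (c 1)
      have b2 := Complex.abs_im_le_norm (c 2)
      have b3 := Complex.abs_im_le_norm (c 3)
      fin_cases j
      · simp only [hd]
        exact (abs_add_le _ _).trans_lt (by linarith)
      · simp only [hd]
        exact (abs_sub _ _).trans_lt (by linarith)
      · simp only [hd]
        exact (abs_add_le _ _).trans_lt (by linarith)
      · simp only [hd]
        exact (abs_sub _ _).trans_lt (by linarith)
    · intro γ
      have h1 := key γ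
      have h2 : ((∑ j, d j * ev (X4 J x y j) γ : ℝ) : ℂ) * I =
          chi (X4 J x y) c γ - ((ev x' γ : ℂ) + ev (J x') γ * I) := by
        rw [hchi, hev', hevJ, Fin.sum_univ_four]
        have e0 : X4 J x y 0 = x := rfl
        have e1 : X4 J x y 1 = J x := rfl
        have e2 : X4 J x y 2 = y := rfl
        have e3 : X4 J x y 3 = J y := rfl
        have d0 : d 0 = (c 0).im + (c 1).re := rfl
        have d1 : d 1 = (c 1).im - (c 0).re := rfl
        have d2 : d 2 = (c 2).im + (c 3).re := rfl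
        have d3 : d 3 = (c 3).im - (c 2).re := rfl
        rw [e0, e1, e2, e3, d0, d1, d2, d3]
        conv_rhs => rw [← Complex.re_add_im (c 0), ← Complex.re_add_im (c 1),
          ← Complex.re_add_im (c 2), ← Complex.re_add_im (c 3)]
        push_cast
        simp only [Complex.add_re, Complex.ofReal_re, Complex.mul_re, Complex.I_re, mul_zero,
          Complex.ofReal_im, Complex.I_im, mul_one, sub_self, add_zero]
        ring
      rw [h2, Complex.exp_sub, h1, div_self (Complex.exp_ne_zero _)]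
  have e0 : (c 0).im + (c 1).re = 0 := congrFun hd0 0
  have e1 : (c 1).im - (c 0).re = 0 := congrFun hd0 1
  have e2 : (c 2).im + (c 3).re = 0 := congrFun hd0 2
  have e3 : (c 3).im - (c 2).re = 0 := congrFun hd0 3
  constructor
  · apply Complex.ext
    · simp; linarith
    · simp; linarith
  · apply Complex.ext
    · simp; linarith
    · simp; linarith

theorem ahol_of_antiholo {Γ : Subgroup SU11} (hc : IsCocpt Γ) (J : HomR Γ →ₗ[ℝ] HomR Γ)
    (hJJ : ∀ x, J (J x) = -x) (hΨ : ∀ x, ∃ Ψ, IsPsi Ψ x (J x)) {x y : HomR Γ} {ρ : ℝ}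
    (hρ : Small (X4 J x y) ρ) {c : Fin 4 → ℂ} (hcs : ∀ j, ‖c j‖ < ρ / 2) {F : ℂ → ℂ}
    (hF : Holo F) (hF0 : ∃ z : 𝔻, F z ≠ 0)
    (heq : ∀ (γ : Γ) (z : 𝔻), F (((γ : SU11) • z : 𝔻) : ℂ) = conj (lc (X4 J x y) c γ) * F z) :
    AHol c := by
  have h := hol_of_holo hc J hJJ hΨ hρ (c := fun j => conj (c j))
    (fun j => by rw [Complex.norm_conj]; exact hcs j) hF hF0
    (fun γ z => by rw [heq, lc_conj])
  obtain ⟨h1, h2⟩ := h
  have g1 := congrArg conj h1
  have g2 := congrArg conj h2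
  simp only [Complex.conj_conj, map_mul, Complex.conj_I] at g1 g2
  exact ⟨g1, g2⟩

/-- small characters with `exp χ = 1` are trivial -/
theorem exists_ne_one {Γ : Subgroup SU11} {n : ℕ} {X : Fin n → HomR Γ}
    (hX : LinearIndependent ℝ X) {ρ : ℝ} (hρ : Small X ρ) {c : Fin n → ℂ}
    (hcs : ∀ j, ‖c j‖ < ρ) (hc0 : c ≠ 0) : ∃ γ, lc X c γ ≠ 1 := by
  by_contra hcon
  push Not at hcon
  apply hc0
  have hre : (fun j => (c j).re) = 0 := by
    have h1 : ∑ j, (c j).re • X j = 0 := by
      refine AddMonoidHom.ext fun γ => ?_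
      have h2 := congrArg norm (hcon (Additive.toMul γ))
      unfold lc at h2
      rw [Complex.norm_exp, norm_one, Real.exp_eq_one_iff] at h2
      unfold chi at h2
      rw [Complex.re_sum] at h2
      simp only [Complex.mul_re, Complex.ofReal_re, Complex.ofReal_im, mul_zero, sub_zero] at h2
      rw [AddMonoidHom.zero_apply]
      rw [← h2]
      simp only [AddMonoidHom.finsetSum_apply, AddMonoidHom.smul_apply, smul_eq_mul]
      rfl
    have := Fintype.linearIndependent_iff.1 hX _ h1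
    funext j
    exact this j
  have him : (fun j => (c j).im) = 0 := by
    refine hρ.2 _ ?_ ?_
    · intro j
      exact (Complex.abs_im_le_norm _).trans_lt (hcs j)
    · intro γ
      rw [← hcon γ]
      unfold lc chi
      congr 1
      push_cast
      rw [Finset.sum_mul]
      apply Finset.sum_congr rfl
      intro j _
      have hj : (c j).re = 0 := congrFun hre j
      conv_rhs => rw [← Complex.re_add_im (c j), hj]
      push_cast
      ring
  funext j
  apply Complex.ext
  · exact congrFun hre j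
  · exact congrFun him j

end

end Pool.Agent.Lib.MP_b16327_pr
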