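import Pool.Agent.Lib.MP_b16327_pr.CoreA

/-! # The harmonic function at a zero of the spectral function -/

namespace Pool.Agent.Lib.MP_b16327_pr

open Complex MeasureTheory ComplexConjugate Filter
open scoped Complex.UnitDisc Topology BoundedContinuousFunction

noncomputable section

theorem gau_ne_zero {n : ℕ} (b : Fin n → 𝔻 → ℝ) (c : Fin n → ℂ) (z : 𝔻) : gau b c z ≠ 0 :=
  Complex.exp_ne_zero _

theorem gau_neg {n : ℕ} (b : Fin n → 𝔻 → ℝ) (c : Fin n → ℂ) (z : 𝔻) :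
    gau b c z * gau b (-c) z = 1 := by
  unfold gau
  rw [← Complex.exp_add, ← Finset.sum_add_distrib]
  simp

theorem continuous_gau {Γ : Subgroup SU11} {n : ℕ} {X : Fin n → HomR Γ} {b : Fin n → 𝔻 → ℝ}
    (hb : IsB X b) (c : Fin n → ℂ) : Continuous (gau b c) := by
  unfold gau
  refine Complex.continuous_exp.comp (continuous_finsetSum _ fun j _ => ?_)
  exact continuous_const.mul (Complex.continuous_ofReal.comp (hb.cont j))

theorem expF_eq' {n : ℕ} (b : Fin n → 𝔻 → ℝ) (c : Fin n → ℂ) (z w : 𝔻) :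
    expF b c z w = gau b (-c) z * gau b c w := by
  have h1 := expF_eq b c z w
  have h2 := gau_neg b c z
  calc expF b c z w = expF b c z w * (gau b c z * gau b (-c) z) := by rw [h2, mul_one]
    _ = (expF b c z w * gau b c z) * gau b (-c) z := by ring
    _ = gau b (-c) z * gau b c w := by rw [h1]; ring

theorem chi_neg {Γ : Subgroup SU11} {n : ℕ} (X : Fin n → HomR Γ) (c : Fin n → ℂ) (γ : Γ) :
    chi X (-c) γ = -chi X c γ := by
  unfold chi
  simp

theorem gau_smul' {Γ : Subgroup SU11} {n : ℕ} {X : Fin n → HomR Γ} {b : Fin n → 𝔻 → ℝ}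
    (hb : IsB X b) (c : Fin n → ℂ) (γ : Γ) (z : 𝔻) :
    gau b c ((γ : SU11) • z) = lc X c γ * gau b c z := gau_smul hb c γ z

/-- an `M^c`-fixed vector gives an `M`-harmonic equivariant function -/
theorem mop_of_fixed {Γ : Subgroup SU11} {n : ℕ} {b : Fin n → 𝔻 → ℝ}
    {R : ℝ} (M : (Fin n → ℂ) → (EG Γ →L[ℂ] EG Γ))
    (hM : ∀ c v z, ap (M c v) z = AvF R (fun z w => expF b c z w * ap v w) z)
    (c : Fin n → ℂ) (v : EG Γ) (hv : M c v = v) (z : 𝔻) :
    Mop R (fun w => gau b c w * ap v w) z = gau b c z * ap v z := by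
  rw [Mop_gau, ← hM c v z, hv]

/-- conversely -/
theorem fixed_of_mop {Γ : Subgroup SU11} {n : ℕ} {b : Fin n → 𝔻 → ℝ}
    {R : ℝ} (M : (Fin n → ℂ) → (EG Γ →L[ℂ] EG Γ))
    (hM : ∀ c v z, ap (M c v) z = AvF R (fun z w => expF b c z w * ap v w) z)
    (c : Fin n → ℂ) (v : EG Γ)
    (h : ∀ z, Mop R (fun w => gau b c w * ap v w) z = gau b c z * ap v z) : M c v = v := by
  apply EG_ext
  intro z
  rw [hM c v z]
  have h1 := h z
  rw [Mop_gau] at h1
  exact mul_left_cancel₀ (gau_ne_zero b c z) h1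

/-- equivariant continuous functions are of the form `gau * v` -/
theorem exists_EG_of_equiv {Γ : Subgroup SU11} (hc : IsCocpt Γ) {n : ℕ} {X : Fin n → HomR Γ}
    {b : Fin n → 𝔻 → ℝ} (hb : IsB X b) (c : Fin n → ℂ) {F : 𝔻 → ℂ} (hF : Continuous F)
    (heq : ∀ (γ : Γ) (z : 𝔻), F ((γ : SU11) • z) = lc X c γ * F z) :
    ∃ v : EG Γ, ∀ z, F z = gau b c z * ap v z := by
  obtain ⟨v, hv⟩ := EG_exists_of hc (u := fun z => gau b (-c) z * F z)
    ((continuous_gau hb (-c)).mul hF) (by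
      intro g hg z
      have h1 := gau_smul' hb (-c) ⟨g, hg⟩ z
      have h2 := heq ⟨g, hg⟩ z
      have h3 := lc_neg X c ⟨g, hg⟩
      simp only at h1 h2
      rw [h1, h2]
      linear_combination (gau b (-c) z * F z) * h3)
  refine ⟨v, fun z => ?_⟩
  rw [hv]
  have := gau_neg b c z
  linear_combination (-F z) * this

/-- `E c = 0` if there is a non-zero equivariant `M`-harmonic function -/
theorem E_eq_zero {Γ : Subgroup SU11} (hc : IsCocpt Γ) {P : PU Γ} {n : ℕ}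
    {X : Fin n → HomR Γ} {b : Fin n → 𝔻 → ℝ} (hb : IsB X b) {R : ℝ} (S : Spec Γ P n X b R)
    {c : Fin n → ℂ} (hcb : c ∈ Metric.ball (0 : Fin n → ℂ) S.ρ) {F : 𝔻 → ℂ} (hF : Continuous F)
    (heq : ∀ (γ : Γ) (z : 𝔻), F ((γ : SU11) • z) = lc X c γ * F z)
    (hM : ∀ z, Mop R F z = F z) (h0 : ∃ z, F z ≠ 0) : S.E c = 0 := by
  by_contra hne
  obtain ⟨v, hv⟩ := exists_EG_of_equiv hc hb c hF heq
  have h1 : S.M c v = v := by
    apply fixed_of_mop S.M S.M_apply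
    intro z
    have e1 : (fun w => gau b c w * ap v w) = F := by
      funext w
      rw [hv]
    rw [e1, hM, hv]
  have h2 := (S.uniq c hcb v h1).2 hne
  obtain ⟨z, hz⟩ := h0
  apply hz
  rw [hv, h2]
  show gau b c z * 0 = 0
  rw [mul_zero]

theorem phi_ne_zero {Γ : Subgroup SU11} {P : PU Γ} {n : ℕ}
    {X : Fin n → HomR Γ} {b : Fin n → 𝔻 → ℝ} {R : ℝ} (S : Spec Γ P n X b R)
    {c : Fin n → ℂ} (hcb : c ∈ Metric.ball (0 : Fin n → ℂ) S.ρ) : ∃ z, ap (S.φ c) z ≠ 0 := by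
  by_contra hcon
  push Not at hcon
  have h1 : S.φ c = 0 := by
    apply EG_ext
    intro z
    rw [hcon z]
    rfl
  have h2 := S.φ_I c hcb
  rw [h1, map_zero] at h2
  exact zero_ne_one h2

theorem phi_fixed {Γ : Subgroup SU11} {P : PU Γ} {n : ℕ}
    {X : Fin n → HomR Γ} {b : Fin n → 𝔻 → ℝ} {R : ℝ} (S : Spec Γ P n X b R)
    {c : Fin n → ℂ} (hcb : c ∈ Metric.ball (0 : Fin n → ℂ) S.ρ) (hE : S.E c = 0) :
    S.M c (S.φ c) = S.φ c := by
  have h := S.φ_eq c hcb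
  rw [hE, zero_smul, sub_eq_zero] at h
  exact h.symm

/-- `Φ_c = s_c φ_c` has the circle mean value property at a zero of `E` -/
theorem Phi_cmv {Γ : Subgroup SU11} (hc : IsCocpt Γ) {P : PU Γ} {n : ℕ}
    {X : Fin n → HomR Γ} {b : Fin n → 𝔻 → ℝ} (hb : IsB X b) {R : ℝ} (hL : Large Γ R)
    (S : Spec Γ P n X b R)
    {c : Fin n → ℂ} (hcb : c ∈ Metric.ball (0 : Fin n → ℂ) S.ρ) (hE : S.E c = 0) :
    CMV (fun z => gau b c z * ap (S.φ c) z) := by
  have hR0 := hL.1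
  have hR := hL.2.1
  set Φ : 𝔻 → ℂ := fun z => gau b c z * ap (S.φ c) z with hΦ
  have hcont : Continuous Φ := (continuous_gau hb c).mul (EG_continuous _)
  have hMΦ : ∀ z, Mop R Φ z = Φ z := mop_of_fixed S.M S.M_apply c _ (phi_fixed S hcb hE)
  have hΦeq : ∀ (γ : Γ) (z : 𝔻), Φ ((γ : SU11) • z) = lc X c γ * Φ z := by
    intro γ z
    simp only [hΦ]
    rw [gau_smul' hb, EG_ap_smul _ γ.2]
    ring
  have hG := Gm_cmv hR0 hR hcont hMΦ
  have hGeq : ∀ (γ : Γ) (z : 𝔻), Gm R Φ ((γ : SU11) • z) = lc X c γ * Gm R Φ z := by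
    intro γ z
    rw [Gm_smul]
    have e1 : (fun w => Φ ((γ : SU11) • w)) = fun w => lc X c γ * Φ w := by
      funext w
      exact hΦeq γ w
    rw [e1]
    unfold Gm
    rw [← integral_const_mul]
    congr 1
    funext w
    rw [Complex.real_smul, Complex.real_smul]
    ring
  obtain ⟨v, hv⟩ := exists_EG_of_equiv hc hb c hG.cont hGeq
  have hvfix : S.M c v = v := by
    apply fixed_of_mop S.M S.M_apply
    intro z
    have e1 : (fun w => gau b c w * ap v w) = Gm R Φ := by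
      funext w
      rw [hv]
    rw [e1, hG.mop hR0 hR, hv]
  have h1 := (S.uniq c hcb v hvfix).1
  have hvne : ap v 0 ≠ 0 := by
    intro h0
    have e2 : ap v 0 = Gm R (fun w => expF b c 0 w * ap (S.φ c) w) 0 := by
      have e3 : (fun w => expF b c 0 w * ap (S.φ c) w) = fun w => gau b (-c) 0 * Φ w := by
        funext w
        rw [expF_eq']
        simp only [hΦ]
        ring
      rw [e3]
      have e4 : Gm R (fun w => gau b (-c) 0 * Φ w) 0 = gau b (-c) 0 * Gm R Φ 0 := by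
        unfold Gm
        rw [← integral_const_mul]
        congr 1
        funext w
        rw [Complex.real_smul, Complex.real_smul]
        ring
      rw [e4, hv]
      have := gau_neg b c 0
      linear_combination (-ap v 0) * this
    have hcf : Continuous (fun w => expF b c 0 w * ap (S.φ c) w) := by
      have e3 : (fun w => expF b c 0 w * ap (S.φ c) w) = fun w => gau b (-c) 0 * Φ w := by
        funext w
        rw [expF_eq']
        simp only [hΦ]
        ring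
      rw [e3]
      exact continuous_const.mul hcont
    have h5 := norm_Gm_sub_le hR0 hR hcf (z := 0) (c := 1) (C := 1 / 2)
      (fun w hw => S.near c hcb 0 w hw)
    rw [← e2, h0, zero_sub, norm_neg, norm_smul, norm_one, mul_one,
      Real.norm_of_nonneg (c1_pos hR0 hR).le] at h5
    have := c1_pos hR0 hR
    linarith
  have hIv : IG P v ≠ 0 := by
    intro h0
    apply hvne
    rw [h1, h0, zero_smul]
    rfl
  have hfin : Φ = fun z => (IG P v)⁻¹ * Gm R Φ z := by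
    funext z
    rw [hv]
    have h2 : ap v z = IG P v * ap (S.φ c) z := by
      conv_lhs => rw [h1]
      rfl
    rw [h2]
    simp only [hΦ]
    field_simp
  rw [hfin]
  exact hG.const_mul _

/-- non-zero flux -/
theorem flux_ne {Γ : Subgroup SU11} (hd : IsDisc Γ) (hc : IsCocpt Γ) (P : PU Γ)
    (J : HomR Γ →ₗ[ℝ] HomR Γ) (hJJ : ∀ x, J (J x) = -x) (hΨ : ∀ x, ∃ Ψ, IsPsi Ψ x (J x))
    {x y : HomR Γ} {ρ : ℝ} (hX : LinearIndependent ℝ (X4 J x y)) (hρ : Small (X4 J x y) ρ)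
    {b : Fin 4 → 𝔻 → ℝ} (hb : IsB (X4 J x y) b) {R : ℝ} (hL : Large Γ R)
    (S : Spec Γ P 4 (X4 J x y) b R) {c : Fin 4 → ℂ}
    (hcb : c ∈ Metric.ball (0 : Fin 4 → ℂ) S.ρ) (hcs : ∀ j, ‖c j‖ < ρ / 2) (hE : S.E c = 0)
    (h1 : ¬ Hol c) (h2 : ¬ AHol c) :
    ∃ H : HypD Γ, Null H ∧ P.I (fun z => (Mop R (bc (X4 J x y) H (-c)) z - bc (X4 J x y) H (-c) z) *
      (gau b c z * ap (S.φ c) z)) ≠ 0 := by
  have hR0 := hL.1
  have hR := hL.2.1
  set Φ : 𝔻 → ℂ := fun z => gau b c z * ap (S.φ c) z with hΦ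
  have hcmv : CMV Φ := Phi_cmv hc hb hL S hcb hE
  have hΦeq : ∀ (γ : Γ) (z : 𝔻), Φ ((γ : SU11) • z) = lc (X4 J x y) c γ * Φ z := by
    intro γ z
    simp only [hΦ]
    rw [gau_smul' hb, EG_ap_smul _ γ.2]
    ring
  obtain ⟨z₀, hz₀⟩ := phi_ne_zero S hcb
  have hΦ0 : ∃ z, Φ z ≠ 0 := ⟨z₀, mul_ne_zero (gau_ne_zero b c z₀) hz₀⟩
  obtain ⟨p, q, hp, hq, hpq⟩ := hcmv.decomp
  have hc0 : c ≠ 0 := by
    rintro rfl
    apply h1
    constructor <;> simp
  obtain ⟨γ₀, hγ₀⟩ := exists_ne_one hX hρ (c := c)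
    (fun j => (hcs j).trans (by have := hρ.1; linarith)) hc0
  rcases exists_flux hd hc (l := lc (X4 J x y) c) (fun γ δ => lc_mul (X4 J x y) c γ δ)
    (by unfold lc chi ev; simp) (fun γ => Complex.exp_ne_zero _) hγ₀ hp hq hpq hΦ0 hΦeq with
    ⟨H, γ, δ, κ, hHa, hκ, hpκ⟩ | ⟨F, hF, hF0, hFeq⟩ | ⟨F, hF, hF0, hFeq⟩
  · have hnull : Null H := null_of_comm H hHa
    refine ⟨H, hnull, ?_⟩
    obtain ⟨c₀, hc₀, hfl⟩ := flux hd P H hR0 hR
    have := hfl (lc (X4 J x y) (-c)) (lc (X4 J x y) c) (adm_lc (X4 J x y) (-c) hnull)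
      (fun γ => by rw [mul_comm]; exact lc_neg (X4 J x y) c γ) Φ p q κ hcmv.cont hp hq hpq hΦeq hpκ
    show P.I (fun z => (Mop R (H.bco (lc (X4 J x y) (-c))) z - H.bco (lc (X4 J x y) (-c)) z) * Φ z) ≠ 0
    rw [this]
    exact mul_ne_zero hc₀ hκ
  · exact absurd (hol_of_holo hc J hJJ hΨ hρ hcs hF hF0 hFeq) h1
  · exact absurd (ahol_of_antiholo hc J hJJ hΨ hρ hcs hF hF0 hFeq) h2

end

end Pool.Agent.Lib.MP_b16327_pr
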