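import Pool.Agent.Lib.MP_b16327_pr.MuA

/-! # The random walk side: main theorem -/

namespace Pool.Agent.Lib.MP_b16327_pr

open Complex MeasureTheory ComplexConjugate Filter
open scoped Complex.UnitDisc Topology BoundedContinuousFunction

noncomputable section


private theorem muB_bij {Γ Γ₁ : Subgroup SU11} {m : ℕ} {r : Fin m → SU11} (hT : Trans Γ Γ₁ m r)
    {h : SU11} (hh : h ∈ Γ) :
    ∃ σ : Fin m ≃ Fin m, ∀ i, r i * h * (r (σ i))⁻¹ ∈ Γ₁ := by
  have h1 : ∀ i, ∃ j, r i * h * (r j)⁻¹ ∈ Γ₁ := fun i =>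
    (hT.ex (r i * h) (Γ.mul_mem (hT.mem i) hh)).exists
  choose s hs using h1
  have hinj : Function.Injective s := by
    intro i i' hii
    have a1 := hs i
    have a2 := hs i'
    rw [hii] at a1
    have a3 : r i * (r i')⁻¹ ∈ Γ₁ := by
      have a4 := Γ₁.mul_mem a1 (Γ₁.inv_mem a2)
      have a5 : r i * h * (r (s i'))⁻¹ * (r i' * h * (r (s i'))⁻¹)⁻¹ = r i * (r i')⁻¹ := by group
      rwa [a5] at a4
    have a6 : r i * (r i)⁻¹ ∈ Γ₁ := by
      rw [mul_inv_cancel]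
      exact Γ₁.one_mem
    exact (hT.ex (r i) (hT.mem i)).unique a6 a3
  have hbij : Function.Bijective s := Finite.injective_iff_bijective.1 hinj
  exact ⟨Equiv.ofBijective s hbij, fun i => hs i⟩

/-- sums of invariant functions over the transversal are invariant under right translation -/
private theorem muB_sum_shift {E : Type*} [AddCommMonoid E] {Γ Γ₁ : Subgroup SU11} {m : ℕ}
    {r : Fin m → SU11} (hT : Trans Γ Γ₁ m r) {h : SU11} (hh : h ∈ Γ) (φ : SU11 → E)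
    (hφ : ∀ (γ : Γ₁), ∀ g ∈ Γ, φ ((γ : SU11) * g) = φ g) :
    ∑ i, φ (r i * h) = ∑ i, φ (r i) := by
  obtain ⟨σ, hσ⟩ := muB_bij hT hh
  rw [← Equiv.sum_comp σ (fun i => φ (r i))]
  refine Finset.sum_congr rfl fun i _ => ?_
  have h1 := hφ ⟨r i * h * (r (σ i))⁻¹, hσ i⟩ (r (σ i)) (hT.mem _)
  rw [← h1]
  congr 1
  simp only [inv_mul_cancel_right]

private theorem muB_P_eq (W : Walk) (F : SU11 → ℂ) (g : SU11) : W.P F g = ∑ k, (W.p k : ℂ) * F (g * W.h k) := by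
  unfold Walk.P
  refine Finset.sum_congr rfl fun k _ => ?_
  rw [Complex.real_smul]

/-- RIGIDITY: an equivariant (unitary) function with `P F = F` is constant on `Γ` -/
private theorem muB_rigid (W : Walk) {Γ Γ₁ : Subgroup SU11} {m : ℕ} {r : Fin m → SU11}
    (hT : Trans Γ Γ₁ m r)
    (hΓ : Γ = Subgroup.closure (W.h '' {i | 0 < W.p i})) (hW : ∀ k, W.h k ∈ Γ)
    {l : Γ₁ → ℂ} (hun : ∀ γ, ‖l γ‖ = 1) (F : SU11 → ℂ)
    (hF : ∀ (γ : Γ₁), ∀ g ∈ Γ, F ((γ : SU11) * g) = l γ * F g)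
    (hP : ∀ i, ∑ k, (W.p k : ℂ) * F (r i * W.h k) = F (r i)) :
    ∀ g ∈ Γ, F g = F 1 := by
  have hsq : ∀ k, ∑ i, ‖F (r i * W.h k)‖ ^ 2 = ∑ i, ‖F (r i)‖ ^ 2 := fun k =>
    muB_sum_shift hT (hW k) (fun g => ‖F g‖ ^ 2) (fun γ g hg => by
      rw [hF γ g hg, norm_mul, hun, one_mul])
  -- the Dirichlet form vanishes
  have hD : ∑ k, W.p k * ∑ i, ‖F (r i * W.h k) - F (r i)‖ ^ 2 = 0 := by
    have e1 : ∀ a b : ℂ, ‖a - b‖ ^ 2 = ‖a‖ ^ 2 + ‖b‖ ^ 2 - 2 * (a * conj b).re := by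
      intro a b
      rw [← Complex.normSq_eq_norm_sq, ← Complex.normSq_eq_norm_sq, ← Complex.normSq_eq_norm_sq,
        Complex.normSq_sub]
    have e2 : ∀ k, ∑ i, ‖F (r i * W.h k) - F (r i)‖ ^ 2 =
        2 * (∑ i, ‖F (r i)‖ ^ 2) - 2 * ∑ i, (F (r i * W.h k) * conj (F (r i))).re := by
      intro k
      simp only [e1]
      rw [Finset.sum_sub_distrib, Finset.sum_add_distrib, hsq k, ← Finset.mul_sum]
      ring
    simp only [e2]
    have e3 : ∑ k, W.p k * (2 * (∑ i, ‖F (r i)‖ ^ 2) -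
        2 * ∑ i, (F (r i * W.h k) * conj (F (r i))).re) =
        2 * (∑ i, ‖F (r i)‖ ^ 2) * (∑ k, W.p k) -
        2 * ∑ i, ((∑ k, (W.p k : ℂ) * F (r i * W.h k)) * conj (F (r i))).re := by
      simp only [mul_sub, Finset.sum_sub_distrib, Finset.sum_mul, Complex.re_sum, Finset.mul_sum]
      congr 1
      · refine Finset.sum_congr rfl fun k _ => ?_
        refine Finset.sum_congr rfl fun i _ => ?_
        ring
      · rw [Finset.sum_comm]
        refine Finset.sum_congr rfl fun k _ => ?_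
        refine Finset.sum_congr rfl fun i _ => ?_
        rw [mul_assoc (W.p _ : ℂ), Complex.re_ofReal_mul]
        ring
    rw [e3, W.sum]
    have e4 : ∀ i, ((∑ k, (W.p k : ℂ) * F (r i * W.h k)) * conj (F (r i))).re = ‖F (r i)‖ ^ 2 := by
      intro i
      rw [hP i, Complex.mul_conj, Complex.ofReal_re, Complex.normSq_eq_norm_sq]
    simp only [e4]
    ring
  have hD' : ∀ k, 0 < W.p k → ∀ i, F (r i * W.h k) = F (r i) := by
    intro k hk i
    have h1 : ∀ k ∈ Finset.univ, 0 ≤ W.p k * ∑ i, ‖F (r i * W.h k) - F (r i)‖ ^ 2 := fun k _ =>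
      mul_nonneg (W.nonneg k) (Finset.sum_nonneg fun i _ => sq_nonneg _)
    have h2 := (Finset.sum_eq_zero_iff_of_nonneg h1).1 hD k (Finset.mem_univ _)
    have h3 : ∑ i, ‖F (r i * W.h k) - F (r i)‖ ^ 2 = 0 := by
      rcases mul_eq_zero.1 h2 with h3 | h3
      · exact absurd h3 hk.ne'
      · exact h3
    have h4 := (Finset.sum_eq_zero_iff_of_nonneg (fun i _ => sq_nonneg _)).1 h3 i
      (Finset.mem_univ _)
    exact sub_eq_zero.1 (norm_eq_zero.1 (pow_eq_zero_iff two_ne_zero |>.1 h4))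
  -- right invariance
  have hinv : ∀ k, 0 < W.p k → ∀ g ∈ Γ, F (g * W.h k) = F g := by
    intro k hk g hg
    obtain ⟨i, hi, -⟩ := hT.ex g hg
    have h1 : g = ((⟨g * (r i)⁻¹, hi⟩ : Γ₁) : SU11) * r i := by
      simp only [inv_mul_cancel_right]
    have h2 : g * W.h k = ((⟨g * (r i)⁻¹, hi⟩ : Γ₁) : SU11) * (r i * W.h k) := by
      rw [← mul_assoc, ← h1]
    rw [h2, hF _ _ (Γ.mul_mem (hT.mem i) (hW k)), hD' k hk i, ← hF _ _ (hT.mem i), ← h1]
  have hall : ∀ x ∈ Subgroup.closure (W.h '' {i | 0 < W.p i}), ∀ g ∈ Γ, F (g * x) = F g := by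
    intro x hx
    have hxΓ : ∀ x ∈ Subgroup.closure (W.h '' {i | 0 < W.p i}), x ∈ Γ := fun x hx => hΓ ▸ hx
    induction hx using Subgroup.closure_induction with
    | mem x hx =>
      obtain ⟨k, hk, rfl⟩ := hx
      exact hinv k hk
    | one => intro g _; rw [mul_one]
    | mul x y hx hy ihx ihy =>
      intro g hg
      rw [← mul_assoc, ihy _ (Γ.mul_mem hg (hxΓ x hx)), ihx g hg]
    | inv x hx ihx =>
      intro g hg
      have h1 := ihx (g * x⁻¹) (Γ.mul_mem hg (Γ.inv_mem (hxΓ x hx)))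
      rw [inv_mul_cancel_right] at h1
      exact h1.symm
  intro g hg
  have h1 := hall g (hΓ ▸ hg) 1 Γ.one_mem
  rw [one_mul] at h1
  exact h1

/-- the extension of a vector to an equivariant function -/
private def muB_ext {Γ₁ : Subgroup SU11} {m : ℕ} (r : Fin m → SU11) (l : Γ₁ → ℂ)
    (v : Fin m → ℂ) (g : SU11) : ℂ := ∑ j, lx l (g * (r j)⁻¹) * v j

private theorem muB_lx_mem {Γ₁ : Subgroup SU11} (l : Γ₁ → ℂ) {g : SU11} (hg : g ∈ Γ₁) :
    lx l g = l ⟨g, hg⟩ := by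
  unfold lx
  rw [dif_pos hg]

private theorem muB_lx_not {Γ₁ : Subgroup SU11} (l : Γ₁ → ℂ) {g : SU11} (hg : g ∉ Γ₁) :
    lx l g = 0 := by
  unfold lx
  rw [dif_neg hg]

private theorem muB_ext_eq {Γ Γ₁ : Subgroup SU11} {m : ℕ} {r : Fin m → SU11}
    (hT : Trans Γ Γ₁ m r) (l : Γ₁ → ℂ) (v : Fin m → ℂ) {g : SU11} (hg : g ∈ Γ) {i : Fin m}
    (hi : g * (r i)⁻¹ ∈ Γ₁) : muB_ext r l v g = l ⟨g * (r i)⁻¹, hi⟩ * v i := by
  unfold muB_ext
  rw [Finset.sum_eq_single i]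
  · rw [muB_lx_mem l hi]
  · intro j _ hj
    rw [muB_lx_not, zero_mul]
    intro h
    exact hj ((hT.ex g hg).unique h hi)
  · intro h
    exact absurd (Finset.mem_univ _) h

private theorem muB_ext_r {Γ Γ₁ : Subgroup SU11} {m : ℕ} {r : Fin m → SU11}
    (hT : Trans Γ Γ₁ m r) {l : Γ₁ → ℂ} (hl : l 1 = 1) (v : Fin m → ℂ) (i : Fin m) :
    muB_ext r l v (r i) = v i := by
  have h1 : r i * (r i)⁻¹ ∈ Γ₁ := by
    rw [mul_inv_cancel]
    exact Γ₁.one_mem
  rw [muB_ext_eq hT l v (hT.mem i) h1]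
  have h2 : (⟨r i * (r i)⁻¹, h1⟩ : Γ₁) = 1 := Subtype.ext (mul_inv_cancel _)
  rw [h2, hl, one_mul]

private theorem muB_ext_equiv {Γ Γ₁ : Subgroup SU11} {m : ℕ} {r : Fin m → SU11}
    (hT : Trans Γ Γ₁ m r) {l : Γ₁ → ℂ} (hl : ∀ γ δ : Γ₁, l (γ * δ) = l γ * l δ)
    (v : Fin m → ℂ) (γ : Γ₁) (g : SU11) (hg : g ∈ Γ) :
    muB_ext r l v ((γ : SU11) * g) = l γ * muB_ext r l v g := by
  obtain ⟨i, hi, -⟩ := hT.ex g hg
  have hi' : (γ : SU11) * g * (r i)⁻¹ ∈ Γ₁ := by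
    rw [mul_assoc]
    exact Γ₁.mul_mem γ.2 hi
  rw [muB_ext_eq hT l v (Γ.mul_mem (hT.le γ.2) hg) hi', muB_ext_eq hT l v hg hi]
  have h2 : (⟨(γ : SU11) * g * (r i)⁻¹, hi'⟩ : Γ₁) = γ * ⟨g * (r i)⁻¹, hi⟩ :=
    Subtype.ext (mul_assoc _ _ _)
  rw [h2, hl, mul_assoc]

private theorem muB_PM_mulVec (W : Walk) {Γ₁ : Subgroup SU11} {m : ℕ} (r : Fin m → SU11)
    (l : Γ₁ → ℂ) (v : Fin m → ℂ) (i : Fin m) :
    (PM W r l).mulVec v i = ∑ k, (W.p k : ℂ) * muB_ext r l v (r i * W.h k) := by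
  unfold Matrix.mulVec dotProduct PM muB_ext
  simp only [Finset.sum_mul, Finset.mul_sum]
  rw [Finset.sum_comm]
  refine Finset.sum_congr rfl fun k _ => ?_
  refine Finset.sum_congr rfl fun j _ => ?_
  ring

variable (W : Walk) {Γ₁ : Subgroup SU11} {m : ℕ} (r : Fin m → SU11)

/-- functions on the finite set `Γ₁\Γ`: `P` is doubly stochastic and irreducible there, so every
function of mean zero is of the form `P κ - κ` -/
theorem exists_kappa_mu {Γ : Subgroup SU11} (hT : Trans Γ Γ₁ m r)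
    (hΓ : Γ = Subgroup.closure (W.h '' {i | 0 < W.p i})) (hW : ∀ k, W.h k ∈ Γ)
    (f : SU11 → ℂ) (hf : ∀ (γ : Γ₁), ∀ g ∈ Γ, f ((γ : SU11) * g) = f g)
    (hmean : ∑ i, f (r i) = 0) :
    ∃ κ : SU11 → ℂ, (∀ (γ : Γ₁), ∀ g ∈ Γ, κ ((γ : SU11) * g) = κ g) ∧
      ∀ g ∈ Γ, W.P κ g - κ g = f g := by
  let l : Γ₁ → ℂ := fun _ => 1
  have hl1 : l 1 = 1 := rfl
  have hlm : ∀ γ δ : Γ₁, l (γ * δ) = l γ * l δ := fun γ δ => (mul_one 1).symm
  have hinv : ∀ (v : Fin m → ℂ) (γ : Γ₁), ∀ g ∈ Γ,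
      muB_ext r l v ((γ : SU11) * g) = muB_ext r l v g := by
    intro v γ g hg
    rw [muB_ext_equiv hT hlm v γ g hg]
    exact one_mul _
  -- the sum of `(P v)_i` is the sum of `v_i`
  have hcol : ∀ v : Fin m → ℂ, ∑ i, (PM W r l).mulVec v i = ∑ i, v i := by
    intro v
    simp only [muB_PM_mulVec]
    rw [Finset.sum_comm]
    have e1 : ∀ k, ∑ i, (W.p k : ℂ) * muB_ext r l v (r i * W.h k) = (W.p k : ℂ) * ∑ i, v i := by
      intro k
      rw [← Finset.mul_sum, muB_sum_shift hT (hW k) (muB_ext r l v) (hinv v)]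
      congr 1
      exact Finset.sum_congr rfl fun i _ => muB_ext_r hT hl1 v i
    simp only [e1]
    rw [← Finset.sum_mul]
    have e2 : (∑ k, (W.p k : ℂ)) = 1 := by exact_mod_cast congrArg (fun x : ℝ => (x : ℂ)) W.sum
    rw [e2, one_mul]
  -- the matrix `P - 1 + J`
  let J : Matrix (Fin m) (Fin m) ℂ := fun _ _ => 1
  have hJ : ∀ (v : Fin m → ℂ) i, J.mulVec v i = ∑ j, v j := by
    intro v i
    simp [Matrix.mulVec, dotProduct, J]
  have hsum : ∀ v : Fin m → ℂ, ∑ i, ((PM W r l - 1 + J).mulVec v) i = (m : ℂ) * ∑ j, v j := by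
    intro v
    simp only [Matrix.add_mulVec, Matrix.sub_mulVec, Matrix.one_mulVec, Pi.add_apply, Pi.sub_apply,
      hJ, Finset.sum_add_distrib, Finset.sum_sub_distrib, hcol]
    simp
  have hm : (m : ℂ) ≠ 0 := by exact_mod_cast hT.pos.ne'
  have hdet : (PM W r l - 1 + J).det ≠ 0 := by
    intro h0
    obtain ⟨v, hv0, hv⟩ := Matrix.exists_mulVec_eq_zero_iff.2 h0
    have h1 : ∑ j, v j = 0 := by
      have h2 := hsum v
      rw [hv] at h2
      simp only [Pi.zero_apply, Finset.sum_const_zero] at h2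
      rcases mul_eq_zero.1 h2.symm with h3 | h3
      · exact absurd h3 hm
      · exact h3
    have h2 : ∀ i, (PM W r l).mulVec v i = v i := by
      intro i
      have h3 := congrFun hv i
      rw [Matrix.add_mulVec, Matrix.sub_mulVec, Matrix.one_mulVec] at h3
      simp only [Pi.add_apply, Pi.sub_apply, hJ, h1, add_zero, Pi.zero_apply] at h3
      exact sub_eq_zero.1 h3
    have h4 := muB_rigid W hT hΓ hW (l := l) (fun _ => norm_one) (muB_ext r l v)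
      (fun γ g hg => muB_ext_equiv hT hlm v γ g hg) (fun i => by
        rw [← muB_PM_mulVec, h2, muB_ext_r hT hl1])
    have h5 : ∀ i, v i = muB_ext r l v 1 := by
      intro i
      rw [← muB_ext_r hT hl1 v i]
      exact h4 _ (hT.mem i)
    have h6 : (m : ℂ) * muB_ext r l v 1 = 0 := by
      rw [← h1]
      have h7 : ∑ j, v j = ∑ j : Fin m, muB_ext r l v 1 := Finset.sum_congr rfl fun i _ => h5 i
      rw [h7]
      simp
    apply hv0
    funext i
    rw [h5 i]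
    rcases mul_eq_zero.1 h6 with h7 | h7
    · exact absurd h7 hm
    · exact h7
  have hunit : IsUnit (PM W r l - 1 + J).det := isUnit_iff_ne_zero.2 hdet
  let v : Fin m → ℂ := (PM W r l - 1 + J)⁻¹.mulVec (fun i => f (r i))
  have hv : (PM W r l - 1 + J).mulVec v = fun i => f (r i) := by
    simp only [v, Matrix.mulVec_mulVec, Matrix.mul_nonsing_inv _ hunit, Matrix.one_mulVec]
  have hv1 : ∑ j, v j = 0 := by
    have h2 := hsum v
    rw [hv, hmean] at h2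
    rcases mul_eq_zero.1 h2.symm with h3 | h3
    · exact absurd h3 hm
    · exact h3
  have hv2 : ∀ i, (PM W r l).mulVec v i - v i = f (r i) := by
    intro i
    have h3 := congrFun hv i
    rw [Matrix.add_mulVec, Matrix.sub_mulVec, Matrix.one_mulVec] at h3
    simp only [Pi.add_apply, Pi.sub_apply, hJ, hv1, add_zero] at h3
    exact h3
  refine ⟨muB_ext r l v, hinv v, ?_⟩
  intro g hg
  obtain ⟨i, hi, -⟩ := hT.ex g hg
  have h1 : g = ((⟨g * (r i)⁻¹, hi⟩ : Γ₁) : SU11) * r i := by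
    simp only [inv_mul_cancel_right]
  have h2 : ∀ k, g * W.h k = ((⟨g * (r i)⁻¹, hi⟩ : Γ₁) : SU11) * (r i * W.h k) := by
    intro k
    rw [← mul_assoc, ← h1]
  have h3 : W.P (muB_ext r l v) g = (PM W r l).mulVec v i := by
    rw [muB_P_eq, muB_PM_mulVec]
    refine Finset.sum_congr rfl fun k _ => ?_
    rw [h2 k, hinv v _ _ (Γ.mul_mem (hT.mem i) (hW k))]
  have h4 : muB_ext r l v g = v i := by
    rw [h1, hinv v _ _ (hT.mem i), muB_ext_r hT hl1]
  have h5 : f g = f (r i) := by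
    rw [h1, hf _ _ (hT.mem i)]
  rw [h3, h4, h5]
  exact hv2 i

/-- boundedness of functions whose norm lives on the finite quotient -/
private theorem muB_bdd {Γ Γ₁ : Subgroup SU11} {m : ℕ} {r : Fin m → SU11} (hT : Trans Γ Γ₁ m r)
    (φ : SU11 → ℂ) (hφ : ∀ (γ : Γ₁), ∀ g ∈ Γ, ‖φ ((γ : SU11) * g)‖ = ‖φ g‖) :
    ∃ C : ℝ, ∀ g ∈ Γ, ‖φ g‖ ≤ C := by
  refine ⟨∑ i, ‖φ (r i)‖, fun g hg => ?_⟩
  obtain ⟨i, hi, -⟩ := hT.ex g hg
  have h1 : g = ((⟨g * (r i)⁻¹, hi⟩ : Γ₁) : SU11) * r i := by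
    simp only [inv_mul_cancel_right]
  rw [h1, hφ _ _ (hT.mem i)]
  exact Finset.single_le_sum (f := fun i => ‖φ (r i)‖) (fun i _ => norm_nonneg _)
    (Finset.mem_univ i)

/-- THE RANDOM WALK SIDE -/
theorem mu_side {Γ : Subgroup SU11} (hT : Trans Γ Γ₁ m r)
    (hΓ : Γ = Subgroup.closure (W.h '' {i | 0 < W.p i})) (hW : ∀ k, W.h k ∈ Γ)
    {l l' : Γ₁ → ℂ} (hl : Mult l) (hl' : Mult l') (hll : ∀ γ, l γ * l' γ = 1)
    (hun : ∀ γ, ‖l γ‖ = 1) (hD : DD W r l ≠ 0) (hD' : DD W r l' ≠ 0) {β β' : SU11 → ℂ}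
    (hβ : ∀ (γ : Γ₁), ∀ g ∈ Γ, β ((γ : SU11) * g) = l γ * β g + β γ)
    (hβ' : ∀ (γ : Γ₁), ∀ g ∈ Γ, β' ((γ : SU11) * g) = l' γ * β' g + β' γ) :
    ∃ X X' κ : SU11 → ℂ, (∃ C : ℝ, ∀ g ∈ Γ, ‖X g - β g‖ ≤ C) ∧ (∃ C : ℝ, ∀ g ∈ Γ, ‖X' g - β' g‖ ≤ C) ∧
      (∃ C : ℝ, ∀ g ∈ Γ, ‖κ g‖ ≤ C) ∧ (∀ g ∈ Γ, W.P X g = X g) ∧ (∀ g ∈ Γ, W.P X' g = X' g) ∧
      ∀ g ∈ Γ, W.P (fun x => X x * X' x + κ x) g =
        (X g * X' g + κ g) + DBv W r l l' β β' / (DD W r l * DD W r l') := by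
  obtain ⟨X, hX1, hX2, hX3⟩ := exists_X W r hT hW hl hD hβ
  obtain ⟨X', hX1', hX2', hX3'⟩ := exists_X W r hT hW hl' hD' hβ'
  have hun' : ∀ γ, ‖l' γ‖ = 1 := by
    intro γ
    have h1 := congrArg norm (hll γ)
    rw [norm_mul, hun, one_mul, norm_one] at h1
    exact h1
  have hm : (m : ℂ) ≠ 0 := by exact_mod_cast hT.pos.ne'
  set B : ℂ := DBv W r l l' β β' / (DD W r l * DD W r l') with hBdef
  have hXe : ∀ (γ : Γ₁), ∀ g ∈ Γ, X ((γ : SU11) * g) = l γ * X g + β γ := by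
    intro γ g hg
    have h1 := hX1 γ g hg
    have h2 := hβ γ g hg
    linear_combination h1 + h2
  have hXe' : ∀ (γ : Γ₁), ∀ g ∈ Γ, X' ((γ : SU11) * g) = l' γ * X' g + β' γ := by
    intro γ g hg
    have h1 := hX1' γ g hg
    have h2 := hβ' γ g hg
    linear_combination h1 + h2
  have hp1 : (∑ k, (W.p k : ℂ)) = 1 := by exact_mod_cast congrArg (fun x : ℝ => (x : ℂ)) W.sum
  -- the carre du champ
  let Dg : SU11 → ℂ := fun g => ∑ k, (W.p k : ℂ) * ((X (g * W.h k) - X g) * (X' (g * W.h k) - X' g))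
  have hDg : ∀ g ∈ Γ, W.P (fun x => X x * X' x) g = X g * X' g + Dg g := by
    intro g hg
    have a1 := hX2 g hg
    have a2 := hX2' g hg
    rw [muB_P_eq] at a1 a2 ⊢
    have e1 : Dg g = ∑ k, ((W.p k : ℂ) * (X (g * W.h k) * X' (g * W.h k)) -
        X' g * ((W.p k : ℂ) * X (g * W.h k)) - X g * ((W.p k : ℂ) * X' (g * W.h k)) +
        (W.p k : ℂ) * (X g * X' g)) := by
      refine Finset.sum_congr rfl fun k _ => ?_
      ring
    rw [e1, Finset.sum_add_distrib, Finset.sum_sub_distrib, Finset.sum_sub_distrib,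
      ← Finset.mul_sum, ← Finset.mul_sum, ← Finset.sum_mul, a1, a2, hp1]
    ring
  have hDinv : ∀ (γ : Γ₁), ∀ g ∈ Γ, Dg ((γ : SU11) * g) = Dg g := by
    intro γ g hg
    refine Finset.sum_congr rfl fun k _ => ?_
    rw [mul_assoc (γ : SU11), hXe γ _ (Γ.mul_mem hg (hW k)), hXe' γ _ (Γ.mul_mem hg (hW k)),
      hXe γ g hg, hXe' γ g hg]
    have h1 := hll γ
    linear_combination ((W.p k : ℂ) * ((X (g * W.h k) - X g) * (X' (g * W.h k) - X' g))) * h1
  have hDB : ∑ i, Dg (r i) = (m : ℂ) * B := by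
    have e1 : ∀ i, (DD W r l * DD W r l') * Dg (r i) =
        ∑ k, (W.p k : ℂ) * (inc W r l β i k * inc W r l' β' i k) := by
      intro i
      simp only [Dg]
      rw [Finset.mul_sum]
      refine Finset.sum_congr rfl fun k _ => ?_
      rw [← hX3 i k, ← hX3' i k]
      ring
    have hDD : DD W r l * DD W r l' ≠ 0 := mul_ne_zero hD hD'
    have e2 : (DD W r l * DD W r l') * ∑ i, Dg (r i) = (m : ℂ) * DBv W r l l' β β' := by
      rw [Finset.mul_sum]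
      simp only [e1]
      unfold DBv
      rw [← mul_assoc, mul_inv_cancel₀ hm, one_mul]
    rw [hBdef]
    field_simp
    linear_combination e2
  obtain ⟨κ, hκ1, hκ2⟩ := exists_kappa_mu W r hT hΓ hW (fun g => B - Dg g)
    (fun γ g hg => by rw [hDinv γ g hg]) (by
      rw [Finset.sum_sub_distrib, hDB]
      simp)
  refine ⟨X, X', κ, ?_, ?_, ?_, hX2, hX2', ?_⟩
  · exact muB_bdd hT (fun g => X g - β g) (fun γ g hg => by
      rw [hX1 γ g hg, norm_mul, hun, one_mul])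
  · exact muB_bdd hT (fun g => X' g - β' g) (fun γ g hg => by
      rw [hX1' γ g hg, norm_mul, hun', one_mul])
  · exact muB_bdd hT κ (fun γ g hg => by rw [hκ1 γ g hg])
  · intro g hg
    have h1 := hDg g hg
    have h2 := hκ2 g hg
    have h3 : W.P (fun x => X x * X' x + κ x) g = W.P (fun x => X x * X' x) g + W.P κ g := by
      rw [muB_P_eq, muB_P_eq, muB_P_eq, ← Finset.sum_add_distrib]
      refine Finset.sum_congr rfl fun k _ => ?_
      ring
    rw [h3, h1]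
    linear_combination h2

/-- for a unitary non-trivial `l` the determinant does not vanish: a vector in the kernel of `1 - P`
is a function `F` on `Γ` with `F(γ g) = l(γ) F(g)`, `P F = F`; `|F|` lives on the finite set
`Γ₁\Γ`; the set where it is maximal is invariant under right multiplication by the `h_k`
(strict convexity), hence everything, and `F(g h_k) = F(g)`; so `F` is constant on `Γ` and
`l = 1`. -/
theorem DD_ne_zero {Γ : Subgroup SU11} (hT : Trans Γ Γ₁ m r)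
    (hΓ : Γ = Subgroup.closure (W.h '' {i | 0 < W.p i})) (hW : ∀ k, W.h k ∈ Γ)
    {l : Γ₁ → ℂ} (hl : Mult l) (hun : ∀ γ, ‖l γ‖ = 1) (hne : ∃ γ, l γ ≠ 1) : DD W r l ≠ 0 := by
  intro h0
  obtain ⟨v, hv0, hv⟩ := Matrix.exists_mulVec_eq_zero_iff.2 h0
  have h2 : ∀ i, (PM W r l).mulVec v i = v i := by
    intro i
    have h3 := congrFun hv i
    rw [Matrix.sub_mulVec, Matrix.one_mulVec] at h3
    simp only [Pi.sub_apply, Pi.zero_apply] at h3
    exact (sub_eq_zero.1 h3).symm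
  have h4 := muB_rigid W hT hΓ hW (l := l) hun (muB_ext r l v)
    (fun γ g hg => muB_ext_equiv hT hl.mul v γ g hg) (fun i => by
      rw [← muB_PM_mulVec, h2, muB_ext_r hT hl.one])
  have h5 : ∀ i, v i = muB_ext r l v 1 := by
    intro i
    rw [← muB_ext_r hT hl.one v i]
    exact h4 _ (hT.mem i)
  have h6 : muB_ext r l v 1 ≠ 0 := by
    intro h
    apply hv0
    funext i
    rw [h5 i, h]
    rfl
  obtain ⟨γ, hγ⟩ := hne
  have h7 := muB_ext_equiv hT hl.mul v γ 1 Γ.one_mem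
  rw [mul_one, h4 _ (hT.le γ.2)] at h7
  apply hγ
  have h8 : (l γ - 1) * muB_ext r l v 1 = 0 := by linear_combination -h7
  rcases mul_eq_zero.1 h8 with h9 | h9
  · exact sub_eq_zero.1 h9
  · exact absurd h9 h6

/-- at the trivial character the determinant vanishes (`P 1 = 1`) -/
theorem DD_one {Γ : Subgroup SU11} (hT : Trans Γ Γ₁ m r) (hW : ∀ k, W.h k ∈ Γ) :
    DD W r (fun _ : Γ₁ => (1 : ℂ)) = 0 := by
  have hp1 : (∑ k, (W.p k : ℂ)) = 1 := by exact_mod_cast congrArg (fun x : ℝ => (x : ℂ)) W.sum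
  refine Matrix.exists_mulVec_eq_zero_iff.1 ⟨fun _ => 1, ?_, ?_⟩
  · intro h
    have h1 := congrFun h ⟨0, hT.pos⟩
    exact one_ne_zero h1
  · funext i
    rw [Matrix.sub_mulVec, Matrix.one_mulVec, Pi.sub_apply, muB_PM_mulVec]
    have e1 : ∀ k, muB_ext r (fun _ : Γ₁ => (1 : ℂ)) (fun _ => 1) (r i * W.h k) = 1 := by
      intro k
      have hg : r i * W.h k ∈ Γ := Γ.mul_mem (hT.mem i) (hW k)
      obtain ⟨j, hj, -⟩ := hT.ex _ hg
      rw [muB_ext_eq hT _ _ hg hj, mul_one]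
    simp only [e1, mul_one, hp1, sub_self, Pi.zero_apply]

end

end Pool.Agent.Lib.MP_b16327_pr
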