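import Pool.Agent.Lib.MP_b16327_pr.OpA

/-! # Gauge functions -/

namespace Pool.Agent.Lib.MP_b16327_pr

open Complex MeasureTheory ComplexConjugate Filter
open scoped Complex.UnitDisc Topology BoundedContinuousFunction

noncomputable section

/-- `exp(∑ c_j (b_j(w) - b_j(z)))` -/
def expF {n : ℕ} (b : Fin n → 𝔻 → ℝ) (c : Fin n → ℂ) (z w : 𝔻) : ℂ :=
  Complex.exp (∑ j, c j * ((b j w : ℂ) - (b j z : ℂ)))

/-- the gauge function `s_c(z) = exp(∑ c_j b_j(z))` -/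
def gau {n : ℕ} (b : Fin n → 𝔻 → ℝ) (c : Fin n → ℂ) (z : 𝔻) : ℂ :=
  Complex.exp (∑ j, c j * (b j z : ℂ))

theorem expF_eq {n : ℕ} (b : Fin n → 𝔻 → ℝ) (c : Fin n → ℂ) (z w : 𝔻) :
    expF b c z w * gau b c z = gau b c w := by
  unfold expF gau
  rw [← Complex.exp_add, ← Finset.sum_add_distrib]
  congr 1
  refine Finset.sum_congr rfl fun j _ => ?_
  ring

/-- `b` is a family of cocycle functions for the homomorphisms `X j` -/
structure IsB {Γ : Subgroup SU11} {n : ℕ} (X : Fin n → HomR Γ) (b : Fin n → 𝔻 → ℝ) : Prop where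
  cont : ∀ j, Continuous (b j)
  eq : ∀ j (γ : Γ) (z : 𝔻), b j ((γ : SU11) • z) = b j z + ev (X j) γ

/-- `χ_c = ∑ c_j X_j` evaluated at `γ` -/
def chi {Γ : Subgroup SU11} {n : ℕ} (X : Fin n → HomR Γ) (c : Fin n → ℂ) (γ : Γ) : ℂ :=
  ∑ j, c j * (ev (X j) γ : ℂ)

theorem gau_smul {Γ : Subgroup SU11} {n : ℕ} {X : Fin n → HomR Γ} {b : Fin n → 𝔻 → ℝ}
    (hb : IsB X b) (c : Fin n → ℂ) (γ : Γ) (z : 𝔻) :
    gau b c ((γ : SU11) • z) = Complex.exp (chi X c γ) * gau b c z := by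
  unfold chi gau
  rw [← Complex.exp_add, ← Finset.sum_add_distrib]
  congr 1
  refine Finset.sum_congr rfl fun j _ => ?_
  rw [hb.eq j γ z]
  push_cast
  ring

theorem expF_smul {Γ : Subgroup SU11} {n : ℕ} {X : Fin n → HomR Γ} {b : Fin n → 𝔻 → ℝ}
    (hb : IsB X b) (c : Fin n → ℂ) (γ : Γ) (z w : 𝔻) :
    expF b c ((γ : SU11) • z) ((γ : SU11) • w) = expF b c z w := by
  unfold expF
  congr 1
  refine Finset.sum_congr rfl fun j _ => ?_
  rw [hb.eq j γ z, hb.eq j γ w]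
  push_cast
  ring

/-- `|b_j(w) - b_j(z)|` is bounded for `pd z w < R` (invariance and compactness) -/
theorem IsB.bounded {Γ : Subgroup SU11} (hc : IsCocpt Γ) {n : ℕ} {X : Fin n → HomR Γ}
    {b : Fin n → 𝔻 → ℝ} (hb : IsB X b) {R : ℝ} (hR : R < 1) :
    ∃ C : ℝ, 0 ≤ C ∧ ∀ j (z w : 𝔻), pd z w < R → |b j w - b j z| ≤ C := by
  obtain ⟨r, hr, hcov⟩ := hc
  obtain ⟨r', hr', hrr⟩ := norm_le_of_pd_lt hr hR
  have hm : max r r' < 1 := max_lt hr hr'
  have hcont : Continuous (fun z : 𝔻 => (fun j => b j z : Fin n → ℝ)) :=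
    continuous_pi fun j => hb.cont j
  obtain ⟨C, hC⟩ := (isCompact_closedBallD hm).exists_bound_of_continuousOn hcont.continuousOn
  have hC0 : 0 ≤ C := by
    obtain ⟨g, _, hz⟩ := hcov 0
    exact (norm_nonneg _).trans (hC (g • (0 : 𝔻)) (hz.trans (le_max_left _ _)))
  refine ⟨C + C, by linarith, fun j z w hzw => ?_⟩
  obtain ⟨g, hg, hz⟩ := hcov z
  have hw : ‖((g • w : 𝔻) : ℂ)‖ ≤ r' := hrr (g • z) (g • w) hz (by rw [pd_smul]; exact hzw)
  have e1 : b j (g • z) = b j z + ev (X j) ⟨g, hg⟩ := hb.eq j ⟨g, hg⟩ z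
  have e2 : b j (g • w) = b j w + ev (X j) ⟨g, hg⟩ := hb.eq j ⟨g, hg⟩ w
  have e3 : b j w - b j z = b j (g • w) - b j (g • z) := by rw [e1, e2]; ring
  rw [e3]
  have h1 : |b j (g • w)| ≤ C := by
    have h2 := hC (g • w) (hw.trans (le_max_right _ _))
    exact (norm_le_pi_norm (fun j => b j (g • w) : Fin n → ℝ) j).trans h2
  have h3 : |b j (g • z)| ≤ C := by
    have h2 := hC (g • z) (hz.trans (le_max_left _ _))
    exact (norm_le_pi_norm (fun j => b j (g • z) : Fin n → ℝ) j).trans h2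
  exact (abs_sub _ _).trans (add_le_add h1 h3)

/-- relation with `Mop`: `M (s_c v) = s_c M^c v` -/
theorem Mop_gau {n : ℕ} {b : Fin n → 𝔻 → ℝ} (c : Fin n → ℂ) (R : ℝ) (v : 𝔻 → ℂ) (z : 𝔻) :
    Mop R (fun w => gau b c w * v w) z =
      gau b c z * AvF R (fun z w => expF b c z w * v w) z := by
  rw [← AvF_mul_left R (gau b c)]
  have e : (fun z w : 𝔻 => gau b c z * (expF b c z w * v w)) = fun _ w => gau b c w * v w := by
    funext z w
    rw [← mul_assoc, mul_comm (gau b c z), expF_eq]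
  rw [e]
  rfl

end

end Pool.Agent.Lib.MP_b16327_pr
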