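import Pool.Agent.Lib.MP_b16327_pr.HypC
import Pool.Agent.Lib.MP_b16327_pr.OpB

/-! # Cocycle functions with holomorphic parameter -/

namespace Pool.Agent.Lib.MP_b16327_pr

open Complex MeasureTheory ComplexConjugate Filter
open scoped Complex.UnitDisc Topology BoundedContinuousFunction

noncomputable section

variable {Γ : Subgroup SU11}

private theorem pairA_ev_mul (x : HomR Γ) (γ δ : Γ) : ev x (γ * δ) = ev x γ + ev x δ := by
  unfold ev
  rw [ofMul_mul, map_add]

private theorem pairA_ev_inv (x : HomR Γ) (γ : Γ) : ev x γ⁻¹ = -ev x γ := by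
  unfold ev
  rw [ofMul_inv, map_neg]

private theorem pairA_ev_one (x : HomR Γ) : ev x 1 = 0 := by
  unfold ev
  rw [ofMul_one, map_zero]

/-- differentiability can be tested after composition with a linear isometry of a complete
space -/
private theorem pairA_diff {V E F : Type*} [NormedAddCommGroup V] [NormedSpace ℂ V]
    [NormedAddCommGroup E] [NormedSpace ℂ E] [CompleteSpace E] [NormedAddCommGroup F]
    [NormedSpace ℂ F] (ι : E →ₗᵢ[ℂ] F) (f : V → E) (h : Differentiable ℂ (fun x => ι (f x))) :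
    Differentiable ℂ f := by
  intro x
  obtain ⟨D, hD⟩ := h x
  have hrange : ∀ v, D v ∈ LinearMap.range ι.toLinearMap := by
    intro v
    have hcl : IsClosed (Set.range ι) := ι.isometry.isClosedEmbedding.isClosed_range
    have hline : HasDerivAt (fun t : ℂ => x + t • v) v 0 := by
      have h1 := ((hasDerivAt_id (0 : ℂ)).smul_const v).const_add x
      simpa using h1
    have h1 : HasDerivAt (fun t : ℂ => ι (f (x + t • v))) (D v) 0 := by
      have hD' : HasFDerivAt (fun x => ι (f x)) D (x + (0 : ℂ) • v) := by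
        rw [zero_smul, add_zero]; exact hD
      exact hD'.comp_hasDerivAt (0 : ℂ) hline
    have h2 := h1.tendsto_slope_zero
    have h3 : D v ∈ Set.range ι := by
      refine hcl.mem_of_tendsto h2 (Eventually.of_forall fun t => ?_)
      refine ⟨t⁻¹ • (f (x + (0 + t) • v) - f (x + (0 : ℂ) • v)), ?_⟩
      rw [map_smul, map_sub]
    obtain ⟨y, hy⟩ := h3
    exact ⟨y, hy⟩
  set D' : V →L[ℂ] E :=
    (ι.equivRange.symm.toContinuousLinearEquiv : _ →L[ℂ] E).comp
      (D.codRestrict (LinearMap.range ι.toLinearMap) hrange) with hD'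
  have hιD : ∀ v, ι (D' v) = D v := by
    intro v
    have h1 : ι.equivRange (D' v) = D.codRestrict (LinearMap.range ι.toLinearMap) hrange v := by
      rw [hD']
      exact ι.equivRange.apply_symm_apply _
    exact congrArg Subtype.val h1
  refine ⟨D', ?_⟩
  rw [hasFDerivAt_iff_isLittleO] at hD ⊢
  rw [← Asymptotics.isLittleO_norm_left] at hD ⊢
  refine hD.congr_left fun y => ?_
  rw [← hιD, ← map_sub, ← map_sub, ι.norm_map]

/-- the multiplicative function `exp ∘ χ_c` -/
def lc {n : ℕ} (X : Fin n → HomR Γ) (c : Fin n → ℂ) (γ : Γ) : ℂ := Complex.exp (chi X c γ)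

theorem lc_mul {n : ℕ} (X : Fin n → HomR Γ) (c : Fin n → ℂ) (γ δ : Γ) :
    lc X c (γ * δ) = lc X c γ * lc X c δ := by
  unfold lc chi
  rw [← Complex.exp_add, ← Finset.sum_add_distrib]
  congr 1
  refine Finset.sum_congr rfl fun j _ => ?_
  rw [pairA_ev_mul]
  push_cast
  ring

theorem lc_neg {n : ℕ} (X : Fin n → HomR Γ) (c : Fin n → ℂ) (γ : Γ) :
    lc X c γ * lc X (-c) γ = 1 := by
  unfold lc chi
  rw [← Complex.exp_add, ← Finset.sum_add_distrib]
  have e : ∑ j, (c j * (ev (X j) γ : ℂ) + (-c) j * (ev (X j) γ : ℂ)) = 0 := by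
    refine Finset.sum_eq_zero fun j _ => ?_
    rw [Pi.neg_apply]
    ring
  rw [e, Complex.exp_zero]

theorem lc_conj {n : ℕ} (X : Fin n → HomR Γ) (c : Fin n → ℂ) (γ : Γ) :
    conj (lc X c γ) = lc X (fun j => conj (c j)) γ := by
  unfold lc chi
  rw [← Complex.exp_conj, map_sum]
  congr 1
  refine Finset.sum_congr rfl fun j _ => ?_
  rw [map_mul, Complex.conj_ofReal]

theorem norm_lc {n : ℕ} (X : Fin n → HomR Γ) {c : Fin n → ℂ} (hc : ∀ j, (c j).re = 0) (γ : Γ) :
    ‖lc X c γ‖ = 1 := by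
  unfold lc chi
  rw [Complex.norm_exp, Complex.re_sum]
  have e : ∑ j, (c j * (ev (X j) γ : ℂ)).re = 0 := by
    refine Finset.sum_eq_zero fun j _ => ?_
    rw [Complex.re_mul_ofReal, hc j, zero_mul]
  rw [e, Real.exp_zero]

/-- `H.a` is killed by all real homomorphisms (for instance a commutator) -/
def Null (H : HypD Γ) : Prop := ∀ x : HomR Γ, ev x H.a = 0

theorem null_of_comm (H : HypD Γ) {γ δ : Γ} (h : H.a = γ * δ * γ⁻¹ * δ⁻¹) : Null H := by
  intro x
  rw [h, pairA_ev_mul, pairA_ev_mul, pairA_ev_mul, pairA_ev_inv, pairA_ev_inv]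
  ring

theorem adm_lc {n : ℕ} (X : Fin n → HomR Γ) (c : Fin n → ℂ) {H : HypD Γ} (hH : Null H) :
    H.Adm (lc X c) := by
  refine ⟨?_, lc_mul X c, ?_⟩
  · unfold lc chi
    have e : ∑ j, c j * (ev (X j) (1 : Γ) : ℂ) = 0 := by
      refine Finset.sum_eq_zero fun j _ => ?_
      rw [pairA_ev_one, Complex.ofReal_zero, mul_zero]
    rw [e, Complex.exp_zero]
  · unfold lc chi
    have e : ∑ j, c j * (ev (X j) H.a : ℂ) = 0 := by
      refine Finset.sum_eq_zero fun j _ => ?_
      rw [hH (X j), Complex.ofReal_zero, mul_zero]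
    rw [e, Complex.exp_zero]

/-- the cocycle function with parameter `c` -/
abbrev bc {n : ℕ} (X : Fin n → HomR Γ) (H : HypD Γ) (c : Fin n → ℂ) : 𝔻 → ℂ := H.bco (lc X c)

/-- `g_c = s_c⁻¹ (M b_a - b_a)` is a holomorphic `EG`-valued function of `c`: on `‖z‖ ≤ r` it is the
finite sum `∑_δ exp(∑_j c_j (X_j(δ) - b_j(z))) (M s - s)(δ⁻¹ z)` (`mbco_finite`), and the sup norm
on `EG` is the sup norm on `‖z‖ ≤ r`, where every orbit meets `‖z‖ ≤ r`. -/
theorem exists_gc (hd : IsDisc Γ) (hc : IsCocpt Γ) {n : ℕ} {X : Fin n → HomR Γ}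
    {b : Fin n → 𝔻 → ℝ} (hb : IsB X b) {R : ℝ} (hR0 : 0 < R) (hR : R < 1)
    (H : HypD Γ) (hH : Null H) :
    ∃ g : (Fin n → ℂ) → EG Γ, Differentiable ℂ g ∧ ∀ c z,
      ap (g c) z = gau b (-c) z * (Mop R (bc X H c) z - bc X H c z) := by
  have hbcc : ∀ c, Continuous (bc X H c) := fun c => H.continuous_bco hd (adm_lc X c hH)
  have hgauc : ∀ c, Continuous (gau b c) := by
    intro c
    refine Complex.continuous_exp.comp (continuous_finsetSum _ fun j _ => ?_)
    exact continuous_const.mul (Complex.continuous_ofReal.comp (hb.cont j))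
  -- existence of `g c`
  have hex : ∀ c : Fin n → ℂ, ∃ v : EG Γ, ∀ z,
      ap v z = gau b (-c) z * (Mop R (bc X H c) z - bc X H c z) := by
    intro c
    refine EG_exists_of hc ((hgauc (-c)).mul ((continuous_Mop hR (hbcc c)).sub (hbcc c))) ?_
    intro g hg z
    set γ : Γ := ⟨g, hg⟩ with hγ
    have e1 : gau b (-c) (g • z) = lc X (-c) γ * gau b (-c) z := gau_smul hb (-c) γ z
    have e2 : ∀ w : 𝔻, bc X H c (g • w) = lc X c γ * bc X H c w + bc X H c (g • (0 : 𝔻)) :=
      fun w => H.bco_smul hd (adm_lc X c hH) γ w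
    have e3 : Mop R (bc X H c) (g • z) = lc X c γ * Mop R (bc X H c) z + bc X H c (g • (0 : 𝔻)) := by
      rw [Mop_smul]
      have e4 : (fun w : 𝔻 => bc X H c (g • w)) =
          fun w => lc X c γ * bc X H c w + bc X H c (g • (0 : 𝔻)) := funext e2
      have hc1 : Continuous (fun w : 𝔻 => lc X c γ * bc X H c w) := continuous_const.mul (hbcc c)
      have hc2 : Continuous (fun _ : 𝔻 => bc X H c (g • (0 : 𝔻))) := continuous_const
      rw [e4, Mop_add hR hc1 hc2, Mop_mul_left, Mop_const hR0 hR]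
    show gau b (-c) (g • z) * (Mop R (bc X H c) (g • z) - bc X H c (g • z)) = _
    rw [e1, e3, e2 z]
    have e5 := lc_neg X c γ
    linear_combination (gau b (-c) z * (Mop R (bc X H c) z - bc X H c z)) * e5
  choose g hg using hex
  refine ⟨g, ?_, hg⟩
  -- restriction to a compact set
  obtain ⟨r, hr, hcov⟩ := hc
  set K : Set 𝔻 := {z : 𝔻 | ‖(z : ℂ)‖ ≤ r} with hK
  have hKc : CompactSpace K := isCompact_iff_compactSpace.mp (isCompact_closedBallD hr)
  set ρ : EG Γ →ₗᵢ[ℂ] C(K, ℂ) :=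
    { toFun := fun v => ⟨fun z : K => ap v z, (EG_continuous v).comp continuous_subtype_val⟩
      map_add' := fun v w => rfl
      map_smul' := fun c v => rfl
      norm_map' := by
        intro v
        refine le_antisymm ?_ ?_
        · exact (ContinuousMap.norm_le _ (norm_nonneg v)).mpr fun z => EG_norm_ap_le v z
        · refine EG_norm_le v (norm_nonneg _) fun z => ?_
          obtain ⟨γ, hγ, hz⟩ := hcov z
          rw [← EG_ap_smul v hγ z]
          exact ContinuousMap.norm_coe_le_norm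
            (⟨fun z : K => ap v z, (EG_continuous v).comp continuous_subtype_val⟩ : C(K, ℂ))
            ⟨γ • z, hz⟩ } with hρ
  obtain ⟨F, hF⟩ := H.mbco_finite hd hR0 hR hr
  set U : Fin n → Γ → C(K, ℂ) := fun j δ =>
    ⟨fun z : K => ((ev (X j) δ : ℝ) : ℂ) - ((b j z : ℝ) : ℂ),
      continuous_const.sub (Complex.continuous_ofReal.comp
        ((hb.cont j).comp continuous_subtype_val))⟩ with hU
  have hMs : Continuous (fun z : 𝔻 => Mop R H.s z - H.s z) :=
    (continuous_Mop hR H.continuous_s).sub H.continuous_s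
  set m : Γ → C(K, ℂ) := fun δ =>
    ⟨fun z : K => ((Mop R H.s (((δ : SU11))⁻¹ • (z : 𝔻)) - H.s (((δ : SU11))⁻¹ • (z : 𝔻)) : ℝ) : ℂ),
      Complex.continuous_ofReal.comp (hMs.comp
        ((continuous_smul_disc _).comp continuous_subtype_val))⟩ with hm
  have hres : ∀ c, ρ (g c) = ∑ δ ∈ F, NormedSpace.exp (∑ j, c j • U j δ) * m δ := by
    intro c
    refine ContinuousMap.ext fun z => ?_
    have e1 : (ρ (g c)) z = ap (g c) z := rfl
    rw [e1, hg c z, hF (lc X c) (adm_lc X c hH) z z.2, Finset.mul_sum]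
    have e2 : (∑ δ ∈ F, NormedSpace.exp (∑ j, c j • U j δ) * m δ) z =
        ∑ δ ∈ F, (NormedSpace.exp (∑ j, c j • U j δ)) z * m δ z := by
      rw [ContinuousMap.coe_sum, Finset.sum_apply]
      rfl
    rw [e2]
    refine Finset.sum_congr rfl fun δ _ => ?_
    have e3 : (NormedSpace.exp (∑ j, c j • U j δ)) z =
        Complex.exp (∑ j, c j * (((ev (X j) δ : ℝ) : ℂ) - ((b j z : ℝ) : ℂ))) := by
      have h1 := NormedSpace.map_exp (ContinuousMap.evalAlgHom ℂ ℂ z)
        (continuous_eval_const z) (∑ j, c j • U j δ)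
      rw [Complex.exp_eq_exp_ℂ]
      have h2 : (ContinuousMap.evalAlgHom ℂ ℂ z) (∑ j, c j • U j δ) =
          ∑ j, c j * (((ev (X j) δ : ℝ) : ℂ) - ((b j z : ℝ) : ℂ)) := by
        rw [map_sum]
        rfl
      rw [h2] at h1
      exact h1
    rw [e3]
    have e4 : gau b (-c) z * lc X c δ =
        Complex.exp (∑ j, c j * (((ev (X j) δ : ℝ) : ℂ) - ((b j z : ℝ) : ℂ))) := by
      unfold gau lc chi
      rw [← Complex.exp_add, ← Finset.sum_add_distrib]
      congr 1
      refine Finset.sum_congr rfl fun j _ => ?_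
      rw [Pi.neg_apply]
      ring
    rw [← mul_assoc, e4]
    rfl
  refine pairA_diff ρ g ?_
  have hres' : (fun c => ρ (g c)) =
      fun c => ∑ δ ∈ F, NormedSpace.exp (∑ j, c j • U j δ) * m δ := funext hres
  rw [hres']
  refine Differentiable.fun_sum fun δ _ => ?_
  refine Differentiable.mul_const ?_ _
  have hlin : Differentiable ℂ (fun c : Fin n → ℂ => ∑ j, c j • U j δ) :=
    Differentiable.fun_sum fun j _ => (differentiable_apply j).smul_const _
  intro c
  exact (hasFDerivAt_exp (𝕂 := ℂ) (x := ∑ j, c j • U j δ)).differentiableAt.comp c (hlin c)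

end

end Pool.Agent.Lib.MP_b16327_pr
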