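import Pool.Agent.Lib.MP_b16327_pr.MuA
import Pool.Agent.Lib.MP_b16327_pr.PairA

/-! # The random walk side: dependence on the character -/

namespace Pool.Agent.Lib.MP_b16327_pr

open Complex MeasureTheory ComplexConjugate Filter
open scoped Complex.UnitDisc Topology BoundedContinuousFunction

noncomputable section

variable (W : Walk) {Γ₁ : Subgroup SU11} {m : ℕ} (r : Fin m → SU11)

/-- the character `exp χ` -/
private def MuC_eh (χ : HomC Γ₁) : Γ₁ →* ℂ where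
  toFun γ := Complex.exp (evC χ γ)
  map_one' := by simp [evC]
  map_mul' γ δ := by
    rw [← Complex.exp_add]
    congr 1
    simp [evC]

/-- the ring of exponential sums -/
private def MuC_S (Γ₁ : Subgroup SU11) : Subring (HomC Γ₁ → ℂ) :=
  (RingHom.pi fun χ : HomC Γ₁ =>
    (MonoidAlgebra.lift ℂ ℂ Γ₁ (MuC_eh χ) : MonoidAlgebra ℂ Γ₁ →+* ℂ)).range

private theorem MuC_const (c : ℂ) : (fun _ : HomC Γ₁ => c) ∈ MuC_S Γ₁ := by
  refine ⟨MonoidAlgebra.single 1 c, ?_⟩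
  funext χ
  change MonoidAlgebra.lift ℂ ℂ Γ₁ (MuC_eh χ) (MonoidAlgebra.single 1 c) = c
  rw [MonoidAlgebra.lift_single, map_one, smul_eq_mul, mul_one]

private theorem MuC_exp (γ : Γ₁) : (fun χ : HomC Γ₁ => Complex.exp (evC χ γ)) ∈ MuC_S Γ₁ := by
  refine ⟨MonoidAlgebra.single γ 1, ?_⟩
  funext χ
  change MonoidAlgebra.lift ℂ ℂ Γ₁ (MuC_eh χ) (MonoidAlgebra.single γ 1) = MuC_eh χ γ
  rw [MonoidAlgebra.lift_single, one_smul]

private theorem MuC_exp_neg (γ : Γ₁) :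
    (fun χ : HomC Γ₁ => Complex.exp (-evC χ γ)) ∈ MuC_S Γ₁ := by
  have h := MuC_exp (Γ₁ := Γ₁) γ⁻¹
  convert h using 2 with χ
  simp [evC]

private theorem MuC_of_mem {f : HomC Γ₁ → ℂ} (hf : f ∈ MuC_S Γ₁) :
    ∃ (J : Finset Γ₁) (a : Γ₁ → ℂ), ∀ χ : HomC Γ₁,
      f χ = ∑ γ ∈ J, a γ * Complex.exp (evC χ γ) := by
  obtain ⟨x, rfl⟩ := hf
  refine ⟨x.coeff.support, fun γ => x.coeff γ, fun χ => ?_⟩
  change MonoidAlgebra.lift ℂ ℂ Γ₁ (MuC_eh χ) x = _
  rw [MonoidAlgebra.lift_apply]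
  rfl

private theorem MuC_lx {l : HomC Γ₁ → Γ₁ → ℂ} (hl : ∀ γ, (fun χ => l χ γ) ∈ MuC_S Γ₁) (g : SU11) :
    (fun χ => lx (l χ) g) ∈ MuC_S Γ₁ := by
  unfold lx
  by_cases h : g ∈ Γ₁
  · simp only [h, dite_true]
    exact hl _
  · simp only [h, dite_false]
    exact MuC_const 0

private theorem MuC_PM {l : HomC Γ₁ → Γ₁ → ℂ} (hl : ∀ γ, (fun χ => l χ γ) ∈ MuC_S Γ₁)
    (i j : Fin m) : (fun χ => PM W r (l χ) i j) ∈ MuC_S Γ₁ := by
  have : (fun χ => PM W r (l χ) i j) =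
      ∑ k, (fun _ : HomC Γ₁ => (W.p k : ℂ)) * (fun χ => lx (l χ) (r i * W.h k * (r j)⁻¹)) := by
    funext χ
    simp [PM]
  rw [this]
  exact Subring.sum_mem _ fun k _ => Subring.mul_mem _ (MuC_const _) (MuC_lx hl _)

private theorem MuC_DD {l : HomC Γ₁ → Γ₁ → ℂ} (hl : ∀ γ, (fun χ => l χ γ) ∈ MuC_S Γ₁) :
    (fun χ => DD W r (l χ)) ∈ MuC_S Γ₁ := by
  have : (fun χ => DD W r (l χ)) =
      ∑ σ : Equiv.Perm (Fin m), (fun _ : HomC Γ₁ => ((Equiv.Perm.sign σ : ℤ) : ℂ)) *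
        ∏ i, ((fun _ : HomC Γ₁ => (1 : Matrix (Fin m) (Fin m) ℂ) (σ i) i) -
          (fun χ => PM W r (l χ) (σ i) i)) := by
    funext χ
    simp only [DD, Matrix.det_apply', Finset.sum_apply, Pi.mul_apply, Finset.prod_apply,
      Pi.sub_apply, Matrix.sub_apply]
  rw [this]
  exact Subring.sum_mem _ fun σ _ => Subring.mul_mem _ (MuC_const _)
    (Subring.prod_mem _ fun i _ => Subring.sub_mem _ (MuC_const _) (MuC_PM W r hl _ _))

/-- exponential sums: `D(exp χ) D(exp (-χ))` is a finite sum `∑ a_γ exp(χ(γ))`, with `a`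
independent of `χ` (entries of `PM` are such sums; such sums form an algebra; Leibniz formula) -/
theorem DD_expsum : ∃ (J : Finset Γ₁) (a : Γ₁ → ℂ), ∀ χ : HomC Γ₁,
    DD W r (fun γ : Γ₁ => Complex.exp (evC χ γ)) * DD W r (fun γ : Γ₁ => Complex.exp (-evC χ γ)) =
      ∑ γ ∈ J, a γ * Complex.exp (evC χ γ) := by
  have h1 : (fun χ : HomC Γ₁ => DD W r (fun γ : Γ₁ => Complex.exp (evC χ γ))) ∈ MuC_S Γ₁ :=
    MuC_DD W r (l := fun χ γ => Complex.exp (evC χ γ)) (fun γ => MuC_exp γ)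
  have h2 : (fun χ : HomC Γ₁ => DD W r (fun γ : Γ₁ => Complex.exp (-evC χ γ))) ∈ MuC_S Γ₁ :=
    MuC_DD W r (l := fun χ γ => Complex.exp (-evC χ γ)) (fun γ => MuC_exp_neg γ)
  obtain ⟨J, a, h⟩ := MuC_of_mem (Subring.mul_mem _ h1 h2)
  exact ⟨J, a, fun χ => h χ⟩

/-- the homomorphism `x ↦ exp((x + iJx)(γ))` -/
private def MuC_F (Jm : HomR Γ₁ →ₗ[ℝ] HomR Γ₁) (γ : Γ₁) : Multiplicative (HomR Γ₁) →* ℂ where
  toFun x := Complex.exp ((ev x.toAdd γ : ℂ) + ev (Jm x.toAdd) γ * I)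
  map_one' := by simp [ev]
  map_mul' x y := by
    rw [← Complex.exp_add]
    congr 1
    simp [ev]
    ring

private theorem MuC_F_apply (Jm : HomR Γ₁ →ₗ[ℝ] HomR Γ₁) (γ : Γ₁) (x : HomR Γ₁) :
    MuC_F Jm γ (Multiplicative.ofAdd x) = Complex.exp ((ev x γ : ℂ) + ev (Jm x) γ * I) := rfl

private theorem MuC_ev_eq {Jm : HomR Γ₁ →ₗ[ℝ] HomR Γ₁} {γ δ : Γ₁} (h : MuC_F Jm γ = MuC_F Jm δ)
    (x : HomR Γ₁) : ev x γ = ev x δ := by
  have h1 := DFunLike.congr_fun h (Multiplicative.ofAdd x)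
  rw [MuC_F_apply, MuC_F_apply] at h1
  have h2 := congrArg norm h1
  rw [Complex.norm_exp, Complex.norm_exp] at h2
  have h3 := Real.exp_injective h2
  simpa using h3

private theorem MuC_evC_eq {Jm : HomR Γ₁ →ₗ[ℝ] HomR Γ₁} {γ δ : Γ₁} (h : MuC_F Jm γ = MuC_F Jm δ)
    (χ : HomC Γ₁) : evC χ γ = evC χ δ := by
  apply Complex.ext
  · exact MuC_ev_eq h (Complex.reAddGroupHom.comp χ)
  · exact MuC_ev_eq h (Complex.imAddGroupHom.comp χ)

/-- DEDEKIND.  If an exponential sum vanishes at all `x + i J x` (`J` additive), it vanishes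
identically.  The maps `x ↦ exp((x + iJx)(γ))` are homomorphisms from the additive group
`Hom(Γ₁, ℝ)` to `ℂˣ` (`linearIndependent_monoidHom`), and two of them are equal only if
`x(γ) = x(γ')` for all `x` (take moduli), in which case `χ(γ) = χ(γ')` for all complex `χ`. -/
theorem dedekind (J : Finset Γ₁) (a : Γ₁ → ℂ) (Jm : HomR Γ₁ →ₗ[ℝ] HomR Γ₁)
    (h : ∀ x : HomR Γ₁, ∑ γ ∈ J, a γ * Complex.exp ((ev x γ : ℂ) + ev (Jm x) γ * I) = 0)
    (χ : HomC Γ₁) : ∑ γ ∈ J, a γ * Complex.exp (evC χ γ) = 0 := by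
  classical
  have hli := linearIndependent_iff'.1
    (linearIndependent_monoidHom (Multiplicative (HomR Γ₁)) ℂ) (J.image (MuC_F Jm))
    (fun f => ∑ γ ∈ J with MuC_F Jm γ = f, a γ)
    (by
      funext x
      rw [Finset.sum_apply]
      have h1 : ∀ f ∈ J.image (MuC_F Jm),
          ((∑ γ ∈ J with MuC_F Jm γ = f, a γ) • (f : Multiplicative (HomR Γ₁) → ℂ)) x =
          ∑ γ ∈ J with MuC_F Jm γ = f, a γ * MuC_F Jm γ x := by
        intro f _
        rw [Pi.smul_apply, smul_eq_mul, Finset.sum_mul]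
        refine Finset.sum_congr rfl fun γ hγ => ?_
        rw [(Finset.mem_filter.1 hγ).2]
      rw [Finset.sum_congr rfl h1]
      refine Eq.trans (Finset.sum_fiberwise_of_maps_to (s := J) (t := J.image (MuC_F Jm))
        (g := MuC_F Jm) (fun γ hγ => Finset.mem_image_of_mem _ hγ)
        (fun γ => a γ * MuC_F Jm γ x)) ?_
      exact h x.toAdd)
  rw [← Finset.sum_fiberwise_of_maps_to (t := J.image (MuC_F Jm)) (g := MuC_F Jm)
    (fun γ hγ => Finset.mem_image_of_mem _ hγ)]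
  refine Finset.sum_eq_zero fun f hf => ?_
  obtain ⟨δ, hδ, rfl⟩ := Finset.mem_image.1 hf
  have h2 : ∀ γ ∈ J.filter (fun γ => MuC_F Jm γ = MuC_F Jm δ),
      a γ * Complex.exp (evC χ γ) = a γ * Complex.exp (evC χ δ) := by
    intro γ hγ
    rw [MuC_evC_eq (Finset.mem_filter.1 hγ).2 χ]
  rw [Finset.sum_congr rfl h2, ← Finset.sum_mul, hli _ hf, zero_mul]

private theorem MuC_dlc {n : ℕ} (X : Fin n → HomR Γ₁) (γ : Γ₁) :
    Differentiable ℂ (fun c : Fin n → ℂ => lc X c γ) := by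
  unfold lc chi
  apply Differentiable.cexp
  apply Differentiable.fun_sum
  intro j _
  exact (differentiable_apply j).mul_const _

private theorem MuC_dlx {n : ℕ} {l : (Fin n → ℂ) → Γ₁ → ℂ}
    (hl : ∀ γ, Differentiable ℂ (fun c => l c γ)) (g : SU11) :
    Differentiable ℂ (fun c : Fin n → ℂ => lx (l c) g) := by
  unfold lx
  by_cases h : g ∈ Γ₁
  · simp only [h, dite_true]
    exact hl _
  · simp only [h, dite_false]
    exact differentiable_const _

private theorem MuC_dPM {n : ℕ} {l : (Fin n → ℂ) → Γ₁ → ℂ}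
    (hl : ∀ γ, Differentiable ℂ (fun c => l c γ)) (i j : Fin m) :
    Differentiable ℂ (fun c : Fin n → ℂ => PM W r (l c) i j) := by
  unfold PM
  apply Differentiable.fun_sum
  intro k _
  exact (MuC_dlx hl _).const_mul _

private theorem MuC_ddet {n : ℕ} {A : (Fin n → ℂ) → Matrix (Fin m) (Fin m) ℂ}
    (hA : ∀ i j, Differentiable ℂ (fun c => A c i j)) :
    Differentiable ℂ (fun c : Fin n → ℂ => (A c).det) := by
  simp only [Matrix.det_apply']
  apply Differentiable.fun_sum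
  intro σ _
  apply Differentiable.const_mul
  intro c
  have := (HasFDerivAt.finsetProd (u := Finset.univ) (g := fun i c => A c (σ i) i) (x := c)
    (fun i _ => (hA (σ i) i c).hasFDerivAt)).differentiableAt
  simpa using this

private theorem MuC_d1 {n : ℕ} {l : (Fin n → ℂ) → Γ₁ → ℂ}
    (hl : ∀ γ, Differentiable ℂ (fun c => l c γ)) (i j : Fin m) :
    Differentiable ℂ (fun c : Fin n → ℂ => (1 - PM W r (l c)) i j) := by
  simp only [Matrix.sub_apply]
  exact (differentiable_const _).sub (MuC_dPM W r hl i j)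

private theorem MuC_dDD {n : ℕ} {l : (Fin n → ℂ) → Γ₁ → ℂ}
    (hl : ∀ γ, Differentiable ℂ (fun c => l c γ)) :
    Differentiable ℂ (fun c : Fin n → ℂ => DD W r (l c)) := by
  unfold DD
  exact MuC_ddet (MuC_d1 W r hl)

/-- holomorphic dependence -/
theorem differentiable_DD {n : ℕ} (X : Fin n → HomR Γ₁) :
    Differentiable ℂ (fun c : Fin n → ℂ => DD W r (lc X c)) :=
  MuC_dDD W r (MuC_dlc X)

private theorem MuC_dmv {n : ℕ} {β : (Fin n → ℂ) → SU11 → ℂ}
    (hβ : ∀ g, Differentiable ℂ (fun c => β c g)) (i : Fin m) :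
    Differentiable ℂ (fun c : Fin n → ℂ => mv W r (β c) i) := by
  unfold mv
  apply Differentiable.fun_sum
  intro k _
  exact ((hβ _).sub (hβ _)).const_mul _

private theorem MuC_dadj {n : ℕ} {A : (Fin n → ℂ) → Matrix (Fin m) (Fin m) ℂ}
    (hA : ∀ i j, Differentiable ℂ (fun c => A c i j)) (i j : Fin m) :
    Differentiable ℂ (fun c : Fin n → ℂ => (A c).adjugate i j) := by
  simp only [Matrix.adjugate_apply]
  apply MuC_ddet
  intro i' j'
  simp only [Matrix.updateRow_apply]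
  by_cases h : i' = j
  · simp only [h, if_true]
    exact differentiable_const _
  · simp only [h, if_false]
    exact hA _ _

private theorem MuC_dyv {n : ℕ} {l : (Fin n → ℂ) → Γ₁ → ℂ}
    (hl : ∀ γ, Differentiable ℂ (fun c => l c γ)) {β : (Fin n → ℂ) → SU11 → ℂ}
    (hβ : ∀ g, Differentiable ℂ (fun c => β c g)) (i : Fin m) :
    Differentiable ℂ (fun c : Fin n → ℂ => yv W r (l c) (β c) i) := by
  unfold yv
  simp only [Matrix.mulVec, dotProduct]
  apply Differentiable.fun_sum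
  intro j _
  exact (MuC_dadj (MuC_d1 W r hl) i j).mul (MuC_dmv W r hβ j)

private theorem MuC_dinc {n : ℕ} {l : (Fin n → ℂ) → Γ₁ → ℂ}
    (hl : ∀ γ, Differentiable ℂ (fun c => l c γ)) {β : (Fin n → ℂ) → SU11 → ℂ}
    (hβ : ∀ g, Differentiable ℂ (fun c => β c g)) (i : Fin m) (k : W.ι) :
    Differentiable ℂ (fun c : Fin n → ℂ => inc W r (l c) (β c) i k) := by
  unfold inc
  refine ((MuC_dDD W r hl).mul ((hβ _).sub (hβ _))).add (Differentiable.sub ?_ (MuC_dyv W r hl hβ i))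
  apply Differentiable.fun_sum
  intro j _
  exact (MuC_dlx hl _).mul (MuC_dyv W r hl hβ j)

theorem differentiable_DBv {n : ℕ} (X : Fin n → HomR Γ₁) (β β' : (Fin n → ℂ) → SU11 → ℂ)
    (hβ : ∀ g, Differentiable ℂ (fun c => β c g)) (hβ' : ∀ g, Differentiable ℂ (fun c => β' c g)) :
    Differentiable ℂ (fun c : Fin n → ℂ => DBv W r (lc X c) (lc X (-c)) (β c) (β' c)) := by
  have hl' : ∀ γ, Differentiable ℂ (fun c : Fin n → ℂ => lc X (-c) γ) := fun γ =>
    (MuC_dlc X γ).comp (differentiable_id.neg)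
  unfold DBv
  apply Differentiable.const_mul
  apply Differentiable.fun_sum
  intro i _
  apply Differentiable.fun_sum
  intro k _
  exact ((MuC_dinc W r (MuC_dlc X) hβ i k).mul (MuC_dinc W r hl' hβ' i k)).const_mul _

end

end Pool.Agent.Lib.MP_b16327_pr
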