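import Pool.Agent.Lib.MP_b16327_pr.MuA

/-! # Reductions -/

namespace Pool.Agent.Lib.MP_b16327_pr

open Complex MeasureTheory ComplexConjugate Filter
open scoped Complex.UnitDisc Topology BoundedContinuousFunction

noncomputable section

/-- the operator on measures -/
private def RedA_T (W : Walk) (ν : Measure Circle) : Measure Circle :=
  ∑ i, ENNReal.ofReal (W.p i) • Measure.map (fun ξ : Circle => W.h i • ξ) ν

private theorem RedA_T_add (W : Walk) (μ ν : Measure Circle) :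
    RedA_T W (μ + ν) = RedA_T W μ + RedA_T W ν := by
  unfold RedA_T
  rw [← Finset.sum_add_distrib]
  refine Finset.sum_congr rfl fun i _ => ?_
  rw [Measure.map_add _ _ (continuous_smul_circle (W.h i)).measurable, smul_add]

private theorem RedA_T_smul (W : Walk) (c : ENNReal) (μ : Measure Circle) :
    RedA_T W (c • μ) = c • RedA_T W μ := by
  unfold RedA_T
  rw [Finset.smul_sum]
  refine Finset.sum_congr rfl fun i _ => ?_
  rw [Measure.map_smul, smul_comm]

private theorem RedA_sum_ac {ι : Type*} (s : Finset ι) (μ : ι → Measure Circle) {ν : Measure Circle}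
    (h : ∀ i ∈ s, μ i ≪ ν) : (∑ i ∈ s, μ i) ≪ ν := by
  intro t ht
  rw [Measure.finsetSum_apply]
  exact Finset.sum_eq_zero fun i hi => h i hi ht

private theorem RedA_sum_ms {ι : Type*} (s : Finset ι) (μ : ι → Measure Circle) {ν : Measure Circle}
    (h : ∀ i ∈ s, μ i ⟂ₘ ν) : (∑ i ∈ s, μ i) ⟂ₘ ν := by
  classical
  induction s using Finset.induction_on with
  | empty => simp
  | insert a s ha ih =>
    rw [Finset.sum_insert ha]
    exact (h a (Finset.mem_insert_self _ _)).add_left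
      (ih fun i hi => h i (Finset.mem_insert_of_mem hi))

/-- Lebesgue decomposition `ν = ν_s + ν_a`.  Every `g` preserves the class of `lam`
(`map_absolutelyContinuous`, `map_mutuallySingular`), so by uniqueness of the decomposition
`ν_a = ∑ p_i (h_i)_* ν_a`; normalise `ν_a ≠ 0`. -/
theorem exists_ac (W : Walk) (ν : Measure Circle) [IsProbabilityMeasure ν] (hst : W.Stat ν)
    (hns : ¬ ν ⟂ₘ lam) :
    ∃ ν' : Measure Circle, IsProbabilityMeasure ν' ∧ ν' ≪ lam ∧ W.Stat ν' := by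
  have hst' : ν = RedA_T W ν := hst
  set νs := ν.singularPart lam with hνs
  set νa := lam.withDensity (ν.rnDeriv lam) with hνa
  have hdec : ν = νs + νa := Measure.haveLebesgueDecomposition_add ν lam
  have hsing : νs ⟂ₘ lam := Measure.mutuallySingular_singularPart ν lam
  have hac : νa ≪ lam := withDensity_absolutelyContinuous _ _
  have hTs : RedA_T W νs ⟂ₘ lam :=
    RedA_sum_ms _ _ fun i _ => (map_mutuallySingular (W.h i) hsing).smul _
  have hTa : RedA_T W νa ≪ lam :=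
    RedA_sum_ac _ _ fun i _ => (map_absolutelyContinuous (W.h i) hac).smul_left _
  have hTdec : ν = RedA_T W νs + RedA_T W νa := by
    rw [← RedA_T_add, ← hdec]
    exact hst'
  have hle : RedA_T W νa ≤ ν := by
    conv_rhs => rw [hTdec]
    exact Measure.le_add_left le_rfl
  have : IsFiniteMeasure (RedA_T W νa) := isFiniteMeasure_of_le ν hle
  have hwd : lam.withDensity ((RedA_T W νa).rnDeriv lam) = RedA_T W νa :=
    Measure.withDensity_rnDeriv_eq _ _ hTa
  have hTνa : RedA_T W νa = νa := by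
    have h0 : ν = RedA_T W νs + lam.withDensity ((RedA_T W νa).rnDeriv lam) := by
      rw [hwd]
      exact hTdec
    have h1 := Measure.eq_withDensity_rnDeriv (Measure.measurable_rnDeriv (RedA_T W νa) lam) hTs h0
    rw [hwd] at h1
    exact h1
  have hle2 : νa ≤ ν := by
    conv_rhs => rw [hdec]
    exact Measure.le_add_left le_rfl
  have hfin : IsFiniteMeasure νa := isFiniteMeasure_of_le ν hle2
  have hne : νa ≠ 0 := by
    intro h0
    apply hns
    rw [hdec, h0, add_zero]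
    exact hsing
  have hc0 : νa Set.univ ≠ 0 := fun h => hne (Measure.measure_univ_eq_zero.1 h)
  have hcT : νa Set.univ ≠ ⊤ := measure_ne_top _ _
  refine ⟨(νa Set.univ)⁻¹ • νa, ⟨?_⟩, hac.smul_left _, ?_⟩
  · rw [Measure.smul_apply, smul_eq_mul, ENNReal.inv_mul_cancel hc0 hcT]
  · change (νa Set.univ)⁻¹ • νa = RedA_T W ((νa Set.univ)⁻¹ • νa)
    rw [RedA_T_smul, hTνa]

/-- `Γ = ⊔ Γ₁ r_i`, so `Γ = ⊔ r_i⁻¹ Γ₁`; if `‖g z‖ ≤ r` with `g = r_i⁻¹ γ` then
`γ z = r_i (g z)` lies in a fixed compact set -/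
theorem cocpt_of_trans {Γ Γ₁ : Subgroup SU11} {m : ℕ} {r : Fin m → SU11} (hT : Trans Γ Γ₁ m r)
    (hc : IsCocpt Γ) : IsCocpt Γ₁ := by
  obtain ⟨R, hR, h⟩ := hc
  have hK : IsCompact (⋃ i, (fun z : 𝔻 => r i • z) '' {z : 𝔻 | ‖(z : ℂ)‖ ≤ R}) :=
    isCompact_iUnion fun i => (isCompact_closedBallD hR).image (continuous_smul_disc (r i))
  obtain ⟨R', _, hR', hK'⟩ := isCompact_subset hK
  refine ⟨R', hR', fun z => ?_⟩
  obtain ⟨g, hg, hgz⟩ := h z
  obtain ⟨i, hi, _⟩ := hT.ex g⁻¹ (Γ.inv_mem hg)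
  refine ⟨r i * g, ?_, ?_⟩
  · have := Γ₁.inv_mem hi
    rwa [mul_inv_rev, inv_inv, inv_inv] at this
  · apply hK'
    refine Set.mem_iUnion.2 ⟨i, g • z, hgz, ?_⟩
    exact (mul_smul (r i) g z).symm

theorem disc_of_le {Γ Γ₁ : Subgroup SU11} (hle : Γ₁ ≤ Γ) (hd : IsDisc Γ) : IsDisc Γ₁ :=
  fun R => (hd R).subset fun _ hg => ⟨hle hg.1, hg.2⟩

/-- a cocompact group has elements with arbitrarily large `L`: take `z` near the circle and
`‖g z‖ ≤ r` -/
theorem unbounded_of_cocpt {Γ : Subgroup SU11} (hc : IsCocpt Γ) (C : ℝ) : ∃ g ∈ Γ, C ≤ Lg g := by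
  obtain ⟨r, hr, h⟩ := hc
  have hr0 : 0 ≤ r := by
    obtain ⟨g, _, hg⟩ := h 0
    exact (norm_nonneg _).trans hg
  have hr1 : 0 < 1 - r ^ 2 := by nlinarith
  set M : ℝ := |C - Real.log (1 - r ^ 2) + Real.log 4| + 1 with hM
  have hM0 : 0 < M := by positivity
  have hM1 : C - Real.log (1 - r ^ 2) + Real.log 4 ≤ M := by
    rw [hM]
    linarith [le_abs_self (C - Real.log (1 - r ^ 2) + Real.log 4)]
  have he1 : Real.exp (-M) < 1 := Real.exp_lt_one_iff.2 (by linarith)
  have he0 : 0 < Real.exp (-M) := Real.exp_pos _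
  have hs0 : 0 ≤ 1 - Real.exp (-M) := by linarith
  have hz : ‖((Real.sqrt (1 - Real.exp (-M)) : ℝ) : ℂ)‖ < 1 := by
    rw [Complex.norm_real, Real.norm_eq_abs, abs_of_nonneg (Real.sqrt_nonneg _),
      Real.sqrt_lt' one_pos]
    linarith
  obtain ⟨g, hg, hgz⟩ := h (UnitDisc.mk _ hz)
  set z : 𝔻 := UnitDisc.mk _ hz with hzdef
  have hz2 : ‖(z : ℂ)‖ ^ 2 = 1 - Real.exp (-M) := by
    rw [hzdef, UnitDisc.coe_mk, Complex.norm_real, Real.norm_eq_abs, sq_abs, Real.sq_sqrt hs0]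
  have h1 : dL z 0 = M := by
    rw [dL_zero, hz2]
    have : 1 - (1 - Real.exp (-M)) = Real.exp (-M) := by ring
    rw [this, Real.log_exp, neg_neg]
  have h2 : dL (g • z) 0 ≤ -Real.log (1 - r ^ 2) := by
    rw [dL_zero]
    apply neg_le_neg
    apply Real.log_le_log hr1
    have : ‖((g • z : 𝔻) : ℂ)‖ ^ 2 ≤ r ^ 2 := pow_le_pow_left₀ (norm_nonneg _) hgz 2
    linarith
  have h3 : dL z 0 ≤ dL (g • z) 0 + Lg g + Real.log 4 := by
    have h4 := dL_triangle (g • z) 0 (g • (0 : 𝔻))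
    rw [dL_smul, dL_comm 0 (g • (0 : 𝔻)), dL_smul_zero] at h4
    exact h4
  exact ⟨g, hg, by linarith⟩

/-- if every `y` is in the real span of `x, J x` then `Hom(Γ, ℝ)` has dimension `≤ 2`; otherwise
`x, Jx, y, Jy` are linearly independent (`J² = -1`) -/
theorem exists_y {V : Type*} [AddCommGroup V] [Module ℝ V] (J : V →ₗ[ℝ] V)
    (hJ : ∀ x, J (J x) = -x) (h3 : ∃ v : Fin 3 → V, LinearIndependent ℝ v) {x : V} (hx : x ≠ 0) :
    ∃ y : V, LinearIndependent ℝ ![x, J x, y, J y] := by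
  classical
  obtain ⟨v, hv⟩ := h3
  have hex : ∃ y : V, y ∉ Submodule.span ℝ ({x, J x} : Set V) := by
    by_contra hcon
    simp only [not_exists, not_not] at hcon
    have h1 := linearIndependent_le_span' v hv (({x, J x} : Finset V) : Set V) (by
      rintro _ ⟨i, rfl⟩
      simpa using hcon (v i))
    have h2 : Fintype.card ((({x, J x} : Finset V) : Set V)) ≤ 2 := by
      simpa using Finset.card_le_two (a := x) (b := J x)
    have h4 : (Cardinal.mk (Fin 3)) ≤ ((2 : ℕ) : Cardinal) := h1.trans (by exact_mod_cast h2)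
    rw [Cardinal.mk_fin] at h4
    have h5 : (3 : ℕ) ≤ 2 := by exact_mod_cast h4
    omega
  obtain ⟨y, hy⟩ := hex
  refine ⟨y, ?_⟩
  rw [Fintype.linearIndependent_iff]
  intro c hc
  rw [Fin.sum_univ_four] at hc
  simp only [Matrix.cons_val_zero, Matrix.cons_val_one, Matrix.cons_val] at hc
  have hc2 : J (c 0 • x + c 1 • J x + c 2 • y + c 3 • J y) = 0 := by rw [hc, map_zero]
  simp only [map_add, map_smul, hJ] at hc2
  have hxs : x ∈ Submodule.span ℝ ({x, J x} : Set V) := Submodule.subset_span (by simp)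
  have hJxs : J x ∈ Submodule.span ℝ ({x, J x} : Set V) := Submodule.subset_span (by simp)
  have h23 : c 2 ^ 2 + c 3 ^ 2 = 0 := by
    by_contra hne
    apply hy
    have h6 : (c 2 ^ 2 + c 3 ^ 2) • y = (-(c 2 * c 0) - c 3 * c 1) • x +
        (-(c 2 * c 1) + c 3 * c 0) • J x := by
      have e1 : c 2 • (c 0 • x + c 1 • J x + c 2 • y + c 3 • J y) -
          c 3 • (c 0 • J x + c 1 • -x + c 2 • J y + c 3 • -y) = 0 := by
        rw [hc, hc2, smul_zero, smul_zero, sub_zero]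
      rw [← sub_eq_zero]
      rw [← e1]
      module
    have h7 : y = (c 2 ^ 2 + c 3 ^ 2)⁻¹ • ((c 2 ^ 2 + c 3 ^ 2) • y) := by
      rw [smul_smul, inv_mul_cancel₀ hne, one_smul]
    rw [h7, h6]
    exact Submodule.smul_mem _ _ (Submodule.add_mem _ (Submodule.smul_mem _ _ hxs)
      (Submodule.smul_mem _ _ hJxs))
  have hc2z : c 2 = 0 := by nlinarith [sq_nonneg (c 2), sq_nonneg (c 3)]
  have hc3z : c 3 = 0 := by nlinarith [sq_nonneg (c 2), sq_nonneg (c 3)]
  rw [hc2z, hc3z] at hc hc2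
  have h01 : c 0 ^ 2 + c 1 ^ 2 = 0 := by
    by_contra hne
    apply hx
    have e1 : c 0 • (c 0 • x + c 1 • J x + (0 : ℝ) • y + (0 : ℝ) • J y) -
        c 1 • (c 0 • J x + c 1 • -x + (0 : ℝ) • J y + (0 : ℝ) • -y) = 0 := by
      rw [hc, hc2, smul_zero, smul_zero, sub_zero]
    have h6 : (c 0 ^ 2 + c 1 ^ 2) • x = 0 := by
      rw [← e1]
      module
    exact (smul_eq_zero.1 h6).resolve_left hne
  have hc0z : c 0 = 0 := by nlinarith [sq_nonneg (c 0), sq_nonneg (c 1)]
  have hc1z : c 1 = 0 := by nlinarith [sq_nonneg (c 0), sq_nonneg (c 1)]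
  intro i
  fin_cases i
  · exact hc0z
  · exact hc1z
  · exact hc2z
  · exact hc3z

end

end Pool.Agent.Lib.MP_b16327_pr
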