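import Pool.Agent.Lib.MP_b16327_pr.CoreB
import Pool.Agent.Lib.MP_b16327_pr.CompC
import Pool.Agent.Lib.MP_b16327_pr.MuB
import Pool.Agent.Lib.MP_b16327_pr.MuC
import Pool.Agent.Lib.MP_b16327_pr.BordB
import Pool.Agent.Lib.MP_b16327_pr.RedA

/-! # The identity between the two sides -/

namespace Pool.Agent.Lib.MP_b16327_pr

open Complex MeasureTheory ComplexConjugate Filter
open scoped Complex.UnitDisc Topology BoundedContinuousFunction

noncomputable section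

theorem E_ne_zero_unitary {Γ : Subgroup SU11} (hc : IsCocpt Γ) {P : PU Γ} {n : ℕ}
    {X : Fin n → HomR Γ} (hX : LinearIndependent ℝ X) {ρ : ℝ} (hρ : Small X ρ)
    {b : Fin n → 𝔻 → ℝ} (hb : IsB X b) {R : ℝ} (hL : Large Γ R)
    (S : Spec Γ P n X b R) {c : Fin n → ℂ}
    (hcb : c ∈ Metric.ball (0 : Fin n → ℂ) S.ρ) (hcs : ∀ j, ‖c j‖ < ρ)
    (hre : ∀ j, (c j).re = 0) (hc0 : c ≠ 0) : S.E c ≠ 0 := by
  intro hE
  obtain ⟨γ, hγ⟩ := exists_ne_one hX hρ hcs hc0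
  apply hγ
  obtain ⟨z₀, hz₀⟩ := phi_ne_zero S hcb
  refine unitary_trivial hc hL.1 hL.2.1 (Φ := fun z => gau b c z * ap (S.φ c) z)
    ((continuous_gau hb c).mul (EG_continuous _))
    (mop_of_fixed S.M S.M_apply c _ (phi_fixed S hcb hE))
    ⟨z₀, mul_ne_zero (gau_ne_zero b c z₀) hz₀⟩ (lc X c) (norm_lc X hre) ?_ γ
  intro γ z
  rw [gau_smul' hb, EG_ap_smul _ γ.2]
  ring

theorem mult_lc {Γ₁ : Subgroup SU11} {n : ℕ} (X : Fin n → HomR Γ₁) (c : Fin n → ℂ) :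
    Mult (lc X c) where
  one := by unfold lc chi ev; simp
  mul := lc_mul X c

/-- all standing data of the final argument -/
structure Data where
  /-- the walk -/
  W : Walk
  /-- the group -/
  Γ : Subgroup SU11
  /-- the subgroup -/
  Γ₁ : Subgroup SU11
  /-- the index -/
  m : ℕ
  /-- the transversal -/
  r : Fin m → SU11
  hT : Trans Γ Γ₁ m r
  hΓ : Γ = Subgroup.closure (W.h '' {i | 0 < W.p i})
  hW : ∀ k, W.h k ∈ Γ
  hd : IsDisc Γ₁
  hc : IsCocpt Γ₁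
  /-- the radius of the averaging operator -/
  R : ℝ
  hL : Large Γ₁ R
  /-- the constant of the comparison theorem -/
  K : ℝ
  hK : 0 < K
  hcomp : ∀ D : PairData W Γ R, D.Bμ = K * D.Bm

/-- `β_c(g) = b_{a,c}(g 0)` -/
def bet {Γ₁ : Subgroup SU11} {n : ℕ} (X : Fin n → HomR Γ₁) (H : HypD Γ₁) (c : Fin n → ℂ)
    (g : SU11) : ℂ := bc X H c (g • (0 : 𝔻))

theorem bet_mul {Γ₁ : Subgroup SU11} (hd : IsDisc Γ₁) {n : ℕ} (X : Fin n → HomR Γ₁)
    {H : HypD Γ₁} (hH : Null H) (c : Fin n → ℂ) (γ : Γ₁) (g : SU11) :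
    bet X H c ((γ : SU11) * g) = lc X c γ * bet X H c g + bet X H c γ := by
  unfold bet
  rw [mul_smul]
  exact H.bco_smul hd (adm_lc X c hH) γ (g • (0 : 𝔻))

theorem differentiable_bet {Γ₁ : Subgroup SU11} (hd : IsDisc Γ₁) {n : ℕ} (X : Fin n → HomR Γ₁)
    {H : HypD Γ₁} (hH : Null H) (g : SU11) : Differentiable ℂ (fun c => bet X H c g) := by
  obtain ⟨F, hF⟩ := H.bco_finite hd (r := ‖((g • (0 : 𝔻) : 𝔻) : ℂ)‖)
    (UnitDisc.norm_lt_one _)
  have h1 : (fun c => bet X H c g) = fun c => ∑ δ ∈ F, lc X c δ *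
      ((H.s (((δ : SU11))⁻¹ • (g • (0 : 𝔻))) : ℂ) - (H.s (((δ : SU11))⁻¹ • (0 : 𝔻)) : ℂ)) := by
    funext c
    exact hF (lc X c) (adm_lc X c hH) _ le_rfl
  rw [h1]
  refine Differentiable.fun_sum fun δ _ => ?_
  refine Differentiable.mul_const ?_ _
  unfold lc chi
  refine Differentiable.cexp ?_
  refine Differentiable.fun_sum fun j _ => ?_
  exact (differentiable_apply j).mul_const _

namespace Data

variable (D : Data)

/-- `D(c) D(-c)` -/
def DDt {n : ℕ} (X : Fin n → HomR D.Γ₁) (c : Fin n → ℂ) : ℂ :=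
  DD D.W D.r (lc X c) * DD D.W D.r (lc X (-c))

theorem differentiable_DDt {n : ℕ} (X : Fin n → HomR D.Γ₁) : Differentiable ℂ (D.DDt X) := by
  unfold DDt
  refine (differentiable_DD D.W D.r X).mul ?_
  have hneg : Differentiable ℂ (fun c : Fin n → ℂ => -c) := differentiable_id.neg
  exact (differentiable_DD D.W D.r X).comp hneg

/-- the identity at unitary characters -/
theorem identity_unitary (P : PU D.Γ₁) {n : ℕ}
    {X : Fin n → HomR D.Γ₁} (hX : LinearIndependent ℝ X) {ρ : ℝ} (hρ : Small X ρ)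
    {b : Fin n → 𝔻 → ℝ} (hb : IsB X b)
    (S : Spec D.Γ₁ P n X b D.R) {H H' : HypD D.Γ₁} (hH : Null H) (hH' : Null H')
    {EB : (Fin n → ℂ) → ℂ}
    (hEB : ∀ c ∈ Metric.ball (0 : Fin n → ℂ) S.ρ, (∀ j, (c j).re = 0) → S.E c ≠ 0 →
        ∃ u u' κ : 𝔻 → ℂ, Continuous u ∧ Continuous u' ∧ Continuous κ ∧ CLip u ∧ CLip u' ∧
          (∃ C : ℝ, ∀ z, ‖κ z‖ ≤ C) ∧ (∀ z, Mop D.R u z = u z) ∧ (∀ z, Mop D.R u' z = u' z) ∧
          (∀ z, Mop D.R (fun w => u w * u' w + κ w) z - (u z * u' z + κ z) = EB c / S.E c) ∧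
          (∃ C : ℝ, ∀ z, ‖u z - bc X H c z‖ ≤ C) ∧
          (∃ C : ℝ, ∀ z, ‖u' z - bc X H' (-c) z‖ ≤ C))
    {c : Fin n → ℂ} (hcb : c ∈ Metric.ball (0 : Fin n → ℂ) S.ρ) (hcs : ∀ j, ‖c j‖ < ρ)
    (hre : ∀ j, (c j).re = 0) (hc0 : c ≠ 0) :
    S.E c * DBv D.W D.r (lc X c) (lc X (-c)) (bet X H c) (bet X H' (-c)) =
      D.K * D.DDt X c * EB c := by
  have hE := E_ne_zero_unitary D.hc hX hρ hb D.hL S hcb hcs hre hc0
  obtain ⟨u, u', κ, hu, hu', hκ, hCL, hCL', hκb, hM, hM', hB, ⟨C1, hC1⟩, ⟨C2, hC2⟩⟩ :=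
    hEB c hcb hre hE
  obtain ⟨γ, hγ⟩ := exists_ne_one hX hρ hcs hc0
  have hre' : ∀ j, ((-c) j).re = 0 := fun j => by simp [hre j]
  have hD1 : DD D.W D.r (lc X c) ≠ 0 :=
    DD_ne_zero D.W D.r D.hT D.hΓ D.hW (mult_lc X c) (norm_lc X hre) ⟨γ, hγ⟩
  have hD2 : DD D.W D.r (lc X (-c)) ≠ 0 := by
    refine DD_ne_zero D.W D.r D.hT D.hΓ D.hW (mult_lc X (-c)) (norm_lc X hre') ⟨γ, ?_⟩
    intro h
    apply hγ
    have := lc_neg X c γ
    rw [h, mul_one] at this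
    exact this
  obtain ⟨X1, X2, κ', ⟨C3, hC3⟩, ⟨C4, hC4⟩, ⟨C5, hC5⟩, hP1, hP2, hP3⟩ :=
    mu_side D.W D.r D.hT D.hΓ D.hW (mult_lc X c) (mult_lc X (-c)) (fun γ => lc_neg X c γ)
      (norm_lc X hre) hD1 hD2 (β := bet X H c) (β' := bet X H' (-c))
      (fun γ g _ => bet_mul D.hd X hH c γ g) (fun γ g _ => bet_mul D.hd X hH' (-c) γ g)
  have key := D.hcomp
    { u := u, u' := u', κ := κ, X := X1, X' := X2, κ' := κ', Bm := EB c / S.E c
      Bμ := DBv D.W D.r (lc X c) (lc X (-c)) (bet X H c) (bet X H' (-c)) /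
        (DD D.W D.r (lc X c) * DD D.W D.r (lc X (-c)))
      hu := hu, hu' := hu', hκ := hκ, hL := hCL, hL' := hCL', hκb := hκb, hM := hM, hM' := hM'
      hBm := hB
      hX := ⟨C3 + C1, fun g hg => by
        have h1 := hC3 g hg
        have h2 := hC1 (g • (0 : 𝔻))
        calc ‖X1 g - u (g • (0 : 𝔻))‖ = ‖(X1 g - bet X H c g) - (u (g • (0 : 𝔻)) - bet X H c g)‖ := by
              congr 1; ring
          _ ≤ C3 + C1 := (norm_sub_le _ _).trans (add_le_add h1 h2)⟩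
      hX' := ⟨C4 + C2, fun g hg => by
        have h1 := hC4 g hg
        have h2 := hC2 (g • (0 : 𝔻))
        calc ‖X2 g - u' (g • (0 : 𝔻))‖ =
              ‖(X2 g - bet X H' (-c) g) - (u' (g • (0 : 𝔻)) - bet X H' (-c) g)‖ := by
              congr 1; ring
          _ ≤ C4 + C2 := (norm_sub_le _ _).trans (add_le_add h1 h2)⟩
      hκ'b := ⟨C5, hC5⟩
      hPX := hP1, hPX' := hP2, hBμ := hP3 }
  simp only at key
  rw [div_eq_iff (mul_ne_zero hD1 hD2)] at key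
  unfold DDt
  rw [key]
  field_simp

/-- zeros of `E` off `Hol ∪ AHol` are zeros of `D(c) D(-c)` -/
theorem zero_of_E (P : PU D.Γ₁)
    (J : HomR D.Γ₁ →ₗ[ℝ] HomR D.Γ₁) (hJJ : ∀ x, J (J x) = -x) (hΨ : ∀ x, ∃ Ψ, IsPsi Ψ x (J x))
    {x y : HomR D.Γ₁} (hX : LinearIndependent ℝ (X4 J x y)) :
    ∃ ρ₀ : ℝ, 0 < ρ₀ ∧ ∃ E : (Fin 4 → ℂ) → ℂ, DifferentiableOn ℂ E (Metric.ball 0 ρ₀) ∧
      (∀ c ∈ Metric.ball (0 : Fin 4 → ℂ) ρ₀, (∀ j, (c j).re = 0) → c ≠ 0 → E c ≠ 0) ∧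
      (∀ c ∈ Metric.ball (0 : Fin 4 → ℂ) ρ₀, (∃ F : 𝔻 → ℂ, CMV F ∧ (∃ z, F z ≠ 0) ∧
        ∀ (γ : D.Γ₁) (z : 𝔻), F ((γ : SU11) • z) = lc (X4 J x y) c γ * F z) → E c = 0) ∧
      (∀ c ∈ Metric.ball (0 : Fin 4 → ℂ) ρ₀, E c = 0 → ¬ Hol c → ¬ AHol c →
        D.DDt (X4 J x y) c = 0) := by
  choose b hbc hbe using fun j => exists_b D.hd P (X4 J x y j)
  have hb : IsB (X4 J x y) b := ⟨hbc, hbe⟩
  obtain ⟨S⟩ := exists_spec D.hd D.hc P (X4 J x y) b hb D.hL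
  obtain ⟨ρ, hρ⟩ := small_char (X4 J x y) hX
  have hR0 := D.hL.1
  have hR := D.hL.2.1
  set ρ₁ := min S.ρ (ρ / 2) with hρ₁
  have hρ₁pos : 0 < ρ₁ := lt_min S.ρ_pos (half_pos hρ.1)
  have hsub : ∀ c ∈ Metric.ball (0 : Fin 4 → ℂ) ρ₁,
      c ∈ Metric.ball (0 : Fin 4 → ℂ) S.ρ ∧ ∀ j, ‖c j‖ < ρ / 2 := by
    intro c hc
    rw [mem_ball_zero_iff] at hc
    constructor
    · rw [mem_ball_zero_iff]
      exact hc.trans_le (min_le_left _ _)
    · intro j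
      exact (norm_le_pi_norm c j).trans_lt (hc.trans_le (min_le_right _ _))
  have hle4 : Metric.ball (0 : Fin 4 → ℂ) (ρ₁ / 4) ⊆ Metric.ball 0 ρ₁ :=
    Metric.ball_subset_ball (by linarith)
  refine ⟨ρ₁ / 4, by positivity, S.E, ?_, ?_, ?_, ?_⟩
  · refine S.E_diff.mono fun c hc => (hsub c (hle4 hc)).1
  · intro c hc hre hc0
    have h := hsub c (hle4 hc)
    exact E_ne_zero_unitary D.hc hX hρ hb D.hL S h.1
      (fun j => (h.2 j).trans (by have := hρ.1; linarith)) hre hc0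
  · rintro c hc ⟨F, hF, hF0, hFeq⟩
    exact E_eq_zero D.hc hb S (hsub c (hle4 hc)).1 hF.cont hFeq (fun z => hF.mop hR0 hR z) hF0
  · intro c hc hE h1 h2
    have hcb := hsub c (hle4 hc)
    have hnc : -c ∈ Metric.ball (0 : Fin 4 → ℂ) (ρ₁ / 4) := by
      rw [mem_ball_zero_iff, norm_neg, ← mem_ball_zero_iff]
      exact hc
    have hncb := hsub (-c) (hle4 hnc)
    have hE' : S.E (-c) = 0 := by rw [S.E_neg c hcb.1, hE]
    have h1' : ¬ Hol (-c) := by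
      rintro ⟨a1, a2⟩
      apply h1
      simp only [Pi.neg_apply, mul_neg, neg_inj] at a1 a2
      exact ⟨a1, a2⟩
    have h2' : ¬ AHol (-c) := by
      rintro ⟨a1, a2⟩
      apply h2
      simp only [Pi.neg_apply, mul_neg, neg_inj] at a1 a2
      exact ⟨a1, a2⟩
    obtain ⟨H', hH', hfl'⟩ := flux_ne D.hd D.hc P J hJJ hΨ hX hρ hb D.hL S hcb.1 hcb.2 hE h1 h2
    obtain ⟨H, hH, hfl⟩ := flux_ne D.hd D.hc P J hJJ hΨ hX hρ hb D.hL S hncb.1 hncb.2 hE' h1' h2'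
    rw [neg_neg] at hfl
    obtain ⟨EB, hEBd, hEB0, hEBu⟩ := exists_EB D.hd D.hc P (X4 J x y) b hb D.hL S H H' hH hH'
    have hEBne : EB c ≠ 0 := by
      rw [hEB0 c hcb.1 hE]
      exact mul_ne_zero (mul_ne_zero (by norm_num) hfl) hfl'
    -- the identity
    have hid : ∀ c ∈ Metric.ball (0 : Fin 4 → ℂ) (ρ₁ / 4),
        S.E c * DBv D.W D.r (lc (X4 J x y) c) (lc (X4 J x y) (-c)) (bet (X4 J x y) H c)
          (bet (X4 J x y) H' (-c)) - D.K * D.DDt (X4 J x y) c * EB c = 0 := by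
      refine eq_zero_of_imaginary (by norm_num) hρ₁pos (F := fun c =>
        S.E c * DBv D.W D.r (lc (X4 J x y) c) (lc (X4 J x y) (-c)) (bet (X4 J x y) H c)
          (bet (X4 J x y) H' (-c)) - D.K * D.DDt (X4 J x y) c * EB c) ?_ ?_
      · have hs1 : Metric.ball (0 : Fin 4 → ℂ) ρ₁ ⊆ Metric.ball 0 S.ρ := fun c hc => (hsub c hc).1
        refine DifferentiableOn.sub ?_ ?_
        · refine (S.E_diff.mono hs1).mul ?_
          refine Differentiable.differentiableOn ?_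
          exact differentiable_DBv D.W D.r (X4 J x y) (fun c => bet (X4 J x y) H c)
            (fun c => bet (X4 J x y) H' (-c)) (fun g => differentiable_bet D.hd _ hH g)
            (fun g => by
              have hneg : Differentiable ℂ (fun c : Fin 4 → ℂ => -c) := differentiable_id.neg
              exact (differentiable_bet D.hd _ hH' g).comp hneg)
        · refine DifferentiableOn.mul ?_ (hEBd.mono hs1)
          exact ((D.differentiable_DDt (X4 J x y)).const_mul _).differentiableOn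
      · intro c hc hre hc0
        have h := hsub c hc
        rw [D.identity_unitary P hX hρ hb S hH hH' hEBu h.1
          (fun j => (h.2 j).trans (by have := hρ.1; linarith)) hre hc0, sub_self]
    have hfin := hid c hc
    rw [hE, zero_mul, zero_sub, neg_eq_zero] at hfin
    have hK : (D.K : ℂ) ≠ 0 := by
      have := D.hK
      exact_mod_cast this.ne'
    rcases mul_eq_zero.1 hfin with h | h
    · rcases mul_eq_zero.1 h with h' | h'
      · exact absurd h' hK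
      · exact h'
    · exact absurd h hEBne

end Data

end

end Pool.Agent.Lib.MP_b16327_pr
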