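import Pool.Agent.Lib.MP_b16327_pr.CoreC

/-! # The final argument -/

namespace Pool.Agent.Lib.MP_b16327_pr

open Complex MeasureTheory ComplexConjugate Filter
open scoped Complex.UnitDisc Topology BoundedContinuousFunction

noncomputable section

/-- base point `(1, i, 0, 0)` -/
def p4 : Fin 4 → ℂ := ![1, I, 0, 0]
/-- conjugate direction `(1, -i, 0, 0)` -/
def q4 : Fin 4 → ℂ := ![1, -I, 0, 0]
/-- the second direction `(0, 0, 1, -i)` -/
def d4 : Fin 4 → ℂ := ![0, 0, 1, -I]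

theorem norm_p4 : ‖p4‖ ≤ 1 := by
  rw [pi_norm_le_iff_of_nonneg zero_le_one]
  intro j
  fin_cases j <;> simp [p4]

theorem norm_q4 : ‖q4‖ ≤ 1 := by
  rw [pi_norm_le_iff_of_nonneg zero_le_one]
  intro j
  fin_cases j <;> simp [q4]

theorem norm_d4 : ‖d4‖ ≤ 1 := by
  rw [pi_norm_le_iff_of_nonneg zero_le_one]
  intro j
  fin_cases j <;> simp [d4]

theorem not_hol {t ε : ℂ} (z : ℂ) (hε : ε ≠ 0) : ¬ Hol (t • p4 + ε • d4 + z • q4) := by
  rintro ⟨-, h2⟩
  apply hε
  have e3 : (t • p4 + ε • d4 + z • q4) 3 = -I * ε := by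
    simp only [p4, q4, d4, Pi.add_apply, Pi.smul_apply, smul_eq_mul, Matrix.cons_val]
    ring
  have e2 : (t • p4 + ε • d4 + z • q4) 2 = ε := by
    simp only [p4, q4, d4, Pi.add_apply, Pi.smul_apply, smul_eq_mul, Matrix.cons_val]
    ring
  rw [e3, e2] at h2
  have h3 : (2 * I) * ε = 0 := by linear_combination -h2
  exact (mul_eq_zero.1 h3).resolve_left (mul_ne_zero two_ne_zero I_ne_zero)

theorem not_ahol {t ε : ℂ} (z : ℂ) (ht : t ≠ 0) : ¬ AHol (t • p4 + ε • d4 + z • q4) := by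
  rintro ⟨h1, -⟩
  apply ht
  have e1 : (t • p4 + ε • d4 + z • q4) 1 = I * t - I * z := by
    simp only [p4, q4, d4, Pi.add_apply, Pi.smul_apply, smul_eq_mul, Matrix.cons_val]
    ring
  have e0 : (t • p4 + ε • d4 + z • q4) 0 = t + z := by
    simp only [p4, q4, d4, Pi.add_apply, Pi.smul_apply, smul_eq_mul, Matrix.cons_val]
    ring
  rw [e1, e0] at h1
  have h3 : (2 * I) * t = 0 := by linear_combination h1
  exact (mul_eq_zero.1 h3).resolve_left (mul_ne_zero two_ne_zero I_ne_zero)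

theorem chi_p4 {Γ : Subgroup SU11} (J : HomR Γ →ₗ[ℝ] HomR Γ) (x y : HomR Γ) (t : ℂ) (γ : Γ) :
    chi (X4 J x y) (t • p4) γ = t * ((ev x γ : ℂ) + ev (J x) γ * I) := by
  unfold chi X4
  rw [Fin.sum_univ_four]
  simp only [p4, Pi.smul_apply, smul_eq_mul, Matrix.cons_val]
  ring

namespace Data

variable (D : Data)

/-- `D(p) D(-p) = 0` for `p = t (1, i, 0, 0)`, small `t > 0` -/
theorem DDt_small (P : PU D.Γ₁)
    (J : HomR D.Γ₁ →ₗ[ℝ] HomR D.Γ₁) (hJJ : ∀ x, J (J x) = -x) (hΨ : ∀ x, ∃ Ψ, IsPsi Ψ x (J x))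
    {x y : HomR D.Γ₁} (hX : LinearIndependent ℝ (X4 J x y)) :
    ∃ t₀ : ℝ, 0 < t₀ ∧ ∀ t : ℝ, 0 < t → t < t₀ → D.DDt (X4 J x y) ((t : ℂ) • p4) = 0 := by
  obtain ⟨ρ₀, hρ₀, E, hEd, hEu, hEz, hED⟩ := D.zero_of_E P J hJJ hΨ hX
  refine ⟨ρ₀ / 4, by positivity, fun t ht0 ht => ?_⟩
  have hnorm : ‖(t : ℂ)‖ = t := by rw [Complex.norm_real, Real.norm_of_nonneg ht0.le]
  have htC : (t : ℂ) ≠ 0 := by exact_mod_cast ht0.ne'
  have hball : ∀ v : Fin 4 → ℂ, ‖v‖ ≤ 3 * t → v ∈ Metric.ball (0 : Fin 4 → ℂ) ρ₀ := by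
    intro v hv
    rw [mem_ball_zero_iff]
    linarith
  have hpn : ‖(t : ℂ) • p4‖ ≤ t := by
    rw [norm_smul, hnorm]
    nlinarith [norm_p4]
  have hpb : (t : ℂ) • p4 ∈ Metric.ball (0 : Fin 4 → ℂ) ρ₀ := hball _ (by linarith)
  have hseg : ∀ z : ℂ, ‖z‖ ≤ t → (t : ℂ) • p4 + z • q4 ∈ Metric.ball (0 : Fin 4 → ℂ) ρ₀ := by
    intro z hz
    apply hball
    have h1 : ‖z • q4‖ ≤ t := by
      rw [norm_smul]
      nlinarith [norm_q4, norm_nonneg z, norm_nonneg q4]
    linarith [norm_add_le ((t : ℂ) • p4) (z • q4)]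
  -- zero at p
  have h0 : E ((t : ℂ) • p4) = 0 := by
    obtain ⟨Ψ, hΨh, hΨe⟩ := hΨ x
    refine hEz _ hpb ⟨fun z => Complex.exp ((t : ℂ) * Ψ z), ?_, ⟨0, Complex.exp_ne_zero _⟩, ?_⟩
    · have : Holo (fun z => Complex.exp ((t : ℂ) * Ψ z)) := by
        unfold Holo
        exact (hΨh.const_mul _).cexp
      exact this.cmv
    · intro γ z
      simp only
      rw [hΨe γ z]
      unfold lc
      rw [chi_p4, ← Complex.exp_add]
      congr 1
      ring
  -- non-zero at p - t q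
  have h1 : E ((t : ℂ) • p4 + (-(t : ℂ)) • q4) ≠ 0 := by
    have e : (t : ℂ) • p4 + (-(t : ℂ)) • q4 = ![0, 2 * t * I, 0, 0] := by
      funext j
      fin_cases j <;> simp [p4, q4] <;> ring
    refine hEu _ (hseg _ (by rw [norm_neg, hnorm])) ?_ ?_
    · rw [e]
      intro j
      fin_cases j <;> simp
    · rw [e]
      intro h
      have h2 : (2 * (t : ℂ) * I) = 0 := congrFun h 1
      exact mul_ne_zero (mul_ne_zero two_ne_zero htC) I_ne_zero h2
  by_contra hne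
  have hcont : ContinuousAt (D.DDt (X4 J x y)) ((t : ℂ) • p4) :=
    (D.differentiable_DDt (X4 J x y)).continuous.continuousAt
  obtain ⟨δ, hδ, hball'⟩ := Metric.eventually_nhds_iff.1 (hcont.eventually_ne hne)
  obtain ⟨ε, z, hε0, hεδ, hzδ, hcb, hEc⟩ := zeros_near hEd (d := d4) ht0 hseg h0 h1
    (δ := δ / 2) (half_pos hδ)
  have hεC : (ε : ℂ) ≠ 0 := by exact_mod_cast hε0.ne'
  refine hball' (y := (t : ℂ) • p4 + (ε : ℂ) • d4 + z • q4) ?_ (hED _ hcb hEc
    (not_hol z hεC) (not_ahol z htC))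
  rw [dist_eq_norm]
  have e : (t : ℂ) • p4 + (ε : ℂ) • d4 + z • q4 - (t : ℂ) • p4 = (ε : ℂ) • d4 + z • q4 := by
    abel
  rw [e]
  have hε1 : ‖(ε : ℂ)‖ = ε := by rw [Complex.norm_real, Real.norm_of_nonneg hε0.le]
  have a1 : ‖(ε : ℂ) • d4‖ ≤ ε := by
    rw [norm_smul, hε1]
    nlinarith [norm_d4]
  have a2 : ‖z • q4‖ ≤ ‖z‖ := by
    rw [norm_smul]
    nlinarith [norm_q4, norm_nonneg z]
  linarith [norm_add_le ((ε : ℂ) • d4) (z • q4)]

/-- analytic continuation in `t` -/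
theorem DDt_one (P : PU D.Γ₁)
    (J : HomR D.Γ₁ →ₗ[ℝ] HomR D.Γ₁) (hJJ : ∀ x, J (J x) = -x) (hΨ : ∀ x, ∃ Ψ, IsPsi Ψ x (J x))
    {x y : HomR D.Γ₁} (hX : LinearIndependent ℝ (X4 J x y)) :
    D.DDt (X4 J x y) p4 = 0 := by
  obtain ⟨t₀, ht₀, h⟩ := D.DDt_small P J hJJ hΨ hX
  set f : ℂ → ℂ := fun t => D.DDt (X4 J x y) (t • p4) with hf
  have hfd : Differentiable ℂ f := by
    have h1 : Differentiable ℂ (fun t : ℂ => t • p4) := differentiable_id.smul_const p4
    exact (D.differentiable_DDt (X4 J x y)).comp h1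
  have hfa : AnalyticOnNhd ℂ f Set.univ := fun z _ => hfd.analyticAt z
  have hfz : ∃ᶠ z in 𝓝[≠] (((t₀ / 2 : ℝ)) : ℂ), f z = 0 := by
    rw [frequently_nhdsWithin_iff]
    rw [Metric.nhds_basis_ball.frequently_iff]
    intro ε hε
    set s := min (ε / 2) (t₀ / 4) with hs
    have hs0 : 0 < s := lt_min (half_pos hε) (by linarith)
    refine ⟨((t₀ / 2 + s : ℝ) : ℂ), ?_, ?_, ?_⟩
    · rw [Metric.mem_ball, dist_eq_norm, ← Complex.ofReal_sub, Complex.norm_real,
        Real.norm_eq_abs]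
      have : t₀ / 2 + s - t₀ / 2 = s := by ring
      rw [this, abs_of_pos hs0]
      have := min_le_left (ε / 2) (t₀ / 4)
      linarith
    · apply h
      · linarith
      · have := min_le_right (ε / 2) (t₀ / 4)
        linarith
    · intro hmem
      have h2 : ((t₀ / 2 + s : ℝ) : ℂ) = ((t₀ / 2 : ℝ) : ℂ) := hmem
      have h3 : t₀ / 2 + s = t₀ / 2 := by exact_mod_cast h2
      linarith
  have key := hfa.eqOn_zero_of_preconnected_of_frequently_eq_zero isPreconnected_univ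
    (Set.mem_univ _) hfz (Set.mem_univ (1 : ℂ))
  simpa [hf] using key

/-- THE CONTRADICTION -/
theorem contradiction (h3 : ∃ v : Fin 3 → HomR D.Γ₁, LinearIndependent ℝ v) : False := by
  obtain ⟨P⟩ := exists_PU D.hd D.hc
  obtain ⟨J, hJJ, hΨ⟩ := exists_J D.hd D.hc
  obtain ⟨F, a, hFa⟩ := DD_expsum D.W (Γ₁ := D.Γ₁) D.r
  -- vanishing on `x + i J x`
  have hvan : ∀ x : HomR D.Γ₁, ∑ γ ∈ F, a γ * Complex.exp ((ev x γ : ℂ) + ev (J x) γ * I) = 0 := by
    intro x
    -- the complex homomorphism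
    let χ : HomC D.Γ₁ :=
      { toFun := fun g => ((x g : ℝ) : ℂ) + ((J x g : ℝ) : ℂ) * I
        map_zero' := by simp
        map_add' := fun g h => by simp only [map_add, Complex.ofReal_add]; ring }
    have hχ : ∀ γ : D.Γ₁, evC χ γ = (ev x γ : ℂ) + ev (J x) γ * I := fun γ => rfl
    have h1 := hFa χ
    simp only [hχ] at h1
    rw [← h1]
    by_cases hx : x = 0
    · have e0 : (fun γ : D.Γ₁ => Complex.exp ((ev x γ : ℂ) + ev (J x) γ * I)) =
          fun _ => (1 : ℂ) := by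
        funext γ
        rw [hx, map_zero]
        simp [ev]
      rw [e0, DD_one D.W D.r D.hT D.hW, zero_mul]
    · obtain ⟨y, hy⟩ := exists_y J hJJ h3 hx
      have h2 := D.DDt_one P J hJJ hΨ (x := x) (y := y) hy
      unfold DDt at h2
      have e1 : lc (X4 J x y) p4 = fun γ : D.Γ₁ => Complex.exp ((ev x γ : ℂ) + ev (J x) γ * I) := by
        funext γ
        unfold lc
        have := chi_p4 J x y 1 γ
        rw [one_smul, one_mul] at this
        rw [this]
      have e2 : lc (X4 J x y) (-p4) =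
          fun γ : D.Γ₁ => Complex.exp (-((ev x γ : ℂ) + ev (J x) γ * I)) := by
        funext γ
        unfold lc
        have := chi_p4 J x y 1 γ
        rw [one_smul, one_mul] at this
        rw [chi_neg, this]
      rw [e1, e2] at h2
      exact h2
  have hall := fun χ => dedekind F a J hvan χ
  -- a small unitary character
  obtain ⟨v, hv⟩ := h3
  obtain ⟨ρ, hρ⟩ := small_char v hv
  set c : Fin 3 → ℂ := fun _ => ((ρ / 2 : ℝ) : ℂ) * I with hc
  have hc0 : c ≠ 0 := by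
    intro h
    have h0 := congrFun h 0
    simp only [hc, Pi.zero_apply] at h0
    rcases mul_eq_zero.1 h0 with h' | h'
    · have : ρ / 2 = 0 := by exact_mod_cast h'
      have := hρ.1
      linarith
    · exact I_ne_zero h'
  have hcn : ∀ j, ‖c j‖ < ρ := by
    intro j
    simp only [hc]
    rw [norm_mul, Complex.norm_I, mul_one, Complex.norm_real, Real.norm_of_nonneg
      (half_pos hρ.1).le]
    have := hρ.1
    linarith
  have hcre : ∀ j, (c j).re = 0 := by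
    intro j
    simp [hc]
  obtain ⟨γ, hγ⟩ := exists_ne_one hv hρ hcn hc0
  have hD1 : DD D.W D.r (lc v c) ≠ 0 :=
    DD_ne_zero D.W D.r D.hT D.hΓ D.hW (mult_lc v c) (norm_lc v hcre) ⟨γ, hγ⟩
  have hD2 : DD D.W D.r (lc v (-c)) ≠ 0 := by
    refine DD_ne_zero D.W D.r D.hT D.hΓ D.hW (mult_lc v (-c))
      (norm_lc v (fun j => by simp [hcre j])) ⟨γ, ?_⟩
    intro h
    apply hγ
    have := lc_neg v c γ
    rw [h, mul_one] at this
    exact this
  let χ : HomC D.Γ₁ :=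
    { toFun := fun g => chi v c (Additive.toMul g)
      map_zero' := by
        unfold chi ev
        simp
      map_add' := fun g h => by
        unfold chi ev
        rw [← Finset.sum_add_distrib]
        refine Finset.sum_congr rfl fun j _ => ?_
        have : (v j) (Additive.ofMul (Additive.toMul (g + h))) = v j g + v j h := by
          rw [← map_add]; rfl
        rw [this]
        push_cast
        have e1 : (v j) (Additive.ofMul (Additive.toMul g)) = v j g := rfl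
        have e2 : (v j) (Additive.ofMul (Additive.toMul h)) = v j h := rfl
        rw [e1, e2]
        ring }
  have hχ : ∀ γ : D.Γ₁, evC χ γ = chi v c γ := fun γ => rfl
  have h1 := hFa χ
  rw [hall χ] at h1
  have e1 : (fun γ : D.Γ₁ => Complex.exp (evC χ γ)) = lc v c := by
    funext γ
    rw [hχ]
    rfl
  have e2 : (fun γ : D.Γ₁ => Complex.exp (-evC χ γ)) = lc v (-c) := by
    funext γ
    rw [hχ, ← chi_neg]
    rfl
  rw [e1, e2] at h1
  exact mul_ne_zero hD1 hD2 h1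

end Data

/-- THE CORE THEOREM -/
theorem core (W : Walk) {Γ Γ₁ : Subgroup SU11}
    (hΓ : Γ = Subgroup.closure (W.h '' {i | 0 < W.p i})) (hW : ∀ k, W.h k ∈ Γ)
    (hd : IsDisc Γ) (hc : IsCocpt Γ) (hle : Γ₁ ≤ Γ) (hfin : Γ₁.relIndex Γ ≠ 0)
    (h3 : ∃ v : Fin 3 → HomR Γ₁, LinearIndependent ℝ v)
    (ν : Measure Circle) [IsProbabilityMeasure ν] (hst : W.Stat ν) : ν ⟂ₘ lam := by
  by_contra hns
  obtain ⟨ν', hν'p, hν', hst'⟩ := exists_ac W ν hst hns
  obtain ⟨m, r, hT⟩ := exists_trans hle hfin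
  have hd₁ := disc_of_le hle hd
  have hc₁ := cocpt_of_trans hT hc
  obtain ⟨R, hL⟩ := exists_large hc₁
  obtain ⟨K, hK, hcomp⟩ := comparison W hΓ hW (unbounded_of_cocpt hc) ν' hν' hst' hL.1 hL.2.1
  exact Data.contradiction
    { W := W, Γ := Γ, Γ₁ := Γ₁, m := m, r := r, hT := hT, hΓ := hΓ, hW := hW, hd := hd₁
      hc := hc₁, R := R, hL := hL, K := K, hK := hK, hcomp := hcomp } h3

end

end Pool.Agent.Lib.MP_b16327_pr
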