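import Mathlib

/-!
# MP_b16327_pr : basic definitions

`SU11` is the group `SU(1,1)` of pairs `(a, b)` with `|a|^2 - |b|^2 = 1`; it acts on the unit disc
`𝔻` and on the unit circle by `z ↦ (a z + b) / (conj b z + conj a)`.
-/

namespace Pool.Agent.Lib.MP_b16327_pr

open Complex MeasureTheory ComplexConjugate
open scoped Complex.UnitDisc

noncomputable section

/-- The group `SU(1,1)`. -/
@[ext] structure SU11 where
  /-- the first entry -/
  a : ℂ
  /-- the second entry -/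
  b : ℂ
  det : normSq a - normSq b = 1

namespace SU11

theorem det' (g : SU11) : g.a * conj g.a - g.b * conj g.b = 1 := by
  rw [Complex.mul_conj, Complex.mul_conj]
  exact_mod_cast g.det

instance : Mul SU11 := ⟨fun g h => ⟨g.a * h.a + g.b * conj h.b, g.a * h.b + g.b * conj h.a, by
  have h1 := g.det'
  have h2 := h.det'
  have : ((normSq (g.a * h.a + g.b * conj h.b) - normSq (g.a * h.b + g.b * conj h.a) : ℝ) : ℂ) = 1 := by
    push_cast
    rw [← Complex.mul_conj, ← Complex.mul_conj]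
    simp only [map_add, map_mul, Complex.conj_conj]
    linear_combination (h.a * conj h.a - h.b * conj h.b) * h1 + h2
  exact_mod_cast this⟩⟩

instance : One SU11 := ⟨⟨1, 0, by simp⟩⟩

instance : Inv SU11 := ⟨fun g => ⟨conj g.a, -g.b, by
  rw [Complex.normSq_conj, Complex.normSq_neg]; exact g.det⟩⟩

@[simp] theorem mul_a (g h : SU11) : (g * h).a = g.a * h.a + g.b * conj h.b := rfl
@[simp] theorem mul_b (g h : SU11) : (g * h).b = g.a * h.b + g.b * conj h.a := rfl
@[simp] theorem one_a : (1 : SU11).a = 1 := rfl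
@[simp] theorem one_b : (1 : SU11).b = 0 := rfl
@[simp] theorem inv_a (g : SU11) : (g⁻¹).a = conj g.a := rfl
@[simp] theorem inv_b (g : SU11) : (g⁻¹).b = -g.b := rfl

instance : Group SU11 :=
  Group.ofLeftAxioms
    (fun g h k => by
      ext <;> simp only [mul_a, mul_b, map_add, map_mul, Complex.conj_conj] <;> ring)
    (fun g => by ext <;> simp)
    (fun g => by
      have h1 := g.det'
      ext
      · simp only [mul_a, inv_a, inv_b, one_a]
        linear_combination h1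
      · simp only [mul_b, inv_a, inv_b, one_b]
        ring)

/-- the denominator `conj b z + conj a` -/
def den (g : SU11) (z : ℂ) : ℂ := conj g.b * z + conj g.a

/-- the Moebius map `z ↦ (a z + b) / (conj b z + conj a)` -/
def mob (g : SU11) (z : ℂ) : ℂ := (g.a * z + g.b) / g.den z

theorem norm_b_lt (g : SU11) : ‖g.b‖ < ‖g.a‖ := by
  have h := g.det
  rw [Complex.normSq_eq_norm_sq, Complex.normSq_eq_norm_sq] at h
  nlinarith [norm_nonneg g.a, norm_nonneg g.b]

theorem one_le_norm_a (g : SU11) : 1 ≤ ‖g.a‖ := by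
  have h := g.det
  rw [Complex.normSq_eq_norm_sq, Complex.normSq_eq_norm_sq] at h
  nlinarith [norm_nonneg g.a, norm_nonneg g.b, sq_nonneg ‖g.b‖]

theorem a_ne_zero (g : SU11) : g.a ≠ 0 := by
  have := g.one_le_norm_a
  intro h
  rw [h, norm_zero] at this
  linarith

theorem den_ne_zero (g : SU11) {z : ℂ} (hz : ‖z‖ ≤ 1) : g.den z ≠ 0 := by
  intro h
  have h1 : ‖conj g.a‖ = ‖conj g.b * z‖ := by
    have : conj g.a = -(conj g.b * z) := by
      unfold den at h
      linear_combination h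
    rw [this, norm_neg]
  rw [norm_mul, Complex.norm_conj, Complex.norm_conj] at h1
  have := g.norm_b_lt
  nlinarith [norm_nonneg g.b]

/-- the fundamental identity -/
theorem normSq_den_sub (g : SU11) (z : ℂ) :
    normSq (g.den z) - normSq (g.a * z + g.b) = 1 - normSq z := by
  have h1 := g.det'
  have : ((normSq (g.den z) - normSq (g.a * z + g.b) : ℝ) : ℂ) = ((1 - normSq z : ℝ) : ℂ) := by
    push_cast
    rw [← Complex.mul_conj, ← Complex.mul_conj, ← Complex.mul_conj]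
    unfold den
    simp only [map_add, map_mul, Complex.conj_conj]
    linear_combination (1 - z * conj z) * h1
  exact_mod_cast this

theorem norm_mob_lt (g : SU11) {z : ℂ} (hz : ‖z‖ < 1) : ‖g.mob z‖ < 1 := by
  have h0 := g.den_ne_zero hz.le
  have h1 := g.normSq_den_sub z
  rw [Complex.normSq_eq_norm_sq, Complex.normSq_eq_norm_sq, Complex.normSq_eq_norm_sq] at h1
  unfold mob
  rw [norm_div, div_lt_one (norm_pos_iff.2 h0)]
  have h2 : 0 < 1 - ‖z‖ ^ 2 := by nlinarith [norm_nonneg z]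
  nlinarith [norm_nonneg (g.den z), norm_nonneg (g.a * z + g.b)]

theorem norm_mob_eq (g : SU11) {z : ℂ} (hz : ‖z‖ = 1) : ‖g.mob z‖ = 1 := by
  have h0 := g.den_ne_zero hz.le
  have h1 := g.normSq_den_sub z
  rw [Complex.normSq_eq_norm_sq, Complex.normSq_eq_norm_sq, Complex.normSq_eq_norm_sq, hz] at h1
  unfold mob
  rw [norm_div, div_eq_one_iff_eq (norm_ne_zero_iff.2 h0)]
  have h3 : ‖g.den z‖ ^ 2 = ‖g.a * z + g.b‖ ^ 2 := by linarith
  exact (pow_left_inj₀ (norm_nonneg _) (norm_nonneg _) two_ne_zero).1 h3.symm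

theorem mob_one (z : ℂ) : (1 : SU11).mob z = z := by
  simp [mob, den]

theorem mob_mul_den (h : SU11) {z : ℂ} (hz : ‖z‖ ≤ 1) : h.mob z * h.den z = h.a * z + h.b :=
  div_mul_cancel₀ _ (h.den_ne_zero hz)

theorem den_mul (g h : SU11) {z : ℂ} (hz : ‖z‖ ≤ 1) :
    (g * h).den z = g.den (h.mob z) * h.den z := by
  have h4 := h.mob_mul_den hz
  have h5 : g.den (h.mob z) = conj g.b * h.mob z + conj g.a := rfl
  have h6 : h.den z = conj h.b * z + conj h.a := rfl
  have h7 : (g * h).den z = conj (g * h).b * z + conj (g * h).a := rfl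
  rw [h7, h5]
  simp only [mul_a, mul_b, map_add, map_mul, Complex.conj_conj]
  linear_combination (-conj g.b) * h4 - conj g.a * h6

theorem mob_mul (g h : SU11) {z : ℂ} (hz : ‖z‖ ≤ 1) : (g * h).mob z = g.mob (h.mob z) := by
  have h0 := h.den_ne_zero hz
  have h2 : (g * h).den z ≠ 0 := (g * h).den_ne_zero hz
  have h1 : g.den (h.mob z) ≠ 0 := by
    intro h3
    rw [den_mul g h hz, h3, zero_mul] at h2
    exact h2 rfl
  have h4 := h.mob_mul_den hz
  have h6 : h.den z = conj h.b * z + conj h.a := rfl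
  have h8 : (g * h).mob z = ((g * h).a * z + (g * h).b) / (g * h).den z := rfl
  have h9 : g.mob (h.mob z) = (g.a * h.mob z + g.b) / g.den (h.mob z) := rfl
  rw [h8, h9, den_mul g h hz, div_eq_div_iff (mul_ne_zero h1 h0) h1]
  simp only [mul_a, mul_b]
  linear_combination (-(g.a * g.den (h.mob z))) * h4 - g.b * g.den (h.mob z) * h6

end SU11

instance : SMul SU11 𝔻 := ⟨fun g z => UnitDisc.mk (g.mob z) (g.norm_mob_lt z.norm_lt_one)⟩

theorem coe_smul (g : SU11) (z : 𝔻) : ((g • z : 𝔻) : ℂ) = g.mob z := rfl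

instance : MulAction SU11 𝔻 where
  one_smul z := by
    apply UnitDisc.coe_injective
    rw [coe_smul, SU11.mob_one]
  mul_smul g h z := by
    apply UnitDisc.coe_injective
    rw [coe_smul, coe_smul, coe_smul, SU11.mob_mul g h z.norm_lt_one.le]

instance : SMul SU11 Circle :=
  ⟨fun g ξ => ⟨g.mob ξ, mem_sphere_zero_iff_norm.2 (g.norm_mob_eq ξ.norm_coe)⟩⟩

theorem coe_smul_circle (g : SU11) (ξ : Circle) : ((g • ξ : Circle) : ℂ) = g.mob ξ := rfl

instance : MulAction SU11 Circle where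
  one_smul ξ := by
    apply Circle.coe_injective
    rw [coe_smul_circle, SU11.mob_one]
  mul_smul g h ξ := by
    apply Circle.coe_injective
    rw [coe_smul_circle, coe_smul_circle, coe_smul_circle, SU11.mob_mul g h ξ.norm_coe.le]

/-! ### Basic functions -/

/-- `Qd z w = |z - w|^2 / ((1 - |z|^2)(1 - |w|^2)) = sinh^2 (d(z,w)/2)` -/
def Qd (z w : 𝔻) : ℝ := ‖(z : ℂ) - w‖ ^ 2 / ((1 - ‖(z : ℂ)‖ ^ 2) * (1 - ‖(w : ℂ)‖ ^ 2))

/-- `dL z w = log (1 + Qd z w)`, a coarse distance -/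
def dL (z w : 𝔻) : ℝ := Real.log (1 + Qd z w)

/-- the pseudohyperbolic distance -/
def pd (z w : 𝔻) : ℝ := ‖((z : ℂ) - w) / (1 - conj (z : ℂ) * w)‖

/-- `L g = log |a|^2` -/
def Lg (g : SU11) : ℝ := Real.log (normSq g.a)

/-- the translation taking `0` to `z` -/
def tr (z : 𝔻) : SU11 :=
  ⟨((Real.sqrt (1 - ‖(z : ℂ)‖ ^ 2))⁻¹ : ℝ), ((Real.sqrt (1 - ‖(z : ℂ)‖ ^ 2))⁻¹ : ℝ) * z, by
    have h := UnitDisc.sq_norm_lt_one z
    have h1 : 0 < 1 - ‖(z : ℂ)‖ ^ 2 := by linarith
    rw [map_mul, Complex.normSq_ofReal, Complex.normSq_eq_norm_sq (z : ℂ), ← mul_inv,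
      Real.mul_self_sqrt h1.le]
    field_simp⟩

/-- a rotation as an element of `SU11` -/
def rotG (ξ : Circle) : SU11 :=
  ⟨Complex.exp (((ξ : ℂ).arg / 2 : ℝ) * I), 0, by
    rw [Complex.normSq_eq_norm_sq, Complex.norm_exp_ofReal_mul_I]; simp⟩

/-- the hyperbolic translation of length `t` along the real axis -/
def At (t : ℝ) : SU11 := ⟨(Real.cosh (t / 2) : ℝ), (Real.sinh (t / 2) : ℝ), by
  rw [Complex.normSq_ofReal, Complex.normSq_ofReal, ← sq, ← sq]
  exact Real.cosh_sq_sub_sinh_sq _⟩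

/-- the conformal factor `J_g(ξ) = |(g⁻¹)'(ξ)| = 1 / |a - conj b ξ|^2` of `g` on the circle:
the density of `g_* λ` -/
def Jac (g : SU11) (ξ : Circle) : ℝ := 1 / normSq (g.a - conj g.b * ξ)

/-! ### Measures -/

instance : MeasurableSpace Circle := borel Circle
instance : BorelSpace Circle := ⟨rfl⟩

instance : MeasurableSpace 𝔻 := borel 𝔻
instance : BorelSpace 𝔻 := ⟨rfl⟩

/-- normalised arc length on the circle -/
def lam : Measure Circle :=
  ENNReal.ofReal (1 / (2 * Real.pi)) •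
    Measure.map Circle.exp (volume.restrict (Set.Ioc 0 (2 * Real.pi)))

/-- the invariant area on the disc, `dx dy / (1 - |z|^2)^2` -/
def area : Measure 𝔻 :=
  (Measure.comap (fun z : 𝔻 => (z : ℂ)) (volume : Measure ℂ)).withDensity
    (fun z : 𝔻 => ENNReal.ofReal (1 / (1 - ‖(z : ℂ)‖ ^ 2) ^ 2))

/-! ### Discrete cocompact subgroups -/

/-- `Γ` is a discrete subgroup of `SU(1,1)` -/
def IsDisc (Γ : Subgroup SU11) : Prop := ∀ R : ℝ, {g : SU11 | g ∈ Γ ∧ ‖g.a‖ ≤ R}.Finite

/-- `Γ` acts cocompactly on the disc -/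
def IsCocpt (Γ : Subgroup SU11) : Prop := ∃ r : ℝ, r < 1 ∧ ∀ z : 𝔻, ∃ g ∈ Γ, ‖((g • z : 𝔻) : ℂ)‖ ≤ r

end

end Pool.Agent.Lib.MP_b16327_pr
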