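import Pool.Agent.Lib.MP_b16327_pr.Walk

/-! # Positivity of the mean expansion -/

namespace Pool.Agent.Lib.MP_b16327_pr

open Complex MeasureTheory ComplexConjugate Filter
open scoped Complex.UnitDisc Topology BoundedContinuousFunction

noncomputable section

private def DriftA_cl (n : ℕ) (x : ℝ) : ℝ := max (-(n : ℝ)) (min (n : ℝ) x)

private theorem DriftA_cl_meas (n : ℕ) : Measurable (DriftA_cl n) := by
  unfold DriftA_cl
  fun_prop

private theorem DriftA_cl_bdd (n : ℕ) (x : ℝ) : |DriftA_cl n x| ≤ n := by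
  unfold DriftA_cl
  have : (0 : ℝ) ≤ n := Nat.cast_nonneg n
  rw [abs_le]
  constructor
  · exact le_max_left _ _
  · exact max_le (by linarith) (min_le_left _ _)

private theorem DriftA_cl_lip (n : ℕ) (x y : ℝ) : |DriftA_cl n x - DriftA_cl n y| ≤ |x - y| := by
  unfold DriftA_cl
  have h1 := abs_max_sub_max_le_max (-(n : ℝ)) (min (n : ℝ) x) (-(n : ℝ)) (min (n : ℝ) y)
  have h2 := abs_min_sub_min_le_max (n : ℝ) x (n : ℝ) y
  rw [sub_self, abs_zero, max_eq_right (abs_nonneg (min (n : ℝ) x - min (n : ℝ) y))] at h1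
  rw [sub_self, abs_zero, max_eq_right (abs_nonneg (x - y))] at h2
  exact h1.trans h2

private theorem DriftA_cl_lim (x : ℝ) : ∀ᶠ n : ℕ in atTop, DriftA_cl n x = x := by
  obtain ⟨N, hN⟩ := exists_nat_ge |x|
  filter_upwards [eventually_ge_atTop N] with n hn
  have h1 : |x| ≤ n := hN.trans (by exact_mod_cast hn)
  unfold DriftA_cl
  rw [min_eq_right (le_trans (le_abs_self _) h1), max_eq_right]
  have := (abs_le.1 h1).1
  exact this

/-- two random variables with the same law and integrable difference have the same mean: clamp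
both to `[-n, n]`, the clamped difference is bounded by `|A - B|` and has integral `0`; dominated
convergence -/
theorem integral_sub_eq_zero_of_law_eq {Ω : Type*} [MeasurableSpace Ω] (m : Measure Ω)
    [IsFiniteMeasure m] (A B : Ω → ℝ) (hA : Measurable A) (hB : Measurable B)
    (hlaw : Measure.map A m = Measure.map B m) (hint : Integrable (fun x => A x - B x) m) :
    ∫ x, (A x - B x) ∂m = 0 := by
  have key : ∀ n : ℕ, ∫ x, (DriftA_cl n (A x) - DriftA_cl n (B x)) ∂m = 0 := by
    intro n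
    have hi : ∀ C : Ω → ℝ, Measurable C → Integrable (fun x => DriftA_cl n (C x)) m := by
      intro C hC
      refine Integrable.of_bound (((DriftA_cl_meas n).comp hC).aestronglyMeasurable) n ?_
      exact Eventually.of_forall fun x => by
        rw [Real.norm_eq_abs]
        exact DriftA_cl_bdd n _
    rw [integral_sub (hi A hA) (hi B hB)]
    have hm : ∀ C : Ω → ℝ, Measurable C →
        ∫ x, DriftA_cl n (C x) ∂m = ∫ y, DriftA_cl n y ∂(Measure.map C m) := by
      intro C hC
      rw [integral_map hC.aemeasurable (DriftA_cl_meas n).aestronglyMeasurable]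
    rw [hm A hA, hm B hB, hlaw, sub_self]
  have hlim := tendsto_integral_of_dominated_convergence (μ := m)
    (F := fun (n : ℕ) x => DriftA_cl n (A x) - DriftA_cl n (B x)) (f := fun x => A x - B x)
    (fun x => |A x - B x|)
    (fun n => (((DriftA_cl_meas n).comp hA).sub ((DriftA_cl_meas n).comp hB)).aestronglyMeasurable)
    hint.abs
    (fun n => Eventually.of_forall fun x => by
      rw [Real.norm_eq_abs]
      exact DriftA_cl_lip n _ _)
    (Eventually.of_forall fun x => by
      refine tendsto_const_nhds.congr' ?_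
      filter_upwards [DriftA_cl_lim (A x), DriftA_cl_lim (B x)] with n h1 h2
      rw [h1, h2])
  simp only [key] at hlim
  exact (tendsto_nhds_unique hlim tendsto_const_nhds)

namespace Walk

variable (W : Walk)

/-- the mean expansion `Λ = ∑ p_i ∫ log J_{h_i}(h_i ξ) dν(ξ)` -/
def Lam (ν : Measure Circle) : ℝ :=
  ∑ i, W.p i * ∫ ξ, Real.log (Jac (W.h i) (W.h i • ξ)) ∂ν

/-- no measure `ν ≪ λ` is invariant under an unbounded set of elements: `ν = g ν` for all `g ∈ Γ`,
`L(g) → ∞`.  By `tracking`, `|g0 - gξ| ≤ e^{-L(g)}/δ` when `|ξ - g⁻¹0| ≥ δ`, so `ν` gives mass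
`≥ ν(Circle) - ε(δ)` to an arc of radius `e^{-L(g)}/δ`, contradiction to `small_arcs`. -/
theorem not_invariant {Γ : Subgroup SU11} (hunb : ∀ C : ℝ, ∃ g ∈ Γ, C ≤ Lg g)
    (ν : Measure Circle) [IsProbabilityMeasure ν] (hν : ν ≪ lam)
    (hinv : ∀ g ∈ Γ, Measure.map (fun ξ : Circle => g • ξ) ν = ν) : False := by
  obtain ⟨δ, hδ, hδ1, hsm⟩ := small_arcs ν hν (ε := 1 / 4) (by norm_num)
  obtain ⟨g, hg, hL⟩ := hunb (-Real.log (δ ^ 2) + 1)
  have hδ2 : 0 < δ ^ 2 := by positivity
  have hexp : Real.exp (-Lg g) < δ ^ 2 := by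
    rw [← Real.lt_log_iff_exp_lt hδ2]
    linarith
  set x : ℂ := ((g⁻¹ • (0 : 𝔻) : 𝔻) : ℂ)
  set y : ℂ := ((g • (0 : 𝔻) : 𝔻) : ℂ)
  have h1 := hsm x
  have h2 := hsm y
  have hcont := continuous_smul_circle g
  have hopen : ∀ w : ℂ, IsOpen {ξ : Circle | ‖(ξ : ℂ) - w‖ < δ} := by
    intro w
    exact isOpen_lt (by fun_prop) continuous_const
  have h3 : ν.real {ξ : Circle | ‖(ξ : ℂ) - y‖ < δ} =
      ν.real {ξ : Circle | ‖((g • ξ : Circle) : ℂ) - y‖ < δ} := by
    conv_lhs => rw [← hinv g hg]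
    rw [measureReal_def, Measure.map_apply hcont.measurable (hopen y).measurableSet]
    rfl
  have h4 : (Set.univ : Set Circle) ⊆ {ξ : Circle | ‖(ξ : ℂ) - x‖ < δ} ∪
      {ξ : Circle | ‖((g • ξ : Circle) : ℂ) - y‖ < δ} := by
    intro ξ _
    by_cases hξ : ‖(ξ : ℂ) - x‖ < δ
    · exact Or.inl hξ
    · right
      rw [not_lt] at hξ
      have ht := tracking g ξ
      show ‖((g • ξ : Circle) : ℂ) - y‖ < δ
      rw [norm_sub_rev]
      by_contra hcon
      rw [not_lt] at hcon
      have : δ * δ ≤ Real.exp (-Lg g) := by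
        rw [← ht]
        exact mul_le_mul hcon hξ hδ.le (norm_nonneg _)
      nlinarith
  have h5 : ν.real Set.univ ≤ ν.real {ξ : Circle | ‖(ξ : ℂ) - x‖ < δ} +
      ν.real {ξ : Circle | ‖((g • ξ : Circle) : ℂ) - y‖ < δ} :=
    (measureReal_mono h4).trans (measureReal_union_le _ _)
  rw [probReal_univ] at h5
  linarith

private theorem DriftA_ae_smul (g : SU11) {P : Circle → Prop} (h : ∀ᵐ η ∂lam, P η) :
    ∀ᵐ ξ ∂lam, P (g • ξ) := by
  have h1 : Measure.map (fun ξ : Circle => g • ξ) lam ≪ lam :=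
    map_absolutelyContinuous g Measure.AbsolutelyContinuous.rfl
  exact ae_of_ae_map (continuous_smul_circle g).aemeasurable (h1.ae_le h)

private theorem DriftA_lintegral_smul (g : SU11) (F : Circle → ENNReal) (hF : Measurable F) :
    ∫⁻ ξ, F (g • ξ) ∂lam = ∫⁻ η, ENNReal.ofReal (Jac g η) * F η ∂lam := by
  have hm := (continuous_smul_circle g).measurable
  rw [← lintegral_map hF hm, map_lam g]
  rw [lintegral_withDensity_eq_lintegral_mul _
    ((continuous_Jac g).measurable.ennreal_ofReal) hF]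
  rfl

/-- the density of `g ν` -/
private theorem DriftA_map_dens (g : SU11) (f : Circle → ENNReal) (hf : Measurable f) :
    Measure.map (fun ξ : Circle => g • ξ) (lam.withDensity f) =
      lam.withDensity (fun η => ENNReal.ofReal (Jac g η) * f (g⁻¹ • η)) := by
  have hm := (continuous_smul_circle g).measurable
  have hm' := (continuous_smul_circle g⁻¹).measurable
  ext E hE
  rw [Measure.map_apply hm hE, withDensity_apply _ (hm hE), withDensity_apply _ hE,
    ← lintegral_indicator (hm hE), ← lintegral_indicator hE]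
  have h1 := DriftA_lintegral_smul g (E.indicator fun η => f (g⁻¹ • η))
    ((hf.comp hm').indicator hE)
  have h2 : (fun ξ : Circle => (E.indicator fun η => f (g⁻¹ • η)) (g • ξ)) =
      ((fun ξ : Circle => g • ξ) ⁻¹' E).indicator f := by
    funext ξ
    by_cases h : g • ξ ∈ E
    · rw [Set.indicator_of_mem h, Set.indicator_of_mem (by exact h), inv_smul_smul]
    · rw [Set.indicator_of_notMem h, Set.indicator_of_notMem (by exact h)]
  rw [← h2, h1]
  congr 1
  funext η
  by_cases h : η ∈ E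
  · rw [Set.indicator_of_mem h, Set.indicator_of_mem h]
  · rw [Set.indicator_of_notMem h, Set.indicator_of_notMem h, mul_zero]

private theorem DriftA_single_le {W : Walk} {ν : Measure Circle} (hst : W.Stat ν) (i : W.ι) :
    ENNReal.ofReal (W.p i) • Measure.map (fun ξ : Circle => W.h i • ξ) ν ≤ ν := by
  conv_rhs => rw [hst]
  exact Finset.single_le_sum (f := fun j => ENNReal.ofReal (W.p j) •
    Measure.map (fun ξ : Circle => W.h j • ξ) ν) (fun j _ => Measure.zero_le _) (Finset.mem_univ i)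

/-- lower bound of the density ratio -/
private theorem DriftA_dens_le {W : Walk} {f : Circle → ENNReal} (hf : Measurable f)
    [IsFiniteMeasure (lam.withDensity f)]
    (hst : W.Stat (lam.withDensity f)) (i : W.ι) :
    ∀ᵐ ξ ∂lam, ENNReal.ofReal (W.p i) * (ENNReal.ofReal (Jac (W.h i) (W.h i • ξ)) * f ξ) ≤
      f (W.h i • ξ) := by
  have hm' := (continuous_smul_circle (W.h i)⁻¹).measurable
  have hD : Measurable fun η => ENNReal.ofReal (Jac (W.h i) η) * f ((W.h i)⁻¹ • η) :=
    ((continuous_Jac _).measurable.ennreal_ofReal).mul (hf.comp hm')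
  have h1 := DriftA_single_le hst i
  rw [DriftA_map_dens _ _ hf] at h1
  have h2 : (fun η => ENNReal.ofReal (W.p i) *
      (ENNReal.ofReal (Jac (W.h i) η) * f ((W.h i)⁻¹ • η))) ≤ᵐ[lam] f := by
    refine ae_le_of_forall_setLIntegral_le_of_sigmaFinite (hD.const_mul _) fun s hs _ => ?_
    have h3 := h1 s
    rw [Measure.smul_apply, withDensity_apply _ hs, withDensity_apply _ hs] at h3
    rw [lintegral_const_mul _ hD]
    exact h3
  have h4 := DriftA_ae_smul (W.h i) h2
  filter_upwards [h4] with ξ hξ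
  simpa only [inv_smul_smul] using hξ

/-- `E R ≤ 1` -/
private theorem DriftA_ER (g : SU11) {f : Circle → ENNReal} (hf : Measurable f)
    (hf1 : ∀ᵐ ξ ∂lam, f ξ < ⊤) :
    ∫⁻ ξ, ENNReal.ofReal ((f (g • ξ)).toReal / ((f ξ).toReal * Jac g (g • ξ)))
      ∂(lam.withDensity f) ≤ ∫⁻ ξ, f ξ ∂lam := by
  have hm := (continuous_smul_circle g).measurable
  have hJ := (continuous_Jac g).measurable
  have hR : Measurable fun ξ => ENNReal.ofReal ((f (g • ξ)).toReal /
      ((f ξ).toReal * Jac g (g • ξ))) :=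
    ((hf.comp hm).ennreal_toReal.div (hf.ennreal_toReal.mul (hJ.comp hm))).ennreal_ofReal
  rw [lintegral_withDensity_eq_lintegral_mul _ hf hR]
  have h1 : ∀ᵐ ξ ∂lam, (f * fun ξ => ENNReal.ofReal ((f (g • ξ)).toReal /
      ((f ξ).toReal * Jac g (g • ξ)))) ξ ≤
      (fun η => ENNReal.ofReal (1 / Jac g η) * f η) (g • ξ) := by
    filter_upwards [hf1, DriftA_ae_smul g hf1] with ξ h2 h3
    simp only [Pi.mul_apply]
    have hJp := Jac_pos g (g • ξ)
    by_cases h0 : f ξ = 0
    · rw [h0, zero_mul]; exact zero_le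
    · have h4 : 0 < (f ξ).toReal := ENNReal.toReal_pos h0 h2.ne
      refine le_of_eq ?_
      rw [← ENNReal.ofReal_toReal h2.ne, ← ENNReal.ofReal_toReal h3.ne,
        ENNReal.toReal_ofReal h4.le, ENNReal.toReal_ofReal ENNReal.toReal_nonneg,
        ← ENNReal.ofReal_mul h4.le, ← ENNReal.ofReal_mul (by positivity)]
      congr 1
      field_simp
  refine (lintegral_mono_ae h1).trans ?_
  rw [DriftA_lintegral_smul g (fun η => ENNReal.ofReal (1 / Jac g η) * f η)
    ((hJ.const_div 1).ennreal_ofReal.mul hf)]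
  refine le_of_eq ?_
  congr 1
  funext η
  rw [← mul_assoc, ← ENNReal.ofReal_mul (Jac_pos g η).le, mul_one_div_cancel (Jac_pos g η).ne',
    ENNReal.ofReal_one, one_mul]

/-- equality case -/
private theorem DriftA_inv (g : SU11) {f : Circle → ENNReal} (hf : Measurable f)
    [IsProbabilityMeasure (lam.withDensity f)]
    (hf1 : ∀ᵐ ξ ∂lam, f ξ < ⊤)
    (hR : ∀ᵐ ξ ∂(lam.withDensity f), (f (g • ξ)).toReal / ((f ξ).toReal * Jac g (g • ξ)) = 1) :
    Measure.map (fun ξ : Circle => g • ξ) (lam.withDensity f) = lam.withDensity f := by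
  have hm := (continuous_smul_circle g).measurable
  have : IsProbabilityMeasure (Measure.map (fun ξ : Circle => g • ξ) (lam.withDensity f)) :=
    Measure.isProbabilityMeasure_map hm.aemeasurable
  refine Measure.eq_of_le_of_isProbabilityMeasure ?_
  rw [DriftA_map_dens g f hf]
  refine withDensity_mono ?_
  rw [ae_withDensity_iff hf] at hR
  have h1 : ∀ᵐ ξ ∂lam, ENNReal.ofReal (Jac g (g • ξ)) * f ξ ≤ f (g • ξ) := by
    filter_upwards [hR, hf1, DriftA_ae_smul g hf1] with ξ h2 h3 h4
    by_cases h0 : f ξ = 0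
    · rw [h0, mul_zero]; exact zero_le
    · have h5 := h2 h0
      have h6 : 0 < (f ξ).toReal := ENNReal.toReal_pos h0 h3.ne
      have hJp := Jac_pos g (g • ξ)
      rw [div_eq_one_iff_eq (by positivity)] at h5
      rw [← ENNReal.ofReal_toReal h3.ne, ← ENNReal.ofReal_toReal h4.ne, h5,
        ← ENNReal.ofReal_mul hJp.le, mul_comm]
  have h2 := DriftA_ae_smul g⁻¹ h1
  filter_upwards [h2] with η hη
  simpa only [smul_inv_smul] using hη

/-- POSITIVITY of the mean expansion.  Let `ν = f λ`.  On the probability space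
`(i, ξ) ~ p ⊗ ν` put `R(i, ξ) = f(h_i ξ) / (f(ξ) J_{h_i}(h_i ξ))`.  Then `E R ≤ 1` (change of
variables `map_lam`).  `K := d(h_i ν)/dν ≤ 1/p_i` (stationarity) gives `-log R ≤ log (1/p_i)` a.e.,
and `log R ≤ R`, so `log R` is integrable, hence so is `log f(h_i ξ) - log f(ξ)`, of mean zero by
`integral_sub_eq_zero_of_law_eq`.  So `Λ = - E log R ≥ 1 - E R ≥ 0` with equality only if
`R = 1` a.e., which says `h_i ν = ν` for all `i` with `p_i > 0`; these generate an unbounded group,
contradiction to `not_invariant`. -/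
theorem Lam_pos {Γ : Subgroup SU11} (hΓ : Γ = Subgroup.closure (W.h '' {i | 0 < W.p i}))
    (hunb : ∀ C : ℝ, ∃ g ∈ Γ, C ≤ Lg g)
    (ν : Measure Circle) [IsProbabilityMeasure ν] (hν : ν ≪ lam) (hst : W.Stat ν) :
    0 < W.Lam ν := by
  classical
  set f : Circle → ENNReal := ν.rnDeriv lam with hfdef
  have hf : Measurable f := Measure.measurable_rnDeriv ν lam
  have hνf : lam.withDensity f = ν := Measure.withDensity_rnDeriv_eq ν lam hν
  have hf1 : ∀ᵐ ξ ∂lam, f ξ < ⊤ := Measure.rnDeriv_lt_top ν lam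
  have hf0 : ∀ᵐ ξ ∂ν, 0 < f ξ := Measure.rnDeriv_pos hν
  have hfi : ∫⁻ ξ, f ξ ∂lam = 1 := by
    have := congrArg (fun m : Measure Circle => m Set.univ) hνf
    simp only [withDensity_apply _ MeasurableSet.univ, Measure.restrict_univ, measure_univ] at this
    exact this
  have hpf : IsProbabilityMeasure (lam.withDensity f) := by rw [hνf]; infer_instance
  -- the real valued functions
  let F : Circle → ℝ := fun ξ => (f ξ).toReal
  have hF : Measurable F := hf.ennreal_toReal
  let R : W.ι → Circle → ℝ := fun i ξ => F (W.h i • ξ) / (F ξ * Jac (W.h i) (W.h i • ξ))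
  have hRm : ∀ i, Measurable (R i) := fun i =>
    (hF.comp (continuous_smul_circle _).measurable).div
      (hF.mul ((continuous_Jac _).measurable.comp (continuous_smul_circle _).measurable))
  have hae : ∀ i, 0 < W.p i → ∀ᵐ ξ ∂ν, 0 < F ξ ∧ 0 < F (W.h i • ξ) ∧ W.p i ≤ R i ξ := by
    intro i hi
    have h1 := hν.ae_le (DriftA_dens_le hf (by rw [hνf]; exact hst) i)
    have h2 := hν.ae_le hf1
    have h3 := hν.ae_le (DriftA_ae_smul (W.h i) hf1)
    filter_upwards [h1, h2, h3, hf0] with ξ a1 a2 a3 a4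
    have hJp := Jac_pos (W.h i) (W.h i • ξ)
    have b1 : 0 < F ξ := ENNReal.toReal_pos a4.ne' a2.ne
    have b2 : W.p i * (Jac (W.h i) (W.h i • ξ) * F ξ) ≤ F (W.h i • ξ) := by
      have e1 : f ξ = ENNReal.ofReal (F ξ) := (ENNReal.ofReal_toReal a2.ne).symm
      have e2 : f (W.h i • ξ) = ENNReal.ofReal (F (W.h i • ξ)) :=
        (ENNReal.ofReal_toReal a3.ne).symm
      rw [e1, e2, ← ENNReal.ofReal_mul hJp.le, ← ENNReal.ofReal_mul hi.le] at a1
      exact (ENNReal.ofReal_le_ofReal_iff ENNReal.toReal_nonneg).1 a1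
    have b3 : 0 < F (W.h i • ξ) := lt_of_lt_of_le (by positivity) b2
    refine ⟨b1, b3, ?_⟩
    show W.p i ≤ F (W.h i • ξ) / (F ξ * Jac (W.h i) (W.h i • ξ))
    rw [le_div_iff₀ (by positivity)]
    linarith
  have hRl : ∀ i, ∫⁻ ξ, ENNReal.ofReal (R i ξ) ∂ν ≤ 1 := by
    intro i
    have := DriftA_ER (W.h i) hf hf1
    rw [hfi, hνf] at this
    exact this
  have hR0 : ∀ i ξ, 0 ≤ R i ξ := fun i ξ =>
    div_nonneg ENNReal.toReal_nonneg (mul_nonneg ENNReal.toReal_nonneg (Jac_pos _ _).le)
  have hRi : ∀ i, Integrable (R i) ν := by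
    intro i
    refine ⟨(hRm i).aestronglyMeasurable, ?_⟩
    rw [hasFiniteIntegral_iff_ofReal (Eventually.of_forall (hR0 i))]
    exact lt_of_le_of_lt (hRl i) ENNReal.one_lt_top
  have hRI : ∀ i, ∫ ξ, R i ξ ∂ν ≤ 1 := by
    intro i
    rw [integral_eq_lintegral_of_nonneg_ae (Eventually.of_forall (hR0 i))
      (hRm i).aestronglyMeasurable]
    exact ENNReal.toReal_le_of_le_ofReal zero_le_one (by rw [ENNReal.ofReal_one]; exact hRl i)
  have hlogi : ∀ i, 0 < W.p i → Integrable (fun ξ => Real.log (R i ξ)) ν := by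
    intro i hi
    refine Integrable.mono' (g := fun ξ => R i ξ + |Real.log (W.p i)|)
      ((hRi i).add (integrable_const _)) (Real.measurable_log.comp (hRm i)).aestronglyMeasurable ?_
    filter_upwards [hae i hi] with ξ hξ
    have hRp : 0 < R i ξ := hi.trans_le hξ.2.2
    have h1 := Real.log_le_sub_one_of_pos hRp
    have h2 := Real.log_le_log hi hξ.2.2
    rw [Real.norm_eq_abs, abs_le]
    have h3 := neg_abs_le (Real.log (W.p i))
    have h4 := abs_nonneg (Real.log (W.p i))
    constructor <;> linarith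
  have hJi : ∀ i, Integrable (fun ξ => Real.log (Jac (W.h i) (W.h i • ξ))) ν := by
    intro i
    have hc : Continuous (fun ξ => Real.log (Jac (W.h i) (W.h i • ξ))) :=
      ((continuous_Jac _).comp (continuous_smul_circle _)).log fun ξ => (Jac_pos _ _).ne'
    exact hc.integrable_of_hasCompactSupport (HasCompactSupport.of_compactSpace _)
  -- the probability space
  let _ : MeasurableSpace W.ι := ⊤
  let m : Measure (W.ι × Circle) := ∑ i, ENNReal.ofReal (W.p i) • Measure.map (fun ξ => (i, ξ)) ν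
  have hmk : ∀ i : W.ι, Measurable (fun ξ : Circle => (i, ξ)) := fun i => measurable_prodMk_left
  have hmfin : IsFiniteMeasure m := by
    refine ⟨?_⟩
    simp only [m, Measure.finsetSum_apply, Measure.smul_apply,
      Measure.map_apply (hmk _) MeasurableSet.univ, Set.preimage_univ, measure_univ]
    refine ENNReal.sum_lt_top.2 fun i _ => ?_
    simp
  let A : W.ι × Circle → ℝ := fun q => Real.log (F (W.h q.1 • q.2))
  let B : W.ι × Circle → ℝ := fun q => Real.log (F q.2)
  have hcou : Countable W.ι := Finite.to_countable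
  have hA : Measurable A := by
    refine measurable_from_prod_countable_right fun i => ?_
    exact Real.measurable_log.comp (hF.comp (continuous_smul_circle (W.h i)).measurable)
  have hB : Measurable B := Real.measurable_log.comp (hF.comp measurable_snd)
  have hmapsum : ∀ C : W.ι × Circle → ℝ, Measurable C →
      Measure.map C m = ∑ i, ENNReal.ofReal (W.p i) • Measure.map (fun ξ => C (i, ξ)) ν := by
    intro C hC
    ext E hE
    rw [Measure.map_apply hC hE]
    simp only [m, Measure.finsetSum_apply, Measure.smul_apply, Measure.map_apply (hmk _) (hC hE)]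
    refine Finset.sum_congr rfl fun i _ => ?_
    rw [Measure.map_apply (f := fun ξ => C (i, ξ)) (hC.comp (hmk i)) hE]
    rfl
  have hlaw : Measure.map A m = Measure.map B m := by
    have hlogF : Measurable fun ξ => Real.log (F ξ) := Real.measurable_log.comp hF
    rw [hmapsum A hA, hmapsum B hB]
    have h1 : Measure.map (fun ξ => Real.log (F ξ)) ν = ∑ i, ENNReal.ofReal (W.p i) •
        Measure.map (fun ξ => A (i, ξ)) ν := by
      ext E hE
      conv_lhs => rw [hst]
      rw [Measure.map_apply hlogF hE]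
      simp only [Measure.finsetSum_apply, Measure.smul_apply]
      refine Finset.sum_congr rfl fun i _ => ?_
      rw [Measure.map_apply (continuous_smul_circle _).measurable (hlogF hE),
        Measure.map_apply (f := fun ξ => A (i, ξ)) (hA.comp (hmk i)) hE]
      rfl
    rw [← h1]
    show _ = ∑ i, ENNReal.ofReal (W.p i) • Measure.map (fun ξ => Real.log (F ξ)) ν
    rw [← Finset.sum_smul, ← ENNReal.ofReal_sum_of_nonneg fun i _ => W.nonneg i, W.sum,
      ENNReal.ofReal_one, one_smul]
  have hAB : ∀ i, 0 < W.p i → (fun ξ => A (i, ξ) - B (i, ξ)) =ᵐ[ν]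
      fun ξ => Real.log (R i ξ) + Real.log (Jac (W.h i) (W.h i • ξ)) := by
    intro i hi
    filter_upwards [hae i hi] with ξ hξ
    obtain ⟨h1, h2, -⟩ := hξ
    have hJp := Jac_pos (W.h i) (W.h i • ξ)
    show Real.log (F (W.h i • ξ)) - Real.log (F ξ) =
      Real.log (F (W.h i • ξ) / (F ξ * Jac (W.h i) (W.h i • ξ))) + _
    rw [Real.log_div h2.ne' (by positivity), Real.log_mul h1.ne' hJp.ne']
    ring
  have hABi : ∀ i, 0 < W.p i → Integrable (fun ξ => A (i, ξ) - B (i, ξ)) ν := fun i hi =>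
    ((hlogi i hi).add (hJi i)).congr (hAB i hi).symm
  have hsub : Measurable fun q => A q - B q := hA.sub hB
  have hint : Integrable (fun q => A q - B q) m := by
    refine integrable_finsetSum_measure.2 fun i _ => ?_
    rcases (W.nonneg i).lt_or_eq with hi | hi
    · refine Integrable.smul_measure ?_ ENNReal.ofReal_ne_top
      rw [integrable_map_measure hsub.aestronglyMeasurable (hmk i).aemeasurable]
      exact hABi i hi
    · rw [← hi, ENNReal.ofReal_zero, zero_smul]
      exact integrable_zero_measure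
  have hzero := integral_sub_eq_zero_of_law_eq m A B hA hB hlaw hint
  have hsum : ∑ i, W.p i * ∫ ξ, (A (i, ξ) - B (i, ξ)) ∂ν = 0 := by
    rw [← hzero]
    show _ = ∫ q, (A q - B q) ∂(∑ i, ENNReal.ofReal (W.p i) • Measure.map (fun ξ => (i, ξ)) ν)
    rw [integral_finsetSum_measure fun i _ => (integrable_finsetSum_measure.1 hint) i
      (Finset.mem_univ i)]
    refine Finset.sum_congr rfl fun i _ => ?_
    rw [integral_smul_measure, integral_map (hmk i).aemeasurable hsub.aestronglyMeasurable,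
      ENNReal.toReal_ofReal (W.nonneg i), smul_eq_mul]
  have hkey : W.Lam ν = ∑ i, W.p i * ∫ ξ, (-Real.log (R i ξ)) ∂ν := by
    have h1 : ∀ i, W.p i * ∫ ξ, (A (i, ξ) - B (i, ξ)) ∂ν =
        W.p i * ∫ ξ, Real.log (R i ξ) ∂ν +
          W.p i * ∫ ξ, Real.log (Jac (W.h i) (W.h i • ξ)) ∂ν := by
      intro i
      rcases (W.nonneg i).lt_or_eq with hi | hi
      · rw [integral_congr_ae (hAB i hi), integral_add (hlogi i hi) (hJi i)]
        ring
      · rw [← hi]; ring
    simp only [h1, Finset.sum_add_distrib] at hsum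
    unfold Lam
    simp only [integral_neg, mul_neg, Finset.sum_neg_distrib]
    linarith
  by_contra hcon
  rw [not_lt] at hcon
  have hnn : ∀ i, 0 < W.p i → ∀ᵐ ξ ∂ν, 0 ≤ R i ξ - 1 - Real.log (R i ξ) := by
    intro i hi
    filter_upwards [hae i hi] with ξ hξ
    have := Real.log_le_sub_one_of_pos (hi.trans_le hξ.2.2)
    linarith
  have hgi : ∀ i, 0 < W.p i → Integrable (fun ξ => R i ξ - 1 - Real.log (R i ξ)) ν := fun i hi =>
    ((hRi i).sub (integrable_const _)).sub (hlogi i hi)
  have hIle : ∀ i, 0 ≤ W.p i * ∫ ξ, (R i ξ - 1 - Real.log (R i ξ)) ∂ν ∧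
      W.p i * ∫ ξ, (R i ξ - 1 - Real.log (R i ξ)) ∂ν ≤ W.p i * ∫ ξ, (-Real.log (R i ξ)) ∂ν := by
    intro i
    rcases (W.nonneg i).lt_or_eq with hi | hi
    · refine ⟨mul_nonneg hi.le (integral_nonneg_of_ae (hnn i hi)), ?_⟩
      refine mul_le_mul_of_nonneg_left ?_ hi.le
      have e1 : ∫ ξ, (R i ξ - 1 - Real.log (R i ξ)) ∂ν =
          ∫ ξ, (R i ξ - 1) ∂ν - ∫ ξ, Real.log (R i ξ) ∂ν :=
        integral_sub ((hRi i).sub (integrable_const _)) (hlogi i hi)
      have e2 : ∫ ξ, (R i ξ - 1) ∂ν = ∫ ξ, R i ξ ∂ν - ∫ _ξ : Circle, (1 : ℝ) ∂ν :=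
        integral_sub (hRi i) (integrable_const _)
      rw [e1, e2, integral_const, probReal_univ, integral_neg]
      have := hRI i
      simp only [smul_eq_mul, one_mul]
      linarith
    · rw [← hi]; simp
  have hallz : ∀ i, W.p i * ∫ ξ, (R i ξ - 1 - Real.log (R i ξ)) ∂ν = 0 := by
    have h1 : ∑ i, W.p i * ∫ ξ, (R i ξ - 1 - Real.log (R i ξ)) ∂ν ≤ 0 := by
      refine le_trans (Finset.sum_le_sum fun i _ => (hIle i).2) ?_
      rw [← hkey]; exact hcon
    have h2 := le_antisymm h1 (Finset.sum_nonneg fun i _ => (hIle i).1)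
    have h3 := (Finset.sum_eq_zero_iff_of_nonneg fun i _ => (hIle i).1).1 h2
    exact fun i => h3 i (Finset.mem_univ i)
  have hinvgen : ∀ i, 0 < W.p i → Measure.map (fun ξ : Circle => W.h i • ξ) ν = ν := by
    intro i hi
    have h1 : ∫ ξ, (R i ξ - 1 - Real.log (R i ξ)) ∂ν = 0 :=
      (mul_eq_zero.1 (hallz i)).resolve_left hi.ne'
    rw [integral_eq_zero_iff_of_nonneg_ae (hnn i hi) (hgi i hi)] at h1
    have h2 : ∀ᵐ ξ ∂ν, R i ξ = 1 := by
      filter_upwards [h1, hae i hi] with ξ h3 h4
      have hRp : 0 < R i ξ := hi.trans_le h4.2.2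
      by_contra hne
      have h5 := Real.log_lt_sub_one_of_pos hRp hne
      have h3' : R i ξ - 1 - Real.log (R i ξ) = 0 := h3
      linarith
    have h3 := DriftA_inv (W.h i) hf hf1 (by rw [hνf]; exact h2)
    rw [hνf] at h3
    exact h3
  refine not_invariant hunb ν hν ?_
  rw [hΓ]
  intro g hg
  induction hg using Subgroup.closure_induction with
  | mem x hx =>
    obtain ⟨i, hi, rfl⟩ := hx
    exact hinvgen i hi
  | one => simp
  | mul x y _ _ hx hy =>
    have h1 : (fun ξ : Circle => (x * y) • ξ) = (fun ξ : Circle => x • ξ) ∘ fun ξ => y • ξ := by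
      funext ξ
      exact mul_smul x y ξ
    rw [h1, ← Measure.map_map (continuous_smul_circle x).measurable
      (continuous_smul_circle y).measurable, hy, hx]
  | inv x _ hx =>
    conv_lhs => rw [← hx]
    rw [Measure.map_map (continuous_smul_circle _).measurable (continuous_smul_circle _).measurable]
    have h1 : ((fun ξ : Circle => x⁻¹ • ξ) ∘ fun ξ => x • ξ) = id := by
      funext ξ
      exact inv_smul_smul x ξ
    rw [h1, Measure.map_id]

end Walk

end

end Pool.Agent.Lib.MP_b16327_pr
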