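import Pool.Agent.Lib.MP_b16327_pr.MtpB

/-! # Mass transport -/

namespace Pool.Agent.Lib.MP_b16327_pr

open Complex MeasureTheory ComplexConjugate Filter
open scoped Complex.UnitDisc Topology BoundedContinuousFunction

noncomputable section

private theorem mtpC_second : SecondCountableTopology 𝔻 :=
  UnitDisc.isEmbedding_coe.secondCountableTopology

private theorem mtpC_t2 : T2Space 𝔻 :=
  UnitDisc.isEmbedding_coe.t2Space

/-- mass transport for the averaging operator, general discrete group `Λ` and `ψ` -/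
theorem mtp_AvF {R : ℝ} (Λ : Subgroup SU11) [Countable Λ] (ψ : 𝔻 → ℝ)
    (hψm : Measurable ψ) (hψ0 : ∀ z, 0 ≤ ψ z)
    (hψ1 : ∀ z : 𝔻, HasSum (fun l : Λ => ψ ((l : SU11) • z)) 1)
    (F : 𝔻 → 𝔻 → ℂ) (hF : Measurable (fun p : 𝔻 × 𝔻 => F p.1 p.2))
    (hinv : ∀ l ∈ Λ, ∀ z w : 𝔻, F (l • z) (l • w) = F z w)
    (hint : Integrable (fun p : 𝔻 × 𝔻 => (ψ p.1 : ℂ) *
      ({q : 𝔻 × 𝔻 | pd q.1 q.2 < R}.indicator (fun q => F q.1 q.2) p)) (area.prod area)) :
    ∫ z, (ψ z : ℂ) * AvF R F z ∂area = ∫ z, (ψ z : ℂ) * AvF R (fun z w => F w z) z ∂area := by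
  have := mtpC_second
  have hset : MeasurableSet {q : 𝔻 × 𝔻 | pd q.1 q.2 < R} :=
    (isOpen_lt continuous_pd continuous_const).measurableSet
  have hsetz : ∀ z : 𝔻, MeasurableSet {w : 𝔻 | pd z w < R} := fun z =>
    (isOpen_lt (continuous_pd.comp (Continuous.prodMk_right z)) continuous_const).measurableSet
  set K : 𝔻 → 𝔻 → ℂ := fun z w =>
    {q : 𝔻 × 𝔻 | pd q.1 q.2 < R}.indicator (fun q => F q.1 q.2) (z, w) with hKdef
  have hK1 : ∀ z w : 𝔻, K z w = {w : 𝔻 | pd z w < R}.indicator (fun w => F z w) w := by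
    intro z w
    simp only [hKdef, Set.indicator_apply, Set.mem_ofPred_eq]
  have hK2 : ∀ z w : 𝔻, K z w = {z : 𝔻 | pd w z < R}.indicator (fun z => F z w) z := by
    intro z w
    simp only [hKdef, Set.indicator_apply, Set.mem_ofPred_eq, pd_comm w z]
  have hKm : Measurable (fun p : 𝔻 × 𝔻 => K p.1 p.2) := hF.indicator hset
  have hKinv : ∀ (l : Λ) (z w : 𝔻), K (l • z) (l • w) = K z w := by
    intro l z w
    have e : ∀ z : 𝔻, l • z = (l : SU11) • z := fun z => rfl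
    simp only [hKdef, Set.indicator_apply, Set.mem_ofPred_eq, e, pd_smul, hinv l l.2]
  obtain ⟨h1, h2⟩ := mtp_abs (Λ := Λ) area (fun l => measurePreserving_smul (l : SU11)) ψ hψm hψ0
    hψ1 K hKm hKinv hint
  have e1 : ∀ z : 𝔻, (ψ z : ℂ) * AvF R F z =
      ((area.real (ballD R))⁻¹ : ℂ) * ∫ w, (ψ z : ℂ) * K z w ∂area := by
    intro z
    rw [AvF_kernel, integral_const_mul, Complex.real_smul]
    have : ∫ w, K z w ∂area = ∫ w in {w : 𝔻 | pd z w < R}, F z w ∂area := by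
      rw [← integral_indicator (hsetz z)]
      exact integral_congr_ae (Eventually.of_forall fun w => hK1 z w)
    rw [this]
    push_cast
    ring
  have e2 : ∀ w : 𝔻, (ψ w : ℂ) * AvF R (fun z w => F w z) w =
      ((area.real (ballD R))⁻¹ : ℂ) * ∫ z, (ψ w : ℂ) * K z w ∂area := by
    intro w
    rw [AvF_kernel, integral_const_mul, Complex.real_smul]
    have : ∫ z, K z w ∂area = ∫ z in {z : 𝔻 | pd w z < R}, F z w ∂area := by
      rw [← integral_indicator (hsetz w)]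
      exact integral_congr_ae (Eventually.of_forall fun z => hK2 z w)
    rw [this]
    push_cast
    ring
  rw [integral_congr_ae (Eventually.of_forall e1), integral_congr_ae (Eventually.of_forall e2),
    integral_const_mul, integral_const_mul]
  congr 1
  have e3 : ∫ z, ∫ w, (ψ z : ℂ) * K z w ∂area ∂area =
      ∫ p : 𝔻 × 𝔻, (ψ p.1 : ℂ) * K p.1 p.2 ∂(area.prod area) :=
    (integral_prod _ hint).symm
  have e4 : ∫ w, ∫ z, (ψ w : ℂ) * K z w ∂area ∂area =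
      ∫ p : 𝔻 × 𝔻, (ψ p.2 : ℂ) * K p.1 p.2 ∂(area.prod area) :=
    (integral_prod_symm _ h1).symm
  rw [e3, e4, h2]

/-- mass transport for `Γ` with a partition of unity -/
theorem PU.mtp {Γ : Subgroup SU11} (hd : IsDisc Γ) (P : PU Γ) {R : ℝ} (hR : R < 1)
    (F : 𝔻 → 𝔻 → ℂ) (hF : Continuous (fun p : 𝔻 × 𝔻 => F p.1 p.2))
    (hinv : ∀ l ∈ Γ, ∀ z w : 𝔻, F (l • z) (l • w) = F z w) :
    P.I (AvF R F) = P.I (AvF R (fun z w => F w z)) := by
  have := countable_of_disc hd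
  have := mtpC_second
  have := mtpC_t2
  unfold PU.I
  congr 1
  refine mtp_AvF Γ P.θ P.cont.measurable P.nonneg P.sum F hF.measurable hinv ?_
  have hset : MeasurableSet {q : 𝔻 × 𝔻 | pd q.1 q.2 < R} :=
    (isOpen_lt continuous_pd continuous_const).measurableSet
  obtain ⟨r', hr', hrr⟩ := norm_le_of_pd_lt P.r_lt hR
  have hcomp : IsCompact ({z : 𝔻 | ‖(z : ℂ)‖ ≤ P.r} ×ˢ {z : 𝔻 | ‖(z : ℂ)‖ ≤ r'}) :=
    (isCompact_closedBallD P.r_lt).prod (isCompact_closedBallD hr')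
  have hcont : Continuous (fun p : 𝔻 × 𝔻 => (P.θ p.1 : ℂ) * F p.1 p.2) :=
    (Complex.continuous_ofReal.comp (P.cont.comp continuous_fst)).mul hF
  have hi : IntegrableOn (fun p : 𝔻 × 𝔻 => (P.θ p.1 : ℂ) * F p.1 p.2)
      ({z : 𝔻 | ‖(z : ℂ)‖ ≤ P.r} ×ˢ {z : 𝔻 | ‖(z : ℂ)‖ ≤ r'}) (area.prod area) :=
    hcont.continuousOn.integrableOn_compact hcomp
  have hi2 := (integrable_indicator_iff hcomp.measurableSet).2 hi
  have hi3 := hi2.indicator hset
  refine hi3.congr (Eventually.of_forall fun p => ?_)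
  simp only [Set.indicator_apply, Set.mem_ofPred_eq, Set.mem_prod]
  by_cases h1 : pd p.1 p.2 < R
  · rw [if_pos h1, if_pos h1]
    by_cases h2 : P.θ p.1 = 0
    · rw [h2]
      simp
    · rw [if_pos]
      exact ⟨P.supp _ h2, hrr _ _ (P.supp _ h2) h1⟩
  · rw [if_neg h1, if_neg h1, mul_zero]

/-- cocycle functions for homomorphisms: `b(z) = ∑_γ θ(γ⁻¹ z) x(γ)` -/
theorem exists_b {Γ : Subgroup SU11} (hd : IsDisc Γ) (P : PU Γ) (x : HomR Γ) :
    ∃ b : 𝔻 → ℝ, Continuous b ∧ ∀ (γ : Γ) (z : 𝔻), b ((γ : SU11) • z) = b z + ev x γ := by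
  have hfin : ∀ r' : ℝ, r' < 1 → P.r ≤ r' →
      {γ : Γ | ∃ z : 𝔻, ‖(z : ℂ)‖ ≤ r' ∧ P.θ ((γ⁻¹ : Γ) • z) ≠ 0}.Finite := by
    intro r' h1 h2
    refine ((finite_meet hd h1).preimage (inv_injective.injOn (s := Set.univ) |>.mono
      (Set.subset_univ _))).subset ?_
    rintro γ ⟨z, hz, hθ⟩
    exact ⟨z, hz, (P.supp _ hθ).trans h2⟩
  have hfz : ∀ z : 𝔻, {γ : Γ | P.θ ((γ⁻¹ : Γ) • z) ≠ 0}.Finite := by
    intro z
    refine (hfin (max P.r ‖(z : ℂ)‖) (max_lt P.r_lt z.norm_lt_one) (le_max_left _ _)).subset ?_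
    intro γ hγ
    exact ⟨z, le_max_right _ _, hγ⟩
  refine ⟨fun z => ∑ᶠ γ : Γ, P.θ ((γ⁻¹ : Γ) • z) * ev x γ, ?_, ?_⟩
  · refine continuous_finsum (fun γ => ?_) ?_
    · exact (P.cont.comp (continuous_smul_disc _)).mul continuous_const
    · intro z
      obtain ⟨r', h1, h2⟩ := exists_between (max_lt P.r_lt z.norm_lt_one)
      refine ⟨{w : 𝔻 | ‖(w : ℂ)‖ < r'}, ?_, ?_⟩
      · refine (isOpen_lt (continuous_norm.comp UnitDisc.continuous_coe)
          continuous_const).mem_nhds ?_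
        exact (le_max_right _ _).trans_lt h1
      · refine (hfin r' h2 ((le_max_left _ _).trans h1.le)).subset ?_
        rintro γ ⟨w, hw1, hw2⟩
        refine ⟨w, le_of_lt hw2, ?_⟩
        exact left_ne_zero_of_mul hw1
  · intro γ₀ z
    have e1 : (∑ᶠ γ : Γ, P.θ ((γ⁻¹ : Γ) • ((γ₀ : SU11) • z)) * ev x γ) =
        ∑ᶠ γ : Γ, P.θ (((γ₀ * γ)⁻¹ : Γ) • ((γ₀ : SU11) • z)) * ev x (γ₀ * γ) :=
      (finsum_comp_equiv (Equiv.mulLeft γ₀)).symm
    have e2 : ∀ γ : Γ, ((γ₀ * γ)⁻¹ : Γ) • ((γ₀ : SU11) • z) = (γ⁻¹ : Γ) • z := by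
      intro γ
      have : (((γ₀ * γ)⁻¹ : Γ) : SU11) • ((γ₀ : SU11) • z) = ((γ⁻¹ : Γ) : SU11) • z := by
        rw [← mul_smul]
        congr 1
        push_cast
        group
      exact this
    have e3 : ∀ γ : Γ, ev x (γ₀ * γ) = ev x γ₀ + ev x γ := by
      intro γ
      simp only [ev, ofMul_mul, map_add]
    have e4 : (∑ᶠ γ : Γ, P.θ ((γ⁻¹ : Γ) • z)) = 1 := by
      have h1 := (Equiv.inv Γ).hasSum_iff.2 (P.sum z)
      have h2 := h1.tsum_eq
      rw [tsum_eq_finsum] at h2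
      · exact h2
      · exact hfz z
    simp only [e1, e2, e3, mul_add]
    rw [finsum_add_distrib, ← finsum_mul', e4, one_mul, add_comm]
    · exact hfz z
    · exact (hfz z).subset fun γ hγ => left_ne_zero_of_mul hγ
    · exact (hfz z).subset fun γ hγ => left_ne_zero_of_mul hγ

end

end Pool.Agent.Lib.MP_b16327_pr
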