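import Pool.Agent.Lib.MP_b16327_pr.HypA
import Pool.Agent.Lib.MP_b16327_pr.MtpC

/-! # Flux: the side function of the real axis -/

namespace Pool.Agent.Lib.MP_b16327_pr

open Complex MeasureTheory ComplexConjugate Filter
open scoped Complex.UnitDisc Topology BoundedContinuousFunction

noncomputable section

/-- indicator function of the fundamental domain `0 ≤ xc < T` of `⟨A_T⟩` -/
def psi0 (T : ℝ) (z : 𝔻) : ℝ := if 0 ≤ xc z ∧ xc z < T then 1 else 0

theorem psi0_measurable (T : ℝ) : Measurable (psi0 T) := by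
  unfold psi0
  refine Measurable.ite ?_ measurable_const measurable_const
  exact (measurableSet_le measurable_const continuous_xc.measurable).inter
    (measurableSet_lt continuous_xc.measurable measurable_const)

private theorem fluxA_At_zpow (T : ℝ) (n : ℤ) : (At T) ^ n = At (n * T) := by
  let f : Multiplicative ℝ →* SU11 :=
    { toFun := fun t => At (Multiplicative.toAdd t)
      map_one' := by simpa using At_zero
      map_mul' := fun s t => by simpa using At_add _ _ }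
  have h := map_zpow f (Multiplicative.ofAdd T) n
  have h2 : f (Multiplicative.ofAdd T ^ n) = At (n * T) := by
    show At (Multiplicative.toAdd (Multiplicative.ofAdd T ^ n)) = _
    rw [toAdd_zpow, toAdd_ofAdd, zsmul_eq_mul]
  have h3 : f (Multiplicative.ofAdd T) = At T := rfl
  rw [h3] at h
  rw [← h, h2]

private theorem fluxA_xc_zpow (T : ℝ) (n : ℤ) (z : 𝔻) : xc (((At T) ^ n : SU11) • z) = xc z + n * T := by
  rw [fluxA_At_zpow, xc_At]

/-- `∑_{l ∈ ⟨A_T⟩} psi0 T (l z) = 1` -/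
theorem psi0_sum {T : ℝ} (hT : 0 < T) (t : ℝ) (z : 𝔻) :
    HasSum (fun l : Subgroup.zpowers (At T) => psi0 T (At t • ((l : SU11) • z))) 1 := by
  have key : ∀ n : ℤ, (0 ≤ xc z + n * T + t ∧ xc z + n * T + t < T) ↔ n = -⌊(xc z + t) / T⌋ := by
    intro n
    constructor
    · rintro ⟨h1, h2⟩
      have : ⌊(xc z + t) / T⌋ = -n := by
        rw [Int.floor_eq_iff]
        push_cast
        constructor
        · rw [le_div_iff₀ hT]; linarith
        · rw [div_lt_iff₀ hT]; linarith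
      omega
    · intro hn
      have h3 := Int.floor_le ((xc z + t) / T)
      have h4 := Int.lt_floor_add_one ((xc z + t) / T)
      rw [le_div_iff₀ hT] at h3
      rw [div_lt_iff₀ hT] at h4
      subst hn
      push_cast
      constructor <;> linarith
  have hval : ∀ n : ℤ, psi0 T (At t • (((At T) ^ n : SU11) • z)) =
      if n = -⌊(xc z + t) / T⌋ then 1 else 0 := by
    intro n
    unfold psi0
    rw [xc_At, fluxA_xc_zpow]
    simp only [key]
  set n0 : ℤ := -⌊(xc z + t) / T⌋ with hn0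
  have h1 : psi0 T (At t • ((((⟨(At T) ^ n0, Subgroup.zpow_mem_zpowers _ _⟩ :
      Subgroup.zpowers (At T)) : SU11)) • z)) = 1 := by
    show psi0 T (At t • (((At T) ^ n0 : SU11) • z)) = 1
    rw [hval, if_pos rfl]
  rw [← h1]
  apply hasSum_single
  intro l hl
  obtain ⟨l, n, rfl⟩ := l
  show psi0 T (At t • (((At T) ^ n : SU11) • z)) = 0
  rw [hval, if_neg]
  intro hn
  apply hl
  apply Subtype.ext
  show (At T) ^ n = (At T) ^ n0
  rw [hn]

/-- `f0 = M s0 - s0`, a function of `yc` only, supported in `|yc| ≤` something `< π/2` -/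
def f0 (R : ℝ) (z : 𝔻) : ℝ := Mop R s0 z - s0 z

private theorem fluxA_s0_At (t : ℝ) (z : 𝔻) : s0 (At t • z) = s0 z := by
  unfold s0
  rw [yc_At]

theorem f0_At (R t : ℝ) (z : 𝔻) : f0 R (At t • z) = f0 R z := by
  unfold f0
  rw [Mop_smul, fluxA_s0_At]
  congr 2
  funext w
  exact fluxA_s0_At t w

private theorem fluxA_continuous_s0 : Continuous s0 := by
  unfold s0
  exact continuous_const.max (continuous_const.min continuous_yc)

theorem continuous_f0 {R : ℝ} (hR : R < 1) : Continuous (f0 R) := by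
  unfold f0
  exact (continuous_Mop hR fluxA_continuous_s0).sub fluxA_continuous_s0

private theorem fluxA_second : SecondCountableTopology 𝔻 :=
  UnitDisc.isEmbedding_coe.secondCountableTopology

private theorem fluxA_t2 : T2Space 𝔻 := UnitDisc.isEmbedding_coe.t2Space

attribute [local instance] fluxA_second fluxA_t2

private theorem fluxA_pd_self (z : 𝔻) : pd z z = 0 := by
  unfold pd
  simp

/-- scaling towards the centre -/
private def fluxA_sc (s : ℝ) (hs : |s| ≤ 1) (w : 𝔻) : 𝔻 :=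
  UnitDisc.mk ((s : ℂ) * w) (by
    rw [norm_mul, Complex.norm_real, Real.norm_eq_abs]
    have h1 := w.norm_lt_one
    have h2 := norm_nonneg (w : ℂ)
    nlinarith [abs_nonneg s])

private theorem fluxA_connect (z w : 𝔻) (h : s0 w ≠ s0 z) :
    ∃ w' : 𝔻, |yc w'| < 1 ∧ pd z w' ≤ pd z w := by
  by_cases h1 : |yc z| < 1
  · exact ⟨z, h1, by rw [fluxA_pd_self]; exact pd_nonneg _ _⟩
  by_cases h2 : |yc w| < 1
  · exact ⟨w, h2, le_rfl⟩
  push Not at h1 h2
  set w0 : 𝔻 := (tr z)⁻¹ • w with hw0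
  have hw : tr z • w0 = w := by rw [hw0, smul_inv_smul]
  have hpd : pd z w = ‖(w0 : ℂ)‖ := by
    rw [← pd_zero_left, ← pd_smul (tr z) 0 w0, tr_smul_zero, hw]
  -- the path
  have hcl : ∀ s : ℝ, |max 0 (min 1 s)| ≤ 1 := by
    intro s
    rw [abs_of_nonneg (le_max_left _ _)]
    exact max_le (by norm_num) (min_le_left _ _)
  let γ : ℝ → 𝔻 := fun s => tr z • fluxA_sc (max 0 (min 1 s)) (hcl s) w0
  have hγc : Continuous γ := by
    have h3 : Continuous (fun s : ℝ => fluxA_sc (max 0 (min 1 s)) (hcl s) w0) := by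
      rw [UnitDisc.isEmbedding_coe.continuous_iff]
      show Continuous (fun s : ℝ => ((max 0 (min 1 s) : ℝ) : ℂ) * (w0 : ℂ))
      fun_prop
    exact (continuous_smul_disc (tr z)).comp h3
  have hγ0 : γ 0 = z := by
    show tr z • fluxA_sc (max 0 (min 1 0)) (hcl 0) w0 = z
    have : fluxA_sc (max 0 (min 1 0)) (hcl 0) w0 = 0 := by
      apply UnitDisc.coe_injective
      show ((max 0 (min 1 0) : ℝ) : ℂ) * (w0 : ℂ) = ((0 : 𝔻) : ℂ)
      norm_num
    rw [this, tr_smul_zero]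
  have hγ1 : γ 1 = w := by
    show tr z • fluxA_sc (max 0 (min 1 1)) (hcl 1) w0 = w
    have : fluxA_sc (max 0 (min 1 1)) (hcl 1) w0 = w0 := by
      apply UnitDisc.coe_injective
      show ((max 0 (min 1 1) : ℝ) : ℂ) * (w0 : ℂ) = (w0 : ℂ)
      norm_num
    rw [this, hw]
  have hivt := intermediate_value_uIcc (a := (0 : ℝ)) (b := 1) (f := fun s => yc (γ s))
    (continuous_yc.comp hγc).continuousOn
  have h0 : (0 : ℝ) ∈ Set.uIcc (yc (γ 0)) (yc (γ 1)) := by
    rw [hγ0, hγ1, Set.mem_uIcc]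
    unfold s0 at h
    rcases le_abs.1 h1 with h1 | h1 <;> rcases le_abs.1 h2 with h2 | h2
    · exfalso; apply h
      rw [min_eq_left h1, min_eq_left h2]
    · right; constructor <;> linarith
    · left; constructor <;> linarith
    · exfalso; apply h
      rw [max_eq_left ((min_le_right _ _).trans (by linarith)),
        max_eq_left ((min_le_right _ _).trans (by linarith))]
  obtain ⟨s, hs, hs0⟩ := hivt h0
  refine ⟨γ s, ?_, ?_⟩
  · have : yc (γ s) = 0 := hs0
    rw [this]; norm_num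
  · have h4 : pd z (γ s) = ‖((fluxA_sc (max 0 (min 1 s)) (hcl s) w0 : 𝔻) : ℂ)‖ := by
      rw [← pd_zero_left, ← pd_smul (tr z) 0 _, tr_smul_zero]
    rw [h4, hpd]
    show ‖((max 0 (min 1 s) : ℝ) : ℂ) * (w0 : ℂ)‖ ≤ _
    rw [norm_mul, Complex.norm_real, Real.norm_eq_abs]
    have := hcl s
    have := norm_nonneg (w0 : ℂ)
    nlinarith

/-- support: if `f0 R z ≠ 0` then some `w` with `pd z w < R` has `|yc w| < 1`; together with
`0 ≤ xc z ≤ T` this confines `z` to a compact set -/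
theorem f0_support {R : ℝ} (hR0 : 0 < R) (hR : R < 1) (T : ℝ) : ∃ r : ℝ, r < 1 ∧ ∀ z : 𝔻,
    (∃ w : 𝔻, pd z w < R ∧ s0 w ≠ s0 z) → |xc z| ≤ T → ‖(z : ℂ)‖ ≤ r := by
  obtain ⟨r1, hr1, h1⟩ := tube_compact 0
  obtain ⟨r2, hr2, h2⟩ := norm_le_of_pd_lt hr1 hR
  obtain ⟨C, hC⟩ := (isCompact_closedBallD hr2).exists_bound_of_continuousOn
    continuous_xc.continuousOn
  obtain ⟨r3, hr3, h3⟩ := tube_compact (T + C)
  obtain ⟨r4, hr4, h4⟩ := norm_le_of_pd_lt hr3 hR
  refine ⟨r4, hr4, ?_⟩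
  rintro z ⟨w, hw, hs⟩ hx
  obtain ⟨w', hy, hp⟩ := fluxA_connect z w hs
  have hpw : pd w' z < R := by rw [pd_comm]; exact hp.trans_lt hw
  have e1 : ‖((At (-xc w') • w' : 𝔻) : ℂ)‖ ≤ r1 := by
    apply h1
    · rw [yc_At]; exact hy.le
    · rw [xc_At]; simp
  have e2 : ‖((At (-xc w') • z : 𝔻) : ℂ)‖ ≤ r2 := by
    apply h2 _ _ e1
    rw [pd_smul]; exact hpw
  have e3 := hC _ e2
  rw [Real.norm_eq_abs, xc_At] at e3
  have e4 : |xc w'| ≤ T + C := by
    have a1 := abs_le.1 e3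
    have a2 := abs_le.1 hx
    rw [abs_le]; constructor <;> linarith
  exact h4 w' z (h3 w' hy.le e4) hpw

private theorem fluxA_psi0_bd (T : ℝ) (z : 𝔻) : 0 ≤ psi0 T z ∧ psi0 T z ≤ 1 := by
  unfold psi0; split_ifs <;> norm_num

private theorem fluxA_psi0_supp {T : ℝ} {z : 𝔻} (h : psi0 T z ≠ 0) : |xc z| ≤ T := by
  unfold psi0 at h
  rw [Ne, ite_eq_right_iff, not_forall] at h
  obtain ⟨⟨h1, h2⟩, -⟩ := h
  rw [abs_of_nonneg h1]; exact h2.le

private theorem fluxA_finite {r : ℝ} (hr : r < 1) : area {z : 𝔻 | ‖(z : ℂ)‖ ≤ r} < ⊤ :=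
  (isCompact_closedBallD hr).measure_lt_top

private theorem fluxA_hint {R : ℝ} (hR0 : 0 < R) (hR : R < 1) (T : ℝ) (F : 𝔻 → 𝔻 → ℂ)
    (hF : Continuous (fun p : 𝔻 × 𝔻 => F p.1 p.2)) (hs : ∀ z w, s0 w = s0 z → F z w = 0) :
    Integrable (fun p : 𝔻 × 𝔻 => (psi0 T p.1 : ℂ) *
      ({q : 𝔻 × 𝔻 | pd q.1 q.2 < R}.indicator (fun q => F q.1 q.2) p)) (area.prod area) := by
  obtain ⟨r, hr, h1⟩ := f0_support hR0 hR T
  obtain ⟨r', hr', h2⟩ := norm_le_of_pd_lt hr hR
  set K : Set (𝔻 × 𝔻) := {z : 𝔻 | ‖(z : ℂ)‖ ≤ r} ×ˢ {z : 𝔻 | ‖(z : ℂ)‖ ≤ r'} with hK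
  have hKc : IsCompact K := (isCompact_closedBallD hr).prod (isCompact_closedBallD hr')
  obtain ⟨C, hC⟩ := hKc.exists_bound_of_continuousOn hF.continuousOn
  have hmeas : Measurable (fun p : 𝔻 × 𝔻 => (psi0 T p.1 : ℂ) *
      ({q : 𝔻 × 𝔻 | pd q.1 q.2 < R}.indicator (fun q => F q.1 q.2) p)) := by
    apply Measurable.mul
    · exact Complex.measurable_ofReal.comp ((psi0_measurable T).comp measurable_fst)
    · exact hF.measurable.indicator (measurableSet_lt continuous_pd.measurable measurable_const)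
  have hsupp : Function.support (fun p : 𝔻 × 𝔻 => (psi0 T p.1 : ℂ) *
      ({q : 𝔻 × 𝔻 | pd q.1 q.2 < R}.indicator (fun q => F q.1 q.2) p)) ⊆ K := by
    intro p hp
    rw [Function.mem_support] at hp
    have hp1 : psi0 T p.1 ≠ 0 := fun h0 => hp (by rw [h0]; simp)
    have hp2 : {q : 𝔻 × 𝔻 | pd q.1 q.2 < R}.indicator (fun q => F q.1 q.2) p ≠ 0 :=
      fun h0 => hp (by rw [h0]; simp)
    rw [Set.indicator_apply_ne_zero] at hp2
    have hp3 : pd p.1 p.2 < R := hp2.1
    have hp4 : F p.1 p.2 ≠ 0 := hp2.2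
    have hz : ‖(p.1 : ℂ)‖ ≤ r := h1 p.1 ⟨p.2, hp3, fun h0 => hp4 (hs _ _ h0)⟩ (fluxA_psi0_supp hp1)
    exact ⟨hz, h2 _ _ hz hp3⟩
  rw [← integrableOn_iff_integrable_of_support_subset hsupp]
  apply Measure.integrableOn_of_bounded (M := C)
  · rw [hK, Measure.prod_prod]
    exact (ENNReal.mul_lt_top (fluxA_finite hr) (fluxA_finite hr')).ne
  · exact hmeas.aestronglyMeasurable
  · rw [ae_restrict_iff' hKc.measurableSet]
    apply Eventually.of_forall
    intro p hp
    have hb := fluxA_psi0_bd T p.1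
    have hc := hC p hp
    have hc0 : 0 ≤ C := (norm_nonneg _).trans hc
    rw [norm_mul, Complex.norm_real, Real.norm_eq_abs, abs_of_nonneg hb.1]
    have : ‖{q : 𝔻 × 𝔻 | pd q.1 q.2 < R}.indicator (fun q => F q.1 q.2) p‖ ≤ C := by
      rw [Set.indicator_apply]
      split_ifs
      · exact hc
      · simpa using hc0
    calc psi0 T p.1 * _ ≤ 1 * C := mul_le_mul hb.2 this (norm_nonneg _) zero_le_one
      _ = C := one_mul C

private theorem fluxA_mtp {R : ℝ} (hR0 : 0 < R) (hR : R < 1) {T : ℝ} (hT : 0 < T) (F : 𝔻 → 𝔻 → ℂ)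
    (hF : Continuous (fun p : 𝔻 × 𝔻 => F p.1 p.2))
    (hinv : ∀ (t : ℝ) (z w : 𝔻), F (At t • z) (At t • w) = F z w)
    (hs : ∀ z w, s0 w = s0 z → F z w = 0) :
    ∫ z, (psi0 T z : ℂ) * AvF R F z ∂area =
      ∫ z, (psi0 T z : ℂ) * AvF R (fun z w => F w z) z ∂area := by
  have : Countable (Subgroup.zpowers (At T)) := by
    have h0 : (Subgroup.zpowers (At T) : Set SU11).Countable := by
      rw [Subgroup.coe_zpowers]; exact Set.countable_range _
    exact h0.to_subtype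
  apply mtp_AvF (Subgroup.zpowers (At T)) (psi0 T) (psi0_measurable T)
    (fun z => (fluxA_psi0_bd T z).1)
  · intro z
    have := psi0_sum hT 0 z
    simpa only [At_zero, one_smul] using this
  · exact hF.measurable
  · rintro l ⟨n, rfl⟩ z w
    show F (((At T) ^ n : SU11) • z) (((At T) ^ n : SU11) • w) = F z w
    rw [fluxA_At_zpow, hinv]
  · exact fluxA_hint hR0 hR T F hF hs

private theorem fluxA_AvF_supp {R : ℝ} (hR0 : 0 < R) (hR : R < 1) {F : 𝔻 → 𝔻 → ℂ}
    (hs : ∀ z w, s0 w = s0 z → F z w = 0) {z : 𝔻} (h : AvF R F z ≠ 0) :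
    ∃ w : 𝔻, pd z w < R ∧ s0 w ≠ s0 z := by
  by_contra hcon
  push Not at hcon
  apply h
  have := norm_AvF_le hR0 hR (F := F) (z := z) (C := 0) (fun w hw => by
    rw [hs z w (hcon w hw), norm_zero])
  exact norm_le_zero_iff.1 this

private theorem fluxA_integrable {R : ℝ} (hR0 : 0 < R) (hR : R < 1) (T : ℝ) (F : 𝔻 → 𝔻 → ℂ)
    (hF : Continuous (fun p : 𝔻 × 𝔻 => F p.1 p.2)) (hs : ∀ z w, s0 w = s0 z → F z w = 0) :
    Integrable (fun z => (psi0 T z : ℂ) * AvF R F z) area := by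
  obtain ⟨r, hr, h1⟩ := f0_support hR0 hR T
  have hKc := isCompact_closedBallD hr
  have hAc : Continuous (AvF R F) := continuous_AvF hR hF
  obtain ⟨C, hC⟩ := hKc.exists_bound_of_continuousOn hAc.continuousOn
  have hmeas : Measurable (fun z => (psi0 T z : ℂ) * AvF R F z) :=
    (Complex.measurable_ofReal.comp (psi0_measurable T)).mul hAc.measurable
  have hsupp : Function.support (fun z => (psi0 T z : ℂ) * AvF R F z) ⊆ {z : 𝔻 | ‖(z : ℂ)‖ ≤ r} := by
    intro z hz
    rw [Function.mem_support] at hz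
    have hp1 : psi0 T z ≠ 0 := fun h0 => hz (by rw [h0]; simp)
    have hp2 : AvF R F z ≠ 0 := fun h0 => hz (by rw [h0]; simp)
    exact h1 z (fluxA_AvF_supp hR0 hR hs hp2) (fluxA_psi0_supp hp1)
  rw [← integrableOn_iff_integrable_of_support_subset hsupp]
  apply Measure.integrableOn_of_bounded (M := C) (fluxA_finite hr).ne hmeas.aestronglyMeasurable
  rw [ae_restrict_iff' hKc.measurableSet]
  apply Eventually.of_forall
  intro z hz
  have hb := fluxA_psi0_bd T z
  have hc := hC z hz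
  rw [norm_mul, Complex.norm_real, Real.norm_eq_abs, abs_of_nonneg hb.1]
  calc psi0 T z * _ ≤ 1 * C := mul_le_mul hb.2 hc (norm_nonneg _) zero_le_one
    _ = C := one_mul C

private theorem fluxA_AvF_f0 {R : ℝ} (hR0 : 0 < R) (hR : R < 1) (z : 𝔻) :
    AvF R (fun z w : 𝔻 => (s0 w : ℂ) - (s0 z : ℂ)) z = ((f0 R z : ℝ) : ℂ) := by
  have hc := fluxA_continuous_s0
  rw [AvF_sub hR (by fun_prop) (by fun_prop), AvF_const_left hR0 hR (fun z => (s0 z : ℂ))]
  have : AvF R (fun (_ : 𝔻) (w : 𝔻) => (s0 w : ℂ)) z = ((Mop R s0 z : ℝ) : ℂ) := Mop_ofReal R s0 z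
  rw [this]
  unfold f0
  push_cast
  rfl

private theorem fluxA_AvF_f0' {R : ℝ} (hR0 : 0 < R) (hR : R < 1) (z : 𝔻) :
    AvF R (fun z w : 𝔻 => (s0 z : ℂ) - (s0 w : ℂ)) z = -((f0 R z : ℝ) : ℂ) := by
  have hc := fluxA_continuous_s0
  rw [AvF_sub hR (by fun_prop) (by fun_prop), AvF_const_left hR0 hR (fun z => (s0 z : ℂ))]
  have : AvF R (fun (_ : 𝔻) (w : 𝔻) => (s0 w : ℂ)) z = ((Mop R s0 z : ℝ) : ℂ) := Mop_ofReal R s0 z
  rw [this]
  unfold f0
  push_cast
  ring

/-- mass transport with `F z w = s0 w - s0 z`: the total mass of `f0` is zero -/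
theorem integral_f0 {R : ℝ} (hR0 : 0 < R) (hR : R < 1) {T : ℝ} (hT : 0 < T) :
    ∫ z, psi0 T z * f0 R z ∂area = 0 := by
  have hc := fluxA_continuous_s0
  have h := fluxA_mtp hR0 hR hT (fun z w : 𝔻 => (s0 w : ℂ) - (s0 z : ℂ)) (by fun_prop)
    (fun t z w => by rw [fluxA_s0_At, fluxA_s0_At]) (fun z w h => by rw [h, sub_self])
  simp only [fluxA_AvF_f0 hR0 hR, fluxA_AvF_f0' hR0 hR] at h
  simp only [mul_neg, integral_neg] at h
  have h2 : ∫ z, (psi0 T z : ℂ) * ((f0 R z : ℝ) : ℂ) ∂area = 0 := by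
    have : (2 : ℂ) * ∫ z, (psi0 T z : ℂ) * ((f0 R z : ℝ) : ℂ) ∂area = 0 := by linear_combination h
    simpa using this
  have h3 : ((∫ z, psi0 T z * f0 R z ∂area : ℝ) : ℂ) = 0 := by
    rw [← integral_complex_ofReal, ← h2]
    congr 1
    funext z
    push_cast
    rfl
  exact_mod_cast h3

private theorem fluxA_xc_zero : xc 0 = 0 := by unfold xc; simp
private theorem fluxA_yc_zero : yc 0 = 0 := by unfold yc; simp

private theorem fluxA_G_nonneg (z w : 𝔻) : 0 ≤ (s0 w - s0 z) * (yc w - yc z) := by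
  unfold s0
  rcases le_total (yc z) (yc w) with h | h
  · apply mul_nonneg _ (by linarith)
    have : max (-1) (min 1 (yc z)) ≤ max (-1) (min 1 (yc w)) :=
      max_le_max le_rfl (min_le_min le_rfl h)
    linarith
  · apply mul_nonneg_of_nonpos_of_nonpos _ (by linarith)
    have : max (-1) (min 1 (yc w)) ≤ max (-1) (min 1 (yc z)) :=
      max_le_max le_rfl (min_le_min le_rfl h)
    linarith

private def fluxA_G (z w : 𝔻) : ℝ := (s0 w - s0 z) * (yc w - yc z)

private theorem fluxA_G_cont : Continuous (fun p : 𝔻 × 𝔻 => fluxA_G p.1 p.2) := by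
  have hc := fluxA_continuous_s0
  have hc' := continuous_yc
  unfold fluxA_G
  fun_prop

/-- a point with nonzero `yc` close to the centre -/
private theorem fluxA_point {R : ℝ} (hR0 : 0 < R) (hR : R < 1) : ∃ w : 𝔻, w ∈ ballD R ∧ yc w ≠ 0 := by
  have hn : ‖((R / 2 : ℝ) : ℂ) * I‖ < 1 := by
    rw [norm_mul, Complex.norm_real, Complex.norm_I, Real.norm_eq_abs, abs_of_pos (by positivity)]
    linarith
  refine ⟨UnitDisc.mk (((R / 2 : ℝ) : ℂ) * I) hn, ?_, ?_⟩
  · show ‖((R / 2 : ℝ) : ℂ) * I‖ < R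
    rw [norm_mul, Complex.norm_real, Complex.norm_I, Real.norm_eq_abs, abs_of_pos (by positivity)]
    linarith
  · intro h
    unfold yc at h
    have h2 : ((UnitDisc.mk (((R / 2 : ℝ) : ℂ) * I) hn : 𝔻) : ℂ) = ((R / 2 : ℝ) : ℂ) * I := rfl
    rw [h2] at h
    rw [Complex.arg_eq_zero_iff] at h
    have h3 := h.2
    rw [Complex.div_im] at h3
    simp at h3
    have h4 : 0 < Complex.normSq (1 - (R : ℂ) / 2 * I) := by
      rw [Complex.normSq_pos]
      intro h5
      have := congrArg Complex.re h5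
      simp at this
    have h5 : R / 2 / Complex.normSq (1 - (R : ℂ) / 2 * I) +
        -(-(R / 2) / Complex.normSq (1 - (R : ℂ) / 2 * I)) =
        R / Complex.normSq (1 - (R : ℂ) / 2 * I) := by ring
    have h6 : 0 < R / Complex.normSq (1 - (R : ℂ) / 2 * I) := div_pos hR0 h4
    linarith

private theorem fluxA_pos0 {R : ℝ} (hR0 : 0 < R) (hR : R < 1) : 0 < AvF R fluxA_G (0 : 𝔻) := by
  have hc := fluxA_continuous_s0
  have hc' := continuous_yc
  unfold AvF
  rw [smul_eq_mul]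
  apply mul_pos
  · rw [inv_pos]
    unfold Measure.real
    exact ENNReal.toReal_pos (area_ballD_pos hR0).ne' (area_ballD_lt_top hR).ne
  · rw [tr_zero]
    simp only [one_smul]
    have hG : ∀ w : 𝔻, fluxA_G 0 w = s0 w * yc w := by
      intro w
      unfold fluxA_G
      have : s0 0 = 0 := by unfold s0; rw [fluxA_yc_zero]; norm_num
      rw [this, fluxA_yc_zero]; ring
    have hcont : Continuous (fun w : 𝔻 => fluxA_G 0 w) :=
      fluxA_G_cont.comp (continuous_const.prodMk continuous_id)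
    have hint : IntegrableOn (fun w : 𝔻 => fluxA_G 0 w) (ballD R) area := by
      have := integrableOn_AvF hR fluxA_G_cont (0 : 𝔻)
      simpa only [tr_zero, one_smul] using this
    rw [setIntegral_pos_iff_support_of_nonneg_ae (f := fun w : 𝔻 => fluxA_G 0 w)
      (Eventually.of_forall (fun w => fluxA_G_nonneg 0 w)) hint]
    have hopen : IsOpen (Function.support (fun w : 𝔻 => fluxA_G 0 w) ∩ ballD R) :=
      hcont.isOpen_support.inter (isOpen_ballD R)
    refine hopen.measure_pos area ?_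
    obtain ⟨w, hw, hy⟩ := fluxA_point hR0 hR
    refine ⟨w, ?_, hw⟩
    rw [Function.mem_support, hG]
    apply mul_ne_zero _ hy
    unfold s0
    intro h0
    rcases lt_trichotomy (yc w) 0 with h1 | h1 | h1
    · have : max (-1) (min 1 (yc w)) < 0 := max_lt (by norm_num) ((min_le_right _ _).trans_lt h1)
      linarith
    · exact hy h1
    · have : 0 < max (-1) (min 1 (yc w)) := lt_max_of_lt_right (lt_min one_pos h1)
      linarith

/-- mass transport with `F z w = (s0 w - s0 z) yc z`: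
`2 ∫ ψ f0 yc = - ∫ ψ AvF ((s0 w - s0 z)(yc w - yc z)) < 0` -/
theorem integral_f0_yc {R : ℝ} (hR0 : 0 < R) (hR : R < 1) {T : ℝ} (hT : 0 < T) :
    ∫ z, psi0 T z * (f0 R z * yc z) ∂area < 0 := by
  have hc := fluxA_continuous_s0
  have hc' := continuous_yc
  set F : 𝔻 → 𝔻 → ℂ := fun z w => (yc z : ℂ) * ((s0 w : ℂ) - (s0 z : ℂ)) with hF
  set F' : 𝔻 → 𝔻 → ℂ := fun z w => (yc w : ℂ) * ((s0 z : ℂ) - (s0 w : ℂ)) with hF'
  have hFc : Continuous (fun p : 𝔻 × 𝔻 => F p.1 p.2) := by rw [hF]; fun_prop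
  have hFc' : Continuous (fun p : 𝔻 × 𝔻 => F' p.1 p.2) := by rw [hF']; fun_prop
  have hs : ∀ z w, s0 w = s0 z → F z w = 0 := fun z w h => by simp [hF, h]
  have hs' : ∀ z w, s0 w = s0 z → F' z w = 0 := fun z w h => by simp [hF', h]
  have h := fluxA_mtp hR0 hR hT F hFc
    (fun t z w => by simp only [hF]; rw [fluxA_s0_At, fluxA_s0_At, yc_At]) hs
  have hi := fluxA_integrable hR0 hR T F hFc hs
  have hi' := fluxA_integrable hR0 hR T F' hFc' hs'
  have e1 : ∀ z, AvF R F z = ((f0 R z * yc z : ℝ) : ℂ) := by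
    intro z
    rw [hF, AvF_mul_left R (fun z => (yc z : ℂ)) (fun z w => (s0 w : ℂ) - (s0 z : ℂ)),
      fluxA_AvF_f0 hR0 hR]
    push_cast
    ring
  have e2 : ∀ z, AvF R F z + AvF R F' z = -((AvF R fluxA_G z : ℝ) : ℂ) := by
    intro z
    rw [← AvF_add hR hFc hFc']
    have e3 : ((AvF R fluxA_G z : ℝ) : ℂ) = AvF R (fun z w => ((fluxA_G z w : ℝ) : ℂ)) z :=
      (Mop_ofReal R (fluxA_G z) z).symm
    rw [e3]
    have e4 : (fun z w => F z w + F' z w) = fun z w => (-1 : ℂ) * ((fluxA_G z w : ℝ) : ℂ) := by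
      funext z w
      simp only [hF, hF', fluxA_G]
      push_cast
      ring
    rw [e4, AvF_mul_left R (fun _ => (-1 : ℂ)) (fun z w => ((fluxA_G z w : ℝ) : ℂ))]
    ring
  have h' : ∫ z, (psi0 T z : ℂ) * AvF R F z ∂area = ∫ z, (psi0 T z : ℂ) * AvF R F' z ∂area := h
  have h2 : 2 * ∫ z, (psi0 T z : ℂ) * AvF R F z ∂area =
      -((∫ z, psi0 T z * AvF R fluxA_G z ∂area : ℝ) : ℂ) := by
    calc 2 * ∫ z, (psi0 T z : ℂ) * AvF R F z ∂area
        = (∫ z, (psi0 T z : ℂ) * AvF R F z ∂area) + ∫ z, (psi0 T z : ℂ) * AvF R F' z ∂area := by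
          rw [← h']; ring
      _ = ∫ z, ((psi0 T z : ℂ) * AvF R F z + (psi0 T z : ℂ) * AvF R F' z) ∂area :=
          (integral_add hi hi').symm
      _ = ∫ z, -(((psi0 T z * AvF R fluxA_G z : ℝ)) : ℂ) ∂area := by
          congr 1
          funext z
          rw [← mul_add, e2]
          push_cast
          ring
      _ = _ := by rw [integral_neg, integral_complex_ofReal]
  have hAc : Continuous (AvF R fluxA_G) := continuous_AvF hR fluxA_G_cont
  have hA0 : ∀ z, 0 ≤ AvF R fluxA_G z := by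
    intro z
    have := AvF_mono hR (F := fun _ _ => (0 : ℝ)) (G := fluxA_G) continuous_const fluxA_G_cont
      (z := z) (fun w _ => fluxA_G_nonneg z w)
    rwa [AvF_const_left hR0 hR (fun _ => (0 : ℝ))] at this
  have hintG : Integrable (fun z => psi0 T z * AvF R fluxA_G z) area := by
    have h5 := (hi.add hi').neg.re
    refine h5.congr (Eventually.of_forall (fun z => ?_))
    simp only [Pi.add_apply, Pi.neg_apply]
    rw [← mul_add, e2]
    simp
  have hpos : 0 < ∫ z, psi0 T z * AvF R fluxA_G z ∂area := by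
    rw [integral_pos_iff_support_of_nonneg
      (fun z => mul_nonneg (fluxA_psi0_bd T z).1 (hA0 z)) hintG]
    have hopen : IsOpen ({z : 𝔻 | 0 < xc z} ∩ {z : 𝔻 | xc z < T} ∩ {z : 𝔻 | 0 < AvF R fluxA_G z}) :=
      ((isOpen_lt continuous_const continuous_xc).inter
        (isOpen_lt continuous_xc continuous_const)).inter (isOpen_lt continuous_const hAc)
    have hne : ({z : 𝔻 | 0 < xc z} ∩ {z : 𝔻 | xc z < T} ∩
        {z : 𝔻 | 0 < AvF R fluxA_G z}).Nonempty := by
      refine ⟨At (T / 2) • (0 : 𝔻), ⟨?_, ?_⟩, ?_⟩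
      · show 0 < xc (At (T / 2) • (0 : 𝔻))
        rw [xc_At, fluxA_xc_zero]; linarith
      · show xc (At (T / 2) • (0 : 𝔻)) < T
        rw [xc_At, fluxA_xc_zero]; linarith
      · show 0 < AvF R fluxA_G (At (T / 2) • (0 : 𝔻))
        rw [AvF_smul]
        have : (fun z w : 𝔻 => fluxA_G (At (T / 2) • z) (At (T / 2) • w)) = fluxA_G := by
          funext z w
          unfold fluxA_G
          rw [fluxA_s0_At, fluxA_s0_At, yc_At, yc_At]
        rw [this]
        exact fluxA_pos0 hR0 hR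
    refine (hopen.measure_pos area hne).trans_le (measure_mono ?_)
    rintro z ⟨⟨h1, h2⟩, h3⟩
    rw [Function.mem_support]
    have h1' : 0 < xc z := h1
    have h2' : xc z < T := h2
    have h3' : 0 < AvF R fluxA_G z := h3
    unfold psi0
    rw [if_pos ⟨h1'.le, h2'⟩, one_mul]
    exact h3'.ne'
  have h6 : ((2 * ∫ z, psi0 T z * (f0 R z * yc z) ∂area : ℝ) : ℂ) =
      ((-∫ z, psi0 T z * AvF R fluxA_G z ∂area : ℝ) : ℂ) := by
    push_cast
    rw [← h2]
    rw [← integral_complex_ofReal]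
    congr 2
    funext z
    rw [e1]
    push_cast
    ring
  have h7 : 2 * ∫ z, psi0 T z * (f0 R z * yc z) ∂area = -∫ z, psi0 T z * AvF R fluxA_G z ∂area := by
    exact_mod_cast h6
  linarith

end

end Pool.Agent.Lib.MP_b16327_pr
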