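import Pool.Agent.Lib.MP_b16327_pr.FluxA
import Pool.Agent.Lib.MP_b16327_pr.CmvA

/-! # Flux on the real axis -/

namespace Pool.Agent.Lib.MP_b16327_pr

open Complex MeasureTheory ComplexConjugate Filter
open scoped Complex.UnitDisc Topology BoundedContinuousFunction

noncomputable section

private theorem fluxB_second : SecondCountableTopology 𝔻 :=
  UnitDisc.isEmbedding_coe.secondCountableTopology

private theorem fluxB_t2 : T2Space 𝔻 := UnitDisc.isEmbedding_coe.t2Space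

attribute [local instance] fluxB_second fluxB_t2

private theorem fluxB_s0 : Continuous s0 := by
  unfold s0
  exact continuous_const.max (continuous_const.min continuous_yc)

private theorem fluxB_psi0_bd (T : ℝ) (z : 𝔻) : 0 ≤ psi0 T z ∧ psi0 T z ≤ 1 := by
  unfold psi0; split_ifs <;> norm_num

private theorem fluxB_psi0_supp {T : ℝ} {z : 𝔻} (h : psi0 T z ≠ 0) : |xc z| ≤ T := by
  unfold psi0 at h
  rw [Ne, ite_eq_right_iff, not_forall] at h
  obtain ⟨⟨h1, h2⟩, -⟩ := h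
  rw [abs_of_nonneg h1]; exact h2.le

private theorem fluxB_f0_supp {R : ℝ} (hR0 : 0 < R) (hR : R < 1) {z : 𝔻} (h : f0 R z ≠ 0) :
    ∃ w : 𝔻, pd z w < R ∧ s0 w ≠ s0 z := by
  by_contra hcon
  push Not at hcon
  apply h
  have := norm_Mop_sub_le hR0 hR fluxB_s0 (z := z) (C := 0) (fun w hw => by
    rw [hcon w hw, sub_self, norm_zero])
  exact norm_le_zero_iff.1 this

private theorem fluxB_supp {R : ℝ} (hR0 : 0 < R) (hR : R < 1) (T : ℝ) : ∃ r : ℝ, r < 1 ∧
    ∀ z : 𝔻, psi0 T z ≠ 0 → f0 R z ≠ 0 → ‖(z : ℂ)‖ ≤ r := by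
  obtain ⟨r, hr, h1⟩ := f0_support hR0 hR T
  exact ⟨r, hr, fun z h2 h3 => h1 z (fluxB_f0_supp hR0 hR h3) (fluxB_psi0_supp h2)⟩

/-- joint integrability -/
private theorem fluxB_int2 {R : ℝ} (hR0 : 0 < R) (hR : R < 1) (T : ℝ) {H : 𝔻 × ℝ → ℂ}
    (hH : Continuous H) :
    Integrable (fun p : 𝔻 × ℝ => (psi0 T p.1 : ℂ) * ((f0 R p.1 : ℂ) * H p))
      (area.prod (volume.restrict (Set.Ioc 0 T))) := by
  obtain ⟨r, hr, h1⟩ := fluxB_supp hR0 hR T
  have hKc := isCompact_closedBallD hr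
  have hf : Continuous (f0 R) := continuous_f0 hR
  have hcont : Continuous (fun p : 𝔻 × ℝ => (f0 R p.1 : ℂ) * H p) := by fun_prop
  obtain ⟨C, hC⟩ := (hKc.prod (isCompact_Icc (a := (0 : ℝ)) (b := T))).exists_bound_of_continuousOn
    hcont.continuousOn
  have hmeas : Measurable (fun p : 𝔻 × ℝ => (psi0 T p.1 : ℂ) * ((f0 R p.1 : ℂ) * H p)) :=
    (Complex.measurable_ofReal.comp ((psi0_measurable T).comp measurable_fst)).mul hcont.measurable
  have hsupp : Function.support (fun p : 𝔻 × ℝ => (psi0 T p.1 : ℂ) * ((f0 R p.1 : ℂ) * H p)) ⊆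
      {z : 𝔻 | ‖(z : ℂ)‖ ≤ r} ×ˢ Set.univ := by
    intro p hp
    rw [Function.mem_support] at hp
    refine ⟨h1 p.1 (fun h0 => hp (by rw [h0]; simp)) (fun h0 => hp (by rw [h0]; simp)), trivial⟩
  rw [← integrableOn_iff_integrable_of_support_subset hsupp]
  apply Measure.integrableOn_of_bounded (M := C)
  · rw [Measure.prod_prod]
    apply (ENNReal.mul_lt_top (hKc.measure_lt_top) _).ne
    rw [Measure.restrict_apply_univ, Real.volume_Ioc]
    exact ENNReal.ofReal_lt_top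
  · exact hmeas.aestronglyMeasurable
  · have hms : MeasurableSet ({z : 𝔻 | ‖(z : ℂ)‖ ≤ r} ×ˢ (Set.univ : Set ℝ)) :=
      hKc.measurableSet.prod MeasurableSet.univ
    have hprod : (area.prod (volume.restrict (Set.Ioc 0 T))).restrict
        ({z : 𝔻 | ‖(z : ℂ)‖ ≤ r} ×ˢ (Set.univ : Set ℝ)) =
        (area.prod volume).restrict ({z : 𝔻 | ‖(z : ℂ)‖ ≤ r} ×ˢ Set.Ioc 0 T) := by
      rw [← Measure.prod_restrict, ← Measure.prod_restrict, Measure.restrict_univ]
    rw [hprod, ae_restrict_iff' (hKc.measurableSet.prod measurableSet_Ioc)]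
    apply Eventually.of_forall
    rintro p ⟨hp1, hp2⟩
    have hb := fluxB_psi0_bd T p.1
    have hc := hC p ⟨hp1, Set.Ioc_subset_Icc_self hp2⟩
    rw [norm_mul, Complex.norm_real, Real.norm_eq_abs, abs_of_nonneg hb.1]
    calc psi0 T p.1 * _ ≤ 1 * C := mul_le_mul hb.2 hc (norm_nonneg _) zero_le_one
      _ = C := one_mul C

private theorem fluxB_int {R : ℝ} (hR0 : 0 < R) (hR : R < 1) (T : ℝ) {H : 𝔻 → ℂ}
    (hH : Continuous H) :
    Integrable (fun z : 𝔻 => (psi0 T z : ℂ) * ((f0 R z : ℂ) * H z)) area := by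
  obtain ⟨r, hr, h1⟩ := fluxB_supp hR0 hR T
  have hKc := isCompact_closedBallD hr
  have hf : Continuous (f0 R) := continuous_f0 hR
  have hcont : Continuous (fun p : 𝔻 => (f0 R p : ℂ) * H p) := by fun_prop
  obtain ⟨C, hC⟩ := hKc.exists_bound_of_continuousOn hcont.continuousOn
  have hmeas : Measurable (fun p : 𝔻 => (psi0 T p : ℂ) * ((f0 R p : ℂ) * H p)) :=
    (Complex.measurable_ofReal.comp (psi0_measurable T)).mul hcont.measurable
  have hsupp : Function.support (fun p : 𝔻 => (psi0 T p : ℂ) * ((f0 R p : ℂ) * H p)) ⊆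
      {z : 𝔻 | ‖(z : ℂ)‖ ≤ r} := by
    intro p hp
    rw [Function.mem_support] at hp
    exact h1 p (fun h0 => hp (by rw [h0]; simp)) (fun h0 => hp (by rw [h0]; simp))
  rw [← integrableOn_iff_integrable_of_support_subset hsupp]
  apply Measure.integrableOn_of_bounded (M := C) hKc.measure_lt_top.ne hmeas.aestronglyMeasurable
  rw [ae_restrict_iff' hKc.measurableSet]
  apply Eventually.of_forall
  intro p hp
  have hb := fluxB_psi0_bd T p
  have hc := hC p hp
  rw [norm_mul, Complex.norm_real, Real.norm_eq_abs, abs_of_nonneg hb.1]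
  calc psi0 T p * _ ≤ 1 * C := mul_le_mul hb.2 hc (norm_nonneg _) zero_le_one
    _ = C := one_mul C

private theorem fluxB_At_coe (t : ℝ) (z : 𝔻) : ((At t • z : 𝔻) : ℂ) =
    ((Real.cosh (t / 2) : ℂ) * z + (Real.sinh (t / 2) : ℂ)) /
      ((Real.sinh (t / 2) : ℂ) * z + (Real.cosh (t / 2) : ℂ)) := by
  rw [coe_smul]
  unfold SU11.mob SU11.den
  have h1 : (At t).a = (Real.cosh (t / 2) : ℂ) := rfl
  have h2 : (At t).b = (Real.sinh (t / 2) : ℂ) := rfl
  rw [h1, h2, Complex.conj_ofReal, Complex.conj_ofReal]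

private theorem fluxB_den (t : ℝ) (z : 𝔻) :
    ((Real.sinh (t / 2) : ℂ) * z + (Real.cosh (t / 2) : ℂ)) ≠ 0 := by
  have := (At t).den_ne_zero z.norm_lt_one.le
  unfold SU11.den at this
  have h1 : (At t).a = (Real.cosh (t / 2) : ℂ) := rfl
  have h2 : (At t).b = (Real.sinh (t / 2) : ℂ) := rfl
  rwa [h1, h2, Complex.conj_ofReal, Complex.conj_ofReal] at this

private theorem fluxB_cont : Continuous (fun p : 𝔻 × ℝ => At p.2 • p.1) := by
  rw [UnitDisc.isEmbedding_coe.continuous_iff]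
  have : (UnitDisc.coe ∘ fun p : 𝔻 × ℝ => At p.2 • p.1) = fun p : 𝔻 × ℝ =>
      ((Real.cosh (p.2 / 2) : ℂ) * (p.1 : ℂ) + (Real.sinh (p.2 / 2) : ℂ)) /
      ((Real.sinh (p.2 / 2) : ℂ) * (p.1 : ℂ) + (Real.cosh (p.2 / 2) : ℂ)) := by
    funext p
    exact fluxB_At_coe p.2 p.1
  rw [this]
  have hc : Continuous (fun p : 𝔻 × ℝ => (p.1 : ℂ)) := UnitDisc.continuous_coe.comp continuous_fst
  have h1 : Continuous (fun p : 𝔻 × ℝ => (Real.cosh (p.2 / 2) : ℂ)) :=
    Complex.continuous_ofReal.comp (Real.continuous_cosh.comp (continuous_snd.div_const 2))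
  have h2 : Continuous (fun p : 𝔻 × ℝ => (Real.sinh (p.2 / 2) : ℂ)) :=
    Complex.continuous_ofReal.comp (Real.continuous_sinh.comp (continuous_snd.div_const 2))
  exact ((h1.mul hc).add h2).div ((h2.mul hc).add h1) (fun p => fluxB_den p.2 p.1)

private theorem fluxB_At_zpow (T : ℝ) (n : ℤ) : (At T) ^ n = At (n * T) := by
  let f : Multiplicative ℝ →* SU11 :=
    { toFun := fun t => At (Multiplicative.toAdd t)
      map_one' := by simpa using At_zero
      map_mul' := fun s t => by simpa using At_add _ _ }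
  have h := map_zpow f (Multiplicative.ofAdd T) n
  have h2 : f (Multiplicative.ofAdd T ^ n) = At (n * T) := by
    show At (Multiplicative.toAdd (Multiplicative.ofAdd T ^ n)) = _
    rw [toAdd_zpow, toAdd_ofAdd, zsmul_eq_mul]
  have h3 : f (Multiplicative.ofAdd T) = At T := rfl
  rw [h3] at h
  rw [← h, h2]

private theorem fluxB_inv {T : ℝ} {Φ : 𝔻 → ℂ} (hinv : ∀ z, Φ (At T • z) = Φ z) (n : ℤ) (z : 𝔻) :
    Φ (((At T) ^ n : SU11) • z) = Φ z := by
  induction n using Int.induction_on generalizing z with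
  | zero => simp
  | succ n ih =>
    rw [zpow_add_one, mul_smul, ih, hinv]
  | pred n ih =>
    rw [zpow_sub_one, mul_smul, ih]
    have := hinv ((At T)⁻¹ • z)
    rw [smul_inv_smul] at this
    exact this.symm

private theorem fluxB_flow1 {R : ℝ} (hR0 : 0 < R) (hR : R < 1) {T : ℝ} (hT : 0 < T) {Φ : 𝔻 → ℂ}
    (hΦ : Continuous Φ) (hinv : ∀ z, Φ (At T • z) = Φ z) (t : ℝ) :
    ∫ z, (psi0 T z : ℂ) * ((f0 R z : ℂ) * Φ (At t • z)) ∂area =
      ∫ z, (psi0 T z : ℂ) * ((f0 R z : ℂ) * Φ z) ∂area := by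
  have : Countable (Subgroup.zpowers (At T)) := by
    have h0 : (Subgroup.zpowers (At T) : Set SU11).Countable := by
      rw [Subgroup.coe_zpowers]; exact Set.countable_range _
    exact h0.to_subtype
  have hcomm : ∀ (n : ℤ) (z : 𝔻), At t • (((At T) ^ n : SU11) • z) =
      ((At T) ^ n : SU11) • (At t • z) := by
    intro n z
    rw [fluxB_At_zpow, ← mul_smul, ← mul_smul, ← At_add, ← At_add, add_comm]
  have hΦt : Continuous (fun z : 𝔻 => Φ (At t • z)) := hΦ.comp (continuous_smul_disc _)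
  have h := (unfold_abs area (Λ := Subgroup.zpowers (At T))
    (fun l => measurePreserving_smul (l : SU11))
    (psi0 T) (fun z => psi0 T (At t • z)) (psi0_measurable T) (fun z => (fluxB_psi0_bd T z).1)
    (fun z => by
      have := psi0_sum hT 0 z
      simp only [At_zero, one_smul] at this
      exact this)
    ((psi0_measurable T).comp (continuous_smul_disc _).measurable)
    (fun z => (fluxB_psi0_bd T _).1)
    (fun z => psi0_sum hT t z)
    (fun z => (f0 R z : ℂ) * Φ (At t • z))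
    ((Complex.continuous_ofReal.comp (continuous_f0 hR)).mul hΦt).measurable
    (by
      rintro ⟨l, n, rfl⟩ z
      show (f0 R (((At T) ^ n : SU11) • z) : ℂ) * Φ (At t • (((At T) ^ n : SU11) • z)) = _
      rw [hcomm, fluxB_inv hinv, fluxB_At_zpow, f0_At])
    (fluxB_int hR0 hR T hΦt)).2
  rw [h]
  rw [← integral_smul_area (At t) (fun z => (psi0 T z : ℂ) * ((f0 R z : ℂ) * Φ z))]
  congr 1
  funext z
  rw [f0_At]

/-- averaging over the flow: for continuous `Φ` with `Φ (A_T z) = Φ z`,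
`∫ ψ f0 Φ = ∫ ψ f0 Φbar`, `Φbar z = T⁻¹ ∫_0^T Φ (A_t z) dt` (`unfold_abs` with `ψ` and
`ψ ∘ A_{-t}`, then Fubini) -/
theorem integral_flow {R : ℝ} (hR0 : 0 < R) (hR : R < 1) {T : ℝ} (hT : 0 < T) {Φ : 𝔻 → ℂ}
    (hΦ : Continuous Φ) (hinv : ∀ z, Φ (At T • z) = Φ z) :
    ∫ z, (psi0 T z : ℂ) * ((f0 R z : ℂ) * Φ z) ∂area =
      ∫ z, (psi0 T z : ℂ) * ((f0 R z : ℂ) * ((T : ℂ)⁻¹ * ∫ t in (0 : ℝ)..T, Φ (At t • z))) ∂area := by
  have hT' : (T : ℂ) ≠ 0 := by exact_mod_cast hT.ne'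
  have h1 : ∀ z : 𝔻, (psi0 T z : ℂ) * ((f0 R z : ℂ) * ((T : ℂ)⁻¹ * ∫ t in (0 : ℝ)..T, Φ (At t • z))) =
      (T : ℂ)⁻¹ * ∫ t in Set.Ioc 0 T, (psi0 T z : ℂ) * ((f0 R z : ℂ) * Φ (At t • z)) := by
    intro z
    rw [intervalIntegral.integral_of_le hT.le, integral_const_mul, integral_const_mul]
    ring
  simp only [h1]
  rw [integral_const_mul]
  have h2 := integral_integral_swap (μ := area) (ν := volume.restrict (Set.Ioc 0 T))
    (f := fun (z : 𝔻) (t : ℝ) => (psi0 T z : ℂ) * ((f0 R z : ℂ) * Φ (At t • z)))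
    (fluxB_int2 hR0 hR T (H := fun p => Φ (At p.2 • p.1)) (hΦ.comp fluxB_cont))
  rw [h2]
  simp only [fluxB_flow1 hR0 hR hT hΦ hinv]
  rw [integral_const, Measure.real, Measure.restrict_apply_univ, Real.volume_Ioc, sub_zero,
    ENNReal.toReal_ofReal hT.le]
  rw [Complex.real_smul, ← mul_assoc, inv_mul_cancel₀ hT', one_mul]

/-- `d/dt (A_t z) = (1 - (A_t z)^2)/2` -/
private theorem fluxB_deriv_t (z : 𝔻) (t : ℝ) :
    HasDerivAt (fun t : ℝ => ((At t • z : 𝔻) : ℂ)) ((1 - ((At t • z : 𝔻) : ℂ) ^ 2) / 2) t := by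
  have hfun : (fun t : ℝ => ((At t • z : 𝔻) : ℂ)) = fun t : ℝ =>
      ((Real.cosh (t / 2) : ℂ) * z + (Real.sinh (t / 2) : ℂ)) /
      ((Real.sinh (t / 2) : ℂ) * z + (Real.cosh (t / 2) : ℂ)) := by
    funext t; exact fluxB_At_coe t z
  rw [hfun, fluxB_At_coe]
  have hd : HasDerivAt (fun t : ℝ => t / 2) (1 / 2) t := (hasDerivAt_id t).div_const 2
  have hc : HasDerivAt (fun t : ℝ => (Real.cosh (t / 2) : ℂ)) ((Real.sinh (t / 2) * (1 / 2) : ℝ) : ℂ) t :=
    (hd.cosh).ofReal_comp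
  have hs : HasDerivAt (fun t : ℝ => (Real.sinh (t / 2) : ℂ)) ((Real.cosh (t / 2) * (1 / 2) : ℝ) : ℂ) t :=
    (hd.sinh).ofReal_comp
  have hne := fluxB_den t z
  have h := ((hc.mul_const (z : ℂ)).add hs).div ((hs.mul_const (z : ℂ)).add hc) hne
  refine h.congr_deriv ?_
  simp only [Pi.add_apply]
  push_cast
  push_cast at hne
  field_simp

private theorem fluxB_cont_t (z : 𝔻) : Continuous (fun t : ℝ => ((At t • z : 𝔻) : ℂ)) :=
  continuous_iff_continuousAt.2 (fun t => (fluxB_deriv_t z t).continuousAt)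

/-- `d/dz (A_T z) = 1/den^2`, combined with `1 - (A_T z)^2 = (1 - z^2)/den^2` -/
private theorem fluxB_deriv_z (T : ℝ) (z : 𝔻) :
    HasDerivAt (fun z : ℂ => (At T).mob z)
      ((1 - ((At T • z : 𝔻) : ℂ) ^ 2) / (1 - (z : ℂ) ^ 2)) (z : ℂ) := by
  have hfun : (fun z : ℂ => (At T).mob z) = fun z : ℂ =>
      ((Real.cosh (T / 2) : ℂ) * z + (Real.sinh (T / 2) : ℂ)) /
      ((Real.sinh (T / 2) : ℂ) * z + (Real.cosh (T / 2) : ℂ)) := by
    funext z
    unfold SU11.mob SU11.den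
    have h1 : (At T).a = (Real.cosh (T / 2) : ℂ) := rfl
    have h2 : (At T).b = (Real.sinh (T / 2) : ℂ) := rfl
    rw [h1, h2, Complex.conj_ofReal, Complex.conj_ofReal]
  rw [hfun, fluxB_At_coe]
  have hne := fluxB_den T z
  have h := (((hasDerivAt_id (z : ℂ)).const_mul (Real.cosh (T / 2) : ℂ)).add_const
    (Real.sinh (T / 2) : ℂ)).div (((hasDerivAt_id (z : ℂ)).const_mul
    (Real.sinh (T / 2) : ℂ)).add_const (Real.cosh (T / 2) : ℂ)) hne
  have hz : 1 - (z : ℂ) ^ 2 ≠ 0 := by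
    intro h0
    have h1 : ‖(z : ℂ) ^ 2‖ = 1 := by
      rw [← sub_eq_zero.1 h0]; simp
    rw [norm_pow] at h1
    have := z.norm_lt_one
    nlinarith [norm_nonneg (z : ℂ)]
  refine h.congr_deriv ?_
  have hcs : (Real.cosh (T / 2) : ℂ) ^ 2 - (Real.sinh (T / 2) : ℂ) ^ 2 = 1 := by
    exact_mod_cast Real.cosh_sq_sub_sinh_sq (T / 2)
  simp only [id, mul_one]
  set c : ℂ := (Real.cosh (T / 2) : ℂ)
  set s : ℂ := (Real.sinh (T / 2) : ℂ)
  rw [div_eq_div_iff (pow_ne_zero 2 hne) hz]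
  have h4 : (1 - ((c * z + s) / (s * z + c)) ^ 2) * (s * z + c) ^ 2 = (s * z + c) ^ 2 - (c * z + s) ^ 2 := by
    rw [div_pow, sub_mul, one_mul, div_mul_cancel₀ _ (pow_ne_zero 2 hne)]
  rw [h4]
  ring

/-- holomorphic `p` with `p (A_T z) = p z + κ`: `T⁻¹ ∫_0^T p (A_t z) dt = κ w / T + C`,
`w = xc z + i yc z`.  The left side `h` is holomorphic and `h (A_s z) = h z + κ s / T`; so
`h - κ w/T` is holomorphic and invariant under the flow, hence constant. -/
theorem flow_average {T : ℝ} (hT : 0 < T) {p : ℂ → ℂ} (hp : Holo p) {κ : ℂ}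
    (hκ : ∀ z : 𝔻, p ((At T • z : 𝔻) : ℂ) = p z + κ) :
    ∃ C : ℂ, ∀ z : 𝔻, (T : ℂ)⁻¹ * ∫ t in (0 : ℝ)..T, p ((At t • z : 𝔻) : ℂ) =
      κ / T * ((xc z : ℂ) + yc z * I) + C := by
  have hsq : ∀ z : ℂ, z ∈ Metric.ball (0 : ℂ) 1 → 1 - z ^ 2 ≠ 0 := by
    intro z hz h0
    rw [mem_ball_zero_iff] at hz
    have h1 : ‖z ^ 2‖ = 1 := by
      rw [← sub_eq_zero.1 h0]; simp
    rw [norm_pow] at h1
    nlinarith [norm_nonneg z]
  have hq : DifferentiableOn ℂ (fun z => p z * (2 / (1 - z ^ 2))) (Metric.ball (0 : ℂ) 1) := by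
    apply hp.mul
    apply DifferentiableOn.div (differentiableOn_const _)
    · fun_prop
    · exact hsq
  obtain ⟨G, hG⟩ := hq.isExactOn_ball
  have hmem : ∀ z : 𝔻, (z : ℂ) ∈ Metric.ball (0 : ℂ) 1 := fun z => by
    rw [mem_ball_zero_iff]; exact z.norm_lt_one
  -- the integral
  have hint : ∀ z : 𝔻, ∫ t in (0 : ℝ)..T, p ((At t • z : 𝔻) : ℂ) =
      G ((At T • z : 𝔻) : ℂ) - G z := by
    intro z
    have hd : ∀ t ∈ Set.uIcc (0 : ℝ) T, HasDerivAt (fun t : ℝ => G ((At t • z : 𝔻) : ℂ))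
        (p ((At t • z : 𝔻) : ℂ)) t := by
      intro t _
      have h1 := (hG _ (hmem (At t • z))).comp_of_eq t (fluxB_deriv_t z t) rfl
      refine h1.congr_deriv ?_
      have h2 := hsq _ (hmem (At t • z))
      field_simp
    have hcont : Continuous (fun t : ℝ => p ((At t • z : 𝔻) : ℂ)) := by
      have h3 : ContinuousOn p (Metric.ball (0 : ℂ) 1) := hp.continuousOn
      exact h3.comp_continuous (fluxB_cont_t z) (fun t => hmem _)
    rw [intervalIntegral.integral_eq_sub_of_hasDerivAt hd (hcont.intervalIntegrable _ _)]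
    rw [At_zero, one_smul]
  -- the difference is constant
  set L : ℂ → ℂ := fun z => Complex.log ((1 + z) / (1 - z)) with hL
  have hLd : ∀ z ∈ Metric.ball (0 : ℂ) 1, HasDerivAt L (2 / (1 - z ^ 2)) z := by
    intro z hz
    have h1 : 1 - z ≠ 0 := by
      intro h0
      apply hsq z hz
      linear_combination (1 + z) * h0
    have h2 : 1 + z ≠ 0 := by
      intro h0
      apply hsq z hz
      linear_combination (1 - z) * h0
    have h3 : HasDerivAt (fun z : ℂ => (1 + z) / (1 - z)) (((1 : ℂ) * (1 - z) - (1 + z) * (-1)) / (1 - z) ^ 2) z := by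
      exact ((hasDerivAt_id z).const_add 1).div ((hasDerivAt_id z).const_sub 1) h1
    have hslit : (1 + z) / (1 - z) ∈ Complex.slitPlane := by
      have hzn := mem_ball_zero_iff.1 hz
      have h5 : (1 + z) / (1 - z) ≠ 0 := div_ne_zero h2 h1
      have h6 := abs_yc_lt (UnitDisc.mk z hzn)
      unfold yc at h6
      rw [Complex.mem_slitPlane_iff_arg]
      refine ⟨?_, h5⟩
      intro h7
      have h8 : ((UnitDisc.mk z hzn : 𝔻) : ℂ) = z := rfl
      rw [h8, h7, abs_of_pos Real.pi_pos] at h6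
      linarith [Real.pi_pos]
    refine (h3.clog hslit).congr_deriv ?_
    have h4 := hsq z hz
    rw [show (1 : ℂ) - z ^ 2 = (1 - z) * (1 + z) by ring]
    field_simp
    ring
  set D : ℂ → ℂ := fun z => G ((At T).mob z) - G z - κ * L z with hD
  have hDd : ∀ z ∈ Metric.ball (0 : ℂ) 1, HasDerivAt D 0 z := by
    intro z hz
    have hzn := mem_ball_zero_iff.1 hz
    set w : 𝔻 := UnitDisc.mk z hzn with hw
    have hwz : (w : ℂ) = z := rfl
    have h1 := fluxB_deriv_z T w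
    rw [hwz] at h1
    have h2 := (hG _ (hmem (At T • w))).comp_of_eq z h1 rfl
    have h3 := (h2.sub (hG z hz)).sub ((hLd z hz).const_mul κ)
    refine h3.congr_deriv ?_
    simp only []
    rw [hκ w, hwz]
    have h4 := hsq _ (hmem (At T • w))
    have h5 := hsq z hz
    field_simp
    ring
  have hconst : ∀ z ∈ Metric.ball (0 : ℂ) 1, D z = D 0 := by
    intro z hz
    exact Metric.isOpen_ball.is_const_of_deriv_eq_zero (convex_ball (0 : ℂ) 1).isPreconnected
      (fun z hz => (hDd z hz).differentiableAt.differentiableWithinAt)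
      (fun z hz => (hDd z hz).deriv) hz (Metric.mem_ball_self one_pos)
  refine ⟨(T : ℂ)⁻¹ * D 0, fun z => ?_⟩
  rw [hint z, xc_add_yc]
  have h1 := hconst z (hmem z)
  have h2 : D z = G ((At T • z : 𝔻) : ℂ) - G z - κ * Complex.log ((1 + (z : ℂ)) / (1 - (z : ℂ))) := rfl
  have h3 : G ((At T • z : 𝔻) : ℂ) - G z = κ * Complex.log ((1 + (z : ℂ)) / (1 - (z : ℂ))) + D 0 := by
    rw [← h1, h2]; ring
  rw [h3]
  ring

/-- the flux formula on the real axis -/
theorem flux_axis {R : ℝ} (hR0 : 0 < R) (hR : R < 1) {T : ℝ} (hT : 0 < T) {Φ : 𝔻 → ℂ}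
    {p q : ℂ → ℂ} (hp : Holo p) (hq : Holo q) (hΦ : ∀ z : 𝔻, Φ z = p z + conj (q z))
    (hinv : ∀ z, Φ (At T • z) = Φ z) {κ : ℂ} (hκ : ∀ z : 𝔻, p ((At T • z : 𝔻) : ℂ) = p z + κ) :
    ∫ z, (psi0 T z : ℂ) * ((f0 R z : ℂ) * Φ z) ∂area =
      (2 * I / T * ((∫ z, psi0 T z * (f0 R z * yc z) ∂area : ℝ) : ℂ)) * κ := by
  have hmem : ∀ z : 𝔻, (z : ℂ) ∈ Metric.ball (0 : ℂ) 1 := fun z => by
    rw [mem_ball_zero_iff]; exact z.norm_lt_one
  have hpc : Continuous (fun z : 𝔻 => p z) :=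
    hp.continuousOn.comp_continuous UnitDisc.continuous_coe hmem
  have hqc : Continuous (fun z : 𝔻 => q z) :=
    hq.continuousOn.comp_continuous UnitDisc.continuous_coe hmem
  have hΦc : Continuous Φ := by
    have : Φ = fun z : 𝔻 => p z + conj (q z) := funext hΦ
    rw [this]
    exact hpc.add (Complex.continuous_conj.comp hqc)
  have hκ' : ∀ z : 𝔻, q ((At T • z : 𝔻) : ℂ) = q z + (-conj κ) := by
    intro z
    have h1 := hinv z
    rw [hΦ, hΦ, hκ] at h1
    have h2 : conj (q ((At T • z : 𝔻) : ℂ)) = conj (q z) - κ := by linear_combination h1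
    have h3 := congrArg conj h2
    rw [map_sub, Complex.conj_conj, Complex.conj_conj] at h3
    rw [h3]; ring
  obtain ⟨C, hC⟩ := flow_average hT hp hκ
  obtain ⟨C', hC'⟩ := flow_average hT hq hκ'
  rw [integral_flow hR0 hR hT hΦc hinv]
  have hbar : ∀ z : 𝔻, (T : ℂ)⁻¹ * ∫ t in (0 : ℝ)..T, Φ (At t • z) =
      2 * I / T * κ * (yc z : ℂ) + (C + conj C') := by
    intro z
    have hcp : Continuous (fun t : ℝ => p ((At t • z : 𝔻) : ℂ)) :=
      hp.continuousOn.comp_continuous (fluxB_cont_t z) (fun t => hmem _)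
    have hcq : Continuous (fun t : ℝ => q ((At t • z : 𝔻) : ℂ)) :=
      hq.continuousOn.comp_continuous (fluxB_cont_t z) (fun t => hmem _)
    have h1 : ∫ t in (0 : ℝ)..T, Φ (At t • z) =
        (∫ t in (0 : ℝ)..T, p ((At t • z : 𝔻) : ℂ)) +
          conj (∫ t in (0 : ℝ)..T, q ((At t • z : 𝔻) : ℂ)) := by
      simp only [hΦ]
      have hcq' : Continuous (fun t : ℝ => conj (q ((At t • z : 𝔻) : ℂ))) :=
        Complex.continuous_conj.comp hcq
      rw [intervalIntegral.integral_add (hcp.intervalIntegrable _ _)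
        (hcq'.intervalIntegrable _ _)]
      congr 1
      rw [intervalIntegral.integral_of_le hT.le, intervalIntegral.integral_of_le hT.le]
      exact integral_conj
    have h2 : conj ((T : ℂ)⁻¹ * ∫ t in (0 : ℝ)..T, q ((At t • z : 𝔻) : ℂ)) =
        (T : ℂ)⁻¹ * conj (∫ t in (0 : ℝ)..T, q ((At t • z : 𝔻) : ℂ)) := by
      rw [map_mul, map_inv₀, Complex.conj_ofReal]
    rw [h1, mul_add, ← h2, hC, hC']
    simp only [map_add, map_mul, map_div₀, map_neg, Complex.conj_conj, Complex.conj_ofReal,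
      Complex.conj_I]
    ring
  simp only [hbar]
  have hyc : Continuous (fun z : 𝔻 => (yc z : ℂ)) := Complex.continuous_ofReal.comp continuous_yc
  have hi1 := fluxB_int hR0 hR T hyc
  have hi2 := fluxB_int hR0 hR T (H := fun _ => (1 : ℂ)) continuous_const
  have e1 : ∀ z : 𝔻, (psi0 T z : ℂ) * ((f0 R z : ℂ) * (2 * I / T * κ * (yc z : ℂ) + (C + conj C'))) =
      (2 * I / T * κ) * ((psi0 T z : ℂ) * ((f0 R z : ℂ) * (yc z : ℂ))) +
      (C + conj C') * ((psi0 T z : ℂ) * ((f0 R z : ℂ) * 1)) := by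
    intro z; ring
  simp only [e1]
  rw [integral_add (hi1.const_mul _) (hi2.const_mul _), integral_const_mul, integral_const_mul]
  have e2 : ∫ z, (psi0 T z : ℂ) * ((f0 R z : ℂ) * 1) ∂area = 0 := by
    have h1 := integral_f0 hR0 hR hT
    have h2 : ((∫ z, psi0 T z * f0 R z ∂area : ℝ) : ℂ) = 0 := by rw [h1]; simp
    rw [← integral_complex_ofReal] at h2
    rw [← h2]
    congr 1
    funext z
    push_cast
    ring
  have e3 : ∫ z, (psi0 T z : ℂ) * ((f0 R z : ℂ) * (yc z : ℂ)) ∂area =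
      ((∫ z, psi0 T z * (f0 R z * yc z) ∂area : ℝ) : ℂ) := by
    rw [← integral_complex_ofReal]
    congr 1
    funext z
    push_cast
    ring
  rw [e2, e3]
  ring

end

end Pool.Agent.Lib.MP_b16327_pr
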