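import Pool.Agent.Lib.MP_b16327_pr.Defs

/-! # Elementary geometry of the disc, part A -/

namespace Pool.Agent.Lib.MP_b16327_pr

open Complex MeasureTheory ComplexConjugate Filter
open scoped Complex.UnitDisc Topology BoundedContinuousFunction

noncomputable section

private theorem GeoA_pos (z : 𝔻) : 0 < 1 - ‖(z : ℂ)‖ ^ 2 := by
  have h := UnitDisc.sq_norm_lt_one z
  linarith

private theorem GeoA_den_pos (g : SU11) (z : 𝔻) : 0 < normSq (g.den z) :=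
  Complex.normSq_pos.2 (g.den_ne_zero z.norm_lt_one.le)

/-- from `normSq_den_sub`, dividing by `normSq (den z)` -/
theorem one_sub_smul (g : SU11) (z : 𝔻) :
    1 - ‖((g • z : 𝔻) : ℂ)‖ ^ 2 = (1 - ‖(z : ℂ)‖ ^ 2) / normSq (g.den z) := by
  have h1 := g.normSq_den_sub z
  have h0 := GeoA_den_pos g z
  rw [coe_smul, ← Complex.normSq_eq_norm_sq, ← Complex.normSq_eq_norm_sq]
  unfold SU11.mob
  rw [map_div₀, ← h1]
  field_simp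

/-- direct computation with `SU11.det'` -/
theorem mob_sub_mob (g : SU11) {z w : ℂ} (hz : ‖z‖ ≤ 1) (hw : ‖w‖ ≤ 1) :
    g.mob z - g.mob w = (z - w) / (g.den z * g.den w) := by
  have h1 := g.den_ne_zero hz
  have h2 := g.den_ne_zero hw
  have hd := g.det'
  unfold SU11.mob
  rw [div_sub_div _ _ h1 h2]
  congr 1
  unfold SU11.den
  linear_combination (z - w) * hd

theorem Qd_smul (g : SU11) (z w : 𝔻) : Qd (g • z) (g • w) = Qd z w := by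
  unfold Qd
  rw [one_sub_smul, one_sub_smul, coe_smul, coe_smul,
    mob_sub_mob g z.norm_lt_one.le w.norm_lt_one.le, norm_div, norm_mul, div_pow, mul_pow,
    ← Complex.normSq_eq_norm_sq (g.den z), ← Complex.normSq_eq_norm_sq (g.den w)]
  have h1 := (GeoA_den_pos g z).ne'
  have h2 := (GeoA_den_pos g w).ne'
  have h3 := (GeoA_pos z).ne'
  have h4 := (GeoA_pos w).ne'
  field_simp

theorem Qd_comm (z w : 𝔻) : Qd z w = Qd w z := by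
  unfold Qd
  rw [norm_sub_rev, mul_comm]

theorem Qd_nonneg (z w : 𝔻) : 0 ≤ Qd z w := by
  unfold Qd
  have h3 := GeoA_pos z
  have h4 := GeoA_pos w
  positivity

theorem Qd_self (z : 𝔻) : Qd z z = 0 := by
  unfold Qd
  simp

private theorem GeoA_key (z w : ℂ) :
    ‖1 - conj z * w‖ ^ 2 = ‖z - w‖ ^ 2 + (1 - ‖z‖ ^ 2) * (1 - ‖w‖ ^ 2) := by
  rw [← Complex.normSq_eq_norm_sq, ← Complex.normSq_eq_norm_sq, ← Complex.normSq_eq_norm_sq,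
    ← Complex.normSq_eq_norm_sq]
  have : ((normSq (1 - conj z * w) : ℝ) : ℂ) =
      ((normSq (z - w) + (1 - normSq z) * (1 - normSq w) : ℝ) : ℂ) := by
    push_cast
    rw [← Complex.mul_conj, ← Complex.mul_conj, ← Complex.mul_conj, ← Complex.mul_conj]
    simp only [map_sub, map_mul, map_one, Complex.conj_conj]
    ring
  exact_mod_cast this

private theorem GeoA_pd_sq (z w : 𝔻) :
    pd z w ^ 2 = ‖(z : ℂ) - w‖ ^ 2 / (‖(z : ℂ) - w‖ ^ 2 + (1 - ‖(z : ℂ)‖ ^ 2) * (1 - ‖(w : ℂ)‖ ^ 2)) := by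
  unfold pd
  rw [norm_div, div_pow, GeoA_key]

/-- `|1 - conj z w|^2 = |z - w|^2 + (1 - |z|^2)(1 - |w|^2)` -/
theorem one_sub_pd_sq (z w : 𝔻) : 1 - pd z w ^ 2 = 1 / (1 + Qd z w) := by
  rw [GeoA_pd_sq]
  unfold Qd
  have h3 := GeoA_pos z
  have h4 := GeoA_pos w
  have h5 : 0 < (1 - ‖(z : ℂ)‖ ^ 2) * (1 - ‖(w : ℂ)‖ ^ 2) := mul_pos h3 h4
  have h6 : 0 < ‖(z : ℂ) - w‖ ^ 2 + (1 - ‖(z : ℂ)‖ ^ 2) * (1 - ‖(w : ℂ)‖ ^ 2) := by positivity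
  generalize (1 - ‖(z : ℂ)‖ ^ 2) * (1 - ‖(w : ℂ)‖ ^ 2) = A at *
  generalize ‖(z : ℂ) - w‖ ^ 2 = B at *
  have h7 : 1 + B / A = (B + A) / A := by field_simp; ring
  rw [h7, one_div_div, eq_div_iff h6.ne', sub_mul, div_mul_cancel₀ _ h6.ne']
  ring

theorem pd_nonneg (z w : 𝔻) : 0 ≤ pd z w := norm_nonneg _

theorem pd_lt_one (z w : 𝔻) : pd z w < 1 := by
  have h := one_sub_pd_sq z w
  have h1 := Qd_nonneg z w
  have h2 : 0 < 1 / (1 + Qd z w) := by positivity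
  have h3 := pd_nonneg z w
  nlinarith

private theorem GeoA_eq_of_sq {a b : ℝ} (ha : 0 ≤ a) (hb : 0 ≤ b) (h : a ^ 2 = b ^ 2) : a = b :=
  (pow_left_inj₀ ha hb two_ne_zero).1 h

theorem pd_comm (z w : 𝔻) : pd z w = pd w z := by
  apply GeoA_eq_of_sq (pd_nonneg z w) (pd_nonneg w z)
  have h1 := one_sub_pd_sq z w
  have h2 := one_sub_pd_sq w z
  rw [Qd_comm] at h1
  linarith

theorem pd_smul (g : SU11) (z w : 𝔻) : pd (g • z) (g • w) = pd z w := by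
  apply GeoA_eq_of_sq (pd_nonneg _ _) (pd_nonneg z w)
  have h1 := one_sub_pd_sq (g • z) (g • w)
  have h2 := one_sub_pd_sq z w
  rw [Qd_smul] at h1
  linarith

theorem pd_zero_left (z : 𝔻) : pd 0 z = ‖(z : ℂ)‖ := by
  unfold pd
  simp

theorem pd_zero_right (z : 𝔻) : pd z 0 = ‖(z : ℂ)‖ := by
  rw [pd_comm, pd_zero_left]

theorem pd_eq_zero {z w : 𝔻} (h : pd z w = 0) : z = w := by
  have h1 : pd z w ^ 2 = 0 := by rw [h]; ring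
  have h2 := one_sub_pd_sq z w
  rw [h1] at h2
  have h3 := Qd_nonneg z w
  have h4 : Qd z w = 0 := by
    have h5 : (1 + Qd z w) ≠ 0 := by positivity
    rw [eq_div_iff h5] at h2
    linarith
  unfold Qd at h4
  have h6 := mul_pos (GeoA_pos z) (GeoA_pos w)
  rw [div_eq_zero_iff] at h4
  rcases h4 with h4 | h4
  · apply UnitDisc.coe_injective
    have h7 : ‖(z : ℂ) - w‖ = 0 := by
      exact pow_eq_zero_iff two_ne_zero |>.1 h4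
    exact sub_eq_zero.1 (norm_eq_zero.1 h7)
  · exact absurd h4 h6.ne'

/-- the key lower bound of the pseudohyperbolic distance -/
private theorem GeoA_lower (z w : 𝔻) :
    (‖(w : ℂ)‖ - ‖(z : ℂ)‖) ^ 2 ≤ pd z w ^ 2 * (1 - ‖(z : ℂ)‖ * ‖(w : ℂ)‖) ^ 2 := by
  have h3 := GeoA_pos z
  have h4 := GeoA_pos w
  have h5 : 0 < (1 - ‖(z : ℂ)‖ ^ 2) * (1 - ‖(w : ℂ)‖ ^ 2) := mul_pos h3 h4
  have hB : (‖(w : ℂ)‖ - ‖(z : ℂ)‖) ^ 2 ≤ ‖(z : ℂ) - w‖ ^ 2 := by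
    have h := abs_norm_sub_norm_le (z : ℂ) (w : ℂ)
    rw [← sq_abs, abs_sub_comm]
    exact pow_le_pow_left₀ (abs_nonneg _) h 2
  rw [GeoA_pd_sq, div_mul_eq_mul_div, le_div_iff₀ (by positivity)]
  have hid : (1 - ‖(z : ℂ)‖ * ‖(w : ℂ)‖) ^ 2 =
      (‖(w : ℂ)‖ - ‖(z : ℂ)‖) ^ 2 + (1 - ‖(z : ℂ)‖ ^ 2) * (1 - ‖(w : ℂ)‖ ^ 2) := by ring
  rw [hid]
  generalize (1 - ‖(z : ℂ)‖ ^ 2) * (1 - ‖(w : ℂ)‖ ^ 2) = A at *
  generalize ‖(z : ℂ) - w‖ ^ 2 = B at *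
  have hD : 0 ≤ (‖(w : ℂ)‖ - ‖(z : ℂ)‖) ^ 2 := sq_nonneg _
  generalize (‖(w : ℂ)‖ - ‖(z : ℂ)‖) ^ 2 = D at *
  nlinarith

/-- `pd z w < R` and `‖z‖ ≤ r` imply `‖w‖ ≤ (r + R)/(1 + r R)`; more simply `‖w‖ ≤ r'` -/
theorem norm_le_of_pd_lt {r R : ℝ} (hr : r < 1) (hR : R < 1) :
    ∃ r' : ℝ, r' < 1 ∧ ∀ z w : 𝔻, ‖(z : ℂ)‖ ≤ r → pd z w < R → ‖(w : ℂ)‖ ≤ r' := by
  set r0 := max r 0 with hr0
  set R0 := max R 0 with hR0
  have h1 : r0 < 1 := max_lt hr one_pos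
  have h2 : R0 < 1 := max_lt hR one_pos
  have h3 : 0 ≤ r0 := le_max_right _ _
  have h4 : 0 ≤ R0 := le_max_right _ _
  refine ⟨(r0 + R0) / (1 + r0 * R0), ?_, ?_⟩
  · rw [div_lt_one (by positivity)]
    nlinarith [mul_pos (sub_pos.2 h1) (sub_pos.2 h2)]
  · intro z w hz hzw
    have hz' : ‖(z : ℂ)‖ ≤ r0 := hz.trans (le_max_left _ _)
    have hp : pd z w ≤ R0 := hzw.le.trans (le_max_left _ _)
    have hp0 := pd_nonneg z w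
    have hl := GeoA_lower z w
    have hz1 : ‖(z : ℂ)‖ < 1 := z.norm_lt_one
    have hw1 : ‖(w : ℂ)‖ < 1 := w.norm_lt_one
    have hz0 := norm_nonneg (z : ℂ)
    have hw0 := norm_nonneg (w : ℂ)
    have hzw1 : 0 ≤ 1 - ‖(z : ℂ)‖ * ‖(w : ℂ)‖ := by nlinarith
    have hl2 : ‖(w : ℂ)‖ - ‖(z : ℂ)‖ ≤ pd z w * (1 - ‖(z : ℂ)‖ * ‖(w : ℂ)‖) := by
      apply le_of_sq_le_sq _ (mul_nonneg hp0 hzw1)
      rw [mul_pow]
      exact hl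
    have hl3 : ‖(w : ℂ)‖ - ‖(z : ℂ)‖ ≤ R0 * (1 - ‖(z : ℂ)‖ * ‖(w : ℂ)‖) :=
      hl2.trans (mul_le_mul_of_nonneg_right hp hzw1)
    rw [le_div_iff₀ (by positivity)]
    -- w (1 + R0 z) ≤ z + R0
    have h5 : ‖(w : ℂ)‖ * (1 + R0 * ‖(z : ℂ)‖) ≤ ‖(z : ℂ)‖ + R0 := by nlinarith
    -- monotone in z
    have h6 : 0 ≤ (r0 - ‖(z : ℂ)‖) * (1 - R0 * ‖(w : ℂ)‖) := by
      apply mul_nonneg (by linarith)
      nlinarith
    nlinarith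

/-- two points with `‖z‖, ‖w‖ ≤ r` have `pd z w ≤ 2 r / (1 + r^2)` -/
theorem pd_le_of_norm_le {r : ℝ} (hr0 : 0 ≤ r) (hr : r < 1) (z w : 𝔻) (hz : ‖(z : ℂ)‖ ≤ r)
    (hw : ‖(w : ℂ)‖ ≤ r) : pd z w ≤ 2 * r / (1 + r ^ 2) := by
  have hz0 := norm_nonneg (z : ℂ)
  have hw0 := norm_nonneg (w : ℂ)
  have h3 := GeoA_pos z
  have h4 := GeoA_pos w
  have h5 : 0 < (1 - ‖(z : ℂ)‖ ^ 2) * (1 - ‖(w : ℂ)‖ ^ 2) := mul_pos h3 h4
  apply le_of_sq_le_sq _ (by positivity)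
  rw [GeoA_pd_sq, div_pow, div_le_div_iff₀ (by positivity) (by positivity)]
  have hB : ‖(z : ℂ) - w‖ ≤ 2 * r := by
    have := norm_sub_le (z : ℂ) (w : ℂ)
    linarith
  have hB2 : ‖(z : ℂ) - w‖ ^ 2 ≤ (2 * r) ^ 2 := pow_le_pow_left₀ (norm_nonneg _) hB 2
  have hA : (1 - r ^ 2) ^ 2 ≤ (1 - ‖(z : ℂ)‖ ^ 2) * (1 - ‖(w : ℂ)‖ ^ 2) := by
    have hz2 : ‖(z : ℂ)‖ ^ 2 ≤ r ^ 2 := pow_le_pow_left₀ hz0 hz 2
    have hw2 : ‖(w : ℂ)‖ ^ 2 ≤ r ^ 2 := pow_le_pow_left₀ hw0 hw 2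
    have hr2 : 0 ≤ 1 - r ^ 2 := by nlinarith
    rw [sq (1 - r ^ 2)]
    exact mul_le_mul (by linarith) (by linarith) hr2 h3.le
  have hB0 : 0 ≤ ‖(z : ℂ) - w‖ ^ 2 := sq_nonneg _
  generalize (1 - ‖(z : ℂ)‖ ^ 2) * (1 - ‖(w : ℂ)‖ ^ 2) = A at *
  generalize ‖(z : ℂ) - w‖ ^ 2 = B at *
  have hid : (1 + r ^ 2) ^ 2 = (2 * r) ^ 2 + (1 - r ^ 2) ^ 2 := by ring
  rw [hid]
  generalize (2 * r) ^ 2 = C at *
  generalize hE : (1 - r ^ 2) ^ 2 = E at *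
  have hE0 : 0 ≤ E := by rw [← hE]; positivity
  nlinarith [mul_le_mul_of_nonneg_right hB2 hE0, mul_le_mul_of_nonneg_left hA (hB0.trans hB2)]

theorem dL_smul (g : SU11) (z w : 𝔻) : dL (g • z) (g • w) = dL z w := by
  unfold dL
  rw [Qd_smul]

theorem dL_comm (z w : 𝔻) : dL z w = dL w z := by
  unfold dL
  rw [Qd_comm]

theorem dL_nonneg (z w : 𝔻) : 0 ≤ dL z w :=
  Real.log_nonneg (by linarith [Qd_nonneg z w])

theorem dL_self (z : 𝔻) : dL z z = 0 := by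
  unfold dL
  rw [Qd_self]
  simp

/-- `dL z w = - log (1 - pd z w ^ 2)` -/
private theorem GeoA_dL_eq_pd (z w : 𝔻) : dL z w = -Real.log (1 - pd z w ^ 2) := by
  rw [one_sub_pd_sq, one_div, Real.log_inv, neg_neg]
  rfl

theorem dL_zero (z : 𝔻) : dL z 0 = -Real.log (1 - ‖(z : ℂ)‖ ^ 2) := by
  rw [GeoA_dL_eq_pd, pd_zero_right]

/-- `dL z w = - log (1 - pd z w ^ 2)` -/
theorem dL_eq_pd (z w : 𝔻) : dL z w = -Real.log (1 - pd z w ^ 2) := GeoA_dL_eq_pd z w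

end

end Pool.Agent.Lib.MP_b16327_pr
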