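import Pool.Agent.Lib.MP_b16327_pr.GeoA

/-! # Elementary geometry of the disc, part B -/

namespace Pool.Agent.Lib.MP_b16327_pr

open Complex MeasureTheory ComplexConjugate Filter
open scoped Complex.UnitDisc Topology BoundedContinuousFunction

noncomputable section

private lemma GeoB_pos (z : 𝔻) : 0 < 1 - ‖(z : ℂ)‖ ^ 2 := by
  have := UnitDisc.sq_norm_lt_one z
  linarith

private lemma GeoB_sqrt_ne (z : 𝔻) : ((Real.sqrt (1 - ‖(z : ℂ)‖ ^ 2) : ℝ) : ℂ) ≠ 0 := by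
  have h := Real.sqrt_pos.2 (GeoB_pos z)
  exact_mod_cast h.ne'

private lemma GeoB_tr_a (z : 𝔻) : (tr z).a = ((Real.sqrt (1 - ‖(z : ℂ)‖ ^ 2) : ℝ) : ℂ)⁻¹ := by
  simp [tr]

private lemma GeoB_tr_b (z : 𝔻) : (tr z).b = ((Real.sqrt (1 - ‖(z : ℂ)‖ ^ 2) : ℝ) : ℂ)⁻¹ * z := by
  simp [tr]

private lemma GeoB_den_ne (z w : 𝔻) : 1 + conj (z : ℂ) * (w : ℂ) ≠ 0 := by
  intro h
  have h1 : ‖conj (z : ℂ) * (w : ℂ)‖ = 1 := by
    have : conj (z : ℂ) * (w : ℂ) = -1 := by linear_combination h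
    rw [this, norm_neg, norm_one]
  rw [norm_mul, Complex.norm_conj] at h1
  have h2 := z.norm_lt_one
  have h3 := w.norm_lt_one
  nlinarith [norm_nonneg (z : ℂ), norm_nonneg (w : ℂ)]

/-- `tr z • w = (w + z) / (1 + conj z w)` -/
theorem coe_tr_smul (z w : 𝔻) : ((tr z • w : 𝔻) : ℂ) = ((w : ℂ) + z) / (1 + conj (z : ℂ) * w) := by
  rw [coe_smul]
  unfold SU11.mob SU11.den
  have hs := GeoB_sqrt_ne z
  have hd := GeoB_den_ne z w
  rw [GeoB_tr_a, GeoB_tr_b]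
  simp only [map_mul, map_inv₀, Complex.conj_ofReal]
  set s : ℂ := ((Real.sqrt (1 - ‖(z : ℂ)‖ ^ 2) : ℝ) : ℂ) with hsdef
  have e1 : s⁻¹ * (w : ℂ) + s⁻¹ * (z : ℂ) = s⁻¹ * ((w : ℂ) + z) := by ring
  have e2 : s⁻¹ * conj (z : ℂ) * (w : ℂ) + s⁻¹ = s⁻¹ * (1 + conj (z : ℂ) * w) := by ring
  rw [e1, e2, mul_div_mul_left _ _ (inv_ne_zero hs)]

theorem tr_smul_zero (z : 𝔻) : tr z • (0 : 𝔻) = z := by
  apply UnitDisc.coe_injective
  rw [coe_tr_smul, UnitDisc.coe_zero]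
  simp

theorem tr_zero : tr 0 = 1 := by
  ext
  · rw [GeoB_tr_a]; simp
  · rw [GeoB_tr_b]; simp

private lemma GeoB_rot_sq (ξ : Circle) : (rotG ξ).a * (rotG ξ).a = (ξ : ℂ) := by
  have h1 : (rotG ξ).a = Complex.exp (((ξ : ℂ).arg / 2 : ℝ) * I) := rfl
  rw [h1, ← Complex.exp_add]
  have h2 : ((((ξ : ℂ).arg / 2 : ℝ) : ℂ) * I + (((ξ : ℂ).arg / 2 : ℝ) : ℂ) * I) =
      (((ξ : ℂ).arg : ℝ) : ℂ) * I := by
    push_cast; ring
  rw [h2]
  have h3 := Complex.norm_mul_exp_arg_mul_I (ξ : ℂ)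
  rw [Circle.norm_coe, Complex.ofReal_one, one_mul] at h3
  exact h3

private lemma GeoB_rot_b (ξ : Circle) : (rotG ξ).b = 0 := rfl

private lemma GeoB_rot_mob (ξ : Circle) (z : ℂ) : (rotG ξ).mob z = ξ * z := by
  unfold SU11.mob SU11.den
  rw [GeoB_rot_b]
  simp only [map_zero, zero_mul, add_zero, zero_add]
  have h1 := (rotG ξ).det'
  rw [GeoB_rot_b, zero_mul, sub_zero] at h1
  have h2 : conj (rotG ξ).a ≠ 0 := by
    intro h
    rw [h, mul_zero] at h1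
    exact zero_ne_one h1
  rw [div_eq_iff h2, ← GeoB_rot_sq ξ]
  linear_combination (-(rotG ξ).a * z) * h1

theorem rotG_smul (ξ : Circle) (z : 𝔻) : rotG ξ • z = ξ • z := by
  apply UnitDisc.coe_injective
  rw [coe_smul, UnitDisc.coe_circle_smul, GeoB_rot_mob]

theorem rotG_smul_circle (ξ η : Circle) : rotG ξ • η = ξ * η := by
  apply Circle.coe_injective
  rw [coe_smul_circle, GeoB_rot_mob, Circle.coe_mul]

private lemma GeoB_one_le (g : SU11) : 1 ≤ normSq g.a := by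
  have h := g.det
  have h1 := normSq_nonneg g.b
  linarith

theorem Lg_nonneg (g : SU11) : 0 ≤ Lg g := Real.log_nonneg (GeoB_one_le g)

theorem Lg_one : Lg 1 = 0 := by
  simp [Lg]

theorem Lg_inv (g : SU11) : Lg g⁻¹ = Lg g := by
  unfold Lg
  rw [SU11.inv_a, normSq_conj]

theorem Lg_rotG (ξ : Circle) : Lg (rotG ξ) = 0 := by
  unfold Lg
  have h := (rotG ξ).det
  rw [GeoB_rot_b, map_zero, sub_zero] at h
  rw [h, Real.log_one]

/-- `|a_{gh}| ≤ |a_g||a_h| + |b_g||b_h| ≤ 2 |a_g||a_h|` -/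
theorem Lg_mul_le (g h : SU11) : Lg (g * h) ≤ Lg g + Lg h + Real.log 4 := by
  unfold Lg
  have hg := GeoB_one_le g
  have hh := GeoB_one_le h
  have hgh := GeoB_one_le (g * h)
  rw [← Real.log_mul (by positivity) (by positivity), ← Real.log_mul (by positivity) (by norm_num)]
  apply Real.log_le_log (by linarith)
  rw [SU11.mul_a]
  simp only [Complex.normSq_eq_norm_sq]
  have h1 : ‖g.a * h.a + g.b * conj h.b‖ ≤ 2 * (‖g.a‖ * ‖h.a‖) := by
    refine (norm_add_le _ _).trans ?_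
    rw [norm_mul, norm_mul, Complex.norm_conj]
    have h2 : ‖g.b‖ * ‖h.b‖ ≤ ‖g.a‖ * ‖h.a‖ :=
      mul_le_mul g.norm_b_lt.le h.norm_b_lt.le (norm_nonneg _) (norm_nonneg _)
    linarith
  calc ‖g.a * h.a + g.b * conj h.b‖ ^ 2 ≤ (2 * (‖g.a‖ * ‖h.a‖)) ^ 2 :=
        pow_le_pow_left₀ (norm_nonneg _) h1 2
    _ = ‖g.a‖ ^ 2 * ‖h.a‖ ^ 2 * 4 := by ring

theorem Lg_le_mul (g h : SU11) : Lg g ≤ Lg (g * h) + Lg h + Real.log 4 := by
  have h1 := Lg_mul_le (g * h) h⁻¹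
  rwa [mul_inv_cancel_right, Lg_inv] at h1

private lemma GeoB_one_sub (g : SU11) :
    1 - ‖((g • (0 : 𝔻) : 𝔻) : ℂ)‖ ^ 2 = 1 / normSq g.a := by
  rw [one_sub_smul]
  unfold SU11.den
  simp

theorem one_sub_norm_smul_zero (g : SU11) :
    1 - ‖((g • (0 : 𝔻) : 𝔻) : ℂ)‖ ^ 2 = Real.exp (-Lg g) := by
  have h := GeoB_one_le g
  rw [GeoB_one_sub]
  unfold Lg
  rw [Real.exp_neg, Real.exp_log (by linarith), one_div]

/-- `1 - |g 0|^2 = 1 / |a|^2` -/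
theorem dL_smul_zero (g : SU11) : dL (g • (0 : 𝔻)) 0 = Lg g := by
  rw [dL_zero, one_sub_norm_smul_zero, Real.log_exp, neg_neg]

private lemma GeoB_dL_eq (x y : 𝔻) : dL x y = Lg ((tr y)⁻¹ * tr x) := by
  have h := dL_smul (tr y) ((tr y)⁻¹ • x) 0
  rw [smul_inv_smul, tr_smul_zero] at h
  rw [← dL_smul_zero, mul_smul, tr_smul_zero, h]

/-- from `Lg_mul_le` applied to `(tr x)⁻¹ * tr y` and `(tr y)⁻¹ * tr z` -/
theorem dL_triangle (x y z : 𝔻) : dL x z ≤ dL x y + dL y z + Real.log 4 := by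
  rw [GeoB_dL_eq x z, GeoB_dL_eq x y, GeoB_dL_eq y z]
  have h := Lg_mul_le ((tr z)⁻¹ * tr y) ((tr y)⁻¹ * tr x)
  have e : (tr z)⁻¹ * tr y * ((tr y)⁻¹ * tr x) = (tr z)⁻¹ * tr x := by group
  rw [e] at h
  linarith

/-- the stabilizer of `0` consists of rotations -/
theorem exists_rot {g h : SU11} (hg : g • (0 : 𝔻) = h • (0 : 𝔻)) :
    ∃ ξ : Circle, ∀ z : 𝔻, g • z = h • (ξ • z) := by
  set k : SU11 := h⁻¹ * g with hk
  have hk0 : k • (0 : 𝔻) = 0 := by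
    rw [hk, mul_smul, hg, inv_smul_smul]
  have hb : k.b = 0 := by
    have h1 : ((k • (0 : 𝔻) : 𝔻) : ℂ) = 0 := by rw [hk0, UnitDisc.coe_zero]
    rw [coe_smul] at h1
    unfold SU11.mob SU11.den at h1
    rw [UnitDisc.coe_zero, mul_zero, mul_zero, zero_add, zero_add, div_eq_zero_iff] at h1
    rcases h1 with h1 | h1
    · exact h1
    · exfalso
      have : k.a = 0 := by simpa using h1
      exact k.a_ne_zero this
  have hdet : k.a * conj k.a = 1 := by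
    have h1 := k.det'
    rwa [hb, zero_mul, sub_zero] at h1
  have hnorm : ‖k.a * k.a‖ = 1 := by
    have h1 := k.det
    rw [hb, map_zero, sub_zero, Complex.normSq_eq_norm_sq] at h1
    rw [norm_mul, ← sq, h1]
  obtain ⟨ξ, hξ⟩ : ∃ ξ : Circle, (ξ : ℂ) = k.a * k.a :=
    ⟨⟨k.a * k.a, mem_sphere_zero_iff_norm.2 hnorm⟩, rfl⟩
  refine ⟨ξ, fun z => ?_⟩
  have hgk : g = h * k := by rw [hk]; group
  rw [hgk, mul_smul]
  congr 1
  apply UnitDisc.coe_injective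
  rw [coe_smul, UnitDisc.coe_circle_smul]
  unfold SU11.mob SU11.den
  rw [hb]
  simp only [map_zero, zero_mul, add_zero, zero_add]
  have h2 : conj k.a ≠ 0 := by
    intro h3
    rw [h3, mul_zero] at hdet
    exact zero_ne_one hdet
  rw [div_eq_iff h2]
  rw [hξ]
  linear_combination (-(k.a) * z) * hdet

end

end Pool.Agent.Lib.MP_b16327_pr
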