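import Pool.Agent.Lib.MP_b16327_pr.GeoB

/-! # Elementary geometry of the disc, part C -/

namespace Pool.Agent.Lib.MP_b16327_pr

open Complex MeasureTheory ComplexConjugate Filter
open scoped Complex.UnitDisc Topology BoundedContinuousFunction

noncomputable section

private theorem GeoC_norm_lt (z w : 𝔻) : ‖conj (z : ℂ) * (w : ℂ)‖ < 1 := by
  rw [norm_mul, Complex.norm_conj]
  have h1 := z.norm_lt_one
  have h2 := w.norm_lt_one
  nlinarith [norm_nonneg (z : ℂ), norm_nonneg (w : ℂ)]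

theorem continuous_smul_disc (g : SU11) : Continuous (fun z : 𝔻 => g • z) := by
  rw [UnitDisc.isEmbedding_coe.continuous_iff]
  change Continuous (fun z : 𝔻 => ((g • z : 𝔻) : ℂ))
  simp only [coe_smul, SU11.mob, SU11.den]
  refine Continuous.div ?_ ?_ fun z => g.den_ne_zero z.norm_lt_one.le
  · exact (continuous_const.mul UnitDisc.continuous_coe).add continuous_const
  · exact (continuous_const.mul UnitDisc.continuous_coe).add continuous_const

theorem continuous_tr_smul : Continuous (fun p : 𝔻 × 𝔻 => tr p.1 • p.2) := by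
  rw [UnitDisc.isEmbedding_coe.continuous_iff]
  change Continuous (fun p : 𝔻 × 𝔻 => ((tr p.1 • p.2 : 𝔻) : ℂ))
  simp only [coe_tr_smul]
  have h1 : Continuous (fun p : 𝔻 × 𝔻 => ((p.1 : 𝔻) : ℂ)) :=
    UnitDisc.continuous_coe.comp continuous_fst
  have h2 : Continuous (fun p : 𝔻 × 𝔻 => ((p.2 : 𝔻) : ℂ)) :=
    UnitDisc.continuous_coe.comp continuous_snd
  refine Continuous.div (h2.add h1)
    (continuous_const.add ((Complex.continuous_conj.comp h1).mul h2)) fun p => ?_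
  have h3 := GeoC_norm_lt p.1 p.2
  intro h0
  have h4 : conj (p.1 : ℂ) * (p.2 : ℂ) = -1 := by linear_combination h0
  rw [h4, norm_neg, norm_one] at h3
  exact lt_irrefl _ h3

theorem continuous_rot_smul : Continuous (fun p : Circle × 𝔻 => p.1 • p.2) := by
  rw [UnitDisc.isEmbedding_coe.continuous_iff]
  change Continuous (fun p : Circle × 𝔻 => ((p.1 • p.2 : 𝔻) : ℂ))
  simp only [UnitDisc.coe_circle_smul]
  exact ((continuous_subtype_val : Continuous (fun ξ : Circle => (ξ : ℂ))).comp continuous_fst).mul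
    (UnitDisc.continuous_coe.comp continuous_snd)

theorem continuous_pd : Continuous (fun p : 𝔻 × 𝔻 => pd p.1 p.2) := by
  unfold pd
  have h1 : Continuous (fun p : 𝔻 × 𝔻 => ((p.1 : 𝔻) : ℂ)) :=
    UnitDisc.continuous_coe.comp continuous_fst
  have h2 : Continuous (fun p : 𝔻 × 𝔻 => ((p.2 : 𝔻) : ℂ)) :=
    UnitDisc.continuous_coe.comp continuous_snd
  refine (Continuous.div (h1.sub h2)
    (continuous_const.sub ((Complex.continuous_conj.comp h1).mul h2)) fun p => ?_).norm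
  have h3 := GeoC_norm_lt p.1 p.2
  intro h0
  change (1 : ℂ) - conj (p.1 : ℂ) * (p.2 : ℂ) = 0 at h0
  have h4 : conj (p.1 : ℂ) * (p.2 : ℂ) = 1 := by linear_combination -h0
  rw [h4, norm_one] at h3
  exact lt_irrefl _ h3

theorem continuous_dL : Continuous (fun p : 𝔻 × 𝔻 => dL p.1 p.2) := by
  unfold dL
  have h1 : Continuous (fun p : 𝔻 × 𝔻 => ((p.1 : 𝔻) : ℂ)) :=
    UnitDisc.continuous_coe.comp continuous_fst
  have h2 : Continuous (fun p : 𝔻 × 𝔻 => ((p.2 : 𝔻) : ℂ)) :=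
    UnitDisc.continuous_coe.comp continuous_snd
  have h3 : Continuous (fun p : 𝔻 × 𝔻 => Qd p.1 p.2) := by
    unfold Qd
    refine Continuous.div ((h1.sub h2).norm.pow 2)
      ((continuous_const.sub (h1.norm.pow 2)).mul (continuous_const.sub (h2.norm.pow 2)))
      fun p => ?_
    have e1 := UnitDisc.sq_norm_lt_one p.1
    have e2 := UnitDisc.sq_norm_lt_one p.2
    have e3 : 0 < 1 - ‖(p.1 : ℂ)‖ ^ 2 := by linarith
    have e4 : 0 < 1 - ‖(p.2 : ℂ)‖ ^ 2 := by linarith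
    positivity
  refine Continuous.log (continuous_const.add h3) fun p => ?_
  have := Qd_nonneg p.1 p.2
  linarith

/-- closed discs are compact -/
theorem isCompact_closedBallD {r : ℝ} (hr : r < 1) : IsCompact {z : 𝔻 | ‖(z : ℂ)‖ ≤ r} := by
  rw [UnitDisc.isEmbedding_coe.isCompact_iff]
  have h1 : (UnitDisc.coe '' {z : 𝔻 | ‖(z : ℂ)‖ ≤ r}) = Metric.closedBall (0 : ℂ) r := by
    ext w
    constructor
    · rintro ⟨z, hz, rfl⟩
      rw [mem_closedBall_zero_iff]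
      exact hz
    · intro hw
      rw [mem_closedBall_zero_iff] at hw
      exact ⟨UnitDisc.mk w (lt_of_le_of_lt hw hr), hw, rfl⟩
  rw [h1]
  exact isCompact_closedBall _ _

theorem isCompact_subset {K : Set 𝔻} (hK : IsCompact K) : ∃ r : ℝ, 0 ≤ r ∧ r < 1 ∧
    ∀ z ∈ K, ‖(z : ℂ)‖ ≤ r := by
  rcases K.eq_empty_or_nonempty with rfl | hne
  · exact ⟨0, le_rfl, one_pos, fun z hz => absurd hz (Set.notMem_empty z)⟩
  · obtain ⟨z₀, _, hmax⟩ := hK.exists_isMaxOn hne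
      (f := fun z : 𝔻 => ‖(z : ℂ)‖) (UnitDisc.continuous_coe.norm).continuousOn
    exact ⟨‖(z₀ : ℂ)‖, norm_nonneg _, z₀.norm_lt_one, fun z hz => hmax hz⟩

/-- the real points `x ∈ (-1, 1)` of the disc: `At t • 0 = tanh (t/2)` -/
theorem At_smul_zero (t : ℝ) : ((At t • (0 : 𝔻) : 𝔻) : ℂ) = (Real.tanh (t / 2) : ℝ) := by
  rw [coe_smul]
  unfold SU11.mob SU11.den At
  simp only [UnitDisc.coe_zero, mul_zero, zero_add, Complex.conj_ofReal]
  rw [← Complex.ofReal_div, Real.tanh_eq_sinh_div_cosh]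

theorem At_add (s t : ℝ) : At (s + t) = At s * At t := by
  have h : (s + t) / 2 = s / 2 + t / 2 := by ring
  ext
  · change ((Real.cosh ((s + t) / 2) : ℝ) : ℂ) = ((Real.cosh (s / 2) : ℝ) : ℂ) *
      ((Real.cosh (t / 2) : ℝ) : ℂ) + ((Real.sinh (s / 2) : ℝ) : ℂ) *
      conj ((Real.sinh (t / 2) : ℝ) : ℂ)
    rw [Complex.conj_ofReal, h, Real.cosh_add]
    push_cast
    ring
  · change ((Real.sinh ((s + t) / 2) : ℝ) : ℂ) = ((Real.cosh (s / 2) : ℝ) : ℂ) *
      ((Real.sinh (t / 2) : ℝ) : ℂ) + ((Real.sinh (s / 2) : ℝ) : ℂ) *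
      conj ((Real.cosh (t / 2) : ℝ) : ℂ)
    rw [Complex.conj_ofReal, h, Real.sinh_add]
    push_cast
    ring

theorem At_zero : At 0 = 1 := by
  ext
  · change ((Real.cosh (0 / 2) : ℝ) : ℂ) = 1
    simp
  · change ((Real.sinh (0 / 2) : ℝ) : ℂ) = 0
    simp

/-- polar form: every point is `ξ • (At t • 0)` with `0 ≤ t` and `t ≤ dL z 0 + log 4` -/
theorem exists_polar (z : 𝔻) : ∃ (ξ : Circle) (t : ℝ), 0 ≤ t ∧ z = ξ • (At t • (0 : 𝔻)) ∧
    t ≤ dL z 0 + Real.log 4 := by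
  obtain ⟨r, hr⟩ : ∃ r : ℝ, r = ‖(z : ℂ)‖ := ⟨_, rfl⟩
  have hr0 : 0 ≤ r := hr ▸ norm_nonneg _
  have hr1 : r < 1 := hr ▸ z.norm_lt_one
  have hmem : r ∈ Set.Ioo (-1 : ℝ) 1 := ⟨by linarith, hr1⟩
  have hξ : ∃ ξ : Circle, (z : ℂ) = ξ * (r : ℂ) := by
    by_cases h0 : (z : ℂ) = 0
    · refine ⟨1, ?_⟩
      rw [hr, h0, norm_zero, Complex.ofReal_zero, mul_zero]
    · have hn : ‖(z : ℂ)‖ ≠ 0 := norm_ne_zero_iff.2 h0
      refine ⟨⟨(z : ℂ) / (‖(z : ℂ)‖ : ℝ), mem_sphere_zero_iff_norm.2 ?_⟩, ?_⟩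
      · rw [norm_div, Complex.norm_real, norm_norm, div_self hn]
      · change (z : ℂ) = (z : ℂ) / (‖(z : ℂ)‖ : ℝ) * (r : ℂ)
        rw [hr, div_mul_cancel₀]
        exact_mod_cast hn
  obtain ⟨ξ, hξ⟩ := hξ
  refine ⟨ξ, 2 * Real.artanh r, by have := Real.artanh_nonneg hr0; positivity, ?_, ?_⟩
  · apply UnitDisc.coe_injective
    rw [UnitDisc.coe_circle_smul, At_smul_zero, mul_div_cancel_left₀ _ two_ne_zero,
      Real.tanh_artanh hmem]
    exact hξ
  · rw [dL_zero, Real.artanh_eq_half_log ⟨by linarith, hr1.le⟩, ← hr]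
    have h1 : (0 : ℝ) < 1 - r := by linarith
    have h2 : (0 : ℝ) < 1 + r := by linarith
    have e1 : 1 - r ^ 2 = (1 + r) * (1 - r) := by ring
    rw [e1, Real.log_div h2.ne' h1.ne', Real.log_mul h2.ne' h1.ne']
    have h3 : Real.log (1 + r) ≤ Real.log 2 := Real.log_le_log h2 (by linarith)
    have h4 : Real.log 4 = 2 * Real.log 2 := by
      rw [show (4 : ℝ) = 2 ^ 2 by norm_num, Real.log_pow]
      push_cast
      ring
    rw [h4]
    linarith

end

end Pool.Agent.Lib.MP_b16327_pr
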