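import Pool.Agent.Lib.MP_b16327_pr.CmvB

/-! # The truncated Green operator: basic properties -/

namespace Pool.Agent.Lib.MP_b16327_pr

open Complex MeasureTheory ComplexConjugate Filter
open scoped Complex.UnitDisc Topology BoundedContinuousFunction

noncomputable section

variable {E : Type*} [NormedAddCommGroup E] [NormedSpace ℝ E] [CompleteSpace E]

/-- truncated Green kernel `log⁺ (ρ / t)` -/
def gk (ρ t : ℝ) : ℝ := max 0 (Real.log ρ - Real.log t)

/-- averaged kernel -/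
def Hk (R t : ℝ) : ℝ := (area.real (ballD R))⁻¹ * ∫ y in ballD R, gk ‖(y : ℂ)‖ t ∂area

/-- the smoothing operator `𝒢_m` -/
def Gm (R : ℝ) (u : 𝔻 → E) (z : 𝔻) : E := ∫ w : 𝔻, Hk R (pd z w) • u w ∂area

/-- the constant `𝒢_m 1` -/
def c1 (R : ℝ) : ℝ := ∫ w : 𝔻, Hk R ‖(w : ℂ)‖ ∂area

set_option linter.unusedSectionVars false

theorem GreenA_gk_nonneg (ρ t : ℝ) : 0 ≤ gk ρ t := le_max_left _ _

theorem GreenA_ae_ne_zero : ∀ᵐ w : 𝔻 ∂area, ‖(w : ℂ)‖ ≠ 0 := by
  rw [ae_iff]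
  simpa using area_circle 0

theorem Hk_nonneg (R t : ℝ) : 0 ≤ Hk R t :=
  mul_nonneg (inv_nonneg.2 measureReal_nonneg)
    (integral_nonneg (fun _ => GreenA_gk_nonneg _ _))

theorem Hk_eq_zero {R t : ℝ} (ht : R ≤ t) (hR : 0 < R) : Hk R t = 0 := by
  have h1 : ∫ y in ballD R, gk ‖(y : ℂ)‖ t ∂area = 0 := by
    apply integral_eq_zero_of_ae
    have h2 : ∀ᵐ y : 𝔻 ∂(area.restrict (ballD R)), ‖(y : ℂ)‖ ≠ 0 :=
      ae_restrict_of_ae GreenA_ae_ne_zero
    filter_upwards [h2, ae_restrict_mem (measurableSet_ballD R)] with y hy0 hy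
    have hy1 : ‖(y : ℂ)‖ < R := hy
    have hy2 : 0 < ‖(y : ℂ)‖ := lt_of_le_of_ne (norm_nonneg _) (Ne.symm hy0)
    change max 0 (Real.log ‖(y : ℂ)‖ - Real.log t) = 0
    apply max_eq_left
    have := Real.log_le_log hy2 (hy1.le.trans ht)
    linarith
  unfold Hk
  rw [h1, mul_zero]

theorem GreenA_gk_le {y : 𝔻} {t : ℝ} (ht : 0 < t) (ht1 : t ≤ 1) : gk ‖(y : ℂ)‖ t ≤ -Real.log t := by
  have h1 : Real.log ‖(y : ℂ)‖ ≤ 0 := Real.log_nonpos (norm_nonneg _) y.norm_lt_one.le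
  have h2 : Real.log t ≤ 0 := Real.log_nonpos ht.le ht1
  unfold gk
  apply max_le <;> linarith

/-- `Hk R t ≤ log (1/t)` for `0 < t ≤ 1`, `R ≤ 1` -/
theorem Hk_le {R t : ℝ} (hR0 : 0 < R) (hR : R < 1) (ht : 0 < t) (ht1 : t ≤ 1) :
    Hk R t ≤ -Real.log t := by
  have hp := AvA_real_pos hR0 hR
  have h1 : ‖∫ y in ballD R, gk ‖(y : ℂ)‖ t ∂area‖ ≤ (-Real.log t) * area.real (ballD R) := by
    apply norm_setIntegral_le_of_norm_le_const (area_ballD_lt_top hR)
    intro y _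
    rw [Real.norm_of_nonneg (GreenA_gk_nonneg _ _)]
    exact GreenA_gk_le ht ht1
  unfold Hk
  calc (area.real (ballD R))⁻¹ * ∫ y in ballD R, gk ‖(y : ℂ)‖ t ∂area
      ≤ (area.real (ballD R))⁻¹ * ((-Real.log t) * area.real (ballD R)) :=
        mul_le_mul_of_nonneg_left ((Real.le_norm_self _).trans h1) (inv_nonneg.2 hp.le)
    _ = -Real.log t := by field_simp

theorem GreenA_measurable_gk : Measurable (fun p : ℝ × ℝ => gk p.1 p.2) := by
  unfold gk
  exact measurable_const.max ((Real.measurable_log.comp measurable_fst).sub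
    (Real.measurable_log.comp measurable_snd))

theorem GreenA_measurable_norm : Measurable (fun w : 𝔻 => ‖(w : ℂ)‖) :=
  UnitDisc.continuous_coe.norm.measurable

theorem Hk_measurable (R : ℝ) : Measurable (Hk R) := by
  have h1 : Measurable (Function.uncurry (fun (t : ℝ) (y : 𝔻) => gk ‖(y : ℂ)‖ t)) :=
    GreenA_measurable_gk.comp
      ((GreenA_measurable_norm.comp measurable_snd).prodMk measurable_fst)
  have h2 := (h1.stronglyMeasurable.integral_prod_right (ν := area.restrict (ballD R))).measurable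
  exact h2.const_mul _

theorem GreenA_integrable {R : ℝ} (hR0 : 0 < R) (hR : R < 1) {u : 𝔻 → E} (hu : Continuous u) :
    Integrable (fun w : 𝔻 => Hk R ‖(w : ℂ)‖ • u w) area := by
  have hsupp : Function.support (fun w : 𝔻 => Hk R ‖(w : ℂ)‖ • u w) ⊆ ballD R := by
    intro w hw
    by_contra h
    apply hw
    have h1 : R ≤ ‖(w : ℂ)‖ := not_lt.1 h
    change Hk R ‖(w : ℂ)‖ • u w = 0
    rw [Hk_eq_zero h1 hR0, zero_smul]
  rw [← integrableOn_iff_integrable_of_support_subset hsupp]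
  obtain ⟨C, hC⟩ := (isCompact_closedBallD hR).exists_bound_of_continuousOn hu.continuousOn
  have hm : AEStronglyMeasurable (fun w : 𝔻 => Hk R ‖(w : ℂ)‖ • u w)
      (area.restrict (ballD R)) :=
    (((Hk_measurable R).comp GreenA_measurable_norm).aestronglyMeasurable).smul
      hu.aestronglyMeasurable
  have hb : IntegrableOn (fun w : 𝔻 => (-Real.log ‖(w : ℂ)‖) * C) (ballD R) area :=
    ((integrable_log_norm hR).neg).mul_const C
  refine Integrable.mono' hb hm ?_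
  have h2 : ∀ᵐ y : 𝔻 ∂(area.restrict (ballD R)), ‖(y : ℂ)‖ ≠ 0 :=
    ae_restrict_of_ae GreenA_ae_ne_zero
  filter_upwards [h2, ae_restrict_mem (measurableSet_ballD R)] with w hw0 hw
  have hw1 : ‖(w : ℂ)‖ < R := hw
  have hw2 : 0 < ‖(w : ℂ)‖ := lt_of_le_of_ne (norm_nonneg _) (Ne.symm hw0)
  rw [norm_smul, Real.norm_of_nonneg (Hk_nonneg _ _)]
  exact mul_le_mul (Hk_le hR0 hR hw2 w.norm_lt_one.le) (hC w hw1.le) (norm_nonneg _)
    (by have := Real.log_nonpos hw2.le w.norm_lt_one.le; linarith)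

theorem integrable_Hk {R : ℝ} (hR0 : 0 < R) (hR : R < 1) {u : 𝔻 → E} (hu : Continuous u) (z : 𝔻) :
    Integrable (fun w : 𝔻 => Hk R (pd z w) • u w) area := by
  rw [← (measurePreserving_smul (tr z)).integrable_comp_emb (AvA_measurableEmbedding (tr z))]
  have h1 : (fun w : 𝔻 => Hk R (pd z w) • u w) ∘ (fun w : 𝔻 => tr z • w) =
      fun w : 𝔻 => Hk R ‖(w : ℂ)‖ • u (tr z • w) := by
    funext w
    simp only [Function.comp_apply, AvA_pd_tr]
  rw [h1]
  exact GreenA_integrable hR0 hR (hu.comp (AvA_continuous_tr_smul z))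

theorem GreenA_Gm_eq (R : ℝ) (u : 𝔻 → E) (z : 𝔻) :
    Gm R u z = ∫ w : 𝔻, Hk R ‖(w : ℂ)‖ • u (tr z • w) ∂area := by
  unfold Gm
  rw [← integral_smul_area (tr z) (fun w : 𝔻 => Hk R (pd z w) • u w)]
  simp only [AvA_pd_tr]

theorem GreenA_Hk_pos {R t : ℝ} (hR0 : 0 < R) (hR : R < 1) (ht : 0 < t) (htR : t < R) :
    0 < Hk R t := by
  unfold Hk
  apply mul_pos (inv_pos.2 (AvA_real_pos hR0 hR))
  have hfin : IsFiniteMeasure (area.restrict (ballD R)) :=
    ⟨by rw [Measure.restrict_apply_univ]; exact area_ballD_lt_top hR⟩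
  have hm : Measurable (fun y : 𝔻 => gk ‖(y : ℂ)‖ t) :=
    GreenA_measurable_gk.comp (GreenA_measurable_norm.prodMk measurable_const)
  have hint : Integrable (fun y : 𝔻 => gk ‖(y : ℂ)‖ t) (area.restrict (ballD R)) := by
    refine Integrable.mono' (integrable_const (-Real.log t)) hm.aestronglyMeasurable ?_
    filter_upwards with y
    rw [Real.norm_of_nonneg (GreenA_gk_nonneg _ _)]
    exact GreenA_gk_le ht (htR.trans hR).le
  rw [integral_pos_iff_support_of_nonneg (fun _ => GreenA_gk_nonneg _ _) hint]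
  have hopen : IsOpen ({y : 𝔻 | t < ‖(y : ℂ)‖} ∩ ballD R) :=
    (isOpen_lt continuous_const UnitDisc.continuous_coe.norm).inter (isOpen_ballD R)
  have hne : ({y : 𝔻 | t < ‖(y : ℂ)‖} ∩ ballD R).Nonempty := by
    have h1 : ‖(((t + R) / 2 : ℝ) : ℂ)‖ = (t + R) / 2 := by
      rw [Complex.norm_real, Real.norm_of_nonneg (by linarith)]
    refine ⟨UnitDisc.mk (((t + R) / 2 : ℝ) : ℂ) (by rw [h1]; linarith), ?_, ?_⟩
    · change t < ‖(((t + R) / 2 : ℝ) : ℂ)‖
      rw [h1]; linarith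
    · change ‖(((t + R) / 2 : ℝ) : ℂ)‖ < R
      rw [h1]; linarith
  have hpos : 0 < area ({y : 𝔻 | t < ‖(y : ℂ)‖} ∩ ballD R) := hopen.measure_pos area hne
  rw [← Measure.restrict_apply (isOpen_lt continuous_const
    UnitDisc.continuous_coe.norm).measurableSet] at hpos
  refine hpos.trans_le (measure_mono ?_)
  intro y hy
  have hy1 : t < ‖(y : ℂ)‖ := hy
  have h2 : 0 < Real.log ‖(y : ℂ)‖ - Real.log t := by
    have := Real.log_lt_log ht hy1
    linarith
  change gk ‖(y : ℂ)‖ t ≠ 0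
  unfold gk
  rw [max_eq_right h2.le]
  exact h2.ne'

theorem GreenA_integrable_Hk_norm {R : ℝ} (hR0 : 0 < R) (hR : R < 1) :
    Integrable (fun w : 𝔻 => Hk R ‖(w : ℂ)‖) area := by
  have h := GreenA_integrable hR0 hR (continuous_const (y := (1 : ℝ)))
  simpa using h

theorem c1_pos {R : ℝ} (hR0 : 0 < R) (hR : R < 1) : 0 < c1 R := by
  unfold c1
  rw [integral_pos_iff_support_of_nonneg (fun _ => Hk_nonneg _ _)
    (GreenA_integrable_Hk_norm hR0 hR)]
  have h0 : area {w : 𝔻 | ‖(w : ℂ)‖ = 0} = 0 := area_circle 0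
  have h1 : area (ballD R \ {w : 𝔻 | ‖(w : ℂ)‖ = 0}) = area (ballD R) := measure_sdiff_null h0
  have h2 : 0 < area (ballD R \ {w : 𝔻 | ‖(w : ℂ)‖ = 0}) := by
    rw [h1]
    exact area_ballD_pos hR0
  refine h2.trans_le (measure_mono ?_)
  intro w hw
  have hw1 : ‖(w : ℂ)‖ < R := hw.1
  have hw2 : ‖(w : ℂ)‖ ≠ 0 := hw.2
  exact (GreenA_Hk_pos hR0 hR (lt_of_le_of_ne (norm_nonneg _) (Ne.symm hw2)) hw1).ne'

theorem Gm_const {R : ℝ} (hR0 : 0 < R) (hR : R < 1) (c : E) (z : 𝔻) :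
    Gm R (fun _ => c) z = c1 R • c := by
  rw [GreenA_Gm_eq]
  exact integral_smul_const _ _

theorem Gm_smul (R : ℝ) (u : 𝔻 → E) (g : SU11) (z : 𝔻) :
    Gm R u (g • z) = Gm R (fun w => u (g • w)) z := by
  unfold Gm
  rw [← integral_smul_area g (fun w : 𝔻 => Hk R (pd (g • z) w) • u w)]
  simp only [pd_smul]

theorem Gm_add {R : ℝ} (hR0 : 0 < R) (hR : R < 1) {u v : 𝔻 → E} (hu : Continuous u)
    (hv : Continuous v) (z : 𝔻) : Gm R (fun w => u w + v w) z = Gm R u z + Gm R v z := by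
  unfold Gm
  rw [← integral_add (integrable_Hk hR0 hR hu z) (integrable_Hk hR0 hR hv z)]
  simp only [smul_add]

theorem GreenA_integral_Hk {R : ℝ} (hR0 : 0 < R) (hR : R < 1) (z : 𝔻) :
    ∫ w : 𝔻, Hk R (pd z w) ∂area = c1 R := by
  have h := Gm_const hR0 hR (1 : ℝ) z
  unfold Gm at h
  simpa using h

theorem GreenA_integrable_Hk_pd {R : ℝ} (hR0 : 0 < R) (hR : R < 1) (z : 𝔻) :
    Integrable (fun w : 𝔻 => Hk R (pd z w)) area := by
  have h := integrable_Hk hR0 hR (continuous_const (y := (1 : ℝ))) z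
  simpa using h

/-- if `‖u w - c‖ ≤ C` on the ball about `z`, then `‖𝒢 u (z) - c₁ c‖ ≤ c₁ C` -/
theorem norm_Gm_sub_le {R : ℝ} (hR0 : 0 < R) (hR : R < 1) {u : 𝔻 → E} (hu : Continuous u)
    {z : 𝔻} {c : E} {C : ℝ} (hC : ∀ w : 𝔻, pd z w < R → ‖u w - c‖ ≤ C) :
    ‖Gm R u z - c1 R • c‖ ≤ c1 R * C := by
  have h1 : Gm R u z - c1 R • c = ∫ w : 𝔻, Hk R (pd z w) • (u w - c) ∂area := by
    rw [← Gm_const hR0 hR c z]
    unfold Gm
    rw [← integral_sub (integrable_Hk hR0 hR hu z)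
      (integrable_Hk hR0 hR (continuous_const (y := c)) z)]
    simp only [smul_sub]
  rw [h1, ← GreenA_integral_Hk hR0 hR z, ← integral_mul_const]
  apply norm_integral_le_of_norm_le ((GreenA_integrable_Hk_pd hR0 hR z).mul_const C)
  filter_upwards with w
  rw [norm_smul, Real.norm_of_nonneg (Hk_nonneg _ _)]
  by_cases h : pd z w < R
  · exact mul_le_mul_of_nonneg_left (hC w h) (Hk_nonneg _ _)
  · rw [Hk_eq_zero (not_lt.1 h) hR0, zero_mul, zero_mul]

theorem GreenA_continuous_tr (w : 𝔻) : Continuous (fun z : 𝔻 => tr z • w) := by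
  have h0 : Continuous (fun z : 𝔻 => (z, w)) := continuous_id.prodMk continuous_const
  have h1 := continuous_tr_smul.comp h0
  simpa only [Function.comp_def] using h1

/-- `Gm R u z = ∫ Hk R ‖w‖ • u (tr z • w)` and dominated convergence -/
theorem continuous_Gm {R : ℝ} (hR0 : 0 < R) (hR : R < 1) {u : 𝔻 → E} (hu : Continuous u) :
    Continuous (Gm R u) := by
  have h0 : Gm R u = fun z => ∫ w : 𝔻, Hk R ‖(w : ℂ)‖ • u (tr z • w) ∂area := by
    funext z
    exact GreenA_Gm_eq R u z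
  rw [h0, continuous_iff_continuousAt]
  intro z₀
  obtain ⟨U, hUc, hU⟩ := exists_compact_mem_nhds z₀
  have hcont : Continuous (fun p : 𝔻 × 𝔻 => u (tr p.1 • p.2)) := hu.comp continuous_tr_smul
  obtain ⟨C, hC⟩ := (hUc.prod (isCompact_closedBallD hR)).exists_bound_of_continuousOn
    hcont.continuousOn
  have hHm : Measurable (fun w : 𝔻 => Hk R ‖(w : ℂ)‖) :=
    (Hk_measurable R).comp GreenA_measurable_norm
  refine continuousAt_of_dominated (bound := fun w => Hk R ‖(w : ℂ)‖ * C) ?_ ?_ ?_ ?_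
  · filter_upwards with z
    exact hHm.aestronglyMeasurable.smul
      (hu.comp (AvA_continuous_tr_smul z)).aestronglyMeasurable
  · filter_upwards [hU] with z hz
    filter_upwards with w
    rw [norm_smul, Real.norm_of_nonneg (Hk_nonneg _ _)]
    by_cases h : ‖(w : ℂ)‖ < R
    · exact mul_le_mul_of_nonneg_left (hC (z, w) ⟨hz, h.le⟩) (Hk_nonneg _ _)
    · rw [Hk_eq_zero (not_lt.1 h) hR0, zero_mul, zero_mul]
  · exact (GreenA_integrable_Hk_norm hR0 hR).mul_const C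
  · filter_upwards with w
    have h1 : Continuous (fun z : 𝔻 => u (tr z • w)) := hu.comp (GreenA_continuous_tr w)
    have h2 : Continuous (fun z : 𝔻 => Hk R ‖(w : ℂ)‖ • u (tr z • w)) := h1.const_smul _
    exact h2.continuousAt

theorem Gm_mono {R : ℝ} (hR0 : 0 < R) (hR : R < 1) {u v : 𝔻 → ℝ} (hu : Continuous u)
    (hv : Continuous v) {z : 𝔻} (h : ∀ w, pd z w < R → u w ≤ v w) : Gm R u z ≤ Gm R v z := by
  unfold Gm
  apply integral_mono (integrable_Hk hR0 hR hu z) (integrable_Hk hR0 hR hv z)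
  intro w
  change Hk R (pd z w) • u w ≤ Hk R (pd z w) • v w
  rw [smul_eq_mul, smul_eq_mul]
  by_cases h1 : pd z w < R
  · exact mul_le_mul_of_nonneg_left (h w h1) (Hk_nonneg _ _)
  · rw [Hk_eq_zero (not_lt.1 h1) hR0, zero_mul, zero_mul]

end

end Pool.Agent.Lib.MP_b16327_pr
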