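import Pool.Agent.Lib.MP_b16327_pr.GreenA

/-! # The truncated Green operator: Jensen formula -/

namespace Pool.Agent.Lib.MP_b16327_pr

open Complex MeasureTheory ComplexConjugate Filter
open scoped Complex.UnitDisc Topology BoundedContinuousFunction

noncomputable section

/-! ### Auxiliary facts on the circle -/

private theorem GreenB_sc_disc : SecondCountableTopology 𝔻 :=
  UnitDisc.isEmbedding_coe.secondCountableTopology

private theorem GreenB_lam_singleton (ξ₀ : Circle) : lam {ξ₀} = 0 := by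
  obtain ⟨C, hC, h⟩ := lam_arc_le
  by_contra hne
  have hfin : lam {ξ₀} ≠ ⊤ := measure_ne_top _ _
  have hpos : 0 < (lam {ξ₀}).toReal := ENNReal.toReal_pos hne hfin
  set c := (lam {ξ₀}).toReal with hc
  have h1 : lam {ξ₀} ≤ lam {ξ : Circle | ‖(ξ : ℂ) - ξ₀‖ < c / (2 * C)} := by
    refine measure_mono ?_
    intro ξ hξ
    rw [Set.mem_singleton_iff] at hξ
    subst hξ
    show ‖(ξ : ℂ) - ξ‖ < c / (2 * C)
    rw [sub_self, norm_zero]
    positivity
  have h2 := h1.trans (h ξ₀ (c / (2 * C)) (by positivity))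
  have h3 : C * (c / (2 * C)) = c / 2 := by field_simp
  rw [h3] at h2
  have h4 : c ≤ c / 2 := by
    have := ENNReal.toReal_mono ENNReal.ofReal_ne_top h2
    rw [ENNReal.toReal_ofReal (by positivity)] at this
    exact this
  linarith

private theorem GreenB_int_lam {f : ℂ → ℝ} (hf : Measurable f) {x : ℂ} (hx : x ≠ 0) :
    ∫ ξ : Circle, f (ξ * x) ∂lam = Real.circleAverage f 0 ‖x‖ := by
  have hx' : ‖x‖ ≠ 0 := norm_ne_zero_iff.2 hx
  have hcoe : Measurable (fun ξ : Circle => (ξ : ℂ)) := (by fun_prop : Continuous (fun ξ : Circle => (ξ : ℂ))).measurable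
  have hn1 : ‖x / (‖x‖ : ℂ)‖ = 1 := by
    rw [norm_div, Complex.norm_real, norm_norm, div_self hx']
  obtain ⟨η, hη⟩ : ∃ η : Circle, (η : ℂ) = x / (‖x‖ : ℂ) :=
    ⟨⟨x / (‖x‖ : ℂ), mem_sphere_zero_iff_norm.2 hn1⟩, rfl⟩
  have hηx : ((‖x‖ : ℝ) : ℂ) * (η : ℂ) = x := by
    rw [hη]
    have : ((‖x‖ : ℝ) : ℂ) ≠ 0 := by exact_mod_cast hx'
    field_simp
  have h1 : ∫ ξ : Circle, f ((‖x‖ : ℝ) * (ξ : ℂ)) ∂lam = Real.circleAverage f 0 ‖x‖ :=
    integral_lam f ‖x‖ (hf.comp (measurable_const.mul hcoe)).aestronglyMeasurable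
  rw [← h1]
  have hm : Measurable (fun ξ : Circle => η * ξ) :=
    (continuous_const.mul continuous_id).measurable
  conv_rhs => rw [← lam_rot η]
  have hF : Measurable (fun ξ : Circle => f ((‖x‖ : ℝ) * (ξ : ℂ))) :=
    hf.comp (measurable_const.mul hcoe)
  have h2 := integral_map (μ := lam) hm.aemeasurable hF.aestronglyMeasurable
  refine Eq.trans ?_ h2.symm
  refine integral_congr_ae (Filter.Eventually.of_forall (fun ξ => ?_))
  show f (ξ * x) = f ((‖x‖ : ℝ) * ((η * ξ : Circle) : ℂ))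
  congr 1
  rw [Circle.coe_mul, ← mul_assoc, hηx, mul_comm]

/-- JENSEN.  `∫ log pd(ξ x, w) dλ(ξ) = max (log |x|) (log |w|)` for `x ≠ 0`, `w ≠ 0`.
`pd (ξx) w = |ξx - w| / |1 - conj(ξx) w|`; the average of `log |ξ x - w|` over the circle is
`log max(|x|,|w|)` (`circleAverage_log_norm_sub_const_eq_log_radius_add_posLog`) and that of
`log |1 - conj(ξx) w|` is `0`. -/
theorem jensen_pd {x w : 𝔻} (hx : x ≠ 0) (hw : w ≠ 0) :
    ∫ ξ : Circle, Real.log (pd (ξ • x) w) ∂lam = max (Real.log ‖(x : ℂ)‖) (Real.log ‖(w : ℂ)‖) := by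
  have hxc : (x : ℂ) ≠ 0 := fun h => hx (UnitDisc.coe_eq_zero.1 h)
  have hwc : (w : ℂ) ≠ 0 := fun h => hw (UnitDisc.coe_eq_zero.1 h)
  have hxn : 0 < ‖(x : ℂ)‖ := norm_pos_iff.2 hxc
  have hwn : 0 < ‖(w : ℂ)‖ := norm_pos_iff.2 hwc
  set r := ‖(x : ℂ)‖ with hr
  have hr1 : r < 1 := x.norm_lt_one
  set f1 : ℂ → ℝ := fun ζ => Real.log ‖ζ - (w : ℂ)‖ with hf1
  set f2 : ℂ → ℝ := fun ζ => Real.log ‖1 - conj (w : ℂ) * ζ‖ with hf2
  have hf1m : Measurable f1 := by
    rw [hf1]
    exact Real.measurable_log.comp ((measurable_id.sub_const _).norm)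
  have hf2m : Measurable f2 := by
    rw [hf2]
    exact Real.measurable_log.comp ((measurable_const.sub (measurable_const.mul measurable_id)).norm)
  have hae : (fun ξ : Circle => Real.log (pd (ξ • x) w)) =ᵐ[lam]
      (fun ξ : Circle => (f1 - f2) (ξ * x)) := by
    have hset : {ξ : Circle | (ξ : ℂ) * x = w}.Subsingleton := by
      intro ξ hξ η hη
      have h1 : (ξ : ℂ) * x = η * x := hξ.trans hη.symm
      exact Circle.coe_injective (mul_right_cancel₀ hxc h1)
    have h0 : lam {ξ : Circle | (ξ : ℂ) * x = w} = 0 := by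
      rcases hset.eq_empty_or_singleton with h | ⟨ξ₀, h⟩
      · rw [h, measure_empty]
      · rw [h, GreenB_lam_singleton]
    have h1 : ∀ᵐ ξ : Circle ∂lam, ¬ ((ξ : ℂ) * x = w) := by
      rw [ae_iff]
      simpa using h0
    filter_upwards [h1] with ξ hξ
    have h2 : ‖(ξ : ℂ) * x - w‖ ≠ 0 := norm_ne_zero_iff.2 (sub_ne_zero.2 hξ)
    have hlt : ‖conj (w : ℂ) * ((ξ : ℂ) * x)‖ < 1 := by
      rw [norm_mul, norm_mul, Complex.norm_conj, Circle.norm_coe, one_mul]
      have := x.norm_lt_one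
      have := w.norm_lt_one
      nlinarith [norm_nonneg (x : ℂ), norm_nonneg (w : ℂ)]
    have h3 : ‖1 - conj (w : ℂ) * ((ξ : ℂ) * x)‖ ≠ 0 := by
      rw [norm_ne_zero_iff]
      intro h
      rw [sub_eq_zero] at h
      rw [← h, norm_one] at hlt
      exact lt_irrefl _ hlt
    have h4 : ‖1 - conj ((ξ : ℂ) * x) * (w : ℂ)‖ = ‖1 - conj (w : ℂ) * ((ξ : ℂ) * x)‖ := by
      rw [← Complex.norm_conj]
      congr 1
      simp only [map_sub, map_one, map_mul, Complex.conj_conj]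
      ring
    show Real.log (pd (ξ • x) w) = Real.log ‖(ξ : ℂ) * x - (w : ℂ)‖ -
      Real.log ‖1 - conj (w : ℂ) * ((ξ : ℂ) * x)‖
    unfold pd
    rw [UnitDisc.coe_circle_smul, norm_div, h4, Real.log_div h2 h3]
  rw [integral_congr_ae hae, GreenB_int_lam (hf1m.sub hf2m) hxc]
  have hc1 : CircleIntegrable f1 0 r := circleIntegrable_log_norm_sub_const r
  have hc2 : CircleIntegrable f2 0 r := by
    rw [hf2]
    exact MeromorphicOn.circleIntegrable_log_norm (fun z hz => by fun_prop)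
  have ha2 : Real.circleAverage f2 0 r = 0 := by
    have h := AnalyticOnNhd.circleAverage_log_norm_of_ne_zero (R := r) (c := 0)
      (g := fun ζ : ℂ => 1 - conj (w : ℂ) * ζ) (fun z hz => by fun_prop) (fun u hu => by
        rw [abs_of_pos hxn, mem_closedBall_zero_iff] at hu
        intro h0
        rw [sub_eq_zero] at h0
        have h1 : ‖conj (w : ℂ) * u‖ < 1 := by
          rw [norm_mul, Complex.norm_conj]
          have := w.norm_lt_one
          nlinarith [norm_nonneg u, norm_nonneg (w : ℂ)]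
        rw [← h0, norm_one] at h1
        exact lt_irrefl _ h1)
    rw [hf2]
    simpa using h
  rw [Real.circleAverage_sub hc1 hc2, ha2, sub_zero, hf1]
  rw [circleAverage_log_norm_sub_const_eq_log_radius_add_posLog hxn.ne', zero_sub, norm_neg,
    Real.posLog, Real.log_mul (inv_ne_zero hxn.ne') hwn.ne', Real.log_inv]
  rcases le_total (Real.log r) (Real.log ‖(w : ℂ)‖) with h | h
  · rw [max_eq_right h, max_eq_right (by linarith)]
    ring
  · rw [max_eq_left h, max_eq_left (by linarith)]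
    ring

/-! ### Integrability -/

private theorem GreenB_emb (g : SU11) : MeasurableEmbedding (fun z : 𝔻 => g • z) := by
  have h : Homeomorph 𝔻 𝔻 :=
    { toEquiv := MulAction.toPerm g
      continuous_toFun := continuous_smul_disc g
      continuous_invFun := continuous_smul_disc g⁻¹ }
  exact (Homeomorph.mk (MulAction.toPerm g) (continuous_smul_disc g)
    (continuous_smul_disc g⁻¹) : 𝔻 ≃ₜ 𝔻).measurableEmbedding

private theorem GreenB_meas_norm : Measurable (fun v : 𝔻 => Real.log ‖(v : ℂ)‖) :=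
  Real.measurable_log.comp (UnitDisc.continuous_coe.norm.measurable)

/-- the change of variables `v ↦ g • v` -/
private theorem GreenB_change (g : SU11) {R R' : ℝ} (hR' : R' < 1)
    (h : ∀ v : 𝔻, ‖(v : ℂ)‖ < R → ‖((g • v : 𝔻) : ℂ)‖ < R') :
    IntegrableOn (fun v : 𝔻 => Real.log ‖((g • v : 𝔻) : ℂ)‖) (ballD R) area ∧
      ∫ v in ballD R, ‖Real.log ‖((g • v : 𝔻) : ℂ)‖‖ ∂area ≤
        ∫ u in ballD R', ‖Real.log ‖(u : ℂ)‖‖ ∂area := by
  have hmp := measurePreserving_smul g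
  have hsub : ballD R ⊆ (fun z : 𝔻 => g • z) ⁻¹' (ballD R') := fun v hv => h v hv
  have hint := integrable_log_norm hR'
  have h1 : IntegrableOn (fun v : 𝔻 => Real.log ‖((g • v : 𝔻) : ℂ)‖)
      ((fun z : 𝔻 => g • z) ⁻¹' (ballD R')) area :=
    (hmp.integrableOn_comp_preimage (GreenB_emb g)).2 hint
  refine ⟨h1.mono_set hsub, ?_⟩
  have h2 := hmp.setIntegral_preimage_emb (GreenB_emb g)
    (fun u : 𝔻 => ‖Real.log ‖(u : ℂ)‖‖) (ballD R')
  rw [← h2]
  refine setIntegral_mono_set h1.norm ?_ ?_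
  · exact Filter.Eventually.of_forall (fun v => norm_nonneg _)
  · exact hsub.eventuallyLE

private theorem GreenB_pd_tr (a w v : 𝔻) :
    pd a (tr w • v) = ‖((((tr a)⁻¹ * tr w) • v : 𝔻) : ℂ)‖ := by
  rw [← pd_zero_left, ← pd_smul (tr a) 0, tr_smul_zero, ← mul_smul, mul_inv_cancel_left]

private theorem GreenB_bound {R : ℝ} (hR : R < 1) (x w : 𝔻) : ∃ R' : ℝ, R' < 1 ∧
    ∀ (ξ : Circle) (v : 𝔻), ‖(v : ℂ)‖ < R → pd (ξ • x) (tr w • v) < R' := by
  obtain ⟨r1, hr1, h1⟩ := norm_le_of_pd_lt w.norm_lt_one hR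
  set r2 := max ‖(x : ℂ)‖ r1 with hr2
  have hr20 : 0 ≤ r2 := (norm_nonneg _).trans (le_max_left _ _)
  have hr21 : r2 < 1 := max_lt x.norm_lt_one hr1
  have hlt : 2 * r2 / (1 + r2 ^ 2) < 1 := by
    rw [div_lt_one (by positivity)]
    nlinarith
  refine ⟨(2 * r2 / (1 + r2 ^ 2) + 1) / 2, by linarith, fun ξ v hv => ?_⟩
  have h2 : ‖((tr w • v : 𝔻) : ℂ)‖ ≤ r1 := by
    refine h1 w (tr w • v) le_rfl ?_
    have h3 : pd (tr w • (0 : 𝔻)) (tr w • v) = ‖(v : ℂ)‖ := by
      rw [pd_smul, pd_zero_left]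
    rw [tr_smul_zero] at h3
    rw [h3]
    exact hv
  have h4 : ‖((ξ • x : 𝔻) : ℂ)‖ ≤ r2 := by
    rw [UnitDisc.coe_circle_smul, norm_mul, Circle.norm_coe, one_mul]
    exact le_max_left _ _
  have h5 := pd_le_of_norm_le hr20 hr21 (ξ • x) (tr w • v) h4 (h2.trans (le_max_right _ _))
  linarith

private theorem GreenB_section {R : ℝ} (hR : R < 1) (x w : 𝔻) :
    ∃ C : ℝ, ∀ ξ : Circle,
      IntegrableOn (fun v : 𝔻 => Real.log (pd (ξ • x) (tr w • v))) (ballD R) area ∧
      ∫ v in ballD R, ‖Real.log (pd (ξ • x) (tr w • v))‖ ∂area ≤ C := by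
  obtain ⟨R', hR', hb⟩ := GreenB_bound hR x w
  refine ⟨∫ u in ballD R', ‖Real.log ‖(u : ℂ)‖‖ ∂area, fun ξ => ?_⟩
  have h := GreenB_change ((tr (ξ • x))⁻¹ * tr w) (R := R) hR' (fun v hv => by
    rw [← GreenB_pd_tr]
    exact hb ξ v hv)
  simp only [GreenB_pd_tr]
  exact h

private theorem GreenB_meas (x w : 𝔻) :
    Measurable (fun p : Circle × 𝔻 => Real.log (pd (p.1 • x) (tr w • p.2))) := by
  have := GreenB_sc_disc
  have hc : Continuous (fun p : Circle × 𝔻 => pd (p.1 • x) (tr w • p.2)) := by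
    have h1 : Continuous (fun p : Circle × 𝔻 => p.1 • x) :=
      continuous_rot_smul.comp (continuous_fst.prodMk continuous_const)
    have h2 : Continuous (fun p : Circle × 𝔻 => tr w • p.2) :=
      (continuous_smul_disc (tr w)).comp continuous_snd
    have h3 : Continuous (fun p : Circle × 𝔻 => ((p.1 • x, tr w • p.2) : 𝔻 × 𝔻)) :=
      h1.prodMk h2
    have h4 := Continuous.comp (g := fun q : 𝔻 × 𝔻 => pd q.1 q.2) continuous_pd h3
    exact h4
  exact Real.measurable_log.comp hc.measurable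

private theorem GreenB_prod {R : ℝ} (hR : R < 1) (x w : 𝔻) :
    Integrable (fun p : Circle × 𝔻 => Real.log (pd (p.1 • x) (tr w • p.2)))
      (lam.prod (area.restrict (ballD R))) := by
  have hm := (GreenB_meas x w).aestronglyMeasurable
    (μ := lam.prod (area.restrict (ballD R)))
  obtain ⟨C, hC⟩ := GreenB_section hR x w
  rw [integrable_prod_iff hm]
  refine ⟨Filter.Eventually.of_forall (fun ξ => (hC ξ).1), ?_⟩
  refine Integrable.mono' (integrable_const C) hm.norm.integral_prod_right' ?_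
  refine Filter.Eventually.of_forall (fun ξ => ?_)
  rw [Real.norm_of_nonneg (integral_nonneg (fun v => norm_nonneg _))]
  exact (hC ξ).2

private theorem GreenB_null (w : 𝔻) : ∀ᵐ v ∂area, tr w • v ≠ (0 : 𝔻) := by
  have h0 : area {u : 𝔻 | ‖(u : ℂ)‖ = 0} = 0 := area_circle 0
  have h1 : ∀ᵐ u : 𝔻 ∂area, ¬ ‖(u : ℂ)‖ = 0 := by
    rw [ae_iff]
    simpa using h0
  have h2 := (measurePreserving_smul (tr w)).quasiMeasurePreserving.ae h1
  filter_upwards [h2] with v hv h
  exact hv (by rw [h, UnitDisc.coe_zero, norm_zero])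

private theorem GreenB_avg {R : ℝ} (hR : R < 1) {x : 𝔻} (hx : x ≠ 0) (w : 𝔻) :
    ∫ ξ : Circle, (∫ v in ballD R, Real.log (pd (ξ • x) (tr w • v)) ∂area) ∂lam =
      ∫ v in ballD R, max (Real.log ‖(x : ℂ)‖) (Real.log ‖((tr w • v : 𝔻) : ℂ)‖) ∂area := by
  have h := integral_integral_swap
    (f := fun (ξ : Circle) (v : 𝔻) => Real.log (pd (ξ • x) (tr w • v)))
    (μ := lam) (ν := area.restrict (ballD R)) (GreenB_prod hR x w)
  rw [h]
  refine integral_congr_ae ?_
  filter_upwards [ae_restrict_of_ae (GreenB_null w)] with v hv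
  exact jensen_pd hx hv

private theorem GreenB_finite {R : ℝ} (hR : R < 1) : IsFiniteMeasure (area.restrict (ballD R)) :=
  ⟨by rw [Measure.restrict_apply_univ]; exact area_ballD_lt_top hR⟩

private theorem GreenB_real_pos {R : ℝ} (hR0 : 0 < R) (hR : R < 1) : 0 < area.real (ballD R) :=
  ENNReal.toReal_pos (area_ballD_pos hR0).ne' (area_ballD_lt_top hR).ne

private theorem GreenB_int_max {R : ℝ} (hR : R < 1) (c : ℝ) (w : 𝔻) :
    Integrable (fun v : 𝔻 => max c (Real.log ‖((tr w • v : 𝔻) : ℂ)‖))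
      (area.restrict (ballD R)) := by
  have := GreenB_finite hR
  obtain ⟨C, hC⟩ := GreenB_section hR 0 w
  have h1 := (hC 1).1
  rw [one_smul] at h1
  have h2 : Integrable (fun v : 𝔻 => Real.log ‖((tr w • v : 𝔻) : ℂ)‖)
      (area.restrict (ballD R)) := by
    simp only [pd_zero_left] at h1
    exact h1
  exact (integrable_const c).sup h2

/-- `Hk` in terms of the average of the maximum -/
private theorem GreenB_Hk {R t : ℝ} (hR0 : 0 < R) (hR : R < 1) :
    Hk R t = -Real.log t +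
      (area.real (ballD R))⁻¹ * ∫ v in ballD R, max (Real.log t) (Real.log ‖(v : ℂ)‖) ∂area := by
  have := GreenB_finite hR
  have hpos := GreenB_real_pos hR0 hR
  have hi := GreenB_int_max hR (Real.log t) 0
  simp only [tr_zero, one_smul] at hi
  have h1 : ∀ y : 𝔻, gk ‖(y : ℂ)‖ t =
      max (Real.log t) (Real.log ‖(y : ℂ)‖) - Real.log t := by
    intro y
    unfold gk
    rcases le_total (Real.log t) (Real.log ‖(y : ℂ)‖) with h | h
    · rw [max_eq_right h, max_eq_right (by linarith)]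
    · rw [max_eq_left h, max_eq_left (by linarith)]
      ring
  unfold Hk
  simp only [h1]
  rw [integral_sub hi (integrable_const _), setIntegral_const, smul_eq_mul, mul_sub,
    ← mul_assoc, inv_mul_cancel₀ hpos.ne']
  ring

/-- `Hk R (pd z w) = -log pd z w + M[log pd z ·](w)` for `z ≠ w` -/
theorem Hk_eq {R : ℝ} (hR0 : 0 < R) (hR : R < 1) {z w : 𝔻} (h : z ≠ w) :
    Hk R (pd z w) = -Real.log (pd z w) + Mop R (fun v => Real.log (pd z v)) w := by
  set x := (tr w)⁻¹ • z with hx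
  have hz : tr w • x = z := by rw [hx, smul_inv_smul]
  have hxn : ‖(x : ℂ)‖ = pd z w := by
    rw [← pd_zero_right, ← pd_smul (tr w), hz, tr_smul_zero]
  have hx0 : x ≠ 0 := by
    intro h0
    apply h
    rw [← hz, h0, tr_smul_zero]
  have hA : ∀ v : 𝔻, Real.log (pd z (tr w • v)) = Real.log (pd x v) := by
    intro v
    conv_lhs => rw [← hz]
    rw [pd_smul]
  have hB : ∀ ξ : Circle, ∫ v in ballD R, Real.log (pd (ξ • x) (tr 0 • v)) ∂area =
      ∫ v in ballD R, Real.log (pd x v) ∂area := by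
    intro ξ
    have hemb : MeasurableEmbedding (fun v : 𝔻 => ξ • v) := by
      have h1 := GreenB_emb (rotG ξ)
      have h2 : (fun z : 𝔻 => rotG ξ • z) = (fun v : 𝔻 => ξ • v) := by
        funext v
        exact rotG_smul ξ v
      rw [h2] at h1
      exact h1
    have h1 := (measurePreserving_rot ξ).setIntegral_preimage_emb hemb
      (fun v : 𝔻 => Real.log (pd (ξ • x) v)) (ballD R)
    have h2 : (fun v : 𝔻 => ξ • v) ⁻¹' (ballD R) = ballD R := by
      ext v
      show ‖((ξ • v : 𝔻) : ℂ)‖ < R ↔ ‖(v : ℂ)‖ < R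
      rw [UnitDisc.coe_circle_smul, norm_mul, Circle.norm_coe, one_mul]
    rw [h2] at h1
    simp only [tr_zero, one_smul]
    rw [← h1]
    refine integral_congr_ae (Filter.Eventually.of_forall (fun v => ?_))
    show Real.log (pd (ξ • x) (ξ • v)) = Real.log (pd x v)
    rw [← rotG_smul, ← rotG_smul, pd_smul]
  have hC := GreenB_avg hR hx0 0
  simp only [hB] at hC
  rw [integral_const, probReal_univ, one_smul] at hC
  simp only [tr_zero, one_smul] at hC
  rw [GreenB_Hk hR0 hR, ← hxn, ← hC]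
  unfold Mop AvF
  simp only [hA, smul_eq_mul]

/-- circle average of the kernel in the first variable, for `x ≠ 0`, `w ≠ 0`:
`∫ Hk R (pd (ξ x) w) dλ = Hk R |w| - gk |x| |w| + M[gk |x| |·|](w)` -/
theorem circ_Hk {R : ℝ} (hR0 : 0 < R) (hR : R < 1) {x w : 𝔻} (hx : x ≠ 0) (hw : w ≠ 0) :
    ∫ ξ : Circle, Hk R (pd (ξ • x) w) ∂lam =
      Hk R ‖(w : ℂ)‖ - gk ‖(x : ℂ)‖ ‖(w : ℂ)‖ + Mop R (fun v => gk ‖(x : ℂ)‖ ‖(v : ℂ)‖) w := by
  have hfin := GreenB_finite hR
  have hxc : (x : ℂ) ≠ 0 := fun h => hx (UnitDisc.coe_eq_zero.1 h)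
  have hwc : (w : ℂ) ≠ 0 := fun h => hw (UnitDisc.coe_eq_zero.1 h)
  have hlx : Real.log ‖(x : ℂ)‖ < 0 := Real.log_neg (norm_pos_iff.2 hxc) x.norm_lt_one
  have hlw : Real.log ‖(w : ℂ)‖ < 0 := Real.log_neg (norm_pos_iff.2 hwc) w.norm_lt_one
  have hj := jensen_pd hx hw
  -- the first term is integrable, since its integral is not zero
  have hint1 : Integrable (fun ξ : Circle => Real.log (pd (ξ • x) w)) lam := by
    by_contra hn
    rw [integral_undef hn] at hj
    have := max_lt hlx hlw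
    linarith
  have hint2 : Integrable (fun ξ : Circle =>
      ∫ v in ballD R, Real.log (pd (ξ • x) (tr w • v)) ∂area) lam :=
    (GreenB_prod hR x w).integral_prod_left
  have hne : ∀ᵐ ξ : Circle ∂lam, ξ • x ≠ w := by
    have hset : {ξ : Circle | ξ • x = w}.Subsingleton := by
      intro ξ hξ η hη
      have h1 : ((ξ • x : 𝔻) : ℂ) = ((η • x : 𝔻) : ℂ) := by
        rw [show ξ • x = w from hξ, show η • x = w from hη]
      rw [UnitDisc.coe_circle_smul, UnitDisc.coe_circle_smul] at h1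
      exact Circle.coe_injective (mul_right_cancel₀ hxc h1)
    have h0 : lam {ξ : Circle | ξ • x = w} = 0 := by
      rcases hset.eq_empty_or_singleton with h | ⟨ξ₀, h⟩
      · rw [h, measure_empty]
      · rw [h, GreenB_lam_singleton]
    rw [ae_iff]
    simpa using h0
  have hL : ∫ ξ : Circle, Hk R (pd (ξ • x) w) ∂lam =
      ∫ ξ : Circle, (-Real.log (pd (ξ • x) w) + (area.real (ballD R))⁻¹ *
        ∫ v in ballD R, Real.log (pd (ξ • x) (tr w • v)) ∂area) ∂lam := by
    refine integral_congr_ae ?_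
    filter_upwards [hne] with ξ hξ
    rw [Hk_eq hR0 hR hξ]
    rfl
  have hg : ∀ v : 𝔻, gk ‖(x : ℂ)‖ ‖(v : ℂ)‖ =
      max (Real.log ‖(x : ℂ)‖) (Real.log ‖(v : ℂ)‖) - Real.log ‖(v : ℂ)‖ := by
    intro v
    unfold gk
    rcases le_total (Real.log ‖(x : ℂ)‖) (Real.log ‖(v : ℂ)‖) with h | h
    · rw [max_eq_right h, max_eq_left (by linarith)]
      ring
    · rw [max_eq_left h, max_eq_right (by linarith)]
  have hlog : Integrable (fun v : 𝔻 => Real.log ‖((tr w • v : 𝔻) : ℂ)‖)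
      (area.restrict (ballD R)) := by
    obtain ⟨C, hC⟩ := GreenB_section hR 0 w
    have h1 := (hC 1).1
    rw [one_smul] at h1
    simp only [pd_zero_left] at h1
    exact h1
  -- the right hand side
  have hH0 : Hk R ‖(w : ℂ)‖ = -Real.log ‖(w : ℂ)‖ + (area.real (ballD R))⁻¹ *
      ∫ v in ballD R, Real.log ‖((tr w • v : 𝔻) : ℂ)‖ ∂area := by
    have h1 := Hk_eq hR0 hR (z := 0) (w := w) hw.symm
    rw [pd_zero_left] at h1
    rw [h1]
    unfold Mop AvF
    simp only [pd_zero_left, smul_eq_mul]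
  have hM : Mop R (fun v => gk ‖(x : ℂ)‖ ‖(v : ℂ)‖) w =
      (area.real (ballD R))⁻¹ *
        (∫ v in ballD R, max (Real.log ‖(x : ℂ)‖) (Real.log ‖((tr w • v : 𝔻) : ℂ)‖) ∂area) -
      (area.real (ballD R))⁻¹ *
        ∫ v in ballD R, Real.log ‖((tr w • v : 𝔻) : ℂ)‖ ∂area := by
    unfold Mop AvF
    simp only [hg, smul_eq_mul]
    rw [integral_sub (GreenB_int_max hR _ w) hlog, mul_sub]
  have hint3 : Integrable (fun ξ : Circle => -Real.log (pd (ξ • x) w)) lam := hint1.neg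
  rw [hL, integral_add hint3 (hint2.const_mul _), integral_neg, hj, integral_const_mul,
    GreenB_avg hR hx w, hH0, hM, hg w]
  ring

end

end Pool.Agent.Lib.MP_b16327_pr
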