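import Pool.Agent.Lib.MP_b16327_pr.GreenB

/-! # The operator identity -/

namespace Pool.Agent.Lib.MP_b16327_pr

open Complex MeasureTheory ComplexConjugate Filter
open scoped Complex.UnitDisc Topology BoundedContinuousFunction

noncomputable section

private theorem greenC_secondCountable : SecondCountableTopology 𝔻 :=
  UnitDisc.isEmbedding_coe.secondCountableTopology

private theorem greenC_t2 : T2Space 𝔻 := UnitDisc.isEmbedding_coe.t2Space

attribute [local instance] greenC_secondCountable greenC_t2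

private lemma greenC_bdd {u : 𝔻 → ℂ} (hu : Continuous u) {r : ℝ} (hr : r < 1) :
    ∃ C : ℝ, 0 ≤ C ∧ ∀ v : 𝔻, ‖(v : ℂ)‖ ≤ r → ‖u v‖ ≤ C := by
  obtain ⟨C, hC⟩ := (isCompact_closedBallD hr).exists_bound_of_continuousOn hu.continuousOn
  refine ⟨max C 0, le_max_right _ _, fun v hv => (hC v hv).trans (le_max_left _ _)⟩

private lemma greenC_set (R : ℝ) : MeasurableSet {p : 𝔻 × 𝔻 | pd p.1 p.2 < R} :=
  (isOpen_lt continuous_pd continuous_const).measurableSet

private lemma greenC_prod {R : ℝ} (hR : R < 1) {g : 𝔻 → ℝ} (hg : Integrable g area)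
    {r : ℝ} (hr : r < 1) (hgs : ∀ w, g w ≠ 0 → ‖(w : ℂ)‖ ≤ r) {u : 𝔻 → ℂ} (hu : Continuous u) :
    Integrable ({p : 𝔻 × 𝔻 | pd p.1 p.2 < R}.indicator (fun p => (g p.1 : ℂ) * u p.2))
      (area.prod area) := by
  obtain ⟨r', hr', hb⟩ := norm_le_of_pd_lt hr hR
  obtain ⟨C, hC0, hC⟩ := greenC_bdd hu hr'
  have hBm : MeasurableSet {v : 𝔻 | ‖(v : ℂ)‖ ≤ r'} :=
    (isCompact_closedBallD hr').isClosed.measurableSet
  have hB : Integrable ({v : 𝔻 | ‖(v : ℂ)‖ ≤ r'}.indicator (fun _ => C)) area := by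
    rw [integrable_indicator_iff hBm]
    exact integrableOn_const (isCompact_closedBallD hr').measure_lt_top.ne
  have h1 : Integrable (fun p : 𝔻 × 𝔻 => ‖g p.1‖ * {v : 𝔻 | ‖(v : ℂ)‖ ≤ r'}.indicator (fun _ => C) p.2)
      (area.prod area) := hg.norm.mul_prod hB
  refine h1.mono' ?_ ?_
  · apply AEStronglyMeasurable.indicator _ (greenC_set R)
    apply AEStronglyMeasurable.mul
    · have : AEStronglyMeasurable (fun w : 𝔻 => (g w : ℂ)) area := hg.ofReal.aestronglyMeasurable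
      exact this.comp_fst
    · exact (hu.comp continuous_snd).aestronglyMeasurable
  · refine Filter.Eventually.of_forall fun p => ?_
    by_cases hp : pd p.1 p.2 < R
    · rw [Set.indicator_of_mem (show p ∈ {p : 𝔻 × 𝔻 | pd p.1 p.2 < R} from hp), norm_mul,
        Complex.norm_real]
      by_cases hz : g p.1 = 0
      · rw [hz]; simp
      · have h2 := hb p.1 p.2 (hgs _ hz) hp
        rw [Set.indicator_of_mem (show p.2 ∈ {v : 𝔻 | ‖(v : ℂ)‖ ≤ r'} from h2)]
        exact mul_le_mul_of_nonneg_left (hC _ h2) (norm_nonneg _)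
    · rw [Set.indicator_of_notMem (show p ∉ {p : 𝔻 × 𝔻 | pd p.1 p.2 < R} from hp), norm_zero]
      apply mul_nonneg (norm_nonneg _)
      exact Set.indicator_nonneg (fun _ _ => hC0) _

private lemma greenC_ind (R : ℝ) (w : 𝔻) (f : 𝔻 → ℂ) :
    ∫ v in {v : 𝔻 | pd w v < R}, f v ∂area =
      ∫ v, {v : 𝔻 | pd w v < R}.indicator f v ∂area := by
  rw [integral_indicator]
  have hc : Continuous (fun v : 𝔻 => pd w v) := continuous_pd.comp (continuous_const.prodMk continuous_id)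
  exact (isOpen_lt hc continuous_const).measurableSet

/-- self-adjointness of `M`: the kernel `1_{pd z w < R}` is symmetric (`AvF_kernel`), Fubini -/
theorem Mop_selfadjoint {R : ℝ} (hR0 : 0 < R) (hR : R < 1) {g : 𝔻 → ℝ} (hg : Integrable g area)
    {r : ℝ} (hr : r < 1) (hgs : ∀ w, g w ≠ 0 → ‖(w : ℂ)‖ ≤ r) {u : 𝔻 → ℂ} (hu : Continuous u) :
    ∫ w, (g w : ℂ) * Mop R u w ∂area = ∫ w, ((Mop R g w : ℝ) : ℂ) * u w ∂area := by
  have hK := greenC_prod hR hg hr hgs hu
  have h1 : ∀ w : 𝔻, (g w : ℂ) * Mop R u w = ((area.real (ballD R))⁻¹ : ℂ) *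
      ∫ v, {p : 𝔻 × 𝔻 | pd p.1 p.2 < R}.indicator (fun p => (g p.1 : ℂ) * u p.2) (w, v) ∂area := by
    intro w
    unfold Mop
    rw [AvF_kernel, greenC_ind, Complex.real_smul, ← mul_assoc, mul_comm (g w : ℂ), mul_assoc,
      ← integral_const_mul]
    push_cast
    congr 1
    apply integral_congr_ae
    refine Filter.Eventually.of_forall fun v => ?_
    simp only
    by_cases hp : pd w v < R
    · rw [Set.indicator_of_mem (show (w, v) ∈ {p : 𝔻 × 𝔻 | pd p.1 p.2 < R} from hp),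
        Set.indicator_of_mem (show v ∈ {v : 𝔻 | pd w v < R} from hp)]
    · rw [Set.indicator_of_notMem (show (w, v) ∉ {p : 𝔻 × 𝔻 | pd p.1 p.2 < R} from hp),
        Set.indicator_of_notMem (show v ∉ {v : 𝔻 | pd w v < R} from hp), mul_zero]
  have h2 : ∀ w : 𝔻, ((Mop R g w : ℝ) : ℂ) * u w = ((area.real (ballD R))⁻¹ : ℂ) *
      ∫ v, {p : 𝔻 × 𝔻 | pd p.1 p.2 < R}.indicator (fun p => (g p.1 : ℂ) * u p.2) (v, w) ∂area := by
    intro w
    rw [← Mop_ofReal]
    unfold Mop
    rw [AvF_kernel, greenC_ind, Complex.real_smul, mul_assoc, ← integral_mul_const]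
    push_cast
    congr 1
    apply integral_congr_ae
    refine Filter.Eventually.of_forall fun v => ?_
    simp only
    by_cases hp : pd w v < R
    · have hp' : pd v w < R := by rw [pd_comm]; exact hp
      rw [Set.indicator_of_mem (show (v, w) ∈ {p : 𝔻 × 𝔻 | pd p.1 p.2 < R} from hp'),
        Set.indicator_of_mem (show v ∈ {v : 𝔻 | pd w v < R} from hp)]
    · have hp' : ¬ pd v w < R := by rw [pd_comm]; exact hp
      rw [Set.indicator_of_notMem (show (v, w) ∉ {p : 𝔻 × 𝔻 | pd p.1 p.2 < R} from hp'),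
        Set.indicator_of_notMem (show v ∉ {v : 𝔻 | pd w v < R} from hp), zero_mul]
  rw [integral_congr_ae (Filter.Eventually.of_forall h1),
    integral_congr_ae (Filter.Eventually.of_forall h2), integral_const_mul, integral_const_mul]
  congr 1
  exact integral_integral_swap hK

private lemma greenC_integrable_Mop {R : ℝ} (hR : R < 1) {g : 𝔻 → ℝ}
    (hg : Integrable g area)
    {r : ℝ} (hr : r < 1) (hgs : ∀ w, g w ≠ 0 → ‖(w : ℂ)‖ ≤ r) {u : 𝔻 → ℂ} (hu : Continuous u) :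
    Integrable (fun w => ((Mop R g w : ℝ) : ℂ) * u w) area := by
  have hK := greenC_prod hR hg hr hgs hu
  have h3 := (hK.swap.integral_prod_left).const_mul ((area.real (ballD R))⁻¹ : ℂ)
  refine h3.congr (Filter.Eventually.of_forall fun w => ?_)
  simp only [Function.comp_apply, Prod.swap_prod_mk]
  symm
  rw [← Mop_ofReal]
  unfold Mop
  rw [AvF_kernel, greenC_ind, Complex.real_smul, mul_assoc, ← integral_mul_const]
  push_cast
  congr 1
  apply integral_congr_ae
  refine Filter.Eventually.of_forall fun v => ?_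
  simp only
  by_cases hp : pd w v < R
  · have hp' : pd v w < R := by rw [pd_comm]; exact hp
    rw [Set.indicator_of_mem (show (v, w) ∈ {p : 𝔻 × 𝔻 | pd p.1 p.2 < R} from hp'),
      Set.indicator_of_mem (show v ∈ {v : 𝔻 | pd w v < R} from hp)]
  · have hp' : ¬ pd v w < R := by rw [pd_comm]; exact hp
    rw [Set.indicator_of_notMem (show (v, w) ∉ {p : 𝔻 × 𝔻 | pd p.1 p.2 < R} from hp'),
      Set.indicator_of_notMem (show v ∉ {v : 𝔻 | pd w v < R} from hp), zero_mul]

private lemma greenC_gk_zero {ρ : ℝ} (hρ : 0 < ρ) {t : ℝ} (h : ρ ≤ t) : gk ρ t = 0 := by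
  unfold gk
  apply max_eq_left
  have := Real.log_le_log hρ h
  linarith

private lemma greenC_gk_meas (ρ : ℝ) : Measurable (fun w : 𝔻 => gk ρ ‖(w : ℂ)‖) := by
  unfold gk
  have h1 : Measurable (fun w : 𝔻 => ‖(w : ℂ)‖) :=
    (continuous_norm.comp Complex.UnitDisc.continuous_coe).measurable
  exact measurable_const.max (measurable_const.sub (Real.measurable_log.comp h1))

private lemma greenC_norm_pos {x : 𝔻} (hx : x ≠ 0) : 0 < ‖(x : ℂ)‖ := by
  rw [norm_pos_iff]
  intro h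
  apply hx
  apply UnitDisc.coe_injective
  rw [h]; rfl

theorem integrable_gk {x : 𝔻} (hx : x ≠ 0) {u : 𝔻 → ℂ} (hu : Continuous u) :
    Integrable (fun w : 𝔻 => (gk ‖(x : ℂ)‖ ‖(w : ℂ)‖ : ℂ) * u w) area := by
  set ρ := ‖(x : ℂ)‖ with hρ
  have hρ0 : 0 < ρ := greenC_norm_pos hx
  have hρ1 : ρ < 1 := x.norm_lt_one
  obtain ⟨C, hC0, hC⟩ := greenC_bdd hu hρ1
  have hsupp : Function.support (fun w : 𝔻 => (gk ρ ‖(w : ℂ)‖ : ℂ) * u w) ⊆ ballD ρ := by
    intro w hw
    rw [Function.mem_support] at hw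
    by_contra hcon
    apply hw
    have : ρ ≤ ‖(w : ℂ)‖ := not_lt.1 hcon
    rw [greenC_gk_zero hρ0 this]
    simp
  rw [← integrableOn_iff_integrable_of_support_subset hsupp]
  have h1 : IntegrableOn (fun w : 𝔻 => (|Real.log ρ| + ‖Real.log ‖(w : ℂ)‖‖) * C) (ballD ρ) area := by
    apply Integrable.mul_const
    apply Integrable.add
    · exact integrableOn_const (area_ballD_lt_top hρ1).ne
    · exact (integrable_log_norm hρ1).norm
  refine h1.mono' ?_ ?_
  · apply AEStronglyMeasurable.mul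
    · exact (Complex.measurable_ofReal.comp (greenC_gk_meas ρ)).aestronglyMeasurable
    · exact hu.aestronglyMeasurable
  · refine (ae_restrict_iff' (measurableSet_ballD ρ)).2 (Filter.Eventually.of_forall fun w hw => ?_)
    rw [norm_mul, Complex.norm_real]
    have h2 : ‖u w‖ ≤ C := hC w (le_of_lt hw)
    have h3 : ‖gk ρ ‖(w : ℂ)‖‖ ≤ |Real.log ρ| + ‖Real.log ‖(w : ℂ)‖‖ := by
      unfold gk
      rw [Real.norm_eq_abs, Real.norm_eq_abs, abs_of_nonneg (le_max_left _ _)]
      apply max_le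
      · positivity
      · have := le_abs_self (Real.log ρ)
        have := neg_abs_le (Real.log ‖(w : ℂ)‖)
        linarith
    exact mul_le_mul h3 h2 (norm_nonneg _) (by positivity)

private lemma greenC_gk_int {x : 𝔻} (hx : x ≠ 0) :
    Integrable (fun w : 𝔻 => gk ‖(x : ℂ)‖ ‖(w : ℂ)‖) area := by
  have h := integrable_gk hx (u := fun _ => 1) continuous_const
  have h2 := h.re
  refine h2.congr (Filter.Eventually.of_forall fun w => ?_)
  simp

private lemma greenC_ae_ne : ∀ᵐ w : 𝔻 ∂area, w ≠ 0 := by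
  have h := area_circle 0
  rw [ae_iff]
  refine measure_mono_null ?_ h
  intro w hw
  simp only [ne_eq, not_not, Set.mem_ofPred_eq] at hw ⊢
  rw [hw]
  simp

/-- THE OPERATOR IDENTITY `(A_x - 1) 𝒢_m u (0) = 𝒢_x (M u - u) (0)` -/
theorem green_identity {R : ℝ} (hR0 : 0 < R) (hR : R < 1) {u : 𝔻 → ℂ} (hu : Continuous u)
    {x : 𝔻} (hx : x ≠ 0) :
    ∫ ξ : Circle, Gm R u (ξ • x) ∂lam - Gm R u 0 =
      ∫ w : 𝔻, (gk ‖(x : ℂ)‖ ‖(w : ℂ)‖ : ℂ) * (Mop R u w - u w) ∂area := by
  set ρ := ‖(x : ℂ)‖ with hρ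
  have hρ0 : 0 < ρ := greenC_norm_pos hx
  have hρ1 : ρ < 1 := x.norm_lt_one
  have hcrot : Continuous (fun ξ : Circle => ξ • x) :=
    continuous_rot_smul.comp (continuous_id.prodMk continuous_const)
  have hcpd : Continuous (fun p : Circle × 𝔻 => pd (p.1 • x) p.2) :=
    continuous_pd.comp ((hcrot.comp continuous_fst).prodMk continuous_snd)
  -- Fubini
  have hmeas : AEStronglyMeasurable (fun p : Circle × 𝔻 => Hk R (pd (p.1 • x) p.2) • u p.2)
      (lam.prod area) := by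
    have a1 : AEStronglyMeasurable (fun p : Circle × 𝔻 => Hk R (pd (p.1 • x) p.2)) (lam.prod area) :=
      ((Hk_measurable R).comp hcpd.measurable).aestronglyMeasurable
    have a2 : AEStronglyMeasurable (fun p : Circle × 𝔻 => u p.2) (lam.prod area) :=
      (hu.comp continuous_snd).aestronglyMeasurable
    exact a1.smul a2
  have hF : Integrable (fun p : Circle × 𝔻 => Hk R (pd (p.1 • x) p.2) • u p.2) (lam.prod area) := by
    rw [integrable_prod_iff hmeas]
    refine ⟨Filter.Eventually.of_forall fun ξ => integrable_Hk hR0 hR hu (ξ • x), ?_⟩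
    have h1 : (fun ξ : Circle => ∫ w, ‖Hk R (pd (ξ • x) w) • u w‖ ∂area) =
        fun ξ : Circle => Gm R (fun w => ‖u w‖) (ξ • x) := by
      funext ξ
      unfold Gm
      apply integral_congr_ae
      refine Filter.Eventually.of_forall fun w => ?_
      simp only
      rw [norm_smul, Real.norm_eq_abs, abs_of_nonneg (Hk_nonneg _ _), smul_eq_mul]
    simp only
    rw [h1]
    have h2 : Continuous (fun ξ : Circle => Gm R (fun w => ‖u w‖) (ξ • x)) :=
      (continuous_Gm hR0 hR hu.norm).comp hcrot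
    have h3 := h2.continuousOn.integrableOn_compact (μ := lam) (isCompact_univ (X := Circle))
    rwa [integrableOn_univ] at h3
  have hswap : ∫ ξ : Circle, Gm R u (ξ • x) ∂lam =
      ∫ w, (∫ ξ : Circle, Hk R (pd (ξ • x) w) ∂lam) • u w ∂area := by
    have h1 : ∫ ξ : Circle, Gm R u (ξ • x) ∂lam =
        ∫ ξ : Circle, ∫ w, Hk R (pd (ξ • x) w) • u w ∂area ∂lam := rfl
    rw [h1, integral_integral_swap hF]
    apply integral_congr_ae
    refine Filter.Eventually.of_forall fun w => ?_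
    simp only
    rw [integral_smul_const]
  have hgint := greenC_gk_int hx
  have hgs : ∀ w : 𝔻, gk ρ ‖(w : ℂ)‖ ≠ 0 → ‖(w : ℂ)‖ ≤ ρ := by
    intro w hw
    by_contra hcon
    exact hw (greenC_gk_zero hρ0 (not_le.1 hcon).le)
  have hI1 : Integrable (fun w : 𝔻 => Hk R ‖(w : ℂ)‖ • u w) area := by
    have := integrable_Hk hR0 hR hu 0
    simpa only [pd_zero_left] using this
  have hI2 := integrable_gk hx hu
  have hI3 := greenC_integrable_Mop hR hgint hρ1 hgs hu
  have h1 : ∫ w, (∫ ξ : Circle, Hk R (pd (ξ • x) w) ∂lam) • u w ∂area =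
      ∫ w, ((Hk R ‖(w : ℂ)‖ • u w - (gk ρ ‖(w : ℂ)‖ : ℂ) * u w) +
        ((Mop R (fun v : 𝔻 => gk ρ ‖(v : ℂ)‖) w : ℝ) : ℂ) * u w) ∂area := by
    apply integral_congr_ae
    filter_upwards [greenC_ae_ne] with w hw
    rw [circ_Hk hR0 hR hx hw, Complex.real_smul, Complex.real_smul]
    push_cast
    ring
  have h0 : Gm R u 0 = ∫ w, Hk R ‖(w : ℂ)‖ • u w ∂area := by
    unfold Gm
    apply integral_congr_ae
    refine Filter.Eventually.of_forall fun w => ?_
    simp only
    rw [pd_zero_left]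
  have hI12 : Integrable (fun w : 𝔻 => Hk R ‖(w : ℂ)‖ • u w - (gk ρ ‖(w : ℂ)‖ : ℂ) * u w) area :=
    hI1.sub hI2
  rw [hswap, h1, integral_add hI12 hI3, integral_sub hI1 hI2, h0,
    ← Mop_selfadjoint hR0 hR hgint hρ1 hgs hu]
  have hI4 := integrable_gk hx (continuous_Mop hR hu)
  have h5 : ∫ w : 𝔻, (gk ρ ‖(w : ℂ)‖ : ℂ) * (Mop R u w - u w) ∂area =
      ∫ w : 𝔻, ((gk ρ ‖(w : ℂ)‖ : ℂ) * Mop R u w - (gk ρ ‖(w : ℂ)‖ : ℂ) * u w) ∂area := by
    apply integral_congr_ae
    refine Filter.Eventually.of_forall fun w => ?_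
    simp only
    ring
  rw [h5, integral_sub hI4 hI2]
  ring

private lemma greenC_Gm_ofReal (R : ℝ) (u : 𝔻 → ℝ) (z : 𝔻) :
    Gm R (fun w => (u w : ℂ)) z = ((Gm R u z : ℝ) : ℂ) := by
  unfold Gm
  rw [← integral_complex_ofReal]
  apply integral_congr_ae
  refine Filter.Eventually.of_forall fun w => ?_
  simp only
  rw [Complex.real_smul, smul_eq_mul]
  push_cast
  rfl

/-- real version -/
theorem green_identity_real {R : ℝ} (hR0 : 0 < R) (hR : R < 1) {u : 𝔻 → ℝ} (hu : Continuous u)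
    {x : 𝔻} (hx : x ≠ 0) :
    ∫ ξ : Circle, Gm R u (ξ • x) ∂lam - Gm R u 0 =
      ∫ w : 𝔻, gk ‖(x : ℂ)‖ ‖(w : ℂ)‖ * (Mop R u w - u w) ∂area := by
  have h := green_identity hR0 hR (Complex.continuous_ofReal.comp hu) hx
  have h1 : ∫ ξ : Circle, Gm R (Complex.ofReal ∘ u) (ξ • x) ∂lam =
      ((∫ ξ : Circle, Gm R u (ξ • x) ∂lam : ℝ) : ℂ) := by
    rw [← integral_complex_ofReal]
    apply integral_congr_ae
    refine Filter.Eventually.of_forall fun ξ => ?_
    exact greenC_Gm_ofReal R u (ξ • x)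
  have h2 : Gm R (Complex.ofReal ∘ u) 0 = ((Gm R u 0 : ℝ) : ℂ) := greenC_Gm_ofReal R u 0
  have h3 : ∫ w : 𝔻, (gk ‖(x : ℂ)‖ ‖(w : ℂ)‖ : ℂ) * (Mop R (Complex.ofReal ∘ u) w - (Complex.ofReal ∘ u) w) ∂area
      = ((∫ w : 𝔻, gk ‖(x : ℂ)‖ ‖(w : ℂ)‖ * (Mop R u w - u w) ∂area : ℝ) : ℂ) := by
    rw [← integral_complex_ofReal]
    apply integral_congr_ae
    refine Filter.Eventually.of_forall fun w => ?_
    have h4 : Mop R (Complex.ofReal ∘ u) w = ((Mop R u w : ℝ) : ℂ) := Mop_ofReal R u w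
    simp only
    rw [h4]
    simp only [Function.comp_apply]
    push_cast
    rfl
  rw [h1, h2, h3] at h
  exact_mod_cast h

/-- `M u = u` implies that `𝒢_m u` has the circle mean value property (apply the identity to
`u ∘ g`, `Gm_smul`, `Mop_smul`) -/
theorem Gm_cmv {R : ℝ} (hR0 : 0 < R) (hR : R < 1) {u : 𝔻 → ℂ} (hu : Continuous u)
    (hM : ∀ z, Mop R u z = u z) : CMV (Gm R u) := by
  refine ⟨continuous_Gm hR0 hR hu, ?_⟩
  intro g x
  have hug : Continuous (fun w : 𝔻 => u (g • w)) := hu.comp (continuous_smul_disc g)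
  have h1 : ∀ z : 𝔻, Gm R u (g • z) = Gm R (fun w => u (g • w)) z := Gm_smul R u g
  by_cases hx : x = 0
  · subst hx
    have h2 : ∀ ξ : Circle, ξ • (0 : 𝔻) = 0 := by
      intro ξ
      apply UnitDisc.coe_injective
      rw [UnitDisc.coe_circle_smul]
      simp
    simp only [h2]
    simp
  · have h2 := green_identity hR0 hR hug hx
    have h3 : ∀ w : 𝔻, Mop R (fun w => u (g • w)) w = u (g • w) := by
      intro w
      rw [← Mop_smul, hM]
    have h4 : ∫ w : 𝔻, (gk ‖(x : ℂ)‖ ‖(w : ℂ)‖ : ℂ) * (Mop R (fun w => u (g • w)) w - u (g • w)) ∂area = 0 := by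
      rw [← integral_zero (α := 𝔻) (G := ℂ) (μ := area)]
      apply integral_congr_ae
      refine Filter.Eventually.of_forall fun w => ?_
      simp only
      rw [h3, sub_self, mul_zero]
    rw [h4, sub_eq_zero] at h2
    simp only [h1]
    exact h2

end

end Pool.Agent.Lib.MP_b16327_pr
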