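import Pool.Agent.Lib.MP_b16327_pr.CmvA

/-! # Maximum principle and harmonic polynomials -/

namespace Pool.Agent.Lib.MP_b16327_pr

open Complex MeasureTheory ComplexConjugate Filter
open scoped Complex.UnitDisc Topology BoundedContinuousFunction

noncomputable section

private theorem HarmA_lam_pos {U : Set Circle} (hU : IsOpen U) (hne : U.Nonempty) : lam U ≠ 0 := by
  obtain ⟨ξ, hξ⟩ := hne
  have hpi := Real.pi_pos
  -- an angle in `(0, 2π]`
  obtain ⟨θ, hθ, hθξ⟩ : ∃ θ : ℝ, θ ∈ Set.Ioc 0 (2 * Real.pi) ∧ Circle.exp θ = ξ := by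
    have h1 := Complex.arg_mem_Ioc (ξ : ℂ)
    by_cases h : 0 < (ξ : ℂ).arg
    · exact ⟨(ξ : ℂ).arg, ⟨h, by linarith [h1.2]⟩, Circle.exp_arg ξ⟩
    · refine ⟨(ξ : ℂ).arg + 2 * Real.pi, ⟨by linarith [h1.1], by linarith [not_lt.1 h]⟩, ?_⟩
      rw [Circle.exp_add, Circle.exp_two_pi, mul_one, Circle.exp_arg]
  have hV : IsOpen (Circle.exp ⁻¹' U) := hU.preimage (map_continuous _)
  have hθV : θ ∈ Circle.exp ⁻¹' U := by
    rw [Set.mem_preimage, hθξ]
    exact hξ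
  -- the open set meets the open interval
  have hcl : θ ∈ closure (Set.Ioo 0 (2 * Real.pi)) := by
    rw [closure_Ioo (by positivity)]
    exact ⟨hθ.1.le, hθ.2⟩
  have hne2 : (Circle.exp ⁻¹' U ∩ Set.Ioo 0 (2 * Real.pi)).Nonempty :=
    mem_closure_iff.1 hcl _ hV hθV
  have hpos : 0 < (volume : Measure ℝ) (Circle.exp ⁻¹' U ∩ Set.Ioo 0 (2 * Real.pi)) :=
    (hV.inter isOpen_Ioo).measure_pos _ hne2
  have hle : (volume : Measure ℝ) (Circle.exp ⁻¹' U ∩ Set.Ioo 0 (2 * Real.pi)) ≤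
      (volume.restrict (Set.Ioc 0 (2 * Real.pi))) (Circle.exp ⁻¹' U) := by
    rw [Measure.restrict_apply hV.measurableSet]
    exact measure_mono (Set.inter_subset_inter_right _ Set.Ioo_subset_Ioc_self)
  intro h0
  unfold lam at h0
  rw [Measure.smul_apply, Measure.map_apply (map_continuous _).measurable hU.measurableSet,
    smul_eq_mul, mul_eq_zero] at h0
  rcases h0 with h0 | h0
  · rw [ENNReal.ofReal_eq_zero] at h0
    have : 0 < 1 / (2 * Real.pi) := by positivity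
    linarith
  · rw [h0] at hle
    exact absurd (lt_of_lt_of_le hpos hle) (lt_irrefl _)

private instance HarmA_openPos : lam.IsOpenPosMeasure :=
  ⟨fun _ hU hne => HarmA_lam_pos hU hne⟩

/-- maximum principle on `‖z‖ ≤ r`: choose a point `z₀` of the (compact) set where `‖u‖` is
maximal on `‖z‖ ≤ r`, with `‖z₀‖` maximal among these; if `‖z₀‖ < r` then a small circle about
`z₀` (`tr z₀ • (ξ • x)`) lies in the disc and contains an open arc of points of larger modulus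
`> ‖z₀‖`, where `‖u‖` is strictly smaller; contradiction to `‖u z₀‖ ≤ ∫ ‖u‖`. -/
theorem CMV.max_principle {u : 𝔻 → ℂ} (hu : CMV u) {r C : ℝ} (hr0 : 0 < r) (hr : r < 1)
    (hC : ∀ z : 𝔻, ‖(z : ℂ)‖ = r → ‖u z‖ ≤ C) (z : 𝔻) (hz : ‖(z : ℂ)‖ ≤ r) : ‖u z‖ ≤ C := by
  have hcoe : Continuous (fun z : 𝔻 => ‖(z : ℂ)‖) := continuous_norm.comp UnitDisc.continuous_coe
  have hK : IsCompact {z : 𝔻 | ‖(z : ℂ)‖ ≤ r} := isCompact_closedBallD hr
  obtain ⟨z1, hz1, hmax1⟩ := hK.exists_isMaxOn ⟨z, hz⟩ (hu.cont.norm).continuousOn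
  set m := ‖u z1‖ with hm
  have hle : ∀ w : 𝔻, ‖(w : ℂ)‖ ≤ r → ‖u w‖ ≤ m := fun w hw => hmax1 hw
  have hS : IsCompact {w : 𝔻 | ‖(w : ℂ)‖ ≤ r ∧ ‖u w‖ = m} := by
    have h : {w : 𝔻 | ‖(w : ℂ)‖ ≤ r ∧ ‖u w‖ = m} =
        {w : 𝔻 | ‖(w : ℂ)‖ ≤ r} ∩ {w : 𝔻 | ‖u w‖ = m} := rfl
    rw [h]
    exact hK.inter_right (isClosed_eq hu.cont.norm continuous_const)
  obtain ⟨z0, hz0, hmax0⟩ := hS.exists_isMaxOn ⟨z1, hz1, rfl⟩ hcoe.continuousOn
  rcases hz0.1.lt_or_eq with hlt | heq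
  swap
  · exact (hle z hz).trans (hz0.2 ▸ hC z0 heq)
  exfalso
  -- a small radius
  have hev : ∀ᶠ w : 𝔻 in 𝓝 0, ‖((tr z0 • w : 𝔻) : ℂ)‖ < r := by
    have hc : Continuous (fun w : 𝔻 => ‖((tr z0 • w : 𝔻) : ℂ)‖) :=
      hcoe.comp (continuous_smul_disc (tr z0))
    refine hc.continuousAt.eventually_lt continuousAt_const ?_
    rw [tr_smul_zero]
    exact hlt
  obtain ⟨ρ, hρ0, hρ1, hρ⟩ : ∃ ρ : ℝ, 0 < ρ ∧ ρ < 1 ∧ ∀ w : 𝔻, ‖(w : ℂ)‖ = ρ →
      ‖((tr z0 • w : 𝔻) : ℂ)‖ < r := by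
    have hind : 𝓝 (0 : 𝔻) = Filter.comap (fun w : 𝔻 => (w : ℂ)) (𝓝 0) :=
      UnitDisc.isEmbedding_coe.toIsInducing.nhds_eq_comap 0
    rw [hind, Filter.eventually_comap] at hev
    obtain ⟨δ, hδ, h⟩ := Metric.eventually_nhds_iff.1 hev
    refine ⟨min (δ / 2) (1 / 2), by positivity, lt_of_le_of_lt (min_le_right _ _) (by norm_num),
      fun w hw => ?_⟩
    refine h (y := (w : ℂ)) ?_ w rfl
    rw [dist_zero_right, hw]
    exact lt_of_le_of_lt (min_le_left _ _) (by linarith)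
  -- the circle
  let x : 𝔻 := UnitDisc.mk (ρ : ℂ) (by rw [Complex.norm_real, Real.norm_eq_abs, abs_of_pos hρ0]; exact hρ1)
  have hx : (x : ℂ) = ρ := rfl
  have hxn : ∀ ξ : Circle, ‖((ξ • x : 𝔻) : ℂ)‖ = ρ := by
    intro ξ
    rw [UnitDisc.coe_circle_smul, norm_mul, Circle.norm_coe, one_mul, hx, Complex.norm_real,
      Real.norm_eq_abs, abs_of_pos hρ0]
  have hmean := hu.mean (tr z0) x
  rw [tr_smul_zero] at hmean
  have hcont : Continuous (fun ξ : Circle => ‖u (tr z0 • (ξ • x))‖) := by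
    refine (hu.cont.comp ((continuous_smul_disc (tr z0)).comp ?_)).norm
    exact continuous_rot_smul.comp (Continuous.prodMk continuous_id continuous_const)
  have hint : Integrable (fun ξ : Circle => ‖u (tr z0 • (ξ • x))‖) lam :=
    hcont.integrable_of_hasCompactSupport (HasCompactSupport.of_compactSpace _)
  have h1 : m ≤ ∫ ξ : Circle, ‖u (tr z0 • (ξ • x))‖ ∂lam := by
    rw [← hz0.2, ← hmean]
    exact norm_integral_le_integral_norm _
  have hnn : ∀ ξ : Circle, 0 ≤ m - ‖u (tr z0 • (ξ • x))‖ := fun ξ =>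
    sub_nonneg.2 (hle _ (hρ _ (hxn ξ)).le)
  have h2 : ∫ ξ : Circle, (m - ‖u (tr z0 • (ξ • x))‖) ∂lam ≤ 0 := by
    rw [integral_sub (integrable_const _) hint, integral_const, probReal_univ, one_smul]
    linarith
  -- the direction
  obtain ⟨ξ, hξ⟩ : ∃ ξ : Circle, ‖(z0 : ℂ)‖ < ‖((tr z0 • (ξ • x) : 𝔻) : ℂ)‖ := by
    by_cases hz : (z0 : ℂ) = 0
    · refine ⟨1, ?_⟩
      rw [coe_tr_smul, UnitDisc.coe_circle_smul, hz, hx]
      simp [abs_of_pos hρ0, hρ0]
    · have hn : 0 < ‖(z0 : ℂ)‖ := norm_pos_iff.2 hz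
      have hu1 : ‖(z0 : ℂ) / ‖(z0 : ℂ)‖‖ = 1 := by
        rw [norm_div, Complex.norm_real, norm_norm, div_self hn.ne']
      obtain ⟨ξ, hξ⟩ : ∃ ξ : Circle, (ξ : ℂ) = (z0 : ℂ) / ‖(z0 : ℂ)‖ :=
        ⟨⟨_, mem_sphere_zero_iff_norm.2 hu1⟩, rfl⟩
      refine ⟨ξ, ?_⟩
      · rw [coe_tr_smul, UnitDisc.coe_circle_smul, hx, hξ]
        have e0 : (‖(z0 : ℂ)‖ : ℂ) ≠ 0 := by exact_mod_cast hn.ne'
        have e1 : conj (z0 : ℂ) * (z0 : ℂ) = (‖(z0 : ℂ)‖ : ℂ) ^ 2 := by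
          rw [mul_comm, Complex.mul_conj, Complex.normSq_eq_norm_sq]
          push_cast
          ring
        have e2 : (1 + conj (z0 : ℂ) * ((z0 : ℂ) / ‖(z0 : ℂ)‖ * ρ)) =
            ((1 + ‖(z0 : ℂ)‖ * ρ : ℝ) : ℂ) := by
          push_cast
          have : conj (z0 : ℂ) * ((z0 : ℂ) / ‖(z0 : ℂ)‖ * ρ) =
              (conj (z0 : ℂ) * (z0 : ℂ)) / ‖(z0 : ℂ)‖ * ρ := by ring
          rw [this, e1]
          field_simp
        have e3 : ((z0 : ℂ) / ‖(z0 : ℂ)‖ * ρ + z0) =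
            ((z0 : ℂ) / ‖(z0 : ℂ)‖) * ((ρ + ‖(z0 : ℂ)‖ : ℝ) : ℂ) := by
          push_cast
          field_simp
        rw [e2, e3, norm_div, norm_mul, norm_div, Complex.norm_real, Complex.norm_real,
          Complex.norm_real, norm_norm, div_self hn.ne', one_mul, Real.norm_eq_abs,
          Real.norm_eq_abs, abs_of_pos (by positivity), abs_of_pos (by positivity),
          lt_div_iff₀ (by positivity)]
        have hz1' := z0.norm_lt_one
        nlinarith [mul_pos hρ0 (show 0 < 1 - ‖(z0 : ℂ)‖ ^ 2 by nlinarith)]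
  have hlt2 : ‖u (tr z0 • (ξ • x))‖ < m := by
    refine lt_of_le_of_ne (hle _ (hρ _ (hxn ξ)).le) fun he => ?_
    have h3 : ‖((tr z0 • (ξ • x) : 𝔻) : ℂ)‖ ≤ ‖(z0 : ℂ)‖ :=
      hmax0 (show tr z0 • (ξ • x) ∈ {w : 𝔻 | ‖(w : ℂ)‖ ≤ r ∧ ‖u w‖ = m} from
        ⟨(hρ _ (hxn ξ)).le, he⟩)
    linarith
  have h4 : 0 < ∫ ξ : Circle, (m - ‖u (tr z0 • (ξ • x))‖) ∂lam := by
    refine (continuous_const.sub hcont).integral_pos_of_hasCompactSupport_nonneg_nonzero
      (HasCompactSupport.of_compactSpace _) hnn (x := ξ) ?_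
    exact (sub_pos.2 hlt2).ne'
  linarith

/-- trigonometric polynomial approximation on the circle of radius `r` by harmonic polynomials
`∑_{k ≤ N} (a k z^k + b k conj z^k)` (Stone-Weierstrass / `span_fourier_closure_eq_top`) -/
theorem exists_harm_poly (F : Circle → ℂ) (hF : Continuous F) {r : ℝ} (hr0 : 0 < r)
    {ε : ℝ} (hε : 0 < ε) :
    ∃ (N : ℕ) (a b : ℕ → ℂ), ∀ ξ : Circle,
      ‖F ξ - ∑ k ∈ Finset.range N, (a k * (r * (ξ : ℂ)) ^ k + b k * conj ((r * (ξ : ℂ)) ^ k))‖ ≤ ε := by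
  have hfact : Fact (0 < 2 * Real.pi) := ⟨by positivity⟩
  have hr : (r : ℂ) ≠ 0 := by exact_mod_cast hr0.ne'
  let G : C(AddCircle (2 * Real.pi), ℂ) := ⟨fun x => F (AddCircle.toCircle x),
    hF.comp AddCircle.continuous_toCircle⟩
  have hG : G ∈ (Submodule.span ℂ (Set.range (@fourier (2 * Real.pi)))).topologicalClosure := by
    rw [span_fourier_closure_eq_top]
    trivial
  have hG2 : G ∈ closure (Submodule.span ℂ (Set.range (@fourier (2 * Real.pi))) : Set _) := hG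
  obtain ⟨P, hP, hGP⟩ := Metric.mem_closure_iff.1 hG2 ε hε
  -- the shape of the elements of the span
  have key : ∀ P ∈ Submodule.span ℂ (Set.range (@fourier (2 * Real.pi))),
      ∃ (N : ℕ) (a b : ℕ → ℂ), ∀ M, N ≤ M → ∀ x : AddCircle (2 * Real.pi),
        P x = ∑ k ∈ Finset.range M, (a k * (r * ((AddCircle.toCircle x : Circle) : ℂ)) ^ k +
          b k * conj ((r * ((AddCircle.toCircle x : Circle) : ℂ)) ^ k)) := by
    intro P hP
    induction hP using Submodule.span_induction with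
    | mem P hP =>
      obtain ⟨n, rfl⟩ := hP
      rcases Int.eq_nat_or_neg n with ⟨j, rfl | rfl⟩
      · refine ⟨j + 1, fun k => if k = j then ((r : ℂ) ^ j)⁻¹ else 0, fun _ => 0, fun M hM x => ?_⟩
        rw [Finset.sum_eq_single_of_mem j (Finset.mem_range.2 (by omega)) (by
          intro k _ hk
          simp [hk])]
        simp only [↓reduceIte, zero_mul, add_zero]
        rw [mul_pow, ← mul_assoc,
          inv_mul_cancel₀ (pow_ne_zero _ hr), one_mul, fourier_apply, natCast_zsmul,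
          AddCircle.toCircle_nsmul, Circle.coe_pow]
      · refine ⟨j + 1, fun _ => 0, fun k => if k = j then ((r : ℂ) ^ j)⁻¹ else 0, fun M hM x => ?_⟩
        rw [Finset.sum_eq_single_of_mem j (Finset.mem_range.2 (by omega)) (by
          intro k _ hk
          simp [hk])]
        simp only [↓reduceIte, zero_mul, zero_add]
        rw [mul_pow, map_mul, map_pow, map_pow, Complex.conj_ofReal,
          ← mul_assoc, inv_mul_cancel₀ (pow_ne_zero _ hr), one_mul, fourier_neg, fourier_apply,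
          natCast_zsmul, AddCircle.toCircle_nsmul, Circle.coe_pow, map_pow]
    | zero =>
      refine ⟨0, fun _ => 0, fun _ => 0, fun M _ x => ?_⟩
      simp
    | add P Q _ _ hP hQ =>
      obtain ⟨N, a, b, h⟩ := hP
      obtain ⟨N', a', b', h'⟩ := hQ
      refine ⟨max N N', fun k => a k + a' k, fun k => b k + b' k, fun M hM x => ?_⟩
      rw [ContinuousMap.add_apply, h M ((le_max_left _ _).trans hM) x,
        h' M ((le_max_right _ _).trans hM) x, ← Finset.sum_add_distrib]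
      refine Finset.sum_congr rfl fun k _ => ?_
      ring
    | smul c P _ hP =>
      obtain ⟨N, a, b, h⟩ := hP
      refine ⟨N, fun k => c * a k, fun k => c * b k, fun M hM x => ?_⟩
      rw [ContinuousMap.smul_apply, h M hM x, smul_eq_mul, Finset.mul_sum]
      refine Finset.sum_congr rfl fun k _ => ?_
      ring
  obtain ⟨N, a, b, h⟩ := key P hP
  refine ⟨N, a, b, fun ξ => ?_⟩
  have hx : (AddCircle.toCircle ((AddCircle.homeomorphCircle hfact.out.ne').symm ξ)) = ξ := by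
    rw [← AddCircle.homeomorphCircle_apply hfact.out.ne']
    exact (AddCircle.homeomorphCircle hfact.out.ne').apply_symm_apply ξ
  have h5 := h N le_rfl ((AddCircle.homeomorphCircle hfact.out.ne').symm ξ)
  rw [hx] at h5
  rw [← h5]
  have h6 : ‖(G - P) ((AddCircle.homeomorphCircle hfact.out.ne').symm ξ)‖ ≤ ‖G - P‖ :=
    ContinuousMap.norm_coe_le_norm _ _
  have h7 : G ((AddCircle.homeomorphCircle hfact.out.ne').symm ξ) = F ξ := by
    show F (AddCircle.toCircle _) = F ξ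
    rw [hx]
  rw [ContinuousMap.sub_apply, h7] at h6
  rw [dist_eq_norm] at hGP
  exact h6.trans hGP.le

end

end Pool.Agent.Lib.MP_b16327_pr
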