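import Pool.Agent.Lib.MP_b16327_pr.HarmA

/-! # Poisson representation -/

namespace Pool.Agent.Lib.MP_b16327_pr

open Complex MeasureTheory ComplexConjugate Filter
open scoped Complex.UnitDisc Topology BoundedContinuousFunction

noncomputable section

theorem HarmB_sub_ne {r : ℝ} (hr0 : 0 < r) {z : ℂ} (hz : ‖z‖ < r) (ξ : Circle) :
    (r * (ξ : ℂ) - z) ≠ 0 := by
  intro h
  have h1 : z = r * (ξ : ℂ) := by linear_combination -h
  rw [h1, norm_mul, Circle.norm_coe, mul_one, Complex.norm_real, Real.norm_of_nonneg hr0.le] at hz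
  exact lt_irrefl _ hz

/-- the Herglotz integral of a continuous function on the circle of radius `r` is holomorphic in
`‖z‖ < r` (differentiation under the integral sign or a power series) -/
theorem herglotz_holo (F : Circle → ℝ) (hF : Continuous F) {r : ℝ} (hr0 : 0 < r) :
    DifferentiableOn ℂ (fun z : ℂ => ∫ ξ : Circle, (F ξ : ℂ) * ((r * (ξ : ℂ) + z) / (r * (ξ : ℂ) - z))
      ∂lam) (Metric.ball 0 r) := by
  intro z₀ hz₀
  rw [mem_ball_zero_iff] at hz₀
  set δ : ℝ := (r - ‖z₀‖) / 2 with hδ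
  have hδ0 : 0 < δ := by rw [hδ]; linarith
  have hball : ∀ z ∈ Metric.ball z₀ δ, ‖z‖ < r - δ := by
    intro z hz
    rw [mem_ball_iff_norm] at hz
    have h1 : ‖z‖ ≤ ‖z - z₀‖ + ‖z₀‖ := by
      have := norm_add_le (z - z₀) z₀
      rwa [sub_add_cancel] at this
    rw [hδ] at hz ⊢
    linarith
  have hcont : ∀ z : ℂ, ‖z‖ < r →
      Continuous (fun ξ : Circle => (F ξ : ℂ) * ((r * (ξ : ℂ) + z) / (r * (ξ : ℂ) - z))) := by
    intro z hz
    refine (Complex.continuous_ofReal.comp hF).mul ?_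
    refine Continuous.div (by fun_prop) (by fun_prop) (fun ξ => HarmB_sub_ne hr0 hz ξ)
  have hcont' : ∀ z : ℂ, ‖z‖ < r →
      Continuous (fun ξ : Circle => (F ξ : ℂ) * (2 * r * (ξ : ℂ) / (r * (ξ : ℂ) - z) ^ 2)) := by
    intro z hz
    refine (Complex.continuous_ofReal.comp hF).mul ?_
    refine Continuous.div (by fun_prop) (by fun_prop)
      (fun ξ => pow_ne_zero 2 (HarmB_sub_ne hr0 hz ξ))
  have key := hasDerivAt_integral_of_dominated_loc_of_deriv_le (μ := lam) (𝕜 := ℂ)
    (F := fun z (ξ : Circle) => (F ξ : ℂ) * ((r * (ξ : ℂ) + z) / (r * (ξ : ℂ) - z)))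
    (F' := fun z (ξ : Circle) => (F ξ : ℂ) * (2 * r * (ξ : ℂ) / (r * (ξ : ℂ) - z) ^ 2))
    (x₀ := z₀) (s := Metric.ball z₀ δ) (bound := fun ξ => |F ξ| * (2 * r / δ ^ 2))
    (Metric.ball_mem_nhds z₀ hδ0)
    (by
      filter_upwards [Metric.ball_mem_nhds z₀ hδ0] with z hz
      exact (hcont z (by have := hball z hz; linarith)).aestronglyMeasurable)
    (CmvA_integrable (hcont z₀ hz₀))
    (hcont' z₀ hz₀).aestronglyMeasurable
    (by
      refine Eventually.of_forall fun ξ z hz => ?_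
      have h1 := hball z hz
      have h2 : δ ≤ ‖r * (ξ : ℂ) - z‖ := by
        have h3 : ‖r * (ξ : ℂ)‖ ≤ ‖r * (ξ : ℂ) - z‖ + ‖z‖ := by
          have := norm_add_le (r * (ξ : ℂ) - z) z
          rwa [sub_add_cancel] at this
        rw [norm_mul, Circle.norm_coe, mul_one, Complex.norm_real,
          Real.norm_of_nonneg hr0.le] at h3
        linarith
      rw [norm_mul, Complex.norm_real, Real.norm_eq_abs]
      refine mul_le_mul_of_nonneg_left ?_ (abs_nonneg _)
      rw [norm_div, norm_pow, norm_mul, norm_mul, Circle.norm_coe, mul_one, Complex.norm_real,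
        Real.norm_of_nonneg hr0.le, RCLike.norm_ofNat]
      gcongr)
    (CmvA_integrable (by fun_prop))
    (by
      refine Eventually.of_forall fun ξ z hz => ?_
      have h1 := hball z hz
      have h2 := HarmB_sub_ne hr0 (show ‖z‖ < r by linarith) ξ
      refine HasDerivAt.const_mul _ ?_
      have h3 : HasDerivAt (fun z : ℂ => r * (ξ : ℂ) + z) 1 z := (hasDerivAt_id z).const_add _
      have h4 : HasDerivAt (fun z : ℂ => r * (ξ : ℂ) - z) (-1) z := (hasDerivAt_id z).const_sub _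
      exact (h3.fun_div h4 h2).congr_deriv (by ring))
  exact key.2.differentiableAt.differentiableWithinAt

/-- the Poisson kernel -/
def HarmB_P (r : ℝ) (z : ℂ) (ξ : Circle) : ℝ := ((r * (ξ : ℂ) + z) / (r * (ξ : ℂ) - z)).re

theorem HarmB_P_cont {r : ℝ} (hr0 : 0 < r) {z : ℂ} (hz : ‖z‖ < r) : Continuous (HarmB_P r z) := by
  unfold HarmB_P
  refine Complex.continuous_re.comp ?_
  exact Continuous.div (by fun_prop) (by fun_prop) (fun ξ => HarmB_sub_ne hr0 hz ξ)

theorem HarmB_P_nonneg {r : ℝ} (hr0 : 0 < r) {z : ℂ} (hz : ‖z‖ < r) (ξ : Circle) :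
    0 ≤ HarmB_P r z ξ := by
  have h1 : (r * (ξ : ℂ)) ∈ Metric.sphere (0 : ℂ) r := by
    rw [mem_sphere_zero_iff_norm, norm_mul, Circle.norm_coe, mul_one, Complex.norm_real,
      Real.norm_of_nonneg hr0.le]
  have h2 : z ∈ Metric.ball (0 : ℂ) r := by rwa [mem_ball_zero_iff]
  have h3 := le_re_herglotzRieszKernel h1 h2
  simp only [sub_zero] at h3
  refine le_trans ?_ h3
  have := norm_nonneg z
  exact div_nonneg (by linarith) (by linarith)

/-- Poisson formula for entire functions -/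
theorem HarmB_poisson_holo {f : ℂ → ℂ} (hf : Differentiable ℂ f) {r : ℝ} (hr0 : 0 < r) {z : ℂ}
    (hz : ‖z‖ < r) : ∫ ξ : Circle, (HarmB_P r z ξ) • f (r * (ξ : ℂ)) ∂lam = f z := by
  have h1 : DiffContOnCl ℂ f (Metric.ball 0 r) := hf.diffContOnCl
  have h2 : z ∈ Metric.ball (0 : ℂ) r := by rwa [mem_ball_zero_iff]
  have h3 := h1.circleAverage_re_herglotzRieszKernel_smul h2
  rw [← h3]
  have h4 : Continuous (fun ξ : Circle => (HarmB_P r z ξ) • f (r * (ξ : ℂ))) :=
    (HarmB_P_cont hr0 hz).smul (hf.continuous.comp (by fun_prop))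
  have h5 : (fun ξ : Circle => (HarmB_P r z ξ) • f (r * (ξ : ℂ)))
      = fun ξ : Circle => ((re ∘ herglotzRieszKernel 0 z) • f) (r * (ξ : ℂ)) := by
    funext ξ
    simp [HarmB_P, herglotzRieszKernel]
  rw [h5] at h4 ⊢
  exact integral_lam _ r h4.aestronglyMeasurable

theorem HarmB_P_int {r : ℝ} (hr0 : 0 < r) {z : ℂ} (hz : ‖z‖ < r) :
    ∫ ξ : Circle, HarmB_P r z ξ ∂lam = 1 := by
  have h := HarmB_poisson_holo (f := fun _ => 1) (differentiable_const 1) hr0 hz
  have h1 : ∫ ξ : Circle, ((HarmB_P r z ξ : ℝ) : ℂ) ∂lam = 1 := by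
    rw [← h]
    refine integral_congr_ae (Eventually.of_forall fun ξ => ?_)
    simp
  rw [integral_complex_ofReal] at h1
  exact_mod_cast h1

theorem HarmB_poisson_conj {f : ℂ → ℂ} (hf : Differentiable ℂ f) {r : ℝ} (hr0 : 0 < r) {z : ℂ}
    (hz : ‖z‖ < r) :
    ∫ ξ : Circle, (HarmB_P r z ξ) • conj (f (r * (ξ : ℂ))) ∂lam = conj (f z) := by
  rw [← HarmB_poisson_holo hf hr0 hz, ← integral_conj]
  refine integral_congr_ae (Eventually.of_forall fun ξ => ?_)
  simp

/-- Poisson representation: for real continuous `u` with the mean value property and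
`‖z‖ < r < 1`, `u z = Re (Herglotz integral of u(r ·))`.  For `ε > 0` let `T` be the harmonic
polynomial of `exists_harm_poly` for `ξ ↦ u (r ξ)`; `u - T` has the mean value property, so
`|u - T| ≤ ε` on `‖z‖ ≤ r` by the maximum principle; `T` satisfies the Poisson formula
(`DiffContOnCl`/`HarmonicOnNhd` Poisson formulas of Mathlib) and the Poisson kernel is positive
with integral one. -/
theorem CMV.poisson {u : 𝔻 → ℝ} (hu : CMV (fun z => (u z : ℂ))) {r : ℝ} (hr0 : 0 < r) (hr : r < 1)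
    (z : 𝔻) (hz : ‖(z : ℂ)‖ < r) :
    u z = (∫ ξ : Circle, ((u (UnitDisc.mk (r * (ξ : ℂ)) (by
        rw [norm_mul, Circle.norm_coe, mul_one, Complex.norm_real, Real.norm_of_nonneg hr0.le]
        exact hr)) : ℝ) : ℂ) * ((r * (ξ : ℂ) + z) / (r * (ξ : ℂ) - z)) ∂lam).re := by
  have hn : ∀ ξ : Circle, ‖r * (ξ : ℂ)‖ < 1 := by
    intro ξ
    rw [norm_mul, Circle.norm_coe, mul_one, Complex.norm_real, Real.norm_of_nonneg hr0.le]
    exact hr
  have hrn : ‖(r : ℂ)‖ < 1 := by
    rw [Complex.norm_real, Real.norm_of_nonneg hr0.le]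
    exact hr
  obtain ⟨U, hU⟩ : ∃ U : Circle → ℝ,
      U = fun ξ : Circle => u (UnitDisc.mk (r * (ξ : ℂ)) (hn ξ)) := ⟨_, rfl⟩
  have hUx : ∀ ξ, U ξ = u (ξ • UnitDisc.mk (r : ℂ) hrn) := by
    intro ξ
    rw [hU]
    refine congrArg u ?_
    apply UnitDisc.coe_injective
    rw [UnitDisc.coe_circle_smul, UnitDisc.coe_mk, UnitDisc.coe_mk, mul_comm]
  have huc : Continuous u := by
    have h1 := Complex.continuous_re.comp hu.cont
    exact h1
  have hUc : Continuous U := by
    have h1 : Continuous (fun ξ : Circle => u (ξ • UnitDisc.mk (r : ℂ) hrn)) :=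
      huc.comp (continuous_rot_smul.comp (Continuous.prodMk continuous_id continuous_const))
    exact h1.congr (fun ξ => (hUx ξ).symm)
  have hPc := HarmB_P_cont hr0 hz
  -- the right-hand side
  have hrhs : (∫ ξ : Circle, ((U ξ : ℝ) : ℂ) * ((r * (ξ : ℂ) + z) / (r * (ξ : ℂ) - z)) ∂lam).re
      = ∫ ξ : Circle, HarmB_P r z ξ * U ξ ∂lam := by
    have hc : Continuous (fun ξ : Circle =>
        ((U ξ : ℝ) : ℂ) * ((r * (ξ : ℂ) + z) / (r * (ξ : ℂ) - z))) := by
      refine (Complex.continuous_ofReal.comp hUc).mul ?_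
      exact Continuous.div (by fun_prop) (by fun_prop) (fun ξ => HarmB_sub_ne hr0 hz ξ)
    have h1 := Complex.reCLM.integral_comp_comm (CmvA_integrable hc)
    rw [Complex.reCLM_apply] at h1
    rw [← h1]
    refine integral_congr_ae (Eventually.of_forall fun ξ => ?_)
    simp only [Complex.reCLM_apply, Complex.re_ofReal_mul, HarmB_P]
    ring
  have hgoal : u z = ∫ ξ : Circle, HarmB_P r z ξ * U ξ ∂lam := by
    have hle : ∀ ε : ℝ, 0 < ε → |u z - ∫ ξ : Circle, HarmB_P r z ξ * U ξ ∂lam| ≤ 2 * ε := by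
      intro ε hε
      obtain ⟨N, a, b, hab⟩ := exists_harm_poly (fun ξ => ((U ξ : ℝ) : ℂ))
        (Complex.continuous_ofReal.comp hUc) hr0 hε
      obtain ⟨p, hp⟩ : ∃ p : ℂ → ℂ, p = fun w => ∑ k ∈ Finset.range N, a k * w ^ k := ⟨_, rfl⟩
      obtain ⟨q, hq⟩ : ∃ q : ℂ → ℂ, q = fun w => ∑ k ∈ Finset.range N, conj (b k) * w ^ k :=
        ⟨_, rfl⟩
      have hpd : Differentiable ℂ p := by rw [hp]; fun_prop
      have hqd : Differentiable ℂ q := by rw [hq]; fun_prop
      have hT : ∀ w : ℂ, ∑ k ∈ Finset.range N, (a k * w ^ k + b k * conj (w ^ k))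
          = p w + conj (q w) := by
        intro w
        rw [hp, hq]
        simp only [map_sum, map_mul, Complex.conj_conj, map_pow]
        rw [← Finset.sum_add_distrib]
      have hab' : ∀ ξ : Circle, ‖((U ξ : ℝ) : ℂ) - (p (r * ξ) + conj (q (r * ξ)))‖ ≤ ε := by
        intro ξ
        have := hab ξ
        rwa [hT] at this
      -- maximum principle
      have hcmv : CMV (fun w : 𝔻 => ((u w : ℝ) : ℂ) - (p w + conj (q w))) :=
        hu.sub ((Holo.cmv (hpd.differentiableOn)).add (Holo.cmv (hqd.differentiableOn)).conj)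
      have hmax : ‖((u z : ℝ) : ℂ) - (p z + conj (q z))‖ ≤ ε := by
        refine hcmv.max_principle hr0 hr (fun w hw => ?_) z hz.le
        obtain ⟨ζ, hζ⟩ : ∃ ζ : Circle, ζ = Circle.exp (w : ℂ).arg := ⟨_, rfl⟩
        have hwζ : (w : ℂ) = r * (ζ : ℂ) := by
          rw [hζ, Circle.coe_exp, ← hw, Complex.norm_mul_exp_arg_mul_I]
        have h1 := hab' ζ
        have h2 : U ζ = u w := by
          rw [hU]
          refine congrArg u ?_
          apply UnitDisc.coe_injective
          rw [UnitDisc.coe_mk, hwζ]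
        rw [h2, ← hwζ] at h1
        exact h1
      -- Poisson for T
      have hpc : Continuous (fun ξ : Circle => HarmB_P r z ξ • p (r * (ξ : ℂ))) :=
        hPc.smul (hpd.continuous.comp (by fun_prop))
      have hqc : Continuous (fun ξ : Circle => HarmB_P r z ξ • conj (q (r * (ξ : ℂ)))) :=
        hPc.smul (Complex.continuous_conj.comp (hqd.continuous.comp (by fun_prop)))
      have hPT : ∫ ξ : Circle, HarmB_P r z ξ • (p (r * (ξ : ℂ)) + conj (q (r * (ξ : ℂ)))) ∂lam
          = p z + conj (q z) := by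
        simp only [smul_add]
        rw [integral_add (CmvA_integrable hpc) (CmvA_integrable hqc),
          HarmB_poisson_holo hpd hr0 hz, HarmB_poisson_conj hqd hr0 hz]
      have hTc : Continuous (fun ξ : Circle =>
          HarmB_P r z ξ • (p (r * (ξ : ℂ)) + conj (q (r * (ξ : ℂ))))) := by
        simp only [smul_add]
        exact hpc.add hqc
      have hUc' : Continuous (fun ξ : Circle => HarmB_P r z ξ • ((U ξ : ℝ) : ℂ)) :=
        hPc.smul (Complex.continuous_ofReal.comp hUc)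
      have hdiff : ‖(∫ ξ : Circle, HarmB_P r z ξ • ((U ξ : ℝ) : ℂ) ∂lam) - (p z + conj (q z))‖
          ≤ ε := by
        rw [← hPT, ← integral_sub (CmvA_integrable hUc') (CmvA_integrable hTc)]
        calc ‖∫ ξ : Circle, (HarmB_P r z ξ • ((U ξ : ℝ) : ℂ)
              - HarmB_P r z ξ • (p (r * (ξ : ℂ)) + conj (q (r * (ξ : ℂ))))) ∂lam‖
            ≤ ∫ ξ : Circle, HarmB_P r z ξ * ε ∂lam := by
              refine norm_integral_le_of_norm_le (CmvA_integrable (hPc.mul continuous_const)) ?_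
              refine Eventually.of_forall fun ξ => ?_
              rw [← smul_sub, norm_smul, Real.norm_of_nonneg (HarmB_P_nonneg hr0 hz ξ)]
              exact mul_le_mul_of_nonneg_left (hab' ξ) (HarmB_P_nonneg hr0 hz ξ)
          _ = ε := by rw [integral_mul_const, HarmB_P_int hr0 hz, one_mul]
      have hcast : ∫ ξ : Circle, HarmB_P r z ξ • ((U ξ : ℝ) : ℂ) ∂lam
          = ((∫ ξ : Circle, HarmB_P r z ξ * U ξ ∂lam : ℝ) : ℂ) := by
        rw [← integral_complex_ofReal]
        refine integral_congr_ae (Eventually.of_forall fun ξ => ?_)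
        simp
      rw [hcast] at hdiff
      have h6 : ‖((u z - ∫ ξ : Circle, HarmB_P r z ξ * U ξ ∂lam : ℝ) : ℂ)‖ ≤ 2 * ε := by
        have h7 : ((u z - ∫ ξ : Circle, HarmB_P r z ξ * U ξ ∂lam : ℝ) : ℂ)
            = (((u z : ℝ) : ℂ) - (p z + conj (q z)))
              - (((∫ ξ : Circle, HarmB_P r z ξ * U ξ ∂lam : ℝ) : ℂ) - (p z + conj (q z))) := by
          push_cast
          ring
        rw [h7]
        refine (norm_sub_le _ _).trans ?_
        linarith
      rwa [Complex.norm_real, Real.norm_eq_abs] at h6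
    have h0 : |u z - ∫ ξ : Circle, HarmB_P r z ξ * U ξ ∂lam| ≤ 0 := by
      refine le_of_forall_pos_le_add fun ε hε => ?_
      have := hle (ε / 2) (by linarith)
      linarith
    have h1 := abs_nonpos_iff.mp h0
    linarith
  rw [hgoal, ← hrhs]
  simp only [hU]

end

end Pool.Agent.Lib.MP_b16327_pr
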