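import Pool.Agent.Lib.MP_b16327_pr.MtpA

/-! # Coordinates about the real axis -/

namespace Pool.Agent.Lib.MP_b16327_pr

open Complex MeasureTheory ComplexConjugate Filter
open scoped Complex.UnitDisc Topology BoundedContinuousFunction

noncomputable section

/-- the angle coordinate `Im log ((1+z)/(1-z)) ∈ (-π/2, π/2)` about the real axis -/
def yc (z : 𝔻) : ℝ := Complex.arg ((1 + (z : ℂ)) / (1 - (z : ℂ)))

/-- the coordinate along the axis, `log |(1+z)/(1-z)|` -/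
def xc (z : 𝔻) : ℝ := Real.log ‖(1 + (z : ℂ)) / (1 - (z : ℂ))‖

private theorem HypA_one_sub_ne {z : ℂ} (hz : ‖z‖ < 1) : (1 : ℂ) - z ≠ 0 := by
  intro h
  have : z = 1 := by linear_combination -h
  rw [this, norm_one] at hz
  exact lt_irrefl _ hz

private theorem HypA_re {z : ℂ} (hz : ‖z‖ < 1) :
    ((1 + z) / (1 - z)).re = (1 - ‖z‖ ^ 2) / ‖1 - z‖ ^ 2 := by
  have h1 := HypA_one_sub_ne hz
  have h2 : ‖1 - z‖ ^ 2 ≠ 0 := pow_ne_zero _ (norm_ne_zero_iff.2 h1)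
  rw [Complex.div_re, ← Complex.normSq_eq_norm_sq, ← Complex.normSq_eq_norm_sq] at *
  rw [← add_div]
  congr 1
  simp only [Complex.add_re, Complex.add_im, Complex.sub_re, Complex.sub_im, Complex.one_re,
    Complex.one_im, Complex.normSq_apply]
  ring

private theorem HypA_re_pos {z : ℂ} (hz : ‖z‖ < 1) : 0 < ((1 + z) / (1 - z)).re := by
  rw [HypA_re hz]
  have h1 := HypA_one_sub_ne hz
  have h2 : 0 < 1 - ‖z‖ ^ 2 := by nlinarith [norm_nonneg z]
  have h3 : 0 < ‖1 - z‖ := norm_pos_iff.2 h1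
  positivity

private theorem HypA_slit {z : ℂ} (hz : ‖z‖ < 1) : (1 + z) / (1 - z) ∈ Complex.slitPlane :=
  Complex.mem_slitPlane_iff.2 (Or.inl (HypA_re_pos hz))

private theorem HypA_ne {z : ℂ} (hz : ‖z‖ < 1) : (1 + z) / (1 - z) ≠ 0 :=
  Complex.slitPlane_ne_zero (HypA_slit hz)

/-- `(1 + A_t z)/(1 - A_t z) = e^t (1+z)/(1-z)` -/
theorem cayley_At (t : ℝ) (z : 𝔻) :
    (1 + ((At t • z : 𝔻) : ℂ)) / (1 - ((At t • z : 𝔻) : ℂ)) =
      (Real.exp t : ℂ) * ((1 + (z : ℂ)) / (1 - (z : ℂ))) := by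
  have hz : ‖(z : ℂ)‖ < 1 := z.norm_lt_one
  have hden : (At t).den z ≠ 0 := (At t).den_ne_zero hz.le
  have h1 : (1 : ℂ) - z ≠ 0 := HypA_one_sub_ne hz
  have hden' : (At t).den z = (Real.sinh (t / 2) : ℂ) * z + (Real.cosh (t / 2) : ℂ) := by
    unfold SU11.den
    simp only [At, Complex.conj_ofReal]
  have ha : (At t).a = (Real.cosh (t / 2) : ℂ) := rfl
  have hb : (At t).b = (Real.sinh (t / 2) : ℂ) := rfl
  have hcs : (Real.cosh (t / 2) : ℂ) + (Real.sinh (t / 2) : ℂ) = (Real.exp (t / 2) : ℂ) := by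
    exact_mod_cast Real.cosh_add_sinh (t / 2)
  have hcs' : (Real.cosh (t / 2) : ℂ) - (Real.sinh (t / 2) : ℂ) = (Real.exp (-(t / 2)) : ℂ) := by
    exact_mod_cast Real.cosh_sub_sinh (t / 2)
  have hp : 1 + ((At t • z : 𝔻) : ℂ) = (Real.exp (t / 2) : ℂ) * (1 + z) / (At t).den z := by
    rw [coe_smul]
    unfold SU11.mob
    rw [eq_div_iff hden, add_mul, div_mul_cancel₀ _ hden, one_mul, hden', ha, hb, ← hcs]
    ring
  have hm : 1 - ((At t • z : 𝔻) : ℂ) = (Real.exp (-(t / 2)) : ℂ) * (1 - z) / (At t).den z := by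
    rw [coe_smul]
    unfold SU11.mob
    rw [eq_div_iff hden, sub_mul, div_mul_cancel₀ _ hden, one_mul, hden', ha, hb, ← hcs']
    ring
  have he : (Real.exp (-(t / 2)) : ℂ) ≠ 0 := by
    exact_mod_cast (Real.exp_pos _).ne'
  have hexp : (Real.exp (t / 2) : ℂ) = (Real.exp t : ℂ) * (Real.exp (-(t / 2)) : ℂ) := by
    have : Real.exp (t / 2) = Real.exp t * Real.exp (-(t / 2)) := by
      rw [← Real.exp_add]
      congr 1
      ring
    exact_mod_cast this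
  rw [hp, hm, div_div_div_cancel_right₀ hden, hexp]
  field_simp

theorem yc_At (t : ℝ) (z : 𝔻) : yc (At t • z) = yc z := by
  unfold yc
  rw [cayley_At, Complex.arg_real_mul _ (Real.exp_pos t)]

theorem xc_At (t : ℝ) (z : 𝔻) : xc (At t • z) = xc z + t := by
  unfold xc
  have h0 : ‖(1 + (z : ℂ)) / (1 - (z : ℂ))‖ ≠ 0 := norm_ne_zero_iff.2 (HypA_ne z.norm_lt_one)
  rw [cayley_At, norm_mul, Complex.norm_real, Real.norm_eq_abs, abs_of_pos (Real.exp_pos t),
    Real.log_mul (Real.exp_pos t).ne' h0, Real.log_exp, add_comm]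

private theorem HypA_cont : Continuous (fun z : 𝔻 => (1 + (z : ℂ)) / (1 - (z : ℂ))) := by
  have hc : Continuous (fun z : 𝔻 => (z : ℂ)) := UnitDisc.continuous_coe
  exact (continuous_const.add hc).div (continuous_const.sub hc)
    (fun z => HypA_one_sub_ne z.norm_lt_one)

theorem continuous_yc : Continuous yc := by
  rw [continuous_iff_continuousAt]
  intro z
  exact (Complex.continuousAt_arg (HypA_slit z.norm_lt_one)).comp
    (f := fun z : 𝔻 => (1 + (z : ℂ)) / (1 - (z : ℂ))) HypA_cont.continuousAt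

theorem continuous_xc : Continuous xc := by
  unfold xc
  exact HypA_cont.norm.log (fun z => norm_ne_zero_iff.2 (HypA_ne z.norm_lt_one))

/-- `xc + i yc = log((1+z)/(1-z))` -/
theorem xc_add_yc (z : 𝔻) : ((xc z : ℂ) + yc z * I) = Complex.log ((1 + (z : ℂ)) / (1 - (z : ℂ))) := by
  rfl

theorem holo_logc : DifferentiableOn ℂ (fun z : ℂ => Complex.log ((1 + z) / (1 - z)))
    (Metric.ball (0 : ℂ) 1) := by
  have h1 : DifferentiableOn ℂ (fun z : ℂ => (1 + z) / (1 - z)) (Metric.ball (0 : ℂ) 1) := by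
    apply DifferentiableOn.div
    · exact (differentiableOn_const _).add differentiableOn_id
    · exact (differentiableOn_const _).sub differentiableOn_id
    · intro z hz
      exact HypA_one_sub_ne (mem_ball_zero_iff.1 hz)
  exact h1.clog (fun z hz => HypA_slit (mem_ball_zero_iff.1 hz))

theorem abs_yc_lt (z : 𝔻) : |yc z| < Real.pi / 2 :=
  Complex.abs_arg_lt_pi_div_two_iff.2 (Or.inl (HypA_re_pos z.norm_lt_one))

/-- the tube `|yc| ≤ 1`, `|xc| ≤ T` is relatively compact -/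
theorem tube_compact (T : ℝ) : ∃ r : ℝ, r < 1 ∧ ∀ z : 𝔻, |yc z| ≤ 1 → |xc z| ≤ T →
    ‖(z : ℂ)‖ ≤ r := by
  set c : ℝ := 4 * (Real.exp (-T) * Real.cos 1) / (Real.exp T + 1) ^ 2 with hc
  have hc0 : 0 < c := by
    have := Real.cos_one_pos
    have := Real.exp_pos (-T)
    have := Real.exp_pos T
    positivity
  refine ⟨Real.sqrt (1 - c), ?_, ?_⟩
  · rw [Real.sqrt_lt' one_pos]
    linarith
  intro z hy hx
  have hz := z.norm_lt_one
  set w : ℂ := (1 + (z : ℂ)) / (1 - (z : ℂ)) with hw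
  have hw0 : w ≠ 0 := HypA_ne hz
  have hwn : 0 < ‖w‖ := norm_pos_iff.2 hw0
  have h1 := HypA_one_sub_ne hz
  have hxe : Real.exp (xc z) = ‖w‖ := by
    unfold xc
    rw [← hw, Real.exp_log hwn]
  have hle : ‖w‖ ≤ Real.exp T := by
    rw [← hxe]
    exact Real.exp_le_exp.2 (le_trans (le_abs_self _) hx)
  have hge : Real.exp (-T) ≤ ‖w‖ := by
    rw [← hxe]
    exact Real.exp_le_exp.2 (by linarith [(abs_le.1 hx).1])
  have hcos : Real.cos 1 ≤ Real.cos (yc z) := by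
    rw [← Real.cos_abs (yc z)]
    exact Real.cos_le_cos_of_nonneg_of_le_pi (abs_nonneg _) (by linarith [Real.pi_gt_three]) hy
  have hre : w.re = ‖w‖ * Real.cos (yc z) := by
    unfold yc
    rw [← hw, Complex.norm_mul_cos_arg]
  have hre2 : w.re = (1 - ‖(z : ℂ)‖ ^ 2) / ‖1 - (z : ℂ)‖ ^ 2 := HypA_re hz
  have hw1 : (w + 1) * (1 - (z : ℂ)) = 2 := by
    rw [hw, add_mul, div_mul_cancel₀ _ h1]
    ring
  have hn : ‖w + 1‖ * ‖1 - (z : ℂ)‖ = 2 := by
    rw [← norm_mul, hw1]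
    simp
  have h1n : 0 < ‖1 - (z : ℂ)‖ := norm_pos_iff.2 h1
  have hw1n : 0 < ‖w + 1‖ := by
    by_contra h
    have h0 : ‖w + 1‖ = 0 := le_antisymm (not_lt.1 h) (norm_nonneg _)
    rw [h0, zero_mul] at hn
    norm_num at hn
  have hw1le : ‖w + 1‖ ≤ Real.exp T + 1 := by
    calc ‖w + 1‖ ≤ ‖w‖ + ‖(1 : ℂ)‖ := norm_add_le _ _
      _ ≤ Real.exp T + 1 := by rw [norm_one]; linarith
  -- 1 - |z|^2 = 4 Re w / |w+1|^2
  have hkey : 1 - ‖(z : ℂ)‖ ^ 2 = 4 * w.re / ‖w + 1‖ ^ 2 := by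
    rw [hre2, eq_div_iff (pow_ne_zero _ hw1n.ne')]
    have h4 : (‖w + 1‖ * ‖1 - (z : ℂ)‖) ^ 2 = 4 := by rw [hn]; norm_num
    rw [mul_pow] at h4
    have h5 : ‖1 - (z : ℂ)‖ ^ 2 ≠ 0 := pow_ne_zero _ h1n.ne'
    field_simp
    linear_combination (1 - ‖(z : ℂ)‖ ^ 2) * h4
  have hcle : c ≤ 1 - ‖(z : ℂ)‖ ^ 2 := by
    rw [hkey, hc, hre]
    apply div_le_div₀
    · have : 0 < Real.cos (yc z) := lt_of_lt_of_le Real.cos_one_pos hcos
      positivity
    · have h6 : Real.exp (-T) * Real.cos 1 ≤ ‖w‖ * Real.cos (yc z) :=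
        mul_le_mul hge hcos Real.cos_one_pos.le hwn.le
      linarith
    · positivity
    · exact pow_le_pow_left₀ hw1n.le hw1le 2
  apply Real.le_sqrt_of_sq_le
  linarith

/-- side function of the real axis -/
def s0 (z : 𝔻) : ℝ := max (-1) (min 1 (yc z))

end

end Pool.Agent.Lib.MP_b16327_pr
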