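import Pool.Agent.Lib.MP_b16327_pr.SpecA
import Pool.Agent.Lib.MP_b16327_pr.GreenC
import Pool.Agent.Lib.MP_b16327_pr.HarmC

/-! # Abelian integrals -/

namespace Pool.Agent.Lib.MP_b16327_pr

open Complex MeasureTheory ComplexConjugate Filter
open scoped Complex.UnitDisc Topology BoundedContinuousFunction

noncomputable section

private theorem JA_cocpt {Γ : Subgroup SU11} {R : ℝ} (hL : Large Γ R) : IsCocpt Γ := by
  obtain ⟨_, _, r, _, hr1, h, _⟩ := hL
  exact ⟨r, hr1, h⟩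

/-- the averaging operator on `EG` -/
private theorem JA_exists_M0 {Γ : Subgroup SU11} (hc : IsCocpt Γ) {R : ℝ} (hR0 : 0 < R)
    (hR : R < 1) : ∃ M0 : EG Γ →L[ℂ] EG Γ, ∀ v z, ap (M0 v) z = Mop R (ap v) z := by
  have h1 : ∀ v : EG Γ, ∃ w : EG Γ, ∀ z, ap w z = Mop R (ap v) z := by
    intro v
    refine EG_exists_of hc (continuous_Mop hR (EG_continuous v)) ?_
    intro g hg z
    rw [Mop_smul]
    congr 1
    funext w
    exact EG_ap_smul v hg w
  choose m hm using h1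
  let L : EG Γ →ₗ[ℂ] EG Γ :=
    { toFun := m
      map_add' := by
        intro v w
        apply EG_ext
        intro z
        rw [hm, EG_ap_add, hm, hm]
        exact Mop_add hR (EG_continuous v) (EG_continuous w) z
      map_smul' := by
        intro c v
        apply EG_ext
        intro z
        rw [hm, RingHom.id_apply, EG_ap_smul_const, hm]
        exact Mop_mul_left R c (ap v) z }
  refine ⟨L.mkContinuous 1 ?_, fun v z => hm v z⟩
  intro v
  rw [one_mul]
  refine EG_norm_le _ (norm_nonneg _) fun z => ?_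
  show ‖ap (m v) z‖ ≤ ‖v‖
  rw [hm]
  exact norm_AvF_le hR0 hR fun w _ => EG_norm_ap_le v w

private theorem JA_Mop_re {R : ℝ} (hR : R < 1) {v : 𝔻 → ℂ} (hv : Continuous v) (z : 𝔻) :
    Mop R (fun w => (v w).re) z = (Mop R v z).re := by
  unfold Mop AvF
  have h1 := integrableOn_AvF (E := ℂ) hR (F := fun _ w => v w) (hv.comp continuous_snd) z
  rw [Complex.smul_re]
  congr 1
  exact (Complex.reCLM.integral_comp_comm h1)

/-- there is a real `M`-harmonic continuous `u` with `u (γ z) = u z + x γ`: `u = b + v`,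
`(1 - M) v = M b - b`; the right side has `I = 0` by mass transport (`F z w = b w - b z` is
antisymmetric), `S` from `exists_S`, take the real part. -/
theorem exists_u {Γ : Subgroup SU11} (hd : IsDisc Γ) (P : PU Γ) {R : ℝ}
    (hL : Large Γ R) (x : HomR Γ) :
    ∃ u : 𝔻 → ℝ, Continuous u ∧ (∀ (γ : Γ) (z : 𝔻), u ((γ : SU11) • z) = u z + ev x γ) ∧
      ∀ z, Mop R u z = u z := by
  have hc := JA_cocpt hL
  have hR0 : 0 < R := hL.1
  have hR : R < 1 := hL.2.1
  obtain ⟨b, hbc, hb⟩ := exists_b hd P x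
  obtain ⟨M0, hM0⟩ := JA_exists_M0 hc hR0 hR
  obtain ⟨_, S, hS⟩ := exists_S hd P hL M0 hM0
  have hMb : ∀ (γ : Γ) (z : 𝔻), Mop R b ((γ : SU11) • z) = Mop R b z + ev x γ := by
    intro γ z
    rw [Mop_smul]
    have h1 : (fun w => b ((γ : SU11) • w)) = fun w => b w + ev x γ := funext fun w => hb γ w
    rw [h1, Mop_add hR hbc continuous_const, Mop_const hR0 hR]
  have hMbc : Continuous (Mop R b) := continuous_Mop hR hbc
  obtain ⟨V, hV⟩ : ∃ V : EG Γ, ∀ z, ap V z = ((Mop R b z - b z : ℝ) : ℂ) := by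
    refine EG_exists_of hc (Complex.continuous_ofReal.comp (hMbc.sub hbc)) ?_
    intro g hg z
    have h1 := hMb ⟨g, hg⟩ z
    have h2 := hb ⟨g, hg⟩ z
    simp only at h1 h2
    rw [h1, h2]
    congr 1
    ring
  -- the mean of `V` vanishes
  have hFc : Continuous (fun p : 𝔻 × 𝔻 => (fun z w : 𝔻 => ((b w : ℂ) - (b z : ℂ))) p.1 p.2) := by
    have h1 : Continuous fun z : 𝔻 => (b z : ℂ) := Complex.continuous_ofReal.comp hbc
    exact (h1.comp continuous_snd).sub (h1.comp continuous_fst)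
  have hav : ∀ z, AvF R (fun z w : 𝔻 => ((b w : ℂ) - (b z : ℂ))) z = ap V z := by
    intro z
    have h1 : Continuous fun z : 𝔻 => (b z : ℂ) := Complex.continuous_ofReal.comp hbc
    have h2 := AvF_sub hR (F := fun _ w : 𝔻 => (b w : ℂ)) (G := fun z _ : 𝔻 => (b z : ℂ))
      (h1.comp continuous_snd) (h1.comp continuous_fst) z
    rw [h2, AvF_const_left hR0 hR, hV]
    have h3 : AvF R (fun _ w : 𝔻 => (b w : ℂ)) z = ((Mop R b z : ℝ) : ℂ) := Mop_ofReal R b z
    rw [h3]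
    push_cast
    ring
  have hav' : ∀ z, AvF R (fun z w : 𝔻 => ((b z : ℂ) - (b w : ℂ))) z = -ap V z := by
    intro z
    have h1 : Continuous fun z : 𝔻 => (b z : ℂ) := Complex.continuous_ofReal.comp hbc
    have h2 := AvF_sub hR (F := fun z _ : 𝔻 => (b z : ℂ)) (G := fun _ w : 𝔻 => (b w : ℂ))
      (h1.comp continuous_fst) (h1.comp continuous_snd) z
    rw [h2, AvF_const_left hR0 hR, hV]
    have h3 : AvF R (fun _ w : 𝔻 => (b w : ℂ)) z = ((Mop R b z : ℝ) : ℂ) := Mop_ofReal R b z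
    rw [h3]
    push_cast
    ring
  have hmtp := PU.mtp hd P hR (fun z w : 𝔻 => ((b w : ℂ) - (b z : ℂ))) hFc (by
    intro l hl z w
    have h1 := hb ⟨l, hl⟩ z
    have h2 := hb ⟨l, hl⟩ w
    simp only at h1 h2
    rw [h1, h2]
    push_cast
    ring)
  have hI : IG P V = 0 := by
    rw [IG_apply]
    have h1 : P.I (AvF R (fun z w : 𝔻 => ((b w : ℂ) - (b z : ℂ)))) = P.I (ap V) := by
      congr 1
      funext z
      exact hav z
    have h2 : P.I (AvF R (fun z w : 𝔻 => ((b z : ℂ) - (b w : ℂ)))) = -P.I (ap V) := by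
      have h3 : AvF R (fun z w : 𝔻 => ((b z : ℂ) - (b w : ℂ))) = fun z => (-1 : ℂ) * ap V z := by
        funext z
        rw [hav' z]
        ring
      rw [h3, PU.I_mul]
      ring
    rw [h1, h2] at hmtp
    have h4 : (2 : ℂ) * P.I (ap V) = 0 := by linear_combination hmtp
    exact (mul_eq_zero.1 h4).resolve_left two_ne_zero
  obtain ⟨_, hv, _⟩ := hS V hI
  set v := S V with hvdef
  have hvc : Continuous (ap v) := EG_continuous v
  have hvre : Continuous fun z => (ap v z).re := Complex.continuous_re.comp hvc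
  refine ⟨fun z => b z + (ap v z).re, hbc.add hvre, ?_, ?_⟩
  · intro γ z
    show b ((γ : SU11) • z) + (ap v ((γ : SU11) • z)).re = b z + (ap v z).re + ev x γ
    rw [hb γ z, EG_ap_smul v γ.2 z]
    ring
  · intro z
    rw [Mop_add hR hbc hvre, JA_Mop_re hR hvc]
    have h1 : ap v z - Mop R (ap v) z = ((Mop R b z - b z : ℝ) : ℂ) := by
      rw [← hV, ← hM0, ← EG_ap_sub, hv]
    have h2 := congrArg Complex.re h1
    rw [Complex.sub_re, Complex.ofReal_re] at h2
    linarith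

/-- the harmonic version: `(𝒢_m u) / c₁` has the circle mean value property -/
theorem exists_u_cmv {Γ : Subgroup SU11} (hd : IsDisc Γ) (hc : IsCocpt Γ) (x : HomR Γ) :
    ∃ u : 𝔻 → ℝ, (∀ (γ : Γ) (z : 𝔻), u ((γ : SU11) • z) = u z + ev x γ) ∧
      CMV (fun z => (u z : ℂ)) := by
  obtain ⟨P⟩ := exists_PU hd hc
  obtain ⟨R, hL⟩ := exists_large hc
  have hR0 : 0 < R := hL.1
  have hR : R < 1 := hL.2.1
  obtain ⟨u, huc, hu, hM⟩ := exists_u hd P hL x
  have hc1 := c1_pos hR0 hR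
  refine ⟨fun z => (c1 R)⁻¹ * Gm R u z, ?_, ?_⟩
  · intro γ z
    show (c1 R)⁻¹ * Gm R u ((γ : SU11) • z) = (c1 R)⁻¹ * Gm R u z + ev x γ
    have h1 : (fun w => u ((γ : SU11) • w)) = fun w => u w + ev x γ := funext fun w => hu γ w
    rw [Gm_smul, h1, Gm_add hR0 hR huc continuous_const, Gm_const hR0 hR, smul_eq_mul]
    field_simp
  · have h1 : CMV (Gm R (fun z => (u z : ℂ))) := by
      refine Gm_cmv hR0 hR (Complex.continuous_ofReal.comp huc) ?_
      intro z
      rw [Mop_ofReal, hM]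
    have h2 := h1.const_mul (((c1 R)⁻¹ : ℝ) : ℂ)
    have h3 : (fun z => (((c1 R)⁻¹ : ℝ) : ℂ) * Gm R (fun z => (u z : ℂ)) z) =
        fun z => (((c1 R)⁻¹ * Gm R u z : ℝ) : ℂ) := by
      funext z
      rw [Complex.ofReal_mul]
      congr 1
      unfold Gm
      rw [← integral_complex_ofReal]
      congr 1
      funext w
      simp
    rw [h3] at h2
    exact h2

/-- `Ψ` is an abelian integral with periods `x + i x'` -/
def IsPsi {Γ : Subgroup SU11} (Ψ : ℂ → ℂ) (x x' : HomR Γ) : Prop :=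
  Holo Ψ ∧ ∀ (γ : Γ) (z : 𝔻), Ψ (((γ : SU11) • z : 𝔻) : ℂ) = Ψ z + (ev x γ + ev x' γ * I)

/-- existence: `Re Ψ = u`; `Ψ(γ z) - Ψ(z)` has constant real part so is constant -/
theorem exists_Psi {Γ : Subgroup SU11} (hd : IsDisc Γ) (hc : IsCocpt Γ) (x : HomR Γ) :
    ∃ (Ψ : ℂ → ℂ) (x' : HomR Γ), IsPsi Ψ x x' := by
  obtain ⟨u, hu, hcmv⟩ := exists_u_cmv hd hc x
  obtain ⟨f, hf, hfu⟩ := hcmv.exists_re
  have key : ∀ (γ : Γ) (z : 𝔻), f (((γ : SU11) • z : 𝔻) : ℂ) = f z +
      (ev x γ + (((f (((γ : SU11) • (0 : 𝔻) : 𝔻) : ℂ) - f ((0 : 𝔻) : ℂ)).im : ℝ) : ℂ) * I) := by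
    intro γ z
    have hg : Holo (fun z => f ((γ : SU11).mob z) - f z - (ev x γ : ℂ)) :=
      ((hf.comp_smul (γ : SU11)).sub hf).sub (differentiableOn_const _)
    have hre : ∀ z : 𝔻, (f ((γ : SU11).mob z) - f z - (ev x γ : ℂ)).re = 0 := by
      intro z
      rw [Complex.sub_re, Complex.sub_re, Complex.ofReal_re, ← coe_smul, hfu, hfu, hu]
      ring
    obtain ⟨c, hcc⟩ := holo_eq_antiholo hg hg (by
      intro z
      apply Complex.ext
      · rw [Complex.add_re, Complex.conj_re, hre z]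
        simp
      · rw [Complex.add_im, Complex.conj_im]
        simp)
    have h1 := hcc z
    have h2 := hcc 0
    have h3 : f ((γ : SU11).mob ((0 : 𝔻) : ℂ)) - f ((0 : 𝔻) : ℂ) - (ev x γ : ℂ) =
        (((f (((γ : SU11) • (0 : 𝔻) : 𝔻) : ℂ) - f ((0 : 𝔻) : ℂ)).im : ℝ) : ℂ) * I := by
      apply Complex.ext
      · rw [hre 0]
        simp
      · rw [coe_smul]
        simp
    rw [coe_smul]
    have h4 : f ((γ : SU11).mob (z : ℂ)) - f z - (ev x γ : ℂ) =
        f ((γ : SU11).mob ((0 : 𝔻) : ℂ)) - f ((0 : 𝔻) : ℂ) - (ev x γ : ℂ) := by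
      exact h1.trans h2.symm
    rw [h3] at h4
    linear_combination h4
  let X' : HomR Γ := AddMonoidHom.mk' (fun γ : Additive Γ =>
    (f ((((Additive.toMul γ : Γ) : SU11) • (0 : 𝔻) : 𝔻) : ℂ) - f ((0 : 𝔻) : ℂ)).im) (by
      intro γ δ
      show (f ((((Additive.toMul γ * Additive.toMul δ : Γ) : SU11) • (0 : 𝔻) : 𝔻) : ℂ) -
        f ((0 : 𝔻) : ℂ)).im = _
      have h1 : (((Additive.toMul γ * Additive.toMul δ : Γ) : SU11) • (0 : 𝔻) : 𝔻) =
          ((Additive.toMul γ : Γ) : SU11) • (((Additive.toMul δ : Γ) : SU11) • (0 : 𝔻)) := by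
        rw [Subgroup.coe_mul, mul_smul]
      rw [h1, key (Additive.toMul γ) (((Additive.toMul δ : Γ) : SU11) • (0 : 𝔻))]
      simp
      ring)
  refine ⟨f, X', hf, fun γ z => ?_⟩
  rw [key γ z]
  rfl

end

end Pool.Agent.Lib.MP_b16327_pr
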