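import Mathlib

/-! # Finite residue fields of finitely generated rings -/

namespace Pool.Agent.Lib.MP_b16327_pr

noncomputable section

private theorem KA_jac : IsJacobsonRing ℤ := by
  rw [isJacobsonRing_iff_sInf_maximal]
  intro I hI
  by_cases hb : I = ⊥
  · refine ⟨{J | J.IsMaximal}, fun J hJ => Or.inl hJ, ?_⟩
    rw [hb]
    symm
    rw [eq_bot_iff]
    intro x hx
    rw [Ideal.mem_bot]
    by_contra hx0
    obtain ⟨p, hp1, hp2⟩ := Nat.exists_infinite_primes (x.natAbs + 1)
    have hpi : Prime (p : ℤ) := Nat.prime_iff_prime_int.1 hp2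
    have hmax : (Ideal.span {(p : ℤ)}).IsMaximal :=
      PrincipalIdealRing.isMaximal_of_irreducible hpi.irreducible
    have hmem : x ∈ Ideal.span {(p : ℤ)} := (Submodule.mem_sInf.1 hx) _ hmax
    rw [Ideal.mem_span_singleton] at hmem
    have h3 := Int.natAbs_dvd_natAbs.2 hmem
    rw [Int.natAbs_natCast] at h3
    have h4 := Nat.le_of_dvd (Int.natAbs_pos.2 hx0) h3
    omega
  · have hm : I.IsMaximal := hI.isMaximal hb
    refine ⟨{I}, fun J hJ => ?_, ?_⟩
    · rw [Set.mem_singleton_iff] at hJ
      rw [hJ]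
      exact Or.inl hm
    · rw [sInf_singleton]

/-- a field which is finitely generated as a ring is finite.  `ℤ` is a Jacobson ring; the kernel of
`ℤ → K` is maximal (`Ideal.isMaximal_comap...` for Jacobson rings and finite type maps), so `K` has
characteristic `p` and is finite over `ℤ/p` (Zariski's lemma,
`finite_of_finite_type_of_isJacobsonRing`). -/
theorem KA_finite_field (K : Type) [Field K] [Algebra.FiniteType ℤ K] : Finite K := by
  have hjac := KA_jac
  have hfin : Module.Finite ℤ K := finite_of_finite_type_of_isJacobsonRing ℤ K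
  obtain ⟨n, hn⟩ := CharP.exists K
  rcases Nat.eq_zero_or_pos n with h0 | h0
  · subst h0
    have hcz : CharZero K := CharP.charP_to_charZero K
    exfalso
    have hint : Algebra.IsIntegral ℤ K := Algebra.IsIntegral.of_finite ℤ K
    have hinj : Function.Injective (algebraMap ℤ K) := by
      have e : (algebraMap ℤ K : ℤ → K) = fun z : ℤ => (z : K) := by
        funext z
        simp
      rw [e]
      exact Int.cast_injective
    exact Int.not_isField (isField_of_isIntegral_of_isField hinj (Field.toIsField K))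
  · have i1 : NeZero n := ⟨h0.ne'⟩
    let i2 : Algebra (ZMod n) K := ZMod.algebra K n
    have i3 : IsScalarTower ℤ (ZMod n) K := by
      refine ⟨fun x y z => ?_⟩
      rw [zsmul_eq_mul, Algebra.smul_def, map_mul, map_intCast, Algebra.smul_def x,
        Algebra.smul_def y, eq_intCast, mul_assoc]
    have i4 : Module.Finite (ZMod n) K := Module.Finite.of_restrictScalars_finite ℤ (ZMod n) K
    exact Module.finite_of_finite (ZMod n)

private theorem KA_surj (A K : Type) [CommRing A] [Field K] [Algebra.FiniteType ℤ A] (f : A →+* K)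
    (hf : Function.Surjective f) : Finite K := by
  have i1 : Algebra.FiniteType ℤ K := Algebra.FiniteType.of_surjective f.toIntAlgHom hf
  exact KA_finite_field K

/-- a non-zero finitely generated ring has a homomorphism to a finite field -/
theorem KA_exists_hom (A : Type) [CommRing A] [Nontrivial A] [Algebra.FiniteType ℤ A] :
    ∃ (K : Type) (_ : Field K) (_ : Finite K), Nonempty (A →+* K) := by
  obtain ⟨m, hm⟩ := Ideal.exists_maximal A
  exact ⟨A ⧸ m, Ideal.Quotient.field m,
    @KA_surj A (A ⧸ m) _ (Ideal.Quotient.field m) _ (Ideal.Quotient.mk m) Ideal.Quotient.mk_surjective,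
    ⟨Ideal.Quotient.mk m⟩⟩

/-- for finitely many real numbers `T` and a finite set `U` of non-zero elements of the ring
generated by `T`, there is a subring `A` of `ℝ` containing `T` and a homomorphism to a finite field
which does not kill any element of `U`.  (Take the subring generated by `T` and the inverse of the
product of the elements of `U`, which is finitely generated; `KA_exists_hom`.) -/
theorem KA_separate (T U : Finset ℝ) (hU : ∀ u ∈ U, u ≠ 0 ∧ u ∈ Subring.closure (T : Set ℝ)) :
    ∃ (A : Subring ℝ) (K : Type) (_ : Field K) (_ : Finite K) (f : A →+* K),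
      (T : Set ℝ) ⊆ A ∧ ∀ (u : ℝ) (hu : u ∈ U) (hA : u ∈ A), f ⟨u, hA⟩ ≠ 0 := by
  classical
  set d : ℝ := ∏ u ∈ U, u with hd
  have hd0 : d ≠ 0 := Finset.prod_ne_zero_iff.2 fun u hu => (hU u hu).1
  set B : Subalgebra ℤ ℝ := Algebra.adjoin ℤ ((insert d⁻¹ T : Finset ℝ) : Set ℝ) with hB
  have hTB : ∀ t ∈ T, t ∈ B := fun t ht =>
    Algebra.subset_adjoin (by exact_mod_cast Finset.mem_insert_of_mem ht)
  have hdB : d⁻¹ ∈ B := Algebra.subset_adjoin (by exact_mod_cast Finset.mem_insert_self d⁻¹ T)
  have hUB : ∀ u ∈ U, u ∈ B := by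
    intro u hu
    have h1 : Subring.closure (T : Set ℝ) ≤ B.toSubring := by
      rw [Subring.closure_le]
      intro t ht
      exact hTB t ht
    exact h1 (hU u hu).2
  have i3 : Algebra.FiniteType ℤ B := by
    rw [← Subalgebra.fg_iff_finiteType]
    exact Subalgebra.fg_adjoin_finset _
  obtain ⟨K, i1, i2, ⟨f⟩⟩ := KA_exists_hom B
  refine ⟨B.toSubring, K, i1, i2, f, hTB, ?_⟩
  intro u hu hA h0
  -- the inverse of `u` in `B`
  have hv : (∏ v ∈ U.erase u, v) * d⁻¹ ∈ B :=
    B.mul_mem (B.prod_mem fun v hv => hUB v (Finset.mem_of_mem_erase hv)) hdB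
  have hmul : u * ((∏ v ∈ U.erase u, v) * d⁻¹) = 1 := by
    rw [← mul_assoc, Finset.mul_prod_erase U (fun v => v) hu, ← hd, mul_inv_cancel₀ hd0]
  have h1 : (⟨u, hA⟩ : B) * (⟨_, hv⟩ : B) = 1 := Subtype.ext hmul
  have h2 : f (⟨u, hA⟩ : B) * f (⟨_, hv⟩ : B) = 1 := by rw [← map_mul, h1, map_one]
  have h3 : f (⟨u, hA⟩ : B) = 0 := h0
  rw [h3, zero_mul] at h2
  exact zero_ne_one h2

end

end Pool.Agent.Lib.MP_b16327_pr
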