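import Pool.Agent.Lib.MP_b16327_pr.Defs


/-! # The real matrix of an element and separation in finite quotients -/

namespace Pool.Agent.Lib.MP_b16327_pr

open Complex MeasureTheory ComplexConjugate Filter
open scoped Complex.UnitDisc Topology

noncomputable section

/-- the real matrix of `g`, in the coordinate `i (1+z)/(1-z)` -/
def rho (g : SU11) : Matrix (Fin 2) (Fin 2) ℝ :=
  !![(g.a + g.b).re, (g.a - g.b).im; -(g.a + g.b).im, (g.a - g.b).re]

theorem rho_mul (g h : SU11) : rho (g * h) = rho g * rho h := by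
  ext i j
  fin_cases i <;> fin_cases j <;>
    simp [rho, Matrix.mul_apply, Fin.sum_univ_two, SU11.mul_a, SU11.mul_b] <;> ring

theorem rho_one : rho 1 = 1 := by
  ext i j
  fin_cases i <;> fin_cases j <;> simp [rho]

theorem rho_det (g : SU11) : (rho g).det = 1 := by
  have h := g.det
  rw [Complex.normSq_apply, Complex.normSq_apply] at h
  rw [rho, Matrix.det_fin_two_of]
  simp only [Complex.add_re, Complex.add_im, Complex.sub_re, Complex.sub_im]
  linear_combination h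

private theorem KB_conj_mul (g x y : SU11) : g⁻¹ * (x * y) * g = (g⁻¹ * x * g) * (g⁻¹ * y * g) := by
  group

private theorem KB_conj_inv (g x : SU11) : g⁻¹ * x⁻¹ * g = (g⁻¹ * x * g)⁻¹ := by
  group

/-- elements which preserve the geodesic `g (-1,1)` and its direction: `g⁻¹ γ g` is real -/
def Dg (g : SU11) : Subgroup SU11 where
  carrier := {γ | (g⁻¹ * γ * g).a.im = 0 ∧ (g⁻¹ * γ * g).b.im = 0}
  mul_mem' := by
    rintro x y ⟨hx1, hx2⟩ ⟨hy1, hy2⟩
    show (g⁻¹ * (x * y) * g).a.im = 0 ∧ (g⁻¹ * (x * y) * g).b.im = 0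
    rw [KB_conj_mul]
    constructor
    · rw [SU11.mul_a, Complex.add_im, Complex.mul_im, Complex.mul_im, Complex.conj_im, hx1, hx2, hy1, hy2]
      ring
    · rw [SU11.mul_b, Complex.add_im, Complex.mul_im, Complex.mul_im, Complex.conj_im, hx1, hx2, hy1, hy2]
      ring
  one_mem' := by
    show (g⁻¹ * 1 * g).a.im = 0 ∧ (g⁻¹ * 1 * g).b.im = 0
    rw [mul_one, inv_mul_cancel]
    simp
  inv_mem' := by
    rintro x ⟨hx1, hx2⟩
    show (g⁻¹ * x⁻¹ * g).a.im = 0 ∧ (g⁻¹ * x⁻¹ * g).b.im = 0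
    rw [KB_conj_inv]
    constructor
    · rw [SU11.inv_a, Complex.conj_im, hx1, neg_zero]
    · rw [SU11.inv_b, Complex.neg_im, hx2, neg_zero]

private theorem KB_mem (g γ : SU11) :
    γ ∈ Dg g ↔ (g⁻¹ * γ * g).a.im = 0 ∧ (g⁻¹ * γ * g).b.im = 0 := Iff.rfl

/-- `γ ∈ Dg g` iff the real matrix of `g⁻¹ γ g` is diagonal -/
theorem mem_Dg_iff (g γ : SU11) :
    γ ∈ Dg g ↔ rho (g⁻¹ * γ * g) 0 1 = 0 ∧ rho (g⁻¹ * γ * g) 1 0 = 0 := by
  rw [KB_mem]
  have h01 : rho (g⁻¹ * γ * g) 0 1 = (g⁻¹ * γ * g).a.im - (g⁻¹ * γ * g).b.im := by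
    simp [rho]
  have h10 : rho (g⁻¹ * γ * g) 1 0 = -((g⁻¹ * γ * g).a.im + (g⁻¹ * γ * g).b.im) := by
    simp [rho]
  rw [h01, h10]
  constructor
  · rintro ⟨h1, h2⟩
    rw [h1, h2]
    simp
  · rintro ⟨h1, h2⟩
    constructor <;> linarith

/-- elements of `Dg g` act as translations along the geodesic: `g⁻¹ γ g` acts as `At t` -/
theorem exists_At_of_mem_Dg {g γ : SU11} (h : γ ∈ Dg g) :
    ∃ t : ℝ, ∀ z : 𝔻, (g⁻¹ * γ * g) • z = At t • z := by
  obtain ⟨h1, h2⟩ := (KB_mem g γ).1 h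
  set x := g⁻¹ * γ * g with hx
  have ha : x.a = ((x.a.re : ℝ) : ℂ) := Complex.ext (by simp) (by simp [h1])
  have hb : x.b = ((x.b.re : ℝ) : ℂ) := Complex.ext (by simp) (by simp [h2])
  have hdet := x.det
  rw [ha, hb, Complex.normSq_ofReal, Complex.normSq_ofReal] at hdet
  rcases lt_or_ge 0 x.a.re with hpos | hneg
  · refine ⟨2 * Real.arsinh x.b.re, ?_⟩
    have hs : Real.sinh (2 * Real.arsinh x.b.re / 2) = x.b.re := by
      rw [mul_div_cancel_left₀ _ (two_ne_zero), Real.sinh_arsinh]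
    have hc : Real.cosh (2 * Real.arsinh x.b.re / 2) = x.a.re := by
      rw [mul_div_cancel_left₀ _ (two_ne_zero), Real.cosh_arsinh]
      rw [show 1 + x.b.re ^ 2 = x.a.re ^ 2 by linarith, Real.sqrt_sq hpos.le]
    intro z
    apply UnitDisc.coe_injective
    rw [coe_smul, coe_smul]
    simp only [SU11.mob, SU11.den, At, hs, hc]
    rw [ha, hb]
    simp only [Complex.ofReal_re]
  · refine ⟨2 * Real.arsinh (-x.b.re), ?_⟩
    have hs : Real.sinh (2 * Real.arsinh (-x.b.re) / 2) = -x.b.re := by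
      rw [mul_div_cancel_left₀ _ (two_ne_zero), Real.sinh_arsinh]
    have hc : Real.cosh (2 * Real.arsinh (-x.b.re) / 2) = -x.a.re := by
      rw [mul_div_cancel_left₀ _ (two_ne_zero), Real.cosh_arsinh]
      rw [show 1 + (-x.b.re) ^ 2 = (-x.a.re) ^ 2 by linarith, Real.sqrt_sq (by linarith)]
    intro z
    apply UnitDisc.coe_injective
    rw [coe_smul, coe_smul]
    simp only [SU11.mob, SU11.den, At, hs, hc]
    rw [ha, hb]
    simp only [Complex.ofReal_re, Complex.conj_ofReal, Complex.ofReal_neg]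
    rw [← neg_div_neg_eq, ← Complex.ofReal_neg, ← Complex.ofReal_neg, Complex.conj_ofReal, Complex.conj_ofReal]
    push_cast
    congr 1 <;> ring

/-- an element acting trivially is real, with `b = 0` -/
private theorem KB_trivial {x : SU11} (h : ∀ z : 𝔻, x • z = z) : x.b = 0 ∧ x.a.im = 0 := by
  have h0 := congrArg (fun z : 𝔻 => (z : ℂ)) (h 0)
  simp only [coe_smul, SU11.mob, SU11.den, UnitDisc.coe_zero, mul_zero, zero_add] at h0
  have hca : conj x.a ≠ 0 := by
    rw [Ne, map_eq_zero]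
    exact x.a_ne_zero
  have hb : x.b = 0 := by
    rw [div_eq_zero_iff] at h0
    rcases h0 with h0 | h0
    · exact h0
    · exact (hca h0).elim
  refine ⟨hb, ?_⟩
  set w : 𝔻 := UnitDisc.mk (1 / 2 : ℂ) (by norm_num) with hw
  have hw' : (w : ℂ) = 1 / 2 := rfl
  have h1 := congrArg (fun z : 𝔻 => (z : ℂ)) (h w)
  simp only [coe_smul, SU11.mob, SU11.den, hb, map_zero, zero_mul, zero_add, add_zero, hw'] at h1
  rw [div_eq_iff hca] at h1
  have h2 : x.a = conj x.a := by linear_combination 2 * h1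
  exact Complex.conj_eq_iff_im.1 h2.symm

/-- conversely an element acting as a translation along the geodesic is in `Dg g` -/
theorem mem_Dg_of_eq {g γ : SU11} {t : ℝ} (h : ∀ z : 𝔻, γ • z = (g * At t * g⁻¹) • z) :
    γ ∈ Dg g := by
  have h1 : ∀ z : 𝔻, ((g⁻¹ * γ * g) * (At t)⁻¹) • z = z := by
    intro z
    have h2 := h (g • (At t)⁻¹ • z)
    rw [mul_smul, mul_smul, mul_smul, h2, ← mul_smul, ← mul_smul, ← mul_smul]
    have : g⁻¹ * (g * At t * g⁻¹) * g * (At t)⁻¹ = 1 := by group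
    rw [this, one_smul]
  obtain ⟨hb, ha⟩ := KB_trivial h1
  have h3 : g⁻¹ * γ * g = ((g⁻¹ * γ * g) * (At t)⁻¹) * At t := by group
  rw [KB_mem, h3]
  generalize (g⁻¹ * γ * g) * (At t)⁻¹ = x at hb ha
  have hAa : (At t).a.im = 0 := Complex.ofReal_im _
  have hAb : (At t).b.im = 0 := Complex.ofReal_im _
  constructor
  · rw [SU11.mul_a, hb, zero_mul, add_zero, Complex.mul_im, ha, hAa, mul_zero, zero_mul, add_zero]
  · rw [SU11.mul_b, hb, zero_mul, add_zero, Complex.mul_im, ha, hAb, mul_zero, zero_mul, add_zero]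

private theorem KB_rho_inv (x : SU11) : rho x⁻¹ = !![rho x 1 1, -rho x 0 1; -rho x 1 0, rho x 0 0] := by
  ext i j
  fin_cases i <;> fin_cases j <;> simp [rho] <;> ring

/-- conjugating a translation by a non-diagonal, non-antidiagonal element: if
`δ⁻¹ γ δ ∈ Dg g` with `γ ∈ Dg g` acting non-trivially, then `δ` maps the geodesic to itself:
`δ ∈ Dg g`, or there are two points of the geodesic exchanged..., in any case
`δ • (g • 0)` is on the geodesic: `yc (g⁻¹ • δ • g • 0) = 0`.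
(Matrices: with `rho(g⁻¹ δ g) = (p q; r s)` and `rho(g⁻¹ γ g) = ± diag(w, 1/w)`, `w ≠ ± 1`, the
off-diagonal entries of the conjugate are `s q (w - 1/w)` and `-p r (w - 1/w)`; both vanish iff
`q = r = 0` or `p = s = 0`.) -/
theorem conj_mem_Dg {g γ δ : SU11} {t : ℝ} (ht : t ≠ 0)
    (hγ : ∀ z : 𝔻, γ • z = (g * At t * g⁻¹) • z) (h : δ⁻¹ * γ * δ ∈ Dg g) :
    ((g⁻¹ * δ * g).a.im = 0 ∧ (g⁻¹ * δ * g).b.im = 0) ∨
      ((g⁻¹ * δ * g).a.re = 0 ∧ (g⁻¹ * δ * g).b.re = 0) := by
  obtain ⟨hYa, hYb⟩ := (KB_mem g γ).1 (mem_Dg_of_eq hγ)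
  set Y := g⁻¹ * γ * g with hY
  set X := g⁻¹ * δ * g with hX
  -- `Y.b ≠ 0`
  have hYb0 : Y.b ≠ 0 := by
    intro h0
    have h1 : Y • (0 : 𝔻) = At t • (0 : 𝔻) := by
      rw [hY, mul_smul, mul_smul, hγ, ← mul_smul, ← mul_smul]
      congr 1
      group
    have h2 := congrArg (fun z : 𝔻 => (z : ℂ)) h1
    simp only [coe_smul, SU11.mob, SU11.den, UnitDisc.coe_zero, mul_zero, zero_add, h0, zero_div, At] at h2
    rw [Complex.conj_ofReal, eq_comm, div_eq_zero_iff] at h2
    rcases h2 with h2 | h2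
    · have h3 : Real.sinh (t / 2) = 0 := by exact_mod_cast h2
      rw [Real.sinh_eq_zero] at h3
      exact ht (by linarith)
    · have h3 : Real.cosh (t / 2) = 0 := by exact_mod_cast h2
      exact (Real.cosh_pos _).ne' h3
  have hβ : Y.b.re ≠ 0 := by
    intro h0
    exact hYb0 (Complex.ext h0 hYb)
  have hc : g⁻¹ * (δ⁻¹ * γ * δ) * g = X⁻¹ * Y * X := by
    rw [hX, hY]
    group
  obtain ⟨h01, h10⟩ := (mem_Dg_iff g _).1 h
  rw [hc, rho_mul, rho_mul, KB_rho_inv] at h01 h10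
  have hd := rho_det X
  rw [Matrix.det_fin_two] at hd
  have hY' : rho Y = !![Y.a.re + Y.b.re, 0; 0, Y.a.re - Y.b.re] := by
    ext i j
    fin_cases i <;> fin_cases j <;> simp [rho, hYa, hYb]
  rw [hY'] at h01 h10
  simp [Matrix.mul_apply, Fin.sum_univ_two] at h01 h10
  have e1 : Y.b.re * (rho X 1 1 * rho X 0 1) = 0 := by linear_combination h01 / 2
  have e2 : Y.b.re * (rho X 0 0 * rho X 1 0) = 0 := by linear_combination -h10 / 2
  have e1' := (mul_eq_zero.1 e1).resolve_left hβ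
  have e2' := (mul_eq_zero.1 e2).resolve_left hβ
  have r00 : rho X 0 0 = X.a.re + X.b.re := by simp [rho]
  have r01 : rho X 0 1 = X.a.im - X.b.im := by simp [rho]
  have r10 : rho X 1 0 = -(X.a.im + X.b.im) := by simp [rho]
  have r11 : rho X 1 1 = X.a.re - X.b.re := by simp [rho]
  rcases mul_eq_zero.1 e1' with e | e
  · -- `s = 0`
    right
    have hr : rho X 1 0 ≠ 0 := by
      intro hr
      rw [e, hr] at hd
      simp at hd
    have hp := (mul_eq_zero.1 e2').resolve_right hr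
    rw [r00] at hp
    rw [r11] at e
    constructor <;> linarith
  · left
    have hp : rho X 0 0 ≠ 0 := by
      intro hp
      rw [e, hp] at hd
      simp at hd
    have hr := (mul_eq_zero.1 e2').resolve_left hp
    rw [r10] at hr
    rw [r01] at e
    constructor <;> linarith

end

end Pool.Agent.Lib.MP_b16327_pr
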