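import Pool.Agent.Lib.MP_b16327_pr.KB
import Pool.Agent.Lib.MP_b16327_pr.KA

/-! # Separation in finite quotients -/

namespace Pool.Agent.Lib.MP_b16327_pr

open Complex MeasureTheory ComplexConjugate Filter
open scoped Complex.UnitDisc Topology

noncomputable section

/-- the conjugated real matrix -/
private def KBs_R (g γ : SU11) : Matrix (Fin 2) (Fin 2) ℝ := rho (g⁻¹ * γ * g)

private theorem KBs_R_mul (g γ δ : SU11) : KBs_R g (γ * δ) = KBs_R g γ * KBs_R g δ := by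
  unfold KBs_R
  rw [← rho_mul]
  congr 1
  group

private theorem KBs_R_one (g : SU11) : KBs_R g 1 = 1 := by
  unfold KBs_R
  rw [mul_one, inv_mul_cancel, rho_one]

private theorem KBs_rho_inv (h : SU11) :
    rho h⁻¹ = !![rho h 1 1, - rho h 0 1; - rho h 1 0, rho h 0 0] := by
  unfold rho
  ext i j
  fin_cases i <;> fin_cases j <;> simp [sub_eq_add_neg, add_comm]

private theorem KBs_R_inv (g γ : SU11) : KBs_R g γ⁻¹ =
    !![KBs_R g γ 1 1, - KBs_R g γ 0 1; - KBs_R g γ 1 0, KBs_R g γ 0 0] := by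
  unfold KBs_R
  rw [← KBs_rho_inv]
  congr 1
  group

/-- entries are in a subring containing the entries of the generators -/
private theorem KBs_entries (T : Finset SU11) (g : SU11) (S : Subring ℝ)
    (hT : ∀ s ∈ T, ∀ i j, KBs_R g s i j ∈ S) :
    ∀ γ ∈ Subgroup.closure (T : Set SU11), ∀ i j, KBs_R g γ i j ∈ S := by
  intro γ hγ
  induction hγ using Subgroup.closure_induction with
  | mem x hx => exact hT x hx
  | one =>
    intro i j
    rw [KBs_R_one, Matrix.one_apply]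
    split_ifs
    · exact S.one_mem
    · exact S.zero_mem
  | mul x y _ _ hx hy =>
    intro i j
    rw [KBs_R_mul, Matrix.mul_apply]
    exact S.sum_mem fun k _ => S.mul_mem (hx i k) (hy k j)
  | inv x _ hx =>
    intro i j
    rw [KBs_R_inv]
    fin_cases i <;> fin_cases j
    · exact hx 1 1
    · exact S.neg_mem (hx 0 1)
    · exact S.neg_mem (hx 1 0)
    · exact hx 0 0

/-- SEPARATION.  Let `T` be the finite set of the entries of `rho(g⁻¹ s g)`, `s` or `s⁻¹` in the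
generating set; all entries of `rho(g⁻¹ γ g)`, `γ ∈ Γ`, are in the ring generated by `T`.  Choose for
each `δ ∈ F` a non-zero off-diagonal entry, and `A, K, f` from `KA_separate`.  `N` = kernel of
`Γ → SL₂(A) → SL₂(K)`.  If `δ = n l` with `l` diagonal, then the off-diagonal entries of
`rho(g⁻¹ δ g)` are killed by `f`. -/
theorem separation {Γ : Subgroup SU11} (hfg : ∃ T : Finset SU11, Γ = Subgroup.closure (T : Set SU11))
    (g : SU11) (F : Finset SU11) (hF : ∀ δ ∈ F, δ ∈ Γ ∧ δ ∉ Dg g) :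
    ∃ N : Subgroup SU11, N ≤ Γ ∧ (∀ γ ∈ Γ, ∀ n ∈ N, γ * n * γ⁻¹ ∈ N) ∧ N.relIndex Γ ≠ 0 ∧
      ∀ δ ∈ F, ∀ n ∈ N, ∀ l ∈ Dg g, l ∈ Γ → δ ≠ n * l := by
  classical
  obtain ⟨T0, hT0⟩ := hfg
  let T : Finset ℝ := (T0 ×ˢ (Finset.univ : Finset (Fin 2 × Fin 2))).image
    (fun q => KBs_R g q.1 q.2.1 q.2.2)
  have hT : ∀ s ∈ T0, ∀ i j, KBs_R g s i j ∈ T := by
    intro s hs i j
    exact Finset.mem_image.2 ⟨(s, (i, j)), Finset.mem_product.2 ⟨hs, Finset.mem_univ _⟩, rfl⟩
  let U : Finset ℝ := ((F.image (fun δ => KBs_R g δ 0 1)) ∪ (F.image (fun δ => KBs_R g δ 1 0))).filter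
    (fun u => u ≠ 0)
  have hent := KBs_entries T0 g (Subring.closure (T : Set ℝ))
    (fun s hs i j => Subring.subset_closure (hT s hs i j))
  rw [← hT0] at hent
  have hU : ∀ u ∈ U, u ≠ 0 ∧ u ∈ Subring.closure (T : Set ℝ) := by
    intro u hu
    rw [Finset.mem_filter, Finset.mem_union, Finset.mem_image, Finset.mem_image] at hu
    obtain ⟨hu, hu0⟩ := hu
    refine ⟨hu0, ?_⟩
    rcases hu with ⟨δ, hδ, rfl⟩ | ⟨δ, hδ, rfl⟩
    · exact hent δ (hF δ hδ).1 0 1
    · exact hent δ (hF δ hδ).1 1 0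
  obtain ⟨A, K, hK, hKfin, f, hTA, hf⟩ := KA_separate T U hU
  have hcl : Subring.closure (T : Set ℝ) ≤ A := Subring.closure_le.2 hTA
  have hA : ∀ γ ∈ Γ, ∀ i j, KBs_R g γ i j ∈ A := fun γ hγ i j => hcl (hent γ hγ i j)
  -- the homomorphism to matrices over `K`
  let M : Γ →* Matrix (Fin 2) (Fin 2) K :=
    { toFun := fun γ => Matrix.of fun i j => f ⟨KBs_R g γ i j, hA γ γ.2 i j⟩
      map_one' := by
        ext i j
        rw [Matrix.of_apply]
        have h1 : (⟨KBs_R g (1 : Γ) i j, hA (1 : Γ) (1 : Γ).2 i j⟩ : A) =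
            if i = j then 1 else 0 := by
          apply Subtype.ext
          show KBs_R g 1 i j = _
          rw [KBs_R_one, Matrix.one_apply]
          split_ifs <;> rfl
        simp only [h1, Matrix.one_apply]
        split_ifs
        · exact map_one f
        · exact map_zero f
      map_mul' := by
        intro x y
        ext i j
        rw [Matrix.mul_apply, Matrix.of_apply]
        simp only [Matrix.of_apply]
        have h1 : (⟨KBs_R g ((x * y : Γ) : SU11) i j, hA _ (x * y : Γ).2 i j⟩ : A) =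
            ∑ k, (⟨KBs_R g x i k, hA x x.2 i k⟩ : A) * ⟨KBs_R g y k j, hA y y.2 k j⟩ := by
          apply Subtype.ext
          rw [AddSubmonoidClass.coe_finsetSum]
          show KBs_R g ((x : SU11) * y) i j = _
          rw [KBs_R_mul, Matrix.mul_apply]
          rfl
        rw [h1, map_sum]
        exact Finset.sum_congr rfl fun k _ => map_mul f _ _ }
  have : Finite (Matrix (Fin 2) (Fin 2) K) := Pi.finite
  have : Finite (Matrix (Fin 2) (Fin 2) K)ˣ := Finite.of_injective (fun u => (u : Matrix (Fin 2) (Fin 2) K)) Units.val_injective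
  let φ : Γ →* (Matrix (Fin 2) (Fin 2) K)ˣ := M.toHomUnits
  have hφM : ∀ x : Γ, ((φ x : (Matrix (Fin 2) (Fin 2) K)ˣ) : Matrix (Fin 2) (Fin 2) K) = M x :=
    fun x => rfl
  refine ⟨φ.ker.map Γ.subtype, ?_, ?_, ?_, ?_⟩
  · rintro x ⟨y, -, rfl⟩
    exact y.2
  · rintro γ hγ n ⟨y, hy, rfl⟩
    refine ⟨⟨γ, hγ⟩ * y * ⟨γ, hγ⟩⁻¹, ?_, rfl⟩
    exact (inferInstance : φ.ker.Normal).conj_mem y hy _
  · have h1 : (φ.ker.map Γ.subtype).subgroupOf Γ = φ.ker :=
      Subgroup.comap_map_eq_self_of_injective Γ.subtype_injective _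
    unfold Subgroup.relIndex
    rw [h1]
    exact Subgroup.FiniteIndex.index_ne_zero
  · rintro δ hδ n ⟨y, hy, rfl⟩ l hl hlΓ heq
    obtain ⟨hδΓ, hδD⟩ := hF δ hδ
    have h1 : M ⟨δ, hδΓ⟩ = M ⟨l, hlΓ⟩ := by
      have h2 : (⟨δ, hδΓ⟩ : Γ) = y * ⟨l, hlΓ⟩ := Subtype.ext heq
      have h3 : M y = 1 := by
        rw [← hφM, (MonoidHom.mem_ker.1 hy : φ y = 1)]
        rfl
      rw [h2, map_mul, h3, one_mul]
    have h2 := (mem_Dg_iff g l).1 hl
    have h3 : ∀ i j, KBs_R g l i j = 0 → f ⟨KBs_R g δ i j, hA δ hδΓ i j⟩ = 0 := by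
      intro i j hij
      have h4 : M ⟨δ, hδΓ⟩ i j = M ⟨l, hlΓ⟩ i j := by rw [h1]
      have h5 : M ⟨l, hlΓ⟩ i j = 0 := by
        show f ⟨KBs_R g l i j, hA l hlΓ i j⟩ = 0
        have h6 : (⟨KBs_R g l i j, hA l hlΓ i j⟩ : A) = 0 := Subtype.ext hij
        rw [h6, map_zero]
      rw [h5] at h4
      exact h4
    apply hδD
    rw [mem_Dg_iff]
    constructor
    · by_contra hne
      have hu : KBs_R g δ 0 1 ∈ U := by
        rw [Finset.mem_filter, Finset.mem_union]
        exact ⟨Or.inl (Finset.mem_image.2 ⟨δ, hδ, rfl⟩), hne⟩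
      exact hf _ hu (hA δ hδΓ 0 1) (h3 0 1 h2.1)
    · by_contra hne
      have hu : KBs_R g δ 1 0 ∈ U := by
        rw [Finset.mem_filter, Finset.mem_union]
        exact ⟨Or.inr (Finset.mem_image.2 ⟨δ, hδ, rfl⟩), hne⟩
      exact hf _ hu (hA δ hδΓ 1 0) (h3 1 0 h2.2)

end

end Pool.Agent.Lib.MP_b16327_pr
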