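import Pool.Agent.Lib.MP_b16327_pr.CommB

/-! # Existence of hyperbolic elements in cocompact groups -/

namespace Pool.Agent.Lib.MP_b16327_pr

open Complex MeasureTheory ComplexConjugate Filter
open scoped Complex.UnitDisc Topology

noncomputable section

theorem KC_smul_zero (g : SU11) : ((g • (0 : 𝔻) : 𝔻) : ℂ) = g.b / conj g.a := by
  rw [coe_smul]
  simp [SU11.mob, SU11.den]

theorem KC_den_zero (g : SU11) : g.den 0 = conj g.a := by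
  simp [SU11.den]

/-- `|a| (1 - |w|) ≤ |den w|` -/
theorem KC_den_ge (g : SU11) (w : ℂ) : ‖g.a‖ * (1 - ‖w‖) ≤ ‖g.den w‖ := by
  have h1 : ‖conj g.a‖ ≤ ‖g.den w‖ + ‖conj g.b * w‖ := by
    have : conj g.a = g.den w - conj g.b * w := by
      unfold SU11.den
      ring
    rw [this]
    exact norm_sub_le _ _
  rw [norm_mul, Complex.norm_conj, Complex.norm_conj] at h1
  have h2 := g.norm_b_lt
  have h3 := norm_nonneg w
  nlinarith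

/-- `den w = conj a (1 - conj (g⁻¹ 0) w)` -/
theorem KC_den_eq (g : SU11) (w : ℂ) :
    g.den w = conj g.a * (1 - conj ((g⁻¹ • (0 : 𝔻) : 𝔻) : ℂ) * w) := by
  rw [KC_smul_zero]
  have h := g.a_ne_zero
  have h' : conj g.a ≠ 0 := (map_ne_zero _).2 h
  simp only [SU11.inv_a, SU11.inv_b, map_div₀, map_neg, Complex.conj_conj, SU11.den]
  field_simp
  ring

/-- `|g w - g 0| |den w| |a| = |w|` -/
theorem KC_sub (g : SU11) (w : 𝔻) :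
    ‖((g • w : 𝔻) : ℂ) - ((g • (0 : 𝔻) : 𝔻) : ℂ)‖ * (‖g.den w‖ * ‖g.a‖) = ‖(w : ℂ)‖ := by
  have h := mob_sub_mob g (z := (w : ℂ)) (w := 0) w.norm_lt_one.le (by simp)
  have h1 : ((g • w : 𝔻) : ℂ) - ((g • (0 : 𝔻) : 𝔻) : ℂ) = g.mob w - g.mob 0 := by
    rw [coe_smul, coe_smul, UnitDisc.coe_zero]
  have h2 : ‖g.den w‖ ≠ 0 := norm_ne_zero_iff.2 (g.den_ne_zero w.norm_lt_one.le)
  have h3 : ‖g.a‖ ≠ 0 := norm_ne_zero_iff.2 g.a_ne_zero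
  rw [h1, h, KC_den_zero, sub_zero, norm_div, norm_mul, Complex.norm_conj]
  field_simp

/-- `g 0 = b / conj a`, `g⁻¹ 0 = -b/a`, so `(g 0) / (g⁻¹ 0) = -a / conj a`; if `|g0 - g⁻¹0| ≥ η` and
`|a|` is large then `|Re a| > 1`: with `a = |a| e^{iα}`,
`|g0 - g⁻¹0| = |b/a| |a/conj a + 1| = |b/a| 2 |cos α| ≤ 2 |Re a|/|a|`. -/
theorem one_lt_re_of_far (g : SU11)
    {η : ℝ} (hη : 0 < η) (h : η ≤ ‖((g • (0 : 𝔻) : 𝔻) : ℂ) - ((g⁻¹ • (0 : 𝔻) : 𝔻) : ℂ)‖)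
    (hL : 2 / η < ‖g.a‖) : 1 < |g.a.re| := by
  have ha := g.a_ne_zero
  have ha' : conj g.a ≠ 0 := (map_ne_zero _).2 ha
  have e : ((g • (0 : 𝔻) : 𝔻) : ℂ) - ((g⁻¹ • (0 : 𝔻) : 𝔻) : ℂ) =
      g.b * (g.a + conj g.a) / (g.a * conj g.a) := by
    rw [KC_smul_zero, KC_smul_zero, SU11.inv_a, SU11.inv_b, Complex.conj_conj]
    field_simp
    ring
  rw [e, norm_div, norm_mul, norm_mul, Complex.norm_conj, Complex.add_conj] at h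
  have hpos : 0 < ‖g.a‖ := norm_pos_iff.2 ha
  have h2 : ‖((2 * g.a.re : ℝ) : ℂ)‖ = 2 * |g.a.re| := by
    rw [Complex.norm_real, Real.norm_eq_abs, abs_mul, abs_two]
  rw [h2, le_div_iff₀ (mul_pos hpos hpos)] at h
  have h3 := g.norm_b_lt
  have h4 : 0 ≤ |g.a.re| := abs_nonneg _
  have h5 : η * ‖g.a‖ ≤ 2 * |g.a.re| := by
    have : η * (‖g.a‖ * ‖g.a‖) ≤ ‖g.a‖ * (2 * |g.a.re|) :=
      h.trans (mul_le_mul_of_nonneg_right h3.le (by positivity))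
    have : (η * ‖g.a‖) * ‖g.a‖ ≤ (2 * |g.a.re|) * ‖g.a‖ := by linarith
    exact le_of_mul_le_mul_right this hpos
  rw [div_lt_iff₀ hη] at hL
  linarith

/-- a cocompact group contains elements with `g 0` close to any boundary point -/
theorem exists_near {Γ : Subgroup SU11} (hc : IsCocpt Γ) (ξ : Circle) {ε : ℝ} (hε : 0 < ε) :
    ∃ g ∈ Γ, ‖((g • (0 : 𝔻) : 𝔻) : ℂ) - (ξ : ℂ)‖ < ε ∧ 1 / ε < ‖g.a‖ := by
  obtain ⟨r₀, hr₀, hcov⟩ := hc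
  set r : ℝ := max r₀ 0 with hr
  have hr1 : r < 1 := max_lt hr₀ one_pos
  have hr0 : 0 ≤ r := le_max_right _ _
  -- the bound for `|a|`
  obtain ⟨M, hM1, hM2⟩ : ∃ M : ℝ, 1 / ε < M ∧ 2 / (ε * (1 - r)) < M :=
    ⟨max (1 / ε) (2 / (ε * (1 - r))) + 1, by
      have := le_max_left (1 / ε) (2 / (ε * (1 - r))); linarith, by
      have := le_max_right (1 / ε) (2 / (ε * (1 - r))); linarith⟩
  have hM0 : 0 < M := lt_trans (by positivity) hM1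
  have hr1' : 0 < 1 - r := by linarith
  have hrr : 0 < 1 - r ^ 2 := by nlinarith
  -- the point
  set δ : ℝ := min (1 / 2) (min (ε / 2) ((1 - r ^ 2) / (8 * (M + 1) ^ 2))) / 2 with hδ
  have hδ0 : 0 < δ := by
    rw [hδ]
    have : 0 < min (1 / 2 : ℝ) (min (ε / 2) ((1 - r ^ 2) / (8 * (M + 1) ^ 2))) := by
      refine lt_min (by norm_num) (lt_min (by positivity) (by positivity))
    linarith
  have hδ1 : δ < 1 / 2 := by
    have := min_le_left (1 / 2 : ℝ) (min (ε / 2) ((1 - r ^ 2) / (8 * (M + 1) ^ 2)))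
    linarith
  have hδ2 : δ < ε / 2 := by
    have h1 := min_le_right (1 / 2 : ℝ) (min (ε / 2) ((1 - r ^ 2) / (8 * (M + 1) ^ 2)))
    have h2 := min_le_left (ε / 2) ((1 - r ^ 2) / (8 * (M + 1) ^ 2))
    linarith
  have hδ3 : δ < (1 - r ^ 2) / (8 * (M + 1) ^ 2) := by
    have h1 := min_le_right (1 / 2 : ℝ) (min (ε / 2) ((1 - r ^ 2) / (8 * (M + 1) ^ 2)))
    have h2 := min_le_right (ε / 2) ((1 - r ^ 2) / (8 * (M + 1) ^ 2))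
    linarith
  have hξ : ‖(ξ : ℂ)‖ = 1 := ξ.norm_coe
  have hzn : ‖((1 - δ : ℝ) : ℂ) * (ξ : ℂ)‖ = 1 - δ := by
    rw [norm_mul, hξ, mul_one, Complex.norm_real, Real.norm_eq_abs, abs_of_pos (by linarith)]
  let z : 𝔻 := UnitDisc.mk (((1 - δ : ℝ) : ℂ) * (ξ : ℂ)) (by rw [hzn]; linarith)
  have hz : (z : ℂ) = ((1 - δ : ℝ) : ℂ) * (ξ : ℂ) := rfl
  obtain ⟨γ, hγ, hγr⟩ := hcov z
  have hγr' : ‖((γ • z : 𝔻) : ℂ)‖ ≤ r := hγr.trans (le_max_left _ _)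
  set w : 𝔻 := γ • z with hw
  have hgw : γ⁻¹ • w = z := by rw [hw, inv_smul_smul]
  set g : SU11 := γ⁻¹ with hg
  have hA : 0 < ‖g.a‖ := norm_pos_iff.2 g.a_ne_zero
  have hden : ‖g.a‖ * (1 - r) ≤ ‖g.den w‖ := by
    have h1 := KC_den_ge g (w : ℂ)
    have h2 : ‖g.a‖ * (1 - r) ≤ ‖g.a‖ * (1 - ‖(w : ℂ)‖) :=
      mul_le_mul_of_nonneg_left (by linarith) hA.le
    linarith
  have hden2 : ‖g.den w‖ ≤ 2 * ‖g.a‖ := by
    have h1 : ‖g.den w‖ ≤ ‖conj g.b * w‖ + ‖conj g.a‖ := norm_add_le _ _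
    rw [norm_mul, Complex.norm_conj, Complex.norm_conj] at h1
    have h2 := g.norm_b_lt
    have h3 := w.norm_lt_one
    have h4 := norm_nonneg (w : ℂ)
    nlinarith [norm_nonneg g.b]
  have hden0 : 0 < ‖g.den w‖ := norm_pos_iff.2 (g.den_ne_zero w.norm_lt_one.le)
  -- `|a|` is large
  have hAM : M < ‖g.a‖ := by
    have h1 := one_sub_smul g w
    rw [hgw, hz, hzn, Complex.normSq_eq_norm_sq] at h1
    have h2 : (1 - ‖(w : ℂ)‖ ^ 2) = (1 - (1 - δ) ^ 2) * ‖g.den w‖ ^ 2 := by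
      rw [h1]
      field_simp
    have h3 : 1 - r ^ 2 ≤ 1 - ‖(w : ℂ)‖ ^ 2 := by
      have := norm_nonneg (w : ℂ)
      nlinarith
    have h4 : (1 - (1 - δ) ^ 2) * ‖g.den w‖ ^ 2 ≤ (2 * δ) * (2 * ‖g.a‖) ^ 2 := by
      have h5 : ‖g.den w‖ ^ 2 ≤ (2 * ‖g.a‖) ^ 2 := pow_le_pow_left₀ hden0.le hden2 2
      have h6 : (1 - (1 - δ) ^ 2) ≤ 2 * δ := by nlinarith
      have h7 : 0 ≤ 1 - (1 - δ) ^ 2 := by nlinarith
      calc (1 - (1 - δ) ^ 2) * ‖g.den w‖ ^ 2 ≤ (2 * δ) * ‖g.den w‖ ^ 2 :=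
            mul_le_mul_of_nonneg_right h6 (by positivity)
        _ ≤ _ := mul_le_mul_of_nonneg_left h5 (by linarith)
    have h8 : 1 - r ^ 2 ≤ 8 * δ * ‖g.a‖ ^ 2 := by nlinarith
    rw [lt_div_iff₀ (by positivity)] at hδ3
    by_contra hcon
    rw [not_lt] at hcon
    have h9 : ‖g.a‖ ^ 2 ≤ (M + 1) ^ 2 := pow_le_pow_left₀ hA.le (by linarith) 2
    have h10 : 8 * δ * ‖g.a‖ ^ 2 ≤ 8 * δ * (M + 1) ^ 2 :=
      mul_le_mul_of_nonneg_left h9 (by linarith)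
    linarith
  refine ⟨g, Γ.inv_mem hγ, ?_, hM1.trans hAM⟩
  have hsub := KC_sub g w
  rw [hgw] at hsub
  have h1 : ‖(z : ℂ) - ((g • (0 : 𝔻) : 𝔻) : ℂ)‖ ≤ ε / 2 := by
    have hw1 := w.norm_lt_one
    have h2 : ‖(z : ℂ) - ((g • (0 : 𝔻) : 𝔻) : ℂ)‖ * (‖g.a‖ * (1 - r) * ‖g.a‖) ≤ 1 := by
      calc _ ≤ ‖(z : ℂ) - ((g • (0 : 𝔻) : 𝔻) : ℂ)‖ * (‖g.den w‖ * ‖g.a‖) :=
            mul_le_mul_of_nonneg_left (mul_le_mul_of_nonneg_right hden hA.le) (norm_nonneg _)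
        _ = ‖(w : ℂ)‖ := hsub
        _ ≤ 1 := hw1.le
    have h3 : 2 / (ε * (1 - r)) < ‖g.a‖ := hM2.trans hAM
    rw [div_lt_iff₀ (by positivity)] at h3
    have h4 : 1 ≤ ‖g.a‖ := g.one_le_norm_a
    have h5 : 2 < ε * (‖g.a‖ * (1 - r) * ‖g.a‖) := by nlinarith
    by_contra hcon
    rw [not_le] at hcon
    have h6 : 0 < ‖g.a‖ * (1 - r) * ‖g.a‖ := by positivity
    nlinarith
  have h2 : ‖(z : ℂ) - ξ‖ = δ := by
    rw [hz]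
    have : ((1 - δ : ℝ) : ℂ) * (ξ : ℂ) - ξ = -(δ : ℂ) * ξ := by
      push_cast
      ring
    rw [this, norm_mul, hξ, mul_one, norm_neg, Complex.norm_real, Real.norm_eq_abs,
      abs_of_pos hδ0]
  calc ‖((g • (0 : 𝔻) : 𝔻) : ℂ) - (ξ : ℂ)‖
      = ‖((z : ℂ) - ξ) - ((z : ℂ) - ((g • (0 : 𝔻) : 𝔻) : ℂ))‖ := by congr 1; ring
    _ ≤ ‖(z : ℂ) - ξ‖ + ‖(z : ℂ) - ((g • (0 : 𝔻) : 𝔻) : ℂ)‖ := norm_sub_le _ _
    _ < ε := by rw [h2]; linarith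

/-- estimate for products: if `g⁻¹ 0` is near `1` and `w` is near `-1` then `g w` is near `g 0` -/
theorem KC_prod (g : SU11) (w : 𝔻) {s : ℝ} (hs : s * s = 1) (hA : 20 < ‖g.a‖)
    (h1 : ‖((g⁻¹ • (0 : 𝔻) : 𝔻) : ℂ) - (s : ℂ)‖ ≤ 1 / 5) (h2 : ‖(w : ℂ) + (s : ℂ)‖ ≤ 1 / 5) :
    ‖((g • w : 𝔻) : ℂ) - ((g • (0 : 𝔻) : 𝔻) : ℂ)‖ ≤ 1 / 400 ∧
      ‖g.a‖ ≤ ‖g.den w‖ := by
  have hs1 : ‖(s : ℂ)‖ = 1 := by
    rw [Complex.norm_real, Real.norm_eq_abs]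
    have h := congrArg Real.sqrt hs
    rw [Real.sqrt_mul_self_eq_abs, Real.sqrt_one] at h
    exact h
  set u : ℂ := ((g⁻¹ • (0 : 𝔻) : 𝔻) : ℂ) with hu
  have hden : ‖g.a‖ ≤ ‖g.den w‖ := by
    rw [KC_den_eq, ← hu, norm_mul, Complex.norm_conj]
    have h3 : ‖(2 : ℂ)‖ ≤ ‖1 - conj u * w‖ + ‖(1 + conj u * w)‖ := by
      have : (2 : ℂ) = (1 - conj u * w) + (1 + conj u * w) := by ring
      rw [this]
      exact norm_add_le _ _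
    have h4 : ‖1 + conj u * w‖ ≤ 1 := by
      have hss : (s : ℂ) * s = 1 := by exact_mod_cast hs
      have e : 1 + conj u * w = conj (u - s) * w + s * (w + s) := by
        rw [map_sub, Complex.conj_ofReal]
        linear_combination -hss
      rw [e]
      calc ‖conj (u - s) * w + s * (w + s)‖ ≤ ‖conj (u - s) * w‖ + ‖(s : ℂ) * (w + s)‖ :=
            norm_add_le _ _
        _ ≤ 1 / 5 + 1 / 5 := by
          rw [norm_mul, norm_mul, Complex.norm_conj, hs1, one_mul]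
          have := w.norm_lt_one
          have h0 := norm_nonneg (w : ℂ)
          have h0' := norm_nonneg (u - s)
          have : ‖u - s‖ * ‖(w : ℂ)‖ ≤ ‖u - s‖ * 1 := mul_le_mul_of_nonneg_left this.le h0'
          linarith
        _ ≤ 1 := by norm_num
    have h5 : ‖(2 : ℂ)‖ = 2 := by simp
    have h6 : 1 ≤ ‖1 - conj u * w‖ := by linarith
    have := norm_nonneg g.a
    nlinarith
  refine ⟨?_, hden⟩
  have hsub := KC_sub g w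
  have hw := w.norm_lt_one
  by_contra hcon
  rw [not_le] at hcon
  have h7 : 400 < ‖g.den w‖ * ‖g.a‖ := by nlinarith
  nlinarith

/-- existence.  If some `g ∈ Γ` with `|a|` large has `|g0 - g⁻¹0| ≥ 1/10` we are done by
`one_lt_re_of_far` (an element with `|Re a| > 1` has no fixed point in the disc).  Otherwise take
`g` with `g0` (hence `g⁻¹0`) near `1` and `h` with `h0` (hence `h⁻¹0`) near `-1`; then `gh` has
`(gh)0 = g(h0)` near `1` and `(gh)⁻¹0 = h⁻¹(g⁻¹0)` near `-1`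
(`mob_sub_mob`: `|g w - g 0| = |w| / (|den w| |den 0|)`, `|den w| = |a| |1 - conj(g⁻¹0) w|`-type
estimate: `g` maps points away from `g⁻¹0` close to `g0`). -/
theorem exists_hyperbolic {Γ : Subgroup SU11} (hd : IsDisc Γ) (hc : IsCocpt Γ) :
    Nonempty (HypD Γ) := by
  have key : ∃ g ∈ Γ, 1 < |g.a.re| := by
    by_cases hfar : ∃ g ∈ Γ, 20 < ‖g.a‖ ∧
        1 / 10 ≤ ‖((g • (0 : 𝔻) : 𝔻) : ℂ) - ((g⁻¹ • (0 : 𝔻) : 𝔻) : ℂ)‖
    · obtain ⟨g, hg, h1, h2⟩ := hfar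
      exact ⟨g, hg, one_lt_re_of_far g (η := 1 / 10) (by norm_num) h2 (by norm_num; exact h1)⟩
    · push Not at hfar
      exfalso
      obtain ⟨g, hg, hg1, hg2⟩ := exists_near hc (1 : Circle) (ε := 1 / 100) (by norm_num)
      obtain ⟨h, hh, hh1, hh2⟩ := exists_near hc (-1 : Circle) (ε := 1 / 100) (by norm_num)
      have hg2' : 20 < ‖g.a‖ := by norm_num at hg2; linarith
      have hh2' : 20 < ‖h.a‖ := by norm_num at hh2; linarith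
      have hg3 := hfar g hg hg2'
      have hh3 := hfar h hh hh2'
      have c1 : ((1 : Circle) : ℂ) = 1 := Circle.coe_one
      have c2 : ((-1 : Circle) : ℂ) = -1 := by simp
      rw [c1] at hg1
      rw [c2] at hh1
      have hg4 : ‖((g⁻¹ • (0 : 𝔻) : 𝔻) : ℂ) - 1‖ ≤ 11 / 100 := by
        calc ‖((g⁻¹ • (0 : 𝔻) : 𝔻) : ℂ) - 1‖ = ‖(((g • (0 : 𝔻) : 𝔻) : ℂ) - 1) -
              (((g • (0 : 𝔻) : 𝔻) : ℂ) - ((g⁻¹ • (0 : 𝔻) : 𝔻) : ℂ))‖ := by congr 1; ring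
          _ ≤ _ := norm_sub_le _ _
          _ ≤ 11 / 100 := by linarith
      have hh4 : ‖((h⁻¹ • (0 : 𝔻) : 𝔻) : ℂ) - (-1)‖ ≤ 11 / 100 := by
        calc ‖((h⁻¹ • (0 : 𝔻) : 𝔻) : ℂ) - (-1)‖ = ‖(((h • (0 : 𝔻) : 𝔻) : ℂ) - (-1)) -
              (((h • (0 : 𝔻) : 𝔻) : ℂ) - ((h⁻¹ • (0 : 𝔻) : 𝔻) : ℂ))‖ := by congr 1; ring
          _ ≤ _ := norm_sub_le _ _
          _ ≤ 11 / 100 := by linarith
      -- `g (h 0)` is near `g 0`
      obtain ⟨p1, p2⟩ := KC_prod g (h • (0 : 𝔻)) (s := 1) (by norm_num) hg2'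
        (by push_cast; linarith) (by
          push_cast
          have : ((h • (0 : 𝔻) : 𝔻) : ℂ) + 1 = ((h • (0 : 𝔻) : 𝔻) : ℂ) - (-1) := by ring
          rw [this]
          linarith)
      have hhi : 20 < ‖(h⁻¹).a‖ := by rw [SU11.inv_a, Complex.norm_conj]; exact hh2'
      obtain ⟨q1, -⟩ := KC_prod h⁻¹ (g⁻¹ • (0 : 𝔻)) (s := -1) (by norm_num) hhi
        (by rw [inv_inv]; push_cast; linarith) (by
          push_cast
          have : ((g⁻¹ • (0 : 𝔻) : 𝔻) : ℂ) + (-1) = ((g⁻¹ • (0 : 𝔻) : 𝔻) : ℂ) - 1 := by ring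
          rw [this]
          linarith)
      rw [← mul_smul] at p1 q1
      have hgh : 20 < ‖(g * h).a‖ := by
        have e : (g * h).a = conj (g.den ((h • (0 : 𝔻) : 𝔻) : ℂ)) * h.a := by
          rw [KC_smul_zero, SU11.mul_a, SU11.den]
          have := h.a_ne_zero
          simp only [map_add, map_mul, map_div₀, Complex.conj_conj]
          field_simp
          ring
        rw [e, norm_mul, Complex.norm_conj]
        nlinarith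
      have hfin := hfar (g * h) (Γ.mul_mem hg hh) hgh
      rw [mul_inv_rev] at hfin
      have h2 : ‖(2 : ℂ)‖ = 2 := by simp
      have e2 : (2 : ℂ) = -((((g * h) • (0 : 𝔻) : 𝔻) : ℂ) - ((g • (0 : 𝔻) : 𝔻) : ℂ)) -
          (((g • (0 : 𝔻) : 𝔻) : ℂ) - 1) + ((((h⁻¹ * g⁻¹) • (0 : 𝔻) : 𝔻) : ℂ) -
            ((h⁻¹ • (0 : 𝔻) : 𝔻) : ℂ)) + (((h⁻¹ • (0 : 𝔻) : 𝔻) : ℂ) - (-1)) +
          ((((g * h) • (0 : 𝔻) : 𝔻) : ℂ) - (((h⁻¹ * g⁻¹) • (0 : 𝔻) : 𝔻) : ℂ)) := by ring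
      have h3 := norm_add_le (-((((g * h) • (0 : 𝔻) : 𝔻) : ℂ) - ((g • (0 : 𝔻) : 𝔻) : ℂ)) -
          (((g • (0 : 𝔻) : 𝔻) : ℂ) - 1) + ((((h⁻¹ * g⁻¹) • (0 : 𝔻) : 𝔻) : ℂ) -
            ((h⁻¹ • (0 : 𝔻) : 𝔻) : ℂ)) + (((h⁻¹ • (0 : 𝔻) : 𝔻) : ℂ) - (-1)))
          ((((g * h) • (0 : 𝔻) : 𝔻) : ℂ) - (((h⁻¹ * g⁻¹) • (0 : 𝔻) : 𝔻) : ℂ))
      have h4 := norm_add_le (-((((g * h) • (0 : 𝔻) : 𝔻) : ℂ) - ((g • (0 : 𝔻) : 𝔻) : ℂ)) -
          (((g • (0 : 𝔻) : 𝔻) : ℂ) - 1) + ((((h⁻¹ * g⁻¹) • (0 : 𝔻) : 𝔻) : ℂ) -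
            ((h⁻¹ • (0 : 𝔻) : 𝔻) : ℂ))) (((h⁻¹ • (0 : 𝔻) : 𝔻) : ℂ) - (-1))
      have h5 := norm_add_le (-((((g * h) • (0 : 𝔻) : 𝔻) : ℂ) - ((g • (0 : 𝔻) : 𝔻) : ℂ)) -
          (((g • (0 : 𝔻) : 𝔻) : ℂ) - 1)) ((((h⁻¹ * g⁻¹) • (0 : 𝔻) : 𝔻) : ℂ) -
            ((h⁻¹ • (0 : 𝔻) : 𝔻) : ℂ))
      have h6 := norm_sub_le (-((((g * h) • (0 : 𝔻) : 𝔻) : ℂ) - ((g • (0 : 𝔻) : 𝔻) : ℂ)))
          (((g • (0 : 𝔻) : 𝔻) : ℂ) - 1)
      rw [norm_neg] at h6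
      rw [← e2, h2] at h3
      linarith
  obtain ⟨g, hg, hre⟩ := key
  obtain ⟨k, t, ht, heq⟩ := normal_form_of_hyperbolic g hre
  exact ⟨⟨⟨g, hg⟩, k, t, ht, heq⟩⟩

/-- a power of `a` lies in a subgroup of finite index -/
theorem HypD.exists_sub {Γ Γ' : Subgroup SU11} (H : HypD Γ) (hle : Γ' ≤ Γ)
    (hfin : Γ'.relIndex Γ ≠ 0) : ∃ H' : HypD Γ', H'.g = H.g := by
  obtain ⟨n, hn, -, hmem⟩ := Subgroup.exists_pow_mem_of_relIndex_ne_zero hfin H.a.2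
  have hpow : ∀ (m : ℕ) (z : 𝔻), ((H.a : SU11) ^ m) • z = (H.g * At (m * H.T) * H.g⁻¹) • z := by
    intro m
    induction m with
    | zero =>
      intro z
      rw [pow_zero, Nat.cast_zero, zero_mul, At_zero, mul_one, mul_inv_cancel]
    | succ m ih =>
      intro z
      rw [pow_succ', mul_smul, ih, H.eq, ← mul_smul]
      congr 1
      have : ((m + 1 : ℕ) : ℝ) * H.T = H.T + m * H.T := by push_cast; ring
      rw [this, At_add]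
      group
  exact ⟨⟨⟨(H.a : SU11) ^ n, hmem.1⟩, H.g, n * H.T, mul_pos (by exact_mod_cast hn) H.T_pos,
    fun z => hpow n z⟩, rfl⟩

end

end Pool.Agent.Lib.MP_b16327_pr
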