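import Pool.Agent.Lib.MP_b16327_pr.KB
import Pool.Agent.Lib.MP_b16327_pr.HypB

/-! # Half planes bounded by translates of a geodesic -/

namespace Pool.Agent.Lib.MP_b16327_pr

open Complex MeasureTheory ComplexConjugate Filter
open scoped Complex.UnitDisc Topology

noncomputable section

/-- angle coordinate about the geodesic `g (-1,1)` -/
def yg (g : SU11) (z : 𝔻) : ℝ := yc (g⁻¹ • z)

/-- indicator of the open half plane `yg > 0` -/
def Sg (g : SU11) (z : 𝔻) : ℝ := if 0 < yg g z then 1 else 0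

theorem continuous_yg (g : SU11) : Continuous (yg g) :=
  continuous_yc.comp (continuous_smul_disc g⁻¹)

theorem yg_smul_of_mem {g γ : SU11} (h : γ ∈ Dg g) (z : 𝔻) : yg g (γ • z) = yg g z := by
  obtain ⟨t, ht⟩ := exists_At_of_mem_Dg h
  unfold yg
  have h1 : g⁻¹ • (γ • z) = (g⁻¹ * γ * g) • (g⁻¹ • z) := by
    rw [smul_smul, smul_smul]
    congr 1
    group
  rw [h1, ht, yc_At]

theorem Sg_smul_of_mem {g γ : SU11} (h : γ ∈ Dg g) (z : 𝔻) : Sg g (γ • z) = Sg g z := by
  unfold Sg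
  rw [yg_smul_of_mem h]

private theorem KD_yc_zero : yc 0 = 0 := by
  unfold yc
  simp

theorem yg_base (g : SU11) : yg g (g • (0 : 𝔻)) = 0 := by
  unfold yg
  rw [inv_smul_smul, KD_yc_zero]

/-! The inverse of the Cayley transform. -/

private theorem KD_norm_lt {W : ℂ} (hW : 0 < W.re) : ‖(W - 1) / (W + 1)‖ < 1 := by
  have h0 : W + 1 ≠ 0 := by
    intro h
    have := congrArg Complex.re h
    simp at this
    linarith
  rw [norm_div, div_lt_one (norm_pos_iff.2 h0)]
  have h1 : ‖W - 1‖ ^ 2 < ‖W + 1‖ ^ 2 := by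
    rw [← Complex.normSq_eq_norm_sq, ← Complex.normSq_eq_norm_sq, Complex.normSq_apply,
      Complex.normSq_apply]
    simp only [Complex.sub_re, Complex.sub_im, Complex.add_re, Complex.add_im, Complex.one_re,
      Complex.one_im]
    nlinarith
  exact lt_of_pow_lt_pow_left₀ 2 (norm_nonneg _) h1

private def KD_inv (W : ℂ) : 𝔻 :=
  if h : 0 < W.re then UnitDisc.mk ((W - 1) / (W + 1)) (KD_norm_lt h) else 0

private theorem KD_inv_coe {W : ℂ} (hW : 0 < W.re) : (KD_inv W : ℂ) = (W - 1) / (W + 1) := by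
  unfold KD_inv
  rw [dif_pos hW]
  rfl

private theorem KD_inv_cont : ContinuousOn KD_inv {W : ℂ | 0 < W.re} := by
  rw [UnitDisc.isEmbedding_coe.continuousOn_iff]
  have h1 : ContinuousOn (fun W : ℂ => (W - 1) / (W + 1)) {W : ℂ | 0 < W.re} := by
    apply ContinuousOn.div (by fun_prop) (by fun_prop)
    intro W hW h
    have := congrArg Complex.re h
    have hW' : 0 < W.re := hW
    simp at this
    linarith
  refine h1.congr fun W hW => ?_
  exact KD_inv_coe hW

/-- the Cayley transform of a point of the disc -/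
private theorem KD_cay_re (z : 𝔻) : 0 < ((1 + (z : ℂ)) / (1 - (z : ℂ))).re := by
  have hz := z.norm_lt_one
  have h0 : 1 - (z : ℂ) ≠ 0 := by
    intro h
    have : (z : ℂ) = 1 := by linear_combination -h
    rw [this, norm_one] at hz
    exact lt_irrefl _ hz
  have h1 : 0 < normSq (1 - (z : ℂ)) := Complex.normSq_pos.2 h0
  have h2 : normSq (z : ℂ) < 1 := by
    rw [Complex.normSq_eq_norm_sq]
    nlinarith [norm_nonneg (z : ℂ)]
  rw [Complex.div_re]
  have h3 : (1 + (z : ℂ)).re * (1 - (z : ℂ)).re / normSq (1 - (z : ℂ)) +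
      (1 + (z : ℂ)).im * (1 - (z : ℂ)).im / normSq (1 - (z : ℂ)) =
      (1 - normSq (z : ℂ)) / normSq (1 - (z : ℂ)) := by
    rw [← add_div]
    congr 1
    rw [Complex.normSq_apply (z : ℂ)]
    simp only [Complex.add_re, Complex.sub_re, Complex.add_im, Complex.sub_im, Complex.one_re,
      Complex.one_im]
    ring
  rw [h3]
  exact div_pos (by linarith) h1

private theorem KD_inv_cay (z : 𝔻) : KD_inv ((1 + (z : ℂ)) / (1 - (z : ℂ))) = z := by
  apply UnitDisc.coe_injective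
  rw [KD_inv_coe (KD_cay_re z)]
  have hz := z.norm_lt_one
  have h0 : 1 - (z : ℂ) ≠ 0 := by
    intro h
    have : (z : ℂ) = 1 := by linear_combination -h
    rw [this, norm_one] at hz
    exact lt_irrefl _ hz
  field_simp
  ring

private theorem KD_cay_inv {W : ℂ} (hW : 0 < W.re) :
    (1 + (KD_inv W : ℂ)) / (1 - (KD_inv W : ℂ)) = W := by
  rw [KD_inv_coe hW]
  have h0 : W + 1 ≠ 0 := by
    intro h
    have := congrArg Complex.re h
    simp at this
    linarith
  field_simp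
  ring

/-- the preimage under the Cayley transform of a convex set of the right half plane -/
private theorem KD_preconn (g : SU11) (C : Set ℂ) (hC : Convex ℝ ({W : ℂ | 0 < W.re} ∩ C)) :
    IsPreconnected {z : 𝔻 | (1 + ((g⁻¹ • z : 𝔻) : ℂ)) / (1 - ((g⁻¹ • z : 𝔻) : ℂ)) ∈ C} := by
  have h1 : {z : 𝔻 | (1 + ((g⁻¹ • z : 𝔻) : ℂ)) / (1 - ((g⁻¹ • z : 𝔻) : ℂ)) ∈ C} =
      (fun z : 𝔻 => g • z) '' (KD_inv '' ({W : ℂ | 0 < W.re} ∩ C)) := by
    ext z
    simp only [Set.mem_ofPred_eq, Set.mem_image]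
    constructor
    · intro hz
      refine ⟨g⁻¹ • z, ⟨_, ⟨KD_cay_re (g⁻¹ • z), hz⟩, KD_inv_cay _⟩, ?_⟩
      exact smul_inv_smul g z
    · rintro ⟨w, ⟨W, ⟨hW1, hW2⟩, rfl⟩, rfl⟩
      rw [inv_smul_smul, KD_cay_inv hW1]
      exact hW2
  rw [h1]
  apply IsPreconnected.image _ _ (continuous_smul_disc g).continuousOn
  apply IsPreconnected.image hC.isPreconnected
  exact KD_inv_cont.mono Set.inter_subset_left

/-- the geodesic and the closed half planes are connected: images of `ℝ`, `ℝ × [0, π/2)`,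
`ℝ × (-π/2, 0]` under the continuous inverse `w ↦ g • tanh(w/2)` of the strip coordinate -/
theorem preconnected_line (g : SU11) : IsPreconnected {z : 𝔻 | yg g z = 0} := by
  have h1 : {z : 𝔻 | yg g z = 0} = {z : 𝔻 | (1 + ((g⁻¹ • z : 𝔻) : ℂ)) /
      (1 - ((g⁻¹ • z : 𝔻) : ℂ)) ∈ {W : ℂ | W.im = 0}} := by
    ext z
    simp only [Set.mem_ofPred_eq, yg, yc]
    rw [Complex.arg_eq_zero_iff]
    exact ⟨fun h => h.2, fun h => ⟨(KD_cay_re _).le, h⟩⟩
  rw [h1]
  apply KD_preconn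
  apply (convex_halfSpace_re_gt 0).inter
  intro x hx y hy a b _ _ _
  simp only [Set.mem_ofPred_eq] at hx hy ⊢
  simp [hx, hy]

theorem preconnected_upper (g : SU11) : IsPreconnected {z : 𝔻 | 0 ≤ yg g z} := by
  have h1 : {z : 𝔻 | 0 ≤ yg g z} = {z : 𝔻 | (1 + ((g⁻¹ • z : 𝔻) : ℂ)) /
      (1 - ((g⁻¹ • z : 𝔻) : ℂ)) ∈ {W : ℂ | 0 ≤ W.im}} := by
    ext z
    simp only [Set.mem_ofPred_eq, yg, yc]
    rw [Complex.arg_nonneg_iff]
  rw [h1]
  apply KD_preconn
  exact (convex_halfSpace_re_gt 0).inter (convex_halfSpace_im_ge 0)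

theorem preconnected_lower (g : SU11) : IsPreconnected {z : 𝔻 | yg g z ≤ 0} := by
  have h1 : {z : 𝔻 | yg g z ≤ 0} = {z : 𝔻 | (1 + ((g⁻¹ • z : 𝔻) : ℂ)) /
      (1 - ((g⁻¹ • z : 𝔻) : ℂ)) ∈ {W : ℂ | W.im ≤ 0}} := by
    ext z
    simp only [Set.mem_ofPred_eq, yg, yc]
    constructor
    · intro h
      rcases h.lt_or_eq with h | h
      · exact (Complex.arg_neg_iff.1 h).le
      · exact (Complex.arg_eq_zero_iff.1 h).2.le
    · intro h
      rcases h.lt_or_eq with h | h
      · exact (Complex.arg_neg_iff.2 h).le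
      · exact (Complex.arg_eq_zero_iff.2 ⟨(KD_cay_re _).le, h⟩).le
  rw [h1]
  apply KD_preconn
  exact (convex_halfSpace_re_gt 0).inter (convex_halfSpace_im_le 0)

/-- a preconnected set not meeting the geodesic is on one side -/
theorem one_side {g : SU11} {K : Set 𝔻} (hK : IsPreconnected K) (h : ∀ z ∈ K, yg g z ≠ 0)
    {z w : 𝔻} (hz : z ∈ K) (hw : w ∈ K) : Sg g z = Sg g w := by
  have key : ∀ p ∈ K, ∀ q ∈ K, 0 < yg g p → 0 < yg g q := by
    intro p hp q hq h1
    by_contra h2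
    push Not at h2
    have h3 := hK.intermediate_value hq hp (continuous_yg g).continuousOn ⟨h2, h1.le⟩
    obtain ⟨r, hr, hr'⟩ := h3
    exact h r hr hr'
  unfold Sg
  by_cases h1 : 0 < yg g z
  · rw [if_pos h1, if_pos (key z hz w hw h1)]
  · rw [if_neg h1, if_neg (fun h2 => h1 (key w hw z hz h2))]

/-- all non-diagonal elements move the geodesic off itself -/
def NC (Γ : Subgroup SU11) (g : SU11) : Prop :=
  ∀ δ ∈ Γ, δ ∉ Dg g → ∀ z : 𝔻, yg g z = 0 → yg g (δ • z) ≠ 0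

end

end Pool.Agent.Lib.MP_b16327_pr
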