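import Pool.Agent.Lib.MP_b16327_pr.KBs
import Pool.Agent.Lib.MP_b16327_pr.KD

/-! # Finiteness of translates and existence of `NC` -/

namespace Pool.Agent.Lib.MP_b16327_pr

open Complex MeasureTheory ComplexConjugate Filter
open scoped Complex.UnitDisc Topology

noncomputable section

private theorem KDs_axis {Γ : Subgroup SU11} (H : HypD Γ) (z : 𝔻) :
    H.g⁻¹ • ((H.a : SU11) • z) = At H.T • (H.g⁻¹ • z) := by
  rw [H.eq, smul_smul, smul_smul]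
  congr 1
  group

private theorem KDs_axis' {Γ : Subgroup SU11} (H : HypD Γ) (z : 𝔻) :
    H.g⁻¹ • ((H.a : SU11)⁻¹ • z) = At (-H.T) • (H.g⁻¹ • z) := by
  have h := KDs_axis H ((H.a : SU11)⁻¹ • z)
  rw [smul_inv_smul] at h
  have h2 : At (-H.T) * At H.T = 1 := by rw [← At_add, neg_add_cancel, At_zero]
  rw [h, smul_smul (At (-H.T)), h2, one_smul]

private theorem KDs_zpow {Γ : Subgroup SU11} (H : HypD Γ) (n : ℤ) (z : 𝔻) :
    H.g⁻¹ • (((H.a : SU11) ^ n) • z) = At (n * H.T) • (H.g⁻¹ • z) := by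
  induction n using Int.induction_on generalizing z with
  | zero => simp [At_zero]
  | succ n ih =>
    rw [zpow_add_one, mul_smul, ih, KDs_axis, smul_smul, ← At_add]
    congr 2
    push_cast
    ring
  | pred n ih =>
    rw [zpow_sub_one, mul_smul, ih, KDs_axis', smul_smul, ← At_add]
    congr 2
    push_cast
    ring

private theorem KDs_preconn {r : ℝ} (hr : r < 1) : IsPreconnected {z : 𝔻 | ‖(z : ℂ)‖ ≤ r} := by
  rw [← UnitDisc.isEmbedding_coe.isInducing.isPreconnected_image]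
  have h : ((↑) : 𝔻 → ℂ) '' {z : 𝔻 | ‖(z : ℂ)‖ ≤ r} = Metric.closedBall (0 : ℂ) r := by
    ext w
    simp only [Set.mem_image, Set.mem_ofPred_eq, mem_closedBall_zero_iff]
    constructor
    · rintro ⟨z, hz, rfl⟩
      exact hz
    · intro hw
      exact ⟨UnitDisc.mk w (lt_of_le_of_lt hw hr), by simpa using hw, by simp⟩
  rw [h]
  exact (convex_closedBall _ _).isPreconnected

/-- the generator of the stabiliser is in `Dg` -/
private theorem KDs_mem {Γ : Subgroup SU11} (H : HypD Γ) (n : ℤ) : (H.a : SU11) ^ n ∈ Dg H.g :=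
  Subgroup.zpow_mem _ (mem_Dg_of_eq H.eq) n

/-- every point near the axis can be moved into a fixed compact set by a power of `a` -/
private theorem KDs_reduce {Γ : Subgroup SU11} (H : HypD Γ) :
    ∃ r : ℝ, r < 1 ∧ ∀ z : 𝔻, yg H.g z = 0 → ∃ n : ℤ, ‖(((H.a : SU11) ^ n • z : 𝔻) : ℂ)‖ ≤ r := by
  obtain ⟨r1, hr1, htube⟩ := tube_compact H.T
  obtain ⟨r2, -, hr2, hK⟩ := isCompact_subset
    ((isCompact_closedBallD hr1).image (continuous_smul_disc H.g))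
  refine ⟨r2, hr2, ?_⟩
  intro z hz
  set x : ℝ := xc (H.g⁻¹ • z) with hx
  have hT := H.T_pos
  refine ⟨-⌊x / H.T⌋, ?_⟩
  set y : 𝔻 := (H.a : SU11) ^ (-⌊x / H.T⌋) • z with hyd
  have h1 : H.g⁻¹ • y = At ((-⌊x / H.T⌋ : ℤ) * H.T) • (H.g⁻¹ • z) := by
    rw [hyd, KDs_zpow]
  have h2 : |yc (H.g⁻¹ • y)| ≤ 1 := by
    rw [h1, yc_At]
    have : yc (H.g⁻¹ • z) = 0 := hz
    rw [this, abs_zero]
    exact zero_le_one
  have h3 : |xc (H.g⁻¹ • y)| ≤ H.T := by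
    rw [h1, xc_At, ← hx]
    have h4 : (⌊x / H.T⌋ : ℝ) * H.T ≤ x := by
      have := Int.floor_le (x / H.T)
      calc (⌊x / H.T⌋ : ℝ) * H.T ≤ (x / H.T) * H.T := mul_le_mul_of_nonneg_right this hT.le
        _ = x := div_mul_cancel₀ _ hT.ne'
    have h5 : x < ((⌊x / H.T⌋ : ℝ) + 1) * H.T := by
      have := Int.lt_floor_add_one (x / H.T)
      calc x = (x / H.T) * H.T := (div_mul_cancel₀ _ hT.ne').symm
        _ < ((⌊x / H.T⌋ : ℝ) + 1) * H.T := mul_lt_mul_of_pos_right this hT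
    rw [abs_le]
    push_cast
    constructor <;> nlinarith
  have h6 := htube _ h2 h3
  have h7 : y = H.g • (H.g⁻¹ • y) := (smul_inv_smul _ _).symm
  rw [h7]
  exact hK _ ⟨H.g⁻¹ • y, h6, rfl⟩

/-- EXISTENCE of a normal subgroup of finite index with `NC`.  If `z` and `δ z` are both on the
geodesic, there are powers of `a` with `a^m δ a^n` moving a point of the compact piece
`{g • At s • 0 : 0 ≤ s ≤ T}` into that piece; so `a^m δ a^n` is in the finite set `F` of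
elements of `Γ \ Dg g` moving a point of a compact disc into that disc (`finite_meet`).
Apply `separation` to `F`: `δ ∈ N` would give `a^m δ a^n = (a^m δ a^{-m}) a^{m+n} ∈ N (Dg ∩ Γ)`. -/
theorem exists_NC {Γ : Subgroup SU11} (hd : IsDisc Γ)
    (hfg : ∃ T : Finset SU11, Γ = Subgroup.closure (T : Set SU11)) (H : HypD Γ) :
    ∃ N : Subgroup SU11, N ≤ Γ ∧ (∀ γ ∈ Γ, ∀ n ∈ N, γ * n * γ⁻¹ ∈ N) ∧ N.relIndex Γ ≠ 0 ∧
      NC N H.g := by
  classical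
  obtain ⟨r, hr, hred⟩ := KDs_reduce H
  have hfin := finite_meet hd hr
  let F : Finset SU11 := (hfin.toFinset.image (fun γ : Γ => (γ : SU11))).filter (fun γ => γ ∉ Dg H.g)
  obtain ⟨N, hN1, hN2, hN3, hN4⟩ := separation hfg H.g F (by
    intro δ hδ
    obtain ⟨h1, h2⟩ := Finset.mem_filter.1 hδ
    obtain ⟨γ, -, rfl⟩ := Finset.mem_image.1 h1
    exact ⟨γ.2, h2⟩)
  refine ⟨N, hN1, hN2, hN3, ?_⟩
  intro δ hδ hδD z hz hδz
  obtain ⟨k, hk⟩ := hred z hz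
  obtain ⟨m, hm⟩ := hred (δ • z) hδz
  have haΓ : ∀ n : ℤ, (H.a : SU11) ^ n ∈ Γ := fun n => Subgroup.zpow_mem _ H.a.2 n
  set δ' : SU11 := (H.a : SU11) ^ m * δ * (H.a : SU11) ^ (-k) with hδ'
  have hδ'Γ : δ' ∈ Γ := Γ.mul_mem (Γ.mul_mem (haΓ m) (hN1 hδ)) (haΓ (-k))
  have hδ'D : δ' ∉ Dg H.g := by
    intro h
    apply hδD
    have e : δ = ((H.a : SU11) ^ m)⁻¹ * δ' * (H.a : SU11) ^ k := by
      rw [hδ']
      group
    rw [e]
    exact (Dg H.g).mul_mem ((Dg H.g).mul_mem ((Dg H.g).inv_mem (KDs_mem H m)) h) (KDs_mem H k)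
  have hF : δ' ∈ F := by
    refine Finset.mem_filter.2 ⟨Finset.mem_image.2 ⟨⟨δ', hδ'Γ⟩, ?_, rfl⟩, hδ'D⟩
    rw [Set.Finite.mem_toFinset]
    refine ⟨(H.a : SU11) ^ k • z, hk, ?_⟩
    have e : δ' • ((H.a : SU11) ^ k • z) = (H.a : SU11) ^ m • (δ • z) := by
      rw [hδ', smul_smul, smul_smul]
      congr 1
      group
    show ‖((δ' • ((H.a : SU11) ^ k • z) : 𝔻) : ℂ)‖ ≤ r
    rw [e]
    exact hm
  refine hN4 δ' hF ((H.a : SU11) ^ m * δ * ((H.a : SU11) ^ m)⁻¹) (hN2 _ (haΓ m) _ hδ)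
    ((H.a : SU11) ^ (m - k)) (KDs_mem H _) (haΓ _) ?_
  rw [hδ']
  group

/-- FINITENESS: only finitely many translates of the geodesic separate two points of a compact disc:
there is a finite set `F ⊆ Γ` such that every `δ ∈ Γ` with
`Sg (δ⁻¹ z) ≠ Sg (δ⁻¹ w)` for some `‖z‖, ‖w‖ ≤ r` is in `F · Dg`.  (As in `HypD.finite_cosets`.) -/
theorem finite_sep {Γ : Subgroup SU11} (hd : IsDisc Γ) (H : HypD Γ) {r : ℝ} (hr : r < 1) :
    ∃ F : Finset SU11, (∀ δ ∈ F, δ ∈ Γ) ∧ ∀ δ ∈ Γ, (∃ z w : 𝔻, ‖(z : ℂ)‖ ≤ r ∧ ‖(w : ℂ)‖ ≤ r ∧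
      (Sg H.g (δ⁻¹ • z) ≠ Sg H.g (δ⁻¹ • w) ∨ yg H.g (δ⁻¹ • z) = 0)) →
      ∃ δ' ∈ F, δ'⁻¹ * δ ∈ Dg H.g := by
  classical
  obtain ⟨r2, hr2, hred⟩ := KDs_reduce H
  have hr3 : max r r2 < 1 := max_lt hr hr2
  have hfin := finite_meet hd hr3
  let F : Finset SU11 := hfin.toFinset.image (fun γ : Γ => ((γ : SU11))⁻¹)
  refine ⟨F, ?_, ?_⟩
  · intro δ hδ
    obtain ⟨γ, -, rfl⟩ := Finset.mem_image.1 hδ
    exact Γ.inv_mem γ.2
  · rintro δ hδ ⟨z, w, hz, hw, h⟩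
    -- a point on the translate
    obtain ⟨y, hy, hy0⟩ : ∃ y : 𝔻, ‖(y : ℂ)‖ ≤ r ∧ yg H.g (δ⁻¹ • y) = 0 := by
      rcases h with h | h
      · have hfc : Continuous (fun z : 𝔻 => yg H.g (δ⁻¹ • z)) :=
          (continuous_yg H.g).comp (continuous_smul_disc δ⁻¹)
        have hivt : ∀ z w : 𝔻, ‖(z : ℂ)‖ ≤ r → ‖(w : ℂ)‖ ≤ r → yg H.g (δ⁻¹ • z) ≤ 0 →
            0 < yg H.g (δ⁻¹ • w) → ∃ y : 𝔻, ‖(y : ℂ)‖ ≤ r ∧ yg H.g (δ⁻¹ • y) = 0 := by
          intro z w hz hw h1 h2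
          have h3 := (KDs_preconn hr).intermediate_value (f := fun z : 𝔻 => yg H.g (δ⁻¹ • z)) hz hw
            hfc.continuousOn
          obtain ⟨y, hy, hy0⟩ := h3 (show (0 : ℝ) ∈ Set.Icc (yg H.g (δ⁻¹ • z)) (yg H.g (δ⁻¹ • w)) from
            ⟨h1, h2.le⟩)
          exact ⟨y, hy, hy0⟩
        unfold Sg at h
        by_cases h1 : 0 < yg H.g (δ⁻¹ • z)
        · by_cases h2 : 0 < yg H.g (δ⁻¹ • w)
          · rw [if_pos h1, if_pos h2] at h
            exact (h rfl).elim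
          · exact hivt w z hw hz (not_lt.1 h2) h1
        · by_cases h2 : 0 < yg H.g (δ⁻¹ • w)
          · exact hivt z w hz hw (not_lt.1 h1) h2
          · rw [if_neg h1, if_neg h2] at h
            exact (h rfl).elim
      · exact ⟨z, hz, h⟩
    obtain ⟨n, hn⟩ := hred _ hy0
    have haΓ : (H.a : SU11) ^ n ∈ Γ := Subgroup.zpow_mem _ H.a.2 n
    have hγΓ : (H.a : SU11) ^ n * δ⁻¹ ∈ Γ := Γ.mul_mem haΓ (Γ.inv_mem hδ)
    refine ⟨((H.a : SU11) ^ n * δ⁻¹)⁻¹, ?_, ?_⟩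
    · refine Finset.mem_image.2 ⟨⟨(H.a : SU11) ^ n * δ⁻¹, hγΓ⟩, ?_, rfl⟩
      rw [Set.Finite.mem_toFinset]
      refine ⟨y, le_trans hy (le_max_left _ _), ?_⟩
      show ‖((((H.a : SU11) ^ n * δ⁻¹) • y : 𝔻) : ℂ)‖ ≤ max r r2
      rw [mul_smul]
      exact le_trans hn (le_max_right _ _)
    · have e : (((H.a : SU11) ^ n * δ⁻¹)⁻¹)⁻¹ * δ = (H.a : SU11) ^ n := by group
      rw [e]
      exact KDs_mem H n

end

end Pool.Agent.Lib.MP_b16327_pr
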