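import Pool.Agent.Lib.MP_b16327_pr.KDs

/-! # Points in the same position with respect to all translates -/

namespace Pool.Agent.Lib.MP_b16327_pr

open Complex MeasureTheory ComplexConjugate Filter
open scoped Complex.UnitDisc Topology

noncomputable section

/-- two points in the same position with respect to all translates of the geodesic -/
def Eqv (Γ : Subgroup SU11) (g : SU11) (z w : 𝔻) : Prop :=
  ∀ δ ∈ Γ, Sg g (δ⁻¹ • z) = Sg g (δ⁻¹ • w)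

theorem Eqv.symm {Γ : Subgroup SU11} {g : SU11} {z w : 𝔻} (h : Eqv Γ g z w) : Eqv Γ g w z :=
  fun δ hδ => (h δ hδ).symm

theorem Eqv.trans {Γ : Subgroup SU11} {g : SU11} {z w v : 𝔻} (h : Eqv Γ g z w)
    (h' : Eqv Γ g w v) : Eqv Γ g z v :=
  fun δ hδ => (h δ hδ).trans (h' δ hδ)

/-- invariance: `δ⁻¹ γ z = (γ⁻¹ δ)⁻¹ z` -/
theorem Eqv.smul {Γ : Subgroup SU11} {g : SU11} {z w : 𝔻} (h : Eqv Γ g z w) {γ : SU11}
    (hγ : γ ∈ Γ) : Eqv Γ g (γ • z) (γ • w) := by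
  intro δ hδ
  have h1 := h (γ⁻¹ * δ) (Γ.mul_mem (Γ.inv_mem hγ) hδ)
  rwa [mul_inv_rev, inv_inv, mul_smul, mul_smul] at h1

private theorem Sg_pos {g : SU11} {z : 𝔻} (h : 0 < yg g z) : Sg g z = 1 := if_pos h

private theorem Sg_npos {g : SU11} {z : 𝔻} (h : ¬ 0 < yg g z) : Sg g z = 0 := if_neg h

private theorem Sg_base (g : SU11) : Sg g (g • (0 : 𝔻)) = 0 :=
  Sg_npos (by rw [yg_base]; exact lt_irrefl _)

private theorem Sg_cases (g : SU11) (z : 𝔻) : Sg g z = 1 ∨ Sg g z = 0 := by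
  unfold Sg
  split_ifs
  · exact Or.inl rfl
  · exact Or.inr rfl

/-- points just above the base point -/
private theorem exists_above {g : SU11} {V : Set 𝔻} (hV : V ∈ 𝓝 (g • (0 : 𝔻))) :
    ∃ z ∈ V, 0 < yg g z := by
  have hn : ∀ n : ℕ, ‖((1 / ((n : ℝ) + 2) : ℝ) : ℂ) * I‖ < 1 := by
    intro n
    rw [norm_mul, Complex.norm_I, mul_one, Complex.norm_real, Real.norm_eq_abs,
      abs_of_nonneg (by positivity), div_lt_one (by positivity)]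
    have : (0 : ℝ) ≤ n := Nat.cast_nonneg n
    linarith
  set w : ℕ → 𝔻 := fun n => UnitDisc.mk (((1 / ((n : ℝ) + 2) : ℝ) : ℂ) * I) (hn n) with hw
  have hlim : Tendsto w atTop (𝓝 (0 : 𝔻)) := by
    rw [UnitDisc.isEmbedding_coe.tendsto_nhds_iff]
    have h1 : Tendsto (fun n : ℕ => (1 / ((n : ℝ) + 2) : ℝ)) atTop (𝓝 0) := by
      have := tendsto_one_div_add_atTop_nhds_zero_nat (𝕜 := ℝ)
      have h2 := (this.comp (tendsto_add_atTop_nat 1))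
      refine h2.congr fun n => ?_
      simp only [Function.comp_apply, Nat.cast_add, Nat.cast_one]
      congr 1
      ring
    have h2 : Tendsto (fun n : ℕ => ((1 / ((n : ℝ) + 2) : ℝ) : ℂ) * I) atTop (𝓝 ((0 : ℝ) * I)) :=
      ((Complex.continuous_ofReal.tendsto 0).comp h1).mul_const I
    show Tendsto (fun n : ℕ => ((1 / ((n : ℝ) + 2) : ℝ) : ℂ) * I) atTop (𝓝 ((0 : 𝔻) : ℂ))
    have h3 : ((0 : 𝔻) : ℂ) = ((0 : ℝ) : ℂ) * I := by simp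
    rw [h3]
    exact h2
  have hlim2 : Tendsto (fun n => g • w n) atTop (𝓝 (g • (0 : 𝔻))) :=
    ((continuous_smul_disc g).tendsto 0).comp hlim
  obtain ⟨n, hnV⟩ := (hlim2.eventually hV).exists
  refine ⟨g • w n, hnV, ?_⟩
  unfold yg
  rw [inv_smul_smul]
  unfold yc
  have him : 0 < ((1 + ((w n : 𝔻) : ℂ)) / (1 - ((w n : 𝔻) : ℂ))).im := by
    have hc : ((w n : 𝔻) : ℂ) = (((1 / ((n : ℝ) + 2) : ℝ) : ℂ) * I) := rfl
    rw [hc]
    set t : ℝ := 1 / ((n : ℝ) + 2) with ht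
    have ht0 : 0 < t := by positivity
    have h3 : (1 + (t : ℂ) * I) / (1 - (t : ℂ) * I) =
        (((1 - t ^ 2) / (1 + t ^ 2) : ℝ) : ℂ) + ((2 * t / (1 + t ^ 2) : ℝ) : ℂ) * I := by
      have h4 : (1 - (t : ℂ) * I) ≠ 0 := by
        intro h5
        have := congrArg Complex.re h5
        simp at this
      have h5 : (1 + (t : ℂ) ^ 2) ≠ 0 := by
        have : (0 : ℝ) < 1 + t ^ 2 := by positivity
        exact_mod_cast this.ne'
      push_cast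
      field_simp
      linear_combination (2 * (t : ℂ) ^ 2) * Complex.I_sq
    rw [h3]
    simp only [Complex.add_im, Complex.ofReal_im, Complex.mul_im, Complex.ofReal_re, Complex.I_im,
      mul_one, Complex.I_re, mul_zero, add_zero, zero_add]
    positivity
  refine lt_of_le_of_ne (Complex.arg_nonneg_iff.2 him.le) ?_
  intro h0
  have := (Complex.arg_eq_zero_iff.1 h0.symm).2
  rw [this] at him
  exact lt_irrefl _ him

/-- a point just above the geodesic near the base point `g 0`: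
only finitely many translates of the geodesic meet a compact disc around `g 0` (`finite_sep`) and
those by `δ ∉ Dg g` do not contain `g 0` (`NC`), so the points of a small neighbourhood of `g 0` are
on the same side of all of them; take `zp = g (i ε)` with small `ε > 0`
(`yc z` has the sign of `Im z`). -/
theorem exists_zp {Γ : Subgroup SU11} (hd : IsDisc Γ) (H : HypD Γ) (hNC : NC Γ H.g) :
    ∃ zp : 𝔻, 0 < yg H.g zp ∧ ∀ δ ∈ Γ, δ ∉ Dg H.g →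
      Sg H.g (δ⁻¹ • zp) = Sg H.g (δ⁻¹ • (H.g • (0 : 𝔻))) := by
  classical
  set o : 𝔻 := H.g • (0 : 𝔻) with ho
  set r : ℝ := (1 + ‖(o : ℂ)‖) / 2 with hr
  have ho1 : ‖(o : ℂ)‖ < 1 := o.norm_lt_one
  have hr1 : r < 1 := by rw [hr]; linarith
  have hor : ‖(o : ℂ)‖ < r := by rw [hr]; linarith
  obtain ⟨F, hF, hFs⟩ := finite_sep hd H hr1
  have hnhd : ∀ δ ∈ F, {z : 𝔻 | δ ∉ Dg H.g → Sg H.g (δ⁻¹ • z) = Sg H.g (δ⁻¹ • o)} ∈ 𝓝 o := by
    intro δ hδ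
    by_cases hD : δ ∈ Dg H.g
    · filter_upwards with z hz
      exact absurd hD hz
    · have hne : yg H.g (δ⁻¹ • o) ≠ 0 :=
        hNC δ⁻¹ (Γ.inv_mem (hF δ hδ)) (fun h => hD (by simpa using (Dg H.g).inv_mem h)) o
          (yg_base H.g)
      have hc : Continuous fun z : 𝔻 => yg H.g (δ⁻¹ • z) :=
        (continuous_yg H.g).comp (continuous_smul_disc δ⁻¹)
      rcases lt_or_gt_of_ne hne with h | h
      · filter_upwards [hc.continuousAt.eventually (gt_mem_nhds h)] with z hz _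
        rw [Sg_npos (not_lt.2 hz.le), Sg_npos (not_lt.2 h.le)]
      · filter_upwards [hc.continuousAt.eventually (lt_mem_nhds h)] with z hz _
        rw [Sg_pos hz, Sg_pos h]
  have hV : (⋂ δ ∈ F, {z : 𝔻 | δ ∉ Dg H.g → Sg H.g (δ⁻¹ • z) = Sg H.g (δ⁻¹ • o)}) ∩
      {z : 𝔻 | ‖(z : ℂ)‖ < r} ∈ 𝓝 o := by
    refine Filter.inter_mem ((Filter.biInter_finset_mem F).2 hnhd) ?_
    have hc : Continuous fun z : 𝔻 => ‖(z : ℂ)‖ := UnitDisc.continuous_coe.norm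
    exact hc.continuousAt.eventually (gt_mem_nhds hor)
  obtain ⟨zp, ⟨hz1, hz2⟩, hz3⟩ := exists_above hV
  refine ⟨zp, hz3, fun δ hδ hD => ?_⟩
  by_contra hcon
  obtain ⟨δ', hδ', hd'⟩ := hFs δ hδ ⟨zp, o, le_of_lt hz2, hor.le, Or.inl hcon⟩
  have hDn : δ' ∉ Dg H.g := by
    intro h
    apply hD
    have := (Dg H.g).mul_mem h hd'
    rwa [mul_inv_cancel_left] at this
  have hkey : ∀ z : 𝔻, Sg H.g (δ⁻¹ • z) = Sg H.g (δ'⁻¹ • z) := by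
    intro z
    have h1 : δ⁻¹ = (δ'⁻¹ * δ)⁻¹ * δ'⁻¹ := by group
    rw [h1, mul_smul, Sg_smul_of_mem ((Dg H.g).inv_mem hd')]
  have h2 : zp ∈ {z : 𝔻 | δ' ∉ Dg H.g → Sg H.g (δ'⁻¹ • z) = Sg H.g (δ'⁻¹ • o)} :=
    Set.mem_iInter₂.1 hz1 δ' hδ'
  apply hcon
  rw [hkey, hkey]
  exact h2 hDn

/-- elements of `Dg g` fix the two classes: for `γ ∈ Γ ∩ Dg g`,
`Sg (γ⁻¹ l zp) = 1 = Sg (γ⁻¹ zp)`; for `γ ∉ Dg g`, `l⁻¹ γ ∉ Dg g` and
`Sg ((l⁻¹ γ)⁻¹ zp) = Sg ((l⁻¹ γ)⁻¹ o) = Sg (γ⁻¹ l o) = Sg (γ⁻¹ o) = Sg (γ⁻¹ zp)` because `o` and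
`l o` are on the geodesic, which is connected and disjoint from its translate by `γ`
(`one_side`, `preconnected_line`, `NC`). -/
theorem eqv_stab {Γ : Subgroup SU11} {g : SU11} (hNC : NC Γ g) {zp : 𝔻} (hpos : 0 < yg g zp)
    (hzp : ∀ δ ∈ Γ, δ ∉ Dg g → Sg g (δ⁻¹ • zp) = Sg g (δ⁻¹ • (g • (0 : 𝔻))))
    {l : SU11} (hl : l ∈ Γ) (hl' : l ∈ Dg g) :
    Eqv Γ g (l • zp) zp ∧ Eqv Γ g (l • (g • (0 : 𝔻))) (g • (0 : 𝔻)) := by
  have hline : ∀ δ ∈ Γ, δ ∉ Dg g →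
      Sg g (δ⁻¹ • (l • (g • (0 : 𝔻)))) = Sg g (δ⁻¹ • (g • (0 : 𝔻))) := by
    intro δ hδ hD
    have hK : IsPreconnected ((fun z : 𝔻 => δ⁻¹ • z) '' {z : 𝔻 | yg g z = 0}) :=
      (preconnected_line g).image _ (continuous_smul_disc δ⁻¹).continuousOn
    refine one_side hK ?_ (Set.mem_image_of_mem _ ?_) (Set.mem_image_of_mem _ ?_)
    · rintro _ ⟨z, hz, rfl⟩
      exact hNC δ⁻¹ (Γ.inv_mem hδ) (fun h => hD (by simpa using (Dg g).inv_mem h)) z hz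
    · show yg g (l • (g • (0 : 𝔻))) = 0
      rw [yg_smul_of_mem hl', yg_base]
    · exact yg_base g
  constructor
  · intro δ hδ
    by_cases hD : δ ∈ Dg g
    · rw [Sg_smul_of_mem ((Dg g).inv_mem hD), Sg_smul_of_mem ((Dg g).inv_mem hD),
        Sg_smul_of_mem hl']
    · have hD' : l⁻¹ * δ ∉ Dg g := by
        intro h
        apply hD
        have := (Dg g).mul_mem hl' h
        rwa [mul_inv_cancel_left] at this
      have h1 := hzp (l⁻¹ * δ) (Γ.mul_mem (Γ.inv_mem hl) hδ) hD'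
      rw [mul_inv_rev, inv_inv, mul_smul, mul_smul] at h1
      rw [h1, hline δ hδ hD, hzp δ hδ hD]
  · intro δ hδ
    by_cases hD : δ ∈ Dg g
    · rw [Sg_smul_of_mem ((Dg g).inv_mem hD), Sg_smul_of_mem ((Dg g).inv_mem hD),
        Sg_smul_of_mem hl']
    · exact hline δ hδ hD

/-- the common part of the four adjacency statements.  Let `o = g 0`, `δ ∉ Dg g` be adjacent:
no translate different from the two geodesics separates `o` and `δ o`.  Let `z` be `zp` if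
`Sg (δ⁻¹ o) = 1` and `o` if `Sg (δ⁻¹ o) = 0`; let `w` be `zp` if `Sg (δ o) = 1` and `o` if
`Sg (δ o) = 0`.  Then `δ z` and `w` are equivalent.  Proof for `γ ∈ Γ`:
`γ ∈ Dg g`: `Sg (γ⁻¹ δ z) = Sg (δ z) = Sg (δ o)` (as `δ⁻¹ ∉ Dg g`) `= Sg w = Sg (γ⁻¹ w)`;
`γ = δ d`, `d ∈ Dg g`: `Sg (γ⁻¹ δ z) = Sg z = Sg (δ⁻¹ o) = Sg (δ⁻¹ w) = Sg (γ⁻¹ w)`;
otherwise `Sg (γ⁻¹ δ z) = Sg (γ⁻¹ δ o)` (as `δ⁻¹ γ ∉ Dg g`) `= Sg (γ⁻¹ o) = Sg (γ⁻¹ w)`. -/
theorem eqv_adj {Γ : Subgroup SU11} {g : SU11} {zp : 𝔻} (hpos : 0 < yg g zp)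
    (hzp : ∀ δ ∈ Γ, δ ∉ Dg g → Sg g (δ⁻¹ • zp) = Sg g (δ⁻¹ • (g • (0 : 𝔻))))
    {δ : SU11} (hδ : δ ∈ Γ) (hδ' : δ ∉ Dg g)
    (hadj : ∀ γ ∈ Γ, γ ∉ Dg g → δ⁻¹ * γ ∉ Dg g →
      Sg g (γ⁻¹ • (δ • (g • (0 : 𝔻)))) = Sg g (γ⁻¹ • (g • (0 : 𝔻)))) :
    Eqv Γ g (δ • (if Sg g (δ⁻¹ • (g • (0 : 𝔻))) = 1 then zp else g • (0 : 𝔻)))
      (if Sg g (δ • (g • (0 : 𝔻))) = 1 then zp else g • (0 : 𝔻)) := by
  set o : 𝔻 := g • (0 : 𝔻) with ho
  set z : 𝔻 := if Sg g (δ⁻¹ • o) = 1 then zp else o with hz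
  set w : 𝔻 := if Sg g (δ • o) = 1 then zp else o with hw
  have hSz : Sg g z = Sg g (δ⁻¹ • o) := by
    rw [hz]
    split_ifs with h
    · rw [h, Sg_pos hpos]
    · rw [(Sg_cases g (δ⁻¹ • o)).resolve_left h, ho, Sg_base]
  have hSw : Sg g w = Sg g (δ • o) := by
    rw [hw]
    split_ifs with h
    · rw [h, Sg_pos hpos]
    · rw [(Sg_cases g (δ • o)).resolve_left h, ho, Sg_base]
  have hz' : ∀ η ∈ Γ, η ∉ Dg g → Sg g (η⁻¹ • z) = Sg g (η⁻¹ • o) := by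
    intro η hη hη'
    rw [hz]
    split_ifs
    · exact hzp η hη hη'
    · rfl
  have hw' : ∀ η ∈ Γ, η ∉ Dg g → Sg g (η⁻¹ • w) = Sg g (η⁻¹ • o) := by
    intro η hη hη'
    rw [hw]
    split_ifs
    · exact hzp η hη hη'
    · rfl
  intro γ hγ
  by_cases h1 : γ ∈ Dg g
  · have h2 : δ⁻¹ ∉ Dg g := fun h => hδ' (by simpa using (Dg g).inv_mem h)
    have h3 := hz' δ⁻¹ (Γ.inv_mem hδ) h2
    rw [inv_inv] at h3
    rw [Sg_smul_of_mem ((Dg g).inv_mem h1), Sg_smul_of_mem ((Dg g).inv_mem h1), h3, hSw]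
  · by_cases h2 : δ⁻¹ * γ ∈ Dg g
    · have h3 := (Dg g).inv_mem h2
      have h4 : γ⁻¹ • (δ • z) = (δ⁻¹ * γ)⁻¹ • z := by
        rw [mul_inv_rev, inv_inv, mul_smul]
      have h5 : γ⁻¹ • o = (δ⁻¹ * γ)⁻¹ • (δ⁻¹ • o) := by
        rw [mul_inv_rev, inv_inv, mul_smul, smul_inv_smul]
      rw [h4, Sg_smul_of_mem h3, hSz, hw' γ hγ h1, h5, Sg_smul_of_mem h3]
    · have h3 := hz' (δ⁻¹ * γ) (Γ.mul_mem (Γ.inv_mem hδ) hγ) h2
      rw [mul_inv_rev, inv_inv, mul_smul, mul_smul] at h3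
      rw [h3, hadj γ hγ h1 h2, hw' γ hγ h1]

end

end Pool.Agent.Lib.MP_b16327_pr
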