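import Pool.Agent.Lib.MP_b16327_pr.KD

/-! # Adjacent translates -/

namespace Pool.Agent.Lib.MP_b16327_pr

open Complex MeasureTheory ComplexConjugate Filter
open scoped Complex.UnitDisc Topology

noncomputable section

private theorem KF_image_smul (γ : SU11) {K : Set 𝔻} (hK : IsPreconnected K) :
    IsPreconnected ((fun z : 𝔻 => γ • z) '' K) :=
  hK.image _ (continuous_smul_disc γ).continuousOn

/-- the points of the translated geodesic are on the side of the translated base point -/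
private theorem KF_line_side {Γ : Subgroup SU11} {g : SU11} (hNC : NC Γ g) {γ : SU11}
    (hγ : γ ∈ Γ) (h : γ ∉ Dg g) {z : 𝔻} (hz : yg g z = 0) :
    Sg g (γ • z) = Sg g (γ • (g • (0 : 𝔻))) := by
  apply one_side (KF_image_smul γ (preconnected_line g))
  · rintro _ ⟨w, hw, rfl⟩
    exact hNC γ hγ h w hw
  · exact ⟨z, hz, rfl⟩
  · exact ⟨_, yg_base g, rfl⟩

private theorem KF_Sg_pos {g : SU11} {z : 𝔻} (h : 0 < yg g z) : Sg g z = 1 := if_pos h

private theorem KF_Sg_neg {g : SU11} {z : 𝔻} (h : yg g z ≤ 0) : Sg g z = 0 := if_neg h.not_gt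

/-- if the translated base point is in the lower half plane then the points of the closed upper
half plane are on one side of the translated geodesic -/
private theorem KF_upper {Γ : Subgroup SU11} {g : SU11} (hNC : NC Γ g) {γ : SU11}
    (hγ : γ ∈ Γ) (h : γ ∉ Dg g) (hneg : yg g (γ • (g • (0 : 𝔻))) < 0) {p q : 𝔻}
    (hp : 0 ≤ yg g p) (hq : 0 ≤ yg g q) : Sg g (γ⁻¹ • p) = Sg g (γ⁻¹ • q) := by
  apply one_side (KF_image_smul γ⁻¹ (preconnected_upper g))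
  · rintro _ ⟨w, hw, rfl⟩ h0
    have h1 := KF_line_side hNC hγ h h0
    simp only [smul_inv_smul] at h1
    rw [KF_Sg_neg hneg.le] at h1
    have hw' : 0 ≤ yg g w := hw
    have h2 : yg g w ≠ 0 := by
      have h3 := hNC γ hγ h _ h0
      simp only [smul_inv_smul] at h3
      exact h3
    rw [KF_Sg_pos (lt_of_le_of_ne hw' (Ne.symm h2))] at h1
    exact one_ne_zero h1
  · exact ⟨p, hp, rfl⟩
  · exact ⟨q, hq, rfl⟩

private theorem KF_lower {Γ : Subgroup SU11} {g : SU11} (hNC : NC Γ g) {γ : SU11}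
    (hγ : γ ∈ Γ) (h : γ ∉ Dg g) (hpos : 0 < yg g (γ • (g • (0 : 𝔻)))) {p q : 𝔻}
    (hp : yg g p ≤ 0) (hq : yg g q ≤ 0) : Sg g (γ⁻¹ • p) = Sg g (γ⁻¹ • q) := by
  apply one_side (KF_image_smul γ⁻¹ (preconnected_lower g))
  · rintro _ ⟨w, hw, rfl⟩ h0
    have h1 := KF_line_side hNC hγ h h0
    simp only [smul_inv_smul] at h1
    have hw' : yg g w ≤ 0 := hw
    rw [KF_Sg_pos hpos, KF_Sg_neg hw'] at h1
    exact zero_ne_one h1
  · exact ⟨p, hp, rfl⟩
  · exact ⟨q, hq, rfl⟩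

/-- NESTING, part 1.  Let `o = g 0`, and let the translate by `γ` separate `o` and `δ o`.  Then
`γ o` is on the same side of the geodesic as `δ o`.
Proof: `yg (γ o) ≠ 0`, `yg (δ o) ≠ 0` by `NC`.  If the sides are different, then the geodesic
translate by `γ` is (connected and disjoint from the geodesic, hence) contained in the open half
plane not containing `δ o`, so the closed half plane containing `δ o` (and `o`), which is connected
(`preconnected_upper/lower`), does not meet it and `o`, `δ o` are on the same side of it. -/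
theorem sep_sign {Γ : Subgroup SU11} {g : SU11} (hNC : NC Γ g) {δ γ : SU11} (hδ : δ ∈ Γ)
    (hγ : γ ∈ Γ) (h1 : δ ∉ Dg g) (h2 : γ ∉ Dg g) (h3 : δ⁻¹ * γ ∉ Dg g)
    (hsep : Sg g (γ⁻¹ • (δ • (g • (0 : 𝔻)))) ≠ Sg g (γ⁻¹ • (g • (0 : 𝔻)))) :
    Sg g (γ • (g • (0 : 𝔻))) = Sg g (δ • (g • (0 : 𝔻))) := by
  have hδ0 : yg g (δ • (g • (0 : 𝔻))) ≠ 0 := hNC δ hδ h1 _ (yg_base g)
  have hγ0 : yg g (γ • (g • (0 : 𝔻))) ≠ 0 := hNC γ hγ h2 _ (yg_base g)
  rcases lt_or_gt_of_ne hδ0 with hd | hd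
  · rcases lt_or_gt_of_ne hγ0 with hc | hc
    · rw [KF_Sg_neg hd.le, KF_Sg_neg hc.le]
    · exact absurd (KF_lower hNC hγ h2 hc hd.le (yg_base g).le) hsep
  · rcases lt_or_gt_of_ne hγ0 with hc | hc
    · exact absurd (KF_upper hNC hγ h2 hc hd.le (yg_base g).ge) hsep
    · rw [KF_Sg_pos hd, KF_Sg_pos hc]

/-- NESTING, part 2.  If the translate by `γ` separates `o` and `δ o`, then every translate by `β`
(`β ∉ Dg g`, `γ⁻¹ β ∉ Dg g`) which separates `o` and `γ o` also separates `o` and `δ o`, and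
`δ⁻¹ β ∉ Dg g`.
Proof: let `P₁`, `P₂` be the closed half planes of the translate by `γ` containing `o`, resp. `δ o`
(`yg (γ⁻¹ o)` and `yg (γ⁻¹ δ o)` are non-zero by `NC`, of opposite signs).  The translate `β L`
is connected and disjoint from `γ L`, so it is disjoint from `P₁` or from `P₂`.  If it is disjoint
from `P₁`, which is connected and contains `o` and `γ o`, it does not separate these: contradiction.
So it is disjoint from `P₂`, which is connected and contains `γ o` and `δ o`: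
`Sg (β⁻¹ γ o) = Sg (β⁻¹ δ o)`.  If `β = δ d`, `d ∈ Dg g`, then `δ o ∈ β L ∩ P₂`. -/
theorem sep_sub {Γ : Subgroup SU11} {g : SU11} (hNC : NC Γ g) {δ γ β : SU11} (hδ : δ ∈ Γ)
    (hγ : γ ∈ Γ) (hβ : β ∈ Γ) (h1 : γ ∉ Dg g) (h2 : δ⁻¹ * γ ∉ Dg g) (h3 : β ∉ Dg g)
    (h4 : γ⁻¹ * β ∉ Dg g)
    (hsep : Sg g (γ⁻¹ • (δ • (g • (0 : 𝔻)))) ≠ Sg g (γ⁻¹ • (g • (0 : 𝔻))))
    (hsep' : Sg g (β⁻¹ • (γ • (g • (0 : 𝔻)))) ≠ Sg g (β⁻¹ • (g • (0 : 𝔻)))) :
    δ⁻¹ * β ∉ Dg g ∧ Sg g (β⁻¹ • (δ • (g • (0 : 𝔻)))) ≠ Sg g (β⁻¹ • (g • (0 : 𝔻))) := by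
  -- everything relative to the translate by `γ`
  have hb : γ⁻¹ * β ∈ Γ := Γ.mul_mem (Γ.inv_mem hγ) hβ
  have hγi : γ⁻¹ ∈ Γ := Γ.inv_mem hγ
  have hγi' : γ⁻¹ ∉ Dg g := fun h => h1 (by simpa using (Dg g).inv_mem h)
  have hγδ : γ⁻¹ * δ ∈ Γ := Γ.mul_mem hγi hδ
  have hγδ' : γ⁻¹ * δ ∉ Dg g := fun h => h2 (by simpa [mul_inv_rev] using (Dg g).inv_mem h)
  have e1 : ∀ z : 𝔻, (γ⁻¹ * β)⁻¹ • (γ⁻¹ • z) = β⁻¹ • z := by
    intro z
    rw [smul_smul]
    congr 1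
    group
  have e2 : ∀ z : 𝔻, (γ⁻¹ * β)⁻¹ • z = β⁻¹ • (γ • z) := by
    intro z
    rw [smul_smul]
    congr 1
    group
  have ho : yg g (γ⁻¹ • (g • (0 : 𝔻))) ≠ 0 := hNC _ hγi hγi' _ (yg_base g)
  have hδo : yg g (γ⁻¹ • (δ • (g • (0 : 𝔻)))) ≠ 0 := by
    have := hNC _ hγδ hγδ' _ (yg_base g)
    rwa [mul_smul] at this
  have hβo : yg g ((γ⁻¹ * β) • (g • (0 : 𝔻))) ≠ 0 := hNC _ hb h4 _ (yg_base g)
  -- the translate by `β` is on the side of `o`
  have hside : (0 < yg g (γ⁻¹ • (g • (0 : 𝔻))) ∧ yg g (γ⁻¹ • (δ • (g • (0 : 𝔻)))) < 0 ∧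
      0 < yg g ((γ⁻¹ * β) • (g • (0 : 𝔻)))) ∨
      (yg g (γ⁻¹ • (g • (0 : 𝔻))) < 0 ∧ 0 < yg g (γ⁻¹ • (δ • (g • (0 : 𝔻)))) ∧
      yg g ((γ⁻¹ * β) • (g • (0 : 𝔻))) < 0) := by
    rcases lt_or_gt_of_ne ho with ho' | ho'
    · right
      refine ⟨ho', ?_, ?_⟩
      · rcases lt_or_gt_of_ne hδo with h | h
        · exact absurd (by rw [KF_Sg_neg h.le, KF_Sg_neg ho'.le]) hsep
        · exact h
      · rcases lt_or_gt_of_ne hβo with h | h
        · exact h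
        · exfalso
          have h5 := KF_lower hNC hb h4 h ho'.le (yg_base g).le
          rw [e1, e2] at h5
          exact hsep' h5.symm
    · left
      refine ⟨ho', ?_, ?_⟩
      · rcases lt_or_gt_of_ne hδo with h | h
        · exact h
        · exact absurd (by rw [KF_Sg_pos h, KF_Sg_pos ho']) hsep
      · rcases lt_or_gt_of_ne hβo with h | h
        · exfalso
          have h5 := KF_upper hNC hb h4 h ho'.le (yg_base g).ge
          rw [e1, e2] at h5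
          exact hsep' h5.symm
        · exact h
  refine ⟨?_, ?_⟩
  · intro hd
    -- `δ o` is on the translate by `β`
    have h5 : yg g ((δ⁻¹ * β)⁻¹ • (g • (0 : 𝔻))) = 0 := by
      rw [yg_smul_of_mem ((Dg g).inv_mem hd), yg_base]
    have h6 := KF_line_side hNC hb h4 h5
    have e3 : ∀ z : 𝔻, (γ⁻¹ * β) • ((δ⁻¹ * β)⁻¹ • z) = γ⁻¹ • (δ • z) := by
      intro z
      rw [smul_smul, smul_smul]
      congr 1
      group
    rw [e3] at h6
    rcases hside with ⟨_, h7, h8⟩ | ⟨_, h7, h8⟩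
    · rw [KF_Sg_neg h7.le, KF_Sg_pos h8] at h6
      exact zero_ne_one h6
    · rw [KF_Sg_pos h7, KF_Sg_neg h8.le] at h6
      exact one_ne_zero h6
  · have h5 : Sg g (β⁻¹ • (δ • (g • (0 : 𝔻)))) = Sg g (β⁻¹ • (γ • (g • (0 : 𝔻)))) := by
      rcases hside with ⟨_, h7, h8⟩ | ⟨_, h7, h8⟩
      · have h9 := KF_lower hNC hb h4 h8 h7.le (yg_base g).le
        rwa [e1, e2] at h9
      · have h9 := KF_upper hNC hb h4 h8 h7.le (yg_base g).ge
        rwa [e1, e2] at h9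
    rw [h5]
    exact hsep'

end

end Pool.Agent.Lib.MP_b16327_pr
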