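import Pool.Agent.Lib.MP_b16327_pr.KF
import Pool.Agent.Lib.MP_b16327_pr.KDs
import Pool.Agent.Lib.MP_b16327_pr.KC

/-! # Existence of adjacent translates -/

namespace Pool.Agent.Lib.MP_b16327_pr

open Complex MeasureTheory ComplexConjugate Filter
open scoped Complex.UnitDisc Topology

noncomputable section

/-- the separating elements -/
def KG_sep (Γ : Subgroup SU11) (g δ : SU11) : Set SU11 :=
  {γ | γ ∈ Γ ∧ γ ∉ Dg g ∧ δ⁻¹ * γ ∉ Dg g ∧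
    Sg g (γ⁻¹ • (δ • (g • (0 : 𝔻)))) ≠ Sg g (γ⁻¹ • (g • (0 : 𝔻)))}

/-- the separating cosets -/
def KG_cos (Γ : Subgroup SU11) (g δ : SU11) : Set (SU11 ⧸ Dg g) :=
  (fun γ : SU11 => (γ : SU11 ⧸ Dg g)) '' KG_sep Γ g δ

theorem KG_finite {Γ : Subgroup SU11} (hd : IsDisc Γ) (H : HypD Γ) (δ : SU11) :
    (KG_cos Γ H.g δ).Finite := by
  set r : ℝ := max ‖((δ • (H.g • (0 : 𝔻)) : 𝔻) : ℂ)‖ ‖((H.g • (0 : 𝔻) : 𝔻) : ℂ)‖ with hr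
  have hr1 : r < 1 := max_lt (UnitDisc.norm_lt_one _) (UnitDisc.norm_lt_one _)
  obtain ⟨F, -, hF⟩ := finite_sep hd H hr1
  refine (F.finite_toSet.image fun γ : SU11 => (γ : SU11 ⧸ Dg H.g)).subset ?_
  rintro _ ⟨γ, ⟨hγ, -, -, hne⟩, rfl⟩
  obtain ⟨δ', hδ', hmem⟩ := hF γ hγ ⟨δ • (H.g • (0 : 𝔻)), H.g • (0 : 𝔻), le_max_left _ _,
    le_max_right _ _, Or.inl hne⟩
  exact ⟨δ', hδ', QuotientGroup.eq.2 hmem⟩

/-- EXISTENCE of an adjacent translate on a given side: among the `δ ∈ Γ`, `δ ∉ Dg g` with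
`Sg (δ o) = Sg (δ₀ o)` choose one minimising the number of cosets `γ (Γ ∩ Dg g)` with
`γ ∉ Dg g`, `δ⁻¹ γ ∉ Dg g`, `Sg (γ⁻¹ δ o) ≠ Sg (γ⁻¹ o)` (a finite number by `finite_sep`).  If it is
not zero, take such a `γ`: by `sep_sign` `Sg (γ o) = Sg (δ₀ o)` and by `sep_sub` the set of cosets
for `γ` is contained in the set for `δ`, and the coset of `γ` is only in the latter. -/
theorem exists_adj {Γ : Subgroup SU11} (hd : IsDisc Γ) (H : HypD Γ) (hNC : NC Γ H.g) {δ₀ : SU11}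
    (h₀ : δ₀ ∈ Γ) (h₀' : δ₀ ∉ Dg H.g) :
    ∃ δ ∈ Γ, δ ∉ Dg H.g ∧ Sg H.g (δ • (H.g • (0 : 𝔻))) = Sg H.g (δ₀ • (H.g • (0 : 𝔻))) ∧
      ∀ γ ∈ Γ, γ ∉ Dg H.g → δ⁻¹ * γ ∉ Dg H.g →
        Sg H.g (γ⁻¹ • (δ • (H.g • (0 : 𝔻)))) = Sg H.g (γ⁻¹ • (H.g • (0 : 𝔻))) := by
  obtain ⟨δ, ⟨hδ, hδ', hSg⟩, hmin⟩ := (measure fun δ : SU11 => (KG_cos Γ H.g δ).ncard).wf.has_min
    {δ | δ ∈ Γ ∧ δ ∉ Dg H.g ∧ Sg H.g (δ • (H.g • (0 : 𝔻))) = Sg H.g (δ₀ • (H.g • (0 : 𝔻)))}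
    ⟨δ₀, h₀, h₀', rfl⟩
  refine ⟨δ, hδ, hδ', hSg, fun γ hγ hγ' hδγ => ?_⟩
  by_contra hne
  have hS := sep_sign hNC hδ hγ hδ' hγ' hδγ hne
  have hlt := hmin γ ⟨hγ, hγ', hS.trans hSg⟩
  apply hlt
  change (KG_cos Γ H.g γ).ncard < (KG_cos Γ H.g δ).ncard
  apply Set.ncard_lt_ncard _ (KG_finite hd H δ)
  rw [Set.ssubset_iff_of_subset]
  · refine ⟨(γ : SU11 ⧸ Dg H.g), ⟨γ, ⟨hγ, hγ', hδγ, hne⟩, rfl⟩, ?_⟩
    rintro ⟨β, ⟨-, -, hβ, -⟩, heq⟩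
    exact hβ (QuotientGroup.eq.1 heq.symm)
  · rintro _ ⟨β, ⟨hβ, hβ', hβγ, hβne⟩, rfl⟩
    have h := sep_sub hNC hδ hγ hβ hγ' hδγ hβ' hβγ hne hβne
    exact ⟨β, ⟨hβ, hβ', h.1, h.2⟩, rfl⟩

/-- sign of the angle coordinate -/
theorem KG_cayley_im (z : 𝔻) : ∃ c : ℝ, 0 < c ∧
    ((1 + (z : ℂ)) / (1 - (z : ℂ))).im = c * (z : ℂ).im := by
  have h1 : 1 - (z : ℂ) ≠ 0 := by
    intro h
    have h2 : (z : ℂ) = 1 := by linear_combination -h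
    have h3 := z.norm_lt_one
    rw [h2, norm_one] at h3
    exact lt_irrefl _ h3
  have h2 : 0 < normSq (1 - (z : ℂ)) := Complex.normSq_pos.2 h1
  refine ⟨2 / normSq (1 - (z : ℂ)), by positivity, ?_⟩
  rw [Complex.div_im]
  simp only [Complex.add_im, Complex.one_im, Complex.add_re, Complex.one_re, Complex.sub_im,
    Complex.sub_re]
  field_simp
  ring

theorem KG_yc_pos {z : 𝔻} (h : 0 < (z : ℂ).im) : 0 < yc z := by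
  obtain ⟨c, hc, he⟩ := KG_cayley_im z
  have h1 : 0 < ((1 + (z : ℂ)) / (1 - (z : ℂ))).im := by rw [he]; positivity
  refine lt_of_le_of_ne (Complex.arg_nonneg_iff.2 h1.le) fun h0 => ?_
  have := (Complex.arg_eq_zero_iff.1 h0.symm).2
  linarith

theorem KG_yc_neg {z : 𝔻} (h : (z : ℂ).im < 0) : yc z < 0 := by
  obtain ⟨c, hc, he⟩ := KG_cayley_im z
  refine Complex.arg_neg_iff.2 ?_
  rw [he]
  exact mul_neg_of_pos_of_neg hc h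

/-- `g⁻¹ γ g 0` can be made as close to a boundary point as one wants -/
theorem KG_near {Γ : Subgroup SU11} (hc : IsCocpt Γ) (g : SU11) (ξ : Circle) :
    ∃ δ ∈ Γ, ‖((g⁻¹ • (δ • (g • (0 : 𝔻))) : 𝔻) : ℂ) - ξ‖ < 1 := by
  set w : 𝔻 := g • (0 : 𝔻) with hw
  have hw1 := w.norm_lt_one
  have hw0 := norm_nonneg (w : ℂ)
  set c : ℝ := (‖(g⁻¹).a‖ - ‖(g⁻¹).b‖) with hc'
  have hcpos : 0 < c := by have := (g⁻¹).norm_b_lt; linarith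
  set ε : ℝ := min 1 (c ^ 2 * (1 - ‖(w : ℂ)‖) / 4) with hε
  have hw2 : 0 < 1 - ‖(w : ℂ)‖ := by linarith
  have hε0 : 0 < ε := lt_min one_pos (by positivity)
  have hε1 : ε ≤ 1 := min_le_left _ _
  have hε2 : ε ≤ c ^ 2 * (1 - ‖(w : ℂ)‖) / 4 := min_le_right _ _
  obtain ⟨γ, hγ, h1, h2⟩ := exists_near hc (g • ξ) hε0
  refine ⟨γ, hγ, ?_⟩
  set u : 𝔻 := γ • w with hu
  have hξ : ‖(ξ : ℂ)‖ = 1 := ξ.norm_coe
  -- `γ w` is close to `γ 0`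
  have hA : 0 < ‖γ.a‖ := norm_pos_iff.2 γ.a_ne_zero
  have h3 : ‖(u : ℂ) - ((γ • (0 : 𝔻) : 𝔻) : ℂ)‖ ≤ ε / (1 - ‖(w : ℂ)‖) := by
    have hs := KC_sub γ w
    have hden := KC_den_ge γ (w : ℂ)
    rw [div_lt_iff₀ hε0] at h2
    rw [le_div_iff₀ hw2]
    have hn := norm_nonneg ((u : ℂ) - ((γ • (0 : 𝔻) : 𝔻) : ℂ))
    set N : ℝ := ‖(u : ℂ) - ((γ • (0 : 𝔻) : 𝔻) : ℂ)‖ with hN
    have h4 : N * (‖γ.a‖ * (1 - ‖(w : ℂ)‖) * ‖γ.a‖) ≤ 1 := by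
      calc _ ≤ N * (‖γ.den w‖ * ‖γ.a‖) :=
            mul_le_mul_of_nonneg_left (mul_le_mul_of_nonneg_right hden hA.le) hn
        _ = ‖(w : ℂ)‖ := hs
        _ ≤ 1 := hw1.le
    have h5 := γ.one_le_norm_a
    have h6 : N * (1 - ‖(w : ℂ)‖) * ‖γ.a‖ ≤ 1 := by
      have h7 : 0 ≤ N * (1 - ‖(w : ℂ)‖) * ‖γ.a‖ := by positivity
      nlinarith
    -- `N (1-|w|) ≤ 1/|a| < ε`
    by_contra hcon
    rw [not_le] at hcon
    nlinarith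
  have h4 : ‖(u : ℂ) - ((g • ξ : Circle) : ℂ)‖ ≤ 2 * ε / (1 - ‖(w : ℂ)‖) := by
    have h5 : ε ≤ ε / (1 - ‖(w : ℂ)‖) := by
      rw [le_div_iff₀ hw2]
      nlinarith
    calc ‖(u : ℂ) - ((g • ξ : Circle) : ℂ)‖ = ‖((u : ℂ) - ((γ • (0 : 𝔻) : 𝔻) : ℂ)) +
          (((γ • (0 : 𝔻) : 𝔻) : ℂ) - ((g • ξ : Circle) : ℂ))‖ := by congr 1; ring
      _ ≤ _ := norm_add_le _ _
      _ ≤ ε / (1 - ‖(w : ℂ)‖) + ε / (1 - ‖(w : ℂ)‖) := by linarith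
      _ = _ := by ring
  -- apply `g⁻¹`
  have hden2 : ∀ v : ℂ, ‖v‖ ≤ 1 → c ≤ ‖(g⁻¹).den v‖ := by
    intro v hv
    have h5 := (g⁻¹).norm_b_lt
    have h6 : ‖conj (g⁻¹).a‖ ≤ ‖(g⁻¹).den v‖ + ‖conj (g⁻¹).b * v‖ := by
      have : conj (g⁻¹).a = (g⁻¹).den v - conj (g⁻¹).b * v := by
        unfold SU11.den
        ring
      rw [this]
      exact norm_sub_le _ _
    rw [norm_mul, Complex.norm_conj, Complex.norm_conj] at h6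
    have h7 := norm_nonneg (g⁻¹).b
    have h8 : ‖(g⁻¹).b‖ * ‖v‖ ≤ ‖(g⁻¹).b‖ * 1 := mul_le_mul_of_nonneg_left hv h7
    rw [hc']
    linarith
  have hgξ : ‖((g • ξ : Circle) : ℂ)‖ = 1 := Circle.norm_coe _
  have h5 := mob_sub_mob g⁻¹ (z := (u : ℂ)) (w := ((g • ξ : Circle) : ℂ)) u.norm_lt_one.le hgξ.le
  have h6 : (g⁻¹).mob ((g • ξ : Circle) : ℂ) = ξ := by
    rw [← coe_smul_circle, inv_smul_smul]
  rw [coe_smul]
  rw [← h6, h5, norm_div, norm_mul]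
  have h7 := hden2 u u.norm_lt_one.le
  have h8 := hden2 _ hgξ.le
  have h9 : c ^ 2 ≤ ‖(g⁻¹).den u‖ * ‖(g⁻¹).den ((g • ξ : Circle) : ℂ)‖ := by
    rw [sq]
    exact mul_le_mul h7 h8 hcpos.le (norm_nonneg _)
  rw [div_lt_one (lt_of_lt_of_le (by positivity) h9)]
  refine lt_of_le_of_lt h4 (lt_of_lt_of_le ?_ h9)
  rw [div_lt_iff₀ hw2]
  have : 0 < c ^ 2 * (1 - ‖(w : ℂ)‖) := by positivity
  linarith

/-- the orbit of the base point meets both open half planes: by `exists_near` there are `γ ∈ Γ`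
with `γ 0` close to the boundary point `g (± i)` and `|γ.a|` large, and then
`|γ w - γ 0| = |w| / (|den γ w| |den γ 0|) ≤ 1 / (|γ.a|^2 (1 - |w|))` is small too for `w = g 0`;
so `g⁻¹ γ w` is close to `± i` and `yc` has the sign of the imaginary part
(`Im ((1+z)/(1-z)) = 2 Im z / |1-z|^2`). -/
theorem exists_sides {Γ : Subgroup SU11} (hc : IsCocpt Γ) (g : SU11) :
    (∃ δ ∈ Γ, 0 < yg g (δ • (g • (0 : 𝔻)))) ∧ ∃ δ ∈ Γ, yg g (δ • (g • (0 : 𝔻))) < 0 := by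
  constructor
  · obtain ⟨δ, hδ, h⟩ := KG_near hc g ⟨I, by simp [Submonoid.unitSphere]⟩
    refine ⟨δ, hδ, KG_yc_pos ?_⟩
    have h1 := (Complex.abs_im_le_norm _).trans_lt h
    rw [Complex.sub_im] at h1
    have h2 : ((⟨I, by simp [Submonoid.unitSphere]⟩ : Circle) : ℂ).im = 1 := Complex.I_im
    rw [h2] at h1
    have := (abs_lt.1 h1).1
    linarith
  · obtain ⟨δ, hδ, h⟩ := KG_near hc g ⟨-I, by simp [Submonoid.unitSphere]⟩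
    refine ⟨δ, hδ, KG_yc_neg ?_⟩
    have h1 := (Complex.abs_im_le_norm _).trans_lt h
    rw [Complex.sub_im] at h1
    have h2 : ((⟨-I, by simp [Submonoid.unitSphere]⟩ : Circle) : ℂ).im = -1 := by
      change (-I).im = -1
      simp
    rw [h2] at h1
    have := (abs_lt.1 h1).2
    linarith

end

end Pool.Agent.Lib.MP_b16327_pr
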