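import Pool.Agent.Lib.MP_b16327_pr.KE

/-! # Locally constant cocycles -/

namespace Pool.Agent.Lib.MP_b16327_pr

open Complex MeasureTheory ComplexConjugate Filter
open scoped Complex.UnitDisc Topology

noncomputable section

variable {Γ : Subgroup SU11}

/-- the stabiliser of the oriented geodesic in `Γ` -/
abbrev Lam (Γ : Subgroup SU11) (g : SU11) : Subgroup Γ := (Dg g).subgroupOf Γ

/-- the terms of the cocycle function -/
def fterm (g : SU11) (M : Subgroup Γ) (φ : Γ ⧸ M → ℝ) (q : Γ ⧸ Lam Γ g) (z : 𝔻) : ℝ :=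
  φ ((q.out : Γ) : Γ ⧸ M) * (Sg g (((q.out : Γ) : SU11)⁻¹ • z) -
    Sg g (((q.out : Γ) : SU11)⁻¹ • (g • (0 : 𝔻))))

/-- the cocycle function `f_φ(z) = ∑_{q ∈ Γ/Λ} φ(q) (Sg (q⁻¹ z) - Sg (q⁻¹ o))` -/
def fphi (g : SU11) (M : Subgroup Γ) (φ : Γ ⧸ M → ℝ) (z : 𝔻) : ℝ := ∑ᶠ q, fterm g M φ q z

/-- finitely many non-zero terms (`finite_sep`) -/
theorem fterm_finite (hd : IsDisc Γ) (H : HypD Γ) (M : Subgroup Γ) (φ : Γ ⧸ M → ℝ) (z : 𝔻) :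
    (Function.support (fun q => fterm H.g M φ q z)).Finite := by
  classical
  set o : 𝔻 := H.g • (0 : 𝔻) with ho
  have hr : max ‖(z : ℂ)‖ ‖(o : ℂ)‖ < 1 := max_lt z.norm_lt_one o.norm_lt_one
  obtain ⟨F, hF, hFs⟩ := finite_sep hd H hr
  refine ((F.attach.image (fun δ : F =>
    ((⟨δ.1, hF δ.1 δ.2⟩ : Γ) : Γ ⧸ Lam Γ H.g))).finite_toSet).subset ?_
  intro q hq
  rw [Function.mem_support] at hq
  have hne : Sg H.g (((q.out : Γ) : SU11)⁻¹ • z) ≠ Sg H.g (((q.out : Γ) : SU11)⁻¹ • o) := by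
    intro h
    apply hq
    unfold fterm
    rw [h, sub_self, mul_zero]
  obtain ⟨δ, hδ, hδ'⟩ := hFs _ (q.out : Γ).2 ⟨z, o, le_max_left _ _, le_max_right _ _, Or.inl hne⟩
  rw [Finset.mem_coe, Finset.mem_image]
  refine ⟨⟨δ, hδ⟩, Finset.mem_attach _ _, ?_⟩
  rw [← QuotientGroup.out_eq' q, QuotientGroup.eq, Subgroup.mem_subgroupOf]
  exact hδ'

theorem fphi_add (hd : IsDisc Γ) (H : HypD Γ) (M : Subgroup Γ) (φ ψ : Γ ⧸ M → ℝ) (z : 𝔻) :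
    fphi H.g M (φ + ψ) z = fphi H.g M φ z + fphi H.g M ψ z := by
  unfold fphi
  rw [← finsum_add_distrib (fterm_finite hd H M φ z) (fterm_finite hd H M ψ z)]
  refine finsum_congr fun q => ?_
  unfold fterm
  rw [Pi.add_apply]
  ring

theorem fphi_smul (g : SU11) (M : Subgroup Γ) (t : ℝ) (φ : Γ ⧸ M → ℝ) (z : 𝔻) :
    fphi g M (t • φ) z = t * fphi g M φ z := by
  unfold fphi
  rw [← smul_eq_mul t, smul_finsum]
  refine finsum_congr fun q => ?_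
  unfold fterm
  rw [Pi.smul_apply, smul_eq_mul, smul_eq_mul]
  ring

theorem fphi_eqv (g : SU11) (M : Subgroup Γ) (φ : Γ ⧸ M → ℝ) {z w : 𝔻} (h : Eqv Γ g z w) :
    fphi g M φ z = fphi g M φ w := by
  unfold fphi
  refine finsum_congr fun q => ?_
  unfold fterm
  rw [h _ (q.out : Γ).2]

/-- the two-point term of an element -/
private def KHT (g : SU11) (M : Subgroup Γ) (φ : Γ ⧸ M → ℝ) (δ : Γ) (z w : 𝔻) : ℝ :=
  φ (δ : Γ ⧸ M) * (Sg g ((δ : SU11)⁻¹ • z) - Sg g ((δ : SU11)⁻¹ • w))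

private theorem KHT_coset (g : SU11) {M : Subgroup Γ} (hM : Lam Γ g ≤ M) (φ : Γ ⧸ M → ℝ)
    {δ δ' : Γ} (h : δ⁻¹ * δ' ∈ Lam Γ g) (z w : 𝔻) : KHT g M φ δ' z w = KHT g M φ δ z w := by
  unfold KHT
  have h1 : (δ' : Γ ⧸ M) = (δ : Γ ⧸ M) := by
    rw [eq_comm, QuotientGroup.eq]
    exact hM h
  have h2 : ((δ⁻¹ * δ' : Γ) : SU11) ∈ Dg g := Subgroup.mem_subgroupOf.1 h
  have h3 : ∀ z : 𝔻, Sg g ((δ' : SU11)⁻¹ • z) = Sg g ((δ : SU11)⁻¹ • z) := by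
    intro z
    have h4 : (δ' : SU11)⁻¹ = (((δ⁻¹ * δ' : Γ) : SU11))⁻¹ * (δ : SU11)⁻¹ := by
      push_cast
      group
    rw [h4, mul_smul, Sg_smul_of_mem ((Dg g).inv_mem h2)]
  rw [h1, h3, h3]

private theorem KHT_out (g : SU11) {M : Subgroup Γ} (hM : Lam Γ g ≤ M) (φ : Γ ⧸ M → ℝ)
    (δ : Γ) (z w : 𝔻) :
    KHT g M φ ((δ : Γ ⧸ Lam Γ g).out) z w = KHT g M φ δ z w := by
  apply KHT_coset g hM
  rw [← QuotientGroup.eq, QuotientGroup.out_eq']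

private theorem fphi_sub (hd : IsDisc Γ) (H : HypD Γ) (M : Subgroup Γ) (φ : Γ ⧸ M → ℝ) (z w : 𝔻) :
    fphi H.g M φ z - fphi H.g M φ w = ∑ᶠ q : Γ ⧸ Lam Γ H.g, KHT H.g M φ q.out z w := by
  unfold fphi
  rw [← finsum_sub_distrib (fterm_finite hd H M φ z) (fterm_finite hd H M φ w)]
  refine finsum_congr fun q => ?_
  unfold fterm KHT
  ring

/-- cocycle property for elements of a normal subgroup `N ≤ M`:
`f_φ(nz) - f_φ(no) = ∑_q φ(q) (Sg (q⁻¹ n z) - Sg (q⁻¹ n o))`; reindex by `q = n q'`, and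
`φ(n q') = φ(q')` because `q'⁻¹ n q' ∈ N ≤ M`.  (The summand
`φ(δ) (Sg (δ⁻¹ z) - Sg (δ⁻¹ w))` depends only on the coset `δ Λ` when `Λ ≤ M`.) -/
theorem fphi_cocycle (hd : IsDisc Γ) (H : HypD Γ) (M : Subgroup Γ) (hM : Lam Γ H.g ≤ M)
    {N : Subgroup Γ} (hN : N.Normal) (hNM : N ≤ M) (φ : Γ ⧸ M → ℝ) {n : Γ} (hn : n ∈ N) (z : 𝔻) :
    fphi H.g M φ ((n : SU11) • z) =
      fphi H.g M φ z + fphi H.g M φ ((n : SU11) • (H.g • (0 : 𝔻))) := by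
  rw [← sub_eq_iff_eq_add, fphi_sub hd H,
    ← finsum_comp_equiv (MulAction.toPerm n : Equiv.Perm (Γ ⧸ Lam Γ H.g))]
  unfold fphi
  refine finsum_congr fun q => ?_
  have h1 : (MulAction.toPerm n : Equiv.Perm (Γ ⧸ Lam Γ H.g)) q =
      ((n * q.out : Γ) : Γ ⧸ Lam Γ H.g) := by
    rw [MulAction.toPerm_apply]
    conv_lhs => rw [← QuotientGroup.out_eq' q]
    rfl
  rw [h1, KHT_out H.g hM]
  unfold KHT fterm
  have h2 : ((n * q.out : Γ) : Γ ⧸ M) = ((q.out : Γ) : Γ ⧸ M) := by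
    rw [eq_comm, QuotientGroup.eq]
    have h3 := hN.conj_mem n hn (q.out)⁻¹
    rw [inv_inv] at h3
    rw [← mul_assoc]
    exact hNM h3
  have h3 : ∀ z : 𝔻, (((n * q.out : Γ) : SU11))⁻¹ • ((n : SU11) • z) =
      ((q.out : Γ) : SU11)⁻¹ • z := by
    intro z
    rw [← mul_smul]
    congr 1
    push_cast
    group
  rw [h2, h3, h3]

/-- the jump across the translate by `γ` is `φ(γ)`: only the coset of `γ` contributes to
`f_φ(γ zp) - f_φ(γ o)` -/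
theorem fphi_jump (hd : IsDisc Γ) (H : HypD Γ) (M : Subgroup Γ) (hM : Lam Γ H.g ≤ M)
    {zp : 𝔻} (hpos : 0 < yg H.g zp)
    (hzp : ∀ δ ∈ Γ, δ ∉ Dg H.g → Sg H.g (δ⁻¹ • zp) = Sg H.g (δ⁻¹ • (H.g • (0 : 𝔻))))
    (φ : Γ ⧸ M → ℝ) (γ : Γ) :
    fphi H.g M φ ((γ : SU11) • zp) - fphi H.g M φ ((γ : SU11) • (H.g • (0 : 𝔻))) =
      φ (γ : Γ ⧸ M) := by
  rw [fphi_sub hd H, finsum_eq_single _ (γ : Γ ⧸ Lam Γ H.g)]
  · rw [KHT_out H.g hM]
    unfold KHT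
    rw [inv_smul_smul, inv_smul_smul]
    have h1 : Sg H.g zp = 1 := if_pos hpos
    have h2 : Sg H.g (H.g • (0 : 𝔻)) = 0 := if_neg (by rw [yg_base]; exact lt_irrefl _)
    rw [h1, h2]
    ring
  · intro q hq
    have hD : ((γ : SU11)⁻¹ * ((q.out : Γ) : SU11)) ∉ Dg H.g := by
      intro h
      apply hq
      rw [← QuotientGroup.out_eq' q, eq_comm, QuotientGroup.eq, Subgroup.mem_subgroupOf]
      exact h
    have h1 := hzp _ (Γ.mul_mem (Γ.inv_mem γ.2) (q.out : Γ).2) hD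
    rw [mul_inv_rev, inv_inv, mul_smul, mul_smul] at h1
    unfold KHT
    rw [h1, sub_self, mul_zero]

/-- the period map `φ ↦ (n ↦ f_φ(n o))` -/
theorem exists_cphi (hd : IsDisc Γ) (H : HypD Γ) (M : Subgroup Γ) (hM : Lam Γ H.g ≤ M)
    {N : Subgroup SU11} (hle : N ≤ Γ) (hN : (N.subgroupOf Γ).Normal) (hNM : N.subgroupOf Γ ≤ M) :
    ∃ c : (Γ ⧸ M → ℝ) →ₗ[ℝ] HomR N, ∀ (φ : Γ ⧸ M → ℝ) (n : N),
      ev (c φ) n = fphi H.g M φ ((n : SU11) • (H.g • (0 : 𝔻))) := by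
  have hadd : ∀ (φ : Γ ⧸ M → ℝ) (n m : N), fphi H.g M φ (((n * m : N) : SU11) • (H.g • (0 : 𝔻))) =
      fphi H.g M φ ((n : SU11) • (H.g • (0 : 𝔻))) +
        fphi H.g M φ ((m : SU11) • (H.g • (0 : 𝔻))) := by
    intro φ n m
    have h1 := fphi_cocycle hd H M hM hN hNM φ (n := ⟨n.1, hle n.2⟩)
      (Subgroup.mem_subgroupOf.2 n.2) ((m : SU11) • (H.g • (0 : 𝔻)))
    have h2 : ((n * m : N) : SU11) • (H.g • (0 : 𝔻)) =
        (n : SU11) • ((m : SU11) • (H.g • (0 : 𝔻))) :=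
      mul_smul (n : SU11) (m : SU11) (H.g • (0 : 𝔻))
    rw [h2]
    rw [add_comm]
    exact h1
  refine ⟨{
    toFun := fun φ => AddMonoidHom.mk' (fun n : Additive N =>
      fphi H.g M φ (((Additive.toMul n : N) : SU11) • (H.g • (0 : 𝔻))))
      (fun a b => hadd φ (Additive.toMul a) (Additive.toMul b))
    map_add' := ?_
    map_smul' := ?_ }, ?_⟩
  · intro φ ψ
    ext n
    exact fphi_add hd H M φ ψ _
  · intro t φ
    ext n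
    exact fphi_smul H.g M t φ _
  · intro φ n
    rfl

end

end Pool.Agent.Lib.MP_b16327_pr
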