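import Pool.Agent.Lib.MP_b16327_pr.KH

/-! # The kernel of the period map -/

namespace Pool.Agent.Lib.MP_b16327_pr

open Complex MeasureTheory ComplexConjugate Filter
open scoped Complex.UnitDisc Topology

noncomputable section

variable {Γ : Subgroup SU11}

private theorem ki_smul (a b : Γ) (w : 𝔻) :
    ((a * b : Γ) : SU11) • w = (a : SU11) • ((b : SU11) • w) := by
  rw [Subgroup.coe_mul, mul_smul]

/-- a function on a group which is right invariant under `M` and under `k` is right invariant under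
`M ⊔ ⟨k⟩` -/
theorem inv_sup {G : Type*} [Group G] {M : Subgroup G} {k : G} {F : G → ℝ}
    (h1 : ∀ γ, ∀ m ∈ M, F (γ * m) = F γ) (h2 : ∀ γ, F (γ * k) = F γ) :
    ∀ γ, ∀ m ∈ M ⊔ Subgroup.zpowers k, F (γ * m) = F γ := by
  let S : Subgroup G :=
    { carrier := {m | ∀ γ, F (γ * m) = F γ}
      mul_mem' := by
        intro a b ha hb γ
        have h := hb (γ * a)
        rw [mul_assoc] at h
        rw [h]
        exact ha γ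
      one_mem' := by
        intro γ
        rw [mul_one]
      inv_mem' := by
        intro a ha γ
        have h := ha (γ * a⁻¹)
        rw [inv_mul_cancel_right] at h
        exact h.symm }
  have hM : M ≤ S := fun m hm γ => h1 γ m hm
  have hk : Subgroup.zpowers k ≤ S := by
    rw [Subgroup.zpowers_le]
    exact h2
  intro γ m hm
  exact (sup_le hM hk) hm γ

/-- if all periods vanish then `γ ↦ f_φ(γ z)` is right invariant under the normal subgroup `N`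
(`f_φ(γ n z) = f_φ((γ n γ⁻¹) γ z) = f_φ(γ z)`) and, when `l z` is equivalent to `z` for `l ∈ Λ`,
under `Λ` (`fphi_eqv`, `Eqv.smul`) -/
theorem inv_of_zero (hd : IsDisc Γ) (H : HypD Γ) {N : Subgroup Γ} (hN : N.Normal)
    (φ : Γ ⧸ (N ⊔ Lam Γ H.g) → ℝ)
    (h0 : ∀ n ∈ N, fphi H.g (N ⊔ Lam Γ H.g) φ ((n : SU11) • (H.g • (0 : 𝔻))) = 0) {z : 𝔻}
    (hz : ∀ l : Γ, l ∈ Lam Γ H.g → Eqv Γ H.g ((l : SU11) • z) z) :
    ∀ γ : Γ, ∀ m ∈ N ⊔ Lam Γ H.g, fphi H.g (N ⊔ Lam Γ H.g) φ (((γ * m : Γ) : SU11) • z) =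
      fphi H.g (N ⊔ Lam Γ H.g) φ ((γ : SU11) • z) := by
  let S : Subgroup Γ :=
    { carrier := {m | ∀ γ : Γ, fphi H.g (N ⊔ Lam Γ H.g) φ (((γ * m : Γ) : SU11) • z) =
        fphi H.g (N ⊔ Lam Γ H.g) φ ((γ : SU11) • z)}
      mul_mem' := by
        intro a b ha hb γ
        have h := hb (γ * a)
        rw [mul_assoc] at h
        rw [h]
        exact ha γ
      one_mem' := by
        intro γ
        rw [mul_one]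
      inv_mem' := by
        intro a ha γ
        have h := ha (γ * a⁻¹)
        rw [inv_mul_cancel_right] at h
        exact h.symm }
  have hNS : N ≤ S := by
    intro n hn γ
    have hn' : γ * n * γ⁻¹ ∈ N := hN.conj_mem n hn γ
    have e : ((γ * n : Γ) : SU11) • z = ((γ * n * γ⁻¹ : Γ) : SU11) • ((γ : SU11) • z) := by
      rw [← ki_smul, inv_mul_cancel_right]
    rw [e, fphi_cocycle hd H (N ⊔ Lam Γ H.g) le_sup_right hN le_sup_left φ hn', h0 _ hn', add_zero]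
  have hLS : Lam Γ H.g ≤ S := by
    intro l hl γ
    have e : ((γ * l : Γ) : SU11) • z = (γ : SU11) • ((l : SU11) • z) := ki_smul _ _ _
    rw [e]
    exact fphi_eqv H.g (N ⊔ Lam Γ H.g) φ (Eqv.smul (hz l hl) γ.2)
  intro γ m hm
  exact (sup_le hNS hLS) hm γ

/-- case A: `δ₁ zp ∼ zp` and `δ₂ o ∼ o` -/
theorem ker_caseA (hd : IsDisc Γ) (H : HypD Γ) (hNC : NC Γ H.g) {N : Subgroup Γ} (hN : N.Normal)
    {zp : 𝔻} (hpos : 0 < yg H.g zp)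
    (hzp : ∀ δ ∈ Γ, δ ∉ Dg H.g → Sg H.g (δ⁻¹ • zp) = Sg H.g (δ⁻¹ • (H.g • (0 : 𝔻))))
    {δ₁ δ₂ : Γ} (h1 : Eqv Γ H.g ((δ₁ : SU11) • zp) zp)
    (h2 : Eqv Γ H.g ((δ₂ : SU11) • (H.g • (0 : 𝔻))) (H.g • (0 : 𝔻)))
    (φ : Γ ⧸ (N ⊔ Lam Γ H.g) → ℝ)
    (h0 : ∀ n ∈ N, fphi H.g (N ⊔ Lam Γ H.g) φ ((n : SU11) • (H.g • (0 : 𝔻))) = 0) :
    ∃ F₁ F₂ : Γ → ℝ,
      (∀ γ, ∀ m ∈ (N ⊔ Lam Γ H.g) ⊔ Subgroup.zpowers δ₁, F₁ (γ * m) = F₁ γ) ∧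
      (∀ γ, ∀ m ∈ (N ⊔ Lam Γ H.g) ⊔ Subgroup.zpowers δ₂, F₂ (γ * m) = F₂ γ) ∧
      ∀ γ : Γ, φ (γ : Γ ⧸ (N ⊔ Lam Γ H.g)) = F₁ γ - F₂ γ := by
  have hs : ∀ l : Γ, l ∈ Lam Γ H.g → Eqv Γ H.g ((l : SU11) • zp) zp ∧
      Eqv Γ H.g ((l : SU11) • (H.g • (0 : 𝔻))) (H.g • (0 : 𝔻)) := by
    intro l hl
    exact eqv_stab hNC hpos hzp l.2 (Subgroup.mem_subgroupOf.1 hl)
  refine ⟨fun γ => fphi H.g (N ⊔ Lam Γ H.g) φ ((γ : SU11) • zp),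
    fun γ => fphi H.g (N ⊔ Lam Γ H.g) φ ((γ : SU11) • (H.g • (0 : 𝔻))), ?_, ?_, ?_⟩
  · refine inv_sup (F := fun γ : Γ => fphi H.g (N ⊔ Lam Γ H.g) φ ((γ : SU11) • zp))
      (inv_of_zero hd H hN φ h0 (fun l hl => (hs l hl).1)) ?_
    intro γ
    change fphi H.g (N ⊔ Lam Γ H.g) φ (((γ * δ₁ : Γ) : SU11) • zp) = _
    have e : ((γ * δ₁ : Γ) : SU11) • zp = (γ : SU11) • ((δ₁ : SU11) • zp) := ki_smul _ _ _
    rw [e]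
    exact fphi_eqv H.g (N ⊔ Lam Γ H.g) φ (Eqv.smul h1 γ.2)
  · refine inv_sup
      (F := fun γ : Γ => fphi H.g (N ⊔ Lam Γ H.g) φ ((γ : SU11) • (H.g • (0 : 𝔻))))
      (inv_of_zero hd H hN φ h0 (fun l hl => (hs l hl).2)) ?_
    intro γ
    change fphi H.g (N ⊔ Lam Γ H.g) φ (((γ * δ₂ : Γ) : SU11) • (H.g • (0 : 𝔻))) = _
    have e : ((γ * δ₂ : Γ) : SU11) • (H.g • (0 : 𝔻)) =
        (γ : SU11) • ((δ₂ : SU11) • (H.g • (0 : 𝔻))) := ki_smul _ _ _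
    rw [e]
    exact fphi_eqv H.g (N ⊔ Lam Γ H.g) φ (Eqv.smul h2 γ.2)
  · intro γ
    exact (fphi_jump hd H (N ⊔ Lam Γ H.g) le_sup_right hpos hzp φ γ).symm

/-- case B: `δ o ∼ zp`.  `F(γ) = f_φ(γ zp) = f_φ(γ δ o)`, so it is invariant under `δ l δ⁻¹`,
`l ∈ Λ`, and `f_φ(γ o) = F(γ δ⁻¹)`. -/
theorem ker_caseB (hd : IsDisc Γ) (H : HypD Γ) (hNC : NC Γ H.g) {N : Subgroup Γ} (hN : N.Normal)
    {zp : 𝔻} (hpos : 0 < yg H.g zp)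
    (hzp : ∀ δ ∈ Γ, δ ∉ Dg H.g → Sg H.g (δ⁻¹ • zp) = Sg H.g (δ⁻¹ • (H.g • (0 : 𝔻))))
    {δ l : Γ} (h1 : Eqv Γ H.g ((δ : SU11) • (H.g • (0 : 𝔻))) zp) (hl : l ∈ Lam Γ H.g)
    (φ : Γ ⧸ (N ⊔ Lam Γ H.g) → ℝ)
    (h0 : ∀ n ∈ N, fphi H.g (N ⊔ Lam Γ H.g) φ ((n : SU11) • (H.g • (0 : 𝔻))) = 0) :
    ∃ F : Γ → ℝ,
      (∀ γ, ∀ m ∈ (N ⊔ Lam Γ H.g) ⊔ Subgroup.zpowers (δ * l * δ⁻¹), F (γ * m) = F γ) ∧
      ∀ γ : Γ, φ (γ : Γ ⧸ (N ⊔ Lam Γ H.g)) = F γ - F (γ * δ⁻¹) := by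
  have hs : ∀ l : Γ, l ∈ Lam Γ H.g → Eqv Γ H.g ((l : SU11) • zp) zp ∧
      Eqv Γ H.g ((l : SU11) • (H.g • (0 : 𝔻))) (H.g • (0 : 𝔻)) := by
    intro l hl
    exact eqv_stab hNC hpos hzp l.2 (Subgroup.mem_subgroupOf.1 hl)
  have key : ∀ γ : Γ, fphi H.g (N ⊔ Lam Γ H.g) φ (((γ * δ : Γ) : SU11) • (H.g • (0 : 𝔻))) =
      fphi H.g (N ⊔ Lam Γ H.g) φ ((γ : SU11) • zp) := by
    intro γ
    have e : ((γ * δ : Γ) : SU11) • (H.g • (0 : 𝔻)) =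
        (γ : SU11) • ((δ : SU11) • (H.g • (0 : 𝔻))) := ki_smul _ _ _
    rw [e]
    exact fphi_eqv H.g (N ⊔ Lam Γ H.g) φ (Eqv.smul h1 γ.2)
  have keyl : ∀ γ : Γ, fphi H.g (N ⊔ Lam Γ H.g) φ (((γ * l : Γ) : SU11) • (H.g • (0 : 𝔻))) =
      fphi H.g (N ⊔ Lam Γ H.g) φ ((γ : SU11) • (H.g • (0 : 𝔻))) := by
    intro γ
    have e : ((γ * l : Γ) : SU11) • (H.g • (0 : 𝔻)) =
        (γ : SU11) • ((l : SU11) • (H.g • (0 : 𝔻))) := ki_smul _ _ _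
    rw [e]
    exact fphi_eqv H.g (N ⊔ Lam Γ H.g) φ (Eqv.smul (hs l hl).2 γ.2)
  refine ⟨fun γ => fphi H.g (N ⊔ Lam Γ H.g) φ ((γ : SU11) • zp), ?_, ?_⟩
  · refine inv_sup (F := fun γ : Γ => fphi H.g (N ⊔ Lam Γ H.g) φ ((γ : SU11) • zp))
      (inv_of_zero hd H hN φ h0 (fun l hl => (hs l hl).1)) ?_
    intro γ
    change fphi H.g (N ⊔ Lam Γ H.g) φ (((γ * (δ * l * δ⁻¹) : Γ) : SU11) • zp) =
      fphi H.g (N ⊔ Lam Γ H.g) φ ((γ : SU11) • zp)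
    rw [← key (γ * (δ * l * δ⁻¹)), ← key γ]
    have e : γ * (δ * l * δ⁻¹) * δ = γ * δ * l := by group
    rw [e]
    exact keyl (γ * δ)
  · intro γ
    change φ (γ : Γ ⧸ (N ⊔ Lam Γ H.g)) = fphi H.g (N ⊔ Lam Γ H.g) φ ((γ : SU11) • zp) -
      fphi H.g (N ⊔ Lam Γ H.g) φ (((γ * δ⁻¹ : Γ) : SU11) • zp)
    rw [← key (γ * δ⁻¹), inv_mul_cancel_right]
    exact (fphi_jump hd H (N ⊔ Lam Γ H.g) le_sup_right hpos hzp φ γ).symm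

end

end Pool.Agent.Lib.MP_b16327_pr
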