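import Mathlib

/-! # Counting: a linear map with a small kernel has rank at least three -/

namespace Pool.Agent.Lib.MP_b16327_pr

noncomputable section

private theorem KJ_three {V W : Type*} [AddCommGroup V] [Module ℝ V] [FiniteDimensional ℝ V]
    [AddCommGroup W] [Module ℝ W] (c : V →ₗ[ℝ] W)
    (hdim : Module.finrank ℝ (LinearMap.ker c) + 3 ≤ Module.finrank ℝ V) :
    ∃ v : Fin 3 → W, LinearIndependent ℝ v := by
  have h1 := LinearMap.finrank_range_add_finrank_ker c
  have h2 : 3 ≤ Module.finrank ℝ (LinearMap.range c) := by omega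
  refine ⟨fun i => ((Module.finBasis ℝ (LinearMap.range c)) (Fin.castLE h2 i) : W), ?_⟩
  have h3 : LinearIndependent ℝ fun i : Fin 3 =>
      (Module.finBasis ℝ (LinearMap.range c)) (Fin.castLE h2 i) :=
    (Module.finBasis ℝ (LinearMap.range c)).linearIndependent.comp _ (Fin.castLE_injective h2)
  exact h3.map' (LinearMap.range c).subtype (Submodule.ker_subtype _)

/-- if the kernel of `c` is contained in the range of a linear map from a space of dimension at most
`finrank V - 3`, then the target contains three linearly independent vectors (rank-nullity) -/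
theorem three_of_ker {U V W : Type*} [AddCommGroup U] [Module ℝ U] [FiniteDimensional ℝ U]
    [AddCommGroup V] [Module ℝ V] [FiniteDimensional ℝ V] [AddCommGroup W] [Module ℝ W]
    (S : U →ₗ[ℝ] V) (c : V →ₗ[ℝ] W) (hker : LinearMap.ker c ≤ LinearMap.range S)
    (hdim : Module.finrank ℝ U + 3 ≤ Module.finrank ℝ V) :
    ∃ v : Fin 3 → W, LinearIndependent ℝ v := by
  apply KJ_three c
  have h1 := Submodule.finrank_mono hker
  have h2 := LinearMap.finrank_range_le S
  omega

/-- functions on the cosets of a finite index subgroup -/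
private theorem KJ_fin {G : Type*} [Group G] (M : Subgroup G) (hM : M.index ≠ 0) :
    FiniteDimensional ℝ (G ⧸ M → ℝ) ∧ Module.finrank ℝ (G ⧸ M → ℝ) = M.index := by
  have i0 : M.FiniteIndex := ⟨hM⟩
  have i1 : Finite (G ⧸ M) := inferInstance
  let i2 : Fintype (G ⧸ M) := Fintype.ofFinite _
  refine ⟨inferInstance, ?_⟩
  rw [Module.finrank_fintype_fun_eq_card, Subgroup.index, Nat.card_eq_fintype_card]

/-- right `M`-invariant functions are functions on `G ⧸ M`, of dimension `M.index`; with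
`M.index = (M.relIndex M₁) * M₁.index`, so `3 M₁.index ≤ M.index`, `3 M₂.index ≤ M.index` -/
theorem count_A {G : Type*} [Group G] (M M₁ M₂ : Subgroup G) (hM : M.index ≠ 0)
    (h9 : 9 ≤ M.index) (h1 : M ≤ M₁) (h2 : M ≤ M₂) (i1 : 3 ≤ M.relIndex M₁)
    (i2 : 3 ≤ M.relIndex M₂) {W : Type*} [AddCommGroup W] [Module ℝ W]
    (c : (G ⧸ M → ℝ) →ₗ[ℝ] W)
    (hc : ∀ φ, c φ = 0 → ∃ F₁ F₂ : G → ℝ, (∀ γ, ∀ k ∈ M₁, F₁ (γ * k) = F₁ γ) ∧
      (∀ γ, ∀ k ∈ M₂, F₂ (γ * k) = F₂ γ) ∧ ∀ γ : G, φ (γ : G ⧸ M) = F₁ γ - F₂ γ) :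
    ∃ v : Fin 3 → W, LinearIndependent ℝ v := by
  have e1 := Subgroup.relIndex_mul_index h1
  have e2 := Subgroup.relIndex_mul_index h2
  have n1 : M₁.index ≠ 0 := by
    intro h0
    rw [h0, mul_zero] at e1
    exact hM e1.symm
  have n2 : M₂.index ≠ 0 := by
    intro h0
    rw [h0, mul_zero] at e2
    exact hM e2.symm
  have u1 : 3 * M₁.index ≤ M.index := by
    rw [← e1]
    exact Nat.mul_le_mul_right _ i1
  have u2 : 3 * M₂.index ≤ M.index := by
    rw [← e2]
    exact Nat.mul_le_mul_right _ i2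
  obtain ⟨f0, d0⟩ := KJ_fin M hM
  obtain ⟨f1, d1⟩ := KJ_fin M₁ n1
  obtain ⟨f2, d2⟩ := KJ_fin M₂ n2
  let S : ((G ⧸ M₁ → ℝ) × (G ⧸ M₂ → ℝ)) →ₗ[ℝ] (G ⧸ M → ℝ) :=
    { toFun := fun p q => p.1 (Subgroup.quotientMapOfLE h1 q) - p.2 (Subgroup.quotientMapOfLE h2 q)
      map_add' := fun p p' => by
        funext q
        simp only [Prod.fst_add, Prod.snd_add, Pi.add_apply]
        ring
      map_smul' := fun r p => by
        funext q
        simp only [Prod.smul_fst, Prod.smul_snd, Pi.smul_apply, smul_eq_mul, RingHom.id_apply]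
        ring }
  refine three_of_ker S c ?_ ?_
  · intro φ hφ
    obtain ⟨F₁, F₂, hF1, hF2, hF⟩ := hc φ hφ
    refine ⟨(fun q => Quotient.liftOn' q F₁ ?_, fun q => Quotient.liftOn' q F₂ ?_), ?_⟩
    · intro a b hab
      rw [QuotientGroup.leftRel_apply] at hab
      have := hF1 a _ hab
      rw [← this]
      congr 1
      group
    · intro a b hab
      rw [QuotientGroup.leftRel_apply] at hab
      have := hF2 a _ hab
      rw [← this]
      congr 1
      group
    · funext q
      induction q using QuotientGroup.induction_on with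
      | H γ => exact (hF γ).symm
  · rw [Module.finrank_prod, d0, d1, d2]
    omega

/-- the second case: here the map `F ↦ (γ ↦ F γ - F (γ δ⁻¹))` need not land in right `M`-invariant
functions, so take as `U` the subspace of those `F` for which it does, or bound the dimension of the
kernel of `c` by that of the space of all such `F` -/
theorem count_B {G : Type*} [Group G] (M M₁ : Subgroup G) (hM : M.index ≠ 0)
    (h9 : 9 ≤ M.index) (h1 : M ≤ M₁) (i1 : 2 ≤ M.relIndex M₁) (δ : G)
    {W : Type*} [AddCommGroup W] [Module ℝ W] (c : (G ⧸ M → ℝ) →ₗ[ℝ] W)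
    (hc : ∀ φ, c φ = 0 → ∃ F : G → ℝ, (∀ γ, ∀ k ∈ M₁, F (γ * k) = F γ) ∧
      ∀ γ : G, φ (γ : G ⧸ M) = F γ - F (γ * δ)) :
    ∃ v : Fin 3 → W, LinearIndependent ℝ v := by
  have e1 := Subgroup.relIndex_mul_index h1
  have n1 : M₁.index ≠ 0 := by
    intro h0
    rw [h0, mul_zero] at e1
    exact hM e1.symm
  have u1 : 2 * M₁.index ≤ M.index := by
    rw [← e1]
    exact Nat.mul_le_mul_right _ i1
  obtain ⟨f0, d0⟩ := KJ_fin M hM
  obtain ⟨f1, d1⟩ := KJ_fin M₁ n1
  let L : (G ⧸ M → ℝ) →ₗ[ℝ] (G → ℝ) :=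
    { toFun := fun φ γ => φ (γ : G ⧸ M)
      map_add' := fun _ _ => rfl
      map_smul' := fun _ _ => rfl }
  let S : (G ⧸ M₁ → ℝ) →ₗ[ℝ] (G → ℝ) :=
    { toFun := fun f γ => f (γ : G ⧸ M₁) - f ((γ * δ : G) : G ⧸ M₁)
      map_add' := fun f f' => by
        funext q
        simp only [Pi.add_apply]
        ring
      map_smul' := fun r p => by
        funext q
        simp only [Pi.smul_apply, smul_eq_mul, RingHom.id_apply]
        ring }
  have hL : Function.Injective L := by
    intro φ ψ h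
    funext q
    induction q using QuotientGroup.induction_on with
    | H γ => exact congrFun h γ
  have hle : (LinearMap.ker c).map L ≤ LinearMap.range S := by
    rintro _ ⟨φ, hφ, rfl⟩
    obtain ⟨F, hF1, hF⟩ := hc φ hφ
    refine ⟨fun q => Quotient.liftOn' q F ?_, ?_⟩
    · intro a b hab
      rw [QuotientGroup.leftRel_apply] at hab
      have := hF1 a _ hab
      rw [← this]
      congr 1
      group
    · funext γ
      exact (hF γ).symm
  apply KJ_three c
  have h3 : Module.finrank ℝ ((LinearMap.ker c).map L) = Module.finrank ℝ (LinearMap.ker c) :=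
    (Submodule.equivMapOfInjective L hL (LinearMap.ker c)).symm.finrank_eq
  have h4 := Submodule.finrank_mono hle
  have h5 := LinearMap.finrank_range_le S
  rw [h3] at h4
  rw [d1] at h5
  rw [d0]
  omega

private theorem KJ_inj {G : Type*} [Group G] {H : Subgroup G} (hH : H.index ≠ 0) (n : ℕ)
    (f : Fin n → G) (hf : ∀ i j, i < j → (f i)⁻¹ * f j ∉ H) : n ≤ H.index := by
  have i0 : H.FiniteIndex := ⟨hH⟩
  have i1 : Finite (G ⧸ H) := inferInstance
  have hinj : Function.Injective fun i => (f i : G ⧸ H) := by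
    intro i j hij
    have h := QuotientGroup.eq.1 hij
    by_contra hne
    rcases lt_or_gt_of_ne hne with hl | hl
    · exact hf i j hl h
    · apply hf j i hl
      have := H.inv_mem h
      rw [mul_inv_rev, inv_inv] at this
      exact this
  have := Nat.card_le_card_of_injective _ hinj
  rw [Nat.card_eq_fintype_card, Fintype.card_fin] at this
  exact this

/-- three distinct cosets -/
theorem three_le_relIndex {G : Type*} [Group G] {M : Subgroup G} (hM : M.index ≠ 0) {a δ : G}
    (ha : a ∈ M) (h1 : δ ∉ M) (h2 : δ⁻¹ * a * δ ∉ M) :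
    3 ≤ M.relIndex (M ⊔ Subgroup.zpowers δ) := by
  set M₁ := M ⊔ Subgroup.zpowers δ with hM₁
  have hle : M ≤ M₁ := le_sup_left
  have hδ : δ ∈ M₁ := (le_sup_right : Subgroup.zpowers δ ≤ M₁) (Subgroup.mem_zpowers δ)
  have ha' : a ∈ M₁ := hle ha
  have hne : (M.subgroupOf M₁).index ≠ 0 := by
    intro h0
    have e1 := Subgroup.relIndex_mul_index hle
    rw [Subgroup.relIndex, h0, zero_mul] at e1
    exact hM e1.symm
  have h := KJ_inj hne 3 (![1, ⟨δ, hδ⟩, ⟨a, ha'⟩ * ⟨δ, hδ⟩] : Fin 3 → M₁) ?_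
  · exact h
  · intro i j hij
    rw [Subgroup.mem_subgroupOf]
    fin_cases i <;> fin_cases j <;> simp at hij ⊢
    · exact h1
    · intro hh
      apply h1
      have := M.mul_mem (M.inv_mem ha) hh
      rwa [inv_mul_cancel_left] at this
    · rw [← mul_assoc]
      exact h2

theorem two_le_relIndex {G : Type*} [Group G] {M : Subgroup G} (hM : M.index ≠ 0) {k : G}
    (h1 : k ∉ M) : 2 ≤ M.relIndex (M ⊔ Subgroup.zpowers k) := by
  set M₁ := M ⊔ Subgroup.zpowers k with hM₁
  have hle : M ≤ M₁ := le_sup_left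
  have hk : k ∈ M₁ := (le_sup_right : Subgroup.zpowers k ≤ M₁) (Subgroup.mem_zpowers k)
  have hne : (M.subgroupOf M₁).index ≠ 0 := by
    intro h0
    have e1 := Subgroup.relIndex_mul_index hle
    rw [Subgroup.relIndex, h0, zero_mul] at e1
    exact hM e1.symm
  have h := KJ_inj hne 2 (![1, ⟨k, hk⟩] : Fin 2 → M₁) ?_
  · exact h
  · intro i j hij
    rw [Subgroup.mem_subgroupOf]
    fin_cases i <;> fin_cases j <;> simp at hij ⊢
    exact h1

/-- nine distinct cosets `δ⁻¹ a^k δ M`, `k = 0, …, 8` -/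
theorem nine_le_index {G : Type*} [Group G] {M : Subgroup G} (hM : M.index ≠ 0) {a δ : G}
    (h : ∀ k : ℕ, 1 ≤ k → k ≤ 8 → δ⁻¹ * a ^ k * δ ∉ M) : 9 ≤ M.index := by
  refine KJ_inj hM 9 (fun i => δ⁻¹ * a ^ (i : ℕ) * δ) ?_
  intro i j hij
  have hij' : (i : ℕ) < (j : ℕ) := hij
  have e : (δ⁻¹ * a ^ (i : ℕ) * δ)⁻¹ * (δ⁻¹ * a ^ (j : ℕ) * δ) =
      δ⁻¹ * a ^ ((j : ℕ) - (i : ℕ)) * δ := by
    have h3 : a ^ (j : ℕ) = a ^ (i : ℕ) * a ^ ((j : ℕ) - (i : ℕ)) := by
      rw [← pow_add]
      congr 1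
      omega
    rw [h3]
    group
  rw [e]
  exact h _ (by omega) (by omega)

end

end Pool.Agent.Lib.MP_b16327_pr
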