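import Pool.Agent.Lib.MP_b16327_pr.KG
import Pool.Agent.Lib.MP_b16327_pr.KI
import Pool.Agent.Lib.MP_b16327_pr.KJ
import Pool.Agent.Lib.MP_b16327_pr.RedA

/-! # A subgroup of finite index with three independent homomorphisms -/

namespace Pool.Agent.Lib.MP_b16327_pr

open Complex MeasureTheory ComplexConjugate Filter
open scoped Complex.UnitDisc Topology

noncomputable section

theorem Sg_values (g : SU11) (z : 𝔻) : Sg g z = 1 ∨ Sg g z = 0 := by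
  unfold Sg
  split_ifs
  · exact Or.inl rfl
  · exact Or.inr rfl

/-- powers of the hyperbolic element act as translations -/
theorem HypD.pow_eq {Γ : Subgroup SU11} (H : HypD Γ) (k : ℕ) (z : 𝔻) :
    ((H.a : SU11) ^ k) • z = (H.g * At (k * H.T) * H.g⁻¹) • z := by
  induction k with
  | zero => simp [At_zero]
  | succ k ih =>
    rw [pow_succ', mul_smul, ih, H.eq, ← mul_smul]
    congr 1
    have h1 : At (((k + 1 : ℕ) : ℝ) * H.T) = At H.T * At ((k : ℝ) * H.T) := by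
      rw [← At_add]
      congr 1
      push_cast
      ring
    rw [h1]
    group

theorem HypD.mem_Dg {Γ : Subgroup SU11} (H : HypD Γ) : (H.a : SU11) ∈ Dg H.g :=
  mem_Dg_of_eq H.eq

/-- a conjugate of a non-trivial power of `a` by an element outside `Dg g` is outside `Dg g` -/
theorem conj_pow_not_mem {Γ : Subgroup SU11} (H : HypD Γ) (hNC : NC Γ H.g) {δ : SU11} (hδ : δ ∈ Γ)
    (hδ' : δ ∉ Dg H.g) {k : ℕ} (hk : 1 ≤ k) : δ⁻¹ * (H.a : SU11) ^ k * δ ∉ Dg H.g := by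
  intro h
  have hk' : (0 : ℝ) < k := by exact_mod_cast hk
  have ht : (k : ℝ) * H.T ≠ 0 := (mul_pos hk' H.T_pos).ne'
  rcases conj_mem_Dg ht (H.pow_eq k) h with h1 | h1
  · exact hδ' h1
  · apply hNC δ hδ hδ' (H.g • (0 : 𝔻)) (yg_base H.g)
    unfold yg
    rw [← mul_smul, ← mul_smul]
    set p : SU11 := H.g⁻¹ * (δ * H.g) with hp
    have e : H.g⁻¹ * δ * H.g = p := by rw [hp, mul_assoc]
    rw [e] at h1
    have h2 : (((p • (0 : 𝔻) : 𝔻)) : ℂ) = p.b / conj p.a := by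
      rw [coe_smul]
      simp [SU11.mob, SU11.den]
    have h3 : p.b = (p.b.im : ℂ) * I := by
      apply Complex.ext
      · simp [h1.2]
      · simp
    have h4 : conj p.a = -((p.a.im : ℂ) * I) := by
      apply Complex.ext
      · simp [h1.1]
      · simp
    have h5 : (((p • (0 : 𝔻) : 𝔻)) : ℂ) = ((-(p.b.im / p.a.im) : ℝ) : ℂ) := by
      rw [h2, h3, h4]
      have ha : (p.a.im : ℂ) ≠ 0 := by
        intro h0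
        apply p.a_ne_zero
        apply Complex.ext
        · simp [h1.1]
        · have : p.a.im = 0 := by exact_mod_cast h0
          simp [this]
      have hI : (I : ℂ) ≠ 0 := I_ne_zero
      push_cast
      simp only [Complex.mul_im, Complex.I_re, Complex.I_im, mul_zero, mul_one, Complex.ofReal_re,
        Complex.ofReal_im, add_zero]
      field_simp
    unfold yc
    have hlt : ‖(((p • (0 : 𝔻) : 𝔻)) : ℂ)‖ < 1 := UnitDisc.norm_lt_one _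
    rw [e]
    rw [h5] at hlt ⊢
    set t : ℝ := -(p.b.im / p.a.im)
    rw [Complex.norm_real, Real.norm_eq_abs, abs_lt] at hlt
    have h6 : (1 + (t : ℂ)) / (1 - (t : ℂ)) = (((1 + t) / (1 - t) : ℝ) : ℂ) := by
      push_cast
      rfl
    rw [h6]
    exact Complex.arg_ofReal_of_nonneg (div_nonneg (by linarith [hlt.1]) (by linarith [hlt.2]))

/-- the finite set to be avoided -/
def avoid (a δ₁ δ₂ : SU11) : Finset SU11 :=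
  open Classical in
  {δ₁, δ₂, δ₂⁻¹ * a ^ 1 * δ₂, δ₁⁻¹⁻¹ * a ^ 1 * δ₁⁻¹} ∪
    (Finset.range 8).image (fun k => δ₁⁻¹ * a ^ (k + 1) * δ₁)

theorem ker_caseA' {Γ : Subgroup SU11} (hd : IsDisc Γ) (H : HypD Γ) (hNC : NC Γ H.g)
    {N : Subgroup Γ} (hN : N.Normal) {M : Subgroup Γ} (hM : M = N ⊔ Lam Γ H.g)
    {zp : 𝔻} (hpos : 0 < yg H.g zp)
    (hzp : ∀ δ ∈ Γ, δ ∉ Dg H.g → Sg H.g (δ⁻¹ • zp) = Sg H.g (δ⁻¹ • (H.g • (0 : 𝔻))))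
    {δ₁ δ₂ : Γ} (h1 : Eqv Γ H.g ((δ₁ : SU11) • zp) zp)
    (h2 : Eqv Γ H.g ((δ₂ : SU11) • (H.g • (0 : 𝔻))) (H.g • (0 : 𝔻)))
    (φ : Γ ⧸ M → ℝ)
    (h0 : ∀ n ∈ N, fphi H.g M φ ((n : SU11) • (H.g • (0 : 𝔻))) = 0) :
    ∃ F₁ F₂ : Γ → ℝ,
      (∀ γ, ∀ m ∈ M ⊔ Subgroup.zpowers δ₁, F₁ (γ * m) = F₁ γ) ∧
      (∀ γ, ∀ m ∈ M ⊔ Subgroup.zpowers δ₂, F₂ (γ * m) = F₂ γ) ∧
      ∀ γ : Γ, φ (γ : Γ ⧸ M) = F₁ γ - F₂ γ := by
  subst hM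
  exact ker_caseA hd H hNC hN hpos hzp h1 h2 φ h0

theorem ker_caseB' {Γ : Subgroup SU11} (hd : IsDisc Γ) (H : HypD Γ) (hNC : NC Γ H.g)
    {N : Subgroup Γ} (hN : N.Normal) {M : Subgroup Γ} (hM : M = N ⊔ Lam Γ H.g)
    {zp : 𝔻} (hpos : 0 < yg H.g zp)
    (hzp : ∀ δ ∈ Γ, δ ∉ Dg H.g → Sg H.g (δ⁻¹ • zp) = Sg H.g (δ⁻¹ • (H.g • (0 : 𝔻))))
    {δ l : Γ} (h1 : Eqv Γ H.g ((δ : SU11) • (H.g • (0 : 𝔻))) zp) (hl : l ∈ Lam Γ H.g)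
    (φ : Γ ⧸ M → ℝ)
    (h0 : ∀ n ∈ N, fphi H.g M φ ((n : SU11) • (H.g • (0 : 𝔻))) = 0) :
    ∃ F : Γ → ℝ,
      (∀ γ, ∀ m ∈ M ⊔ Subgroup.zpowers (δ * l * δ⁻¹), F (γ * m) = F γ) ∧
      ∀ γ : Γ, φ (γ : Γ ⧸ M) = F γ - F (γ * δ⁻¹) := by
  subst hM
  exact ker_caseB hd H hNC hN hpos hzp h1 hl φ h0

/-- adjacent elements on both sides, with the two relations -/
theorem exists_pair {Γ : Subgroup SU11} (hd : IsDisc Γ) (hc : IsCocpt Γ) (H : HypD Γ)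
    (hNC : NC Γ H.g) {zp : 𝔻} (hpos : 0 < yg H.g zp)
    (hzp : ∀ δ ∈ Γ, δ ∉ Dg H.g → Sg H.g (δ⁻¹ • zp) = Sg H.g (δ⁻¹ • (H.g • (0 : 𝔻)))) :
    ∃ δ₁ δ₂ : SU11, δ₁ ∈ Γ ∧ δ₁ ∉ Dg H.g ∧ δ₂ ∈ Γ ∧ δ₂ ∉ Dg H.g ∧
      (Eqv Γ H.g (δ₁ • zp) zp ∨ Eqv Γ H.g (δ₁ • (H.g • (0 : 𝔻))) zp) ∧
      (Eqv Γ H.g (δ₂ • (H.g • (0 : 𝔻))) (H.g • (0 : 𝔻)) ∨
        Eqv Γ H.g (δ₂⁻¹ • (H.g • (0 : 𝔻))) zp) := by
  have hnd : ∀ δ : SU11, yg H.g (δ • (H.g • (0 : 𝔻))) ≠ 0 → δ ∉ Dg H.g := by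
    intro δ h1 h2
    apply h1
    rw [yg_smul_of_mem h2, yg_base]
  obtain ⟨⟨δp, hδp, hδp1⟩, ⟨δm, hδm, hδm1⟩⟩ := exists_sides hc H.g
  obtain ⟨δ₁, hδ₁, hδ₁', hs₁, hadj₁⟩ := exists_adj hd H hNC hδp (hnd _ hδp1.ne')
  obtain ⟨δ₂, hδ₂, hδ₂', hs₂, hadj₂⟩ := exists_adj hd H hNC hδm (hnd _ hδm1.ne)
  have hs₁' : Sg H.g (δ₁ • (H.g • (0 : 𝔻))) = 1 := by
    rw [hs₁]
    unfold Sg
    rw [if_pos hδp1]
  have hs₂' : Sg H.g (δ₂ • (H.g • (0 : 𝔻))) = 0 := by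
    rw [hs₂]
    unfold Sg
    rw [if_neg (not_lt.2 hδm1.le)]
  have hs₂'' : ¬ Sg H.g (δ₂ • (H.g • (0 : 𝔻))) = 1 := by
    rw [hs₂']
    exact zero_ne_one
  have E₁ := eqv_adj hpos hzp hδ₁ hδ₁' hadj₁
  have E₂ := eqv_adj hpos hzp hδ₂ hδ₂' hadj₂
  rw [if_pos hs₁'] at E₁
  rw [if_neg hs₂''] at E₂
  refine ⟨δ₁, δ₂, hδ₁, hδ₁', hδ₂, hδ₂', ?_, ?_⟩
  · by_cases e : Sg H.g (δ₁⁻¹ • (H.g • (0 : 𝔻))) = 1
    · rw [if_pos e] at E₁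
      exact Or.inl E₁
    · rw [if_neg e] at E₁
      exact Or.inr E₁
  · by_cases e : Sg H.g (δ₂⁻¹ • (H.g • (0 : 𝔻))) = 1
    · rw [if_pos e] at E₂
      right
      have h1 := (E₂.smul (inv_mem hδ₂)).symm
      rw [inv_smul_smul] at h1
      exact h1
    · rw [if_neg e] at E₂
      exact Or.inl E₂

theorem avoid_spec {Γ : Subgroup SU11} (H : HypD Γ) (hNC : NC Γ H.g) {δ₁ δ₂ : SU11}
    (hδ₁ : δ₁ ∈ Γ) (hδ₁' : δ₁ ∉ Dg H.g) (hδ₂ : δ₂ ∈ Γ) (hδ₂' : δ₂ ∉ Dg H.g) :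
    ∀ δ ∈ avoid H.a δ₁ δ₂, δ ∈ Γ ∧ δ ∉ Dg H.g := by
  have hainv : ∀ δ : SU11, δ ∉ Dg H.g → δ⁻¹ ∉ Dg H.g :=
    fun δ h1 h2 => h1 (by simpa using inv_mem h2)
  have ha' : (H.a : SU11) ∈ Γ := H.a.2
  intro δ hδ
  unfold avoid at hδ
  simp only [Finset.mem_union, Finset.mem_insert, Finset.mem_singleton, Finset.mem_image,
    Finset.mem_range] at hδ
  rcases hδ with (rfl | rfl | rfl | rfl) | ⟨k, hk, rfl⟩
  · exact ⟨hδ₁, hδ₁'⟩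
  · exact ⟨hδ₂, hδ₂'⟩
  · exact ⟨mul_mem (mul_mem (inv_mem hδ₂) (pow_mem ha' 1)) hδ₂,
      conj_pow_not_mem H hNC hδ₂ hδ₂' le_rfl⟩
  · exact ⟨mul_mem (mul_mem (inv_mem (inv_mem hδ₁)) (pow_mem ha' 1)) (inv_mem hδ₁),
      conj_pow_not_mem H hNC (inv_mem hδ₁) (hainv _ hδ₁') le_rfl⟩
  · exact ⟨mul_mem (mul_mem (inv_mem hδ₁) (pow_mem ha' _)) hδ₁,
      conj_pow_not_mem H hNC hδ₁ hδ₁' (by omega)⟩

/-- the final count inside `Γ` satisfying `NC` -/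
theorem three_of_avoid {Γ : Subgroup SU11} (hd : IsDisc Γ) (H : HypD Γ)
    (hNC : NC Γ H.g) {zp : 𝔻} (hpos : 0 < yg H.g zp)
    (hzp : ∀ δ ∈ Γ, δ ∉ Dg H.g → Sg H.g (δ⁻¹ • zp) = Sg H.g (δ⁻¹ • (H.g • (0 : 𝔻))))
    {δ₁ δ₂ : SU11} (hδ₁ : δ₁ ∈ Γ) (hδ₂ : δ₂ ∈ Γ)
    (E₁ : Eqv Γ H.g (δ₁ • zp) zp ∨ Eqv Γ H.g (δ₁ • (H.g • (0 : 𝔻))) zp)
    (E₂ : Eqv Γ H.g (δ₂ • (H.g • (0 : 𝔻))) (H.g • (0 : 𝔻)) ∨
        Eqv Γ H.g (δ₂⁻¹ • (H.g • (0 : 𝔻))) zp)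
    {N : Subgroup SU11} (hle : N ≤ Γ) (hN : (N.subgroupOf Γ).Normal) (hNfin : N.relIndex Γ ≠ 0)
    {M : Subgroup Γ} (hM : M = N.subgroupOf Γ ⊔ Lam Γ H.g)
    (hav : ∀ δ : Γ, (δ : SU11) ∈ avoid H.a δ₁ δ₂ → δ ∉ M) :
    ∃ v : Fin 3 → HomR N, LinearIndependent ℝ v := by
  have hNM : N.subgroupOf Γ ≤ M := hM ▸ le_sup_left
  have hLM : Lam Γ H.g ≤ M := hM ▸ le_sup_right
  have hMi : M.index ≠ 0 := by
    intro h0
    apply hNfin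
    have h1 : M.index ∣ (N.subgroupOf Γ).index := Subgroup.index_dvd_of_le hNM
    rw [h0, zero_dvd_iff] at h1
    exact h1
  obtain ⟨c, hcphi⟩ := exists_cphi hd H M hLM hle hN hNM
  have hzero : ∀ φ, c φ = 0 → ∀ n ∈ N.subgroupOf Γ,
      fphi H.g M φ ((n : SU11) • (H.g • (0 : 𝔻))) = 0 := by
    intro φ hφ n hn
    have h1 := hcphi φ ⟨(n : SU11), Subgroup.mem_subgroupOf.1 hn⟩
    rw [hφ] at h1
    rw [← h1]
    rfl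
  have haM : H.a ∈ M := by
    apply hLM
    rw [Subgroup.mem_subgroupOf]
    exact H.mem_Dg
  have h9 : 9 ≤ M.index := by
    refine nine_le_index hMi (a := H.a) (δ := ⟨δ₁, hδ₁⟩) ?_
    intro k hk1 hk8
    apply hav
    unfold avoid
    simp only [Finset.mem_union, Finset.mem_image, Finset.mem_range]
    right
    refine ⟨k - 1, by omega, ?_⟩
    rw [Nat.sub_add_cancel hk1]
    rfl
  -- case B for a pair
  have caseB : ∀ δ : Γ, Eqv Γ H.g ((δ : SU11) • (H.g • (0 : 𝔻))) zp →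
      (δ * H.a ^ 1 * δ⁻¹) ∉ M → ∃ v : Fin 3 → HomR N, LinearIndependent ℝ v := by
    intro δ hδE hδM
    refine count_B M (M ⊔ Subgroup.zpowers (δ * H.a ^ 1 * δ⁻¹)) hMi h9 le_sup_left
      (two_le_relIndex hMi hδM) δ⁻¹ c ?_
    intro φ hφ
    exact ker_caseB' hd H hNC hN hM hpos hzp hδE
      (l := H.a ^ 1) (pow_mem (Subgroup.mem_subgroupOf.2 H.mem_Dg) 1) φ (hzero φ hφ)
  rcases E₁ with E₁ | E₁
  · rcases E₂ with E₂ | E₂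
    · -- case A
      have m1 : (⟨δ₁, hδ₁⟩ : Γ) ∉ M := by
        apply hav
        unfold avoid
        simp
      have m2 : (⟨δ₂, hδ₂⟩ : Γ) ∉ M := by
        apply hav
        unfold avoid
        simp
      have m3 : (⟨δ₁, hδ₁⟩ : Γ)⁻¹ * H.a * (⟨δ₁, hδ₁⟩ : Γ) ∉ M := by
        apply hav
        unfold avoid
        simp only [Finset.mem_union, Finset.mem_image, Finset.mem_range]
        right
        refine ⟨0, by norm_num, ?_⟩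
        rw [zero_add, pow_one]
        rfl
      have m4 : (⟨δ₂, hδ₂⟩ : Γ)⁻¹ * H.a * (⟨δ₂, hδ₂⟩ : Γ) ∉ M := by
        apply hav
        unfold avoid
        simp only [Finset.mem_union, Finset.mem_insert]
        left; right; right; left
        rw [pow_one]
        rfl
      refine count_A M (M ⊔ Subgroup.zpowers ⟨δ₁, hδ₁⟩) (M ⊔ Subgroup.zpowers ⟨δ₂, hδ₂⟩) hMi h9
        le_sup_left le_sup_left (three_le_relIndex hMi haM m1 m3)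
        (three_le_relIndex hMi haM m2 m4) c ?_
      intro φ hφ
      exact ker_caseA' hd H hNC hN hM hpos hzp (δ₁ := ⟨δ₁, hδ₁⟩) (δ₂ := ⟨δ₂, hδ₂⟩) E₁ E₂ φ
        (hzero φ hφ)
    · -- `δ₂⁻¹ o ∼ zp`
      refine caseB (⟨δ₂, hδ₂⟩ : Γ)⁻¹ E₂ ?_
      apply hav
      unfold avoid
      simp only [Finset.mem_union, Finset.mem_insert]
      left; right; right; left
      simp
  · refine caseB ⟨δ₁, hδ₁⟩ E₁ ?_
    apply hav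
    unfold avoid
    simp

theorem exists_three {Γ : Subgroup SU11} (hd : IsDisc Γ) (hc : IsCocpt Γ)
    (hfg : ∃ T : Finset SU11, Γ = Subgroup.closure (T : Set SU11)) :
    ∃ Γ₁ : Subgroup SU11, Γ₁ ≤ Γ ∧ Γ₁.relIndex Γ ≠ 0 ∧
      ∃ v : Fin 3 → HomR Γ₁, LinearIndependent ℝ v := by
  obtain ⟨H₀⟩ := exists_hyperbolic hd hc
  obtain ⟨Γ', hle, -, hfin, hNC⟩ := exists_NC hd hfg H₀
  obtain ⟨H, hg⟩ := H₀.exists_sub hle hfin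
  rw [← hg] at hNC
  have hd' := disc_of_le hle hd
  obtain ⟨m, r, hT⟩ := exists_trans hle hfin
  have hc' := cocpt_of_trans hT hc
  obtain ⟨zp, hpos, hzp⟩ := exists_zp hd' H hNC
  obtain ⟨δ₁, δ₂, hδ₁, hδ₁', hδ₂, hδ₂', E₁, E₂⟩ := exists_pair hd' hc' H hNC hpos hzp
  have hF := avoid_spec H hNC hδ₁ hδ₁' hδ₂ hδ₂'
  obtain ⟨N₀, hN₀, hN₀n, hN₀f, hsep⟩ := separation hfg H.g (avoid H.a δ₁ δ₂)
    (fun δ hδ => ⟨hle (hF δ hδ).1, (hF δ hδ).2⟩)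
  have hNle : N₀ ⊓ Γ' ≤ Γ' := inf_le_right
  have hNfin : (N₀ ⊓ Γ').relIndex Γ ≠ 0 := Subgroup.relIndex_inf_ne_zero hN₀f hfin
  have hNfin' : (N₀ ⊓ Γ').relIndex Γ' ≠ 0 := by
    intro h0
    apply hNfin
    rw [← Subgroup.relIndex_mul_relIndex (N₀ ⊓ Γ') Γ' Γ hNle hle, h0, zero_mul]
  have hNn : ((N₀ ⊓ Γ').subgroupOf Γ').Normal := by
    constructor
    intro n hn γ
    rw [Subgroup.mem_subgroupOf] at hn ⊢
    exact ⟨hN₀n γ (hle γ.2) n hn.1, (γ * n * γ⁻¹).2⟩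
  refine ⟨N₀ ⊓ Γ', hNle.trans hle, hNfin, ?_⟩
  refine three_of_avoid hd' H hNC hpos hzp hδ₁ hδ₂ E₁ E₂ hNle hNn hNfin' rfl ?_
  intro δ hδ hδM
  rw [← SetLike.mem_coe, Subgroup.normal_mul, Set.mem_mul] at hδM
  obtain ⟨n, hn, l, hl, rfl⟩ := hδM
  rw [SetLike.mem_coe, Subgroup.mem_subgroupOf] at hn hl
  exact hsep _ hδ n hn.1 l hl (hle l.2) rfl

end

end Pool.Agent.Lib.MP_b16327_pr
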