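import Pool.Agent.Lib.MP_b16327_pr.GeoC

/-! # Coarse Lipschitz functions -/

namespace Pool.Agent.Lib.MP_b16327_pr

open Complex MeasureTheory ComplexConjugate Filter
open scoped Complex.UnitDisc Topology BoundedContinuousFunction

noncomputable section

/-- coarse Lipschitz functions -/
def CLip (u : 𝔻 → ℂ) : Prop := ∃ C : ℝ, 0 ≤ C ∧ ∀ z w : 𝔻, ‖u z - u w‖ ≤ C * (1 + dL z w)

private theorem lip_tanh {s : ℝ} (h1 : s ≤ 1) : Real.tanh (s / 2) ≤ 1 / 2 := by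
  have h2 : Real.exp s < 3 := (Real.exp_le_exp.2 h1).trans_lt (Real.exp_one_lt_d9.trans (by norm_num))
  rw [Real.tanh_eq_sinh_div_cosh, Real.sinh_eq, Real.cosh_eq, div_div_div_cancel_right₀ two_ne_zero,
    div_le_iff₀ (by positivity)]
  have h3 : Real.exp s = Real.exp (s / 2) * Real.exp (s / 2) := by
    rw [← Real.exp_add]; congr 1; ring
  have h4 : Real.exp (s / 2) * Real.exp (-(s / 2)) = 1 := by
    rw [← Real.exp_add, add_neg_cancel, Real.exp_zero]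
  have h5 := Real.exp_pos (s / 2)
  have h6 := Real.exp_pos (-(s / 2))
  have h7 : Real.exp (s / 2) * (Real.exp (s / 2) * Real.exp (s / 2)) <
    Real.exp (s / 2) * 3 := by
    rw [← h3]; exact mul_lt_mul_of_pos_left h2 h5
  nlinarith [mul_lt_mul_of_pos_right (h3 ▸ h2) h6]

private theorem lip_rot_zero (ξ : Circle) : ξ • (0 : 𝔻) = 0 := by
  apply UnitDisc.coe_injective
  simp

private theorem lip_chain (u : 𝔻 → ℂ) {C : ℝ} (g : SU11) {s : ℝ} (h0 : 0 ≤ s) (h1 : s ≤ 1)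
    (h : ∀ z w : 𝔻, pd z w ≤ 1 / 2 → ‖u z - u w‖ ≤ C) (j : ℕ) :
    ‖u (g • (0 : 𝔻)) - u (g • (At (j * s) • (0 : 𝔻)))‖ ≤ j * C := by
  induction j with
  | zero =>
    simp [At_zero]
  | succ j ih =>
    have e1 : At (((j + 1 : ℕ) : ℝ) * s) • (0 : 𝔻) = At (j * s) • (At s • (0 : 𝔻)) := by
      rw [← mul_smul, ← At_add]
      congr 2
      push_cast
      ring
    have e2 : pd (g • (At (j * s) • (0 : 𝔻))) (g • (At (((j + 1 : ℕ) : ℝ) * s) • (0 : 𝔻))) ≤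
        1 / 2 := by
      rw [pd_smul, e1, pd_smul, pd_zero_left, At_smul_zero, Complex.norm_real, Real.norm_eq_abs,
        abs_of_nonneg]
      · exact lip_tanh h1
      · rw [Real.tanh_eq_sinh_div_cosh]
        exact div_nonneg (Real.sinh_nonneg_iff.2 (by linarith)) (Real.cosh_pos _).le
    have h3 := h _ _ e2
    have h4 := norm_sub_le_norm_sub_add_norm_sub (u (g • (0 : 𝔻)))
      (u (g • (At (j * s) • (0 : 𝔻)))) (u (g • (At (((j + 1 : ℕ) : ℝ) * s) • (0 : 𝔻))))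
    push_cast at *
    linarith

/-- chaining.  Write `(tr z)⁻¹ • w = ξ • (At t • 0)` (`exists_polar`), `n = ⌈t⌉₊`, and use the
points `tr z • (ξ • (At (j t/n) • 0))`, `j = 0, …, n`; consecutive ones have
`pd = tanh (t/(2n)) ≤ tanh (1/2) ≤ 1/2`. -/
theorem CLip_of_local {u : 𝔻 → ℂ} {C : ℝ} (h : ∀ z w : 𝔻, pd z w ≤ 1 / 2 → ‖u z - u w‖ ≤ C) :
    CLip u := by
  have hC : 0 ≤ C := by
    have := h 0 0 (by rw [pd_zero_left]; simp)
    rwa [sub_self, norm_zero] at this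
  have hlog : 0 ≤ Real.log 4 := Real.log_nonneg (by norm_num)
  refine ⟨C * (Real.log 4 + 2), by positivity, ?_⟩
  intro z w
  obtain ⟨ξ, t, ht0, hw, ht⟩ := exists_polar ((tr z)⁻¹ • w)
  have hd : dL ((tr z)⁻¹ • w) 0 = dL z w := by
    rw [← dL_smul (tr z), smul_inv_smul, tr_smul_zero, dL_comm]
  rw [hd] at ht
  obtain ⟨n, hn⟩ : ∃ n : ℕ, n = ⌈t⌉₊ + 1 := ⟨_, rfl⟩
  have hn1 : t ≤ n := by
    rw [hn]; push_cast
    linarith [Nat.le_ceil t]
  have hn2 : (n : ℝ) ≤ t + 2 := by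
    rw [hn]; push_cast
    linarith [Nat.ceil_lt_add_one ht0]
  have hn0 : (0 : ℝ) < n := by rw [hn]; positivity
  have h1 := lip_chain u (tr z * rotG ξ) (s := t / n) (by positivity)
    ((div_le_one hn0).2 hn1) h n
  have e1 : (n : ℝ) * (t / n) = t := by field_simp
  have e2 : (tr z * rotG ξ) • (0 : 𝔻) = z := by
    rw [mul_smul, rotG_smul, lip_rot_zero, tr_smul_zero]
  have e3 : (tr z * rotG ξ) • (At t • (0 : 𝔻)) = w := by
    rw [mul_smul, rotG_smul, ← hw, smul_inv_smul]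
  rw [e1, e2, e3] at h1
  have h2 := dL_nonneg z w
  refine h1.trans ?_
  have h3 : (n : ℝ) ≤ (Real.log 4 + 2) * (1 + dL z w) := by nlinarith
  calc (n : ℝ) * C ≤ ((Real.log 4 + 2) * (1 + dL z w)) * C := mul_le_mul_of_nonneg_right h3 hC
    _ = C * (Real.log 4 + 2) * (1 + dL z w) := by ring

private theorem lip_bdd {u : 𝔻 → ℂ} (hu : Continuous u) {r : ℝ} (hr : r < 1) :
    ∃ B : ℝ, ∀ z : 𝔻, ‖(z : ℂ)‖ ≤ r → ‖u z‖ ≤ B := by
  obtain ⟨B, hB⟩ := (isCompact_closedBallD hr).exists_bound_of_continuousOn hu.continuousOn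
  exact ⟨B, fun z hz => hB z hz⟩

/-- continuous functions whose increments are invariant under a cocompact group -/
theorem CLip_of_invariant {Γ : Subgroup SU11} (hc : IsCocpt Γ) {u : 𝔻 → ℂ} (hu : Continuous u)
    (h : ∀ g ∈ Γ, ∀ z w : 𝔻, ‖u (g • z) - u (g • w)‖ = ‖u z - u w‖) : CLip u := by
  obtain ⟨r, hr, hc⟩ := hc
  obtain ⟨r', hr', h1⟩ := norm_le_of_pd_lt hr (show (3 / 4 : ℝ) < 1 by norm_num)
  obtain ⟨B, hB⟩ := lip_bdd hu (max_lt hr hr')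
  refine CLip_of_local (C := B + B) ?_
  intro z w hzw
  obtain ⟨g, hg, hz⟩ := hc z
  rw [← h g hg z w]
  refine (norm_sub_le _ _).trans (add_le_add (hB _ (hz.trans (le_max_left _ _))) (hB _ ?_))
  refine (h1 (g • z) (g • w) hz ?_).trans (le_max_right _ _)
  rw [pd_smul]
  exact hzw.trans_lt (by norm_num)

/-- a continuous function with `Γ`-invariant modulus is bounded -/
theorem bounded_of_invariant {Γ : Subgroup SU11} (hc : IsCocpt Γ) {u : 𝔻 → ℂ} (hu : Continuous u)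
    (h : ∀ g ∈ Γ, ∀ z : 𝔻, ‖u (g • z)‖ = ‖u z‖) : ∃ C : ℝ, ∀ z, ‖u z‖ ≤ C := by
  obtain ⟨r, hr, hc⟩ := hc
  obtain ⟨B, hB⟩ := lip_bdd hu hr
  refine ⟨B, fun z => ?_⟩
  obtain ⟨g, hg, hz⟩ := hc z
  rw [← h g hg z]
  exact hB _ hz

/-- the maximum of the modulus is attained -/
theorem exists_max_of_invariant {Γ : Subgroup SU11} (hc : IsCocpt Γ) {u : 𝔻 → ℂ}
    (hu : Continuous u) (h : ∀ g ∈ Γ, ∀ z : 𝔻, ‖u (g • z)‖ = ‖u z‖) :
    ∃ z₀ : 𝔻, ∀ z, ‖u z‖ ≤ ‖u z₀‖ := by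
  obtain ⟨r, hr, hc⟩ := hc
  have hne : {z : 𝔻 | ‖(z : ℂ)‖ ≤ r}.Nonempty := by
    obtain ⟨g, -, hg⟩ := hc 0
    exact ⟨_, hg⟩
  obtain ⟨z₀, -, hz₀⟩ := (isCompact_closedBallD hr).exists_isMaxOn hne hu.norm.continuousOn
  refine ⟨z₀, fun z => ?_⟩
  obtain ⟨g, hg, hz⟩ := hc z
  rw [← h g hg z]
  exact hz₀ hz

end

end Pool.Agent.Lib.MP_b16327_pr
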