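import Pool.Agent.Lib.MP_b16327_pr.Lip
import Pool.Agent.Lib.MP_b16327_pr.AvA

/-! # Homomorphisms, discreteness, partition of unity -/

namespace Pool.Agent.Lib.MP_b16327_pr

open Complex MeasureTheory ComplexConjugate Filter
open scoped Complex.UnitDisc Topology BoundedContinuousFunction

noncomputable section

/-- real and complex homomorphisms of a group -/
abbrev HomR (Γ : Subgroup SU11) : Type := Additive Γ →+ ℝ
/-- complex homomorphisms -/
abbrev HomC (Γ : Subgroup SU11) : Type := Additive Γ →+ ℂ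

/-- evaluation -/
def ev {Γ : Subgroup SU11} (x : HomR Γ) (γ : Γ) : ℝ := x (Additive.ofMul γ)
/-- evaluation -/
def evC {Γ : Subgroup SU11} (x : HomC Γ) (γ : Γ) : ℂ := x (Additive.ofMul γ)

theorem countable_of_disc {Γ : Subgroup SU11} (hd : IsDisc Γ) : Countable Γ := by
  have h1 : (⋃ n : ℕ, {g : SU11 | g ∈ Γ ∧ ‖g.a‖ ≤ (n : ℝ)}).Countable :=
    Set.countable_iUnion fun n => (hd n).countable
  have h2 : (Γ : Set SU11).Countable := by
    refine h1.mono fun g hg => ?_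
    obtain ⟨n, hn⟩ := exists_nat_ge ‖g.a‖
    exact Set.mem_iUnion.2 ⟨n, hg, hn⟩
  exact h2.to_subtype

/-- only finitely many elements of `Γ` move a point of `‖z‖ ≤ r` into `‖z‖ ≤ r` -/
theorem finite_meet {Γ : Subgroup SU11} (hd : IsDisc Γ) {r : ℝ} (hr : r < 1) :
    {γ : Γ | ∃ z : 𝔻, ‖(z : ℂ)‖ ≤ r ∧ ‖(((γ : SU11) • z : 𝔻) : ℂ)‖ ≤ r}.Finite := by
  have key : ∀ z : 𝔻, ‖(z : ℂ)‖ ≤ r → dL z 0 ≤ -Real.log (1 - r ^ 2) := by
    intro z hz
    rw [dL_zero]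
    have h0 := norm_nonneg (z : ℂ)
    have h1 : ‖(z : ℂ)‖ ^ 2 ≤ r ^ 2 := by gcongr
    have h2 : r ^ 2 < 1 := by
      have : 0 ≤ r := h0.trans hz
      nlinarith
    have h3 : Real.log (1 - r ^ 2) ≤ Real.log (1 - ‖(z : ℂ)‖ ^ 2) :=
      Real.log_le_log (by linarith) (by linarith)
    linarith
  set B : ℝ := Real.exp (-Real.log (1 - r ^ 2) + -Real.log (1 - r ^ 2) + Real.log 4) with hB
  have h4 : {γ : Γ | ∃ z : 𝔻, ‖(z : ℂ)‖ ≤ r ∧ ‖(((γ : SU11) • z : 𝔻) : ℂ)‖ ≤ r} ⊆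
      (fun γ : Γ => (γ : SU11)) ⁻¹' {g : SU11 | g ∈ Γ ∧ ‖g.a‖ ≤ B} := by
    rintro γ ⟨z, hz, hγz⟩
    refine ⟨γ.2, ?_⟩
    have h5 := dL_triangle ((γ : SU11) • (0 : 𝔻)) ((γ : SU11) • z) 0
    rw [dL_smul_zero, dL_smul, dL_comm 0 z] at h5
    have h6 := key z hz
    have h7 := key _ hγz
    have h8 : Lg (γ : SU11) ≤ -Real.log (1 - r ^ 2) + -Real.log (1 - r ^ 2) + Real.log 4 := by
      linarith
    have h9 : 1 ≤ ‖(γ : SU11).a‖ := (γ : SU11).one_le_norm_a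
    have h10 : 0 < normSq (γ : SU11).a := by
      rw [Complex.normSq_eq_norm_sq]
      positivity
    calc ‖(γ : SU11).a‖ ≤ ‖(γ : SU11).a‖ ^ 2 := by nlinarith
      _ = normSq (γ : SU11).a := (Complex.normSq_eq_norm_sq _).symm
      _ = Real.exp (Lg (γ : SU11)) := by
          unfold Lg
          rw [Real.exp_log h10]
      _ ≤ B := Real.exp_le_exp.2 h8
  exact ((hd B).preimage Subtype.val_injective.injOn).subset h4

/-- a partition of unity for `Γ` -/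
structure PU (Γ : Subgroup SU11) where
  /-- the function -/
  θ : 𝔻 → ℝ
  cont : Continuous θ
  nonneg : ∀ z, 0 ≤ θ z
  /-- radius of the support -/
  r : ℝ
  r_lt : r < 1
  supp : ∀ z : 𝔻, θ z ≠ 0 → ‖(z : ℂ)‖ ≤ r
  sum : ∀ z : 𝔻, HasSum (fun γ : Γ => θ ((γ : SU11) • z)) 1

/-- `θ(z) = ψ(z) / ∑_γ ψ(γ z)`, `ψ(z) = max 0 (r' - ‖z‖)`, where every orbit meets `‖z‖ ≤ r < r'` -/
theorem exists_PU {Γ : Subgroup SU11} (hd : IsDisc Γ) (hc : IsCocpt Γ) : Nonempty (PU Γ) := by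
  obtain ⟨r, hr1, hr⟩ := hc
  set r' : ℝ := (r + 1) / 2 with hr'
  have hrr' : r < r' := by rw [hr']; linarith
  have hr'1 : r' < 1 := by rw [hr']; linarith
  set ψ : 𝔻 → ℝ := fun z => max 0 (r' - ‖(z : ℂ)‖) with hψ
  have hψ0 : ∀ z, 0 ≤ ψ z := fun z => le_max_left _ _
  have hψc : Continuous ψ := continuous_const.max (continuous_const.sub UnitDisc.continuous_coe.norm)
  have hψs : ∀ z, ψ z ≠ 0 → ‖(z : ℂ)‖ ≤ r' := by
    intro z hz
    by_contra hcon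
    apply hz
    rw [hψ]
    exact max_eq_left (by linarith)
  have hfin : ∀ z : 𝔻, (Function.support fun γ : Γ => ψ ((γ : SU11) • z)).Finite := by
    intro z
    have hs : max ‖(z : ℂ)‖ r' < 1 := max_lt z.norm_lt_one hr'1
    refine (finite_meet hd hs).subset fun γ hγ => ?_
    exact ⟨z, le_max_left _ _, (hψs _ hγ).trans (le_max_right _ _)⟩
  have hloc : LocallyFinite fun γ : Γ => Function.support fun z : 𝔻 => ψ ((γ : SU11) • z) := by
    intro z₀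
    set s : ℝ := max ((‖(z₀ : ℂ)‖ + 1) / 2) r' with hs
    have hs1 : s < 1 := max_lt (by linarith [z₀.norm_lt_one]) hr'1
    refine ⟨{z : 𝔻 | ‖(z : ℂ)‖ < s}, ?_, ?_⟩
    · refine (isOpen_lt UnitDisc.continuous_coe.norm continuous_const).mem_nhds ?_
      have h1 : ‖(z₀ : ℂ)‖ < (‖(z₀ : ℂ)‖ + 1) / 2 := by
        have := z₀.norm_lt_one
        linarith
      exact lt_of_lt_of_le h1 (le_max_left _ _)
    · refine (finite_meet hd hs1).subset ?_
      rintro γ ⟨z, hz1, hz2⟩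
      exact ⟨z, le_of_lt hz2, (hψs _ hz1).trans (le_max_right _ _)⟩
  set Ψ : 𝔻 → ℝ := fun z => ∑ᶠ γ : Γ, ψ ((γ : SU11) • z) with hΨ
  have hΨc : Continuous Ψ :=
    continuous_finsum (fun γ => hψc.comp (continuous_smul_disc (γ : SU11))) hloc
  have hΨ0 : ∀ z, 0 < Ψ z := by
    intro z
    obtain ⟨g, hg, hgz⟩ := hr z
    have h1 := single_le_finsum (⟨g, hg⟩ : Γ) (hfin z) (fun γ => hψ0 _)
    have h2 : 0 < ψ (g • z) := lt_of_lt_of_le (by linarith) (le_max_right _ _)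
    exact lt_of_lt_of_le h2 h1
  have hΨinv : ∀ (γ : Γ) (z : 𝔻), Ψ ((γ : SU11) • z) = Ψ z := by
    intro γ z
    rw [hΨ]
    change ∑ᶠ δ : Γ, ψ ((δ : SU11) • (γ : SU11) • z) = ∑ᶠ δ : Γ, ψ ((δ : SU11) • z)
    rw [← finsum_comp_equiv (Equiv.mulRight γ) (f := fun δ : Γ => ψ ((δ : SU11) • z))]
    apply finsum_congr
    intro δ
    rw [smul_smul]
    rfl
  refine ⟨⟨fun z => ψ z / Ψ z, hψc.div hΨc fun z => (hΨ0 z).ne',
    fun z => div_nonneg (hψ0 z) (hΨ0 z).le, r', hr'1, fun z hz => hψs z ?_, fun z => ?_⟩⟩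
  · intro h0
    apply hz
    rw [h0, zero_div]
  · have h1 : HasSum (fun γ : Γ => ψ ((γ : SU11) • z)) (Ψ z) := by
      have h2 := (summable_of_hasFiniteSupport (L := SummationFilter.unconditional Γ)
        (hfin z)).hasSum
      rwa [tsum_eq_finsum (hfin z)] at h2
    have h3 := h1.div_const (Ψ z)
    rw [div_self (hΨ0 z).ne'] at h3
    have h4 : (fun γ : Γ => ψ ((γ : SU11) • z) / Ψ z) =
        fun γ : Γ => ψ ((γ : SU11) • z) / Ψ ((γ : SU11) • z) := by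
      funext γ
      rw [hΨinv]
    rw [h4] at h3
    exact h3

end

end Pool.Agent.Lib.MP_b16327_pr
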