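import Pool.Agent.Lib.MP_b16327_pr.MtpA

/-! # The invariant mean; abstract mass transport -/

namespace Pool.Agent.Lib.MP_b16327_pr

open Complex MeasureTheory ComplexConjugate Filter
open scoped Complex.UnitDisc Topology BoundedContinuousFunction

noncomputable section

namespace PU

variable {Γ : Subgroup SU11} (P : PU Γ)

/-- total mass -/
def tot : ℝ := ∫ z, P.θ z ∂area

/-- the normalised invariant integral `∫_{Γ\𝔻} v dA` -/
def I (v : 𝔻 → ℂ) : ℂ := ((P.tot : ℝ) : ℂ)⁻¹ * ∫ z, (P.θ z : ℂ) * v z ∂area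

theorem MtpB_isClosed (r : ℝ) : IsClosed {z : 𝔻 | ‖(z : ℂ)‖ ≤ r} :=
  isClosed_le (UnitDisc.continuous_coe.norm) continuous_const

theorem MtpB_hasCompactSupport {F : Type*} [Zero F] {f : 𝔻 → F}
    (hf : ∀ z : 𝔻, f z ≠ 0 → P.θ z ≠ 0) : HasCompactSupport f := by
  have : T2Space 𝔻 := UnitDisc.isEmbedding_coe.t2Space
  apply HasCompactSupport.of_support_subset_isCompact (isCompact_closedBallD P.r_lt)
  intro z hz
  exact P.supp z (hf z hz)

theorem MtpB_exists_ne_zero : ∃ z : 𝔻, P.θ z ≠ 0 := by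
  by_contra h
  push Not at h
  have h1 := P.sum 0
  simp only [h] at h1
  exact one_ne_zero (h1.unique hasSum_zero)

theorem tot_pos : 0 < P.tot := by
  have : T2Space 𝔻 := UnitDisc.isEmbedding_coe.t2Space
  obtain ⟨z, hz⟩ := P.MtpB_exists_ne_zero
  exact P.cont.integral_pos_of_hasCompactSupport_nonneg_nonzero
    (P.MtpB_hasCompactSupport (fun z hz => hz)) P.nonneg hz

theorem MtpB_integrable_theta : Integrable P.θ area := by
  have : T2Space 𝔻 := UnitDisc.isEmbedding_coe.t2Space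
  exact P.cont.integrable_of_hasCompactSupport (P.MtpB_hasCompactSupport (fun z hz => hz))

theorem integrable {v : 𝔻 → ℂ} (hv : Continuous v) :
    Integrable (fun z => (P.θ z : ℂ) * v z) area := by
  have : T2Space 𝔻 := UnitDisc.isEmbedding_coe.t2Space
  have h1 : Continuous (fun z => (P.θ z : ℂ) * v z) :=
    (Complex.continuous_ofReal.comp P.cont).mul hv
  apply h1.integrable_of_hasCompactSupport
  apply P.MtpB_hasCompactSupport
  intro z hz h0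
  apply hz
  rw [h0, Complex.ofReal_zero, zero_mul]

theorem I_mul (c : ℂ) (v : 𝔻 → ℂ) : P.I (fun z => c * v z) = c * P.I v := by
  unfold I
  have h1 : (fun z => (P.θ z : ℂ) * (c * v z)) = fun z => c * ((P.θ z : ℂ) * v z) := by
    funext z
    ring
  rw [h1, integral_const_mul]
  ring

theorem I_const (c : ℂ) : P.I (fun _ => c) = c := by
  have h1 : ((P.tot : ℝ) : ℂ) ≠ 0 := by
    exact_mod_cast P.tot_pos.ne'
  have h2 : ∫ z, (P.θ z : ℂ) ∂area = ((P.tot : ℝ) : ℂ) := integral_ofReal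
  unfold I
  rw [integral_mul_const, h2, ← mul_assoc, inv_mul_cancel₀ h1, one_mul]

theorem I_add {v w : 𝔻 → ℂ} (hv : Continuous v) (hw : Continuous w) :
    P.I (fun z => v z + w z) = P.I v + P.I w := by
  unfold I
  rw [← mul_add, ← integral_add (P.integrable hv) (P.integrable hw)]
  simp only [mul_add]

theorem I_sub {v w : 𝔻 → ℂ} (hv : Continuous v) (hw : Continuous w) :
    P.I (fun z => v z - w z) = P.I v - P.I w := by
  unfold I
  rw [← mul_sub, ← integral_sub (P.integrable hv) (P.integrable hw)]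
  simp only [mul_sub]

theorem norm_I_le {v : 𝔻 → ℂ} {C : ℝ} (h : ∀ z, ‖v z‖ ≤ C) : ‖P.I v‖ ≤ C := by
  have hp := P.tot_pos
  have h1 : ‖∫ z, (P.θ z : ℂ) * v z ∂area‖ ≤ ∫ z, P.θ z * C ∂area := by
    apply norm_integral_le_of_norm_le (P.MtpB_integrable_theta.mul_const C)
    filter_upwards with z
    rw [norm_mul, Complex.norm_real, Real.norm_of_nonneg (P.nonneg z)]
    exact mul_le_mul_of_nonneg_left (h z) (P.nonneg z)
  rw [integral_mul_const] at h1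
  unfold I
  rw [norm_mul, norm_inv, Complex.norm_real, Real.norm_of_nonneg hp.le]
  calc P.tot⁻¹ * ‖∫ z, (P.θ z : ℂ) * v z ∂area‖ ≤ P.tot⁻¹ * (P.tot * C) :=
        mul_le_mul_of_nonneg_left h1 (inv_nonneg.2 hp.le)
    _ = C := by field_simp

end PU

/-- general transport lemma -/
theorem MtpB_gen {Y : Type*} [MeasurableSpace Y] (μ : Measure Y) {Λ : Type*} [Countable Λ]
    (T : Λ → Y → Y) (hT : ∀ l, MeasurePreserving (T l) μ μ)
    (f g : Y → ℂ) (hgm : Measurable g) (h : Λ → Y → ℂ) (hm : ∀ l, Measurable (h l))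
    (hf : ∀ y, HasSum (fun l => h l y) (f y)) (hg : ∀ y, HasSum (fun l => h l (T l y)) (g y))
    (hf' : ∀ y, HasSum (fun l => ‖h l y‖) ‖f y‖)
    (hg' : ∀ y, HasSum (fun l => ‖h l (T l y)‖) ‖g y‖)
    (hint : Integrable f μ) : Integrable g μ ∧ ∫ y, f y ∂μ = ∫ y, g y ∂μ := by
  have key : ∀ (u : Λ → ℝ) (x : ℝ), (∀ l, 0 ≤ u l) → HasSum u x →
      ENNReal.ofReal x = ∑' l, ENNReal.ofReal (u l) := by
    intro u x hu hs
    rw [← hs.tsum_eq]
    exact ENNReal.ofReal_tsum_of_nonneg hu hs.summable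
  have e1 : ∀ y, ‖f y‖ₑ = ∑' l, ‖h l y‖ₑ := by
    intro y
    have := key _ _ (fun l => norm_nonneg _) (hf' y)
    simpa only [ofReal_norm] using this
  have e2 : ∀ y, ‖g y‖ₑ = ∑' l, ‖h l (T l y)‖ₑ := by
    intro y
    have := key _ _ (fun l => norm_nonneg _) (hg' y)
    simpa only [ofReal_norm] using this
  have l1 : ∫⁻ y, ‖f y‖ₑ ∂μ = ∑' l, ∫⁻ y, ‖h l y‖ₑ ∂μ := by
    simp only [e1]
    exact lintegral_tsum (fun l => (hm l).enorm.aemeasurable)
  have l2 : ∫⁻ y, ‖g y‖ₑ ∂μ = ∑' l, ∫⁻ y, ‖h l (T l y)‖ₑ ∂μ := by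
    simp only [e2]
    exact lintegral_tsum (fun l => ((hm l).comp (hT l).measurable).enorm.aemeasurable)
  have l3 : ∀ l, ∫⁻ y, ‖h l (T l y)‖ₑ ∂μ = ∫⁻ y, ‖h l y‖ₑ ∂μ := fun l =>
    (hT l).lintegral_comp (hm l).enorm
  have l4 : ∑' l, ∫⁻ y, ‖h l y‖ₑ ∂μ ≠ ⊤ := by
    rw [← l1]
    exact hint.2.ne
  have l5 : ∑' l, ∫⁻ y, ‖h l (T l y)‖ₑ ∂μ ≠ ⊤ := by
    simp only [l3]
    exact l4
  constructor
  · refine ⟨hgm.aestronglyMeasurable, ?_⟩
    rw [hasFiniteIntegral_iff_enorm, l2]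
    exact lt_top_iff_ne_top.2 l5
  · have i1 : ∫ y, f y ∂μ = ∑' l, ∫ y, h l y ∂μ := by
      rw [← integral_tsum (fun l => (hm l).aestronglyMeasurable) l4]
      congr 1
      funext y
      exact (hf y).tsum_eq.symm
    have i2 : ∫ y, g y ∂μ = ∑' l, ∫ y, h l (T l y) ∂μ := by
      have i0 := integral_tsum (μ := μ) (f := fun l y => h l (T l y))
        (fun l => ((hm l).comp (hT l).measurable).aestronglyMeasurable) l5
      rw [← i0]
      congr 1
      funext y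
      exact (hg y).tsum_eq.symm
    have i3 : ∀ l, ∫ y, h l (T l y) ∂μ = ∫ y, h l y ∂μ := by
      intro l
      have := integral_map (μ := μ) (hT l).measurable.aemeasurable
        (hm l).aestronglyMeasurable
      rw [(hT l).map_eq] at this
      exact this.symm
    rw [i1, i2]
    simp only [i3]

/-- the mass transport principle, abstract form.  `∫∫ ψ(z) K(z,w) = ∑_λ ∫∫ ψ(z) ψ(λ w) K(z,w)
= ∑_λ ∫∫ ψ(λ⁻¹ z) ψ(w) K(z,w) = ∫∫ ψ(w) K(z,w)` -/
theorem mtp_abs {X : Type*} [MeasurableSpace X] (m : Measure X) [SigmaFinite m]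
    {Λ : Type*} [Group Λ] [Countable Λ] [MulAction Λ X]
    (hmp : ∀ l : Λ, MeasurePreserving (fun z : X => l • z) m m)
    (ψ : X → ℝ) (hψm : Measurable ψ) (hψ0 : ∀ z, 0 ≤ ψ z)
    (hψ1 : ∀ z, HasSum (fun l : Λ => ψ (l • z)) 1)
    (K : X → X → ℂ) (hKm : Measurable (fun p : X × X => K p.1 p.2))
    (hK : ∀ (l : Λ) (z w : X), K (l • z) (l • w) = K z w)
    (hint : Integrable (fun p : X × X => (ψ p.1 : ℂ) * K p.1 p.2) (m.prod m)) :
    Integrable (fun p : X × X => (ψ p.2 : ℂ) * K p.1 p.2) (m.prod m) ∧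
      ∫ p : X × X, (ψ p.1 : ℂ) * K p.1 p.2 ∂(m.prod m) =
        ∫ p : X × X, (ψ p.2 : ℂ) * K p.1 p.2 ∂(m.prod m) := by
  have hψc : Measurable (fun x : X => (ψ x : ℂ)) := Complex.measurable_ofReal.comp hψm
  have hinv : ∀ z, HasSum (fun l : Λ => ψ (l⁻¹ • z)) 1 := fun z =>
    (Equiv.inv Λ).hasSum_iff.2 (hψ1 z)
  have hnr : ∀ x, ‖(ψ x : ℂ)‖ = ψ x := fun x => by
    rw [Complex.norm_real, Real.norm_of_nonneg (hψ0 x)]
  have hT : ∀ (l : Λ) (p : X × X), (ψ (l⁻¹ • p.1) : ℂ) * (ψ (l • l⁻¹ • p.2) : ℂ) *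
      K (l⁻¹ • p.1) (l⁻¹ • p.2) = (ψ (l⁻¹ • p.1) : ℂ) * ((ψ p.2 : ℂ) * K p.1 p.2) := by
    intro l p
    rw [smul_inv_smul, hK, mul_assoc]
  refine MtpB_gen (m.prod m) (fun (l : Λ) (p : X × X) => (l⁻¹ • p.1, l⁻¹ • p.2))
    (fun l => (hmp l⁻¹).prod (hmp l⁻¹)) _ _ ?_
    (fun (l : Λ) (p : X × X) => (ψ p.1 : ℂ) * (ψ (l • p.2) : ℂ) * K p.1 p.2) ?_ ?_ ?_ ?_ ?_ hint
  · exact (hψc.comp measurable_snd).mul hKm
  · intro l
    exact ((hψc.comp measurable_fst).mul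
      (hψc.comp ((hmp l).measurable.comp measurable_snd))).mul hKm
  · intro p
    have h1 := (Complex.hasSum_ofReal.2 (hψ1 p.2)).mul_left ((ψ p.1 : ℂ) * K p.1 p.2)
    rw [Complex.ofReal_one, mul_one] at h1
    refine h1.congr_fun ?_
    intro l
    ring
  · intro p
    have h1 := (Complex.hasSum_ofReal.2 (hinv p.1)).mul_right ((ψ p.2 : ℂ) * K p.1 p.2)
    rw [Complex.ofReal_one, one_mul] at h1
    refine h1.congr_fun ?_
    intro l
    exact hT l p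
  · intro p
    have h1 := (hψ1 p.2).mul_left (ψ p.1 * ‖K p.1 p.2‖)
    rw [mul_one] at h1
    have h2 : ‖(ψ p.1 : ℂ) * K p.1 p.2‖ = ψ p.1 * ‖K p.1 p.2‖ := by rw [norm_mul, hnr]
    rw [h2]
    refine h1.congr_fun ?_
    intro l
    rw [norm_mul, norm_mul, hnr, hnr]
    ring
  · intro p
    have h1 := (hinv p.1).mul_right (ψ p.2 * ‖K p.1 p.2‖)
    rw [one_mul] at h1
    have h2 : ‖(ψ p.2 : ℂ) * K p.1 p.2‖ = ψ p.2 * ‖K p.1 p.2‖ := by rw [norm_mul, hnr]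
    rw [h2]
    refine h1.congr_fun ?_
    intro l
    change ‖(ψ (l⁻¹ • p.1) : ℂ) * (ψ (l • l⁻¹ • p.2) : ℂ) * K (l⁻¹ • p.1) (l⁻¹ • p.2)‖ = _
    rw [hT l p, norm_mul, norm_mul, hnr, hnr]

/-- unfolding: two partitions of unity give the same integral of an invariant function -/
theorem unfold_abs {X : Type*} [MeasurableSpace X] (m : Measure X)
    {Λ : Type*} [Group Λ] [Countable Λ] [MulAction Λ X]
    (hmp : ∀ l : Λ, MeasurePreserving (fun z : X => l • z) m m)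
    (ψ ψ' : X → ℝ) (hψm : Measurable ψ) (hψ0 : ∀ z, 0 ≤ ψ z)
    (hψ1 : ∀ z, HasSum (fun l : Λ => ψ (l • z)) 1)
    (hψm' : Measurable ψ') (hψ0' : ∀ z, 0 ≤ ψ' z)
    (hψ1' : ∀ z, HasSum (fun l : Λ => ψ' (l • z)) 1)
    (F : X → ℂ) (hFm : Measurable F) (hF : ∀ (l : Λ) (z : X), F (l • z) = F z)
    (hint : Integrable (fun z => (ψ z : ℂ) * F z) m) :
    Integrable (fun z => (ψ' z : ℂ) * F z) m ∧
      ∫ z, (ψ z : ℂ) * F z ∂m = ∫ z, (ψ' z : ℂ) * F z ∂m := by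
  have hψc : Measurable (fun x : X => (ψ x : ℂ)) := Complex.measurable_ofReal.comp hψm
  have hψc' : Measurable (fun x : X => (ψ' x : ℂ)) := Complex.measurable_ofReal.comp hψm'
  have hinv : ∀ z, HasSum (fun l : Λ => ψ (l⁻¹ • z)) 1 := fun z =>
    (Equiv.inv Λ).hasSum_iff.2 (hψ1 z)
  have hnr : ∀ x, ‖(ψ x : ℂ)‖ = ψ x := fun x => by
    rw [Complex.norm_real, Real.norm_of_nonneg (hψ0 x)]
  have hnr' : ∀ x, ‖(ψ' x : ℂ)‖ = ψ' x := fun x => by
    rw [Complex.norm_real, Real.norm_of_nonneg (hψ0' x)]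
  have hT : ∀ (l : Λ) (z : X), (ψ (l⁻¹ • z) : ℂ) * (ψ' (l • l⁻¹ • z) : ℂ) * F (l⁻¹ • z) =
      (ψ (l⁻¹ • z) : ℂ) * ((ψ' z : ℂ) * F z) := by
    intro l z
    rw [smul_inv_smul, hF, mul_assoc]
  refine MtpB_gen m (fun (l : Λ) (z : X) => l⁻¹ • z) (fun l => hmp l⁻¹) _ _ ?_
    (fun (l : Λ) (z : X) => (ψ z : ℂ) * (ψ' (l • z) : ℂ) * F z) ?_ ?_ ?_ ?_ ?_ hint
  · exact hψc'.mul hFm
  · intro l
    exact (hψc.mul (hψc'.comp (hmp l).measurable)).mul hFm
  · intro z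
    have h1 := (Complex.hasSum_ofReal.2 (hψ1' z)).mul_left ((ψ z : ℂ) * F z)
    rw [Complex.ofReal_one, mul_one] at h1
    refine h1.congr_fun ?_
    intro l
    ring
  · intro z
    have h1 := (Complex.hasSum_ofReal.2 (hinv z)).mul_right ((ψ' z : ℂ) * F z)
    rw [Complex.ofReal_one, one_mul] at h1
    refine h1.congr_fun ?_
    intro l
    exact hT l z
  · intro z
    have h1 := (hψ1' z).mul_left (ψ z * ‖F z‖)
    rw [mul_one] at h1
    have h2 : ‖(ψ z : ℂ) * F z‖ = ψ z * ‖F z‖ := by rw [norm_mul, hnr]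
    rw [h2]
    refine h1.congr_fun ?_
    intro l
    rw [norm_mul, norm_mul, hnr, hnr']
    ring
  · intro z
    have h1 := (hinv z).mul_right (ψ' z * ‖F z‖)
    rw [one_mul] at h1
    have h2 : ‖(ψ' z : ℂ) * F z‖ = ψ' z * ‖F z‖ := by rw [norm_mul, hnr']
    rw [h2]
    refine h1.congr_fun ?_
    intro l
    rw [hT l z, norm_mul, norm_mul, hnr, hnr']

end

end Pool.Agent.Lib.MP_b16327_pr
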