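import Pool.Agent.Lib.MP_b16327_pr.Walk
import Pool.Agent.Lib.MP_b16327_pr.MtpA

/-! # The random walk side: definitions -/

namespace Pool.Agent.Lib.MP_b16327_pr

open Complex MeasureTheory ComplexConjugate Filter
open scoped Complex.UnitDisc Topology BoundedContinuousFunction

noncomputable section

/-- extension by zero -/
def lx {Γ₁ : Subgroup SU11} (l : Γ₁ → ℂ) (g : SU11) : ℂ := by
  classical exact if h : g ∈ Γ₁ then l ⟨g, h⟩ else 0

/-- right transversal `Γ = ⊔ Γ₁ r_i` -/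
structure Trans (Γ Γ₁ : Subgroup SU11) (m : ℕ) (r : Fin m → SU11) : Prop where
  le : Γ₁ ≤ Γ
  pos : 0 < m
  mem : ∀ i, r i ∈ Γ
  ex : ∀ g ∈ Γ, ∃! i, g * (r i)⁻¹ ∈ Γ₁

theorem exists_trans {Γ Γ₁ : Subgroup SU11} (hle : Γ₁ ≤ Γ) (hfin : Γ₁.relIndex Γ ≠ 0) :
    ∃ (m : ℕ) (r : Fin m → SU11), Trans Γ Γ₁ m r := by
  classical
  have hfin' : (Γ₁.subgroupOf Γ).FiniteIndex := ⟨hfin⟩
  have hQ : Finite (Γ ⧸ (Γ₁.subgroupOf Γ)) := inferInstance
  have e := Finite.equivFin (Γ ⧸ (Γ₁.subgroupOf Γ))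
  have key : ∀ (g : Γ) (i : Fin (Nat.card (Γ ⧸ (Γ₁.subgroupOf Γ)))),
      ((g : SU11) * ((((e.symm i).out)⁻¹ : Γ) : SU11)⁻¹ ∈ Γ₁ ↔
        i = e (QuotientGroup.mk g⁻¹ : Γ ⧸ (Γ₁.subgroupOf Γ))) := by
    intro g i
    have h1 : ((g : SU11) * ((((e.symm i).out)⁻¹ : Γ) : SU11)⁻¹) =
        ((g * (e.symm i).out : Γ) : SU11) := by
      rw [Subgroup.coe_inv, inv_inv, Subgroup.coe_mul]
    rw [h1, ← Subgroup.mem_subgroupOf]
    have h2 : g * (e.symm i).out ∈ Γ₁.subgroupOf Γ ↔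
        (QuotientGroup.mk g⁻¹ : Γ ⧸ (Γ₁.subgroupOf Γ)) = QuotientGroup.mk ((e.symm i).out) := by
      rw [QuotientGroup.eq, inv_inv]
    rw [h2, QuotientGroup.out_eq']
    constructor
    · intro h
      rw [h, Equiv.apply_symm_apply]
    · intro h
      rw [h, Equiv.symm_apply_apply]
  refine ⟨Nat.card (Γ ⧸ (Γ₁.subgroupOf Γ)), fun i => ((((e.symm i).out)⁻¹ : Γ) : SU11),
    ⟨hle, Nat.card_pos, fun i => ((((e.symm i).out)⁻¹ : Γ)).2, ?_⟩⟩
  intro g hg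
  refine ⟨e (QuotientGroup.mk (⟨g, hg⟩ : Γ)⁻¹), (key ⟨g, hg⟩ _).2 rfl, ?_⟩
  intro i hi
  exact (key ⟨g, hg⟩ i).1 hi

private theorem MuA_lx_mul {Γ₁ : Subgroup SU11} {l : Γ₁ → ℂ} (hm : ∀ γ δ : Γ₁, l (γ * δ) = l γ * l δ)
    (γ : Γ₁) (g : SU11) : lx l ((γ : SU11) * g) = l γ * lx l g := by
  unfold lx
  by_cases h : g ∈ Γ₁
  · have h' : (γ : SU11) * g ∈ Γ₁ := Γ₁.mul_mem γ.2 h
    rw [dif_pos h', dif_pos h, ← hm]
    rfl
  · have h' : (γ : SU11) * g ∉ Γ₁ := fun h2 => h ((Γ₁.mul_mem_cancel_left γ.2).1 h2)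
    rw [dif_neg h', dif_neg h, mul_zero]

private theorem MuA_lx_one {Γ₁ : Subgroup SU11} {l : Γ₁ → ℂ} (h1 : l 1 = 1) : lx l 1 = 1 := by
  unfold lx
  rw [dif_pos Γ₁.one_mem]
  exact h1

private theorem MuA_lx_delta {Γ Γ₁ : Subgroup SU11} {m : ℕ} {r : Fin m → SU11}
    (hT : Trans Γ Γ₁ m r) {l : Γ₁ → ℂ} (h1 : l 1 = 1) (i j : Fin m) :
    lx l (r i * (r j)⁻¹) = if j = i then 1 else 0 := by
  by_cases h : j = i
  · rw [if_pos h, h, mul_inv_cancel]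
    exact MuA_lx_one h1
  · rw [if_neg h]
    unfold lx
    rw [dif_neg]
    intro h2
    apply h
    obtain ⟨k, _, hk⟩ := hT.ex (r i) (hT.mem i)
    rw [hk j h2, hk i (by
      change r i * (r i)⁻¹ ∈ Γ₁
      rw [mul_inv_cancel]
      exact Γ₁.one_mem)]

variable (W : Walk) {Γ₁ : Subgroup SU11} {m : ℕ} (r : Fin m → SU11)

/-- matrix of `P` on functions with `F(γ g) = l γ F(g)` in the coordinates `F(r_i)` -/
def PM (l : Γ₁ → ℂ) : Matrix (Fin m) (Fin m) ℂ :=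
  fun i j => ∑ k, (W.p k : ℂ) * lx l (r i * W.h k * (r j)⁻¹)

/-- `D = det(1 - P)` -/
def DD (l : Γ₁ → ℂ) : ℂ := (1 - PM W r l).det

/-- `(P β - β)(r_i)` -/
def mv (β : SU11 → ℂ) (i : Fin m) : ℂ := ∑ k, (W.p k : ℂ) * (β (r i * W.h k) - β (r i))

/-- `adj(1 - P) (P β - β)` -/
def yv (l : Γ₁ → ℂ) (β : SU11 → ℂ) : Fin m → ℂ := (1 - PM W r l).adjugate.mulVec (mv W r β)

/-- `D` times the increment of `X = β + Y` from `r_i` to `r_i h_k` -/
def inc (l : Γ₁ → ℂ) (β : SU11 → ℂ) (i : Fin m) (k : W.ι) : ℂ :=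
  DD W r l * (β (r i * W.h k) - β (r i)) +
    (∑ j, lx l (r i * W.h k * (r j)⁻¹) * yv W r l β j - yv W r l β i)

/-- `D D'` times the mean of `P(X X') - X X'` -/
def DBv (l l' : Γ₁ → ℂ) (β β' : SU11 → ℂ) : ℂ :=
  (m : ℂ)⁻¹ * ∑ i, ∑ k, (W.p k : ℂ) * (inc W r l β i k * inc W r l' β' i k)

/-- multiplicative non-vanishing functions -/
structure Mult (l : Γ₁ → ℂ) : Prop where
  one : l 1 = 1
  mul : ∀ γ δ : Γ₁, l (γ * δ) = l γ * l δ

private def MuA_Y (l : Γ₁ → ℂ) (β : SU11 → ℂ) (g : SU11) : ℂ :=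
  ∑ i, lx l (g * (r i)⁻¹) * (yv W r l β i / DD W r l)

/-- `X = β + Y` with `P X = X`, where `Y(γ r_i) = l(γ) y_i / D` -/
theorem exists_X {Γ : Subgroup SU11} (hT : Trans Γ Γ₁ m r) (hW : ∀ k, W.h k ∈ Γ)
    {l : Γ₁ → ℂ} (hl : Mult l) (hD : DD W r l ≠ 0) {β : SU11 → ℂ}
    (hβ : ∀ (γ : Γ₁), ∀ g ∈ Γ, β ((γ : SU11) * g) = l γ * β g + β γ) :
    ∃ X : SU11 → ℂ, (∀ (γ : Γ₁), ∀ g ∈ Γ, X ((γ : SU11) * g) - β ((γ : SU11) * g) =
        l γ * (X g - β g)) ∧ (∀ g ∈ Γ, W.P X g = X g) ∧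
      ∀ i k, DD W r l * (X (r i * W.h k) - X (r i)) = inc W r l β i k := by
  have hY1 : ∀ (γ : Γ₁) (g : SU11), MuA_Y W r l β ((γ : SU11) * g) = l γ * MuA_Y W r l β g := by
    intro γ g
    unfold MuA_Y
    rw [Finset.mul_sum]
    refine Finset.sum_congr rfl fun i _ => ?_
    rw [mul_assoc, MuA_lx_mul hl.mul]
    ring
  have hYr : ∀ i, MuA_Y W r l β (r i) = yv W r l β i / DD W r l := by
    intro i
    unfold MuA_Y
    rw [Finset.sum_eq_single i]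
    · rw [MuA_lx_delta hT hl.one, if_pos rfl, one_mul]
    · intro j _ hj
      rw [MuA_lx_delta hT hl.one, if_neg hj, zero_mul]
    · intro h
      exact absurd (Finset.mem_univ i) h
  have hYk : ∀ i k, MuA_Y W r l β (r i * W.h k) =
      (∑ j, lx l (r i * W.h k * (r j)⁻¹) * yv W r l β j) / DD W r l := by
    intro i k
    unfold MuA_Y
    rw [Finset.sum_div]
    exact Finset.sum_congr rfl fun j _ => by ring
  have hadj : ∀ i, ∑ j, PM W r l i j * yv W r l β j = yv W r l β i - DD W r l * mv W r β i := by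
    intro i
    have h1 : (1 - PM W r l).mulVec (yv W r l β) = DD W r l • mv W r β := by
      unfold yv DD
      rw [Matrix.mulVec_mulVec, Matrix.mul_adjugate, Matrix.smul_mulVec, Matrix.one_mulVec]
    have h2 := congrFun h1 i
    rw [Matrix.sub_mulVec, Matrix.one_mulVec, Pi.sub_apply, Pi.smul_apply, smul_eq_mul] at h2
    have h3 : (PM W r l).mulVec (yv W r l β) i = ∑ j, PM W r l i j * yv W r l β j := rfl
    rw [← h3]
    linear_combination -h2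
  have hp : (∑ k, (W.p k : ℂ)) = 1 := by
    rw [← Complex.ofReal_sum, W.sum, Complex.ofReal_one]
  have hPY : ∀ i, ∑ k, (W.p k : ℂ) * MuA_Y W r l β (r i * W.h k) =
      MuA_Y W r l β (r i) - mv W r β i := by
    intro i
    have h1 : ∑ k, (W.p k : ℂ) * MuA_Y W r l β (r i * W.h k) =
        (∑ j, PM W r l i j * yv W r l β j) / DD W r l := by
      unfold PM
      simp only [Finset.sum_mul]
      rw [Finset.sum_comm, Finset.sum_div]
      refine Finset.sum_congr rfl fun k _ => ?_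
      rw [hYk, mul_div_assoc', Finset.mul_sum]
      congr 1
      exact Finset.sum_congr rfl fun j _ => by ring
    rw [h1, hadj, hYr, sub_div, mul_div_cancel_left₀ _ hD]
  have hPr : ∀ i, ∑ k, (W.p k : ℂ) * (β (r i * W.h k) + MuA_Y W r l β (r i * W.h k)) =
      β (r i) + MuA_Y W r l β (r i) := by
    intro i
    simp only [mul_add, Finset.sum_add_distrib]
    rw [hPY]
    unfold mv
    simp only [mul_sub, Finset.sum_sub_distrib]
    rw [← Finset.sum_mul, hp]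
    ring
  have hXm : ∀ (γ : Γ₁), ∀ g ∈ Γ, β ((γ : SU11) * g) + MuA_Y W r l β ((γ : SU11) * g) =
      l γ * (β g + MuA_Y W r l β g) + β γ := by
    intro γ g hg
    rw [hβ γ g hg, hY1]
    ring
  refine ⟨fun g => β g + MuA_Y W r l β g, ?_, ?_, ?_⟩
  · intro γ g _
    simp only [add_sub_cancel_left]
    exact hY1 γ g
  · intro g hg
    obtain ⟨i, hi, _⟩ := hT.ex g hg
    have hg' : g = ((⟨g * (r i)⁻¹, hi⟩ : Γ₁) : SU11) * r i := by simp
    generalize (⟨g * (r i)⁻¹, hi⟩ : Γ₁) = γ at hg'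
    unfold Walk.P
    simp only [Complex.real_smul]
    have h1 : ∀ k, (W.p k : ℂ) * (β (g * W.h k) + MuA_Y W r l β (g * W.h k)) =
        l γ * ((W.p k : ℂ) * (β (r i * W.h k) + MuA_Y W r l β (r i * W.h k))) +
          (W.p k : ℂ) * β γ := by
      intro k
      rw [hg', mul_assoc, hXm γ _ (Γ.mul_mem (hT.mem i) (hW k))]
      ring
    simp only [h1, Finset.sum_add_distrib]
    rw [← Finset.mul_sum, hPr, ← Finset.sum_mul, hp, one_mul, hg', hXm γ _ (hT.mem i)]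
  · intro i k
    simp only [hYr, hYk]
    unfold inc
    field_simp
    ring

end

end Pool.Agent.Lib.MP_b16327_pr
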