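import Pool.Agent.Lib.MP_b16327_pr.MtpC

/-! # The Banach algebra of invariant functions -/

namespace Pool.Agent.Lib.MP_b16327_pr

open Complex MeasureTheory ComplexConjugate Filter
open scoped Complex.UnitDisc Topology BoundedContinuousFunction

noncomputable section

/-- bounded continuous `Γ`-invariant functions -/
def EG (Γ : Subgroup SU11) : Subalgebra ℂ (𝔻 →ᵇ ℂ) where
  carrier := {v | ∀ g ∈ Γ, ∀ z : 𝔻, v (g • z) = v z}
  mul_mem' := by
    intro v w hv hw g hg z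
    simp only [BoundedContinuousFunction.coe_mul, Pi.mul_apply]
    rw [hv g hg z, hw g hg z]
  add_mem' := by
    intro v w hv hw g hg z
    simp only [BoundedContinuousFunction.coe_add, Pi.add_apply]
    rw [hv g hg z, hw g hg z]
  algebraMap_mem' := by
    intro c g _ z
    rfl

/-- evaluation of an element of `EG` -/
def ap {Γ : Subgroup SU11} (v : EG Γ) (z : 𝔻) : ℂ := (v : 𝔻 →ᵇ ℂ) z

/-- `EG Γ` is closed, so complete -/
instance EG_complete (Γ : Subgroup SU11) : CompleteSpace (EG Γ) := by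
  have hcl : IsClosed ((EG Γ : Set (𝔻 →ᵇ ℂ))) := by
    have e : (EG Γ : Set (𝔻 →ᵇ ℂ)) =
        ⋂ g ∈ Γ, ⋂ z : 𝔻, {v : 𝔻 →ᵇ ℂ | v (g • z) = v z} := by
      ext v
      simp only [Set.mem_iInter, Set.mem_ofPred_eq]
      exact Iff.rfl
    rw [e]
    refine isClosed_biInter fun g _ => isClosed_iInter fun z => ?_
    exact isClosed_eq (BoundedContinuousFunction.evalCLM ℂ (g • z)).continuous
      (BoundedContinuousFunction.evalCLM ℂ z).continuous
  exact hcl.completeSpace_coe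

theorem EG_ap_smul {Γ : Subgroup SU11} (v : EG Γ) {g : SU11} (hg : g ∈ Γ) (z : 𝔻) :
    ap v (g • z) = ap v z := v.2 g hg z

theorem EG_continuous {Γ : Subgroup SU11} (v : EG Γ) : Continuous (ap v) :=
  (v : 𝔻 →ᵇ ℂ).continuous

theorem EG_ext {Γ : Subgroup SU11} {v w : EG Γ} (h : ∀ z, ap v z = ap w z) : v = w :=
  Subtype.ext (BoundedContinuousFunction.ext h)

@[simp] theorem EG_ap_add {Γ : Subgroup SU11} (v w : EG Γ) (z : 𝔻) :
    ap (v + w) z = ap v z + ap w z := rfl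
@[simp] theorem EG_ap_sub {Γ : Subgroup SU11} (v w : EG Γ) (z : 𝔻) :
    ap (v - w) z = ap v z - ap w z := rfl
@[simp] theorem EG_ap_mul {Γ : Subgroup SU11} (v w : EG Γ) (z : 𝔻) :
    ap (v * w) z = ap v z * ap w z := rfl
@[simp] theorem EG_ap_smul_const {Γ : Subgroup SU11} (c : ℂ) (v : EG Γ) (z : 𝔻) :
    ap (c • v) z = c * ap v z := rfl
@[simp] theorem EG_ap_one {Γ : Subgroup SU11} (z : 𝔻) : ap (1 : EG Γ) z = 1 := rfl

theorem EG_norm_ap_le {Γ : Subgroup SU11} (v : EG Γ) (z : 𝔻) : ‖ap v z‖ ≤ ‖v‖ :=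
  (v : 𝔻 →ᵇ ℂ).norm_coe_le_norm z

theorem EG_norm_le {Γ : Subgroup SU11} (v : EG Γ) {C : ℝ} (hC : 0 ≤ C) (h : ∀ z, ‖ap v z‖ ≤ C) :
    ‖v‖ ≤ C :=
  (BoundedContinuousFunction.norm_le hC).mpr h

/-- every continuous invariant function on a cocompact quotient is in `EG` -/
theorem EG_exists_of {Γ : Subgroup SU11} (hc : IsCocpt Γ) {u : 𝔻 → ℂ} (hu : Continuous u)
    (h : ∀ g ∈ Γ, ∀ z : 𝔻, u (g • z) = u z) : ∃ v : EG Γ, ∀ z, ap v z = u z := by
  obtain ⟨r, hr, hcov⟩ := hc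
  obtain ⟨C, hC⟩ := (isCompact_closedBallD hr).exists_bound_of_continuousOn hu.continuousOn
  have hb : ∀ z, ‖u z‖ ≤ C := by
    intro z
    obtain ⟨g, hg, hz⟩ := hcov z
    rw [← h g hg z]
    exact hC _ hz
  exact ⟨⟨BoundedContinuousFunction.ofNormedAddCommGroup u hu C hb, h⟩, fun z => rfl⟩

/-- the invariant mean as a continuous linear functional -/
theorem exists_IG {Γ : Subgroup SU11} (P : PU Γ) :
    ∃ I : EG Γ →L[ℂ] ℂ, ∀ v : EG Γ, I v = P.I (ap v) := by
  refine ⟨LinearMap.mkContinuous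
    { toFun := fun v : EG Γ => P.I (ap v)
      map_add' := fun v w => P.I_add (EG_continuous v) (EG_continuous w)
      map_smul' := fun c v => P.I_mul c (ap v) } 1 ?_, fun v => rfl⟩
  intro v
  rw [one_mul]
  exact P.norm_I_le fun z => EG_norm_ap_le v z

/-- the invariant mean -/
def IG {Γ : Subgroup SU11} (P : PU Γ) : EG Γ →L[ℂ] ℂ := (exists_IG P).choose

theorem IG_apply {Γ : Subgroup SU11} (P : PU Γ) (v : EG Γ) : IG P v = P.I (ap v) :=
  (exists_IG P).choose_spec v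

end

end Pool.Agent.Lib.MP_b16327_pr
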