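import Pool.Agent.Lib.MP_b16327_pr.OpB

/-! # The twisted operators -/

namespace Pool.Agent.Lib.MP_b16327_pr

open Complex MeasureTheory ComplexConjugate Filter
open scoped Complex.UnitDisc Topology BoundedContinuousFunction

noncomputable section

private theorem OpC_sum {R : ℝ} (hR : R < 1) {n : ℕ} (s : Finset (Fin n))
    (F : Fin n → 𝔻 → 𝔻 → ℂ) (hF : ∀ j, Continuous (fun p : 𝔻 × 𝔻 => F j p.1 p.2)) (z : 𝔻) :
    AvF R (fun z w => ∑ j ∈ s, F j z w) z = ∑ j ∈ s, AvF R (F j) z := by
  classical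
  induction s using Finset.induction_on with
  | empty => simp [AvF]
  | insert a s ha ih =>
    rw [Finset.sum_insert ha, ← ih, ← AvF_add hR (hF a)
      (continuous_finsetSum _ fun j _ => hF j)]
    simp only [Finset.sum_insert ha]

private theorem OpC_ap_sum {Γ : Subgroup SU11} {n : ℕ} (h : Fin n → ℂ)
    (N : Fin n → (EG Γ →L[ℂ] EG Γ)) (v : EG Γ) (z : 𝔻) :
    ap ((∑ j, h j • N j) v) z = ∑ j, h j * ap (N j v) z := by
  classical
  have h3 : ∀ s : Finset (Fin n), ap ((∑ j ∈ s, h j • N j) v) z =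
      ∑ j ∈ s, h j * ap (N j v) z := by
    intro s
    induction s using Finset.induction_on with
    | empty =>
      rw [Finset.sum_empty, Finset.sum_empty, ContinuousLinearMap.zero_apply]
      rfl
    | insert a s ha ih =>
      rw [Finset.sum_insert ha, Finset.sum_insert ha, ← ih]
      rfl
  exact h3 Finset.univ

private theorem OpC_diff {V : Type*} [NormedAddCommGroup V] [NormedSpace ℂ V] {n : ℕ}
    (M : (Fin n → ℂ) → V) (N : Fin n → V) (c : Fin n → ℂ) (A : ℝ)
    (h : ∀ᶠ h : Fin n → ℂ in 𝓝 0, ‖M (c + h) - M c - ∑ j, h j • N j‖ ≤ A * ‖h‖ ^ 2) :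
    DifferentiableAt ℂ M c := by
  have hder : HasFDerivAt M
      (∑ j, (ContinuousLinearMap.proj (R := ℂ) (φ := fun _ : Fin n => ℂ) j).smulRight (N j)) c := by
    rw [hasFDerivAt_iff_isLittleO_nhds_zero]
    have hO : (fun h : Fin n → ℂ => M (c + h) - M c -
        (∑ j, (ContinuousLinearMap.proj (R := ℂ) (φ := fun _ : Fin n => ℂ) j).smulRight
      (N j)) h) =O[𝓝 0] fun h : Fin n → ℂ => ‖h‖ ^ 2 := by
      refine Asymptotics.IsBigO.of_bound A ?_
      filter_upwards [h] with h hh
      rw [norm_pow, norm_norm]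
      simpa using hh
    exact hO.trans_isLittleO (Asymptotics.isLittleO_norm_pow_id one_lt_two)
  exact hder.differentiableAt

/-- the operator of an invariant kernel -/
private theorem OpC_T {Γ : Subgroup SU11} (hc : IsCocpt Γ) {R : ℝ} (hR0 : 0 < R) (hR : R < 1)
    {k : 𝔻 → 𝔻 → ℂ} (hk : Continuous (fun p : 𝔻 × 𝔻 => k p.1 p.2))
    (hinv : ∀ (γ : Γ) (z w : 𝔻), k ((γ : SU11) • z) ((γ : SU11) • w) = k z w) {C : ℝ}
    (hC : 0 ≤ C) (hkC : ∀ z w : 𝔻, pd z w < R → ‖k z w‖ ≤ C) :
    ∃ T : EG Γ →L[ℂ] EG Γ, (∀ v z, ap (T v) z = AvF R (fun z w => k z w * ap v w) z) ∧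
      ‖T‖ ≤ C := by
  have hcont : ∀ v : EG Γ, Continuous (fun p : 𝔻 × 𝔻 => k p.1 p.2 * ap v p.2) := fun v =>
    hk.mul ((EG_continuous v).comp continuous_snd)
  have h1 : ∀ v : EG Γ, ∃ u : EG Γ, ∀ z, ap u z = AvF R (fun z w => k z w * ap v w) z := by
    intro v
    refine EG_exists_of hc (continuous_AvF hR (F := fun z w => k z w * ap v w) (hcont v)) ?_
    intro g hg z
    rw [AvF_smul]
    congr 1
    funext z w
    rw [hinv ⟨g, hg⟩ z w, EG_ap_smul v hg]
  choose u hu using h1
  let T0 : EG Γ →ₗ[ℂ] EG Γ :=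
    { toFun := u
      map_add' := by
        intro v w
        apply EG_ext
        intro z
        rw [EG_ap_add, hu, hu, hu, ← AvF_add hR (hcont v) (hcont w)]
        simp only [EG_ap_add, mul_add]
      map_smul' := by
        intro c v
        apply EG_ext
        intro z
        rw [RingHom.id_apply, EG_ap_smul_const, hu, hu, ← AvF_mul_left R (fun _ => c)]
        congr 1
        funext z w
        rw [EG_ap_smul_const]
        ring }
  have hT0 : ∀ v : EG Γ, ‖T0 v‖ ≤ C * ‖v‖ := by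
    intro v
    refine EG_norm_le _ (by positivity) fun z => ?_
    show ‖ap (u v) z‖ ≤ C * ‖v‖
    rw [hu]
    refine norm_AvF_le hR0 hR fun w hw => ?_
    rw [norm_mul]
    exact mul_le_mul (hkC z w hw) (EG_norm_ap_le v w) (norm_nonneg _) hC
  refine ⟨T0.mkContinuous C hT0, fun v z => ?_, LinearMap.mkContinuous_norm_le _ hC _⟩
  rw [LinearMap.mkContinuous_apply]
  exact hu v z

/-- the twisted operators `M^c v (z) = ⨍ exp(∑ c_j (b_j(w) - b_j(z))) v(w)` form a holomorphic
family of bounded operators on `EG Γ`.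
(For instance: with `C` from `IsB.bounded`, the operator
`M^{c}` is the composition of the bounded linear map from kernels (bounded continuous functions on
`{(z, w) : pd z w ≤ R}` resp. on `𝔻 × 𝔻` after a cut-off) with `exp` in a Banach algebra; or prove
`HasFDerivAt` directly from `|e^x - 1 - x| ≤ |x|^2 e^{|x|}`; or expand in a power series.) -/
theorem exists_Mc {Γ : Subgroup SU11} (hc : IsCocpt Γ) {n : ℕ} {X : Fin n → HomR Γ}
    {b : Fin n → 𝔻 → ℝ} (hb : IsB X b) {R : ℝ} (hR0 : 0 < R) (hR : R < 1) :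
    ∃ M : (Fin n → ℂ) → (EG Γ →L[ℂ] EG Γ), Differentiable ℂ M ∧
      ∀ c v z, ap (M c v) z = AvF R (fun z w => expF b c z w * ap v w) z := by
  obtain ⟨C, hC0, hC⟩ := hb.bounded hc hR
  have hcb1 : ∀ j, Continuous (fun p : 𝔻 × 𝔻 => ((b j p.2 : ℂ) - (b j p.1 : ℂ))) := fun j =>
    (Complex.continuous_ofReal.comp ((hb.cont j).comp continuous_snd)).sub
      (Complex.continuous_ofReal.comp ((hb.cont j).comp continuous_fst))
  have hlin : ∀ c : Fin n → ℂ, Continuous (fun p : 𝔻 × 𝔻 =>
      ∑ j, c j * ((b j p.2 : ℂ) - (b j p.1 : ℂ))) := fun c =>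
    continuous_finsetSum _ fun j _ => continuous_const.mul (hcb1 j)
  have hexp : ∀ c : Fin n → ℂ, Continuous (fun p : 𝔻 × 𝔻 => expF b c p.1 p.2) := fun c =>
    Complex.continuous_exp.comp (hlin c)
  have hbd1 : ∀ j (z w : 𝔻), pd z w < R → ‖((b j w : ℂ) - (b j z : ℂ))‖ ≤ C := by
    intro j z w h
    rw [← Complex.ofReal_sub, Complex.norm_real, Real.norm_eq_abs]
    exact hC j z w h
  have hbl : ∀ (c : Fin n → ℂ) (z w : 𝔻), pd z w < R →
      ‖∑ j, c j * ((b j w : ℂ) - (b j z : ℂ))‖ ≤ (n * C) * ‖c‖ := by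
    intro c z w h
    calc ‖∑ j, c j * ((b j w : ℂ) - (b j z : ℂ))‖ ≤ ∑ j : Fin n, ‖c‖ * C := by
          refine (norm_sum_le _ _).trans (Finset.sum_le_sum fun j _ => ?_)
          rw [norm_mul]
          exact mul_le_mul (norm_le_pi_norm c j) (hbd1 j z w h) (norm_nonneg _) (norm_nonneg _)
      _ = _ := by
          rw [Finset.sum_const, Finset.card_univ, Fintype.card_fin, nsmul_eq_mul]
          ring
  have hbe : ∀ (c : Fin n → ℂ) (z w : 𝔻), pd z w < R →
      ‖expF b c z w‖ ≤ Real.exp ((n * C) * ‖c‖) := by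
    intro c z w h
    unfold expF
    rw [Complex.norm_exp]
    exact Real.exp_le_exp.2 ((Complex.re_le_norm _).trans (hbl c z w h))
  have hdinv : ∀ j (γ : Γ) (z w : 𝔻), ((b j ((γ : SU11) • w) : ℂ) - (b j ((γ : SU11) • z) : ℂ)) =
      (b j w : ℂ) - (b j z : ℂ) := by
    intro j γ z w
    rw [hb.eq j γ z, hb.eq j γ w]
    push_cast
    ring
  have hM := fun c : Fin n → ℂ => OpC_T hc hR0 hR (hexp c) (fun γ z w => expF_smul hb c γ z w)
    (Real.exp_nonneg _) (hbe c)
  choose M hMap hMn using hM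
  have hN := fun (c : Fin n → ℂ) (j : Fin n) => OpC_T hc hR0 hR
    (k := fun z w => ((b j w : ℂ) - (b j z : ℂ)) * expF b c z w)
    ((hcb1 j).mul (hexp c))
    (fun γ z w => by rw [hdinv, expF_smul hb c γ z w])
    (C := C * Real.exp ((n * C) * ‖c‖)) (by positivity)
    (fun z w h => by
      rw [norm_mul]
      exact mul_le_mul (hbd1 j z w h) (hbe c z w h) (norm_nonneg _) hC0)
  choose N hNap hNn using hN
  refine ⟨M, ?_, hMap⟩
  intro c
  refine OpC_diff M (N c) c (Real.exp ((n * C) * ‖c‖) * (n * C) ^ 2) ?_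
  have hev : ∀ᶠ h : Fin n → ℂ in 𝓝 0, (n * C) * ‖h‖ < 1 := by
    have h1 : Tendsto (fun h : Fin n → ℂ => (n * C) * ‖h‖) (𝓝 0) (𝓝 0) := by
      have h2 : Continuous (fun h : Fin n → ℂ => (n * C) * ‖h‖) := by fun_prop
      have h3 := h2.tendsto 0
      simpa using h3
    exact h1.eventually (gt_mem_nhds one_pos)
  filter_upwards [hev] with h hh
  -- the kernel of the error
  have hE := OpC_T hc hR0 hR
    (k := fun z w => expF b c z w * (expF b h z w - 1 -
      ∑ j, h j * ((b j w : ℂ) - (b j z : ℂ))))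
    ((hexp c).mul (((hexp h).sub continuous_const).sub (hlin h)))
    (fun γ z w => by
      rw [expF_smul hb c γ z w, expF_smul hb h γ z w]
      simp only [hdinv])
    (C := Real.exp ((n * C) * ‖c‖) * ((n * C) * ‖h‖) ^ 2) (by positivity)
    (fun z w hzw => by
      rw [norm_mul]
      refine mul_le_mul (hbe c z w hzw) ?_ (norm_nonneg _) (Real.exp_nonneg _)
      have h1 := hbl h z w hzw
      have h2 : ‖∑ j, h j * ((b j w : ℂ) - (b j z : ℂ))‖ ≤ 1 := h1.trans hh.le
      exact (Complex.norm_exp_sub_one_sub_id_le h2).trans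
        (pow_le_pow_left₀ (norm_nonneg _) h1 2))
  obtain ⟨E, hEap, hEn⟩ := hE
  have hEq : M (c + h) - M c - ∑ j, h j • N c j = E := by
    apply ContinuousLinearMap.ext
    intro v
    apply EG_ext
    intro z
    have hv := EG_continuous v
    have hv2 : Continuous (fun p : 𝔻 × 𝔻 => ap v p.2) := hv.comp continuous_snd
    have hsum : ap ((∑ j, h j • N c j) v) z =
        AvF R (fun z w => ∑ j, h j * (((b j w : ℂ) - (b j z : ℂ)) * expF b c z w * ap v w))
          z := by
      rw [OpC_sum hR Finset.univ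
        (fun j z w => h j * (((b j w : ℂ) - (b j z : ℂ)) * expF b c z w * ap v w))
        (fun j => continuous_const.mul (((hcb1 j).mul (hexp c)).mul hv2))]
      rw [OpC_ap_sum]
      refine Finset.sum_congr rfl fun j _ => ?_
      rw [hNap, ← AvF_mul_left R (fun _ => h j)]
    rw [ContinuousLinearMap.sub_apply, ContinuousLinearMap.sub_apply, EG_ap_sub, EG_ap_sub,
      hMap, hMap, hsum, hEap,
      ← AvF_sub hR (F := fun z w => expF b (c + h) z w * ap v w)
        (G := fun z w => expF b c z w * ap v w) ((hexp _).mul hv2) ((hexp _).mul hv2),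
      ← AvF_sub hR (F := fun z w => expF b (c + h) z w * ap v w - expF b c z w * ap v w)
        (((hexp _).mul hv2).sub ((hexp _).mul hv2))
        (continuous_finsetSum _ fun j _ =>
          continuous_const.mul (((hcb1 j).mul (hexp c)).mul hv2))]
    congr 1
    funext z w
    have h4 : expF b (c + h) z w = expF b c z w * expF b h z w := by
      unfold expF
      rw [← Complex.exp_add, ← Finset.sum_add_distrib]
      congr 1
      exact Finset.sum_congr rfl fun j _ => by rw [Pi.add_apply]; ring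
    have h5 : ∑ j, h j * (((b j w : ℂ) - (b j z : ℂ)) * expF b c z w * ap v w) =
        (∑ j, h j * ((b j w : ℂ) - (b j z : ℂ))) * expF b c z w * ap v w := by
      rw [Finset.sum_mul, Finset.sum_mul]
      exact Finset.sum_congr rfl fun j _ => by ring
    rw [h4, h5]
    ring
  rw [hEq]
  refine hEn.trans (le_of_eq ?_)
  ring

end

end Pool.Agent.Lib.MP_b16327_pr
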