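import Pool.Agent.Lib.MP_b16327_pr.PairA

/-! # Dirichlet pairings -/

namespace Pool.Agent.Lib.MP_b16327_pr

open Complex MeasureTheory ComplexConjugate Filter
open scoped Complex.UnitDisc Topology BoundedContinuousFunction

noncomputable section

variable {Γ : Subgroup SU11}

/-- finite sums come out of the average -/
private theorem PairB_AvF_sum {R : ℝ} (hR : R < 1) {ι : Type*} (t : Finset ι) (a : ι → ℂ)
    (g : ι → 𝔻 → 𝔻 → ℂ) (hg : ∀ i, Continuous (fun p : 𝔻 × 𝔻 => g i p.1 p.2)) (z : 𝔻) :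
    AvF R (fun z w => ∑ i ∈ t, a i * g i z w) z = ∑ i ∈ t, a i * AvF R (g i) z := by
  classical
  induction t using Finset.induction_on with
  | empty =>
    unfold AvF
    simp
  | insert i t hi ih =>
    simp only [Finset.sum_insert hi]
    have h1 : Continuous (fun p : 𝔻 × 𝔻 => (fun z w => a i * g i z w) p.1 p.2) :=
      continuous_const.mul (hg i)
    have h2 : Continuous (fun p : 𝔻 × 𝔻 => (fun z w => ∑ i ∈ t, a i * g i z w) p.1 p.2) :=
      continuous_finsetSum _ fun j _ => continuous_const.mul (hg j)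
    rw [AvF_add hR (F := fun z w => a i * g i z w) (G := fun z w => ∑ i ∈ t, a i * g i z w) h1 h2 z,
      ih, AvF_mul_left R (fun _ => a i) (g i) z]

private theorem PairB_I_sum (P : PU Γ) {ι : Type*} (t : Finset ι) (a : ι → ℂ)
    (v : ι → 𝔻 → ℂ) (hv : ∀ i, Continuous (v i)) :
    P.I (fun z => ∑ i ∈ t, a i * v i z) = ∑ i ∈ t, a i * P.I (v i) := by
  classical
  induction t using Finset.induction_on with
  | empty =>
    simp only [Finset.sum_empty]
    exact P.I_const 0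
  | insert i t hi ih =>
    simp only [Finset.sum_insert hi]
    rw [P.I_add (v := fun z => a i * v i z) (w := fun z => ∑ i ∈ t, a i * v i z)
      (continuous_const.mul (hv i))
      (continuous_finsetSum _ fun j _ => continuous_const.mul (hv j)), ih, P.I_mul]

private theorem PairB_I_congr (P : PU Γ) {v v' : 𝔻 → ℂ} (h : ∀ z : 𝔻, ‖(z : ℂ)‖ ≤ P.r → v z = v' z) :
    P.I v = P.I v' := by
  unfold PU.I
  congr 1
  congr 1
  funext z
  by_cases hz : P.θ z = 0
  · rw [hz]; simp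
  · rw [h z (P.supp z hz)]

private theorem PairB_AvF_congr {R : ℝ} {F G : 𝔻 → 𝔻 → ℂ} {z : 𝔻}
    (h : ∀ w, pd z w < R → F z w = G z w) : AvF R F z = AvF R G z := by
  rw [AvF_kernel, AvF_kernel]
  congr 1
  have hm : MeasurableSet {w : 𝔻 | pd z w < R} := by
    have hc : Continuous fun w : 𝔻 => pd z w :=
      continuous_pd.comp (continuous_const.prodMk continuous_id)
    exact (isOpen_lt hc continuous_const).measurableSet
  exact setIntegral_congr_fun hm fun w hw => h w hw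

/-- the Dirichlet pairing of `b_a` (parameter `c`) and `b_{a'}` (parameter `-c`) is entire in `c`:
a finite sum `∑_{δ, δ'} exp(χ_c(δ) - χ_c(δ')) const` (`bco_finite` on a disc containing all `w` with
`pd z w < R`, `z ∈ supp θ`) -/
theorem exists_D0 (hd : IsDisc Γ) (P : PU Γ) {n : ℕ} (X : Fin n → HomR Γ) {R : ℝ}
    (hR0 : 0 < R) (hR : R < 1) (H H' : HypD Γ) (hH : Null H) (hH' : Null H') :
    ∃ D0 : (Fin n → ℂ) → ℂ, Differentiable ℂ D0 ∧ ∀ c, D0 c =
      P.I (AvF R (fun z w => (bc X H c w - bc X H c z) * (bc X H' (-c) w - bc X H' (-c) z))) := by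
  classical
  obtain ⟨r', hr', hnr⟩ := norm_le_of_pd_lt P.r_lt hR
  have hr1 : max r' P.r < 1 := max_lt hr' P.r_lt
  obtain ⟨F, hF⟩ := H.bco_finite hd hr1
  obtain ⟨F', hF'⟩ := H'.bco_finite hd hr1
  let G : Γ × Γ → 𝔻 → 𝔻 → ℂ := fun q z w =>
    (((H.s ((((q.1 : Γ) : SU11))⁻¹ • w) : ℝ) : ℂ) - ((H.s ((((q.1 : Γ) : SU11))⁻¹ • z) : ℝ) : ℂ)) *
    (((H'.s ((((q.2 : Γ) : SU11))⁻¹ • w) : ℝ) : ℂ) - ((H'.s ((((q.2 : Γ) : SU11))⁻¹ • z) : ℝ) : ℂ))
  have hGc : ∀ q, Continuous (fun p : 𝔻 × 𝔻 => G q p.1 p.2) := by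
    intro q
    have h1 : ∀ (K : HypD Γ) (δ : Γ), Continuous fun z : 𝔻 => ((K.s (((δ : SU11))⁻¹ • z) : ℝ) : ℂ) :=
      fun K δ => Complex.continuous_ofReal.comp (K.continuous_s.comp (continuous_smul_disc _))
    exact (((h1 H q.1).comp continuous_snd).sub ((h1 H q.1).comp continuous_fst)).mul
      (((h1 H' q.2).comp continuous_snd).sub ((h1 H' q.2).comp continuous_fst))
  refine ⟨fun c => ∑ q ∈ F ×ˢ F', (lc X c q.1 * lc X (-c) q.2) * P.I (AvF R (G q)), ?_, ?_⟩
  · refine Differentiable.fun_sum fun q _ => ?_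
    refine Differentiable.mul (Differentiable.mul ?_ ?_) (differentiable_const _)
    · unfold lc chi
      fun_prop
    · unfold lc chi
      fun_prop
  · intro c
    symm
    have hl := adm_lc X c hH
    have hl' := adm_lc X (-c) hH'
    have key : ∀ z : 𝔻, ‖(z : ℂ)‖ ≤ P.r →
        AvF R (fun z w => (bc X H c w - bc X H c z) * (bc X H' (-c) w - bc X H' (-c) z)) z =
        ∑ q ∈ F ×ˢ F', (lc X c q.1 * lc X (-c) q.2) * AvF R (G q) z := by
      intro z hz
      rw [← PairB_AvF_sum hR (F ×ˢ F') (fun q => lc X c q.1 * lc X (-c) q.2) G hGc z]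
      apply PairB_AvF_congr
      intro w hw
      have hw' : ‖(w : ℂ)‖ ≤ max r' P.r := (hnr z w hz hw).trans (le_max_left _ _)
      have hz' : ‖(z : ℂ)‖ ≤ max r' P.r := hz.trans (le_max_right _ _)
      have e1 : bc X H c w - bc X H c z = ∑ δ ∈ F, lc X c δ *
          (((H.s (((δ : SU11))⁻¹ • w) : ℝ) : ℂ) - ((H.s (((δ : SU11))⁻¹ • z) : ℝ) : ℂ)) := by
        show H.bco (lc X c) w - H.bco (lc X c) z = _
        rw [hF _ hl w hw', hF _ hl z hz', ← Finset.sum_sub_distrib]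
        refine Finset.sum_congr rfl fun δ _ => ?_
        ring
      have e2 : bc X H' (-c) w - bc X H' (-c) z = ∑ δ ∈ F', lc X (-c) δ *
          (((H'.s (((δ : SU11))⁻¹ • w) : ℝ) : ℂ) - ((H'.s (((δ : SU11))⁻¹ • z) : ℝ) : ℂ)) := by
        show H'.bco (lc X (-c)) w - H'.bco (lc X (-c)) z = _
        rw [hF' _ hl' w hw', hF' _ hl' z hz', ← Finset.sum_sub_distrib]
        refine Finset.sum_congr rfl fun δ _ => ?_
        ring
      rw [e1, e2, Finset.sum_mul_sum, Finset.sum_product]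
      refine Finset.sum_congr rfl fun δ _ => Finset.sum_congr rfl fun δ' _ => ?_
      show _ = lc X c δ * lc X (-c) δ' *
        ((((H.s (((δ : SU11))⁻¹ • w) : ℝ) : ℂ) - ((H.s (((δ : SU11))⁻¹ • z) : ℝ) : ℂ)) *
        (((H'.s (((δ' : SU11))⁻¹ • w) : ℝ) : ℂ) - ((H'.s (((δ' : SU11))⁻¹ • z) : ℝ) : ℂ)))
      ring
    rw [PairB_I_congr P key]
    exact PairB_I_sum P (F ×ˢ F') (fun q => lc X c q.1 * lc X (-c) q.2) (fun q => AvF R (G q))
      fun q => continuous_AvF hR (hGc q)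

/-- `b_a(w) - b_a(z)` for a unitary character: `b_a` is continuous with
`|b_a(γ z) - b_a(γ w)| = |b_a(z) - b_a(w)|` so coarse Lipschitz -/
theorem clip_bc (hd : IsDisc Γ) (hc : IsCocpt Γ) {n : ℕ} (X : Fin n → HomR Γ) (H : HypD Γ)
    (hH : Null H) {c : Fin n → ℂ} (hcre : ∀ j, (c j).re = 0) : CLip (bc X H c) := by
  have hl := adm_lc X c hH
  refine CLip_of_invariant hc (H.continuous_bco hd hl) ?_
  intro g hg z w
  have h1 := H.bco_smul hd hl ⟨g, hg⟩ z
  have h2 := H.bco_smul hd hl ⟨g, hg⟩ w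
  show ‖H.bco (lc X c) (g • z) - H.bco (lc X c) (g • w)‖ = ‖H.bco (lc X c) z - H.bco (lc X c) w‖
  have h3 : H.bco (lc X c) (g • z) - H.bco (lc X c) (g • w) =
      lc X c ⟨g, hg⟩ * (H.bco (lc X c) z - H.bco (lc X c) w) := by
    have e1 : H.bco (lc X c) (g • z) = _ := h1
    have e2 : H.bco (lc X c) (g • w) = _ := h2
    rw [e1, e2]
    ring
  rw [h3, norm_mul, norm_lc X hcre, one_mul]

/-- `I(AvF(Δp Δq)) = -2 I(p (M q - q))` for equivariant `p` and `q` with equivariant increments -/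
private theorem PairB_cross (hd : IsDisc Γ) (P : PU Γ) {R : ℝ} (hR0 : 0 < R) (hR : R < 1)
    {m m' : Γ → ℂ} (hm : ∀ γ, m γ * m' γ = 1) {p q : 𝔻 → ℂ} (hp : Continuous p)
    (hq : Continuous q) (hpe : ∀ (γ : Γ) (z : 𝔻), p ((γ : SU11) • z) = m γ * p z)
    (hqe : ∀ (γ : Γ) (z w : 𝔻), q ((γ : SU11) • z) - q ((γ : SU11) • w) = m' γ * (q z - q w)) :
    P.I (AvF R (fun z w => (p w - p z) * (q w - q z))) =
      -2 * P.I (fun z => p z * (Mop R q z - q z)) := by
  have hG : Continuous (fun x : 𝔻 × 𝔻 => (fun z w : 𝔻 => p w * (q w - q z)) x.1 x.2) :=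
    (hp.comp continuous_snd).mul ((hq.comp continuous_snd).sub (hq.comp continuous_fst))
  have hK : Continuous (fun x : 𝔻 × 𝔻 => (fun z w : 𝔻 => p z * (q w - q z)) x.1 x.2) :=
    (hp.comp continuous_fst).mul ((hq.comp continuous_snd).sub (hq.comp continuous_fst))
  have hK1 : Continuous (fun x : 𝔻 × 𝔻 => (fun z w : 𝔻 => (q w - q z)) x.1 x.2) :=
    (hq.comp continuous_snd).sub (hq.comp continuous_fst)
  have hAK : AvF R (fun z w : 𝔻 => p z * (q w - q z)) = fun z => p z * (Mop R q z - q z) := by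
    funext z
    rw [AvF_mul_left R p (fun z w => q w - q z) z]
    congr 1
    rw [AvF_sub hR (F := fun _ w : 𝔻 => q w) (G := fun z _ : 𝔻 => q z)
      (hq.comp continuous_snd) (hq.comp continuous_fst) z, AvF_const_left hR0 hR]
    rfl
  have hmt := PU.mtp hd P hR (fun z w : 𝔻 => p w * (q w - q z)) hG (by
    intro l hl z w
    have h1 := hpe ⟨l, hl⟩ w
    have h2 := hqe ⟨l, hl⟩ w z
    simp only at h1 h2
    rw [h1, h2]
    have h3 := hm ⟨l, hl⟩
    linear_combination (p w * (q w - q z)) * h3)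
  have hsw : AvF R (fun z w : 𝔻 => (fun z w : 𝔻 => p w * (q w - q z)) w z) =
      fun z => (-1 : ℂ) * AvF R (fun z w : 𝔻 => p z * (q w - q z)) z := by
    funext z
    rw [← AvF_mul_left R (fun _ => (-1 : ℂ)) (fun z w : 𝔻 => p z * (q w - q z)) z]
    congr 1
    funext z w
    ring
  have h1 : AvF R (fun z w => (p w - p z) * (q w - q z)) = fun z =>
      AvF R (fun z w : 𝔻 => p w * (q w - q z)) z - AvF R (fun z w : 𝔻 => p z * (q w - q z)) z := by
    funext z
    rw [← AvF_sub hR (F := fun z w : 𝔻 => p w * (q w - q z))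
      (G := fun z w : 𝔻 => p z * (q w - q z)) hG hK z]
    congr 1
    funext z w
    ring
  rw [h1, P.I_sub (continuous_AvF hR hG) (continuous_AvF hR hK), hmt, hsw, P.I_mul, hAK]
  ring

/-- Dirichlet pairing formula: for `u = b_a + f`, `u' = b_{a'} + f'` both `M`-harmonic with
`f, f'` continuous equivariant under `l`, `l'` (`l l' = 1`):
`I(M(u u') - u u') = I(AvF((Δb)(Δb'))) - 2 I((M b_a - b_a) f')`.
Proof: `M(uu') - uu' = AvF (Δu Δu')` (both harmonic); by `PU.mtp`,
`I(AvF(Δf Δu')) = -2 I(f (M u' - u')) = 0` and `I(AvF(Δb_a Δf')) = -2 I(f' (M b_a - b_a))`. -/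
theorem dirichlet (hd : IsDisc Γ) (P : PU Γ) {R : ℝ} (hR0 : 0 < R) (hR : R < 1)
    (H H' : HypD Γ) {l l' : Γ → ℂ} (hl : H.Adm l) (hl' : H'.Adm l') (hll : ∀ γ, l γ * l' γ = 1)
    {f f' : 𝔻 → ℂ} (hf : Continuous f) (hf' : Continuous f')
    (hfe : ∀ (γ : Γ) (z : 𝔻), f ((γ : SU11) • z) = l γ * f z)
    (hfe' : ∀ (γ : Γ) (z : 𝔻), f' ((γ : SU11) • z) = l' γ * f' z)
    (hu : ∀ z, Mop R (fun w => H.bco l w + f w) z = H.bco l z + f z)
    (hu' : ∀ z, Mop R (fun w => H'.bco l' w + f' w) z = H'.bco l' z + f' z) :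
    P.I (fun z => Mop R (fun w => (H.bco l w + f w) * (H'.bco l' w + f' w)) z
        - (H.bco l z + f z) * (H'.bco l' z + f' z)) =
      P.I (AvF R (fun z w => (H.bco l w - H.bco l z) * (H'.bco l' w - H'.bco l' z)))
        - 2 * P.I (fun z => (Mop R (H.bco l) z - H.bco l z) * f' z) := by
  have hb : Continuous (H.bco l) := H.continuous_bco hd hl
  have hb' : Continuous (H'.bco l') := H'.continuous_bco hd hl'
  have hbe : ∀ (γ : Γ) (z w : 𝔻), H.bco l ((γ : SU11) • z) - H.bco l ((γ : SU11) • w) =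
      l γ * (H.bco l z - H.bco l w) := by
    intro γ z w
    rw [H.bco_smul hd hl γ z, H.bco_smul hd hl γ w]
    ring
  have hbe' : ∀ (γ : Γ) (z w : 𝔻), H'.bco l' ((γ : SU11) • z) - H'.bco l' ((γ : SU11) • w) =
      l' γ * (H'.bco l' z - H'.bco l' w) := by
    intro γ z w
    rw [H'.bco_smul hd hl' γ z, H'.bco_smul hd hl' γ w]
    ring
  obtain ⟨b, hbdef⟩ : ∃ b, b = H.bco l := ⟨_, rfl⟩
  obtain ⟨b', hbdef'⟩ : ∃ b', b' = H'.bco l' := ⟨_, rfl⟩
  rw [← hbdef] at hb hbe ⊢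
  rw [← hbdef'] at hb' hbe' ⊢
  rw [← hbdef] at hu
  rw [← hbdef'] at hu'
  obtain ⟨u, hudef⟩ : ∃ u : 𝔻 → ℂ, u = fun w => b w + f w := ⟨_, rfl⟩
  obtain ⟨u', hudef'⟩ : ∃ u' : 𝔻 → ℂ, u' = fun w => b' w + f' w := ⟨_, rfl⟩
  have huc : Continuous u := by rw [hudef]; exact hb.add hf
  have huc' : Continuous u' := by rw [hudef']; exact hb'.add hf'
  have hMu : ∀ z, Mop R u z = u z := by
    intro z
    rw [hudef]
    exact hu z
  have hMu' : ∀ z, Mop R u' z = u' z := by
    intro z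
    rw [hudef']
    exact hu' z
  have hue' : ∀ (γ : Γ) (z w : 𝔻), u' ((γ : SU11) • z) - u' ((γ : SU11) • w) =
      l' γ * (u' z - u' w) := by
    intro γ z w
    rw [hudef']
    show (b' ((γ : SU11) • z) + f' ((γ : SU11) • z)) - (b' ((γ : SU11) • w) + f' ((γ : SU11) • w)) =
      l' γ * ((b' z + f' z) - (b' w + f' w))
    rw [hfe' γ z, hfe' γ w]
    linear_combination hbe' γ z w
  -- the left side is the average of the product of the increments
  have hc1 : ∀ v : 𝔻 → ℂ, Continuous v → Continuous (fun x : 𝔻 × 𝔻 => v x.2) :=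
    fun v hv => hv.comp continuous_snd
  have hc0 : ∀ v : 𝔻 → ℂ, Continuous v → Continuous (fun x : 𝔻 × 𝔻 => v x.1) :=
    fun v hv => hv.comp continuous_fst
  have hA : ∀ z, AvF R (fun z w => (u w - u z) * (u' w - u' z)) z =
      Mop R (fun w => u w * u' w) z - u z * u' z := by
    intro z
    have e1 : (fun z w : 𝔻 => (u w - u z) * (u' w - u' z)) = fun z w : 𝔻 =>
        (fun _ w : 𝔻 => u w * u' w) z w -
          (fun z w : 𝔻 => u z * (u' w - u' z) + u' z * u w) z w := by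
      funext z w
      ring
    rw [e1, AvF_sub hR (F := fun _ w : 𝔻 => u w * u' w)
      (G := fun z w : 𝔻 => u z * (u' w - u' z) + u' z * u w)
      ((hc1 u huc).mul (hc1 u' huc'))
      (((hc0 u huc).mul ((hc1 u' huc').sub (hc0 u' huc'))).add ((hc0 u' huc').mul (hc1 u huc))) z]
    have e2 : AvF R (fun z w : 𝔻 => u z * (u' w - u' z) + u' z * u w) z = u z * u' z := by
      rw [AvF_add hR (F := fun z w : 𝔻 => u z * (u' w - u' z)) (G := fun z w : 𝔻 => u' z * u w)
        ((hc0 u huc).mul ((hc1 u' huc').sub (hc0 u' huc'))) ((hc0 u' huc').mul (hc1 u huc)) z,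
        AvF_mul_left R u (fun z w => u' w - u' z) z, AvF_mul_left R u' (fun _ w => u w) z,
        AvF_sub hR (F := fun _ w : 𝔻 => u' w) (G := fun z _ : 𝔻 => u' z)
          (hc1 u' huc') (hc0 u' huc') z, AvF_const_left hR0 hR]
      have e3 : AvF R (fun _ w : 𝔻 => u' w) z = u' z := hMu' z
      have e4 : AvF R (fun _ w : 𝔻 => u w) z = u z := hMu z
      rw [e3, e4]
      ring
    rw [e2]
    rfl
  have hL : P.I (fun z => Mop R (fun w => (b w + f w) * (b' w + f' w)) z
        - (b z + f z) * (b' z + f' z)) = P.I (AvF R (fun z w => (u w - u z) * (u' w - u' z))) := by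
    congr 1
    funext z
    rw [hA z, hudef, hudef']
  rw [hL]
  -- split
  have hΔ : ∀ v : 𝔻 → ℂ, Continuous v → Continuous (fun x : 𝔻 × 𝔻 => v x.2 - v x.1) :=
    fun v hv => (hc1 v hv).sub (hc0 v hv)
  have hs : AvF R (fun z w => (u w - u z) * (u' w - u' z)) = fun z =>
      AvF R (fun z w => (f w - f z) * (u' w - u' z)) z +
        (AvF R (fun z w => (f' w - f' z) * (b w - b z)) z +
          AvF R (fun z w => (b w - b z) * (b' w - b' z)) z) := by
    funext z
    rw [← AvF_add hR (F := fun z w => (f' w - f' z) * (b w - b z))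
      (G := fun z w => (b w - b z) * (b' w - b' z)) ((hΔ f' hf').mul (hΔ b hb))
      ((hΔ b hb).mul (hΔ b' hb')) z,
      ← AvF_add hR (F := fun z w => (f w - f z) * (u' w - u' z))
      (G := fun z w => (f' w - f' z) * (b w - b z) + (b w - b z) * (b' w - b' z))
      ((hΔ f hf).mul (hΔ u' huc'))
      (((hΔ f' hf').mul (hΔ b hb)).add ((hΔ b hb).mul (hΔ b' hb'))) z]
    congr 1
    funext z w
    rw [hudef, hudef']
    ring
  have k1 := continuous_AvF hR (F := fun z w => (f w - f z) * (u' w - u' z))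
    ((hΔ f hf).mul (hΔ u' huc'))
  have k2 := continuous_AvF hR (F := fun z w => (f' w - f' z) * (b w - b z))
    ((hΔ f' hf').mul (hΔ b hb))
  have k3 := continuous_AvF hR (F := fun z w => (b w - b z) * (b' w - b' z))
    ((hΔ b hb).mul (hΔ b' hb'))
  rw [hs, P.I_add (w := fun z => AvF R (fun z w => (f' w - f' z) * (b w - b z)) z +
          AvF R (fun z w => (b w - b z) * (b' w - b' z)) z) k1 (k2.add k3), P.I_add k2 k3,
    PairB_cross hd P hR0 hR hll hf huc' hfe hue',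
    PairB_cross hd P hR0 hR (fun γ => by rw [mul_comm]; exact hll γ) hf' hb hfe' hbe]
  have e5 : P.I (fun z => f z * (Mop R u' z - u' z)) = 0 := by
    have : (fun z => f z * (Mop R u' z - u' z)) = fun _ => (0 : ℂ) := by
      funext z
      rw [hMu' z]
      ring
    rw [this]
    exact P.I_const 0
  have e6 : P.I (fun z => f' z * (Mop R b z - b z)) = P.I (fun z => (Mop R b z - b z) * f' z) := by
    congr 1
    funext z
    ring
  rw [e5, e6]
  ring

end

end Pool.Agent.Lib.MP_b16327_pr
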