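import Pool.Agent.Lib.MP_b16327_pr.SpecA
import Pool.Agent.Lib.MP_b16327_pr.OpC
import Pool.Agent.Lib.MP_b16327_pr.BordA

/-! # The spectral function -/

namespace Pool.Agent.Lib.MP_b16327_pr

open Complex MeasureTheory ComplexConjugate Filter
open scoped Complex.UnitDisc Topology BoundedContinuousFunction

noncomputable section

private theorem expF_neg {n : ℕ} (b : Fin n → 𝔻 → ℝ) (c : Fin n → ℂ) (z w : 𝔻) :
    expF b (-c) z w = expF b c w z := by
  unfold expF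
  congr 1
  refine Finset.sum_congr rfl (fun j _ => ?_)
  rw [Pi.neg_apply]
  ring

private theorem expF_zero {n : ℕ} (b : Fin n → 𝔻 → ℝ) (z w : 𝔻) :
    expF b 0 z w = 1 := by
  unfold expF
  simp

private theorem norm_expF_sub_one_le {n : ℕ} (b : Fin n → 𝔻 → ℝ) (c : Fin n → ℂ) (z w : 𝔻)
    {C δ : ℝ} (hC0 : 0 ≤ C) (hC : ∀ j, |b j w - b j z| ≤ C) (hc : ‖c‖ ≤ δ)
    (hδ : (n : ℝ) * (δ * C) ≤ 1 / 8) : ‖expF b c z w - 1‖ ≤ 1 / 4 := by
  have h1 : ‖∑ j, c j * ((b j w : ℂ) - (b j z : ℂ))‖ ≤ 1 / 8 := by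
    refine le_trans (norm_sum_le _ _) ?_
    have h2 : ∀ j ∈ (Finset.univ : Finset (Fin n)),
        ‖c j * ((b j w : ℂ) - (b j z : ℂ))‖ ≤ δ * C := by
      intro j _
      rw [norm_mul]
      have h3 : ‖c j‖ ≤ δ := le_trans (norm_le_pi_norm c j) hc
      have h4 : ‖((b j w : ℂ) - (b j z : ℂ))‖ ≤ C := by
        rw [← Complex.ofReal_sub, Complex.norm_real, Real.norm_eq_abs]
        exact hC j
      exact mul_le_mul h3 h4 (norm_nonneg _) (le_trans (norm_nonneg _) h3)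
    refine le_trans (Finset.sum_le_sum h2) ?_
    rw [Finset.sum_const, Finset.card_univ, Fintype.card_fin, nsmul_eq_mul]
    exact hδ
  have h5 : ‖Complex.exp (∑ j, c j * ((b j w : ℂ) - (b j z : ℂ))) - 1‖ ≤
      2 * ‖∑ j, c j * ((b j w : ℂ) - (b j z : ℂ))‖ := by
    apply Complex.norm_exp_sub_one_le
    linarith
  unfold expF
  linarith

/-- symmetry of the twisted operators (mass transport `PU.mtp` with
`F z w = expF b c z w * v w * w' z`) -/
theorem IG_symm {Γ : Subgroup SU11} (hd : IsDisc Γ) (P : PU Γ) {n : ℕ} {X : Fin n → HomR Γ}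
    {b : Fin n → 𝔻 → ℝ} (hb : IsB X b) {R : ℝ} (hR0 : 0 < R) (hR : R < 1)
    (M : (Fin n → ℂ) → (EG Γ →L[ℂ] EG Γ))
    (hM : ∀ c v z, ap (M c v) z = AvF R (fun z w => expF b c z w * ap v w) z)
    (c : Fin n → ℂ) (v w : EG Γ) : IG P (M c v * w) = IG P (v * M (-c) w) := by
  have hcont : Continuous (fun p : 𝔻 × 𝔻 => ap w p.1 * (expF b c p.1 p.2 * ap v p.2)) := by
    have h1 : Continuous (fun p : 𝔻 × 𝔻 => ap w p.1) := (EG_continuous w).comp continuous_fst
    have h2 : Continuous (fun p : 𝔻 × 𝔻 => ap v p.2) := (EG_continuous v).comp continuous_snd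
    have h3 : Continuous (fun p : 𝔻 × 𝔻 => expF b c p.1 p.2) := by
      unfold expF
      refine Complex.continuous_exp.comp (continuous_finsetSum _ (fun j _ => ?_))
      refine continuous_const.mul (Continuous.sub ?_ ?_)
      · exact Complex.continuous_ofReal.comp ((hb.cont j).comp continuous_snd)
      · exact Complex.continuous_ofReal.comp ((hb.cont j).comp continuous_fst)
    exact h1.mul (h3.mul h2)
  have hinv : ∀ l ∈ Γ, ∀ z x : 𝔻, ap w (l • z) * (expF b c (l • z) (l • x) * ap v (l • x)) =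
      ap w z * (expF b c z x * ap v x) := by
    intro l hl z x
    have h := expF_smul hb c ⟨l, hl⟩ z x
    simp only at h
    rw [EG_ap_smul w hl, EG_ap_smul v hl, h]
  have key := PU.mtp hd P hR (fun z x => ap w z * (expF b c z x * ap v x)) hcont hinv
  have e1 : ap (M c v * w) = AvF R (fun z x => ap w z * (expF b c z x * ap v x)) := by
    funext z
    rw [AvF_mul_left R (ap w) (fun z x => expF b c z x * ap v x) z, EG_ap_mul, hM, mul_comm]
  have e2 : ap (v * M (-c) w) = AvF R (fun z x => ap w x * (expF b c x z * ap v z)) := by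
    funext z
    rw [EG_ap_mul, hM, ← AvF_mul_left R (ap v) (fun z x => expF b (-c) z x * ap w x) z]
    congr 1
    funext z x
    rw [expF_neg]
    ring
  rw [IG_apply, IG_apply, e1, e2]
  exact key

/-- the spectral package -/
structure Spec (Γ : Subgroup SU11) (P : PU Γ) (n : ℕ) (X : Fin n → HomR Γ)
    (b : Fin n → 𝔻 → ℝ) (R : ℝ) where
  /-- the twisted operators -/
  M : (Fin n → ℂ) → (EG Γ →L[ℂ] EG Γ)
  /-- radius -/
  ρ : ℝ
  /-- the quasi-eigenfunction -/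
  φ : (Fin n → ℂ) → EG Γ
  /-- the spectral function -/
  E : (Fin n → ℂ) → ℂ
  /-- the reduced resolvent -/
  Rs : (Fin n → ℂ) → (EG Γ →L[ℂ] EG Γ)
  M_apply : ∀ c v z, ap (M c v) z = AvF R (fun z w => expF b c z w * ap v w) z
  ρ_pos : 0 < ρ
  φ_diff : DifferentiableOn ℂ φ (Metric.ball 0 ρ)
  E_diff : DifferentiableOn ℂ E (Metric.ball 0 ρ)
  Rs_diff : DifferentiableOn ℂ Rs (Metric.ball 0 ρ)
  φ_eq : ∀ c ∈ Metric.ball (0 : Fin n → ℂ) ρ, φ c - M c (φ c) = E c • (1 : EG Γ)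
  φ_I : ∀ c ∈ Metric.ball (0 : Fin n → ℂ) ρ, IG P (φ c) = 1
  E_neg : ∀ c ∈ Metric.ball (0 : Fin n → ℂ) ρ, E (-c) = E c
  Rs_eq : ∀ c ∈ Metric.ball (0 : Fin n → ℂ) ρ, ∀ g : EG Γ,
    Rs c g - M c (Rs c g) = g - IG P (g * φ (-c)) • (1 : EG Γ)
  Rs_I : ∀ c ∈ Metric.ball (0 : Fin n → ℂ) ρ, ∀ g : EG Γ, IG P (Rs c g) = 0
  uniq : ∀ c ∈ Metric.ball (0 : Fin n → ℂ) ρ, ∀ v : EG Γ, M c v = v →
    v = IG P v • φ c ∧ (E c ≠ 0 → v = 0)
  near : ∀ c ∈ Metric.ball (0 : Fin n → ℂ) ρ, ∀ z w : 𝔻, pd z w < R →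
    ‖expF b c z w * ap (φ c) w - 1‖ ≤ 1 / 2

/-- `E(-c) = E(c)`: `E(c) = I((φ_c - M^c φ_c) φ_{-c}) = I(φ_c (φ_{-c} - M^{-c} φ_{-c})) = E(-c)`;
`ε_c(g) = I(g φ_{-c})` in the same way.  `near`: continuity of `φ` at `0` and `IsB.bounded`; shrink
`ρ`. -/
theorem exists_spec {Γ : Subgroup SU11} (hd : IsDisc Γ) (hc : IsCocpt Γ) (P : PU Γ) {n : ℕ}
    (X : Fin n → HomR Γ) (b : Fin n → 𝔻 → ℝ) (hb : IsB X b) {R : ℝ} (hL : Large Γ R) :
    Nonempty (Spec Γ P n X b R) := by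
  have hR0 : 0 < R := hL.1
  have hR : R < 1 := hL.2.1
  obtain ⟨M, hMd, hM⟩ := exists_Mc hc hb hR0 hR
  have hM0 : ∀ v z, ap (M 0 v) z = Mop R (ap v) z := by
    intro v z
    rw [hM]
    simp only [expF_zero, one_mul]
    rfl
  obtain ⟨hI, S, hS⟩ := exists_S hd P hL (M 0) hM0
  have h1 : IG P (1 : EG Γ) = 1 := by
    rw [IG_apply]
    exact P.I_const 1
  have hM1 : M 0 (1 : EG Γ) = 1 := by
    refine EG_ext (fun z => ?_)
    rw [hM0]
    exact Mop_const hR0 hR (1 : ℂ) z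
  obtain ⟨ρ0, hρ0, φ, Ec, Rs, εs, hφ, hE, hRs, hφ0, H⟩ :=
    bordered M hMd (1 : EG Γ) (IG P) h1 hM1 hI S hS
  obtain ⟨C, hC0, hC⟩ := IsB.bounded hc hb hR
  -- continuity of φ at 0
  have hφc : ContinuousAt φ 0 :=
    (hφ.differentiableAt (Metric.ball_mem_nhds _ hρ0)).continuousAt
  obtain ⟨δ1, hδ1, hφ1⟩ := Metric.continuousAt_iff.1 hφc (1 / 8) (by norm_num)
  have hnC : 0 < (n : ℝ) * C + 1 := by positivity
  set δ : ℝ := 1 / (8 * ((n : ℝ) * C + 1)) with hδdef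
  have hδ : 0 < δ := by positivity
  have hδ2 : (n : ℝ) * (δ * C) ≤ 1 / 8 := by
    have e : (n : ℝ) * (δ * C) = ((n : ℝ) * C) * δ := by ring
    rw [e, hδdef, mul_one_div, div_le_div_iff₀ (by positivity) (by norm_num)]
    linarith
  set ρ : ℝ := min ρ0 (min δ1 δ) with hρdef
  have hρ : 0 < ρ := lt_min hρ0 (lt_min hδ1 hδ)
  have hsub : Metric.ball (0 : Fin n → ℂ) ρ ⊆ Metric.ball (0 : Fin n → ℂ) ρ0 :=
    Metric.ball_subset_ball (min_le_left _ _)
  have hneg : ∀ c ∈ Metric.ball (0 : Fin n → ℂ) ρ, -c ∈ Metric.ball (0 : Fin n → ℂ) ρ := by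
    intro c hc'
    rw [mem_ball_zero_iff] at hc' ⊢
    rwa [norm_neg]
  -- the two symmetric identities
  have hsym := fun (c : Fin n → ℂ) (v w : EG Γ) => IG_symm hd P hb hR0 hR M hM c v w
  have hsm : ∀ (t : ℂ) (v : EG Γ), IG P ((t • (1 : EG Γ)) * v) = t * IG P v := by
    intro t v
    rw [smul_mul_assoc, one_mul, map_smul, smul_eq_mul]
  have hms : ∀ (t : ℂ) (v : EG Γ), IG P (v * (t • (1 : EG Γ))) = t * IG P v := by
    intro t v
    rw [mul_smul_comm, mul_one, map_smul, smul_eq_mul]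
  have hadj : ∀ (c : Fin n → ℂ) (v w : EG Γ),
      IG P ((v - M c v) * w) = IG P (v * (w - M (-c) w)) := by
    intro c v w
    rw [sub_mul, mul_sub, map_sub, map_sub, hsym]
  have hEneg : ∀ c ∈ Metric.ball (0 : Fin n → ℂ) ρ, Ec (-c) = Ec c := by
    intro c hc'
    obtain ⟨a1, a2, -, -⟩ := H c (hsub hc')
    obtain ⟨b1, b2, -, -⟩ := H (-c) (hsub (hneg c hc'))
    have h := hadj c (φ c) (φ (-c))
    rw [a1, b1, hsm, hms, a2, b2, mul_one, mul_one] at h
    exact h.symm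
  refine ⟨{ M := M, ρ := ρ, φ := φ, E := Ec, Rs := Rs, M_apply := hM, ρ_pos := hρ,
            φ_diff := hφ.mono hsub, E_diff := hE.mono hsub, Rs_diff := hRs.mono hsub,
            φ_eq := fun c hc' => (H c (hsub hc')).1,
            φ_I := fun c hc' => (H c (hsub hc')).2.1,
            E_neg := hEneg,
            Rs_eq := ?_, Rs_I := fun c hc' g => ((H c (hsub hc')).2.2.1 g).2,
            uniq := ?_, near := ?_ }⟩
  · intro c hc' g
    obtain ⟨-, -, a3, -⟩ := H c (hsub hc')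
    obtain ⟨b1, b2, -, -⟩ := H (-c) (hsub (hneg c hc'))
    have h := hadj c (Rs c g) (φ (-c))
    rw [(a3 g).1, b1, hms, (a3 g).2, mul_zero, sub_mul, map_sub, hsm, b2, mul_one,
      sub_eq_zero] at h
    rw [(a3 g).1, ← h]
  · intro c hc' v hv
    obtain ⟨-, -, -, a4⟩ := H c (hsub hc')
    have h := a4 v 0 (by rw [hv, sub_self, zero_smul])
    refine ⟨h.1, fun hEc => ?_⟩
    have h2 : IG P v = 0 := by
      rcases mul_eq_zero.1 h.2.symm with h3 | h3
      · exact h3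
      · exact absurd h3 hEc
    rw [h.1, h2, zero_smul]
  · intro c hc' z w hzw
    have hcn : ‖c‖ < ρ := mem_ball_zero_iff.1 hc'
    have hc1 : ‖c‖ < δ1 := lt_of_lt_of_le hcn (le_trans (min_le_right _ _) (min_le_left _ _))
    have hc2 : ‖c‖ < δ := lt_of_lt_of_le hcn (le_trans (min_le_right _ _) (min_le_right _ _))
    have h3 : ‖φ c - 1‖ < 1 / 8 := by
      have h4 := hφ1 (x := c) (by rwa [dist_zero_right])
      rw [hφ0, dist_eq_norm] at h4
      exact h4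
    have h5 : ‖ap (φ c) w - 1‖ ≤ 1 / 8 := by
      have h6 := EG_norm_ap_le (φ c - 1) w
      rw [EG_ap_sub, EG_ap_one] at h6
      linarith
    have h7 : ‖expF b c z w - 1‖ ≤ 1 / 4 :=
      norm_expF_sub_one_le b c z w hC0 (fun j => hC j z w hzw) hc2.le hδ2
    have h8 : expF b c z w * ap (φ c) w - 1 =
        (expF b c z w - 1) * (ap (φ c) w - 1) + (expF b c z w - 1) + (ap (φ c) w - 1) := by
      ring
    rw [h8]
    refine le_trans (norm_add_le _ _) ?_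
    have h9 : ‖(expF b c z w - 1) * (ap (φ c) w - 1) + (expF b c z w - 1)‖ ≤
        1 / 4 * (1 / 8) + 1 / 4 := by
      refine le_trans (norm_add_le _ _) (add_le_add ?_ h7)
      rw [norm_mul]
      exact mul_le_mul h7 h5 (norm_nonneg _) (by norm_num)
    linarith

end

end Pool.Agent.Lib.MP_b16327_pr
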