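import Pool.Agent.Lib.MP_b16327_pr.PairB
import Pool.Agent.Lib.MP_b16327_pr.SpecB

/-! # The pair theorem -/

namespace Pool.Agent.Lib.MP_b16327_pr

open Complex MeasureTheory ComplexConjugate Filter
open scoped Complex.UnitDisc Topology BoundedContinuousFunction

noncomputable section

variable {Γ : Subgroup SU11}

private theorem pairc_gau_cancel {n : ℕ} (b : Fin n → 𝔻 → ℝ) (c : Fin n → ℂ) (z : 𝔻) :
    gau b c z * gau b (-c) z = 1 := by
  unfold gau
  rw [← Complex.exp_add]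
  have h : (∑ j, c j * (b j z : ℂ)) + ∑ j, (-c) j * (b j z : ℂ) = 0 := by
    rw [← Finset.sum_add_distrib]
    apply Finset.sum_eq_zero
    intro j _
    simp
  rw [h, Complex.exp_zero]

private theorem pairc_gau_cont {n : ℕ} {X : Fin n → HomR Γ} {b : Fin n → 𝔻 → ℝ} (hb : IsB X b)
    (c : Fin n → ℂ) : Continuous (gau b c) := by
  unfold gau
  apply Complex.continuous_exp.comp
  apply continuous_finsetSum
  intro j _
  exact continuous_const.mul (Complex.continuous_ofReal.comp (hb.cont j))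

/-- the harmonic correction -/
private theorem pairc_corr (hd : IsDisc Γ) {P : PU Γ} {n : ℕ} {X : Fin n → HomR Γ}
    {b : Fin n → 𝔻 → ℝ} (hb : IsB X b) {R : ℝ} (hR : R < 1) (S : Spec Γ P n X b R)
    (H : HypD Γ) (hH : Null H) (c : Fin n → ℂ) (g v : EG Γ)
    (hg : ∀ z, ap g z = gau b (-c) z * (Mop R (bc X H c) z - bc X H c z))
    (hv : v - S.M c v = g) :
    Continuous (fun z => gau b c z * ap v z) ∧
    (∀ (γ : Γ) (z : 𝔻), gau b c ((γ : SU11) • z) * ap v ((γ : SU11) • z) =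
      lc X c γ * (gau b c z * ap v z)) ∧
    (∀ z, Mop R (fun w => bc X H c w + gau b c w * ap v w) z = bc X H c z + gau b c z * ap v z) := by
  have hcb : Continuous (bc X H c) := H.continuous_bco hd (adm_lc X c hH)
  have hcf : Continuous (fun z => gau b c z * ap v z) := (pairc_gau_cont hb c).mul (EG_continuous v)
  refine ⟨hcf, ?_, ?_⟩
  · intro γ z
    rw [gau_smul hb, EG_ap_smul v γ.2]
    unfold lc
    ring
  · intro z
    rw [Mop_add hR hcb hcf, Mop_gau]
    have h1 : ap v z - ap (S.M c v) z = ap g z := by rw [← EG_ap_sub, hv]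
    rw [← S.M_apply]
    have h2 : ap (S.M c v) z = ap v z - ap g z := by rw [← h1]; ring
    rw [h2, hg z]
    have h3 := pairc_gau_cancel b c z
    linear_combination (-(Mop R (bc X H c) z - bc X H c z)) * h3

/-- differences are equivariant -/
private theorem pairc_clip (hc : IsCocpt Γ) {n : ℕ} {X : Fin n → HomR Γ}
    {c : Fin n → ℂ} (hcre : ∀ j, (c j).re = 0) {u : 𝔻 → ℂ} (hu : Continuous u) (β : Γ → ℂ)
    (h : ∀ (γ : Γ) (z : 𝔻), u ((γ : SU11) • z) = lc X c γ * u z + β γ) : CLip u := by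
  apply CLip_of_invariant hc hu
  intro g hg z w
  have h1 := h ⟨g, hg⟩ z
  have h2 := h ⟨g, hg⟩ w
  simp only at h1 h2
  rw [h1, h2]
  have h3 : lc X c ⟨g, hg⟩ * u z + β ⟨g, hg⟩ - (lc X c ⟨g, hg⟩ * u w + β ⟨g, hg⟩) =
      lc X c ⟨g, hg⟩ * (u z - u w) := by ring
  rw [h3, norm_mul, norm_lc X hcre, one_mul]

private theorem pairc_bdd (hc : IsCocpt Γ) {n : ℕ} {X : Fin n → HomR Γ}
    {c : Fin n → ℂ} (hcre : ∀ j, (c j).re = 0) {f : 𝔻 → ℂ} (hf : Continuous f)
    (h : ∀ (γ : Γ) (z : 𝔻), f ((γ : SU11) • z) = lc X c γ * f z) : ∃ C : ℝ, ∀ z, ‖f z‖ ≤ C := by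
  apply bounded_of_invariant hc hf
  intro g hg z
  have h1 := h ⟨g, hg⟩ z
  simp only at h1
  rw [h1, norm_mul, norm_lc X hcre, one_mul]

/-- the increment of the product is invariant -/
private theorem pairc_inv {R : ℝ} (hR0 : 0 < R) (hR : R < 1) {u u' : 𝔻 → ℂ} (hu : Continuous u)
    (hu' : Continuous u') {l l' : Γ → ℂ} (hll : ∀ γ, l γ * l' γ = 1) (β β' : Γ → ℂ)
    (h : ∀ (γ : Γ) (z : 𝔻), u ((γ : SU11) • z) = l γ * u z + β γ)
    (h' : ∀ (γ : Γ) (z : 𝔻), u' ((γ : SU11) • z) = l' γ * u' z + β' γ)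
    (hM : ∀ z, Mop R u z = u z) (hM' : ∀ z, Mop R u' z = u' z) (γ : Γ) (z : 𝔻) :
    Mop R (fun w => u w * u' w) ((γ : SU11) • z) - u ((γ : SU11) • z) * u' ((γ : SU11) • z) =
      Mop R (fun w => u w * u' w) z - u z * u' z := by
  rw [Mop_smul]
  have e1 : (fun w : 𝔻 => u ((γ : SU11) • w) * u' ((γ : SU11) • w)) =
      fun w => u w * u' w + ((l γ * β' γ) * u w + ((l' γ * β γ) * u' w + β γ * β' γ)) := by
    funext w
    rw [h, h']
    linear_combination (u w * u' w) * hll γ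
  have e2 := Mop_add hR (u := fun w => u w * u' w)
    (v := fun w => (l γ * β' γ) * u w + ((l' γ * β γ) * u' w + β γ * β' γ))
    (hu.mul hu') (by fun_prop) z
  have e3 := Mop_add hR (u := fun w => (l γ * β' γ) * u w)
    (v := fun w => (l' γ * β γ) * u' w + β γ * β' γ) (by fun_prop) (by fun_prop) z
  have e4 := Mop_add hR (u := fun w => (l' γ * β γ) * u' w)
    (v := fun _ => β γ * β' γ) (by fun_prop) (by fun_prop) z
  rw [Mop_mul_left, Mop_const hR0 hR, hM'] at e4
  rw [Mop_mul_left, hM, e4] at e3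
  rw [e3] at e2
  rw [e1, e2, h, h']
  linear_combination (-(u z * u' z)) * hll γ

private theorem pairc_ball {n : ℕ} {ρ : ℝ} {c : Fin n → ℂ} (h : c ∈ Metric.ball (0 : Fin n → ℂ) ρ) :
    -c ∈ Metric.ball (0 : Fin n → ℂ) ρ := by
  rw [mem_ball_zero_iff] at h ⊢
  rwa [norm_neg]

/-- THE PAIR THEOREM -/
theorem exists_EB (hd : IsDisc Γ) (hc : IsCocpt Γ) (P : PU Γ) {n : ℕ} (X : Fin n → HomR Γ)
    (b : Fin n → 𝔻 → ℝ) (hb : IsB X b) {R : ℝ} (hL : Large Γ R) (S : Spec Γ P n X b R)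
    (H H' : HypD Γ) (hH : Null H) (hH' : Null H') :
    ∃ EB : (Fin n → ℂ) → ℂ, DifferentiableOn ℂ EB (Metric.ball 0 S.ρ) ∧
      (∀ c ∈ Metric.ball (0 : Fin n → ℂ) S.ρ, S.E c = 0 →
        EB c = -2 * P.I (fun z => (Mop R (bc X H c) z - bc X H c z) *
            (gau b (-c) z * ap (S.φ (-c)) z)) *
          P.I (fun z => (Mop R (bc X H' (-c)) z - bc X H' (-c) z) *
            (gau b c z * ap (S.φ c) z))) ∧
      (∀ c ∈ Metric.ball (0 : Fin n → ℂ) S.ρ, (∀ j, (c j).re = 0) → S.E c ≠ 0 →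
        ∃ u u' κ : 𝔻 → ℂ, Continuous u ∧ Continuous u' ∧ Continuous κ ∧ CLip u ∧ CLip u' ∧
          (∃ C : ℝ, ∀ z, ‖κ z‖ ≤ C) ∧ (∀ z, Mop R u z = u z) ∧ (∀ z, Mop R u' z = u' z) ∧
          (∀ z, Mop R (fun w => u w * u' w + κ w) z - (u z * u' z + κ z) = EB c / S.E c) ∧
          (∃ C : ℝ, ∀ z, ‖u z - bc X H c z‖ ≤ C) ∧
          (∃ C : ℝ, ∀ z, ‖u' z - bc X H' (-c) z‖ ≤ C)) := by
  have hR0 : 0 < R := hL.1
  have hR : R < 1 := hL.2.1
  obtain ⟨g, hgd, hg⟩ := exists_gc hd hc hb hR0 hR H hH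
  obtain ⟨g', hgd', hg'⟩ := exists_gc hd hc hb hR0 hR H' hH'
  obtain ⟨D0, hD0d, hD0⟩ := exists_D0 hd P X hR0 hR H H' hH hH'
  refine ⟨fun c => S.E c * (D0 c - 2 * IG P (g c * S.Rs (-c) (g' (-c)))) -
    2 * IG P (g c * S.φ (-c)) * IG P (g' (-c) * S.φ c), ?_, ?_, ?_⟩
  · -- holomorphy
    have hneg0 : Differentiable ℂ (fun c : Fin n → ℂ => -c) := by fun_prop
    have hneg : DifferentiableOn ℂ (fun c : Fin n → ℂ => -c) (Metric.ball 0 S.ρ) :=
      hneg0.differentiableOn
    have hmaps : Set.MapsTo (fun c : Fin n → ℂ => -c) (Metric.ball 0 S.ρ) (Metric.ball 0 S.ρ) :=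
      fun c hc' => pairc_ball hc'
    have hφn : DifferentiableOn ℂ (fun c => S.φ (-c)) (Metric.ball 0 S.ρ) :=
      S.φ_diff.comp hneg hmaps
    have hRn : DifferentiableOn ℂ (fun c => S.Rs (-c)) (Metric.ball 0 S.ρ) :=
      DifferentiableOn.comp (G := (EG Γ →L[ℂ] EG Γ)) (g := S.Rs) (t := Metric.ball 0 S.ρ)
        S.Rs_diff hneg hmaps
    have hgn : DifferentiableOn ℂ (fun c => g' (-c)) (Metric.ball 0 S.ρ) :=
      (hgd'.comp hneg0).differentiableOn
    have h1 : DifferentiableOn ℂ (fun c => S.Rs (-c) (g' (-c))) (Metric.ball 0 S.ρ) :=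
      hRn.clm_apply hgn
    have h2 : DifferentiableOn ℂ (fun c => IG P (g c * S.Rs (-c) (g' (-c)))) (Metric.ball 0 S.ρ) :=
      (IG P).differentiable.comp_differentiableOn (hgd.differentiableOn.mul h1)
    have h3 : DifferentiableOn ℂ (fun c => IG P (g c * S.φ (-c))) (Metric.ball 0 S.ρ) :=
      (IG P).differentiable.comp_differentiableOn (hgd.differentiableOn.mul hφn)
    have h4 : DifferentiableOn ℂ (fun c => IG P (g' (-c) * S.φ c)) (Metric.ball 0 S.ρ) :=
      (IG P).differentiable.comp_differentiableOn (hgn.mul S.φ_diff)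
    exact (S.E_diff.mul (hD0d.differentiableOn.sub (h2.const_mul 2))).sub ((h3.const_mul 2).mul h4)
  · -- zeros of `E`
    intro c _ hE
    have e1 : IG P (g c * S.φ (-c)) = P.I (fun z => (Mop R (bc X H c) z - bc X H c z) *
            (gau b (-c) z * ap (S.φ (-c)) z)) := by
      rw [IG_apply]
      congr 1
      funext z
      rw [EG_ap_mul, hg]
      ring
    have e2 : IG P (g' (-c) * S.φ c) = P.I (fun z => (Mop R (bc X H' (-c)) z - bc X H' (-c) z) *
            (gau b c z * ap (S.φ c) z)) := by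
      rw [IG_apply]
      congr 1
      funext z
      rw [EG_ap_mul, hg', neg_neg]
      ring
    simp only [hE, e1, e2]
    ring
  · intro c hcb hcre hE
    have hcb' := pairc_ball hcb
    have hcre' : ∀ j, ((-c) j).re = 0 := by
      intro j
      simp [hcre j]
    have hE' : S.E (-c) = S.E c := S.E_neg c hcb
    -- the corrections
    obtain ⟨v, hv⟩ : ∃ v : EG Γ, v = S.Rs c (g c) + (IG P (g c * S.φ (-c)) / S.E c) • S.φ c :=
      ⟨_, rfl⟩
    obtain ⟨v', hv'⟩ : ∃ v' : EG Γ, v' = S.Rs (-c) (g' (-c)) +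
        (IG P (g' (-c) * S.φ c) / S.E c) • S.φ (-c) := ⟨_, rfl⟩
    have hvM : v - S.M c v = g c := by
      have h1 := S.Rs_eq c hcb (g c)
      have h2 := S.φ_eq c hcb
      rw [hv, map_add, map_smul]
      have h3 : S.Rs c (g c) + (IG P (g c * S.φ (-c)) / S.E c) • S.φ c -
          (S.M c (S.Rs c (g c)) + (IG P (g c * S.φ (-c)) / S.E c) • S.M c (S.φ c)) =
          (S.Rs c (g c) - S.M c (S.Rs c (g c))) +
            (IG P (g c * S.φ (-c)) / S.E c) • (S.φ c - S.M c (S.φ c)) := by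
        rw [smul_sub]; abel
      rw [h3, h1, h2, smul_smul, div_mul_cancel₀ _ hE]
      abel
    have hvM' : v' - S.M (-c) v' = g' (-c) := by
      have h1 := S.Rs_eq (-c) hcb' (g' (-c))
      have h2 := S.φ_eq (-c) hcb'
      rw [neg_neg] at h1
      rw [hE'] at h2
      rw [hv', map_add, map_smul]
      have h3 : S.Rs (-c) (g' (-c)) + (IG P (g' (-c) * S.φ c) / S.E c) • S.φ (-c) -
          (S.M (-c) (S.Rs (-c) (g' (-c))) +
            (IG P (g' (-c) * S.φ c) / S.E c) • S.M (-c) (S.φ (-c))) =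
          (S.Rs (-c) (g' (-c)) - S.M (-c) (S.Rs (-c) (g' (-c)))) +
            (IG P (g' (-c) * S.φ c) / S.E c) • (S.φ (-c) - S.M (-c) (S.φ (-c))) := by
        rw [smul_sub]; abel
      rw [h3, h1, h2, smul_smul, div_mul_cancel₀ _ hE]
      abel
    obtain ⟨hfc, hfe, hfM⟩ := pairc_corr hd hb hR S H hH c (g c) v (hg c) hvM
    obtain ⟨hfc', hfe', hfM'⟩ := pairc_corr hd hb hR S H' hH' (-c) (g' (-c)) v' (hg' (-c)) hvM'
    have hbcont : Continuous (bc X H c) := H.continuous_bco hd (adm_lc X c hH)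
    have hbcont' : Continuous (bc X H' (-c)) := H'.continuous_bco hd (adm_lc X (-c) hH')
    obtain ⟨u, hu⟩ : ∃ u : 𝔻 → ℂ, u = fun w => bc X H c w + gau b c w * ap v w := ⟨_, rfl⟩
    obtain ⟨u', hu'⟩ : ∃ u' : 𝔻 → ℂ, u' = fun w => bc X H' (-c) w + gau b (-c) w * ap v' w :=
      ⟨_, rfl⟩
    have huc : Continuous u := by rw [hu]; exact hbcont.add hfc
    have huc' : Continuous u' := by rw [hu']; exact hbcont'.add hfc'
    have huM : ∀ z, Mop R u z = u z := by
      intro z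
      rw [hu]
      exact hfM z
    have huM' : ∀ z, Mop R u' z = u' z := by
      intro z
      rw [hu']
      exact hfM' z
    have hue : ∀ (γ : Γ) (z : 𝔻), u ((γ : SU11) • z) =
        lc X c γ * u z + bc X H c ((γ : SU11) • (0 : 𝔻)) := by
      intro γ z
      rw [hu]
      simp only
      rw [hfe γ z]
      have h1 : bc X H c ((γ : SU11) • z) = lc X c γ * bc X H c z + bc X H c ((γ : SU11) • (0 : 𝔻)) :=
        H.bco_smul hd (adm_lc X c hH) γ z
      rw [h1]
      ring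
    have hue' : ∀ (γ : Γ) (z : 𝔻), u' ((γ : SU11) • z) =
        lc X (-c) γ * u' z + bc X H' (-c) ((γ : SU11) • (0 : 𝔻)) := by
      intro γ z
      rw [hu']
      simp only
      rw [hfe' γ z]
      have h1 : bc X H' (-c) ((γ : SU11) • z) =
          lc X (-c) γ * bc X H' (-c) z + bc X H' (-c) ((γ : SU11) • (0 : 𝔻)) :=
        H'.bco_smul hd (adm_lc X (-c) hH') γ z
      rw [h1]
      ring
    have hinv := pairc_inv hR0 hR huc huc' (lc_neg X c) _ _ hue hue' huM huM'
    -- the increment as an element of `EG`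
    obtain ⟨d, hdd⟩ := EG_exists_of hc (u := fun z => Mop R (fun w => u w * u' w) z - u z * u' z)
      ((continuous_Mop hR (huc.mul huc')).sub (huc.mul huc'))
      (fun γ hγ z => hinv ⟨γ, hγ⟩ z)
    -- its mean
    have hmean : IG P d = (S.E c * (D0 c - 2 * IG P (g c * S.Rs (-c) (g' (-c)))) -
        2 * IG P (g c * S.φ (-c)) * IG P (g' (-c) * S.φ c)) / S.E c := by
      rw [IG_apply]
      have h1 : ap d = fun z => Mop R (fun w => u w * u' w) z - u z * u' z := funext hdd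
      rw [h1, hu, hu']
      have h2 := dirichlet hd P hR0 hR H H' (adm_lc X c hH) (adm_lc X (-c) hH') (lc_neg X c)
        hfc hfc' hfe hfe' hfM hfM'
      have h3 : P.I (fun z => Mop R (fun w => (bc X H c w + gau b c w * ap v w) *
          (bc X H' (-c) w + gau b (-c) w * ap v' w)) z -
          (bc X H c z + gau b c z * ap v z) * (bc X H' (-c) z + gau b (-c) z * ap v' z)) =
          D0 c - 2 * P.I (fun z => (Mop R (bc X H c) z - bc X H c z) * (gau b (-c) z * ap v' z)) := by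
        rw [hD0 c]
        exact h2
      refine h3.trans ?_
      have h4 : P.I (fun z => (Mop R (bc X H c) z - bc X H c z) * (gau b (-c) z * ap v' z)) =
          IG P (g c * v') := by
        rw [IG_apply]
        congr 1
        funext z
        rw [EG_ap_mul, hg]
        ring
      have h5 : IG P (g c * v') = IG P (g c * S.Rs (-c) (g' (-c))) +
          IG P (g' (-c) * S.φ c) / S.E c * IG P (g c * S.φ (-c)) := by
        rw [hv', mul_add, map_add, mul_smul_comm, map_smul, smul_eq_mul]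
      rw [h4, h5]
      field_simp
      ring
    -- the correction `κ`
    have hM0 : ∀ (w : EG Γ) (z : 𝔻), ap (S.M 0 w) z = Mop R (ap w) z := by
      intro w z
      rw [S.M_apply]
      have h1 : (fun z x => expF b 0 z x * ap w x) = fun (_ : 𝔻) x => ap w x := by
        funext z x
        unfold expF
        simp
      rw [h1]
      rfl
    obtain ⟨_, T, hT⟩ := exists_S hd P hL (S.M 0) hM0
    obtain ⟨B, hB⟩ : ∃ B : ℂ, B = (S.E c * (D0 c - 2 * IG P (g c * S.Rs (-c) (g' (-c)))) -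
        2 * IG P (g c * S.φ (-c)) * IG P (g' (-c) * S.φ c)) / S.E c := ⟨_, rfl⟩
    have hI1 : IG P (1 : EG Γ) = 1 := by
      rw [IG_apply]
      have h1 : ap (1 : EG Γ) = fun _ => (1 : ℂ) := funext fun z => EG_ap_one z
      rw [h1, P.I_const]
    have hI0 : IG P (d - B • (1 : EG Γ)) = 0 := by
      rw [map_sub, map_smul, hI1, hmean, ← hB, smul_eq_mul, mul_one, sub_self]
    obtain ⟨_, hT2, _⟩ := hT _ hI0
    refine ⟨u, u', ap (T (d - B • (1 : EG Γ))), huc, huc', EG_continuous _,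
      pairc_clip hc hcre huc _ hue, pairc_clip hc hcre' huc' _ hue',
      ⟨_, fun z => EG_norm_ap_le _ z⟩, huM, huM', ?_, ?_, ?_⟩
    · intro z
      have e2 := Mop_add hR (u := fun w => u w * u' w) (v := ap (T (d - B • (1 : EG Γ))))
        (huc.mul huc') (EG_continuous _) z
      rw [e2, ← hM0]
      have h1 := congrArg (fun w => ap w z) hT2
      simp only [EG_ap_sub, EG_ap_smul_const, EG_ap_one, hdd] at h1
      simp only
      rw [← hB]
      linear_combination (-1 : ℂ) * h1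
    · obtain ⟨C, hC⟩ := pairc_bdd hc hcre hfc hfe
      refine ⟨C, fun z => ?_⟩
      have h1 : u z - bc X H c z = gau b c z * ap v z := by rw [hu]; ring
      rw [h1]
      exact hC z
    · obtain ⟨C, hC⟩ := pairc_bdd hc hcre' hfc' hfe'
      refine ⟨C, fun z => ?_⟩
      have h1 : u' z - bc X H' (-c) z = gau b (-c) z * ap v' z := by rw [hu']; ring
      rw [h1]
      exact hC z

end

end Pool.Agent.Lib.MP_b16327_pr
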