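import Pool.Agent.Lib.MP_b16327_pr.GreenC
import Pool.Agent.Lib.MP_b16327_pr.Lip

/-! # Moments on circles -/

namespace Pool.Agent.Lib.MP_b16327_pr

open Complex MeasureTheory ComplexConjugate Filter
open scoped Complex.UnitDisc Topology BoundedContinuousFunction

noncomputable section

private theorem PoisA_norm_rot (ξ : Circle) (x : 𝔻) : ‖((ξ • x : 𝔻) : ℂ)‖ = ‖(x : ℂ)‖ := by
  have h : ((ξ • x : 𝔻) : ℂ) = (ξ : ℂ) * (x : ℂ) := rfl
  rw [h, norm_mul, Circle.norm_coe, one_mul]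

private theorem PoisA_dL_rot (ξ : Circle) (x : 𝔻) : dL (ξ • x) 0 = dL x 0 := by
  rw [dL_zero, dL_zero, PoisA_norm_rot]

private theorem PoisA_rot_zero (ξ : Circle) : ξ • (0 : 𝔻) = 0 := by
  apply UnitDisc.coe_injective
  have h : ((ξ • (0 : 𝔻) : 𝔻) : ℂ) = (ξ : ℂ) * ((0 : 𝔻) : ℂ) := rfl
  rw [h]
  simp

private theorem PoisA_int_circ {F : 𝔻 → ℝ} (hF : Continuous F) (x : 𝔻) :
    Integrable (fun ξ : Circle => F (ξ • x)) lam := by
  have h1 : Continuous (fun ξ : Circle => F (ξ • x)) :=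
    hF.comp (continuous_rot_smul.comp (continuous_id.prodMk continuous_const))
  exact h1.integrable_of_hasCompactSupport (HasCompactSupport.of_compactSpace _)

private theorem PoisA_int_gk {x : 𝔻} (hx : x ≠ 0) {F : 𝔻 → ℝ} (hF : Continuous F) :
    Integrable (fun w : 𝔻 => gk ‖(x : ℂ)‖ ‖(w : ℂ)‖ * F w) area := by
  have h1 := (integrable_gk hx (u := fun w => ((F w : ℝ) : ℂ))
    (Complex.continuous_ofReal.comp hF)).re
  refine h1.congr (Filter.Eventually.of_forall fun w => ?_)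
  simp

private theorem PoisA_gk_nonneg (ρ t : ℝ) : 0 ≤ gk ρ t := le_max_left _ _

private theorem PoisA_gk_zero {x w : 𝔻} (hx : x ≠ 0) (h : ‖(x : ℂ)‖ ≤ ‖(w : ℂ)‖) :
    gk ‖(x : ℂ)‖ ‖(w : ℂ)‖ = 0 := by
  unfold gk
  have hx0 : 0 < ‖(x : ℂ)‖ := by
    rw [norm_pos_iff]
    intro h0
    exact hx (UnitDisc.coe_injective (by simpa using h0))
  have := Real.log_le_log hx0 h
  exact max_eq_left (by linarith)

private theorem PoisA_dL_close {R : ℝ} (hR0 : 0 < R) (hR : R < 1) {z w : 𝔻} (h : pd z w < R) :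
    dL z w ≤ -Real.log (1 - R ^ 2) := by
  rw [dL_eq_pd]
  have h0 := pd_nonneg z w
  have h1 : pd z w ^ 2 ≤ R ^ 2 := pow_le_pow_left₀ h0 h.le 2
  have h2 : R ^ 2 < 1 := by nlinarith
  have := Real.log_le_log (show 0 < 1 - R ^ 2 by linarith) (show 1 - R ^ 2 ≤ 1 - pd z w ^ 2 by linarith)
  linarith

private theorem PoisA_log_nonneg {R : ℝ} (hR0 : 0 < R) (hR : R < 1) :
    0 ≤ -Real.log (1 - R ^ 2) := by
  have h2 : R ^ 2 < 1 := by nlinarith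
  have := Real.log_nonpos (show 0 ≤ 1 - R ^ 2 by linarith) (by nlinarith)
  linarith

private theorem PoisA_cont_dL : Continuous (fun w : 𝔻 => dL w 0) := by
  have h : Continuous (fun w : 𝔻 => ((w, (0 : 𝔻)) : 𝔻 × 𝔻)) := Continuous.prodMk_left (0 : 𝔻)
  have h2 := continuous_dL.comp h
  simp only [Function.comp_def] at h2
  exact h2

/-- `∫ gk |x| |w| dA(w) ≤ C (1 + dL x 0)`: apply `green_identity_real` to `u = dL · 0`
(`Mop_dL`, `ellR_pos`, `norm_Gm_sub_le`) -/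
theorem integral_gk_le {R : ℝ} (hR0 : 0 < R) (hR : R < 1) : ∃ C : ℝ, 0 ≤ C ∧ ∀ x : 𝔻, x ≠ 0 →
    ∫ w : 𝔻, gk ‖(x : ℂ)‖ ‖(w : ℂ)‖ ∂area ≤ C * (1 + dL x 0) := by
  set K : ℝ := -Real.log (1 - R ^ 2) + Real.log 4 with hK
  have hK0 : 0 ≤ K := add_nonneg (PoisA_log_nonneg hR0 hR) (Real.log_nonneg (by norm_num))
  have hc := c1_pos hR0 hR
  have he := ellR_pos hR0 hR
  have hcl : ∀ z : 𝔻, ‖Gm R (fun w : 𝔻 => dL w 0) z - c1 R • dL z 0‖ ≤ c1 R * K := by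
    intro z
    refine norm_Gm_sub_le hR0 hR PoisA_cont_dL (c := dL z 0) fun w hw => ?_
    have h1 := dL_triangle w z 0
    have h2 := dL_triangle z w 0
    have h3 := PoisA_dL_close hR0 hR hw
    have h4 : dL w z = dL z w := dL_comm w z
    rw [Real.norm_eq_abs, abs_le]
    constructor <;> linarith
  refine ⟨(c1 R + 2 * c1 R * K) / ellR R, by positivity, fun x hx => ?_⟩
  have hG := green_identity_real hR0 hR PoisA_cont_dL hx
  have h1 : ∫ w : 𝔻, gk ‖(x : ℂ)‖ ‖(w : ℂ)‖ * (Mop R (fun w => dL w 0) w - dL w 0) ∂area =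
      ellR R * ∫ w : 𝔻, gk ‖(x : ℂ)‖ ‖(w : ℂ)‖ ∂area := by
    rw [← integral_const_mul]
    refine integral_congr_ae (Filter.Eventually.of_forall fun w => ?_)
    simp only
    rw [Mop_dL hR0 hR w]
    ring
  rw [h1] at hG
  have h2 : ∫ ξ : Circle, Gm R (fun w : 𝔻 => dL w 0) (ξ • x) ∂lam ≤ c1 R * dL x 0 + c1 R * K := by
    have h3 : ∫ ξ : Circle, Gm R (fun w : 𝔻 => dL w 0) (ξ • x) ∂lam ≤
        ∫ _ξ : Circle, (c1 R * dL x 0 + c1 R * K) ∂lam := by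
      refine integral_mono (PoisA_int_circ (continuous_Gm hR0 hR PoisA_cont_dL) x)
        (integrable_const _) fun ξ => ?_
      have h4 := hcl (ξ • x)
      rw [PoisA_dL_rot, Real.norm_eq_abs, abs_le, smul_eq_mul] at h4
      simp only
      linarith [h4.2]
    simpa using h3
  have h5 := hcl 0
  rw [dL_self, Real.norm_eq_abs, abs_le, smul_eq_mul] at h5
  have h6 := dL_nonneg x 0
  have h7 : ellR R * ∫ w : 𝔻, gk ‖(x : ℂ)‖ ‖(w : ℂ)‖ ∂area ≤ (c1 R + 2 * c1 R * K) * (1 + dL x 0) := by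
    rw [← hG]
    have h8 : 0 ≤ c1 R * K * dL x 0 := by positivity
    nlinarith [h5.1]
  rw [div_mul_eq_mul_div, le_div_iff₀ he]
  linarith

/-- comparison for the averaging operator -/
private theorem PoisA_Mop_le {R : ℝ} (hR0 : 0 < R) (hR : R < 1) {u : 𝔻 → ℂ} (hu : Continuous u)
    (hM : ∀ z, Mop R u z = u z) {F : 𝔻 → ℝ} (hF : Continuous F) (z : 𝔻) (c : ℂ) (k : ℝ)
    (h : ∀ w, pd z w < R → F w ≤ (c * u w).re + k) : Mop R F z ≤ (c * u z).re + k := by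
  have hcu : Continuous (fun w : 𝔻 => c * u w) := continuous_const.mul hu
  have hre : Continuous (fun w : 𝔻 => (c * u w).re) := Complex.continuous_re.comp hcu
  have h1 : Mop R F z ≤ Mop R (fun w => (c * u w).re + k) z := by
    unfold Mop
    exact AvF_mono hR (F := fun _ w => F w) (G := fun _ w => (c * u w).re + k)
      (hF.comp continuous_snd) ((hre.add continuous_const).comp continuous_snd) h
  have h2 : Mop R (fun w => (c * u w).re + k) z =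
      Mop R (fun w => (c * u w).re) z + Mop R (fun _ => k) z :=
    Mop_add hR hre continuous_const z
  have h3 : Mop R (fun w => (c * u w).re) z = (Mop R (fun w => c * u w) z).re := by
    unfold Mop AvF
    have hint := integrableOn_AvF hR (F := fun _ w => c * u w) (hcu.comp continuous_snd) z
    have h4 := Complex.reCLM.integral_comp_comm hint
    simp only [Complex.reCLM_apply] at h4
    rw [h4]
    simp
  rw [h2, h3, Mop_const hR0 hR, Mop_mul_left, hM] at h1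
  exact h1

private theorem PoisA_lower {R : ℝ} (hR0 : 0 < R) (hR : R < 1) {F : 𝔻 → ℝ} (hF : Continuous F)
    {a b : ℝ} (h : ∀ z w, pd z w < R → a * F z - b ≤ F w) (x : 𝔻) :
    c1 R * (a * (∫ ξ : Circle, F (ξ • x) ∂lam) - b) ≤ ∫ ξ : Circle, Gm R F (ξ • x) ∂lam := by
  have h1 : ∫ ξ : Circle, c1 R * (a * F (ξ • x) - b) ∂lam =
      c1 R * (a * (∫ ξ : Circle, F (ξ • x) ∂lam) - b) := by
    rw [integral_const_mul, integral_sub ((PoisA_int_circ hF x).const_mul a) (integrable_const _),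
      integral_const_mul]
    simp
  rw [← h1]
  refine integral_mono ((((PoisA_int_circ hF x).const_mul a).sub (integrable_const _)).const_mul _)
    (PoisA_int_circ (continuous_Gm hR0 hR hF) x) fun ξ => ?_
  simp only
  have h2 := Gm_const hR0 hR (a * F (ξ • x) - b) (ξ • x)
  rw [smul_eq_mul] at h2
  rw [← h2]
  exact Gm_mono hR0 hR continuous_const hF fun w hw => h _ w hw

private theorem PoisA_upper {R : ℝ} (hR0 : 0 < R) (hR : R < 1) {F : 𝔻 → ℝ} (hF : Continuous F)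
    {D : 𝔻 → ℝ} (hD : Continuous D) (h : ∀ w, Mop R F w - F w ≤ D w) {x : 𝔻} (hx : x ≠ 0) :
    ∫ ξ : Circle, Gm R F (ξ • x) ∂lam ≤
      Gm R F 0 + ∫ w : 𝔻, gk ‖(x : ℂ)‖ ‖(w : ℂ)‖ * D w ∂area := by
  have hG := green_identity_real hR0 hR hF hx
  have h1 : ∫ w : 𝔻, gk ‖(x : ℂ)‖ ‖(w : ℂ)‖ * (Mop R F w - F w) ∂area ≤
      ∫ w : 𝔻, gk ‖(x : ℂ)‖ ‖(w : ℂ)‖ * D w ∂area :=
    integral_mono (PoisA_int_gk hx ((continuous_Mop hR hF).sub hF)) (PoisA_int_gk hx hD)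
      fun w => mul_le_mul_of_nonneg_left (h w) (PoisA_gk_nonneg _ _)
  linarith

private theorem PoisA_lip {R : ℝ} (hR0 : 0 < R) (hR : R < 1) {u : 𝔻 → ℂ} (hL : CLip u) :
    ∃ C₀ : ℝ, 0 ≤ C₀ ∧ ∀ z w, pd z w < R → ‖u w - u z‖ ≤ C₀ := by
  obtain ⟨C, hC0, hC⟩ := hL
  refine ⟨C * (1 + -Real.log (1 - R ^ 2)),
    mul_nonneg hC0 (by linarith [PoisA_log_nonneg hR0 hR]), fun z w h => ?_⟩
  rw [norm_sub_rev]
  exact (hC z w).trans (mul_le_mul_of_nonneg_left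
    (by linarith [PoisA_dL_close hR0 hR h]) hC0)

private theorem PoisA_exp2 (a b : ℂ) {C₀ : ℝ} (h : ‖b - a‖ ≤ C₀) :
    ‖b‖ ^ 2 ≤ (2 * conj a * b).re + (C₀ ^ 2 - ‖a‖ ^ 2) := by
  have h0 := norm_nonneg (b - a)
  have h1 : ‖b - a‖ ^ 2 ≤ C₀ ^ 2 := pow_le_pow_left₀ h0 h 2
  rw [← Complex.normSq_eq_norm_sq, Complex.normSq_apply] at h1
  rw [← Complex.normSq_eq_norm_sq, ← Complex.normSq_eq_norm_sq, Complex.normSq_apply,
    Complex.normSq_apply]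
  simp only [Complex.sub_re, Complex.sub_im, Complex.mul_re, Complex.mul_im, Complex.conj_re,
    Complex.conj_im, Complex.re_ofNat, Complex.im_ofNat] at h1 ⊢
  nlinarith [h1]

private theorem PoisA_exp4 (a b : ℂ) {C₀ : ℝ} (h : ‖b - a‖ ≤ C₀) :
    ‖b‖ ^ 4 ≤ ((4 * (‖a‖ ^ 2 : ℝ) * conj a) * b).re +
      (8 * C₀ ^ 2 * ‖a‖ ^ 2 + 3 * C₀ ^ 4 - 3 * ‖a‖ ^ 4) := by
  have h0 := norm_nonneg (b - a)
  have h1 : ‖b - a‖ ^ 2 ≤ C₀ ^ 2 := pow_le_pow_left₀ h0 h 2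
  set A : ℝ := ‖a‖ ^ 2 with hA
  set d : ℝ := ‖b - a‖ ^ 2 with hd
  set s : ℝ := (conj a * b).re - A with hs
  have hA0 : 0 ≤ A := by positivity
  have hd0 : 0 ≤ d := by positivity
  have hb : ‖b‖ ^ 2 = A + 2 * s + d := by
    rw [hs, hd, hA, ← Complex.normSq_eq_norm_sq, ← Complex.normSq_eq_norm_sq,
      ← Complex.normSq_eq_norm_sq, Complex.normSq_apply, Complex.normSq_apply,
      Complex.normSq_apply]
    simp only [Complex.sub_re, Complex.sub_im, Complex.mul_re, Complex.conj_re,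
      Complex.conj_im]
    ring
  have hs2 : s ^ 2 ≤ A * d := by
    have h2 : s = (conj a * (b - a)).re := by
      rw [hs, hA, ← Complex.normSq_eq_norm_sq, Complex.normSq_apply]
      simp only [Complex.sub_re, Complex.sub_im, Complex.mul_re, Complex.conj_re,
        Complex.conj_im]
      ring
    have h3 : |s| ≤ ‖a‖ * ‖b - a‖ := by
      rw [h2]
      refine (Complex.abs_re_le_norm _).trans ?_
      rw [norm_mul, Complex.norm_conj]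
    have h4 : |s| ^ 2 ≤ (‖a‖ * ‖b - a‖) ^ 2 := pow_le_pow_left₀ (abs_nonneg s) h3 2
    rw [sq_abs, mul_pow] at h4
    exact h4
  have hre : ((4 * ((A : ℝ) : ℂ) * conj a) * b).re = 4 * A * (s + A) := by
    have h5 : (4 * ((A : ℝ) : ℂ) * conj a) * b = ((4 * A : ℝ) : ℂ) * (conj a * b) := by
      push_cast
      ring
    rw [h5, Complex.re_ofReal_mul]
    rw [hs]
    ring
  rw [hre]
  have h6 : ‖b‖ ^ 4 = (‖b‖ ^ 2) ^ 2 := by ring
  have h7 : ‖a‖ ^ 4 = A ^ 2 := by rw [hA]; ring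
  rw [h6, hb, h7]
  have h8 : A * d ≤ A * C₀ ^ 2 := mul_le_mul_of_nonneg_left h1 hA0
  have h9 : d ^ 2 ≤ (C₀ ^ 2) ^ 2 := pow_le_pow_left₀ hd0 h1 2
  nlinarith [sq_nonneg (s - d)]

private theorem PoisA_low2 (a b : ℂ) {C₀ : ℝ} (h : ‖b - a‖ ≤ C₀) :
    1 / 2 * ‖a‖ ^ 2 - C₀ ^ 2 ≤ ‖b‖ ^ 2 := by
  have h1 : ‖a‖ ≤ ‖b‖ + C₀ := by
    have := norm_sub_norm_le a b
    rw [norm_sub_rev] at this
    linarith
  have h2 : ‖a‖ ^ 2 ≤ (‖b‖ + C₀) ^ 2 := pow_le_pow_left₀ (norm_nonneg a) h1 2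
  nlinarith [sq_nonneg (‖b‖ - C₀)]

private theorem PoisA_low4 (a b : ℂ) {C₀ : ℝ} (h : ‖b - a‖ ≤ C₀) :
    1 / 8 * ‖a‖ ^ 4 - C₀ ^ 4 ≤ ‖b‖ ^ 4 := by
  have h1 : ‖a‖ ≤ ‖b‖ + C₀ := by
    have := norm_sub_norm_le a b
    rw [norm_sub_rev] at this
    linarith
  have h2 : ‖a‖ ^ 2 ≤ (‖b‖ + C₀) ^ 2 := pow_le_pow_left₀ (norm_nonneg a) h1 2
  have h3 : ‖a‖ ^ 2 ≤ 2 * ‖b‖ ^ 2 + 2 * C₀ ^ 2 := by nlinarith [sq_nonneg (‖b‖ - C₀)]
  have h4 : (‖a‖ ^ 2) ^ 2 ≤ (2 * ‖b‖ ^ 2 + 2 * C₀ ^ 2) ^ 2 :=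
    pow_le_pow_left₀ (by positivity) h3 2
  nlinarith [sq_nonneg (‖b‖ ^ 2 - C₀ ^ 2)]

/-- second moments on circles: `(M - 1)|u|^2 ≤ C₀^2` -/
theorem l2_bound {R : ℝ} (hR0 : 0 < R) (hR : R < 1) {u : 𝔻 → ℂ} (hu : Continuous u)
    (hL : CLip u) (hM : ∀ z, Mop R u z = u z) :
    ∃ C : ℝ, 0 ≤ C ∧ ∀ x : 𝔻, ∫ ξ : Circle, ‖u (ξ • x)‖ ^ 2 ∂lam ≤ C * (1 + dL x 0) := by
  obtain ⟨C₀, hC₀, hcl⟩ := PoisA_lip hR0 hR hL
  obtain ⟨C₁, hC₁, hgk⟩ := integral_gk_le hR0 hR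
  have hc := c1_pos hR0 hR
  set F : 𝔻 → ℝ := fun w => ‖u w‖ ^ 2 with hFdef
  have hF : Continuous F := (hu.norm).pow 2
  have hup : ∀ w, Mop R F w - F w ≤ C₀ ^ 2 := by
    intro z
    have h1 := PoisA_Mop_le hR0 hR hu hM hF z (2 * conj (u z)) (C₀ ^ 2 - ‖u z‖ ^ 2)
      (fun w hw => PoisA_exp2 (u z) (u w) (hcl z w hw))
    have h2 : (2 * conj (u z) * u z).re = 2 * ‖u z‖ ^ 2 := by
      rw [← Complex.normSq_eq_norm_sq, Complex.normSq_apply]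
      simp only [Complex.mul_re, Complex.mul_im, Complex.conj_re,
        Complex.conj_im, Complex.re_ofNat, Complex.im_ofNat]
      ring
    rw [h2] at h1
    simp only [hFdef] at h1 ⊢
    linarith
  have hlow : ∀ z w, pd z w < R → 1 / 2 * F z - C₀ ^ 2 ≤ F w := fun z w hw =>
    PoisA_low2 (u z) (u w) (hcl z w hw)
  set B : ℝ := 2 * ((|Gm R F 0| + C₀ ^ 2 * C₁) / c1 R + C₀ ^ 2) + ‖u 0‖ ^ 2 with hB
  have hB0 : 0 ≤ B := by positivity
  refine ⟨B, hB0, fun x => ?_⟩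
  have hdx := dL_nonneg x 0
  rcases eq_or_ne x 0 with hx | hx
  · subst hx
    have h1 : ∫ ξ : Circle, ‖u (ξ • (0 : 𝔻))‖ ^ 2 ∂lam = ‖u 0‖ ^ 2 := by
      simp only [PoisA_rot_zero]
      simp
    rw [h1, dL_self, add_zero, mul_one, hB]
    have : 0 ≤ 2 * ((|Gm R F 0| + C₀ ^ 2 * C₁) / c1 R + C₀ ^ 2) := by positivity
    linarith
  · have h1 := PoisA_lower hR0 hR hF hlow x
    have h2 := PoisA_upper hR0 hR hF (D := fun _ => C₀ ^ 2) continuous_const hup hx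
    have h3 : ∫ w : 𝔻, gk ‖(x : ℂ)‖ ‖(w : ℂ)‖ * C₀ ^ 2 ∂area ≤ C₀ ^ 2 * (C₁ * (1 + dL x 0)) := by
      rw [integral_mul_const, mul_comm]
      exact mul_le_mul_of_nonneg_left (hgk x hx) (by positivity)
    have h4 : c1 R * (1 / 2 * (∫ ξ : Circle, F (ξ • x) ∂lam) - C₀ ^ 2) ≤
        (|Gm R F 0| + C₀ ^ 2 * C₁) * (1 + dL x 0) := by
      have h5 := le_abs_self (Gm R F 0)
      have h6 : 0 ≤ |Gm R F 0| * dL x 0 := by positivity
      nlinarith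
    have h7 : 1 / 2 * (∫ ξ : Circle, F (ξ • x) ∂lam) - C₀ ^ 2 ≤
        (|Gm R F 0| + C₀ ^ 2 * C₁) / c1 R * (1 + dL x 0) := by
      rw [div_mul_eq_mul_div (|Gm R F 0| + C₀ ^ 2 * C₁) (c1 R), le_div_iff₀ hc]
      linarith
    have h8 : 0 ≤ C₀ ^ 2 * dL x 0 := by positivity
    have h9 : 0 ≤ ‖u 0‖ ^ 2 * (1 + dL x 0) := by positivity
    have h10 : (∫ ξ : Circle, F (ξ • x) ∂lam) ≤ B * (1 + dL x 0) := by
      rw [hB]
      nlinarith
    exact h10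

/-- fourth moments on circles.  With `F = |u|^4`, `(M-1)F ≤ C (|u|^2 + 1)`
(expand `|u+δ|^4`, `M δ = 0`, `|δ| ≤ C₀`); by `green_identity_real`,
`∫ 𝒢F(ξx) ≤ 𝒢F(0) + ∫ gk |x| |w| C (|u(w)|^2 + 1) dA(w)`; by `integral_rot` and `l2_bound` the last
integral is `≤ C' (1 + dL x 0) ∫ gk ≤ C'' (1 + dL x 0)^2` (`gk |x| |w| = 0` for `|w| ≥ |x|`); and
`𝒢F ≥ c₁ (F/8 - C₀^4)`. -/
theorem l4_bound {R : ℝ} (hR0 : 0 < R) (hR : R < 1) {u : 𝔻 → ℂ} (hu : Continuous u)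
    (hL : CLip u) (hM : ∀ z, Mop R u z = u z) :
    ∃ C : ℝ, 0 ≤ C ∧ ∀ x : 𝔻, ∫ ξ : Circle, ‖u (ξ • x)‖ ^ 4 ∂lam ≤ C * (1 + dL x 0) ^ 2 := by
  obtain ⟨C₂, hC₂, hl2⟩ := l2_bound hR0 hR hu hL hM
  obtain ⟨C₀, hC₀, hcl⟩ := PoisA_lip hR0 hR hL
  obtain ⟨C₁, hC₁, hgk⟩ := integral_gk_le hR0 hR
  have hc := c1_pos hR0 hR
  set F : 𝔻 → ℝ := fun w => ‖u w‖ ^ 4 with hFdef
  have hF : Continuous F := (hu.norm).pow 4
  set D : 𝔻 → ℝ := fun w => 8 * C₀ ^ 2 * ‖u w‖ ^ 2 + 3 * C₀ ^ 4 with hDdef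
  have hD : Continuous D := (continuous_const.mul ((hu.norm).pow 2)).add continuous_const
  have hD0 : ∀ w, 0 ≤ D w := fun w => by simp only [hDdef]; positivity
  have hup : ∀ w, Mop R F w - F w ≤ D w := by
    intro z
    have h1 := PoisA_Mop_le hR0 hR hu hM hF z (4 * (‖u z‖ ^ 2 : ℝ) * conj (u z))
      (8 * C₀ ^ 2 * ‖u z‖ ^ 2 + 3 * C₀ ^ 4 - 3 * ‖u z‖ ^ 4)
      (fun w hw => PoisA_exp4 (u z) (u w) (hcl z w hw))
    have h2 : ((4 * (‖u z‖ ^ 2 : ℝ) * conj (u z)) * u z).re = 4 * ‖u z‖ ^ 4 := by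
      have h3 : (4 * ((‖u z‖ ^ 2 : ℝ) : ℂ) * conj (u z)) * u z =
          ((4 * ‖u z‖ ^ 4 : ℝ) : ℂ) := by
        have h4 : conj (u z) * u z = ((‖u z‖ ^ 2 : ℝ) : ℂ) := by
          rw [mul_comm, Complex.mul_conj, Complex.normSq_eq_norm_sq]
        rw [mul_assoc, h4]
        push_cast
        ring
      rw [h3, Complex.ofReal_re]
    rw [h2] at h1
    simp only [hFdef, hDdef] at h1 ⊢
    linarith
  have hlow : ∀ z w, pd z w < R → 1 / 8 * F z - C₀ ^ 4 ≤ F w := fun z w hw =>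
    PoisA_low4 (u z) (u w) (hcl z w hw)
  set E : ℝ := 8 * C₀ ^ 2 * C₂ + 3 * C₀ ^ 4 with hE
  have hE0 : 0 ≤ E := by positivity
  set B : ℝ := 8 * ((|Gm R F 0| + E * C₁) / c1 R + C₀ ^ 4) + ‖u 0‖ ^ 4 with hB
  have hB0 : 0 ≤ B := by positivity
  refine ⟨B, hB0, fun x => ?_⟩
  have hdx := dL_nonneg x 0
  rcases eq_or_ne x 0 with hx | hx
  · subst hx
    have h1 : ∫ ξ : Circle, ‖u (ξ • (0 : 𝔻))‖ ^ 4 ∂lam = ‖u 0‖ ^ 4 := by
      simp only [PoisA_rot_zero]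
      simp
    rw [h1, dL_self, add_zero, one_pow, mul_one, hB]
    have : 0 ≤ 8 * ((|Gm R F 0| + E * C₁) / c1 R + C₀ ^ 4) := by positivity
    linarith
  · have h1 := PoisA_lower hR0 hR hF hlow x
    have h2 := PoisA_upper hR0 hR hF hD hup hx
    have hgkint : Integrable (fun w : 𝔻 => gk ‖(x : ℂ)‖ ‖(w : ℂ)‖ * (E * (1 + dL x 0))) area :=
      PoisA_int_gk hx continuous_const
    have h3 : ∫ w : 𝔻, gk ‖(x : ℂ)‖ ‖(w : ℂ)‖ * D w ∂area ≤
        E * (1 + dL x 0) * (C₁ * (1 + dL x 0)) := by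
      have hmeas : Measurable (gk ‖(x : ℂ)‖) := by
        unfold gk
        exact measurable_const.max (measurable_const.sub Real.measurable_log)
      have h4 := integral_rot (gk ‖(x : ℂ)‖) hmeas D hD (by
        simpa only [smul_eq_mul] using PoisA_int_gk hx hD)
      simp only [smul_eq_mul] at h4
      rw [h4]
      have h5 : ∫ w : 𝔻, gk ‖(x : ℂ)‖ ‖(w : ℂ)‖ * (∫ ξ : Circle, D (ξ • w) ∂lam) ∂area ≤
          ∫ w : 𝔻, gk ‖(x : ℂ)‖ ‖(w : ℂ)‖ * (E * (1 + dL x 0)) ∂area := by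
        refine integral_mono_of_nonneg (Filter.Eventually.of_forall fun w =>
          mul_nonneg (PoisA_gk_nonneg _ _) (integral_nonneg fun ξ => hD0 _)) hgkint
          (Filter.Eventually.of_forall fun w => ?_)
        simp only
        rcases le_or_gt ‖(x : ℂ)‖ ‖(w : ℂ)‖ with hw | hw
        · rw [PoisA_gk_zero hx hw, zero_mul, zero_mul]
        · refine mul_le_mul_of_nonneg_left ?_ (PoisA_gk_nonneg _ _)
          have h6 : ∫ ξ : Circle, D (ξ • w) ∂lam =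
              8 * C₀ ^ 2 * (∫ ξ : Circle, ‖u (ξ • w)‖ ^ 2 ∂lam) + 3 * C₀ ^ 4 := by
            simp only [hDdef]
            rw [integral_add ((PoisA_int_circ (F := fun w => ‖u w‖ ^ 2)
              ((hu.norm).pow 2) w).const_mul _) (integrable_const _), integral_const_mul]
            simp
          have h7 : dL w 0 ≤ dL x 0 := by
            rw [dL_zero, dL_zero]
            have h8 := UnitDisc.sq_norm_lt_one x
            have h9 : ‖(w : ℂ)‖ ^ 2 ≤ ‖(x : ℂ)‖ ^ 2 := pow_le_pow_left₀ (norm_nonneg _) hw.le 2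
            have := Real.log_le_log (show 0 < 1 - ‖(x : ℂ)‖ ^ 2 by linarith)
              (show 1 - ‖(x : ℂ)‖ ^ 2 ≤ 1 - ‖(w : ℂ)‖ ^ 2 by linarith)
            linarith
          rw [h6]
          have h10 := hl2 w
          have h11 : ∫ ξ : Circle, ‖u (ξ • w)‖ ^ 2 ∂lam ≤ C₂ * (1 + dL x 0) :=
            h10.trans (mul_le_mul_of_nonneg_left (by linarith) hC₂)
          have h12 : 8 * C₀ ^ 2 * (∫ ξ : Circle, ‖u (ξ • w)‖ ^ 2 ∂lam) ≤
              8 * C₀ ^ 2 * (C₂ * (1 + dL x 0)) :=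
            mul_le_mul_of_nonneg_left h11 (by positivity)
          have h13 : 0 ≤ 3 * C₀ ^ 4 * dL x 0 := by positivity
          rw [hE]
          nlinarith
      refine h5.trans ?_
      rw [integral_mul_const, mul_comm]
      exact mul_le_mul_of_nonneg_left (hgk x hx) (by positivity)
    have hX : 1 + dL x 0 ≤ (1 + dL x 0) ^ 2 := by nlinarith
    have hX1 : 1 ≤ (1 + dL x 0) ^ 2 := by nlinarith
    have h4 : c1 R * (1 / 8 * (∫ ξ : Circle, F (ξ • x) ∂lam) - C₀ ^ 4) ≤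
        (|Gm R F 0| + E * C₁) * (1 + dL x 0) ^ 2 := by
      have h5 := le_abs_self (Gm R F 0)
      have h6 : |Gm R F 0| * 1 ≤ |Gm R F 0| * (1 + dL x 0) ^ 2 :=
        mul_le_mul_of_nonneg_left hX1 (abs_nonneg _)
      nlinarith
    have h7 : 1 / 8 * (∫ ξ : Circle, F (ξ • x) ∂lam) - C₀ ^ 4 ≤
        (|Gm R F 0| + E * C₁) / c1 R * (1 + dL x 0) ^ 2 := by
      rw [div_mul_eq_mul_div (|Gm R F 0| + E * C₁) (c1 R), le_div_iff₀ hc]
      linarith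
    have h8 : C₀ ^ 4 * 1 ≤ C₀ ^ 4 * (1 + dL x 0) ^ 2 :=
      mul_le_mul_of_nonneg_left hX1 (by positivity)
    have h9 : 0 ≤ ‖u 0‖ ^ 4 * (1 + dL x 0) ^ 2 := by positivity
    have h10 : (∫ ξ : Circle, F (ξ • x) ∂lam) ≤ B * (1 + dL x 0) ^ 2 := by
      rw [hB]
      nlinarith
    exact h10

end

end Pool.Agent.Lib.MP_b16327_pr
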