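import Pool.Agent.Lib.MP_b16327_pr.CircC

/-! # Radial points; density of Poisson kernels -/

namespace Pool.Agent.Lib.MP_b16327_pr

open Complex MeasureTheory ComplexConjugate Filter
open scoped Complex.UnitDisc Topology BoundedContinuousFunction

noncomputable section

/-- the point `√(1 - e^{-τ})` of the disc -/
def rad (τ : ℝ) : 𝔻 := if h : 0 ≤ τ then UnitDisc.mk (Real.sqrt (1 - Real.exp (-τ)) : ℝ) (by
    rw [Complex.norm_real, Real.norm_of_nonneg (Real.sqrt_nonneg _), Real.sqrt_lt' one_pos]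
    have := Real.exp_pos (-τ)
    linarith) else 0

private theorem PoisB_coe_rad {τ : ℝ} (hτ : 0 ≤ τ) :
    ((rad τ : 𝔻) : ℂ) = (Real.sqrt (1 - Real.exp (-τ)) : ℝ) := by
  unfold rad
  rw [dif_pos hτ]
  rfl

private theorem PoisB_exp_le {τ : ℝ} (hτ : 0 ≤ τ) : Real.exp (-τ) ≤ 1 :=
  Real.exp_le_one_iff.2 (by linarith)

theorem norm_rad {τ : ℝ} (hτ : 0 ≤ τ) : ‖((rad τ : 𝔻) : ℂ)‖ ^ 2 = 1 - Real.exp (-τ) := by
  rw [PoisB_coe_rad hτ, Complex.norm_real, Real.norm_of_nonneg (Real.sqrt_nonneg _),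
    Real.sq_sqrt (by linarith [PoisB_exp_le hτ])]

theorem dL_rad {τ : ℝ} (hτ : 0 ≤ τ) : dL (rad τ) 0 = τ := by
  rw [dL_zero, norm_rad hτ]
  have : 1 - (1 - Real.exp (-τ)) = Real.exp (-τ) := by ring
  rw [this, Real.log_exp, neg_neg]

private theorem PoisB_den_le (g : SU11) {z : ℂ} (hz : ‖z‖ ≤ 1) : ‖g.den z‖ ≤ 2 * ‖g.a‖ := by
  unfold SU11.den
  have h := g.norm_b_lt
  calc ‖conj g.b * z + conj g.a‖ ≤ ‖conj g.b * z‖ + ‖conj g.a‖ := norm_add_le _ _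
    _ = ‖g.b‖ * ‖z‖ + ‖g.a‖ := by rw [norm_mul, Complex.norm_conj, Complex.norm_conj]
    _ ≤ 2 * ‖g.a‖ := by nlinarith [norm_nonneg g.b, norm_nonneg z]

private theorem PoisB_le_den (g : SU11) {z : ℂ} (hz : ‖z‖ ≤ 1) : 1 ≤ 2 * ‖g.a‖ * ‖g.den z‖ := by
  have h := g.norm_b_lt
  have h1 : ‖g.a‖ - ‖g.b‖ ≤ ‖g.den z‖ := by
    unfold SU11.den
    have h2 : ‖conj g.a‖ ≤ ‖conj g.b * z + conj g.a‖ + ‖conj g.b * z‖ := by
      calc ‖conj g.a‖ = ‖(conj g.b * z + conj g.a) - conj g.b * z‖ := by congr 1; ring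
        _ ≤ _ := norm_sub_le _ _
    rw [norm_mul, Complex.norm_conj, Complex.norm_conj] at h2
    nlinarith [norm_nonneg g.b, norm_nonneg z]
  have h3 := g.det
  rw [Complex.normSq_eq_norm_sq, Complex.normSq_eq_norm_sq] at h3
  nlinarith [norm_nonneg g.b, norm_nonneg g.a]

/-- for fixed `g`, the points `g • (ξ • rad τ)` and `(g • ξ) • rad τ` are at bounded distance,
uniformly in `ξ` and `τ ≥ 0`:
`|g(rξ) - gξ| ≤ C(1-r)`, `1 - |g(rξ)|^2 ≥ c (1 - r^2)`, `|r gξ - gξ| = 1 - r` -/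
theorem radial_close (g : SU11) : ∃ C : ℝ, ∀ (ξ : Circle) (τ : ℝ), 0 ≤ τ →
    dL (g • (ξ • rad τ)) ((g • ξ) • rad τ) ≤ C := by
  set A : ℝ := 2 * ‖g.a‖ with hA
  have hA1 : 1 ≤ A := by have := g.one_le_norm_a; rw [hA]; linarith
  refine ⟨Real.log (1 + (1 + A ^ 2) ^ 2 * A ^ 2), fun ξ τ hτ => ?_⟩
  unfold dL
  have hQ0 := Qd_nonneg (g • (ξ • rad τ)) ((g • ξ) • rad τ)
  apply Real.log_le_log (by linarith)
  have hgoal : Qd (g • (ξ • rad τ)) ((g • ξ) • rad τ) ≤ (1 + A ^ 2) ^ 2 * A ^ 2 := by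
    obtain ⟨r, hr⟩ : ∃ r : ℝ, r = Real.sqrt (1 - Real.exp (-τ)) := ⟨_, rfl⟩
    have hr0 : 0 ≤ r := by rw [hr]; exact Real.sqrt_nonneg _
    have hr2 : r ^ 2 = 1 - Real.exp (-τ) := by
      rw [hr, Real.sq_sqrt (by linarith [PoisB_exp_le hτ])]
    have hr1 : r < 1 := by
      have := Real.exp_pos (-τ)
      nlinarith
    have hc1 : ((ξ • rad τ : 𝔻) : ℂ) = (ξ : ℂ) * (r : ℂ) := by
      rw [UnitDisc.coe_circle_smul, PoisB_coe_rad hτ, ← hr]
    have hc2 : (((g • ξ) • rad τ : 𝔻) : ℂ) = g.mob ξ * (r : ℂ) := by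
      rw [UnitDisc.coe_circle_smul, PoisB_coe_rad hτ, ← hr, coe_smul_circle]
    have hrn : ‖(r : ℂ)‖ = r := by rw [Complex.norm_real, Real.norm_of_nonneg hr0]
    have hn1 : ‖(ξ : ℂ) * (r : ℂ)‖ = r := by rw [norm_mul, ξ.norm_coe, one_mul, hrn]
    have hn2 : ‖g.mob ξ * (r : ℂ)‖ = r := by
      rw [norm_mul, g.norm_mob_eq ξ.norm_coe, one_mul, hrn]
    have hz1 : ‖(ξ : ℂ) * (r : ℂ)‖ ≤ 1 := by rw [hn1]; exact hr1.le
    have d1 := PoisB_den_le g hz1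
    have d2 := PoisB_le_den g hz1
    have d3 := PoisB_le_den g ξ.norm_coe.le
    have hone : 1 - ‖((g • (ξ • rad τ) : 𝔻) : ℂ)‖ ^ 2 =
        (1 - r ^ 2) / ‖g.den ((ξ : ℂ) * (r : ℂ))‖ ^ 2 := by
      rw [one_sub_smul, hc1, hn1, Complex.normSq_eq_norm_sq]
    have hD0 : 0 < ‖g.den ((ξ : ℂ) * (r : ℂ))‖ := norm_pos_iff.2 (g.den_ne_zero hz1)
    have hE0 : 0 < ‖g.den (ξ : ℂ)‖ := norm_pos_iff.2 (g.den_ne_zero ξ.norm_coe.le)
    have hdiff : ‖((g • (ξ • rad τ) : 𝔻) : ℂ) - (((g • ξ) • rad τ : 𝔻) : ℂ)‖ ≤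
        (1 - r) * (1 + A ^ 2) := by
      rw [hc2, coe_smul, hc1]
      have e : g.mob ((ξ : ℂ) * r) - g.mob ξ * r =
          (g.mob ((ξ : ℂ) * r) - g.mob ξ) + g.mob ξ * ((1 - r : ℝ) : ℂ) := by
        push_cast; ring
      rw [e]
      refine (norm_add_le _ _).trans ?_
      have e2 : ‖g.mob (ξ : ℂ) * ((1 - r : ℝ) : ℂ)‖ = 1 - r := by
        rw [norm_mul, g.norm_mob_eq ξ.norm_coe, one_mul, Complex.norm_real,
          Real.norm_of_nonneg (by linarith)]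
      have e3 : ‖g.mob ((ξ : ℂ) * r) - g.mob ξ‖ ≤ (1 - r) * A ^ 2 := by
        rw [mob_sub_mob g hz1 ξ.norm_coe.le, norm_div, norm_mul]
        have e4 : ‖(ξ : ℂ) * r - ξ‖ = 1 - r := by
          have : (ξ : ℂ) * r - ξ = (ξ : ℂ) * ((-(1 - r) : ℝ) : ℂ) := by push_cast; ring
          rw [this, norm_mul, ξ.norm_coe, one_mul, Complex.norm_real, norm_neg,
            Real.norm_of_nonneg (by linarith)]
        rw [e4, div_le_iff₀ (by positivity)]
        have e5 : 1 ≤ A ^ 2 * (‖g.den ((ξ : ℂ) * r)‖ * ‖g.den (ξ : ℂ)‖) := by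
          calc (1 : ℝ) = 1 * 1 := by ring
            _ ≤ (A * ‖g.den ((ξ : ℂ) * r)‖) * (A * ‖g.den (ξ : ℂ)‖) :=
                mul_le_mul d2 d3 zero_le_one (by positivity)
            _ = _ := by ring
        calc 1 - r = (1 - r) * 1 := by ring
          _ ≤ (1 - r) * (A ^ 2 * (‖g.den ((ξ : ℂ) * r)‖ * ‖g.den (ξ : ℂ)‖)) :=
              mul_le_mul_of_nonneg_left e5 (by linarith)
          _ = _ := by ring
      rw [e2]
      linarith
    have hrr : 0 < 1 - r ^ 2 := by nlinarith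
    have hone' : (1 - r ^ 2) / A ^ 2 ≤ 1 - ‖((g • (ξ • rad τ) : 𝔻) : ℂ)‖ ^ 2 := by
      rw [hone]
      apply div_le_div_of_nonneg_left hrr.le (by positivity)
      exact pow_le_pow_left₀ hD0.le d1 2
    unfold Qd
    have hw : 1 - ‖(((g • ξ) • rad τ : 𝔻) : ℂ)‖ ^ 2 = 1 - r ^ 2 := by rw [hc2, hn2]
    rw [hw]
    have hpos1 : 0 < (1 - r ^ 2) / A ^ 2 := by positivity
    rw [div_le_iff₀ (mul_pos (hpos1.trans_le hone') hrr)]
    calc ‖((g • (ξ • rad τ) : 𝔻) : ℂ) - (((g • ξ) • rad τ : 𝔻) : ℂ)‖ ^ 2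
        ≤ ((1 - r) * (1 + A ^ 2)) ^ 2 := pow_le_pow_left₀ (norm_nonneg _) hdiff 2
      _ = (1 - r) ^ 2 * (1 + A ^ 2) ^ 2 := by ring
      _ ≤ (1 - r ^ 2) ^ 2 * (1 + A ^ 2) ^ 2 := by
          apply mul_le_mul_of_nonneg_right _ (by positivity)
          apply pow_le_pow_left₀ (by linarith)
          nlinarith
      _ = (1 + A ^ 2) ^ 2 * A ^ 2 * ((1 - r ^ 2) / A ^ 2 * (1 - r ^ 2)) := by
          field_simp
      _ ≤ (1 + A ^ 2) ^ 2 * A ^ 2 * ((1 - ‖((g • (ξ • rad τ) : 𝔻) : ℂ)‖ ^ 2) * (1 - r ^ 2)) := by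
          apply mul_le_mul_of_nonneg_left _ (by positivity)
          exact mul_le_mul_of_nonneg_right hone' hrr.le
  linarith

/-! ### Density -/

private theorem PoisB_coe_cont : Continuous (fun ξ : Circle => (ξ : ℂ)) := by fun_prop

private theorem PoisB_bdd {X : Type*} [TopologicalSpace X] [CompactSpace X] {f : X → ℂ}
    (hf : Continuous f) : ∃ C : ℝ, ∀ x, ‖f x‖ ≤ C := by
  obtain ⟨C, hC⟩ := isCompact_univ.exists_bound_of_continuousOn hf.continuousOn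
  exact ⟨C, fun x => hC x (Set.mem_univ x)⟩

private theorem PoisB_int {f : Circle → ℂ} (hf : AEStronglyMeasurable f lam) {B : ℝ}
    (hB : ∀ x, ‖f x‖ ≤ B) : Integrable f lam :=
  Integrable.of_bound hf B (Eventually.of_forall hB)

/-- the basic estimate -/
private theorem PoisB_est {f h : Circle → ℂ} (hf : Continuous f) (hm : AEStronglyMeasurable h lam)
    {B : ℝ} (hB : ∀ x, ‖h x‖ ≤ B) {δ : ℝ} (hδ : 0 < δ) :
    ‖∫ ξ, f ξ * h ξ ∂lam‖ ≤ δ * ∫ ξ, ‖f ξ‖ ^ 2 ∂lam + δ⁻¹ * ∫ ξ, ‖h ξ‖ ^ 2 ∂lam := by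
  obtain ⟨D, hD⟩ := PoisB_bdd hf
  have hm1 : AEStronglyMeasurable (fun ξ => ‖f ξ‖ ^ 2) lam :=
    (hf.norm.pow 2).aestronglyMeasurable
  have i1 : Integrable (fun ξ => ‖f ξ‖ ^ 2) lam := by
    apply Integrable.of_bound hm1 (D ^ 2)
    refine Eventually.of_forall fun x => ?_
    rw [Real.norm_of_nonneg (by positivity)]
    exact pow_le_pow_left₀ (norm_nonneg _) (hD x) 2
  have hm2 : AEStronglyMeasurable (fun ξ => ‖h ξ‖ ^ 2) lam := hm.norm.pow 2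
  have i2 : Integrable (fun ξ => ‖h ξ‖ ^ 2) lam := by
    apply Integrable.of_bound hm2 (B ^ 2)
    refine Eventually.of_forall fun x => ?_
    rw [Real.norm_of_nonneg (by positivity)]
    exact pow_le_pow_left₀ (norm_nonneg _) (hB x) 2
  rw [← integral_const_mul, ← integral_const_mul, ← integral_add (i1.const_mul _) (i2.const_mul _)]
  apply norm_integral_le_of_norm_le ((i1.const_mul _).add (i2.const_mul _))
  refine Eventually.of_forall fun x => ?_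
  simp only [Pi.add_apply]
  rw [norm_mul]
  have h1 : 0 ≤ (δ * ‖f x‖ - ‖h x‖ / 2) ^ 2 := sq_nonneg _
  have h2 : ‖f x‖ * ‖h x‖ = δ⁻¹ * (δ * ‖f x‖ * ‖h x‖) := by
    field_simp
  have h3 : δ * ‖f x‖ ^ 2 = δ⁻¹ * (δ * ‖f x‖) ^ 2 := by
    field_simp
  rw [h2, h3, ← mul_add]
  apply mul_le_mul_of_nonneg_left _ (inv_nonneg.2 hδ.le)
  nlinarith [sq_nonneg (‖h x‖)]

private theorem PoisB_approx (w : ℝ → Circle → ℂ) (hw : ∀ τ, Continuous (w τ)) {C : ℝ}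
    (hb : ∀ τ : ℝ, 1 ≤ τ → ∫ ξ, ‖w τ ξ‖ ^ 2 ∂lam ≤ C) {h : Circle → ℂ}
    (hm : AEStronglyMeasurable h lam) {B : ℝ} (hB : ∀ x, ‖h x‖ ≤ B)
    (happ : ∀ ε : ℝ, 0 < ε → ∃ h' : Circle → ℂ, Continuous h' ∧
      Tendsto (fun τ => ∫ ξ, w τ ξ * h' ξ ∂lam) atTop (𝓝 0) ∧ ∫ ξ, ‖h ξ - h' ξ‖ ^ 2 ∂lam ≤ ε) :
    Tendsto (fun τ => ∫ ξ, w τ ξ * h ξ ∂lam) atTop (𝓝 0) := by
  have hC0 : 0 ≤ C := (integral_nonneg fun _ => by positivity).trans (hb 1 le_rfl)
  rw [Metric.tendsto_atTop]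
  intro ε hε
  obtain ⟨δ, hδ⟩ : ∃ δ : ℝ, δ = ε / (4 * (C + 1)) := ⟨_, rfl⟩
  have hδ0 : 0 < δ := by rw [hδ]; positivity
  have hδC : δ * C ≤ ε / 4 := by
    rw [hδ, div_mul_eq_mul_div, div_le_div_iff₀ (by positivity) (by norm_num)]
    nlinarith
  obtain ⟨h', hc, hz, hd⟩ := happ (δ * (ε / 4)) (by positivity)
  obtain ⟨B', hB'⟩ := PoisB_bdd hc
  rw [Metric.tendsto_atTop] at hz
  obtain ⟨N, hN⟩ := hz (ε / 4) (by positivity)
  refine ⟨max N 1, fun τ hτ => ?_⟩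
  have h1 := hN τ (le_of_max_le_left hτ)
  rw [dist_zero_right] at h1 ⊢
  obtain ⟨D, hD⟩ := PoisB_bdd (hw τ)
  have hD0 : 0 ≤ D := (norm_nonneg _).trans (hD 1)
  have j1 : Integrable (fun ξ => w τ ξ * h' ξ) lam := by
    apply PoisB_int ((hw τ).mul hc).aestronglyMeasurable (B := D * B')
    intro x
    rw [Pi.mul_apply, norm_mul]
    exact mul_le_mul (hD x) (hB' x) (norm_nonneg _) hD0
  have hmm : AEStronglyMeasurable (fun ξ => h ξ - h' ξ) lam := hm.sub hc.aestronglyMeasurable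
  have hBB : ∀ x, ‖h x - h' x‖ ≤ B + B' := fun x =>
    (norm_sub_le _ _).trans (add_le_add (hB x) (hB' x))
  have j2 : Integrable (fun ξ => w τ ξ * (h ξ - h' ξ)) lam := by
    apply PoisB_int ((hw τ).aestronglyMeasurable.mul hmm) (B := D * (B + B'))
    intro x
    rw [Pi.mul_apply, norm_mul]
    exact mul_le_mul (hD x) (hBB x) (norm_nonneg _) hD0
  have e : ∫ ξ, w τ ξ * h ξ ∂lam = ∫ ξ, w τ ξ * h' ξ ∂lam + ∫ ξ, w τ ξ * (h ξ - h' ξ) ∂lam := by
    rw [← integral_add j1 j2]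
    congr 1
    funext ξ
    ring
  rw [e]
  have h2 := PoisB_est (hw τ) hmm hBB hδ0
  have h3 := hb τ (le_of_max_le_right hτ)
  have h4 : δ⁻¹ * ∫ ξ, ‖h ξ - h' ξ‖ ^ 2 ∂lam ≤ ε / 4 := by
    calc δ⁻¹ * ∫ ξ, ‖h ξ - h' ξ‖ ^ 2 ∂lam ≤ δ⁻¹ * (δ * (ε / 4)) :=
          mul_le_mul_of_nonneg_left hd (inv_nonneg.2 hδ0.le)
      _ = ε / 4 := by field_simp
  have h5 : δ * ∫ ξ, ‖w τ ξ‖ ^ 2 ∂lam ≤ ε / 4 :=
    (mul_le_mul_of_nonneg_left h3 hδ0.le).trans hδC
  calc ‖∫ ξ, w τ ξ * h' ξ ∂lam + ∫ ξ, w τ ξ * (h ξ - h' ξ) ∂lam‖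
      ≤ ‖∫ ξ, w τ ξ * h' ξ ∂lam‖ + ‖∫ ξ, w τ ξ * (h ξ - h' ξ) ∂lam‖ := norm_add_le _ _
    _ < ε := by linarith

/-- half a point of the circle -/
private def PoisB_z (η : Circle) : 𝔻 := UnitDisc.mk ((1 / 2 : ℝ) * (η : ℂ)) (by
  rw [norm_mul, η.norm_coe, Complex.norm_real]; norm_num)

private theorem PoisB_coe_z (η : Circle) : ((PoisB_z η : 𝔻) : ℂ) = (1 / 2 : ℝ) * (η : ℂ) := rfl

/-- the Poisson kernel -/
private def PoisB_p (η ξ : Circle) : ℝ := (3 / 4) / ‖(ξ : ℂ) - (1 / 2 : ℝ) * (η : ℂ)‖ ^ 2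

private theorem PoisB_half_le (η ξ : Circle) : 1 / 2 ≤ ‖(ξ : ℂ) - (1 / 2 : ℝ) * (η : ℂ)‖ := by
  have h := norm_sub_norm_le (ξ : ℂ) ((1 / 2 : ℝ) * (η : ℂ))
  rw [norm_mul, η.norm_coe, ξ.norm_coe, Complex.norm_real] at h
  norm_num at h ⊢
  linarith

private theorem PoisB_Jac (η ξ : Circle) : Jac (tr (PoisB_z η)) ξ = PoisB_p η ξ := by
  rw [Jac_eq_poisson, tr_smul_zero, PoisB_coe_z]
  unfold PoisB_p
  rw [norm_mul (((1 / 2 : ℝ) : ℂ)) (η : ℂ), η.norm_coe, Complex.norm_real]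
  norm_num

private theorem PoisB_p_symm (η ξ : Circle) : PoisB_p η ξ = PoisB_p ξ η := by
  have key : ∀ z w : ℂ, ‖z‖ = 1 → ‖w‖ = 1 →
      ‖z - ((1 / 2 : ℝ) : ℂ) * w‖ ^ 2 = ‖w - ((1 / 2 : ℝ) : ℂ) * z‖ ^ 2 := by
    intro z w hz hw
    have h1 : z.re * z.re + z.im * z.im = 1 := by
      rw [← Complex.normSq_apply, Complex.normSq_eq_norm_sq, hz]; norm_num
    have h2 : w.re * w.re + w.im * w.im = 1 := by
      rw [← Complex.normSq_apply, Complex.normSq_eq_norm_sq, hw]; norm_num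
    rw [← Complex.normSq_eq_norm_sq, ← Complex.normSq_eq_norm_sq, Complex.normSq_apply,
      Complex.normSq_apply]
    simp only [Complex.sub_re, Complex.sub_im, Complex.mul_re, Complex.mul_im, Complex.ofReal_re,
      Complex.ofReal_im]
    linear_combination (3 / 4) * h1 - (3 / 4) * h2
  unfold PoisB_p
  rw [key _ _ ξ.norm_coe η.norm_coe]

private theorem PoisB_p_bd (η ξ : Circle) : 0 ≤ PoisB_p η ξ ∧ PoisB_p η ξ ≤ 3 := by
  have h := PoisB_half_le η ξ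
  unfold PoisB_p
  refine ⟨by positivity, ?_⟩
  rw [div_le_iff₀ (by positivity)]
  nlinarith

private theorem PoisB_p_cont : Continuous (fun x : Circle × Circle => PoisB_p x.1 x.2) := by
  unfold PoisB_p
  apply Continuous.div continuous_const (by fun_prop)
  intro x
  have := PoisB_half_le x.1 x.2
  positivity

/-- the Poisson formula for monomials -/
private theorem PoisB_mono (n : ℕ) (ξ : Circle) :
    ∫ η : Circle, (η : ℂ) ^ n * (PoisB_p η ξ : ℂ) ∂lam = ((1 / 2 : ℝ) : ℂ) ^ n * (ξ : ℂ) ^ n := by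
  obtain ⟨g, hg⟩ : ∃ g, g = tr (PoisB_z ξ) := ⟨_, rfl⟩
  have h1 := integral_smul_lam g (fun η : Circle => (η : ℂ) ^ n) (by fun_prop)
  have h2 : ∫ η : Circle, (Jac g η : ℂ) * (η : ℂ) ^ n ∂lam =
      ∫ η : Circle, (η : ℂ) ^ n * (PoisB_p η ξ : ℂ) ∂lam := by
    congr 1
    funext η
    rw [hg, PoisB_Jac, PoisB_p_symm, mul_comm]
  rw [← h2, ← h1]
  have h3 : ∀ η : Circle, ((g • η : Circle) : ℂ) ^ n = (fun x : ℂ => (g.mob x) ^ n) ((1 : ℝ) * (η : ℂ)) := by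
    intro η
    simp only [Complex.ofReal_one, one_mul, coe_smul_circle]
  have hcont : Continuous (fun η : Circle => ((g • η : Circle) : ℂ) ^ n) :=
    (PoisB_coe_cont.comp (continuous_smul_circle g)).pow n
  simp_rw [h3]
  rw [integral_lam (fun x : ℂ => (g.mob x) ^ n) 1 (by
    have : (fun η : Circle => (fun x : ℂ => (g.mob x) ^ n) ((1 : ℝ) * (η : ℂ))) =
        fun η : Circle => ((g • η : Circle) : ℂ) ^ n := by
      funext η; rw [h3]
    rw [this]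
    exact hcont.aestronglyMeasurable)]
  have hdiff : ∀ z : ℂ, ‖z‖ ≤ 1 → DifferentiableAt ℂ (fun x : ℂ => (g.mob x) ^ n) z := by
    intro z hz
    have hd := g.den_ne_zero hz
    unfold SU11.mob
    apply DifferentiableAt.pow
    apply DifferentiableAt.div
    · fun_prop
    · unfold SU11.den; fun_prop
    · exact hd
  rw [circleAverage_of_differentiable_on_off_countable (s := ∅) Set.countable_empty]
  · have h4 : g.mob 0 = ((g • (0 : 𝔻) : 𝔻) : ℂ) := by rw [coe_smul]; rfl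
    rw [h4, hg, tr_smul_zero, PoisB_coe_z, mul_pow]
  · intro z hz
    rw [abs_one, Metric.mem_closedBall, dist_zero_right] at hz
    exact (hdiff z hz).continuousAt.continuousWithinAt
  · intro z hz
    rw [abs_one] at hz
    have := hz.1
    rw [Metric.mem_ball, dist_zero_right] at this
    exact hdiff z this.le

/-- eigenfunctions of the Poisson kernel -/
private theorem PoisB_eigen (w : ℝ → Circle → ℂ) (hw : ∀ τ, Continuous (w τ)) {C : ℝ}
    (hb : ∀ τ : ℝ, 1 ≤ τ → ∫ ξ, ‖w τ ξ‖ ^ 2 ∂lam ≤ C)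
    (hP : ∀ g : SU11, Tendsto (fun τ => ∫ ξ, w τ ξ * (Jac g ξ : ℂ) ∂lam) atTop (𝓝 0))
    (E : Circle → ℂ) (hE : Continuous E) (c : ℂ) (hc : c ≠ 0)
    (h : ∀ ξ, ∫ η : Circle, E η * (PoisB_p η ξ : ℂ) ∂lam = c * E ξ) :
    Tendsto (fun τ => ∫ ξ, w τ ξ * E ξ ∂lam) atTop (𝓝 0) := by
  obtain ⟨BE, hBE⟩ := PoisB_bdd hE
  have hBE0 : 0 ≤ BE := (norm_nonneg _).trans (hBE 1)
  have hpc : ∀ η, Continuous (fun ξ => ((PoisB_p η ξ : ℝ) : ℂ)) := fun η =>
    Complex.continuous_ofReal.comp (PoisB_p_cont.comp (Continuous.prodMk continuous_const continuous_id))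
  have key : ∀ τ, ∫ ξ, w τ ξ * E ξ ∂lam =
      c⁻¹ * ∫ η, E η * (∫ ξ, w τ ξ * (Jac (tr (PoisB_z η)) ξ : ℂ) ∂lam) ∂lam := by
    intro τ
    have e1 : ∫ η, E η * (∫ ξ, w τ ξ * (Jac (tr (PoisB_z η)) ξ : ℂ) ∂lam) ∂lam =
        ∫ η, ∫ ξ, w τ ξ * (E η * (PoisB_p η ξ : ℂ)) ∂lam ∂lam := by
      congr 1
      funext η
      rw [← integral_const_mul]
      congr 1
      funext ξ
      rw [PoisB_Jac]
      ring
    have hcont : Continuous (fun x : Circle × Circle => w τ x.2 * (E x.1 * (PoisB_p x.1 x.2 : ℂ))) := by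
      have h1 : Continuous (fun x : Circle × Circle => ((PoisB_p x.1 x.2 : ℝ) : ℂ)) :=
        Complex.continuous_ofReal.comp PoisB_p_cont
      exact ((hw τ).comp continuous_snd).mul ((hE.comp continuous_fst).mul h1)
    have e2 : ∫ η, ∫ ξ, w τ ξ * (E η * (PoisB_p η ξ : ℂ)) ∂lam ∂lam =
        ∫ ξ, ∫ η, w τ ξ * (E η * (PoisB_p η ξ : ℂ)) ∂lam ∂lam := by
      apply integral_integral_swap
      obtain ⟨D, hD⟩ := PoisB_bdd hcont
      exact Integrable.of_bound hcont.aestronglyMeasurable D (Eventually.of_forall hD)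
    rw [e1, e2]
    have e3 : ∀ ξ, ∫ η, w τ ξ * (E η * (PoisB_p η ξ : ℂ)) ∂lam = c * (w τ ξ * E ξ) := by
      intro ξ
      rw [integral_const_mul, h]
      ring
    simp_rw [e3]
    rw [integral_const_mul, ← mul_assoc, inv_mul_cancel₀ hc, one_mul]
  simp_rw [key]
  have hlim : Tendsto (fun τ => ∫ η, E η * (∫ ξ, w τ ξ * (Jac (tr (PoisB_z η)) ξ : ℂ) ∂lam) ∂lam)
      atTop (𝓝 (∫ _η : Circle, (0 : ℂ) ∂lam)) := by
    apply tendsto_integral_filter_of_dominated_convergence (fun _ => BE * (C + 9))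
    · refine Eventually.of_forall fun τ => ?_
      -- measurability of the inner integral
      have hcont : Continuous (fun x : Circle × Circle => w τ x.2 * ((PoisB_p x.1 x.2 : ℝ) : ℂ)) :=
        ((hw τ).comp continuous_snd).mul (Complex.continuous_ofReal.comp PoisB_p_cont)
      have hm : StronglyMeasurable (fun η : Circle => ∫ ξ, w τ ξ * (Jac (tr (PoisB_z η)) ξ : ℂ) ∂lam) := by
        have h1 : (fun η : Circle => ∫ ξ, w τ ξ * (Jac (tr (PoisB_z η)) ξ : ℂ) ∂lam) =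
            fun η : Circle => ∫ ξ, (fun x : Circle × Circle => w τ x.2 * ((PoisB_p x.1 x.2 : ℝ) : ℂ)) (η, ξ) ∂lam := by
          funext η
          congr 1
          funext ξ
          rw [PoisB_Jac]
        rw [h1]
        exact hcont.stronglyMeasurable.integral_prod_right'
      exact hE.aestronglyMeasurable.mul hm.aestronglyMeasurable
    · filter_upwards [eventually_ge_atTop (1 : ℝ)] with τ hτ
      refine Eventually.of_forall fun η => ?_
      rw [norm_mul]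
      have h1 : ‖∫ ξ, w τ ξ * (Jac (tr (PoisB_z η)) ξ : ℂ) ∂lam‖ ≤ C + 9 := by
        have h2 := PoisB_est (hw τ) (h := fun ξ => ((PoisB_p η ξ : ℝ) : ℂ))
          (hpc η).aestronglyMeasurable (B := 3) (fun ξ => by
            rw [Complex.norm_real, Real.norm_of_nonneg (PoisB_p_bd η ξ).1]
            exact (PoisB_p_bd η ξ).2) (δ := 1) one_pos
        have h3 : ∫ ξ, ‖((PoisB_p η ξ : ℝ) : ℂ)‖ ^ 2 ∂lam ≤ 9 := by
          calc ∫ ξ, ‖((PoisB_p η ξ : ℝ) : ℂ)‖ ^ 2 ∂lam ≤ ∫ _ξ : Circle, (9 : ℝ) ∂lam := by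
                apply integral_mono_of_nonneg (Eventually.of_forall fun _ => by positivity)
                  (integrable_const _)
                refine Eventually.of_forall fun ξ => ?_
                simp only
                rw [Complex.norm_real, Real.norm_of_nonneg (PoisB_p_bd η ξ).1]
                have := PoisB_p_bd η ξ
                nlinarith
            _ = 9 := by simp
        have h4 : ∀ ξ, w τ ξ * (Jac (tr (PoisB_z η)) ξ : ℂ) = w τ ξ * ((PoisB_p η ξ : ℝ) : ℂ) := by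
          intro ξ; rw [PoisB_Jac]
        simp_rw [h4]
        have h5 := hb τ hτ
        rw [inv_one, one_mul, one_mul] at h2
        linarith
      exact mul_le_mul (hBE η) h1 (norm_nonneg _) hBE0
    · exact integrable_const _
    · refine Eventually.of_forall fun η => ?_
      have := (hP (tr (PoisB_z η))).const_mul (E η)
      rwa [mul_zero] at this
  rw [integral_zero] at hlim
  have := hlim.const_mul c⁻¹
  rwa [mul_zero] at this

private theorem PoisB_zpow (w : ℝ → Circle → ℂ) (hw : ∀ τ, Continuous (w τ)) {C : ℝ}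
    (hb : ∀ τ : ℝ, 1 ≤ τ → ∫ ξ, ‖w τ ξ‖ ^ 2 ∂lam ≤ C)
    (hP : ∀ g : SU11, Tendsto (fun τ => ∫ ξ, w τ ξ * (Jac g ξ : ℂ) ∂lam) atTop (𝓝 0)) (n : ℤ) :
    Tendsto (fun τ => ∫ ξ : Circle, w τ ξ * ((ξ ^ n : Circle) : ℂ) ∂lam) atTop (𝓝 0) := by
  have hhalf : (((1 / 2 : ℝ) : ℂ)) ≠ 0 := by norm_num
  obtain ⟨m, rfl | rfl⟩ := n.eq_nat_or_neg
  · apply PoisB_eigen w hw hb hP _ (by fun_prop) ((((1 / 2 : ℝ) : ℂ)) ^ m) (pow_ne_zero _ hhalf)
    intro ξ
    have := PoisB_mono m ξ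
    simpa only [zpow_natCast, Circle.coe_pow] using this
  · apply PoisB_eigen w hw hb hP (fun ξ : Circle => ((ξ ^ (-(m : ℤ)) : Circle) : ℂ))
      (PoisB_coe_cont.comp (continuous_zpow _)) ((((1 / 2 : ℝ) : ℂ)) ^ m) (pow_ne_zero _ hhalf)
    intro ξ
    have h1 := congrArg conj (PoisB_mono m ξ)
    rw [← integral_conj] at h1
    have h2 : ∀ η : Circle, (((η ^ (-(m : ℤ)) : Circle) : ℂ)) = conj ((η : ℂ) ^ m) := by
      intro η
      rw [zpow_neg, zpow_natCast, Circle.coe_inv_eq_conj, Circle.coe_pow]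
    have h3 : ∀ η : Circle, conj ((η : ℂ) ^ m * ((PoisB_p η ξ : ℝ) : ℂ)) =
        ((η ^ (-(m : ℤ)) : Circle) : ℂ) * ((PoisB_p η ξ : ℝ) : ℂ) := by
      intro η
      rw [map_mul, Complex.conj_ofReal, h2]
    simp_rw [h3] at h1
    rw [h1, map_mul, h2, map_pow, Complex.conj_ofReal]

private theorem PoisB_cont (w : ℝ → Circle → ℂ) (hw : ∀ τ, Continuous (w τ)) {C : ℝ}
    (hb : ∀ τ : ℝ, 1 ≤ τ → ∫ ξ, ‖w τ ξ‖ ^ 2 ∂lam ≤ C)
    (hP : ∀ g : SU11, Tendsto (fun τ => ∫ ξ, w τ ξ * (Jac g ξ : ℂ) ∂lam) atTop (𝓝 0))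
    (F : Circle → ℂ) (hF : Continuous F) :
    Tendsto (fun τ => ∫ ξ, w τ ξ * F ξ ∂lam) atTop (𝓝 0) := by
  have : Fact ((0 : ℝ) < 1) := ⟨one_pos⟩
  obtain ⟨BF, hBF⟩ := PoisB_bdd hF
  let φ : AddCircle (1 : ℝ) ≃ₜ Circle := AddCircle.homeomorphCircle one_ne_zero
  apply PoisB_approx w hw hb hF.aestronglyMeasurable hBF
  intro ε hε
  -- approximate by a trigonometric polynomial
  let G : C(AddCircle (1 : ℝ), ℂ) := ⟨fun x => F (φ x), hF.comp φ.continuous⟩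
  have hG : G ∈ closure ((Submodule.span ℂ (Set.range (@fourier (1 : ℝ))) :
      Submodule ℂ C(AddCircle (1 : ℝ), ℂ)) : Set C(AddCircle (1 : ℝ), ℂ)) := by
    have h1 := @span_fourier_closure_eq_top (1 : ℝ) _
    have h2 : G ∈ (Submodule.span ℂ (Set.range (@fourier (1 : ℝ)))).topologicalClosure := by
      rw [h1]; exact Submodule.mem_top
    exact h2
  obtain ⟨δ, hδ0, hδ⟩ : ∃ δ : ℝ, 0 < δ ∧ δ ^ 2 ≤ ε := ⟨Real.sqrt ε, Real.sqrt_pos.2 hε,
    (Real.sq_sqrt hε.le).le⟩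
  obtain ⟨P, hPs, hPd⟩ := Metric.mem_closure_iff.1 hG δ hδ0
  refine ⟨fun ξ => P (φ.symm ξ), P.continuous.comp φ.symm.continuous, ?_, ?_⟩
  · -- span induction
    clear hPd
    induction hPs using Submodule.span_induction with
    | mem x hx =>
      obtain ⟨n, rfl⟩ := hx
      have h1 := PoisB_zpow w hw hb hP n
      have h2 : ∀ ξ : Circle, fourier n (φ.symm ξ) = ((ξ ^ n : Circle) : ℂ) := by
        intro ξ
        have h3 : AddCircle.toCircle (φ.symm ξ) = ξ := by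
          have := φ.apply_symm_apply ξ
          rwa [AddCircle.homeomorphCircle_apply] at this
        rw [fourier_apply, AddCircle.toCircle_zsmul, h3]
      simp_rw [h2]
      exact h1
    | zero => simp
    | add x y _ _ hx hy =>
      have h1 : ∀ τ, ∫ ξ, w τ ξ * (x + y) (φ.symm ξ) ∂lam =
          ∫ ξ, w τ ξ * x (φ.symm ξ) ∂lam + ∫ ξ, w τ ξ * y (φ.symm ξ) ∂lam := by
        intro τ
        have c1 : Continuous (fun ξ => w τ ξ * x (φ.symm ξ)) :=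
          (hw τ).mul (x.continuous.comp φ.symm.continuous)
        have c2 : Continuous (fun ξ => w τ ξ * y (φ.symm ξ)) :=
          (hw τ).mul (y.continuous.comp φ.symm.continuous)
        obtain ⟨D1, hD1⟩ := PoisB_bdd c1
        obtain ⟨D2, hD2⟩ := PoisB_bdd c2
        rw [← integral_add (PoisB_int c1.aestronglyMeasurable hD1)
          (PoisB_int c2.aestronglyMeasurable hD2)]
        congr 1
        funext ξ
        rw [ContinuousMap.add_apply]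
        ring
      simp_rw [h1]
      have := hx.add hy
      rwa [add_zero] at this
    | smul a x _ hx =>
      have h1 : ∀ τ, ∫ ξ, w τ ξ * (a • x) (φ.symm ξ) ∂lam =
          a * ∫ ξ, w τ ξ * x (φ.symm ξ) ∂lam := by
        intro τ
        rw [← integral_const_mul]
        congr 1
        funext ξ
        rw [ContinuousMap.smul_apply, smul_eq_mul]
        ring
      simp_rw [h1]
      have := hx.const_mul a
      rwa [mul_zero] at this
  · have h1 : ∀ ξ : Circle, ‖F ξ - P (φ.symm ξ)‖ ≤ δ := by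
      intro ξ
      have h2 := ContinuousMap.norm_coe_le_norm (G - P) (φ.symm ξ)
      rw [ContinuousMap.sub_apply] at h2
      have h3 : G (φ.symm ξ) = F ξ := by
        change F (φ (φ.symm ξ)) = F ξ
        rw [φ.apply_symm_apply]
      rw [h3] at h2
      rw [dist_eq_norm] at hPd
      exact h2.trans hPd.le
    calc ∫ ξ, ‖F ξ - P (φ.symm ξ)‖ ^ 2 ∂lam ≤ ∫ _ξ : Circle, δ ^ 2 ∂lam := by
          apply integral_mono_of_nonneg (Eventually.of_forall fun _ => by positivity)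
            (integrable_const _)
          refine Eventually.of_forall fun ξ => ?_
          exact pow_le_pow_left₀ (norm_nonneg _) (h1 ξ) 2
      _ = δ ^ 2 := by simp
      _ ≤ ε := hδ

/-- density: a bounded sequence of functionals on `L²(λ)` given by continuous functions `w_τ` and
tending to `0` on all Poisson kernels tends to `0` on all bounded measurable functions.
`T_τ(ξ^{-n})ρ^{|n|} = ∫ e^{-int} T_τ(P(ρ e^{it}, ·)) dt/2π` (dominated convergence), trigonometric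
polynomials are dense in `L²`. -/
theorem tendsto_of_poisson (w : ℝ → Circle → ℂ) (hw : ∀ τ, Continuous (w τ)) {C : ℝ}
    (hb : ∀ τ : ℝ, 1 ≤ τ → ∫ ξ, ‖w τ ξ‖ ^ 2 ∂lam ≤ C)
    (hP : ∀ g : SU11, Tendsto (fun τ => ∫ ξ, w τ ξ * (Jac g ξ : ℂ) ∂lam) atTop (𝓝 0))
    (φ : Circle → ℝ) (hφ : Measurable φ) {B : ℝ} (hφb : ∀ ξ, |φ ξ| ≤ B) :
    Tendsto (fun τ => ∫ ξ, w τ ξ * (φ ξ : ℂ) ∂lam) atTop (𝓝 0) := by
  have hm : AEStronglyMeasurable (fun ξ => (φ ξ : ℂ)) lam :=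
    (Complex.measurable_ofReal.comp hφ).aestronglyMeasurable
  have hB : ∀ ξ, ‖(φ ξ : ℂ)‖ ≤ B := fun ξ => by
    rw [Complex.norm_real, Real.norm_eq_abs]; exact hφb ξ
  apply PoisB_approx w hw hb hm hB
  intro ε hε
  have hmem : MemLp (fun ξ => (φ ξ : ℂ)) (ENNReal.ofReal 2) lam :=
    MemLp.of_bound hm B (Eventually.of_forall hB)
  obtain ⟨g, hg, -⟩ := hmem.exists_boundedContinuous_integral_rpow_sub_le two_pos hε
  refine ⟨fun ξ => g ξ, g.continuous, PoisB_cont w hw hb hP _ g.continuous, ?_⟩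
  have : ∀ ξ, ‖(φ ξ : ℂ) - g ξ‖ ^ 2 = ‖(φ ξ : ℂ) - g ξ‖ ^ (2 : ℝ) := by
    intro ξ; rw [Real.rpow_two]
  simp_rw [this]
  exact hg

end

end Pool.Agent.Lib.MP_b16327_pr
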