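import Pool.Agent.Lib.MP_b16327_pr.PoisA
import Pool.Agent.Lib.MP_b16327_pr.PoisB

/-! # Asymptotics of circle averages -/

namespace Pool.Agent.Lib.MP_b16327_pr

open Complex MeasureTheory ComplexConjugate Filter
open scoped Complex.UnitDisc Topology BoundedContinuousFunction

noncomputable section

private theorem PoisC_dL (ξ : Circle) {τ : ℝ} (hτ : 0 ≤ τ) : dL (ξ • rad τ) 0 = τ := by
  rw [← rotG_smul]
  have h0 : rotG ξ • (0 : 𝔻) = 0 := by
    apply UnitDisc.coe_injective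
    rw [coe_smul]
    simp [SU11.mob, rotG]
  rw [← h0, dL_smul, dL_rad hτ]

private theorem PoisC_cont {E : Type*} [TopologicalSpace E] {F : 𝔻 → E} (hF : Continuous F)
    (x : 𝔻) : Continuous (fun ξ : Circle => F (ξ • x)) :=
  hF.comp (continuous_rot_smul.comp (continuous_id.prodMk continuous_const))

private theorem PoisC_int {E : Type*} [NormedAddCommGroup E] {F : Circle → E} (hF : Continuous F) :
    Integrable F lam :=
  hF.integrable_of_hasCompactSupport (HasCompactSupport.of_compactSpace F)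

/-- first moments on circles -/
private theorem PoisC_first {R : ℝ} (hR0 : 0 < R) (hR : R < 1) {u : 𝔻 → ℂ} (hu : Continuous u)
    (hL : CLip u) (hM : ∀ z, Mop R u z = u z) :
    ∃ C : ℝ, 0 ≤ C ∧ ∀ τ : ℝ, 1 ≤ τ → ∫ ξ : Circle, ‖u (ξ • rad τ)‖ ∂lam ≤ C * Real.sqrt τ := by
  obtain ⟨C, hC, h⟩ := l2_bound hR0 hR hu hL hM
  refine ⟨C + 1 / 2, by positivity, fun τ hτ => ?_⟩
  have hτ0 : 0 < τ := lt_of_lt_of_le one_pos hτ
  have hs : 0 < Real.sqrt τ := Real.sqrt_pos.2 hτ0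
  have hss : Real.sqrt τ * Real.sqrt τ = τ := Real.mul_self_sqrt hτ0.le
  have h1 := h (rad τ)
  rw [dL_rad hτ0.le] at h1
  have hcont : Continuous (fun ξ : Circle => u (ξ • rad τ)) := PoisC_cont hu (rad τ)
  have h2 : ∫ ξ : Circle, ‖u (ξ • rad τ)‖ ∂lam ≤
      ∫ ξ : Circle, (‖u (ξ • rad τ)‖ ^ 2 * (2 * Real.sqrt τ)⁻¹ + Real.sqrt τ / 2) ∂lam := by
    apply integral_mono (PoisC_int hcont.norm)
      (PoisC_int (((hcont.norm.pow 2).mul continuous_const).add continuous_const))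
    intro ξ
    show ‖u (ξ • rad τ)‖ ≤ ‖u (ξ • rad τ)‖ ^ 2 * (2 * Real.sqrt τ)⁻¹ + Real.sqrt τ / 2
    have h3 : 0 ≤ (‖u (ξ • rad τ)‖ - Real.sqrt τ) ^ 2 * (2 * Real.sqrt τ)⁻¹ := by positivity
    have h4 : (‖u (ξ • rad τ)‖ - Real.sqrt τ) ^ 2 * (2 * Real.sqrt τ)⁻¹ =
        ‖u (ξ • rad τ)‖ ^ 2 * (2 * Real.sqrt τ)⁻¹ - ‖u (ξ • rad τ)‖ + Real.sqrt τ / 2 := by
      field_simp
      ring
    linarith
  refine h2.trans ?_
  have hi : Integrable (fun ξ : Circle => ‖u (ξ • rad τ)‖ ^ 2 * (2 * Real.sqrt τ)⁻¹) lam :=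
    PoisC_int ((hcont.norm.pow 2).mul continuous_const)
  rw [integral_add hi (integrable_const _), integral_mul_const]
  have h5 : (∫ ξ : Circle, ‖u (ξ • rad τ)‖ ^ 2 ∂lam) * (2 * Real.sqrt τ)⁻¹ ≤
      C * (1 + τ) * (2 * Real.sqrt τ)⁻¹ := by gcongr
  have h6 : C * (1 + τ) * (2 * Real.sqrt τ)⁻¹ ≤ C * Real.sqrt τ := by
    rw [← div_eq_mul_inv, div_le_iff₀ (by positivity)]
    have : C * Real.sqrt τ * (2 * Real.sqrt τ) = C * (2 * τ) := by
      calc C * Real.sqrt τ * (2 * Real.sqrt τ) = 2 * C * (Real.sqrt τ * Real.sqrt τ) := by ring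
        _ = C * (2 * τ) := by rw [hss]; ring
    rw [this]
    apply mul_le_mul_of_nonneg_left _ hC
    linarith
  have h7 : ∫ _ξ : Circle, Real.sqrt τ / 2 ∂lam = Real.sqrt τ / 2 := by simp
  rw [h7]
  linarith

/-- increments of `W = u u' + κ - b Λ₀` -/
private theorem PoisC_incr {u u' κ : 𝔻 → ℂ} (hL : CLip u) (hL' : CLip u')
    (hκb : ∃ C : ℝ, ∀ z, ‖κ z‖ ≤ C) (b : ℂ) (D : ℝ) (hD : 0 ≤ D) :
    ∃ C : ℝ, 0 ≤ C ∧ ∀ z w : 𝔻, dL z w ≤ D →
      ‖(u z * u' z + κ z - b * (dL z 0 : ℂ)) - (u w * u' w + κ w - b * (dL w 0 : ℂ))‖ ≤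
        C * (1 + ‖u w‖ + ‖u' w‖) ∧ (1 + ‖u z‖ + ‖u' z‖) ≤ C * (1 + ‖u w‖ + ‖u' w‖) := by
  obtain ⟨A, hA, hu⟩ := hL
  obtain ⟨A', hA', hu'⟩ := hL'
  obtain ⟨K, hK⟩ := hκb
  have hK0 : 0 ≤ K := (norm_nonneg _).trans (hK 0)
  have hlog : 0 ≤ Real.log 4 := Real.log_nonneg (by norm_num)
  set a := A * (1 + D) with ha
  set a' := A' * (1 + D) with ha'
  have ha0 : 0 ≤ a := by positivity
  have ha0' : 0 ≤ a' := by positivity
  refine ⟨a * a' + a + a' + 2 * K + ‖b‖ * (D + Real.log 4) + 1, by positivity, fun z w hzw => ?_⟩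
  have h1 : ‖u z - u w‖ ≤ a := (hu z w).trans (by
    rw [ha]; apply mul_le_mul_of_nonneg_left _ hA; linarith)
  have h1' : ‖u' z - u' w‖ ≤ a' := (hu' z w).trans (by
    rw [ha']; apply mul_le_mul_of_nonneg_left _ hA'; linarith)
  have h2 : |dL z 0 - dL w 0| ≤ D + Real.log 4 := by
    have t1 := dL_triangle z w 0
    have t2 := dL_triangle w z 0
    rw [dL_comm w z] at t2
    rw [abs_le]
    constructor <;> linarith
  have hn : 0 ≤ ‖u w‖ := norm_nonneg _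
  have hn' : 0 ≤ ‖u' w‖ := norm_nonneg _
  have hb : 0 ≤ ‖b‖ := norm_nonneg _
  constructor
  · have e : (u z * u' z + κ z - b * (dL z 0 : ℂ)) - (u w * u' w + κ w - b * (dL w 0 : ℂ)) =
        (u z - u w) * (u' z - u' w) + (u z - u w) * u' w + u w * (u' z - u' w) + κ z + (-κ w) +
          (-(b * ((dL z 0 - dL w 0 : ℝ) : ℂ))) := by
      push_cast
      ring
    rw [e]
    have n1 : ‖(u z - u w) * (u' z - u' w)‖ ≤ a * a' := by
      rw [norm_mul]; exact mul_le_mul h1 h1' (norm_nonneg _) ha0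
    have n2 : ‖(u z - u w) * u' w‖ ≤ a * ‖u' w‖ := by
      rw [norm_mul]; exact mul_le_mul_of_nonneg_right h1 hn'
    have n3 : ‖u w * (u' z - u' w)‖ ≤ ‖u w‖ * a' := by
      rw [norm_mul]; exact mul_le_mul_of_nonneg_left h1' hn
    have n4 : ‖κ z‖ ≤ K := hK z
    have n5 : ‖-κ w‖ ≤ K := by rw [norm_neg]; exact hK w
    have n6 : ‖-(b * ((dL z 0 - dL w 0 : ℝ) : ℂ))‖ ≤ ‖b‖ * (D + Real.log 4) := by
      rw [norm_neg, norm_mul, Complex.norm_real, Real.norm_eq_abs]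
      exact mul_le_mul_of_nonneg_left h2 hb
    have t := (norm_add_le ((u z - u w) * (u' z - u' w) + (u z - u w) * u' w +
      u w * (u' z - u' w) + κ z + (-κ w)) (-(b * ((dL z 0 - dL w 0 : ℝ) : ℂ))))
    have t1 := (norm_add_le ((u z - u w) * (u' z - u' w) + (u z - u w) * u' w +
      u w * (u' z - u' w) + κ z) (-κ w))
    have t2 := (norm_add_le ((u z - u w) * (u' z - u' w) + (u z - u w) * u' w +
      u w * (u' z - u' w)) (κ z))
    have t3 := (norm_add_le ((u z - u w) * (u' z - u' w) + (u z - u w) * u' w)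
      (u w * (u' z - u' w)))
    have t4 := (norm_add_le ((u z - u w) * (u' z - u' w)) ((u z - u w) * u' w))
    have big : ‖(u z - u w) * (u' z - u' w) + (u z - u w) * u' w + u w * (u' z - u' w) + κ z +
        (-κ w) + (-(b * ((dL z 0 - dL w 0 : ℝ) : ℂ)))‖ ≤
        a * a' + a * ‖u' w‖ + ‖u w‖ * a' + K + K + ‖b‖ * (D + Real.log 4) := by linarith
    refine big.trans ?_
    have p1 : 0 ≤ a * a' := by positivity
    have p2 : 0 ≤ ‖b‖ * (D + Real.log 4) := by positivity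
    have p3 : 0 ≤ a * ‖u w‖ := by positivity
    have p4 : 0 ≤ a' * ‖u' w‖ := by positivity
    have p5 : 0 ≤ (a * a' + 2 * K + ‖b‖ * (D + Real.log 4) + 1) * (‖u w‖ + ‖u' w‖) := by
      positivity
    nlinarith
  · have t1 : ‖u z‖ ≤ ‖u w‖ + a := by
      have := norm_sub_norm_le (u z) (u w)
      linarith
    have t2 : ‖u' z‖ ≤ ‖u' w‖ + a' := by
      have := norm_sub_norm_le (u' z) (u' w)
      linarith
    have p1 : 0 ≤ a * a' := by positivity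
    have p2 : 0 ≤ ‖b‖ * (D + Real.log 4) := by positivity
    have p5 : 0 ≤ (a * a' + a + a' + 2 * K + ‖b‖ * (D + Real.log 4)) * (‖u w‖ + ‖u' w‖) := by
      positivity
    nlinarith

/-- THE ASYMPTOTICS.  Let `W = u u' + κ - (Bm/ℓ) Λ₀`, `M W = W`, `W' = c₁⁻¹ 𝒢_m W` (`Gm_cmv`),
`|W' - W| ≤ C (1 + |u| + |u'|)` (`norm_Gm_sub_le`).  By `l4_bound`, `‖W'(· rad τ)‖_{L²} ≤ C (1 + τ)`.
For each `g`: `W'(g 0) = ∫ W'(g (ξ rad τ)) dλ(ξ)`, and
`|W'(g (ξ rad τ)) - W'((gξ) rad τ)| ≤ C_g (1 + |u| + |u'|)((gξ) rad τ)` (`radial_close`, coarse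
Lipschitz), so with `integral_smul_lam` and `l2_bound`
`∫ W'(ξ rad τ) J_g(ξ) dλ = W'(g0) + O_g(√τ)`.  Apply `tendsto_of_poisson` to
`w_τ(ξ) = W'(ξ rad τ)/τ`. -/
theorem circle_asymptotics {R : ℝ} (hR0 : 0 < R) (hR : R < 1) {u u' κ : 𝔻 → ℂ}
    (hu : Continuous u) (hu' : Continuous u') (hκ : Continuous κ) (hL : CLip u) (hL' : CLip u')
    (hκb : ∃ C : ℝ, ∀ z, ‖κ z‖ ≤ C) (hM : ∀ z, Mop R u z = u z) (hM' : ∀ z, Mop R u' z = u' z)
    {Bm : ℂ} (hB : ∀ z, Mop R (fun w => u w * u' w + κ w) z - (u z * u' z + κ z) = Bm)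
    (φ : Circle → ℝ) (hφ : Measurable φ) {B : ℝ} (hφb : ∀ ξ, |φ ξ| ≤ B) :
    Tendsto (fun τ : ℝ => (τ : ℂ)⁻¹ * ∫ ξ : Circle, u (ξ • rad τ) * u' (ξ • rad τ) * (φ ξ : ℂ) ∂lam)
      atTop (𝓝 (Bm / ellR R * ((∫ ξ, φ ξ ∂lam : ℝ) : ℂ))) := by
  have hell := ellR_pos hR0 hR
  have hellC : (ellR R : ℂ) ≠ 0 := by exact_mod_cast hell.ne'
  have hB0 : 0 ≤ B := (abs_nonneg _).trans (hφb 1)
  set b : ℂ := Bm / ellR R with hb
  set Wf : 𝔻 → ℂ := fun z => u z * u' z + κ z - b * (dL z 0 : ℂ) with hWf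
  set S : 𝔻 → ℝ := fun z => 1 + ‖u z‖ + ‖u' z‖ with hS
  have hS1 : ∀ z, 1 ≤ S z := fun z => by
    simp only [hS]
    have := norm_nonneg (u z)
    have := norm_nonneg (u' z)
    linarith
  have hScont : Continuous S := by
    simp only [hS]
    fun_prop
  have hdLc : Continuous (fun z : 𝔻 => dL z 0) :=
    continuous_dL.comp (continuous_id.prodMk continuous_const)
  have hWc : Continuous Wf := by
    simp only [hWf]
    exact ((hu.mul hu').add hκ).sub (continuous_const.mul (Complex.continuous_ofReal.comp hdLc))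
  -- `M W = W`
  have hMW : ∀ z, Mop R Wf z = Wf z := by
    intro z
    have h1 : Mop R Wf z = Mop R (fun w => u w * u' w + κ w) z -
        Mop R (fun w => b * (dL w 0 : ℂ)) z := by
      apply Mop_sub hR ((hu.mul hu').add hκ)
        (continuous_const.mul (Complex.continuous_ofReal.comp hdLc))
    have h2 : Mop R (fun w => b * (dL w 0 : ℂ)) z = b * ((dL z 0 + ellR R : ℝ) : ℂ) := by
      rw [Mop_mul_left, Mop_ofReal, Mop_dL hR0 hR]
    have h3 := hB z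
    have h4 : b * (ellR R : ℂ) = Bm := by
      rw [hb]
      field_simp
    rw [h1, h2]
    simp only [hWf]
    push_cast
    linear_combination h3 - h4
  -- the CMV function
  have hc1 := c1_pos hR0 hR
  have hc1C : (c1 R : ℂ) ≠ 0 := by exact_mod_cast hc1.ne'
  set W' : 𝔻 → ℂ := fun z => (c1 R : ℂ)⁻¹ * Gm R Wf z with hW'
  have hCMV : CMV W' := (Gm_cmv hR0 hR hWc hMW).const_mul _
  have hW'c : Continuous W' := hCMV.cont
  -- increments
  set D₀ : ℝ := -Real.log (1 - R ^ 2) with hD₀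
  have hR2 : 0 < 1 - R ^ 2 := by nlinarith
  have hD₀0 : 0 ≤ D₀ := by
    have : Real.log (1 - R ^ 2) ≤ 0 := Real.log_nonpos hR2.le (by nlinarith)
    rw [hD₀]; linarith
  obtain ⟨C₁, hC₁, hinc⟩ := PoisC_incr (κ := κ) hL hL' hκb b D₀ hD₀0
  have hpd : ∀ z w : 𝔻, pd z w < R → dL z w ≤ D₀ := by
    intro z w h
    rw [dL_eq_pd, hD₀, neg_le_neg_iff]
    apply Real.log_le_log hR2
    have := pd_nonneg z w
    nlinarith
  have hWW' : ∀ z, ‖W' z - Wf z‖ ≤ C₁ * S z := by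
    intro z
    have h1 : ‖Gm R Wf z - c1 R • Wf z‖ ≤ c1 R * (C₁ * S z) := by
      apply norm_Gm_sub_le hR0 hR hWc
      intro w hw
      have hw' : dL w z ≤ D₀ := by
        rw [dL_comm]
        exact hpd z w hw
      exact (hinc w z hw').1
    have h2 : W' z - Wf z = (c1 R : ℂ)⁻¹ * (Gm R Wf z - c1 R • Wf z) := by
      simp only [hW', Complex.real_smul]
      field_simp
    rw [h2, norm_mul, norm_inv, Complex.norm_real, Real.norm_of_nonneg hc1.le,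
      inv_mul_le_iff₀ hc1]
    exact h1
  have hincW' : ∀ D : ℝ, 0 ≤ D → ∃ C : ℝ, 0 ≤ C ∧ ∀ z w : 𝔻, dL z w ≤ D →
      ‖W' z - W' w‖ ≤ C * S w := by
    intro D hD
    obtain ⟨C₂, hC₂, hinc2⟩ := PoisC_incr (κ := κ) hL hL' hκb b D hD
    refine ⟨C₁ * C₂ + C₂ + C₁, by positivity, fun z w hzw => ?_⟩
    obtain ⟨i1, i2⟩ := hinc2 z w hzw
    have e : W' z - W' w = (W' z - Wf z) + (Wf z - Wf w) + -(W' w - Wf w) := by ring
    rw [e]
    have t1 := norm_add_le ((W' z - Wf z) + (Wf z - Wf w)) (-(W' w - Wf w))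
    have t2 := norm_add_le (W' z - Wf z) (Wf z - Wf w)
    rw [norm_neg] at t1
    have t3 := hWW' z
    have t4 := hWW' w
    have t5 : C₁ * S z ≤ C₁ * (C₂ * S w) := mul_le_mul_of_nonneg_left i2 hC₁
    have t6 : ‖Wf z - Wf w‖ ≤ C₂ * S w := i1
    nlinarith
  -- first moment of `S`
  obtain ⟨Cu, hCu, hmu⟩ := PoisC_first hR0 hR hu hL hM
  obtain ⟨Cu', hCu', hmu'⟩ := PoisC_first hR0 hR hu' hL' hM'
  have hSmom : ∀ τ : ℝ, 1 ≤ τ → ∫ ξ : Circle, S (ξ • rad τ) ∂lam ≤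
      (1 + Cu + Cu') * Real.sqrt τ := by
    intro τ hτ
    have hcu := (PoisC_cont hu (rad τ)).norm
    have hcu' := (PoisC_cont hu' (rad τ)).norm
    have e : ∫ ξ : Circle, S (ξ • rad τ) ∂lam = 1 + ∫ ξ : Circle, ‖u (ξ • rad τ)‖ ∂lam +
        ∫ ξ : Circle, ‖u' (ξ • rad τ)‖ ∂lam := by
      simp only [hS]
      have i12 : Integrable (fun ξ : Circle => 1 + ‖u (ξ • rad τ)‖) lam :=
        PoisC_int (continuous_const.add hcu)
      rw [integral_add i12 (PoisC_int hcu'), integral_add (integrable_const _) (PoisC_int hcu)]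
      simp
    rw [e]
    have h1 := hmu τ hτ
    have h2 := hmu' τ hτ
    have h3 : 1 ≤ Real.sqrt τ := Real.one_le_sqrt.2 hτ
    nlinarith
  -- second moment of `W'`
  obtain ⟨F, hF0, hF⟩ := l4_bound hR0 hR hu hL hM
  obtain ⟨F', hF0', hF'⟩ := l4_bound hR0 hR hu' hL' hM'
  obtain ⟨K, hK⟩ := hκb
  have hK0 : 0 ≤ K := (norm_nonneg _).trans (hK 0)
  obtain ⟨G, hG0, hG⟩ := l2_bound hR0 hR hu hL hM
  obtain ⟨G', hG0', hG'⟩ := l2_bound hR0 hR hu' hL' hM'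
  have hW'2 : ∃ C : ℝ, ∀ τ : ℝ, 1 ≤ τ → ∫ ξ : Circle, ‖W' (ξ • rad τ)‖ ^ 2 ∂lam ≤ C * τ ^ 2 := by
    refine ⟨6 * (C₁ ^ 2 * (1 + 2 * G + 2 * G')) + 2 * (3 * (2 * F + 2 * F' + K ^ 2 + ‖b‖ ^ 2)),
      fun τ hτ => ?_⟩
    have hτ0 : 0 < τ := lt_of_lt_of_le one_pos hτ
    have hcu : Continuous (fun ξ : Circle => u (ξ • rad τ)) := PoisC_cont hu (rad τ)
    have hcu' : Continuous (fun ξ : Circle => u' (ξ • rad τ)) := PoisC_cont hu' (rad τ)
    have hcW' : Continuous (fun ξ : Circle => W' (ξ • rad τ)) := PoisC_cont hW'c (rad τ)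
    have hpt : ∀ ξ : Circle, ‖W' (ξ • rad τ)‖ ^ 2 ≤
        6 * C₁ ^ 2 * (1 + ‖u (ξ • rad τ)‖ ^ 2 + ‖u' (ξ • rad τ)‖ ^ 2) +
        6 * ((‖u (ξ • rad τ)‖ ^ 4 + ‖u' (ξ • rad τ)‖ ^ 4) / 2 + K ^ 2 + ‖b‖ ^ 2 * τ ^ 2) := by
      intro ξ
      have q1 := hWW' (ξ • rad τ)
      have q2 : ‖Wf (ξ • rad τ)‖ ≤ ‖u (ξ • rad τ)‖ * ‖u' (ξ • rad τ)‖ + K + ‖b‖ * τ := by
        simp only [hWf]
        rw [PoisC_dL ξ hτ0.le]
        have s1 := norm_sub_le (u (ξ • rad τ) * u' (ξ • rad τ) + κ (ξ • rad τ)) (b * (τ : ℂ))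
        have s2 := norm_add_le (u (ξ • rad τ) * u' (ξ • rad τ)) (κ (ξ • rad τ))
        rw [norm_mul (u (ξ • rad τ))] at s2
        rw [norm_mul b, Complex.norm_real, Real.norm_of_nonneg hτ0.le] at s1
        have := hK (ξ • rad τ)
        linarith
      have q3 : ‖W' (ξ • rad τ)‖ ≤ ‖Wf (ξ • rad τ)‖ + C₁ * S (ξ • rad τ) := by
        have := norm_sub_norm_le (W' (ξ • rad τ)) (Wf (ξ • rad τ))
        linarith
      set p := ‖u (ξ • rad τ)‖ with hp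
      set p' := ‖u' (ξ • rad τ)‖ with hp'
      have hp0 : 0 ≤ p := norm_nonneg _
      have hp0' : 0 ≤ p' := norm_nonneg _
      have hSe : S (ξ • rad τ) = 1 + p + p' := rfl
      rw [hSe] at q3
      have q4 : ‖W' (ξ • rad τ)‖ ≤ (p * p' + K + ‖b‖ * τ) + C₁ * (1 + p + p') := by linarith
      have q5 : ‖W' (ξ • rad τ)‖ ^ 2 ≤ ((p * p' + K + ‖b‖ * τ) + C₁ * (1 + p + p')) ^ 2 :=
        pow_le_pow_left₀ (norm_nonneg _) q4 2
      refine q5.trans ?_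
      have r1 : ((p * p' + K + ‖b‖ * τ) + C₁ * (1 + p + p')) ^ 2 ≤
          2 * (p * p' + K + ‖b‖ * τ) ^ 2 + 2 * (C₁ * (1 + p + p')) ^ 2 := by
        nlinarith [sq_nonneg ((p * p' + K + ‖b‖ * τ) - C₁ * (1 + p + p'))]
      have r2 : (p * p' + K + ‖b‖ * τ) ^ 2 ≤ 3 * ((p * p') ^ 2 + K ^ 2 + (‖b‖ * τ) ^ 2) := by
        nlinarith [sq_nonneg (p * p' - K), sq_nonneg (K - ‖b‖ * τ), sq_nonneg (p * p' - ‖b‖ * τ)]
      have r3 : (1 + p + p') ^ 2 ≤ 3 * (1 + p ^ 2 + p' ^ 2) := by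
        nlinarith [sq_nonneg (p - 1), sq_nonneg (p' - 1), sq_nonneg (p - p')]
      have r4 : (p * p') ^ 2 ≤ (p ^ 4 + p' ^ 4) / 2 := by
        nlinarith [sq_nonneg (p ^ 2 - p' ^ 2)]
      have r5 : (C₁ * (1 + p + p')) ^ 2 ≤ C₁ ^ 2 * (3 * (1 + p ^ 2 + p' ^ 2)) := by
        rw [mul_pow]
        exact mul_le_mul_of_nonneg_left r3 (sq_nonneg _)
      rw [mul_pow] at r2
      rw [mul_pow ‖b‖] at r2
      rw [mul_pow] at r4
      nlinarith
    have hint : ∫ ξ : Circle, ‖W' (ξ • rad τ)‖ ^ 2 ∂lam ≤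
        ∫ ξ : Circle, (6 * C₁ ^ 2 * (1 + ‖u (ξ • rad τ)‖ ^ 2 + ‖u' (ξ • rad τ)‖ ^ 2) +
        6 * ((‖u (ξ • rad τ)‖ ^ 4 + ‖u' (ξ • rad τ)‖ ^ 4) / 2 + K ^ 2 + ‖b‖ ^ 2 * τ ^ 2)) ∂lam :=
      integral_mono (PoisC_int (hcW'.norm.pow 2)) (PoisC_int
        ((continuous_const.mul ((continuous_const.add (hcu.norm.pow 2)).add (hcu'.norm.pow 2))).add
          (continuous_const.mul (((((hcu.norm.pow 4).add (hcu'.norm.pow 4)).div_const 2).add
            continuous_const).add continuous_const)))) hpt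
    refine hint.trans ?_
    have i2 : Integrable (fun ξ : Circle => ‖u (ξ • rad τ)‖ ^ 2) lam := PoisC_int (hcu.norm.pow 2)
    have i2' : Integrable (fun ξ : Circle => ‖u' (ξ • rad τ)‖ ^ 2) lam :=
      PoisC_int (hcu'.norm.pow 2)
    have i4 : Integrable (fun ξ : Circle => ‖u (ξ • rad τ)‖ ^ 4) lam := PoisC_int (hcu.norm.pow 4)
    have i4' : Integrable (fun ξ : Circle => ‖u' (ξ • rad τ)‖ ^ 4) lam :=
      PoisC_int (hcu'.norm.pow 4)
    have e : ∫ ξ : Circle, (6 * C₁ ^ 2 * (1 + ‖u (ξ • rad τ)‖ ^ 2 + ‖u' (ξ • rad τ)‖ ^ 2) +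
        6 * ((‖u (ξ • rad τ)‖ ^ 4 + ‖u' (ξ • rad τ)‖ ^ 4) / 2 + K ^ 2 + ‖b‖ ^ 2 * τ ^ 2)) ∂lam =
        6 * C₁ ^ 2 * (1 + ∫ ξ : Circle, ‖u (ξ • rad τ)‖ ^ 2 ∂lam +
          ∫ ξ : Circle, ‖u' (ξ • rad τ)‖ ^ 2 ∂lam) +
        6 * ((∫ ξ : Circle, ‖u (ξ • rad τ)‖ ^ 4 ∂lam + ∫ ξ : Circle, ‖u' (ξ • rad τ)‖ ^ 4 ∂lam) / 2 +
          K ^ 2 + ‖b‖ ^ 2 * τ ^ 2) := by
      have j1 : Integrable (fun ξ : Circle => 1 + ‖u (ξ • rad τ)‖ ^ 2) lam :=
        (integrable_const _).add i2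
      have j2 : Integrable (fun ξ : Circle => 1 + ‖u (ξ • rad τ)‖ ^ 2 + ‖u' (ξ • rad τ)‖ ^ 2) lam :=
        j1.add i2'
      have j3 : Integrable (fun ξ : Circle => ‖u (ξ • rad τ)‖ ^ 4 + ‖u' (ξ • rad τ)‖ ^ 4) lam :=
        i4.add i4'
      have j4 : Integrable (fun ξ : Circle =>
          (‖u (ξ • rad τ)‖ ^ 4 + ‖u' (ξ • rad τ)‖ ^ 4) / 2) lam := j3.div_const _
      have j5 : Integrable (fun ξ : Circle =>
          (‖u (ξ • rad τ)‖ ^ 4 + ‖u' (ξ • rad τ)‖ ^ 4) / 2 + K ^ 2) lam :=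
        j4.add (integrable_const _)
      have j6 : Integrable (fun ξ : Circle =>
          (‖u (ξ • rad τ)‖ ^ 4 + ‖u' (ξ • rad τ)‖ ^ 4) / 2 + K ^ 2 + ‖b‖ ^ 2 * τ ^ 2) lam :=
        j5.add (integrable_const _)
      rw [integral_add (j2.const_mul _) (j6.const_mul _), integral_const_mul, integral_const_mul,
        integral_add j1 i2', integral_add (integrable_const _) i2,
        integral_add j5 (integrable_const _), integral_add j4 (integrable_const _), integral_div,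
        integral_add i4 i4']
      simp
    rw [e]
    have g1 := hG (rad τ)
    have g1' := hG' (rad τ)
    have f1 := hF (rad τ)
    have f1' := hF' (rad τ)
    rw [dL_rad hτ0.le] at g1 g1' f1 f1'
    have hτ2 : τ ≤ τ ^ 2 := by nlinarith
    have hτ3 : 1 ≤ τ ^ 2 := by nlinarith
    have g2 : G * (1 + τ) ≤ G * (2 * τ ^ 2) := mul_le_mul_of_nonneg_left (by linarith) hG0
    have g2' : G' * (1 + τ) ≤ G' * (2 * τ ^ 2) := mul_le_mul_of_nonneg_left (by linarith) hG0'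
    have f2 : F * (1 + τ) ^ 2 ≤ F * (4 * τ ^ 2) :=
      mul_le_mul_of_nonneg_left (by nlinarith) hF0
    have f2' : F' * (1 + τ) ^ 2 ≤ F' * (4 * τ ^ 2) :=
      mul_le_mul_of_nonneg_left (by nlinarith) hF0'
    have a1 : 1 + ∫ ξ : Circle, ‖u (ξ • rad τ)‖ ^ 2 ∂lam + ∫ ξ : Circle, ‖u' (ξ • rad τ)‖ ^ 2 ∂lam ≤
        (1 + 2 * G + 2 * G') * τ ^ 2 := by linarith
    have a2 : (∫ ξ : Circle, ‖u (ξ • rad τ)‖ ^ 4 ∂lam + ∫ ξ : Circle, ‖u' (ξ • rad τ)‖ ^ 4 ∂lam) / 2 +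
          K ^ 2 + ‖b‖ ^ 2 * τ ^ 2 ≤ (2 * F + 2 * F' + K ^ 2 + ‖b‖ ^ 2) * τ ^ 2 := by
      have : K ^ 2 ≤ K ^ 2 * τ ^ 2 := le_mul_of_one_le_right (sq_nonneg _) hτ3
      linarith
    have a3 : 6 * C₁ ^ 2 * (1 + ∫ ξ : Circle, ‖u (ξ • rad τ)‖ ^ 2 ∂lam +
          ∫ ξ : Circle, ‖u' (ξ • rad τ)‖ ^ 2 ∂lam) ≤
        6 * C₁ ^ 2 * ((1 + 2 * G + 2 * G') * τ ^ 2) :=
      mul_le_mul_of_nonneg_left a1 (by positivity)
    linarith
  obtain ⟨C₃, hC₃⟩ := hW'2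
  -- the normalised functions
  set w : ℝ → Circle → ℂ := fun τ ξ => ((|τ| : ℝ) : ℂ)⁻¹ * W' (ξ • rad τ) with hw
  have hwc : ∀ τ, Continuous (w τ) := fun τ => continuous_const.mul (PoisC_cont hW'c (rad τ))
  have hwb : ∀ τ : ℝ, 1 ≤ τ → ∫ ξ, ‖w τ ξ‖ ^ 2 ∂lam ≤ C₃ := by
    intro τ hτ
    have hτ0 : 0 < τ := lt_of_lt_of_le one_pos hτ
    have e : ∀ ξ : Circle, ‖w τ ξ‖ ^ 2 = (τ ^ 2)⁻¹ * ‖W' (ξ • rad τ)‖ ^ 2 := by
      intro ξ
      simp only [hw]
      rw [norm_mul, norm_inv, Complex.norm_real, Real.norm_eq_abs, abs_abs, abs_of_pos hτ0, mul_pow,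
        inv_pow]
    simp_rw [e]
    rw [integral_const_mul, inv_mul_le_iff₀ (by positivity), mul_comm (τ ^ 2)]
    exact hC₃ τ hτ
  have hsqrt : Tendsto (fun τ : ℝ => (Real.sqrt τ)⁻¹) atTop (𝓝 0) :=
    tendsto_inv_atTop_zero.comp Real.tendsto_sqrt_atTop
  have hinv : Tendsto (fun τ : ℝ => τ⁻¹) atTop (𝓝 0) := tendsto_inv_atTop_zero
  have hP : ∀ g : SU11, Tendsto (fun τ => ∫ ξ, w τ ξ * (Jac g ξ : ℂ) ∂lam) atTop (𝓝 0) := by
    intro g
    obtain ⟨Dg, hDg⟩ := radial_close g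
    obtain ⟨Cg, hCg, hincg⟩ := hincW' (max Dg 0) (le_max_right _ _)
    -- bound
    have hbd : ∀ τ : ℝ, 1 ≤ τ → ‖∫ ξ, w τ ξ * (Jac g ξ : ℂ) ∂lam‖ ≤
        τ⁻¹ * ‖W' (g • (0 : 𝔻))‖ + (Cg * (4 * Real.exp (Lg g)) * (1 + Cu + Cu')) *
          (Real.sqrt τ)⁻¹ := by
      intro τ hτ
      have hτ0 : 0 < τ := lt_of_lt_of_le one_pos hτ
      have hcF : Continuous (fun ξ : Circle => W' (ξ • rad τ)) := PoisC_cont hW'c (rad τ)
      have e1 : ∫ ξ, w τ ξ * (Jac g ξ : ℂ) ∂lam = ((τ : ℝ) : ℂ)⁻¹ *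
          ∫ ξ : Circle, W' ((g • ξ) • rad τ) ∂lam := by
        rw [integral_smul_lam g (fun ξ => W' (ξ • rad τ)) hcF, ← integral_const_mul]
        apply integral_congr_ae
        apply Eventually.of_forall
        intro ξ
        simp only [hw, abs_of_pos hτ0]
        ring
      have e2 : ∫ ξ : Circle, W' (g • (ξ • rad τ)) ∂lam = W' (g • (0 : 𝔻)) := hCMV.mean g (rad τ)
      have c1 : Continuous (fun ξ : Circle => W' ((g • ξ) • rad τ)) :=
        hcF.comp (continuous_smul_circle g)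
      have c2 : Continuous (fun ξ : Circle => W' (g • (ξ • rad τ))) :=
        hW'c.comp ((continuous_smul_disc g).comp (PoisC_cont continuous_id (rad τ)))
      have e3 : ∫ ξ : Circle, W' ((g • ξ) • rad τ) ∂lam = W' (g • (0 : 𝔻)) +
          ∫ ξ : Circle, (W' ((g • ξ) • rad τ) - W' (g • (ξ • rad τ))) ∂lam := by
        rw [integral_sub (PoisC_int c1) (PoisC_int c2), e2]
        ring
      have hcS : Continuous (fun ξ : Circle => S (ξ • rad τ)) := PoisC_cont hScont (rad τ)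
      have cS' : Continuous (fun ξ : Circle => S ((g • ξ) • rad τ)) :=
        hcS.comp (continuous_smul_circle g)
      have e4 : ‖∫ ξ : Circle, (W' ((g • ξ) • rad τ) - W' (g • (ξ • rad τ))) ∂lam‖ ≤
          Cg * (4 * Real.exp (Lg g)) * (1 + Cu + Cu') * Real.sqrt τ := by
        have k1 : ‖∫ ξ : Circle, (W' ((g • ξ) • rad τ) - W' (g • (ξ • rad τ))) ∂lam‖ ≤
            ∫ ξ : Circle, Cg * S ((g • ξ) • rad τ) ∂lam := by
          apply norm_integral_le_of_norm_le (PoisC_int (continuous_const.mul cS'))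
          apply Eventually.of_forall
          intro ξ
          rw [norm_sub_rev]
          exact hincg _ _ ((hDg ξ τ hτ0.le).trans (le_max_left _ _))
        have k2 : ∫ ξ : Circle, S ((g • ξ) • rad τ) ∂lam =
            ∫ ξ : Circle, Jac g ξ * S (ξ • rad τ) ∂lam := by
          have := integral_smul_lam g (fun ξ => ((S (ξ • rad τ) : ℝ) : ℂ))
            (Complex.continuous_ofReal.comp hcS)
          have r1 : ∫ ξ : Circle, ((S ((g • ξ) • rad τ) : ℝ) : ℂ) ∂lam =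
              ((∫ ξ : Circle, S ((g • ξ) • rad τ) ∂lam : ℝ) : ℂ) := integral_ofReal
          have r2 : ∫ ξ : Circle, (Jac g ξ : ℂ) * ((S (ξ • rad τ) : ℝ) : ℂ) ∂lam =
              ((∫ ξ : Circle, Jac g ξ * S (ξ • rad τ) ∂lam : ℝ) : ℂ) := by
            have r3 : (fun ξ : Circle => (Jac g ξ : ℂ) * ((S (ξ • rad τ) : ℝ) : ℂ)) =
                fun ξ : Circle => ((Jac g ξ * S (ξ • rad τ) : ℝ) : ℂ) := by
              funext ξ
              push_cast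
              rfl
            rw [r3]
            exact integral_ofReal
          rw [r1, r2] at this
          exact_mod_cast this
        have k3 : ∫ ξ : Circle, Jac g ξ * S (ξ • rad τ) ∂lam ≤
            ∫ ξ : Circle, (4 * Real.exp (Lg g)) * S (ξ • rad τ) ∂lam := by
          apply integral_mono (PoisC_int ((continuous_Jac g).mul hcS))
            (PoisC_int (continuous_const.mul hcS))
          intro ξ
          have hSn : 0 ≤ S (ξ • rad τ) := le_trans zero_le_one (hS1 _)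
          exact mul_le_mul_of_nonneg_right (Jac_le g ξ) hSn
        rw [integral_const_mul] at k1 k3
        rw [k2] at k1
        have k4 := hSmom τ hτ
        have k5 : (4 * Real.exp (Lg g)) * ∫ ξ : Circle, S (ξ • rad τ) ∂lam ≤
            (4 * Real.exp (Lg g)) * ((1 + Cu + Cu') * Real.sqrt τ) :=
          mul_le_mul_of_nonneg_left k4 (by positivity)
        have k6 : Cg * ∫ ξ : Circle, Jac g ξ * S (ξ • rad τ) ∂lam ≤
            Cg * ((4 * Real.exp (Lg g)) * ((1 + Cu + Cu') * Real.sqrt τ)) :=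
          mul_le_mul_of_nonneg_left (k3.trans k5) hCg
        refine (k1.trans k6).trans (le_of_eq ?_)
        ring
      rw [e1, e3, norm_mul, norm_inv, Complex.norm_real, Real.norm_of_nonneg hτ0.le]
      have hs : 0 < Real.sqrt τ := Real.sqrt_pos.2 hτ0
      have hss : τ⁻¹ * Real.sqrt τ = (Real.sqrt τ)⁻¹ := by
        rw [inv_mul_eq_div, Real.sqrt_div_self', one_div]
      calc τ⁻¹ * ‖W' (g • (0 : 𝔻)) +
          ∫ ξ : Circle, (W' ((g • ξ) • rad τ) - W' (g • (ξ • rad τ))) ∂lam‖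
          ≤ τ⁻¹ * (‖W' (g • (0 : 𝔻))‖ +
            Cg * (4 * Real.exp (Lg g)) * (1 + Cu + Cu') * Real.sqrt τ) := by
            apply mul_le_mul_of_nonneg_left _ (inv_nonneg.2 hτ0.le)
            exact (norm_add_le _ _).trans (add_le_add le_rfl e4)
        _ = τ⁻¹ * ‖W' (g • (0 : 𝔻))‖ + (Cg * (4 * Real.exp (Lg g)) * (1 + Cu + Cu')) *
          (τ⁻¹ * Real.sqrt τ) := by ring
        _ = _ := by rw [hss]
    apply squeeze_zero_norm' (a := fun τ : ℝ => τ⁻¹ * ‖W' (g • (0 : 𝔻))‖ +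
      (Cg * (4 * Real.exp (Lg g)) * (1 + Cu + Cu')) * (Real.sqrt τ)⁻¹)
    · filter_upwards [eventually_ge_atTop (1 : ℝ)] with τ hτ
      exact hbd τ hτ
    · have := (hinv.mul_const ‖W' (g • (0 : 𝔻))‖).add
        (hsqrt.const_mul (Cg * (4 * Real.exp (Lg g)) * (1 + Cu + Cu')))
      simpa using this
  have hmain := tendsto_of_poisson w hwc hwb hP φ hφ hφb
  -- compare
  have hφi : Integrable φ lam :=
    Integrable.of_bound hφ.aestronglyMeasurable B (Eventually.of_forall hφb)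
  have hφC : ∀ {F : Circle → ℂ}, Continuous F → Integrable (fun ξ => F ξ * (φ ξ : ℂ)) lam := by
    intro F hF
    have h1 : Integrable F lam := PoisC_int hF
    apply h1.mul_bdd (c := B) (hφ.complex_ofReal.aestronglyMeasurable)
    apply Eventually.of_forall
    intro ξ
    rw [Complex.norm_real]
    exact hφb ξ
  have hdiff : Tendsto (fun τ : ℝ => (τ : ℂ)⁻¹ * (∫ ξ : Circle, u (ξ • rad τ) * u' (ξ • rad τ) *
      (φ ξ : ℂ) ∂lam) - b * ((∫ ξ, φ ξ ∂lam : ℝ) : ℂ) - ∫ ξ, w τ ξ * (φ ξ : ℂ) ∂lam) atTop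
      (𝓝 0) := by
    apply squeeze_zero_norm' (a := fun τ : ℝ => τ⁻¹ * (K * B) +
      (C₁ * (1 + Cu + Cu') * B) * (Real.sqrt τ)⁻¹)
    · filter_upwards [eventually_ge_atTop (1 : ℝ)] with τ hτ
      have hτ0 : 0 < τ := lt_of_lt_of_le one_pos hτ
      have hτC : (τ : ℂ) ≠ 0 := by exact_mod_cast hτ0.ne'
      have cu : Continuous (fun ξ : Circle => u (ξ • rad τ) * u' (ξ • rad τ)) :=
        (PoisC_cont hu (rad τ)).mul (PoisC_cont hu' (rad τ))
      have cκ : Continuous (fun ξ : Circle => κ (ξ • rad τ)) := PoisC_cont hκ (rad τ)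
      have cW : Continuous (fun ξ : Circle => Wf (ξ • rad τ) - W' (ξ • rad τ)) :=
        (PoisC_cont hWc (rad τ)).sub (PoisC_cont hW'c (rad τ))
      have e1 : (τ : ℂ)⁻¹ * (∫ ξ : Circle, u (ξ • rad τ) * u' (ξ • rad τ) *
          (φ ξ : ℂ) ∂lam) - b * ((∫ ξ, φ ξ ∂lam : ℝ) : ℂ) - ∫ ξ, w τ ξ * (φ ξ : ℂ) ∂lam =
          (τ : ℂ)⁻¹ * (∫ ξ : Circle, (Wf (ξ • rad τ) - W' (ξ • rad τ)) * (φ ξ : ℂ) ∂lam -
            ∫ ξ : Circle, κ (ξ • rad τ) * (φ ξ : ℂ) ∂lam) := by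
        have q1 : ((∫ ξ, φ ξ ∂lam : ℝ) : ℂ) = ∫ ξ, (φ ξ : ℂ) ∂lam := integral_ofReal.symm
        have q2 : b * ∫ ξ, (φ ξ : ℂ) ∂lam = (τ : ℂ)⁻¹ * ∫ ξ, (b * (τ : ℂ)) * (φ ξ : ℂ) ∂lam := by
          rw [integral_const_mul]
          field_simp
        have q3 : ∫ ξ, w τ ξ * (φ ξ : ℂ) ∂lam = (τ : ℂ)⁻¹ *
            ∫ ξ : Circle, W' (ξ • rad τ) * (φ ξ : ℂ) ∂lam := by
          rw [← integral_const_mul]
          apply integral_congr_ae
          apply Eventually.of_forall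
          intro ξ
          simp only [hw, abs_of_pos hτ0]
          ring
        rw [q1, q2, q3, ← mul_sub, ← mul_sub]
        congr 1
        have v1 : Integrable (fun ξ : Circle => u (ξ • rad τ) * u' (ξ • rad τ) * (φ ξ : ℂ)) lam :=
          hφC cu
        have v2 : Integrable (fun ξ : Circle => b * (τ : ℂ) * (φ ξ : ℂ)) lam :=
          hφC continuous_const
        have v3 : Integrable (fun ξ : Circle => W' (ξ • rad τ) * (φ ξ : ℂ)) lam :=
          hφC (PoisC_cont hW'c (rad τ))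
        have v4 : Integrable (fun ξ : Circle => u (ξ • rad τ) * u' (ξ • rad τ) * (φ ξ : ℂ) -
            b * (τ : ℂ) * (φ ξ : ℂ)) lam := v1.sub v2
        rw [← integral_sub v1 v2, ← integral_sub v4 v3, ← integral_sub (hφC cW) (hφC cκ)]
        apply integral_congr_ae
        apply Eventually.of_forall
        intro ξ
        simp only [hWf, PoisC_dL ξ hτ0.le]
        ring
      rw [e1, norm_mul, norm_inv, Complex.norm_real, Real.norm_of_nonneg hτ0.le]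
      have hcS : Continuous (fun ξ : Circle => S (ξ • rad τ)) := PoisC_cont hScont (rad τ)
      have n1 : ‖∫ ξ : Circle, (Wf (ξ • rad τ) - W' (ξ • rad τ)) * (φ ξ : ℂ) ∂lam‖ ≤
          C₁ * (1 + Cu + Cu') * B * Real.sqrt τ := by
        have k1 : ‖∫ ξ : Circle, (Wf (ξ • rad τ) - W' (ξ • rad τ)) * (φ ξ : ℂ) ∂lam‖ ≤
            ∫ ξ : Circle, (C₁ * B) * S (ξ • rad τ) ∂lam := by
          apply norm_integral_le_of_norm_le (PoisC_int (continuous_const.mul hcS))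
          apply Eventually.of_forall
          intro ξ
          rw [norm_mul, Complex.norm_real, Real.norm_eq_abs, norm_sub_rev]
          have s1 := hWW' (ξ • rad τ)
          have s2 := hφb ξ
          calc ‖W' (ξ • rad τ) - Wf (ξ • rad τ)‖ * |φ ξ| ≤ (C₁ * S (ξ • rad τ)) * B :=
                mul_le_mul s1 s2 (abs_nonneg _) ((norm_nonneg _).trans s1)
            _ = C₁ * B * S (ξ • rad τ) := by ring
        rw [integral_const_mul] at k1
        have k4 := hSmom τ hτ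
        have k5 : (C₁ * B) * ∫ ξ : Circle, S (ξ • rad τ) ∂lam ≤
            (C₁ * B) * ((1 + Cu + Cu') * Real.sqrt τ) :=
          mul_le_mul_of_nonneg_left k4 (by positivity)
        refine (k1.trans k5).trans (le_of_eq ?_)
        ring
      have n2 : ‖∫ ξ : Circle, κ (ξ • rad τ) * (φ ξ : ℂ) ∂lam‖ ≤ K * B := by
        have := norm_integral_le_of_norm_le_const (μ := lam)
          (f := fun ξ : Circle => κ (ξ • rad τ) * (φ ξ : ℂ)) (C := K * B)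
          (Eventually.of_forall (fun ξ => by
            rw [norm_mul, Complex.norm_real, Real.norm_eq_abs]
            exact mul_le_mul (hK _) (hφb ξ) (abs_nonneg _) hK0))
        simpa using this
      have hss : τ⁻¹ * Real.sqrt τ = (Real.sqrt τ)⁻¹ := by
        rw [inv_mul_eq_div, Real.sqrt_div_self', one_div]
      calc τ⁻¹ * ‖∫ ξ : Circle, (Wf (ξ • rad τ) - W' (ξ • rad τ)) * (φ ξ : ℂ) ∂lam -
            ∫ ξ : Circle, κ (ξ • rad τ) * (φ ξ : ℂ) ∂lam‖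
          ≤ τ⁻¹ * (C₁ * (1 + Cu + Cu') * B * Real.sqrt τ + K * B) := by
            apply mul_le_mul_of_nonneg_left _ (inv_nonneg.2 hτ0.le)
            exact (norm_sub_le _ _).trans (add_le_add n1 n2)
        _ = τ⁻¹ * (K * B) + (C₁ * (1 + Cu + Cu') * B) * (τ⁻¹ * Real.sqrt τ) := by ring
        _ = _ := by rw [hss]
    · have := (hinv.mul_const (K * B)).add (hsqrt.const_mul (C₁ * (1 + Cu + Cu') * B))
      simpa using this
  have hsum := (hdiff.add hmain).add_const (b * ((∫ ξ, φ ξ ∂lam : ℝ) : ℂ))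
  rw [zero_add, zero_add] at hsum
  refine hsum.congr (fun τ => ?_)
  ring

end

end Pool.Agent.Lib.MP_b16327_pr
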