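import Pool.Agent.Lib.MP_b16327_pr.OpA

/-! # Doeblin contraction -/

namespace Pool.Agent.Lib.MP_b16327_pr

open Complex MeasureTheory ComplexConjugate Filter
open scoped Complex.UnitDisc Topology BoundedContinuousFunction

noncomputable section

/-- `R` is large for `Γ`: every orbit meets a disc `‖z‖ ≤ r`, and every ball `pd z · < R` with
`‖z‖ ≤ r` contains the disc `‖w‖ ≤ r` -/
def Large (Γ : Subgroup SU11) (R : ℝ) : Prop :=
  0 < R ∧ R < 1 ∧ ∃ r : ℝ, 0 < r ∧ r < 1 ∧ (∀ z : 𝔻, ∃ g ∈ Γ, ‖((g • z : 𝔻) : ℂ)‖ ≤ r) ∧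
    ∀ z w : 𝔻, ‖(z : ℂ)‖ ≤ r → ‖(w : ℂ)‖ ≤ r → pd z w < R

theorem exists_large {Γ : Subgroup SU11} (hc : IsCocpt Γ) : ∃ R : ℝ, Large Γ R := by
  obtain ⟨r0, hr0, h0⟩ := hc
  set r := max r0 (1 / 2) with hr
  have hr1 : r < 1 := max_lt hr0 (by norm_num)
  have hrp : 0 < r := lt_of_lt_of_le (by norm_num) (le_max_right _ _)
  have hq : 2 * r / (1 + r ^ 2) < 1 := by
    rw [div_lt_one (by positivity)]
    nlinarith [mul_pos (sub_pos.2 hr1) (sub_pos.2 hr1)]
  have hq0 : 0 < 2 * r / (1 + r ^ 2) := by positivity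
  refine ⟨(2 * r / (1 + r ^ 2) + 1) / 2, by linarith, by linarith, r, hrp, hr1, ?_, ?_⟩
  · intro z
    obtain ⟨g, hg, h⟩ := h0 z
    exact ⟨g, hg, h.trans (le_max_left _ _)⟩
  · intro z w hz hw
    have := pd_le_of_norm_le hrp.le hr1 z w hz hw
    linarith

/-- DOEBLIN: for a real continuous invariant `v` with `a ≤ v ≤ b` one has
`M v(z') - M v(z) ≤ (1 - ε)(b - a)`.  Move `z` into `‖z‖ ≤ r`; then
`M v(z) - a = A⁻¹ ∫_{pd z w < R} (v - a) ≥ A⁻¹ ∫_{‖w‖ ≤ r} (v - a)` and
`b - M v(z') ≥ A⁻¹ ∫_{‖w‖≤r} (b - v)`; the sum is `≥ ε (b - a)`,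
`ε = A⁻¹ area(‖w‖ ≤ r) ∈ (0, 1]`. -/
theorem doeblin_real {Γ : Subgroup SU11} {R : ℝ} (hL : Large Γ R) :
    ∃ ε : ℝ, 0 < ε ∧ ε ≤ 1 ∧ ∀ (v : 𝔻 → ℝ) (a b : ℝ), Continuous v →
      (∀ g ∈ Γ, ∀ z : 𝔻, v (g • z) = v z) → (∀ z, a ≤ v z) → (∀ z, v z ≤ b) →
      ∀ z z' : 𝔻, Mop R v z' - Mop R v z ≤ (1 - ε) * (b - a) := by
  have hT2 : T2Space 𝔻 := UnitDisc.isEmbedding_coe.t2Space
  obtain ⟨hR0, hR1, r, hr0, hr1, horb, hball⟩ := hL
  set K : Set 𝔻 := {w : 𝔻 | ‖(w : ℂ)‖ ≤ r} with hK
  have hKc : IsCompact K := isCompact_closedBallD hr1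
  have hKm : MeasurableSet K :=
    (isClosed_le (continuous_norm.comp UnitDisc.continuous_coe) continuous_const).measurableSet
  have hKR : K ⊆ ballD R := by
    intro w hw
    have h := hball 0 w (by simp [hr0.le]) hw
    rw [pd_zero_left] at h
    exact h
  have hrK : ballD r ⊆ K := by
    intro w hw
    have h : ‖(w : ℂ)‖ < r := hw
    exact h.le
  have hA : area (ballD R) < ⊤ := area_ballD_lt_top hR1
  have hAK : area K < ⊤ := lt_of_le_of_lt (measure_mono hKR) hA
  have hApos : 0 < area.real (ballD R) :=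
    ENNReal.toReal_pos (area_ballD_pos hR0).ne' hA.ne
  have hKpos : 0 < area.real K :=
    ENNReal.toReal_pos (lt_of_lt_of_le (area_ballD_pos hr0) (measure_mono hrK)).ne' hAK.ne
  have hKA : area.real K ≤ area.real (ballD R) :=
    ENNReal.toReal_mono hA.ne (measure_mono hKR)
  refine ⟨(area.real (ballD R))⁻¹ * area.real K, by positivity, ?_, ?_⟩
  · rw [inv_mul_le_iff₀ hApos, mul_one]
    exact hKA
  · intro v a b hv hinv hav hvb
    -- lower bound for nonnegative functions
    have key : ∀ (f : 𝔻 → ℝ), Continuous f → (∀ z, 0 ≤ f z) → ∀ z : 𝔻, ‖(z : ℂ)‖ ≤ r →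
        (area.real (ballD R))⁻¹ * ∫ w in K, f w ∂area ≤ Mop R f z := by
      intro f hf hf0 z hz
      have hsub : K ⊆ {w : 𝔻 | pd z w < R} := fun w hw => hball z w hz hw
      obtain ⟨r', hr'1, hr'⟩ := norm_le_of_pd_lt hr1 hR1
      have hsub2 : {w : 𝔻 | pd z w < R} ⊆ {w : 𝔻 | ‖(w : ℂ)‖ ≤ r'} := fun w hw => hr' z w hz hw
      have hint : IntegrableOn f {w : 𝔻 | pd z w < R} area :=
        (hf.continuousOn.integrableOn_compact (isCompact_closedBallD hr'1)).mono_set hsub2
      have hm : MeasurableSet {w : 𝔻 | pd z w < R} := by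
        have : Continuous (fun w : 𝔻 => pd z w) := continuous_pd.comp (by fun_prop :
          Continuous (fun w : 𝔻 => ((z, w) : 𝔻 × 𝔻)))
        exact (isOpen_Iio.preimage this).measurableSet
      have h1 : ∫ w in K, f w ∂area ≤ ∫ w in {w : 𝔻 | pd z w < R}, f w ∂area :=
        setIntegral_mono_set hint (ae_of_all _ hf0) (LE.le.eventuallyLE hsub)
      unfold Mop
      rw [AvF_kernel, smul_eq_mul]
      exact mul_le_mul_of_nonneg_left h1 (inv_nonneg.2 hApos.le)
    have hMinv : ∀ g ∈ Γ, ∀ z : 𝔻, Mop R v (g • z) = Mop R v z := by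
      intro g hg z
      rw [Mop_smul]
      congr 1
      funext w
      exact hinv g hg w
    intro z z'
    obtain ⟨g, hg, hgz⟩ := horb z
    obtain ⟨g', hg', hgz'⟩ := horb z'
    rw [← hMinv g hg z, ← hMinv g' hg' z']
    have h1 := key (fun w => v w - a) (by fun_prop) (fun w => sub_nonneg.2 (hav w)) (g • z) hgz
    have h2 := key (fun w => b - v w) (by fun_prop) (fun w => sub_nonneg.2 (hvb w)) (g' • z') hgz'
    rw [Mop_sub hR1 hv continuous_const, Mop_const hR0 hR1] at h1
    rw [Mop_sub hR1 continuous_const hv, Mop_const hR0 hR1] at h2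
    have hvK : IntegrableOn v K area := hv.continuousOn.integrableOn_compact hKc
    have hcK : ∀ c : ℝ, IntegrableOn (fun _ : 𝔻 => c) K area := fun c =>
      continuous_const.continuousOn.integrableOn_compact hKc
    rw [integral_sub hvK (hcK a), setIntegral_const, smul_eq_mul] at h1
    rw [integral_sub (hcK b) hvK, setIntegral_const, smul_eq_mul] at h2
    have h3 : (area.real (ballD R))⁻¹ * (∫ w in K, v w ∂area - area.real K * a) +
        (area.real (ballD R))⁻¹ * (area.real K * b - ∫ w in K, v w ∂area) =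
        (area.real (ballD R))⁻¹ * area.real K * (b - a) := by ring
    nlinarith [h1, h2, h3]

/-- real part of the invariant mean -/
private theorem SpecA_re_I {Γ : Subgroup SU11} (P : PU Γ) (v : EG Γ) (hI : IG P v = 0)
    {D : ℝ} (hD : ∀ z z' : 𝔻, (ap v z').re - (ap v z).re ≤ D) : ∀ z : 𝔻, |(ap v z).re| ≤ D := by
  have hθi : Integrable (fun z => (P.θ z : ℂ)) area := by
    have := P.integrable (v := fun _ => (1 : ℂ)) continuous_const
    simpa using this
  have hθr : Integrable P.θ area := by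
    have := hθi.re
    simpa using this
  have hvi : Integrable (fun z => (P.θ z : ℂ) * ap v z) area := P.integrable (EG_continuous v)
  have hvr : Integrable (fun z => P.θ z * (ap v z).re) area := by
    have := hvi.re
    refine this.congr (ae_of_all _ fun z => ?_)
    simp
  have h0 : ∫ z, P.θ z * (ap v z).re ∂area = 0 := by
    rw [IG_apply] at hI
    unfold PU.I at hI
    have h1 : ∫ z, (P.θ z : ℂ) * ap v z ∂area = 0 := by
      rcases mul_eq_zero.1 hI with h | h
      · exfalso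
        have := P.tot_pos
        rw [inv_eq_zero, Complex.ofReal_eq_zero] at h
        linarith
      · exact h
    have h2 : ∫ z, ((P.θ z : ℂ) * ap v z).re ∂area = 0 := by
      have := integral_re hvi
      simp only [RCLike.re_to_complex] at this
      rw [this, h1]
      simp
    simpa using h2
  have htot : ∫ z, P.θ z ∂area = P.tot := rfl
  have htp := P.tot_pos
  intro z
  rw [abs_le]
  constructor
  · -- -D ≤ re : since re(z') ≤ re z + D for all z'
    have h1 : ∫ z', P.θ z' * (ap v z').re ∂area ≤ ∫ z', P.θ z' * ((ap v z).re + D) ∂area := by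
      apply integral_mono hvr (hθr.mul_const _)
      intro z'
      exact mul_le_mul_of_nonneg_left (by have := hD z z'; linarith) (P.nonneg z')
    rw [h0, integral_mul_const, htot] at h1
    have := (mul_nonneg_iff_of_pos_left htp).1 h1
    linarith
  · have h1 : ∫ z', P.θ z' * ((ap v z).re - D) ∂area ≤ ∫ z', P.θ z' * (ap v z').re ∂area := by
      apply integral_mono (hθr.mul_const _) hvr
      intro z'
      exact mul_le_mul_of_nonneg_left (by have := hD z' z; linarith) (P.nonneg z')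
    rw [h0, integral_mul_const, htot] at h1
    by_contra hcon
    push Not at hcon
    have : 0 < P.tot * ((ap v z).re - D) := mul_pos htp (by linarith)
    linarith

/-- abstract Neumann series on the kernel of an invariant functional -/
private theorem SpecA_abs {E : Type*} [NormedAddCommGroup E] [NormedSpace ℂ E] [CompleteSpace E]
    (M : E →L[ℂ] E) (J : E →L[ℂ] ℂ) (e : E) (he : J e = 1) (hJM : ∀ v, J (M v) = J v)
    (q C : ℝ) (hq0 : 0 ≤ q) (hq1 : q < 1)
    (hnorm : ∀ v : E, J v = 0 → ∀ k : ℕ, ‖(M ^ k) v‖ ≤ q ^ k * (C * ‖v‖)) :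
    ∃ S : E →L[ℂ] E, ∀ v, J v = 0 → J (S v) = 0 ∧ S v - M (S v) = v ∧ S (v - M v) = v := by
  have hC : 0 ≤ |C| := abs_nonneg C
  have hJk : ∀ (v : E) (k : ℕ), J ((M ^ k) v) = J v := by
    intro v k
    induction k with
    | zero => simp
    | succ k ih =>
      have hs : (M ^ (k + 1)) v = M ((M ^ k) v) := by
        rw [pow_succ']
        rfl
      rw [hs, hJM, ih]
  set Q : E →L[ℂ] E := ContinuousLinearMap.id ℂ E - J.smulRight e with hQ
  have hQa : ∀ v, Q v = v - J v • e := fun v => rfl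
  have hQI : ∀ v, J (Q v) = 0 := by
    intro v
    rw [hQa, map_sub, map_smul, he, smul_eq_mul, mul_one, sub_self]
  have hQv : ∀ v, J v = 0 → Q v = v := by
    intro v hv
    rw [hQa, hv, zero_smul, sub_zero]
  set T : ℕ → (E →L[ℂ] E) := fun k => (M ^ k).comp Q with hT
  have hTn : ∀ k, ‖T k‖ ≤ q ^ k * (|C| * ‖Q‖) := by
    intro k
    apply ContinuousLinearMap.opNorm_le_bound _ (by positivity)
    intro v
    calc ‖T k v‖ = ‖(M ^ k) (Q v)‖ := rfl
      _ ≤ q ^ k * (C * ‖Q v‖) := hnorm _ (hQI v) k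
      _ ≤ q ^ k * (|C| * (‖Q‖ * ‖v‖)) := by
        have h1 := Q.le_opNorm v
        have h2 := le_abs_self C
        gcongr
      _ = q ^ k * (|C| * ‖Q‖) * ‖v‖ := by ring
  have hTs : Summable T := by
    have hg : Summable (fun k : ℕ => q ^ k * (|C| * ‖Q‖)) :=
      (summable_geometric_of_lt_one hq0 hq1).mul_right _
    exact Summable.of_norm_bounded hg hTn
  refine ⟨∑' k, T k, ?_⟩
  have hHas : ∀ v, HasSum (fun k => T k v) ((∑' k, T k) v) := by
    intro v
    exact (ContinuousLinearMap.apply ℂ E v).hasSum hTs.hasSum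
  have hHas' : ∀ v, J v = 0 → HasSum (fun k => (M ^ k) v) ((∑' k, T k) v) := by
    intro v hv
    have := hHas v
    have h2 : (fun k => T k v) = fun k => (M ^ k) v := by
      funext k
      show (M ^ k) (Q v) = (M ^ k) v
      rw [hQv v hv]
    rwa [h2] at this
  have hshift : ∀ v, J v = 0 →
      HasSum (fun k => (M ^ (k + 1)) v) ((∑' k, T k) v - v) := by
    intro v hv
    have h1 := hHas' v hv
    rw [← hasSum_nat_add_iff' 1] at h1
    simpa using h1
  intro v hv
  refine ⟨?_, ?_, ?_⟩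
  · have h1 := J.hasSum (hHas' v hv)
    have h2 : (fun k => J ((M ^ k) v)) = fun _ => (0 : ℂ) := by
      funext k
      rw [hJk, hv]
    rw [h2] at h1
    exact h1.unique hasSum_zero
  · have h1 := M.hasSum (hHas' v hv)
    have h2 : (fun k => M ((M ^ k) v)) = fun k => (M ^ (k + 1)) v := by
      funext k
      rw [pow_succ']
      rfl
    rw [h2] at h1
    have h3 := h1.unique (hshift v hv)
    rw [h3]
    abel
  · have hv' : J (v - M v) = 0 := by rw [map_sub, hJM, hv, sub_zero]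
    have h1 := hHas' _ hv'
    have h2 : (fun k => (M ^ k) (v - M v)) = fun k => (M ^ k) v - (M ^ (k + 1)) v := by
      funext k
      rw [map_sub, pow_succ]
      rfl
    rw [h2] at h1
    have h3 := (hHas' v hv).sub (hshift v hv)
    have h4 := h1.unique h3
    rw [h4]
    abel

/-- The inverse of `1 - M` on `ker I`: `S v = ∑ M^k (v - I v)`.  On `ker I` one has
`‖M^k v‖ ≤ 4 (1 - ε)^k ‖v‖`: for real `w` with `I w = 0` the values satisfy
`min ≤ 0 ≤ max` so `‖w‖ ≤ osc w`; real and imaginary parts.  `I (M v) = I v` by mass transport. -/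
theorem exists_S {Γ : Subgroup SU11} (hd : IsDisc Γ) (P : PU Γ) {R : ℝ} (hL : Large Γ R)
    (M0 : EG Γ →L[ℂ] EG Γ) (hM0 : ∀ v z, ap (M0 v) z = Mop R (ap v) z) :
    (∀ v, IG P (M0 v) = IG P v) ∧
    ∃ S : EG Γ →L[ℂ] EG Γ, ∀ v, IG P v = 0 →
      IG P (S v) = 0 ∧ S v - M0 (S v) = v ∧ S (v - M0 v) = v := by
  have hR0 : 0 < R := hL.1
  have hR1 : R < 1 := hL.2.1
  have hIM : ∀ v, IG P (M0 v) = IG P v := by
    intro v
    rw [IG_apply, IG_apply]
    have h1 : ap (M0 v) = AvF R (fun _ w => ap v w) := by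
      funext z
      rw [hM0]
      rfl
    rw [h1, PU.mtp hd P hR1 (fun _ w => ap v w) ((EG_continuous v).comp continuous_snd)
      (fun l hl z w => EG_ap_smul v hl w)]
    congr 1
    funext z
    exact AvF_const_left hR0 hR1 (ap v) z
  refine ⟨hIM, ?_⟩
  obtain ⟨ε, hε0, hε1, hdoe⟩ := doeblin_real hL
  -- real oscillation of the iterates
  have hMre : ∀ (v : EG Γ) (z : 𝔻), (ap (M0 v) z).re = Mop R (fun w => (ap v w).re) z := by
    intro v z
    rw [hM0]
    have hv : Continuous (ap v) := EG_continuous v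
    have hre : Continuous (fun w => (((ap v w).re : ℝ) : ℂ)) := by fun_prop
    have him : Continuous (fun w => I * (((ap v w).im : ℝ) : ℂ)) := by fun_prop
    have h1 : ap v = fun w => (((ap v w).re : ℝ) : ℂ) + I * (((ap v w).im : ℝ) : ℂ) := by
      funext w
      rw [mul_comm I]
      exact (Complex.re_add_im _).symm
    have h2 : Mop R (ap v) z = ((Mop R (fun w => (ap v w).re) z : ℝ) : ℂ) +
        I * ((Mop R (fun w => (ap v w).im) z : ℝ) : ℂ) := by
      conv_lhs => rw [h1]
      rw [Mop_add hR1 hre him, Mop_mul_left, Mop_ofReal, Mop_ofReal]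
    rw [h2]
    simp
  have hosc : ∀ (v : EG Γ) (k : ℕ) (z z' : 𝔻),
      (ap ((M0 ^ k) v) z').re - (ap ((M0 ^ k) v) z).re ≤ (1 - ε) ^ k * (2 * ‖v‖) := by
    intro v k
    induction k with
    | zero =>
      intro z z'
      have h1 := EG_norm_ap_le v z
      have h2 := EG_norm_ap_le v z'
      have h3 := (abs_le.1 (Complex.abs_re_le_norm (ap v z))).1
      have h4 := (abs_le.1 (Complex.abs_re_le_norm (ap v z'))).2
      have h5 : (M0 ^ 0) v = v := by rw [pow_zero]; rfl
      rw [h5, pow_zero, one_mul]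
      linarith
    | succ k ih =>
      intro z z'
      have hs : (M0 ^ (k + 1)) v = M0 ((M0 ^ k) v) := by
        rw [pow_succ']
        rfl
      rw [hs, hMre, hMre]
      set f : 𝔻 → ℝ := fun w => (ap ((M0 ^ k) v) w).re with hf
      set D : ℝ := (1 - ε) ^ k * (2 * ‖v‖) with hD
      have hbdd : BddBelow (Set.range f) := by
        refine ⟨f 0 - D, ?_⟩
        rintro _ ⟨w, rfl⟩
        have := ih w 0
        linarith
      have h1 := hdoe f (⨅ w, f w) ((⨅ w, f w) + D)
        (Complex.continuous_re.comp (EG_continuous _))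
        (fun g hg w => by simp only [hf]; rw [EG_ap_smul _ hg])
        (fun w => ciInf_le hbdd w)
        (fun w => by
          have : f w - D ≤ ⨅ w, f w := by
            have : Nonempty 𝔻 := ⟨0⟩
            apply le_ciInf
            intro w'
            have := ih w' w
            linarith
          linarith) z z'
      have h2 : (⨅ w, f w) + D - (⨅ w, f w) = D := by ring
      rw [h2] at h1
      calc _ ≤ (1 - ε) * D := h1
        _ = (1 - ε) ^ (k + 1) * (2 * ‖v‖) := by rw [hD, pow_succ]; ring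
  have hIk : ∀ (v : EG Γ) (k : ℕ), IG P ((M0 ^ k) v) = IG P v := by
    intro v k
    induction k with
    | zero => simp
    | succ k ih =>
      have hs : (M0 ^ (k + 1)) v = M0 ((M0 ^ k) v) := by
        rw [pow_succ']
        rfl
      rw [hs, hIM, ih]
  have hre : ∀ (v : EG Γ), IG P v = 0 → ∀ (k : ℕ) (z : 𝔻),
      |(ap ((M0 ^ k) v) z).re| ≤ (1 - ε) ^ k * (2 * ‖v‖) := by
    intro v hv k
    exact SpecA_re_I P _ (by rw [hIk, hv]) (hosc v k)
  have hnorm : ∀ (v : EG Γ), IG P v = 0 → ∀ (k : ℕ),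
      ‖(M0 ^ k) v‖ ≤ (1 - ε) ^ k * (4 * ‖v‖) := by
    intro v hv k
    have he : 0 ≤ (1 - ε) ^ k := pow_nonneg (by linarith) k
    apply EG_norm_le _ (by positivity)
    intro z
    have h1 := hre v hv k z
    have h2 := hre ((-I) • v) (by rw [map_smul, hv, smul_zero]) k z
    rw [map_smul, EG_ap_smul_const] at h2
    have h3 : (-I * ap ((M0 ^ k) v) z).re = (ap ((M0 ^ k) v) z).im := by simp
    rw [h3] at h2
    have h4 : ‖(-I) • v‖ = ‖v‖ := by rw [norm_smul]; simp
    rw [h4] at h2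
    calc ‖ap ((M0 ^ k) v) z‖ ≤ |(ap ((M0 ^ k) v) z).re| + |(ap ((M0 ^ k) v) z).im| :=
          Complex.norm_le_abs_re_add_abs_im _
      _ ≤ (1 - ε) ^ k * (2 * ‖v‖) + (1 - ε) ^ k * (2 * ‖v‖) := add_le_add h1 h2
      _ = (1 - ε) ^ k * (4 * ‖v‖) := by ring
  have hI1 : IG P (1 : EG Γ) = 1 := by
    rw [IG_apply]
    have : ap (1 : EG Γ) = fun _ => (1 : ℂ) := by
      funext z
      exact EG_ap_one z
    rw [this, PU.I_const]
  exact SpecA_abs M0 (IG P) 1 hI1 hIM (1 - ε) 4 (by linarith) (by linarith) hnorm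

end

end Pool.Agent.Lib.MP_b16327_pr
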