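import Pool.Agent.Lib.MP_b16327_pr.CircC
import Pool.Agent.Lib.MP_b16327_pr.Lip

/-! # Random walks -/

namespace Pool.Agent.Lib.MP_b16327_pr

open Complex MeasureTheory ComplexConjugate Filter
open scoped Complex.UnitDisc Topology BoundedContinuousFunction

noncomputable section

/-- a finitely supported probability measure on `SU(1,1)`, given as a finite family of weighted
elements (repetitions allowed) -/
structure Walk where
  /-- index type -/
  ι : Type
  /-- finiteness -/
  fin : Fintype ι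
  /-- the elements -/
  h : ι → SU11
  /-- the weights -/
  p : ι → ℝ
  nonneg : ∀ i, 0 ≤ p i
  sum : (∑ i, p i) = 1

attribute [instance] Walk.fin

namespace Walk

variable (W : Walk)

/-- the Markov operator `P F (g) = ∑ p_i F(g h_i)` -/
def P {E : Type*} [AddCommMonoid E] [Module ℝ E] (F : SU11 → E) (g : SU11) : E :=
  ∑ i, W.p i • F (g * W.h i)

/-- `ν` is stationary -/
def Stat (ν : Measure Circle) : Prop :=
  ν = ∑ i, ENNReal.ofReal (W.p i) • Measure.map (fun ξ : Circle => W.h i • ξ) ν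

/-- convolution -/
def conv (W₁ W₂ : Walk) : Walk where
  ι := W₁.ι × W₂.ι
  fin := inferInstance
  h := fun q => W₁.h q.1 * W₂.h q.2
  p := fun q => W₁.p q.1 * W₂.p q.2
  nonneg := fun q => mul_nonneg (W₁.nonneg _) (W₂.nonneg _)
  sum := by
    rw [Fintype.sum_prod_type]
    simp only [← Finset.mul_sum, W₂.sum, mul_one, W₁.sum]

/-- trivial walk -/
def triv : Walk where
  ι := Unit
  fin := inferInstance
  h := fun _ => 1
  p := fun _ => 1
  nonneg := fun _ => zero_le_one
  sum := by simp

/-- convolution powers -/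
def pow : ℕ → Walk
  | 0 => triv
  | n + 1 => conv (pow n) W

theorem conv_P (W₁ W₂ : Walk) (F : SU11 → ℂ) (g : SU11) :
    (W₁.conv W₂).P F g = W₁.P (W₂.P F) g := by
  unfold P
  change ∑ q : W₁.ι × W₂.ι, (W₁.p q.1 * W₂.p q.2) • F (g * (W₁.h q.1 * W₂.h q.2)) = _
  rw [Fintype.sum_prod_type]
  apply Finset.sum_congr rfl
  intro i _
  rw [Finset.smul_sum]
  apply Finset.sum_congr rfl
  intro j _
  rw [smul_smul, mul_assoc]

private theorem Walk_stat_triv (ν : Measure Circle) : triv.Stat ν := by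
  unfold Stat
  change ν = ∑ _i : Unit, ENNReal.ofReal 1 • Measure.map (fun ξ : Circle => (1 : SU11) • ξ) ν
  simp

private theorem Walk_map_sum {ι : Type} [Fintype ι] (μ : ι → Measure Circle) {f : Circle → Circle}
    (hf : Measurable f) : Measure.map f (∑ i, μ i) = ∑ i, Measure.map f (μ i) := by
  ext s hs
  rw [Measure.map_apply hf hs, Measure.finsetSum_apply, Measure.finsetSum_apply]
  apply Finset.sum_congr rfl
  intro i _
  rw [Measure.map_apply hf hs]

private theorem Walk_stat_conv {W₁ W₂ : Walk} {ν : Measure Circle} (h₁ : W₁.Stat ν)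
    (h₂ : W₂.Stat ν) : (W₁.conv W₂).Stat ν := by
  unfold Stat
  change ν = ∑ q : W₁.ι × W₂.ι, ENNReal.ofReal (W₁.p q.1 * W₂.p q.2) •
    Measure.map (fun ξ : Circle => (W₁.h q.1 * W₂.h q.2) • ξ) ν
  rw [Fintype.sum_prod_type]
  conv_lhs => rw [h₁]
  apply Finset.sum_congr rfl
  intro i _
  have hm : Measurable (fun ξ : Circle => W₁.h i • ξ) := (continuous_smul_circle _).measurable
  conv_lhs => rw [h₂]
  rw [Walk_map_sum _ hm, Finset.smul_sum]
  apply Finset.sum_congr rfl
  intro j _
  have hm2 : Measurable (fun ξ : Circle => W₂.h j • ξ) := (continuous_smul_circle _).measurable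
  rw [Measure.map_smul, Measure.map_map hm hm2, smul_smul, ENNReal.ofReal_mul (W₁.nonneg i)]
  congr 2
  funext ξ
  exact (mul_smul _ _ _).symm

theorem Stat.pow {W : Walk} {ν : Measure Circle} [IsFiniteMeasure ν] (h : W.Stat ν) (n : ℕ) :
    (W.pow n).Stat ν := by
  induction n with
  | zero => exact Walk_stat_triv ν
  | succ n ih => exact Walk_stat_conv ih h

theorem Stat.integral {W : Walk} {ν : Measure Circle} [IsFiniteMeasure ν] (h : W.Stat ν)
    (F : Circle → ℂ) (hF : Integrable F ν) :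
    ∫ ξ, F ξ ∂ν = ∑ i, W.p i • ∫ ξ, F (W.h i • ξ) ∂ν := by
  have hi : ∀ i ∈ (Finset.univ : Finset W.ι),
      Integrable F (ENNReal.ofReal (W.p i) • Measure.map (fun ξ : Circle => W.h i • ξ) ν) := by
    rw [← integrable_finsetSum_measure, ← h]
    exact hF
  have h1 : ∫ ξ, F ξ ∂ν = ∫ ξ, F ξ ∂(∑ i, ENNReal.ofReal (W.p i) •
      Measure.map (fun ξ : Circle => W.h i • ξ) ν) := by
    rw [← h]
  rw [h1, integral_finsetSum_measure hi]
  apply Finset.sum_congr rfl
  intro i _
  rw [integral_smul_measure, ENNReal.toReal_ofReal (W.nonneg i)]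
  rcases (W.nonneg i).eq_or_lt with h0 | h0
  · rw [← h0, zero_smul, zero_smul]
  · congr 1
    have hm : Measurable (fun ξ : Circle => W.h i • ξ) := (continuous_smul_circle _).measurable
    have h2 : AEStronglyMeasurable F (Measure.map (fun ξ : Circle => W.h i • ξ) ν) := by
      have h3 := (hi i (Finset.mem_univ i)).aestronglyMeasurable
      refine h3.mono_ac ?_
      exact Measure.absolutelyContinuous_smul (by simpa using h0)
    exact integral_map hm.aemeasurable h2

private theorem Walk_pow_mem {Γ : Subgroup SU11} (hΓ : ∀ i, W.h i ∈ Γ) (n : ℕ) :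
    ∀ i, (W.pow n).h i ∈ Γ := by
  induction n with
  | zero => exact fun _ => Γ.one_mem
  | succ n ih =>
    rintro ⟨i, j⟩
    exact Γ.mul_mem (ih i) (hΓ j)

/-- if `P F = F + B` on `Γ` then `P^n F = F + n B` on `Γ` -/
theorem pow_P {Γ : Subgroup SU11} (hΓ : ∀ i, W.h i ∈ Γ) {F : SU11 → ℂ} {B : ℂ}
    (h : ∀ g ∈ Γ, W.P F g = F g + B) (n : ℕ) : ∀ g ∈ Γ, (W.pow n).P F g = F g + n * B := by
  induction n with
  | zero =>
    intro g _
    change ∑ _i : Unit, (1 : ℝ) • F (g * 1) = _
    simp
  | succ n ih =>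
    intro g hg
    change (conv (W.pow n) W).P F g = _
    rw [conv_P]
    have h1 : (W.pow n).P (W.P F) g = (W.pow n).P F g + B := by
      unfold P
      have h2 : ∀ i, (W.pow n).p i • (∑ j, W.p j • F (g * (W.pow n).h i * W.h j)) =
          (W.pow n).p i • F (g * (W.pow n).h i) + (W.pow n).p i • B := by
        intro i
        have h3 := h (g * (W.pow n).h i) (Γ.mul_mem hg (Walk_pow_mem W hΓ n i))
        unfold P at h3
        rw [h3, smul_add]
      rw [Finset.sum_congr rfl (fun i _ => h2 i), Finset.sum_add_distrib, ← Finset.sum_smul,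
        (W.pow n).sum, one_smul]
    rw [h1, ih g hg]
    push_cast
    ring

theorem pow_mem {Γ : Subgroup SU11} (hΓ : ∀ i, W.h i ∈ Γ) (n : ℕ) :
    ∀ i, (W.pow n).h i ∈ Γ := Walk_pow_mem W hΓ n

end Walk

end

end Pool.Agent.Lib.MP_b16327_pr
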