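import Pool.Agent.Lib.MP_b16327_pr.HypA
import Pool.Agent.Lib.MP_b16327_pr.GeoB

/-! # Strip coordinates: distances -/

namespace Pool.Agent.Lib.MP_b16327_pr

open Complex MeasureTheory ComplexConjugate Filter
open scoped Complex.UnitDisc Topology ENNReal

noncomputable section

private theorem XA_one_sub_ne (z : 𝔻) : (1 : ℂ) - z ≠ 0 := by
  intro h
  have h1 : (z : ℂ) = 1 := by linear_combination -h
  have h2 := z.norm_lt_one
  rw [h1, norm_one] at h2
  exact lt_irrefl _ h2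

private theorem XA_re_eq (z : 𝔻) :
    ((1 + (z : ℂ)) / (1 - (z : ℂ))).re = (1 - ‖(z : ℂ)‖ ^ 2) / ‖1 - (z : ℂ)‖ ^ 2 := by
  rw [Complex.div_re, ← Complex.normSq_eq_norm_sq, ← Complex.normSq_eq_norm_sq]
  rw [← add_div]
  congr 1
  simp only [Complex.add_re, Complex.add_im, Complex.sub_re, Complex.sub_im, Complex.one_re,
    Complex.one_im, Complex.normSq_apply]
  ring

private theorem XA_pos (z : 𝔻) : 0 < 1 - ‖(z : ℂ)‖ ^ 2 := by
  have h := UnitDisc.sq_norm_lt_one z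
  linarith

private theorem XA_npos (z : 𝔻) : 0 < ‖1 - (z : ℂ)‖ := norm_pos_iff.2 (XA_one_sub_ne z)

private theorem XA_upos (z : 𝔻) : 0 < ‖(1 + (z : ℂ)) / (1 - (z : ℂ))‖ := by
  have h1 : 0 < ((1 + (z : ℂ)) / (1 - (z : ℂ))).re := by
    rw [XA_re_eq]
    exact div_pos (XA_pos z) (pow_pos (XA_npos z) 2)
  exact lt_of_lt_of_le h1 ((le_abs_self _).trans (Complex.abs_re_le_norm _))

private theorem XA_re (z : 𝔻) : ((1 + (z : ℂ)) / (1 - (z : ℂ))).re =
    Real.exp (xc z) * Real.cos (yc z) := by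
  unfold xc yc
  rw [Real.exp_log (XA_upos z), Complex.norm_mul_cos_arg]

private theorem XA_im (z : 𝔻) : ((1 + (z : ℂ)) / (1 - (z : ℂ))).im =
    Real.exp (xc z) * Real.sin (yc z) := by
  unfold xc yc
  rw [Real.exp_log (XA_upos z), Complex.norm_mul_sin_arg]

theorem cos_yc_pos (z : 𝔻) : 0 < Real.cos (yc z) := by
  have h := abs_lt.1 (abs_yc_lt z)
  exact Real.cos_pos_of_mem_Ioo ⟨by linarith [h.1], h.2⟩

theorem xc_At_zero (s : ℝ) : xc (At s • (0 : 𝔻)) = s := by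
  rw [xc_At]
  have : xc (0 : 𝔻) = 0 := by simp [xc]
  rw [this, zero_add]

theorem yc_At_zero (s : ℝ) : yc (At s • (0 : 𝔻)) = 0 := by
  rw [yc_At]
  simp [yc]

private theorem XA_Qd (z w : 𝔻) : Qd z w =
    ‖(1 + (z : ℂ)) / (1 - (z : ℂ)) - (1 + (w : ℂ)) / (1 - (w : ℂ))‖ ^ 2 /
      (4 * ((1 + (z : ℂ)) / (1 - (z : ℂ))).re * ((1 + (w : ℂ)) / (1 - (w : ℂ))).re) := by
  rw [XA_re_eq, XA_re_eq]
  have hz := XA_one_sub_ne z
  have hw := XA_one_sub_ne w
  have h1 : (1 + (z : ℂ)) / (1 - (z : ℂ)) - (1 + (w : ℂ)) / (1 - (w : ℂ)) =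
      2 * ((z : ℂ) - w) / ((1 - (z : ℂ)) * (1 - (w : ℂ))) := by
    rw [div_sub_div _ _ hz hw]
    congr 1
    ring
  rw [h1, norm_div, norm_mul, norm_mul]
  have h2 : ‖(2 : ℂ)‖ = 2 := by simp
  rw [h2]
  unfold Qd
  have h3 := (XA_pos z).ne'
  have h4 := (XA_pos w).ne'
  have h5 := (XA_npos z).ne'
  have h6 := (XA_npos w).ne'
  field_simp
  ring

/-- with `u = (1+z)/(1-z) = e^{x+iy}`: `Qd z w = |u - u'|^2 / (4 Re u Re u')` -/
theorem Qd_strip (z w : 𝔻) : Qd z w =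
    (Real.cosh (xc z - xc w) - Real.cos (yc z - yc w)) /
      (2 * Real.cos (yc z) * Real.cos (yc w)) := by
  rw [XA_Qd, ← Complex.normSq_eq_norm_sq, Complex.normSq_apply, Complex.sub_re, Complex.sub_im,
    XA_re, XA_re, XA_im, XA_im, Real.cosh_eq, Real.cos_sub, Real.exp_neg, Real.exp_sub]
  have h1 := (cos_yc_pos z).ne'
  have h2 := (cos_yc_pos w).ne'
  have h3 := (Real.exp_pos (xc z)).ne'
  have h4 := (Real.exp_pos (xc w)).ne'
  have h5 := Real.sin_sq_add_cos_sq (yc z)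
  have h6 := Real.sin_sq_add_cos_sq (yc w)
  rw [div_eq_div_iff (by positivity) (by positivity), inv_div]
  have h7 : (Real.exp (xc z) / Real.exp (xc w) + Real.exp (xc w) / Real.exp (xc z)) / 2 =
      (Real.exp (xc z) ^ 2 + Real.exp (xc w) ^ 2) / (2 * Real.exp (xc z) * Real.exp (xc w)) := by
    field_simp
  rw [h7]
  have h8 : 4 * (Real.exp (xc z) * Real.cos (yc z)) * (Real.exp (xc w) * Real.cos (yc w)) =
      (2 * Real.exp (xc z) * Real.exp (xc w)) * (2 * Real.cos (yc z) * Real.cos (yc w)) := by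
    ring
  rw [h8]
  have h9 : (2 * Real.exp (xc z) * Real.exp (xc w)) ≠ 0 := by positivity
  have h10 : (Real.exp (xc z) ^ 2 + Real.exp (xc w) ^ 2) /
      (2 * Real.exp (xc z) * Real.exp (xc w)) * (2 * Real.exp (xc z) * Real.exp (xc w)) =
      (Real.exp (xc z) ^ 2 + Real.exp (xc w) ^ 2) := div_mul_cancel₀ _ h9
  generalize (Real.exp (xc z) ^ 2 + Real.exp (xc w) ^ 2) /
      (2 * Real.exp (xc z) * Real.exp (xc w)) = R at *
  linear_combination (2 * Real.cos (yc z) * Real.cos (yc w)) * (Real.exp (xc z) ^ 2 * h5 +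
    Real.exp (xc w) ^ 2 * h6) - (2 * Real.cos (yc z) * Real.cos (yc w)) * h10

private theorem XA_axis (s : ℝ) (z : 𝔻) : 1 + Qd (At s • (0 : 𝔻)) z =
    (Real.cosh (s - xc z) + Real.cos (yc z)) / (2 * Real.cos (yc z)) := by
  rw [Qd_strip, xc_At_zero, yc_At_zero, Real.cos_zero, zero_sub, Real.cos_neg, mul_one]
  have h1 := (cos_yc_pos z).ne'
  field_simp
  ring

/-- `1 + Qd = (cosh (s - x) + cos y) / (2 cos y)` -/
theorem le_Qd_axis (s : ℝ) (z : 𝔻) : 1 / (2 * Real.cos (yc z)) ≤ 1 + Qd (At s • (0 : 𝔻)) z := by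
  rw [XA_axis]
  have h1 := cos_yc_pos z
  apply div_le_div_of_nonneg_right _ (by positivity)
  have h2 := Real.one_le_cosh (s - xc z)
  linarith

/-- the nearest point of the axis -/
theorem Qd_axis_foot (z : 𝔻) : 1 + Qd (At (xc z) • (0 : 𝔻)) z ≤ 1 / Real.cos (yc z) := by
  rw [XA_axis, sub_self, Real.cosh_zero]
  have h1 := cos_yc_pos z
  rw [div_le_div_iff₀ (by positivity) h1]
  nlinarith [Real.cos_le_one (yc z)]

theorem Qd_axis (s t : ℝ) : 1 + Qd (At s • (0 : 𝔻)) (At t • (0 : 𝔻)) ≤ Real.exp |s - t| := by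
  rw [XA_axis, xc_At_zero, yc_At_zero, Real.cos_zero]
  have h1 : Real.cosh (s - t) ≤ Real.exp |s - t| := by
    rw [← Real.cosh_abs, Real.cosh_eq]
    have h2 : Real.exp (-|s - t|) ≤ Real.exp |s - t| :=
      Real.exp_le_exp.2 (by linarith [abs_nonneg (s - t)])
    linarith
  have h3 : 1 ≤ Real.exp |s - t| := Real.one_le_exp (abs_nonneg _)
  rw [div_le_iff₀ (by norm_num)]
  linarith

/-- `Qd cos y cos y' = (cosh (x - x') - cos (y - y')) / 2 ≥ sinh^2 ((x - x')/2)` -/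
theorem sinh_sq_le (z w : 𝔻) : Real.sinh ((xc z - xc w) / 2) ^ 2 ≤
    Qd z w * (Real.cos (yc z) * Real.cos (yc w)) := by
  have h1 := (cos_yc_pos z).ne'
  have h2 := (cos_yc_pos w).ne'
  have h3 : Qd z w * (Real.cos (yc z) * Real.cos (yc w)) =
      (Real.cosh (xc z - xc w) - Real.cos (yc z - yc w)) / 2 := by
    rw [Qd_strip]
    field_simp
  rw [h3]
  have h4 : Real.cosh (xc z - xc w) = 1 + 2 * Real.sinh ((xc z - xc w) / 2) ^ 2 := by
    have h5 : xc z - xc w = 2 * ((xc z - xc w) / 2) := by ring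
    rw [h5, Real.cosh_two_mul, Real.cosh_sq]
    have h6 : 2 * ((xc z - xc w) / 2) / 2 = (xc z - xc w) / 2 := by ring
    rw [h6]
    ring
  rw [h4]
  linarith [Real.cos_le_one (yc z - yc w)]

private theorem XA_tri (x y z : 𝔻) : 1 + Qd x z ≤ 4 * (1 + Qd x y) * (1 + Qd y z) := by
  have h := dL_triangle x y z
  unfold dL at h
  have h1 : 0 < 1 + Qd x z := by linarith [Qd_nonneg x z]
  have h2 : 0 < 1 + Qd x y := by linarith [Qd_nonneg x y]
  have h3 : 0 < 1 + Qd y z := by linarith [Qd_nonneg y z]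
  rw [← Real.log_mul h2.ne' h3.ne', ← Real.log_mul (mul_pos h2 h3).ne' (by norm_num),
    Real.log_le_log_iff h1 (by positivity)] at h
  linarith

/-- moving by a bounded amount changes `xc` by at most `C cos yc`: first
`cos y' ≤ 8 (1 + Qd) cos y` from `le_Qd_axis`, `Qd_axis_foot` and the multiplicative triangle
inequality `1 + Qd p z ≤ 4 (1 + Qd p w)(1 + Qd w z)` (`dL_triangle`), `p = At (xc w) • 0`; then
`|x - x'| ≤ 2 |sinh ((x - x')/2)| ≤ 2 √(Qd cos y cos y') ≤ 2 √8 (1 + Qd) cos y` -/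
theorem abs_xc_sub_le (z w : 𝔻) : |xc z - xc w| ≤ 8 * (1 + Qd z w) * Real.cos (yc z) := by
  have h1 := cos_yc_pos z
  have h2 := cos_yc_pos w
  have h3 := le_Qd_axis (xc w) z
  have h4 := Qd_axis_foot w
  have h5 := XA_tri (At (xc w) • (0 : 𝔻)) w z
  have hQ := Qd_nonneg z w
  rw [Qd_comm w z] at h5
  have h6 : Real.cos (yc w) ≤ 8 * (1 + Qd z w) * Real.cos (yc z) := by
    have h7 : 1 / (2 * Real.cos (yc z)) ≤ 4 * (1 / Real.cos (yc w)) * (1 + Qd z w) := by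
      refine h3.trans (h5.trans ?_)
      apply mul_le_mul_of_nonneg_right _ (by linarith)
      linarith
    rw [mul_one_div, div_mul_eq_mul_div, div_le_div_iff₀ (by positivity) h2] at h7
    linarith
  have h8 := sinh_sq_le z w
  have h9 : Real.sinh ((xc z - xc w) / 2) ^ 2 ≤ 8 * ((1 + Qd z w) * Real.cos (yc z)) ^ 2 := by
    refine h8.trans ?_
    have h10 : Real.cos (yc z) * Real.cos (yc w) ≤
        Real.cos (yc z) * (8 * (1 + Qd z w) * Real.cos (yc z)) :=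
      mul_le_mul_of_nonneg_left h6 h1.le
    calc Qd z w * (Real.cos (yc z) * Real.cos (yc w))
        ≤ (1 + Qd z w) * (Real.cos (yc z) * (8 * (1 + Qd z w) * Real.cos (yc z))) := by
          apply mul_le_mul (by linarith) h10 (by positivity) (by linarith)
      _ = 8 * ((1 + Qd z w) * Real.cos (yc z)) ^ 2 := by ring
  have h11 : |(xc z - xc w) / 2| ≤ |Real.sinh ((xc z - xc w) / 2)| := by
    rw [Real.abs_sinh]
    exact Real.self_le_sinh_iff.2 (abs_nonneg _)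
  have h12 : |(xc z - xc w) / 2| ≤ 4 * ((1 + Qd z w) * Real.cos (yc z)) := by
    apply le_trans h11
    apply abs_le_of_sq_le_sq _ (by positivity)
    refine h9.trans ?_
    nlinarith [sq_nonneg ((1 + Qd z w) * Real.cos (yc z))]
  rw [abs_div, abs_two] at h12
  linarith

/-- `|(1+z)/(1-z)| ≤ (1+|z|)/(1-|z|) ≤ 4 / (1 - |z|^2)` -/
theorem abs_xc_le (z : 𝔻) : |xc z| ≤ dL z 0 + Real.log 4 := by
  have hz := XA_pos z
  have hu := XA_upos z
  have hn := XA_npos z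
  have hz1 := z.norm_lt_one
  have hz0 := norm_nonneg (z : ℂ)
  rw [dL_zero]
  have h1 : ‖(1 : ℂ) + z‖ ≤ 1 + ‖(z : ℂ)‖ := by
    have := norm_add_le (1 : ℂ) z
    rwa [norm_one] at this
  have h2 : ‖(1 : ℂ) - z‖ ≤ 1 + ‖(z : ℂ)‖ := by
    have := norm_sub_le (1 : ℂ) z
    rwa [norm_one] at this
  have h3 : 1 - ‖(z : ℂ)‖ ≤ ‖(1 : ℂ) + z‖ := by
    have := norm_sub_norm_le (1 : ℂ) (-z)
    rwa [norm_one, norm_neg, sub_neg_eq_add] at this
  have h4 : 1 - ‖(z : ℂ)‖ ≤ ‖(1 : ℂ) - z‖ := by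
    have := norm_sub_norm_le (1 : ℂ) z
    rwa [norm_one] at this
  have h5 : ‖(1 + (z : ℂ)) / (1 - (z : ℂ))‖ ≤ 4 / (1 - ‖(z : ℂ)‖ ^ 2) := by
    rw [norm_div, div_le_div_iff₀ hn hz]
    nlinarith
  have h6 : (1 - ‖(z : ℂ)‖ ^ 2) / 4 ≤ ‖(1 + (z : ℂ)) / (1 - (z : ℂ))‖ := by
    rw [norm_div, div_le_div_iff₀ (by norm_num) hn]
    nlinarith
  have h7 := Real.log_le_log hu h5
  have h8 := Real.log_le_log (by positivity) h6
  rw [Real.log_div (by norm_num) hz.ne'] at h7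
  rw [Real.log_div hz.ne' (by norm_num)] at h8
  unfold xc
  rw [abs_le]
  constructor <;> linarith

end

end Pool.Agent.Lib.MP_b16327_pr
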