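import Pool.Agent.Lib.MP_b16327_pr.GeoC
import Pool.Agent.Lib.MP_b16327_pr.MtpA

/-! # The (exponential) distance to an orbit -/

namespace Pool.Agent.Lib.MP_b16327_pr

open Complex MeasureTheory ComplexConjugate Filter
open scoped Complex.UnitDisc Topology ENNReal

noncomputable section

private theorem XB_exp_dL (x y : 𝔻) : Real.exp (dL x y) = 1 + Qd x y := by
  have h := Qd_nonneg x y
  unfold dL
  exact Real.exp_log (by linarith)

/-- exponential form of `dL_triangle` -/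
theorem Qd_triangle (x y z : 𝔻) : 1 + Qd x z ≤ 4 * ((1 + Qd x y) * (1 + Qd y z)) := by
  rw [← XB_exp_dL x z, ← XB_exp_dL x y, ← XB_exp_dL y z]
  have h := Real.exp_le_exp.2 (dL_triangle x y z)
  rw [Real.exp_add, Real.exp_add, Real.exp_log (by norm_num : (0 : ℝ) < 4)] at h
  linarith

/-- exponential distance to the orbit of `0` -/
def hG (Γ : Subgroup SU11) (z : 𝔻) : ℝ := ⨅ γ : Γ, (1 + Qd z ((γ : SU11) • (0 : 𝔻)))

private theorem XB_bdd (Γ : Subgroup SU11) (z : 𝔻) :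
    BddBelow (Set.range (fun γ : Γ => (1 + Qd z ((γ : SU11) • (0 : 𝔻))))) := by
  refine ⟨1, ?_⟩
  rintro _ ⟨γ, rfl⟩
  have := Qd_nonneg z ((γ : SU11) • (0 : 𝔻))
  show (1 : ℝ) ≤ 1 + Qd z ((γ : SU11) • (0 : 𝔻))
  linarith

theorem one_le_hG (Γ : Subgroup SU11) (z : 𝔻) : 1 ≤ hG Γ z := by
  unfold hG
  refine le_ciInf (fun γ => ?_)
  have := Qd_nonneg z ((γ : SU11) • (0 : 𝔻))
  linarith

theorem hG_le {Γ : Subgroup SU11} {γ : SU11} (hγ : γ ∈ Γ) (z : 𝔻) :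
    hG Γ z ≤ 1 + Qd z (γ • (0 : 𝔻)) := by
  unfold hG
  exact ciInf_le (XB_bdd Γ z) (⟨γ, hγ⟩ : Γ)

theorem exists_hG (Γ : Subgroup SU11) (z : 𝔻) :
    ∃ γ ∈ Γ, 1 + Qd z (γ • (0 : 𝔻)) ≤ 2 * hG Γ z := by
  have h1 := one_le_hG Γ z
  have h2 : (⨅ γ : Γ, (1 + Qd z ((γ : SU11) • (0 : 𝔻)))) < 2 * hG Γ z := by
    show hG Γ z < 2 * hG Γ z
    linarith
  obtain ⟨γ, hγ⟩ := exists_lt_of_ciInf_lt h2
  exact ⟨γ, γ.2, hγ.le⟩

private theorem XB_smul_le {Γ : Subgroup SU11} {γ : SU11} (hγ : γ ∈ Γ) (z : 𝔻) :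
    hG Γ (γ • z) ≤ hG Γ z := by
  conv_rhs => unfold hG
  refine le_ciInf (fun δ => ?_)
  have h := hG_le (Γ.mul_mem hγ δ.2) (γ • z)
  rw [mul_smul, Qd_smul] at h
  exact h

theorem hG_smul {Γ : Subgroup SU11} {γ : SU11} (hγ : γ ∈ Γ) (z : 𝔻) :
    hG Γ (γ • z) = hG Γ z := by
  refine le_antisymm (XB_smul_le hγ z) ?_
  have h := XB_smul_le (Γ.inv_mem hγ) (γ • z)
  rwa [inv_smul_smul] at h

theorem hG_lip (Γ : Subgroup SU11) (z w : 𝔻) : hG Γ z ≤ 4 * (1 + Qd z w) * hG Γ w := by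
  have h0 := Qd_nonneg z w
  have hpos : 0 < 4 * (1 + Qd z w) := by linarith
  have h1 : hG Γ z / (4 * (1 + Qd z w)) ≤ hG Γ w := by
    conv_rhs => unfold hG
    refine le_ciInf (fun γ => ?_)
    rw [div_le_iff₀ hpos]
    have h2 := hG_le γ.2 z
    have h3 := Qd_triangle z w ((γ : SU11) • (0 : 𝔻))
    nlinarith
  rw [div_le_iff₀ hpos] at h1
  linarith

/-- `{hG < c}` is open, a union of open sets -/
theorem measurable_hG (Γ : Subgroup SU11) : Measurable (hG Γ) := by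
  refine measurable_of_Iio (fun c => ?_)
  have h1 : hG Γ ⁻¹' Set.Iio c =
      ⋃ γ : Γ, {z : 𝔻 | Real.exp (dL z ((γ : SU11) • (0 : 𝔻))) < c} := by
    ext z
    simp only [Set.mem_preimage, Set.mem_Iio, Set.mem_iUnion, Set.mem_ofPred_eq]
    constructor
    · intro h
      obtain ⟨γ, hγ⟩ := exists_lt_of_ciInf_lt (show (⨅ γ : Γ, (1 + Qd z ((γ : SU11) • (0 : 𝔻)))) < c
        from h)
      exact ⟨γ, by rw [XB_exp_dL]; exact hγ⟩
    · rintro ⟨γ, hγ⟩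
      rw [XB_exp_dL] at hγ
      exact lt_of_le_of_lt (hG_le γ.2 z) hγ
  rw [h1]
  refine IsOpen.measurableSet (isOpen_iUnion (fun γ => ?_))
  generalize ((γ : SU11) • (0 : 𝔻)) = w
  have h3 : Continuous (fun z : 𝔻 => ((z, w) : 𝔻 × 𝔻)) := Continuous.prodMk_left w
  have h2 : Continuous (fun z : 𝔻 => dL z w) := by
    have h4 := continuous_dL.comp h3
    simp only [Function.comp_def] at h4
    exact h4
  exact isOpen_lt (Real.continuous_exp.comp h2) continuous_const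

/-- if `hG ≤ C` then some `γ⁻¹ z` has `1 + Qd (γ⁻¹ z) 0 ≤ 2 C` -/
theorem isCocpt_of_hG_le {Γ : Subgroup SU11} {C : ℝ} (h : ∀ z, hG Γ z ≤ C) : IsCocpt Γ := by
  have hC : 1 ≤ C := (one_le_hG Γ 0).trans (h 0)
  refine ⟨Real.sqrt (1 - 1 / (2 * C)), ?_, fun z => ?_⟩
  · have h1 : 0 < 1 / (2 * C) := by positivity
    rw [Real.sqrt_lt' (by norm_num)]
    linarith
  · obtain ⟨γ, hγ, hγz⟩ := exists_hG Γ z
    refine ⟨γ⁻¹, Γ.inv_mem hγ, ?_⟩
    have h2 : Qd z (γ • (0 : 𝔻)) = Qd (γ⁻¹ • z) 0 := by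
      have h3 := Qd_smul γ⁻¹ z (γ • (0 : 𝔻))
      rw [inv_smul_smul] at h3
      exact h3.symm
    have h4 := one_sub_pd_sq (γ⁻¹ • z) 0
    rw [pd_zero_right, ← h2] at h4
    have h5 : 1 + Qd z (γ • (0 : 𝔻)) ≤ 2 * C := by
      have := h z
      linarith
    have h6 : 0 < 1 + Qd z (γ • (0 : 𝔻)) := by
      have := Qd_nonneg z (γ • (0 : 𝔻))
      linarith
    have h7 : 1 / (2 * C) ≤ 1 / (1 + Qd z (γ • (0 : 𝔻))) := one_div_le_one_div_of_le h6 h5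
    refine Real.le_sqrt_of_sq_le ?_
    linarith

/-- along a geodesic the function is locally bounded: `hG (k At_t 0) ≤ 1 + Qd (k At_t 0) 0` -/
theorem hG_le_exp (Γ : Subgroup SU11) (k : SU11) (t : ℝ) :
    hG Γ (k • (At t • (0 : 𝔻))) ≤ 4 * Real.exp |t| * Real.exp (Lg k) := by
  have h1 := hG_le Γ.one_mem (k • (At t • (0 : 𝔻)))
  rw [one_smul] at h1
  have h2 := Qd_triangle (k • (At t • (0 : 𝔻))) (k • (0 : 𝔻)) 0
  rw [Qd_smul] at h2
  have h3 : 1 + Qd (k • (0 : 𝔻)) 0 = Real.exp (Lg k) := by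
    rw [← XB_exp_dL, dL_smul_zero]
  have h4 : 1 + Qd (At t • (0 : 𝔻)) 0 = Real.exp (Lg (At t)) := by
    rw [← XB_exp_dL, dL_smul_zero]
  have h5 : Real.exp (Lg (At t)) ≤ Real.exp |t| := by
    have h6 : normSq (At t).a = Real.cosh (t / 2) ^ 2 := by
      show normSq ((Real.cosh (t / 2) : ℝ) : ℂ) = _
      rw [Complex.normSq_ofReal, sq]
    have h7 : 0 < Real.cosh (t / 2) := Real.cosh_pos _
    unfold Lg
    rw [h6, Real.exp_log (by positivity)]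
    have h8 : Real.cosh (t / 2) ≤ Real.exp |t / 2| := by
      rw [← Real.cosh_abs, Real.cosh_eq]
      have h9 : Real.exp (-|t / 2|) ≤ Real.exp |t / 2| :=
        Real.exp_le_exp.2 (by have := abs_nonneg (t / 2); linarith)
      linarith
    calc Real.cosh (t / 2) ^ 2 ≤ Real.exp |t / 2| ^ 2 := by gcongr
      _ = Real.exp |t| := by
        rw [← Real.exp_nat_mul, abs_div, abs_of_pos (by norm_num : (0 : ℝ) < 2)]
        congr 1
        push_cast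
        ring
  rw [h3, h4] at h2
  have h10 : 0 < Real.exp (Lg k) := Real.exp_pos _
  nlinarith

end

end Pool.Agent.Lib.MP_b16327_pr
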