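import Pool.Agent.Lib.MP_b16327_pr.XA
import Pool.Agent.Lib.MP_b16327_pr.XB
import Pool.Agent.Lib.MP_b16327_pr.Walk

/-! # Telescoping along a geodesic -/

namespace Pool.Agent.Lib.MP_b16327_pr

open Complex MeasureTheory ComplexConjugate Filter
open scoped Complex.UnitDisc Topology ENNReal

noncomputable section

/-- the primitive of `hG` along the geodesic `k (-1,1)` -/
def Hline (Γ : Subgroup SU11) (k : SU11) (s : ℝ) : ℝ :=
  ∫ t in (0 : ℝ)..s, hG Γ (k • (At t • (0 : 𝔻)))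

private theorem XC_continuous_At : Continuous (fun t : ℝ => At t • (0 : 𝔻)) := by
  rw [UnitDisc.isEmbedding_coe.continuous_iff]
  change Continuous (fun t : ℝ => ((At t • (0 : 𝔻) : 𝔻) : ℂ))
  simp only [At_smul_zero]
  refine Complex.continuous_ofReal.comp ?_
  have h : (fun t : ℝ => Real.tanh (t / 2)) = fun t : ℝ => Real.sinh (t / 2) / Real.cosh (t / 2) := by
    funext t
    exact Real.tanh_eq_sinh_div_cosh _
  rw [h]
  exact (Real.continuous_sinh.comp (continuous_id.div_const 2)).div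
    (Real.continuous_cosh.comp (continuous_id.div_const 2)) fun t => (Real.cosh_pos _).ne'

private theorem XC_measurable (Γ : Subgroup SU11) (k : SU11) :
    Measurable (fun t : ℝ => hG Γ (k • (At t • (0 : 𝔻)))) :=
  (measurable_hG Γ).comp ((continuous_smul_disc k).comp XC_continuous_At).measurable

private theorem XC_nonneg (Γ : Subgroup SU11) (z : 𝔻) : 0 ≤ hG Γ z := zero_le_one.trans (one_le_hG Γ z)

theorem intervalIntegrable_hG (Γ : Subgroup SU11) (k : SU11) (a b : ℝ) :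
    IntervalIntegrable (fun t => hG Γ (k • (At t • (0 : 𝔻)))) volume a b := by
  refine IntervalIntegrable.mono_fun' (g := fun t => 4 * Real.exp |t| * Real.exp (Lg k)) ?_
    (XC_measurable Γ k).aestronglyMeasurable ?_
  · exact Continuous.intervalIntegrable (by fun_prop) _ _
  · refine Filter.Eventually.of_forall fun t => ?_
    change ‖hG Γ (k • (At t • (0 : 𝔻)))‖ ≤ 4 * Real.exp |t| * Real.exp (Lg k)
    rw [Real.norm_eq_abs, abs_of_nonneg (XC_nonneg Γ _)]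
    exact hG_le_exp Γ k t

private theorem XC_sub (Γ : Subgroup SU11) (k : SU11) (s t : ℝ) :
    Hline Γ k t - Hline Γ k s = ∫ u in s..t, hG Γ (k • (At u • (0 : 𝔻))) := by
  unfold Hline
  exact intervalIntegral.integral_interval_sub_left (intervalIntegrable_hG Γ k _ _) (intervalIntegrable_hG Γ k _ _)

theorem Hline_mono (Γ : Subgroup SU11) (k : SU11) {s t : ℝ} (h : s ≤ t) : Hline Γ k s ≤ Hline Γ k t := by
  have h1 := XC_sub Γ k s t
  have h2 : 0 ≤ ∫ u in s..t, hG Γ (k • (At u • (0 : 𝔻))) :=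
    intervalIntegral.integral_nonneg h fun u _ => XC_nonneg Γ _
  linarith

/-- STEP.  `z = k⁻¹ g 0`, `w = k⁻¹ g' 0`, `c = cos (yc z)`: `|xc z - xc w| ≤ 8 (1 + Q) c`; for `t`
between them `hG (k At_t 0) ≤ 4 (1 + Qd (At_t 0) (At_{xc z} 0)) hG (k At_{xc z} 0)
≤ 4 exp (8 (1 + Q)) / c` because `hG (k At_{xc z} 0) ≤ 1 + Qd (At_{xc z} 0) z ≤ 1/c`. -/
theorem Hline_step {Γ : Subgroup SU11} (k : SU11) {g g' : SU11} (hg : g ∈ Γ) (hg' : g' ∈ Γ) {Q : ℝ}
    (hQ : Qd (g • (0 : 𝔻)) (g' • (0 : 𝔻)) ≤ Q) :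
    |Hline Γ k (xc (k⁻¹ • (g • (0 : 𝔻)))) - Hline Γ k (xc (k⁻¹ • (g' • (0 : 𝔻))))| ≤
      32 * (1 + Q) * Real.exp (8 * (1 + Q)) := by
  set z : 𝔻 := k⁻¹ • (g • (0 : 𝔻)) with hz
  set w : 𝔻 := k⁻¹ • (g' • (0 : 𝔻)) with hw
  have hQ0 : 0 ≤ Q := (Qd_nonneg _ _).trans hQ
  have hzw : Qd z w ≤ Q := by
    rw [hz, hw, Qd_smul]
    exact hQ
  have hc : 0 < Real.cos (yc z) := cos_yc_pos z
  have hc1 : Real.cos (yc z) ≤ 1 := Real.cos_le_one _
  have hx : |xc z - xc w| ≤ 8 * (1 + Q) * Real.cos (yc z) := by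
    refine (abs_xc_sub_le z w).trans ?_
    refine mul_le_mul_of_nonneg_right ?_ hc.le
    linarith
  have hkz : hG Γ (k • (At (xc z) • (0 : 𝔻))) ≤ 1 / Real.cos (yc z) := by
    refine (hG_le hg _).trans ?_
    have e : g • (0 : 𝔻) = k • z := by rw [hz, smul_inv_smul]
    rw [e, Qd_smul]
    exact Qd_axis_foot z
  rw [XC_sub]
  have hb : ∀ t ∈ Set.uIoc (xc w) (xc z), ‖hG Γ (k • (At t • (0 : 𝔻)))‖ ≤ 4 * Real.exp (8 * (1 + Q)) * (1 / Real.cos (yc z)) := by
    intro t ht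
    rw [Real.norm_eq_abs, abs_of_nonneg (XC_nonneg Γ _)]
    refine (hG_lip Γ (k • (At t • (0 : 𝔻))) (k • (At (xc z) • (0 : 𝔻)))).trans ?_
    rw [Qd_smul]
    have h1 : 1 + Qd (At t • (0 : 𝔻)) (At (xc z) • (0 : 𝔻)) ≤ Real.exp (8 * (1 + Q)) := by
      refine (Qd_axis t (xc z)).trans (Real.exp_le_exp.2 ?_)
      have h2 : |t - xc z| ≤ |xc z - xc w| := by
        rcases le_total (xc w) (xc z) with h | h
        · rw [Set.uIoc_of_le h] at ht
          rw [abs_of_nonpos (by linarith [ht.2]), abs_of_nonneg (by linarith)]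
          linarith [ht.1]
        · rw [Set.uIoc_of_ge h] at ht
          rw [abs_of_nonneg (by linarith [ht.1]), abs_of_nonpos (by linarith)]
          linarith [ht.2]
      refine (h2.trans hx).trans ?_
      have h3 : 0 ≤ 8 * (1 + Q) := by positivity
      nlinarith
    refine mul_le_mul (mul_le_mul_of_nonneg_left h1 (by norm_num)) hkz (XC_nonneg Γ _) (by positivity)
  have h4 := intervalIntegral.norm_integral_le_of_norm_le_const hb
  rw [Real.norm_eq_abs] at h4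
  refine h4.trans ?_
  calc 4 * Real.exp (8 * (1 + Q)) * (1 / Real.cos (yc z)) * |xc z - xc w| ≤
        4 * Real.exp (8 * (1 + Q)) * (1 / Real.cos (yc z)) * (8 * (1 + Q) * Real.cos (yc z)) :=
          mul_le_mul_of_nonneg_left hx (by positivity)
    _ = 32 * (1 + Q) * Real.exp (8 * (1 + Q)) := by
      field_simp
      ring

/-- induction on `n`; `(W.pow (n+1)).h (i, j) = (W.pow n).h i * W.h j` -/
theorem Hline_walk (W : Walk) {Γ : Subgroup SU11} (hΓ : ∀ i, W.h i ∈ Γ) :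
    ∃ C : ℝ, 0 ≤ C ∧ ∀ (k : SU11) (n : ℕ) (i : (W.pow n).ι),
      Hline Γ k (xc (k⁻¹ • ((W.pow n).h i • (0 : 𝔻)))) ≤ Hline Γ k (xc (k⁻¹ • (0 : 𝔻))) + C * n := by
  have hQ0 : ∀ j, 0 ≤ Qd (0 : 𝔻) (W.h j • (0 : 𝔻)) := fun j => Qd_nonneg _ _
  set Q : ℝ := ∑ j, Qd (0 : 𝔻) (W.h j • (0 : 𝔻)) with hQ
  have hQn : 0 ≤ Q := Finset.sum_nonneg fun j _ => hQ0 j
  refine ⟨32 * (1 + Q) * Real.exp (8 * (1 + Q)), by positivity, fun k n => ?_⟩
  induction n with
  | zero =>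
    intro i
    have : (W.pow 0).h i = 1 := rfl
    rw [this, one_smul]
    simp
  | succ n ih =>
    rintro ⟨i, j⟩
    have e : (W.pow (n + 1)).h (i, j) = (W.pow n).h i * W.h j := rfl
    have h1 := ih i
    have hi : (W.pow n).h i ∈ Γ := Walk.pow_mem W hΓ n i
    have h2 : Qd ((W.pow n).h i • (0 : 𝔻)) (((W.pow n).h i * W.h j) • (0 : 𝔻)) ≤ Q := by
      rw [mul_smul, Qd_smul]
      exact Finset.single_le_sum (f := fun j => Qd (0 : 𝔻) (W.h j • (0 : 𝔻))) (fun j _ => hQ0 j) (Finset.mem_univ j)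
    have h3 := Hline_step (Γ := Γ) k hi (Γ.mul_mem hi (hΓ j)) h2
    have h4 := (abs_le.1 h3).1
    rw [e]
    push_cast
    linarith

/-- `|xc (k⁻¹ 0)| ≤ Lg G + log 4` for `k = G * rotG ζ`, and `hG_le_exp` -/
theorem Hline_start (Γ : Subgroup SU11) (G : SU11) :
    ∃ C : ℝ, 0 ≤ C ∧ ∀ ζ : Circle,
      Hline Γ (G * rotG ζ) (xc ((G * rotG ζ)⁻¹ • (0 : 𝔻))) ≤ C := by
  have hlog : 0 ≤ Real.log 4 := Real.log_nonneg (by norm_num)
  have hG0 := Lg_nonneg G
  set T : ℝ := Lg G + 2 * Real.log 4 with hT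
  have hT0 : 0 ≤ T := by positivity
  refine ⟨4 * Real.exp T * Real.exp T * T, by positivity, fun ζ => ?_⟩
  set k : SU11 := G * rotG ζ with hk
  have hLk : Lg k ≤ Lg G + Real.log 4 := by
    have := Lg_mul_le G (rotG ζ)
    rw [Lg_rotG] at this
    linarith
  have hx : |xc (k⁻¹ • (0 : 𝔻))| ≤ T := by
    refine (abs_xc_le _).trans ?_
    rw [dL_smul_zero, Lg_inv]
    linarith
  unfold Hline
  have hb : ∀ t ∈ Set.uIoc 0 (xc (k⁻¹ • (0 : 𝔻))), ‖hG Γ (k • (At t • (0 : 𝔻)))‖ ≤ 4 * Real.exp T * Real.exp T := by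
    intro t ht
    rw [Real.norm_eq_abs, abs_of_nonneg (XC_nonneg Γ _)]
    refine (hG_le_exp Γ k t).trans ?_
    have h1 : |t| ≤ T := by
      refine le_trans ?_ hx
      rcases le_total 0 (xc (k⁻¹ • (0 : 𝔻))) with h | h
      · rw [Set.uIoc_of_le h] at ht
        rw [abs_of_nonneg ht.1.le, abs_of_nonneg h]
        exact ht.2
      · rw [Set.uIoc_of_ge h] at ht
        rw [abs_of_nonpos ht.2, abs_of_nonpos h]
        linarith [ht.1]
    have h2 : Lg k ≤ T := by linarith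
    exact mul_le_mul (mul_le_mul_of_nonneg_left (Real.exp_le_exp.2 h1) (by norm_num)) (Real.exp_le_exp.2 h2)
      (Real.exp_pos _).le (by positivity)
  have h4 := intervalIntegral.norm_integral_le_of_norm_le_const hb
  rw [Real.norm_eq_abs, sub_zero] at h4
  refine ((le_abs_self _).trans h4).trans ?_
  exact mul_le_mul_of_nonneg_left hx (by positivity)

/-- integral of `F` along the geodesic ray from `G 0` to `G ζ`, up to time `τ` -/
def ray (G : SU11) (τ : ℝ) (F : 𝔻 → ℝ) (ζ : Circle) : ℝ :=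
  ∫ t in (0 : ℝ)..τ, F (G • (ζ • (At t • (0 : 𝔻))))

private theorem XC_ray_continuous (G : SU11) : Continuous (fun p : Circle × ℝ => G • (p.1 • (At p.2 • (0 : 𝔻)))) :=
  (continuous_smul_disc G).comp (continuous_rot_smul.comp
    (continuous_fst.prodMk (XC_continuous_At.comp continuous_snd)))

theorem measurable_ray (G : SU11) (τ : ℝ) {F : 𝔻 → ℝ} (hF : Measurable F) :
    Measurable (ray G τ F) := by
  unfold ray intervalIntegral
  have hm : StronglyMeasurable (Function.uncurry fun (ζ : Circle) (t : ℝ) => F (G • (ζ • (At t • (0 : 𝔻))))) := by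
    have h1 : Measurable (fun p : Circle × ℝ => F (G • (p.1 • (At p.2 • (0 : 𝔻))))) :=
      hF.comp (XC_ray_continuous G).measurable
    exact h1.stronglyMeasurable
  exact (hm.integral_prod_right (ν := volume.restrict (Set.Ioc 0 τ))).measurable.sub
    (hm.integral_prod_right (ν := volume.restrict (Set.Ioc τ 0))).measurable

theorem ray_nonneg (G : SU11) {τ : ℝ} (hτ : 0 ≤ τ) {F : 𝔻 → ℝ} (hF : ∀ z, 0 ≤ F z)
    (ζ : Circle) : 0 ≤ ray G τ F ζ :=
  intervalIntegral.integral_nonneg hτ fun _ _ => hF _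

theorem ray_le (G : SU11) {τ : ℝ} (hτ : 0 ≤ τ) {F : 𝔻 → ℝ} (hF : Measurable F)
    (hF0 : ∀ z, 0 ≤ F z) {B : ℝ} (hB : ∀ z, F z ≤ B) (ζ : Circle) : ray G τ F ζ ≤ B * τ := by
  unfold ray
  have hb : ∀ t ∈ Set.uIoc 0 τ, ‖F (G • (ζ • (At t • (0 : 𝔻))))‖ ≤ B := by
    intro t _
    rw [Real.norm_eq_abs, abs_of_nonneg (hF0 _)]
    exact hB _
  have h4 := intervalIntegral.norm_integral_le_of_norm_le_const hb
  rw [Real.norm_eq_abs, sub_zero, abs_of_nonneg hτ] at h4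
  exact (le_abs_self _).trans h4

/-- PATHWISE BOUND: `ray G τ (min hG B) ζ ≤ Hline Γ k τ ≤ Hline Γ k (xc (k⁻¹ w 0))`, `k = G * rotG ζ` -/
theorem ray_pathwise (W : Walk) {Γ : Subgroup SU11} (hΓ : ∀ i, W.h i ∈ Γ) :
    ∃ C2 : ℝ, 0 ≤ C2 ∧ ∀ G : SU11, ∃ CG : ℝ, 0 ≤ CG ∧ ∀ (ζ : Circle) (τ B : ℝ), 0 ≤ τ → 1 ≤ B →
      ∀ (n : ℕ) (i : (W.pow n).ι),
        τ ≤ xc ((G * rotG ζ)⁻¹ • ((W.pow n).h i • (0 : 𝔻))) →
        ray G τ (fun z => min (hG Γ z) B) ζ ≤ CG + C2 * n := by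
  obtain ⟨C2, hC2, hW⟩ := Hline_walk W hΓ
  refine ⟨C2, hC2, fun G => ?_⟩
  obtain ⟨CG, hCG, hS⟩ := Hline_start Γ G
  refine ⟨CG, hCG, fun ζ τ B hτ hB n i hi => ?_⟩
  have h1 : ray G τ (fun z => min (hG Γ z) B) ζ ≤ Hline Γ (G * rotG ζ) τ := by
    unfold ray Hline
    have e : ∀ t : ℝ, (G * rotG ζ) • (At t • (0 : 𝔻)) = G • (ζ • (At t • (0 : 𝔻))) := by
      intro t
      rw [mul_smul, rotG_smul]
    refine intervalIntegral.integral_mono_on hτ ?_ (intervalIntegrable_hG Γ (G * rotG ζ) 0 τ) fun t _ => ?_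
    · refine (intervalIntegrable_hG Γ (G * rotG ζ) 0 τ).mono_fun' ?_ ?_
      · have hm : Measurable (fun t : ℝ => min (hG Γ (G • (ζ • (At t • (0 : 𝔻))))) B) := by
          refine Measurable.min ?_ measurable_const
          have := XC_measurable Γ (G * rotG ζ)
          simp only [e] at this
          exact this
        exact hm.aestronglyMeasurable
      · refine Filter.Eventually.of_forall fun t => ?_
        change ‖min (hG Γ (G • (ζ • (At t • (0 : 𝔻))))) B‖ ≤ hG Γ ((G * rotG ζ) • (At t • (0 : 𝔻)))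
        rw [Real.norm_eq_abs, abs_of_nonneg (le_min (XC_nonneg Γ _) (zero_le_one.trans hB)), e]
        exact min_le_left _ _
    · rw [e]
      exact min_le_left _ _
  have h2 := Hline_mono Γ (G * rotG ζ) hi
  have h3 := hW (G * rotG ζ) n i
  have h4 := hS ζ
  linarith

end

end Pool.Agent.Lib.MP_b16327_pr
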