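import Pool.Agent.Lib.MP_b16327_pr.CircA
import Pool.Agent.Lib.MP_b16327_pr.AreaB
import Pool.Agent.Lib.MP_b16327_pr.MtpB

/-! # Polar coordinates and conservation of mass -/

namespace Pool.Agent.Lib.MP_b16327_pr

open Complex MeasureTheory ComplexConjugate Filter
open scoped Complex.UnitDisc Topology ENNReal

noncomputable section

private theorem XD_lam (G : Circle → ℝ≥0∞) (hG : Measurable G) :
    ∫⁻ ξ, G ξ ∂lam = ENNReal.ofReal (1 / (2 * Real.pi)) *
      ∫⁻ θ in Set.Ioo (-Real.pi) Real.pi, G (Circle.exp θ) := by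
  have hm : Measurable (fun η : Circle => Circle.exp (-Real.pi) * η) :=
    (continuous_const.mul continuous_id).measurable
  have hme : Measurable (fun t : ℝ => Circle.exp t) := Circle.exp.continuous.measurable
  rw [← lam_rot (Circle.exp (-Real.pi)), lintegral_map hG hm]
  unfold lam
  have h0 : ∫⁻ a : Circle, G (Circle.exp (-Real.pi) * a)
      ∂(Measure.map Circle.exp (volume.restrict (Set.Ioc 0 (2 * Real.pi)))) =
      ∫⁻ t in Set.Ioc 0 (2 * Real.pi), G (Circle.exp (-Real.pi) * Circle.exp t) :=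
    lintegral_map (hG.comp hm) hme
  rw [lintegral_smul_measure, h0, smul_eq_mul]
  congr 1
  have h4 : ∀ θ : ℝ, G (Circle.exp (-Real.pi) * Circle.exp θ) =
      G (Circle.exp (θ + (-Real.pi))) := by
    intro θ
    rw [Circle.exp_add, mul_comm]
  have h2 := (measurePreserving_add_right (volume : Measure ℝ) (-Real.pi)).setLIntegral_comp_preimage_emb
    (measurableEmbedding_addRight (-Real.pi)) (fun θ => G (Circle.exp θ)) (Set.Ioc (-Real.pi) Real.pi)
  have h3 : (fun x : ℝ => x + (-Real.pi)) ⁻¹' Set.Ioc (-Real.pi) Real.pi =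
      Set.Ioc 0 (2 * Real.pi) := by
    ext x
    simp only [Set.mem_preimage, Set.mem_Ioc]
    constructor
    · rintro ⟨h5, h6⟩; constructor <;> linarith
    · rintro ⟨h5, h6⟩; constructor <;> linarith
  rw [h3] at h2
  calc ∫⁻ a in Set.Ioc 0 (2 * Real.pi), G (Circle.exp (-Real.pi) * Circle.exp a)
      = ∫⁻ a in Set.Ioc 0 (2 * Real.pi), G (Circle.exp (a + (-Real.pi))) :=
        lintegral_congr fun a => h4 a
    _ = ∫⁻ a in Set.Ioc (-Real.pi) Real.pi, G (Circle.exp a) := h2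
    _ = ∫⁻ a in Set.Ioo (-Real.pi) Real.pi, G (Circle.exp a) :=
        setLIntegral_congr Ioo_ae_eq_Ioc.symm

/-- the extension of `F` by zero -/
private def XD_ext (F : 𝔻 → ℝ≥0∞) : ℂ → ℝ≥0∞ :=
  Function.extend (fun z : 𝔻 => (z : ℂ)) F (fun _ => 0)

private theorem XD_ext_coe (F : 𝔻 → ℝ≥0∞) (z : 𝔻) : XD_ext F (z : ℂ) = F z :=
  UnitDisc.coe_injective.extend_apply F (fun _ => 0) z

private theorem XD_ext_zero (F : 𝔻 → ℝ≥0∞) {z : ℂ} (hz : 1 ≤ ‖z‖) : XD_ext F z = 0 := by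
  refine Function.extend_apply' F (fun _ => 0) z ?_
  rintro ⟨w, rfl⟩
  exact absurd w.norm_lt_one (not_lt.2 hz)

private theorem XD_ext_meas {F : 𝔻 → ℝ≥0∞} (hF : Measurable F) : Measurable (XD_ext F) :=
  measurableEmbedding_coe.measurable_extend hF measurable_const

private theorem XD_range : Set.range (fun z : 𝔻 => (z : ℂ)) = Metric.ball (0 : ℂ) 1 := by
  ext z
  simp only [Set.mem_range, Metric.mem_ball, dist_zero_right]
  constructor
  · rintro ⟨w, rfl⟩
    exact w.norm_lt_one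
  · intro h
    exact ⟨UnitDisc.mk z h, UnitDisc.coe_mk z h⟩

/-- integrals over the disc -/
private theorem XD_area (F : 𝔻 → ℝ≥0∞) (hF : Measurable F) :
    ∫⁻ w : 𝔻, F w * ENNReal.ofReal ((1 - ‖(w : ℂ)‖ ^ 2) / (Real.pi * ‖(w : ℂ)‖)) ∂area =
      ∫⁻ z : ℂ, XD_ext F z * ENNReal.ofReal (1 / (Real.pi * ‖z‖ * (1 - ‖z‖ ^ 2))) := by
  have hcn : Measurable (fun w : 𝔻 => ‖(w : ℂ)‖) :=
    (continuous_norm.comp UnitDisc.continuous_coe).measurable
  have hρ : Measurable (fun z : 𝔻 => ENNReal.ofReal (1 / (1 - ‖(z : ℂ)‖ ^ 2) ^ 2)) := by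
    fun_prop
  have hg : Measurable (fun w : 𝔻 => F w *
      ENNReal.ofReal ((1 - ‖(w : ℂ)‖ ^ 2) / (Real.pi * ‖(w : ℂ)‖))) := by
    fun_prop
  unfold area
  rw [lintegral_withDensity_eq_lintegral_mul _ hρ hg]
  have hmp : MeasurePreserving (fun z : 𝔻 => (z : ℂ))
      (Measure.comap (fun z : 𝔻 => (z : ℂ)) (volume : Measure ℂ))
      (volume.restrict (Set.range (fun z : 𝔻 => (z : ℂ)))) :=
    ⟨measurableEmbedding_coe.measurable, by rw [measurableEmbedding_coe.map_comap]⟩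
  have h1 := hmp.lintegral_comp_emb measurableEmbedding_coe
    (fun z : ℂ => XD_ext F z * ENNReal.ofReal (1 / (Real.pi * ‖z‖ * (1 - ‖z‖ ^ 2))))
  have h2 : ∫⁻ a : 𝔻, ((fun z : 𝔻 => ENNReal.ofReal (1 / (1 - ‖(z : ℂ)‖ ^ 2) ^ 2)) *
      fun w : 𝔻 => F w * ENNReal.ofReal ((1 - ‖(w : ℂ)‖ ^ 2) / (Real.pi * ‖(w : ℂ)‖))) a
        ∂(Measure.comap (fun z : 𝔻 => (z : ℂ)) (volume : Measure ℂ)) =
      ∫⁻ a : 𝔻, XD_ext F (a : ℂ) * ENNReal.ofReal (1 / (Real.pi * ‖(a : ℂ)‖ *
        (1 - ‖(a : ℂ)‖ ^ 2))) ∂(Measure.comap (fun z : 𝔻 => (z : ℂ)) (volume : Measure ℂ)) := by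
    refine lintegral_congr fun a => ?_
    rw [Pi.mul_apply, XD_ext_coe, ← mul_assoc, mul_comm _ (F a), mul_assoc]
    congr 1
    have h3 := UnitDisc.sq_norm_lt_one a
    have h4 : (0 : ℝ) < 1 - ‖(a : ℂ)‖ ^ 2 := by linarith
    rw [← ENNReal.ofReal_mul (by positivity)]
    congr 1
    rcases eq_or_ne ‖(a : ℂ)‖ 0 with h5 | h5
    · rw [h5]
      simp
    · have h6 := Real.pi_pos.ne'
      field_simp
  rw [h2, h1, XD_range, ← lintegral_indicator Metric.isOpen_ball.measurableSet]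
  refine lintegral_congr fun z => ?_
  by_cases hz : z ∈ Metric.ball (0 : ℂ) 1
  · rw [Set.indicator_of_mem hz]
  · rw [Set.indicator_of_notMem hz, XD_ext_zero F, zero_mul]
    rw [Metric.mem_ball, dist_zero_right, not_lt] at hz
    exact hz

/-- polar coordinates in the plane -/
private theorem XD_plane (F : 𝔻 → ℝ≥0∞) (hF : Measurable F) :
    ∫⁻ z : ℂ, XD_ext F z * ENNReal.ofReal (1 / (Real.pi * ‖z‖ * (1 - ‖z‖ ^ 2))) =
      ∫⁻ r in Set.Ioo (0 : ℝ) 1, ENNReal.ofReal (2 / (1 - r ^ 2)) *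
        (ENNReal.ofReal (1 / (2 * Real.pi)) *
          ∫⁻ θ in Set.Ioo (-Real.pi) Real.pi, XD_ext F ((r : ℂ) * (Circle.exp θ : ℂ))) := by
  have hE := XD_ext_meas hF
  rw [← Complex.lintegral_comp_polarCoord_symm, polarCoord_target, Measure.volume_eq_prod]
  have hmeas : Measurable (fun p : ℝ × ℝ => ENNReal.ofReal p.1 •
      (XD_ext F (Complex.polarCoord.symm p) * ENNReal.ofReal
        (1 / (Real.pi * ‖Complex.polarCoord.symm p‖ *
          (1 - ‖Complex.polarCoord.symm p‖ ^ 2))))) := by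
    have h1 : Measurable (fun p : ℝ × ℝ => Complex.polarCoord.symm p) := by
      have h2 : (fun p : ℝ × ℝ => Complex.polarCoord.symm p) =
          fun p : ℝ × ℝ => (p.1 : ℂ) * (Real.cos p.2 + Real.sin p.2 * I) := by
        funext p
        rw [Complex.polarCoord_symm_apply]
      rw [h2]
      fun_prop
    simp only [smul_eq_mul]
    fun_prop
  rw [setLIntegral_prod _ hmeas.aemeasurable]
  have hsplit : Set.Ioi (0 : ℝ) = Set.Ioo (0 : ℝ) 1 ∪ Set.Ici 1 := by
    ext x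
    simp only [Set.mem_Ioi, Set.mem_union, Set.mem_Ioo, Set.mem_Ici]
    constructor
    · intro h
      rcases lt_or_ge x 1 with h1 | h1
      · exact Or.inl ⟨h, h1⟩
      · exact Or.inr h1
    · rintro (h | h)
      · exact h.1
      · linarith
  have hdisj : Disjoint (Set.Ioo (0 : ℝ) 1) (Set.Ici 1) := by
    rw [Set.disjoint_left]
    intro x hx hx'
    exact absurd hx.2 (not_lt.2 hx')
  rw [hsplit, lintegral_union measurableSet_Ici hdisj]
  have hpt : ∀ r θ : ℝ, Complex.polarCoord.symm (r, θ) = (r : ℂ) * (Circle.exp θ : ℂ) := by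
    intro r θ
    rw [Complex.polarCoord_symm_apply, Circle.coe_exp, Complex.exp_mul_I]
    push_cast
    rfl
  have hnorm : ∀ r θ : ℝ, 0 < r → ‖(r : ℂ) * (Circle.exp θ : ℂ)‖ = r := by
    intro r θ hr
    rw [norm_mul, Circle.norm_coe, mul_one, Complex.norm_real, Real.norm_eq_abs, abs_of_pos hr]
  have hz : ∫⁻ x in Set.Ici (1 : ℝ), ∫⁻ y in Set.Ioo (-Real.pi) Real.pi,
      ENNReal.ofReal (x, y).1 • (XD_ext F (Complex.polarCoord.symm (x, y)) * ENNReal.ofReal
        (1 / (Real.pi * ‖Complex.polarCoord.symm (x, y)‖ *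
          (1 - ‖Complex.polarCoord.symm (x, y)‖ ^ 2)))) = 0 := by
    rw [setLIntegral_congr_fun measurableSet_Ici (g := fun _ => 0), lintegral_zero]
    intro x hx
    have hx1 : (1 : ℝ) ≤ x := hx
    simp only
    rw [lintegral_congr (g := fun _ => 0), lintegral_zero]
    intro y
    rw [hpt, XD_ext_zero F, zero_mul, smul_zero]
    rw [hnorm x y (by linarith)]
    exact hx1
  rw [hz, add_zero]
  refine setLIntegral_congr_fun measurableSet_Ioo fun r hr => ?_
  simp only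
  have h1 : (0 : ℝ) < 1 - r ^ 2 := by nlinarith [hr.1, hr.2]
  have hc : ENNReal.ofReal r * ENNReal.ofReal (1 / (Real.pi * r * (1 - r ^ 2))) =
      ENNReal.ofReal (2 / (1 - r ^ 2)) * ENNReal.ofReal (1 / (2 * Real.pi)) := by
    rw [← ENNReal.ofReal_mul hr.1.le, ← ENNReal.ofReal_mul (by positivity)]
    congr 1
    have h2 := hr.1.ne'
    have h3 := Real.pi_pos.ne'
    field_simp
  rw [← mul_assoc, ← hc, ← lintegral_const_mul]
  · refine lintegral_congr fun θ => ?_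
    rw [hpt, hnorm r θ hr.1, smul_eq_mul]
    ring
  · exact hE.comp (Continuous.measurable (by fun_prop))

/-- the substitution `r = tanh (t/2)` -/
private theorem XD_tanh (J : ℝ → ℝ≥0∞) :
    ∫⁻ r in Set.Ioo (0 : ℝ) 1, ENNReal.ofReal (2 / (1 - r ^ 2)) * J r =
      ∫⁻ t in Set.Ioi (0 : ℝ), J (Real.tanh (t / 2)) := by
  have hderiv : ∀ t : ℝ, HasDerivAt (fun t : ℝ => Real.tanh (t / 2))
      ((1 - Real.tanh (t / 2) ^ 2) / 2) t := by
    intro t
    have hc : Real.cosh (t / 2) ≠ 0 := (Real.cosh_pos _).ne'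
    have h1 : HasDerivAt (fun t : ℝ => t / 2) (1 / 2) t := (hasDerivAt_id t).div_const 2
    have h2 := (h1.sinh.div h1.cosh hc)
    have h3 : (fun t : ℝ => Real.tanh (t / 2)) =
        (fun t : ℝ => Real.sinh (t / 2)) / (fun t : ℝ => Real.cosh (t / 2)) := by
      funext s
      rw [Pi.div_apply, Real.tanh_eq_sinh_div_cosh]
    rw [h3]
    refine h2.congr_deriv ?_
    rw [Real.tanh_eq_sinh_div_cosh]
    field_simp
  have hinj : Set.InjOn (fun t : ℝ => Real.tanh (t / 2)) (Set.Ioi 0) := by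
    intro s _ t _ hst
    have h1 := congrArg Real.artanh hst
    simp only [Real.artanh_tanh] at h1
    linarith
  have himg : (fun t : ℝ => Real.tanh (t / 2)) '' Set.Ioi 0 = Set.Ioo (0 : ℝ) 1 := by
    ext r
    simp only [Set.mem_image, Set.mem_Ioi, Set.mem_Ioo]
    constructor
    · rintro ⟨t, ht, rfl⟩
      refine ⟨?_, Real.tanh_lt_one _⟩
      rw [Real.tanh_eq_sinh_div_cosh]
      exact div_pos (Real.sinh_pos_iff.2 (by linarith)) (Real.cosh_pos _)
    · rintro ⟨h0, h1⟩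
      refine ⟨2 * Real.artanh r, ?_, ?_⟩
      · have := Real.artanh_pos (x := r) ⟨h0, h1⟩
        linarith
      · have h2 : 2 * Real.artanh r / 2 = Real.artanh r := by ring
        rw [h2]
        exact Real.tanh_artanh ⟨by linarith, h1⟩
  rw [← himg, lintegral_image_eq_lintegral_abs_deriv_mul measurableSet_Ioi
    (fun t _ => (hderiv t).hasDerivWithinAt) hinj]
  refine lintegral_congr fun t => ?_
  have h1 := Real.tanh_sq_lt_one (t / 2)
  have h2 : (0 : ℝ) < 1 - Real.tanh (t / 2) ^ 2 := by linarith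
  rw [← mul_assoc, ← ENNReal.ofReal_mul (abs_nonneg _), abs_of_pos (by positivity)]
  have h3 : (1 - Real.tanh (t / 2) ^ 2) / 2 * (2 / (1 - Real.tanh (t / 2) ^ 2)) = 1 := by
    field_simp
  rw [h3, ENNReal.ofReal_one, one_mul]

/-- polar coordinates `w = ξ tanh (t/2)`, `dt = 2 dr / (1 - r^2)`, `λ = dθ / 2π`,
`area = r dr dθ / (1 - r^2)^2` (use `Complex.lintegral_comp_polarCoord_symm` or the version on
`ℝ × ℝ`, and the definition of `lam`) -/
theorem lintegral_polar (F : 𝔻 → ℝ≥0∞) (hF : Measurable F) :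
    ∫⁻ t in Set.Ioi (0 : ℝ), ∫⁻ ξ : Circle, F (ξ • (At t • (0 : 𝔻))) ∂lam =
      ∫⁻ w : 𝔻, F w * ENNReal.ofReal ((1 - ‖(w : ℂ)‖ ^ 2) / (Real.pi * ‖(w : ℂ)‖)) ∂area := by
  rw [XD_area F hF, XD_plane F hF, XD_tanh (fun r => ENNReal.ofReal (1 / (2 * Real.pi)) *
          ∫⁻ θ in Set.Ioo (-Real.pi) Real.pi, XD_ext F ((r : ℂ) * (Circle.exp θ : ℂ)))]
  refine lintegral_congr fun t => ?_
  have hm : Measurable (fun ξ : Circle => F (ξ • (At t • (0 : 𝔻)))) :=
    hF.comp (continuous_rot_smul.comp (continuous_id.prodMk continuous_const)).measurable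
  rw [XD_lam _ hm]
  congr 1
  refine lintegral_congr fun θ => ?_
  rw [← XD_ext_coe F]
  congr 1
  rw [UnitDisc.coe_circle_smul, At_smul_zero, mul_comm]

/-- the kernel of the average over spheres of radius `≤ τ` -/
def kap (τ p : ℝ) : ℝ≥0∞ :=
  if p ≤ Real.tanh (τ / 2) then ENNReal.ofReal ((1 - p ^ 2) / (Real.pi * p)) else 0

/-- `lintegral_polar` for `w ↦ 1_{‖w‖ ≤ tanh (τ/2)} F (tr z w)` and invariance of the area -/
theorem ray_kernel {τ : ℝ} (hτ : 0 ≤ τ) (F : 𝔻 → ℝ≥0∞) (hF : Measurable F) (z : 𝔻) :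
    ∫⁻ t in Set.Ioc (0 : ℝ) τ, ∫⁻ ξ : Circle, F (tr z • (ξ • (At t • (0 : 𝔻)))) ∂lam =
      ∫⁻ w : 𝔻, kap τ (pd z w) * F w ∂area := by
  classical
  have hcn : Measurable (fun w : 𝔻 => ‖(w : ℂ)‖) :=
    (continuous_norm.comp UnitDisc.continuous_coe).measurable
  have hset : MeasurableSet {w : 𝔻 | ‖(w : ℂ)‖ ≤ Real.tanh (τ / 2)} :=
    hcn measurableSet_Iic
  have hFz : Measurable (fun w : 𝔻 => F (tr z • w)) := hF.comp (continuous_smul_disc (tr z)).measurable
  have hmeas : Measurable (fun w : 𝔻 => if ‖(w : ℂ)‖ ≤ Real.tanh (τ / 2) then F (tr z • w) else 0) :=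
    Measurable.ite hset hFz measurable_const
  have h1 := lintegral_polar _ hmeas
  have hnorm : ∀ (ξ : Circle) (t : ℝ), 0 < t → ‖((ξ • (At t • (0 : 𝔻)) : 𝔻) : ℂ)‖ =
      Real.tanh (t / 2) := by
    intro ξ t ht
    rw [UnitDisc.coe_circle_smul, At_smul_zero, norm_mul, Circle.norm_coe, one_mul,
      Complex.norm_real, Real.norm_eq_abs, abs_of_nonneg]
    rw [Real.tanh_eq_sinh_div_cosh]
    exact div_nonneg (Real.sinh_nonneg_iff.2 (by linarith)) (Real.cosh_pos _).le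
  have hmono : ∀ s t : ℝ, Real.tanh s ≤ Real.tanh t ↔ s ≤ t := by
    intro s t
    have h2 := Real.artanh_le_artanh_iff (x := Real.tanh s) (y := Real.tanh t)
      ⟨Real.neg_one_lt_tanh _, Real.tanh_lt_one _⟩ ⟨Real.neg_one_lt_tanh _, Real.tanh_lt_one _⟩
    rw [Real.artanh_tanh, Real.artanh_tanh] at h2
    exact h2.symm
  have hL : ∫⁻ t in Set.Ioi (0 : ℝ), ∫⁻ ξ : Circle,
      (if ‖((ξ • (At t • (0 : 𝔻)) : 𝔻) : ℂ)‖ ≤ Real.tanh (τ / 2) then
        F (tr z • (ξ • (At t • (0 : 𝔻)))) else 0) ∂lam =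
      ∫⁻ t in Set.Ioc (0 : ℝ) τ, ∫⁻ ξ : Circle, F (tr z • (ξ • (At t • (0 : 𝔻)))) ∂lam := by
    rw [← lintegral_indicator measurableSet_Ioi, ← lintegral_indicator measurableSet_Ioc]
    refine lintegral_congr fun t => ?_
    by_cases h0 : 0 < t
    · rw [Set.indicator_of_mem (show t ∈ Set.Ioi (0 : ℝ) from h0)]
      by_cases h2 : t ≤ τ
      · rw [Set.indicator_of_mem (show t ∈ Set.Ioc (0 : ℝ) τ from ⟨h0, h2⟩)]
        refine lintegral_congr fun ξ => ?_
        rw [if_pos]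
        rw [hnorm ξ t h0, hmono]
        linarith
      · rw [Set.indicator_of_notMem (fun h : t ∈ Set.Ioc (0 : ℝ) τ => h2 h.2)]
        rw [lintegral_congr (g := fun _ => 0), lintegral_zero]
        intro ξ
        rw [if_neg]
        rw [hnorm ξ t h0, hmono]
        intro h3
        exact h2 (by linarith)
    · rw [Set.indicator_of_notMem (fun h : t ∈ Set.Ioi (0 : ℝ) => h0 h),
        Set.indicator_of_notMem (fun h : t ∈ Set.Ioc (0 : ℝ) τ => h0 h.1)]
  have hpd : Measurable (fun w : 𝔻 => pd z w) :=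
    (continuous_pd.comp (continuous_const.prodMk continuous_id)).measurable
  have hkap : Measurable (kap τ) := by
    unfold kap
    refine Measurable.ite measurableSet_Iic ?_ measurable_const
    fun_prop
  have hK : Measurable (fun w : 𝔻 => kap τ (pd z w) * F w) := (hkap.comp hpd).mul hF
  have h2 := (measurePreserving_smul (tr z)).lintegral_comp hK
  rw [← hL, h1, ← h2]
  refine lintegral_congr fun w => ?_
  have h3 : pd z (tr z • w) = ‖(w : ℂ)‖ := by
    conv_lhs => rw [← tr_smul_zero z]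
    rw [tr_smul_zero z]
    have h4 := pd_smul (tr z) 0 w
    rw [tr_smul_zero, pd_zero_left] at h4
    exact h4
  rw [h3]
  unfold kap
  split_ifs
  · rw [mul_comm]
  · rw [zero_mul, zero_mul]

end

end Pool.Agent.Lib.MP_b16327_pr
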