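import Pool.Agent.Lib.MP_b16327_pr.XD

/-! # Mass transport and conservation of mass -/

namespace Pool.Agent.Lib.MP_b16327_pr

open Complex MeasureTheory ComplexConjugate Filter
open scoped Complex.UnitDisc Topology ENNReal

noncomputable section

private theorem XDm_meas (g : SU11) : Measurable (fun w : 𝔻 => g • w) :=
  (continuous_smul_disc g).measurable

/-- change of variables -/
private theorem XDm_smul (g : SU11) (F : 𝔻 → ℝ≥0∞) (hF : Measurable F) :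
    ∫⁻ w, F (g • w) ∂area = ∫⁻ w, F w ∂area :=
  (measurePreserving_smul g).lintegral_comp hF

/-- sums over the group and inverses -/
private theorem XDm_tsum_inv {Γ : Subgroup SU11} (u : SU11 → ℝ≥0∞) :
    ∑' γ : Γ, u ((γ : SU11)⁻¹) = ∑' γ : Γ, u (γ : SU11) := by
  have h1 := (Equiv.inv Γ).tsum_eq (fun γ : Γ => u (γ : SU11))
  rw [← h1]
  rfl

private theorem XDm_sum2 {ι : Type} [Countable ι] (G : ι → 𝔻 × 𝔻 → ℝ≥0∞)
    (hG : ∀ γ, Measurable (G γ)) :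
    ∫⁻ z, ∫⁻ w, ∑' γ, G γ (z, w) ∂area ∂area = ∑' γ, ∫⁻ z, ∫⁻ w, G γ (z, w) ∂area ∂area := by
  have h1 : ∀ z : 𝔻, ∫⁻ w, ∑' γ, G γ (z, w) ∂area = ∑' γ, ∫⁻ w, G γ (z, w) ∂area := by
    intro z
    exact lintegral_tsum fun γ =>
      ((hG γ).comp (measurable_const.prodMk measurable_id)).aemeasurable
  rw [lintegral_congr h1]
  exact lintegral_tsum fun γ => ((hG γ).lintegral_prod_right').aemeasurable

private theorem XDm_sum1 {ι : Type} [Countable ι] (G : ι → 𝔻 → ℝ≥0∞)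
    (hG : ∀ γ, Measurable (G γ)) :
    ∫⁻ w, ∑' γ, G γ w ∂area = ∑' γ, ∫⁻ w, G γ w ∂area :=
  lintegral_tsum fun γ => (hG γ).aemeasurable

/-- MASS TRANSPORT in `ℝ≥0∞`: `∫∫ χ(z) K(z,w) = ∑_γ ∫∫ χ(z) χ(γ w) K(z,w)
= ∑_γ ∫∫ χ(γ⁻¹ z) χ(w) K(z,w) = ∫∫ χ(w) K(z,w)` (Tonelli) -/
theorem mtpE {Γ : Subgroup SU11} [Countable Γ] (χ : 𝔻 → ℝ≥0∞) (hχ : Measurable χ)
    (hχ1 : ∀ z : 𝔻, ∑' γ : Γ, χ ((γ : SU11) • z) = 1) (K : 𝔻 → 𝔻 → ℝ≥0∞)
    (hK : Measurable (fun p : 𝔻 × 𝔻 => K p.1 p.2))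
    (hinv : ∀ γ ∈ Γ, ∀ z w : 𝔻, K (γ • z) (γ • w) = K z w) :
    ∫⁻ z, ∫⁻ w, χ z * K z w ∂area ∂area = ∫⁻ z, ∫⁻ w, χ w * K z w ∂area ∂area := by
  have hKz : ∀ z : 𝔻, Measurable (fun w : 𝔻 => K z w) := fun z =>
    hK.comp (measurable_const.prodMk measurable_id)
  have hχγ : ∀ g : SU11, Measurable (fun w : 𝔻 => χ (g • w)) := fun g => hχ.comp (XDm_meas g)
  have hm1 : ∀ γ : Γ, Measurable (fun p : 𝔻 × 𝔻 => χ p.1 * χ ((γ : SU11) • p.2) * K p.1 p.2) :=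
    fun γ => ((hχ.comp measurable_fst).mul ((hχγ γ).comp measurable_snd)).mul hK
  have hm2 : ∀ γ : Γ, Measurable
      (fun p : 𝔻 × 𝔻 => χ ((γ : SU11)⁻¹ • p.1) * χ p.2 * K p.1 p.2) :=
    fun γ => (((hχγ (γ : SU11)⁻¹).comp measurable_fst).mul (hχ.comp measurable_snd)).mul hK
  -- left side
  have hL : ∫⁻ z, ∫⁻ w, χ z * K z w ∂area ∂area =
      ∑' γ : Γ, ∫⁻ z, ∫⁻ w, χ z * χ ((γ : SU11) • w) * K z w ∂area ∂area := by
    have h0 := XDm_sum2 (fun (γ : Γ) (p : 𝔻 × 𝔻) => χ p.1 * χ ((γ : SU11) • p.2) * K p.1 p.2) hm1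
    rw [← h0]
    refine lintegral_congr fun z => lintegral_congr fun w => ?_
    have h1 : ∀ γ : Γ, χ z * χ ((γ : SU11) • w) * K z w =
        (χ z * K z w) * χ ((γ : SU11) • w) := fun γ => by ring
    simp only [h1]
    rw [ENNReal.tsum_mul_left, hχ1 w, mul_one]
  -- right side
  have hR : ∫⁻ z, ∫⁻ w, χ w * K z w ∂area ∂area =
      ∑' γ : Γ, ∫⁻ z, ∫⁻ w, χ ((γ : SU11)⁻¹ • z) * χ w * K z w ∂area ∂area := by
    have h0 := XDm_sum2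
      (fun (γ : Γ) (p : 𝔻 × 𝔻) => χ ((γ : SU11)⁻¹ • p.1) * χ p.2 * K p.1 p.2) hm2
    rw [← h0]
    refine lintegral_congr fun z => lintegral_congr fun w => ?_
    have h1 : ∀ γ : Γ, χ ((γ : SU11)⁻¹ • z) * χ w * K z w =
        (χ w * K z w) * χ ((γ : SU11)⁻¹ • z) := fun γ => by ring
    simp only [h1]
    rw [ENNReal.tsum_mul_left, XDm_tsum_inv (fun g => χ (g • z)), hχ1 z, mul_one]
  rw [hL, hR]
  refine tsum_congr fun γ => ?_
  -- substitute `w ↦ γ⁻¹ w`, then `z ↦ γ⁻¹ z`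
  have h1 : ∀ z : 𝔻, ∫⁻ w, χ z * χ ((γ : SU11) • w) * K z w ∂area =
      ∫⁻ w, χ z * χ w * K ((γ : SU11) • z) w ∂area := by
    intro z
    have h2 := XDm_smul (γ : SU11) (fun w => χ z * χ w * K ((γ : SU11) • z) w)
      ((measurable_const.mul hχ).mul (hKz _))
    rw [← h2]
    refine lintegral_congr fun w => ?_
    rw [hinv γ γ.2 z w]
  rw [lintegral_congr h1]
  have h3 := XDm_smul (γ : SU11) (fun z => ∫⁻ w, χ ((γ : SU11)⁻¹ • z) * χ w * K z w ∂area)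
    (hm2 γ).lintegral_prod_right'
  rw [← h3]
  refine lintegral_congr fun z => ?_
  rw [inv_smul_smul]

/-- UNFOLDING -/
theorem unfoldE {Γ : Subgroup SU11} [Countable Γ] (χ : 𝔻 → ℝ≥0∞) (hχ : Measurable χ)
    (hχ1 : ∀ z : 𝔻, ∑' γ : Γ, χ ((γ : SU11) • z) = 1) (F : 𝔻 → ℝ≥0∞) (hF : Measurable F) :
    ∫⁻ w, F w ∂area = ∫⁻ w, χ w * ∑' γ : Γ, F ((γ : SU11) • w) ∂area := by
  have hχγ : ∀ g : SU11, Measurable (fun w : 𝔻 => χ (g • w)) := fun g => hχ.comp (XDm_meas g)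
  have hFγ : ∀ g : SU11, Measurable (fun w : 𝔻 => F (g • w)) := fun g => hF.comp (XDm_meas g)
  have hL : ∫⁻ w, F w ∂area = ∑' γ : Γ, ∫⁻ w, χ ((γ : SU11) • w) * F w ∂area := by
    have h0 := XDm_sum1 (fun (γ : Γ) (w : 𝔻) => χ ((γ : SU11) • w) * F w)
      (fun γ => (hχγ (γ : SU11)).mul hF)
    rw [← h0]
    refine lintegral_congr fun w => ?_
    rw [ENNReal.tsum_mul_right, hχ1 w, one_mul]
  have hR : ∫⁻ w, χ w * ∑' γ : Γ, F ((γ : SU11) • w) ∂area =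
      ∑' γ : Γ, ∫⁻ w, χ w * F ((γ : SU11)⁻¹ • w) ∂area := by
    have h0 := XDm_sum1 (fun (γ : Γ) (w : 𝔻) => χ w * F ((γ : SU11)⁻¹ • w))
      (fun γ => hχ.mul (hFγ (γ : SU11)⁻¹))
    rw [← h0]
    refine lintegral_congr fun w => ?_
    rw [ENNReal.tsum_mul_left, XDm_tsum_inv (fun g => F (g • w))]
  rw [hL, hR]
  refine tsum_congr fun γ => ?_
  have h1 := XDm_smul (γ : SU11) (fun w => χ w * F ((γ : SU11)⁻¹ • w))
    (hχ.mul (hFγ (γ : SU11)⁻¹))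
  rw [← h1]
  refine lintegral_congr fun w => ?_
  rw [inv_smul_smul]

private theorem XDm_kap (τ : ℝ) : Measurable (kap τ) := by
  unfold kap
  refine Measurable.ite measurableSet_Iic ?_ measurable_const
  fun_prop

private theorem XDm_pd : Measurable (fun p : 𝔻 × 𝔻 => pd p.1 p.2) := by
  have h2 : Measurable (fun z : 𝔻 => (z : ℂ)) := measurableEmbedding_coe.measurable
  have h3 : Measurable (fun p : 𝔻 × 𝔻 => (p.1 : ℂ)) := h2.comp measurable_fst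
  have h4 : Measurable (fun p : 𝔻 × 𝔻 => (p.2 : ℂ)) := h2.comp measurable_snd
  have h5 : Measurable (fun p : 𝔻 × 𝔻 => conj (p.1 : ℂ)) :=
    Complex.continuous_conj.measurable.comp h3
  have h6 : Measurable (fun p : 𝔻 × 𝔻 =>
      ‖((p.1 : ℂ) - (p.2 : ℂ)) / (1 - conj (p.1 : ℂ) * (p.2 : ℂ))‖) :=
    ((h3.sub h4).div (measurable_const.sub (h5.mul h4))).norm
  exact h6

private theorem XDm_total {τ : ℝ} (hτ : 0 ≤ τ) (w : 𝔻) :
    ∫⁻ z, kap τ (pd w z) ∂area = ENNReal.ofReal τ := by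
  have h5 := ray_kernel hτ (fun _ => 1) measurable_const w
  simp only [mul_one] at h5
  rw [← h5]
  simp

private theorem XDm_K (k : ℝ → ℝ≥0∞) (hk : Measurable k) (F : 𝔻 → ℝ≥0∞) (hF : Measurable F) :
    Measurable (fun p : 𝔻 × 𝔻 => k (pd p.1 p.2) * F p.2) := by
  have h1 : Measurable (fun p : 𝔻 × 𝔻 => k (pd p.1 p.2)) := hk.comp XDm_pd
  have h2 : Measurable (fun p : 𝔻 × 𝔻 => F p.2) := hF.comp measurable_snd
  exact h1.mul h2

/-- conservation of mass for a radial kernel of total mass `c` -/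
private theorem XDm_gen {Γ : Subgroup SU11} [Countable Γ] (χ : 𝔻 → ℝ≥0∞) (hχ : Measurable χ)
    (hχ1 : ∀ z : 𝔻, ∑' γ : Γ, χ ((γ : SU11) • z) = 1) (F : 𝔻 → ℝ≥0∞) (hF : Measurable F)
    (hinv : ∀ γ ∈ Γ, ∀ z : 𝔻, F (γ • z) = F z) (k : ℝ → ℝ≥0∞) (hk : Measurable k) (c : ℝ≥0∞)
    (hc : ∀ w, ∫⁻ z, k (pd w z) ∂area = c) :
    ∫⁻ z, χ z * (∫⁻ w, k (pd z w) * F w ∂area) ∂area = c * ∫⁻ z, χ z * F z ∂area := by
  have hK := XDm_K k hk F hF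
  have hpz : ∀ z : 𝔻, Measurable (fun w : 𝔻 => pd z w) := fun z => XDm_pd.comp measurable_prodMk_left
  have hkz : ∀ z : 𝔻, Measurable (fun w : 𝔻 => k (pd z w)) := fun z => hk.comp (hpz z)
  have hKz : ∀ z : 𝔻, Measurable (fun w : 𝔻 => k (pd z w) * F w) := fun z => (hkz z).mul hF
  have h1 : ∫⁻ z, χ z * (∫⁻ w, k (pd z w) * F w ∂area) ∂area =
      ∫⁻ z, ∫⁻ w, χ z * (k (pd z w) * F w) ∂area ∂area := by
    refine lintegral_congr fun z => ?_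
    rw [lintegral_const_mul _ (hKz z)]
  have h2 := mtpE χ hχ hχ1 (fun z w => k (pd z w) * F w) hK (fun γ hγ z w => by
    rw [pd_smul, hinv γ hγ w])
  rw [h1, h2]
  -- Tonelli
  have h3 : AEMeasurable (Function.uncurry fun z w : 𝔻 => χ w * (k (pd z w) * F w))
      (area.prod area) :=
    ((hχ.comp measurable_snd).mul hK).aemeasurable
  rw [lintegral_lintegral_swap h3]
  have h7 : c * ∫⁻ z, χ z * F z ∂area = ∫⁻ z, c * (χ z * F z) ∂area :=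
    (lintegral_const_mul _ (hχ.mul hF)).symm
  rw [h7]
  refine lintegral_congr fun w => ?_
  have h4 : ∀ z : 𝔻, χ w * (k (pd z w) * F w) = (χ w * F w) * k (pd w z) := by
    intro z
    rw [pd_comm z w]
    ring
  rw [lintegral_congr h4, lintegral_const_mul _ (hkz w), hc w, mul_comm]

/-- CONSERVATION OF MASS (`ray_kernel`, `mtpE`, symmetry of `pd`, and `ray_kernel` for `F = 1`) -/
theorem mass_conservation {Γ : Subgroup SU11} [Countable Γ] (χ : 𝔻 → ℝ≥0∞) (hχ : Measurable χ)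
    (hχ1 : ∀ z : 𝔻, ∑' γ : Γ, χ ((γ : SU11) • z) = 1) (F : 𝔻 → ℝ≥0∞) (hF : Measurable F)
    (hinv : ∀ γ ∈ Γ, ∀ z : 𝔻, F (γ • z) = F z) {τ : ℝ} (hτ : 0 ≤ τ) :
    ∫⁻ z, χ z * (∫⁻ t in Set.Ioc (0 : ℝ) τ, ∫⁻ ξ : Circle,
        F (tr z • (ξ • (At t • (0 : 𝔻)))) ∂lam) ∂area =
      ENNReal.ofReal τ * ∫⁻ z, χ z * F z ∂area := by
  have h1 : ∀ z : 𝔻, χ z * (∫⁻ t in Set.Ioc (0 : ℝ) τ, ∫⁻ ξ : Circle,
        F (tr z • (ξ • (At t • (0 : 𝔻)))) ∂lam) =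
      χ z * ∫⁻ w, kap τ (pd z w) * F w ∂area := by
    intro z
    rw [ray_kernel hτ F hF z]
  rw [lintegral_congr h1]
  exact XDm_gen χ hχ hχ1 F hF hinv (kap τ) (XDm_kap τ) _ (XDm_total hτ)

end

end Pool.Agent.Lib.MP_b16327_pr
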