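import Pool.Agent.Lib.MP_b16327_pr.XB
import Pool.Agent.Lib.MP_b16327_pr.AreaB
import Pool.Agent.Lib.MP_b16327_pr.XA
import Pool.Agent.Lib.MP_b16327_pr.XD

/-! # Packing and masses -/

namespace Pool.Agent.Lib.MP_b16327_pr

open Complex MeasureTheory ComplexConjugate Filter
open scoped Complex.UnitDisc Topology ENNReal

noncomputable section

private theorem XE_Qd_zero (w : 𝔻) : 1 + Qd 0 w = 1 / (1 - ‖(w : ℂ)‖ ^ 2) := by
  have h1 := one_sub_pd_sq 0 w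
  rw [pd_zero_left] at h1
  have h2 := Qd_nonneg 0 w
  rw [h1, one_div_one_div]

private theorem XE_meas (T : ℝ) (z : 𝔻) : MeasurableSet {w : 𝔻 | 1 + Qd z w ≤ T} := by
  have hc : Measurable (fun w : 𝔻 => (w : ℂ)) := measurableEmbedding_coe.measurable
  have h1 : Measurable (fun w : 𝔻 => 1 + Qd z w) := by
    unfold Qd
    fun_prop
  exact h1 measurableSet_Iic

/-- translation of a ball to `0` -/
private theorem XE_translate (T : ℝ) (z : 𝔻) :
    area {w : 𝔻 | 1 + Qd z w ≤ T} = area {w : 𝔻 | 1 + Qd 0 w ≤ T} := by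
  have h1 := (measurePreserving_smul (tr z)).measure_preimage (XE_meas T z).nullMeasurableSet
  rw [← h1]
  congr 1
  ext w
  simp only [Set.mem_preimage, Set.mem_ofPred_eq]
  have h2 := Qd_smul (tr z) 0 w
  rw [tr_smul_zero] at h2
  rw [h2]

/-- the radial integral -/
private theorem XE_exp {a : ℝ} (ha : 0 ≤ a) :
    ∫⁻ t in Set.Ioc (0 : ℝ) a, ENNReal.ofReal (Real.pi / 4 * Real.exp t) ≤
      ENNReal.ofReal (Real.pi / 4 * Real.exp a) := by
  have hint : IntegrableOn (fun t : ℝ => Real.pi / 4 * Real.exp t) (Set.Ioc 0 a) := by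
    have h1 : Continuous (fun t : ℝ => Real.pi / 4 * Real.exp t) := by fun_prop
    exact (h1.integrableOn_Icc (a := 0) (b := a)).mono_set Set.Ioc_subset_Icc_self
  rw [← ofReal_integral_eq_lintegral_ofReal hint
    (Filter.Eventually.of_forall fun t => by
      have := Real.pi_pos
      have := Real.exp_pos t
      simp only [Pi.zero_apply]
      positivity)]
  apply ENNReal.ofReal_le_ofReal
  rw [← intervalIntegral.integral_of_le ha, intervalIntegral.integral_const_mul, integral_exp]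
  have h1 : Real.exp a - Real.exp 0 ≤ Real.exp a := by
    have := Real.exp_pos 0
    linarith
  have := Real.pi_pos
  exact mul_le_mul_of_nonneg_left h1 (by positivity)

/-- the area of a ball about `0` -/
private theorem XE_ball {T : ℝ} (hT : 1 ≤ T) :
    area {w : 𝔻 | 1 + Qd 0 w ≤ T} ≤ ENNReal.ofReal (Real.pi * T) := by
  classical
  set S : Set 𝔻 := {w : 𝔻 | 1 + Qd 0 w ≤ T} with hS
  have hSm : MeasurableSet S := XE_meas T 0
  have hcn : Measurable (fun w : 𝔻 => ‖(w : ℂ)‖) :=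
    (continuous_norm.comp UnitDisc.continuous_coe).measurable
  have hF : Measurable (fun w : 𝔻 => S.indicator (fun w : 𝔻 =>
      ENNReal.ofReal (Real.pi * ‖(w : ℂ)‖ / (1 - ‖(w : ℂ)‖ ^ 2))) w) :=
    Measurable.indicator (by fun_prop) hSm
  have h1 := lintegral_polar _ hF
  -- right side
  have h2 : area S = ∫⁻ w : 𝔻, S.indicator (fun w : 𝔻 =>
      ENNReal.ofReal (Real.pi * ‖(w : ℂ)‖ / (1 - ‖(w : ℂ)‖ ^ 2))) w *
        ENNReal.ofReal ((1 - ‖(w : ℂ)‖ ^ 2) / (Real.pi * ‖(w : ℂ)‖)) ∂area := by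
    rw [← lintegral_indicator_one hSm]
    have h3 : ∀ᵐ w : 𝔻 ∂area, ‖(w : ℂ)‖ ≠ 0 := by
      rw [ae_iff]
      simpa using area_circle 0
    refine lintegral_congr_ae ?_
    filter_upwards [h3] with w hw
    by_cases hwS : w ∈ S
    · rw [Set.indicator_of_mem hwS, Set.indicator_of_mem hwS, Pi.one_apply]
      have h4 := UnitDisc.sq_norm_lt_one w
      have h5 : (0 : ℝ) < 1 - ‖(w : ℂ)‖ ^ 2 := by linarith
      have h6 : 0 < ‖(w : ℂ)‖ := lt_of_le_of_ne (norm_nonneg _) hw.symm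
      have h7 := Real.pi_pos
      rw [← ENNReal.ofReal_mul (by positivity)]
      have h8 : Real.pi * ‖(w : ℂ)‖ / (1 - ‖(w : ℂ)‖ ^ 2) *
          ((1 - ‖(w : ℂ)‖ ^ 2) / (Real.pi * ‖(w : ℂ)‖)) = 1 := by
        field_simp
      rw [h8, ENNReal.ofReal_one]
    · rw [Set.indicator_of_notMem hwS, Set.indicator_of_notMem hwS, zero_mul]
  rw [h2, ← h1]
  -- left side
  have hlog : 0 ≤ Real.log (4 * T) := Real.log_nonneg (by linarith)
  have h9 : ∀ t : ℝ, 0 < t → ∫⁻ ξ : Circle, S.indicator (fun w : 𝔻 =>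
      ENNReal.ofReal (Real.pi * ‖(w : ℂ)‖ / (1 - ‖(w : ℂ)‖ ^ 2))) (ξ • (At t • (0 : 𝔻))) ∂lam ≤
      (Set.Ioc (0 : ℝ) (Real.log (4 * T))).indicator
        (fun t => ENNReal.ofReal (Real.pi / 4 * Real.exp t)) t := by
    intro t ht
    have hnorm : ∀ ξ : Circle, ‖((ξ • (At t • (0 : 𝔻)) : 𝔻) : ℂ)‖ = Real.tanh (t / 2) := by
      intro ξ
      rw [UnitDisc.coe_circle_smul, At_smul_zero, norm_mul, Circle.norm_coe, one_mul,
        Complex.norm_real, Real.norm_eq_abs, abs_of_nonneg]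
      rw [Real.tanh_eq_sinh_div_cosh]
      exact div_nonneg (Real.sinh_nonneg_iff.2 (by linarith)) (Real.cosh_pos _).le
    have hcosh : 0 < Real.cosh (t / 2) := Real.cosh_pos _
    have hid : 1 - Real.tanh (t / 2) ^ 2 = 1 / Real.cosh (t / 2) ^ 2 := by
      rw [Real.tanh_eq_sinh_div_cosh, div_pow, eq_div_iff (by positivity), sub_mul,
        div_mul_cancel₀ _ (by positivity)]
      have := Real.cosh_sq (t / 2)
      linarith
    have hval : ∀ ξ : Circle, S.indicator (fun w : 𝔻 =>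
        ENNReal.ofReal (Real.pi * ‖(w : ℂ)‖ / (1 - ‖(w : ℂ)‖ ^ 2))) (ξ • (At t • (0 : 𝔻))) ≤
        (Set.Ioc (0 : ℝ) (Real.log (4 * T))).indicator
          (fun t => ENNReal.ofReal (Real.pi / 4 * Real.exp t)) t := by
      intro ξ
      by_cases hξ : (ξ • (At t • (0 : 𝔻))) ∈ S
      · have h10 : 1 + Qd 0 (ξ • (At t • (0 : 𝔻))) ≤ T := hξ
        rw [XE_Qd_zero, hnorm ξ, hid, one_div_one_div] at h10
        have h11 : Real.exp (t / 2) / 2 ≤ Real.cosh (t / 2) := by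
          rw [Real.cosh_eq]
          have := Real.exp_pos (-(t / 2))
          linarith
        have h12 : Real.exp t / 4 ≤ Real.cosh (t / 2) ^ 2 := by
          have h13 : Real.exp t = Real.exp (t / 2) * Real.exp (t / 2) := by
            rw [← Real.exp_add]
            congr 1
            ring
          rw [h13]
          have := Real.exp_pos (t / 2)
          nlinarith
        have h14 : t ≤ Real.log (4 * T) := by
          rw [Real.le_log_iff_exp_le (by linarith)]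
          linarith
        rw [Set.indicator_of_mem hξ, Set.indicator_of_mem (show t ∈ Set.Ioc (0 : ℝ) _ from ⟨ht, h14⟩),
          hnorm ξ, hid]
        apply ENNReal.ofReal_le_ofReal
        rw [Real.tanh_eq_sinh_div_cosh]
        have h15 : Real.pi * (Real.sinh (t / 2) / Real.cosh (t / 2)) / (1 / Real.cosh (t / 2) ^ 2) =
            Real.pi * (Real.sinh (t / 2) * Real.cosh (t / 2)) := by
          field_simp
        rw [h15]
        have h16 : Real.sinh (t / 2) * Real.cosh (t / 2) = Real.sinh t / 2 := by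
          have := Real.sinh_two_mul (t / 2)
          have h17 : 2 * (t / 2) = t := by ring
          rw [h17] at this
          linarith
        rw [h16, Real.sinh_eq]
        have := Real.exp_pos (-t)
        have := Real.pi_pos
        nlinarith
      · rw [Set.indicator_of_notMem hξ]
        exact bot_le
    calc ∫⁻ ξ : Circle, S.indicator (fun w : 𝔻 =>
        ENNReal.ofReal (Real.pi * ‖(w : ℂ)‖ / (1 - ‖(w : ℂ)‖ ^ 2))) (ξ • (At t • (0 : 𝔻))) ∂lam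
        ≤ ∫⁻ _ξ : Circle, (Set.Ioc (0 : ℝ) (Real.log (4 * T))).indicator
          (fun t => ENNReal.ofReal (Real.pi / 4 * Real.exp t)) t ∂lam :=
          lintegral_mono hval
      _ = _ := by
          rw [lintegral_const, measure_univ, mul_one]
  calc ∫⁻ t in Set.Ioi (0 : ℝ), ∫⁻ ξ : Circle, S.indicator (fun w : 𝔻 =>
      ENNReal.ofReal (Real.pi * ‖(w : ℂ)‖ / (1 - ‖(w : ℂ)‖ ^ 2))) (ξ • (At t • (0 : 𝔻))) ∂lam
      ≤ ∫⁻ t in Set.Ioi (0 : ℝ), (Set.Ioc (0 : ℝ) (Real.log (4 * T))).indicator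
        (fun t => ENNReal.ofReal (Real.pi / 4 * Real.exp t)) t :=
        setLIntegral_mono' measurableSet_Ioi fun t ht => h9 t ht
    _ ≤ ∫⁻ t, (Set.Ioc (0 : ℝ) (Real.log (4 * T))).indicator
        (fun t => ENNReal.ofReal (Real.pi / 4 * Real.exp t)) t := setLIntegral_le_lintegral _ _
    _ = ∫⁻ t in Set.Ioc (0 : ℝ) (Real.log (4 * T)), ENNReal.ofReal (Real.pi / 4 * Real.exp t) :=
        lintegral_indicator measurableSet_Ioc _
    _ ≤ ENNReal.ofReal (Real.pi / 4 * Real.exp (Real.log (4 * T))) := XE_exp hlog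
    _ = ENNReal.ofReal (Real.pi * T) := by
        rw [Real.exp_log (by linarith)]
        congr 1
        ring

/-- `area (ballD r) = π r^2 / (1 - r^2)`, only an upper bound is needed; translate to `0` -/
theorem area_Qd_le : ∃ C : ℝ, 0 < C ∧ ∀ (z : 𝔻) (T : ℝ), 1 ≤ T →
    area {w : 𝔻 | 1 + Qd z w ≤ T} ≤ ENNReal.ofReal (C * T) := by
  refine ⟨Real.pi, Real.pi_pos, fun z T hT => ?_⟩
  rw [XE_translate]
  exact XE_ball hT

private theorem XE_norm {w : 𝔻} (h : 1 + Qd 0 w ≤ 2) : ‖(w : ℂ)‖ ≤ 3 / 4 := by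
  rw [XE_Qd_zero] at h
  have h1 := UnitDisc.sq_norm_lt_one w
  have h2 : (0 : ℝ) < 1 - ‖(w : ℂ)‖ ^ 2 := by linarith
  rw [div_le_iff₀ h2] at h
  nlinarith [norm_nonneg (w : ℂ)]

/-- the unit ball has positive area -/
private theorem XE_V_pos : 0 < area {w : 𝔻 | 1 + Qd 0 w ≤ 2} := by
  refine (area_ballD_pos (R := 1 / 2) (by norm_num)).trans_le (measure_mono ?_)
  intro w hw
  have h1 : ‖(w : ℂ)‖ < 1 / 2 := hw
  change 1 + Qd 0 w ≤ 2
  rw [XE_Qd_zero]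
  have h2 := norm_nonneg (w : ℂ)
  have h3 : (0 : ℝ) < 1 - ‖(w : ℂ)‖ ^ 2 := by nlinarith
  rw [div_le_iff₀ h3]
  nlinarith

/-- finite version of the packing bound -/
private theorem XE_pack {Γ : Subgroup SU11} (hd : IsDisc Γ) (z : 𝔻) {T : ℝ} (hT : 1 ≤ T)
    (A : Finset Γ) (hA : ∀ γ ∈ A, 1 + Qd z ((γ : SU11) • (0 : 𝔻)) ≤ T) :
    (A.card : ℝ≥0∞) * area {w : 𝔻 | 1 + Qd 0 w ≤ 2} ≤
      ({γ : Γ | ∃ z : 𝔻, ‖(z : ℂ)‖ ≤ 3 / 4 ∧ ‖(((γ : SU11) • z : 𝔻) : ℂ)‖ ≤ 3 / 4}.ncard : ℝ≥0∞) *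
        area {w : 𝔻 | 1 + Qd z w ≤ 8 * T} := by
  classical
  have hfin := finite_meet hd (r := 3 / 4) (by norm_num)
  set M : Set Γ := {γ : Γ | ∃ z : 𝔻, ‖(z : ℂ)‖ ≤ 3 / 4 ∧ ‖(((γ : SU11) • z : 𝔻) : ℂ)‖ ≤ 3 / 4} with hM
  -- the sets `γ V`
  set U : Γ → Set 𝔻 := fun γ => {w : 𝔻 | 1 + Qd ((γ : SU11) • (0 : 𝔻)) w ≤ 2} with hU
  have hUm : ∀ γ, MeasurableSet (U γ) := fun γ => XE_meas 2 _
  have hUa : ∀ γ, area (U γ) = area {w : 𝔻 | 1 + Qd 0 w ≤ 2} := fun γ => XE_translate 2 _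
  have hBm : MeasurableSet {w : 𝔻 | 1 + Qd z w ≤ 8 * T} := XE_meas _ z
  have hpt : ∀ w : 𝔻, ∑ γ ∈ A, (U γ).indicator (1 : 𝔻 → ℝ≥0∞) w ≤
      ({w : 𝔻 | 1 + Qd z w ≤ 8 * T}).indicator (fun _ => (M.ncard : ℝ≥0∞)) w := by
    intro w
    have h1 : ∑ γ ∈ A, (U γ).indicator (1 : 𝔻 → ℝ≥0∞) w =
        ((A.filter (fun γ => w ∈ U γ)).card : ℝ≥0∞) := by
      rw [Finset.card_filter]
      push_cast
      refine Finset.sum_congr rfl fun γ _ => ?_
      rw [Set.indicator_apply, Pi.one_apply]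
    rw [h1]
    rcases Finset.eq_empty_or_nonempty (A.filter (fun γ => w ∈ U γ)) with h2 | ⟨γ₁, h2⟩
    · rw [h2, Finset.card_empty, Nat.cast_zero]
      exact bot_le
    · rw [Finset.mem_filter] at h2
      have h3 : w ∈ {w : 𝔻 | 1 + Qd z w ≤ 8 * T} := by
        have h4 := Qd_triangle z ((γ₁ : SU11) • (0 : 𝔻)) w
        have h5 := hA γ₁ h2.1
        have h6 : 1 + Qd ((γ₁ : SU11) • (0 : 𝔻)) w ≤ 2 := h2.2
        have h7 := Qd_nonneg z ((γ₁ : SU11) • (0 : 𝔻))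
        have h8 := Qd_nonneg ((γ₁ : SU11) • (0 : 𝔻)) w
        change 1 + Qd z w ≤ 8 * T
        have h9 : (1 + Qd z ((γ₁ : SU11) • (0 : 𝔻))) * (1 + Qd ((γ₁ : SU11) • (0 : 𝔻)) w) ≤
            T * 2 := mul_le_mul h5 h6 (by linarith) (by linarith)
        linarith
      rw [Set.indicator_of_mem h3]
      have h10 : (A.filter (fun γ => w ∈ U γ)).card ≤ M.ncard := by
        rw [← Set.ncard_coe_finset]
        refine Set.ncard_le_ncard_of_injOn (fun γ : Γ => γ⁻¹ * γ₁) ?_ ?_ hfin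
        · intro γ hγ
          rw [Finset.mem_coe, Finset.mem_filter] at hγ
          have key : ∀ δ : Γ, w ∈ U δ → ‖((((δ : SU11)⁻¹) • w : 𝔻) : ℂ)‖ ≤ 3 / 4 := by
            intro δ hδ
            apply XE_norm
            have h11 : 1 + Qd ((δ : SU11) • (0 : 𝔻)) w ≤ 2 := hδ
            have h12 := Qd_smul (δ : SU11) 0 ((δ : SU11)⁻¹ • w)
            rw [smul_inv_smul] at h12
            rw [← h12]
            exact h11
          refine ⟨(γ₁ : SU11)⁻¹ • w, key γ₁ h2.2, ?_⟩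
          have h13 : (((γ⁻¹ * γ₁ : Γ) : SU11) • ((γ₁ : SU11)⁻¹ • w)) = (γ : SU11)⁻¹ • w := by
            rw [Subgroup.coe_mul, Subgroup.coe_inv, mul_smul, smul_inv_smul]
          rw [h13]
          exact key γ hγ.2
        · intro a _ b _ hab
          simpa using hab
      exact_mod_cast h10
  calc (A.card : ℝ≥0∞) * area {w : 𝔻 | 1 + Qd 0 w ≤ 2}
      = ∑ γ ∈ A, area (U γ) := by
        rw [Finset.sum_congr rfl fun γ _ => hUa γ, Finset.sum_const, nsmul_eq_mul]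
    _ = ∑ γ ∈ A, ∫⁻ w, (U γ).indicator (1 : 𝔻 → ℝ≥0∞) w ∂area := by
        refine Finset.sum_congr rfl fun γ _ => ?_
        rw [lintegral_indicator_one (hUm γ)]
    _ = ∫⁻ w, ∑ γ ∈ A, (U γ).indicator (1 : 𝔻 → ℝ≥0∞) w ∂area := by
        rw [lintegral_finsetSum' A fun γ _ => (measurable_one.indicator (hUm γ)).aemeasurable]
    _ ≤ ∫⁻ w, ({w : 𝔻 | 1 + Qd z w ≤ 8 * T}).indicator (fun _ => (M.ncard : ℝ≥0∞)) w ∂area :=
        lintegral_mono hpt
    _ = (M.ncard : ℝ≥0∞) * area {w : 𝔻 | 1 + Qd z w ≤ 8 * T} := by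
        rw [lintegral_indicator_const hBm]

/-- PACKING.  Let `V = {w : 1 + Qd 0 w ≤ 2}` and `N₀` the number of `γ` with `γ V ∩ V ≠ ∅`
(`finite_meet`).  The sets `γ V` with `1 + Qd z (γ 0) ≤ T` are contained in
`{w : 1 + Qd z w ≤ 8 T}` and cover each point at most `N₀` times. -/
theorem packing {Γ : Subgroup SU11} (hd : IsDisc Γ) : ∃ C : ℝ, 0 < C ∧ ∀ (z : 𝔻) (T : ℝ), 1 ≤ T →
    {γ : Γ | 1 + Qd z ((γ : SU11) • (0 : 𝔻)) ≤ T}.Finite ∧
      ({γ : Γ | 1 + Qd z ((γ : SU11) • (0 : 𝔻)) ≤ T}.ncard : ℝ) ≤ C * T := by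
  classical
  obtain ⟨C, hC, hCb⟩ := area_Qd_le
  set N : ℕ := {γ : Γ | ∃ z : 𝔻, ‖(z : ℂ)‖ ≤ 3 / 4 ∧ ‖(((γ : SU11) • z : 𝔻) : ℂ)‖ ≤ 3 / 4}.ncard
    with hN
  set v : ℝ := (area {w : 𝔻 | 1 + Qd 0 w ≤ 2}).toReal with hv
  have hvtop : area {w : 𝔻 | 1 + Qd 0 w ≤ 2} ≠ ⊤ :=
    ((hCb 0 2 (by norm_num)).trans_lt ENNReal.ofReal_lt_top).ne
  have hv0 : 0 < v := ENNReal.toReal_pos XE_V_pos.ne' hvtop
  have hvof : area {w : 𝔻 | 1 + Qd 0 w ≤ 2} = ENNReal.ofReal v := (ENNReal.ofReal_toReal hvtop).symm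
  have key : ∀ (z : 𝔻) (T : ℝ), 1 ≤ T → ∀ A : Finset Γ,
      (∀ γ ∈ A, 1 + Qd z ((γ : SU11) • (0 : 𝔻)) ≤ T) →
      (A.card : ℝ) ≤ (8 * N * C / v + 1) * T := by
    intro z T hT A hA
    have h1 := XE_pack hd z hT A hA
    have h2 : (A.card : ℝ≥0∞) * ENNReal.ofReal v ≤ (N : ℝ≥0∞) * ENNReal.ofReal (C * (8 * T)) := by
      rw [← hvof]
      refine h1.trans ?_
      gcongr
      exact hCb z (8 * T) (by linarith)
    rw [← ENNReal.ofReal_natCast, ← ENNReal.ofReal_natCast, ← ENNReal.ofReal_mul (Nat.cast_nonneg _),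
      ← ENNReal.ofReal_mul (Nat.cast_nonneg _), ENNReal.ofReal_le_ofReal_iff (by positivity)] at h2
    have h3 : (A.card : ℝ) ≤ N * (C * (8 * T)) / v := by
      rw [le_div_iff₀ hv0]
      exact h2
    have h4 : (8 * N * C / v + 1) * T = N * (C * (8 * T)) / v + T := by
      field_simp
    rw [h4]
    linarith
  refine ⟨8 * N * C / v + 1, by positivity, fun z T hT => ?_⟩
  have hfin : {γ : Γ | 1 + Qd z ((γ : SU11) • (0 : 𝔻)) ≤ T}.Finite := by
    by_contra hinf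
    obtain ⟨n, hn⟩ := exists_nat_gt ((8 * N * C / v + 1) * T)
    obtain ⟨A, hA, hAc⟩ := Set.Infinite.exists_subset_card_eq hinf n
    have h1 := key z T hT A (fun γ hγ => hA hγ)
    rw [hAc] at h1
    linarith
  refine ⟨hfin, ?_⟩
  rw [Set.ncard_eq_toFinset_card _ hfin]
  exact key z T hT _ fun γ hγ => by
    rw [Set.Finite.mem_toFinset] at hγ
    exact hγ

/-- if `1 + Qd z (γ w) ≤ 2` for some `γ` then `hG w ≤ 8 hG z`; with `γ₁` from `exists_hG` for `w`,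
`1 + Qd z (γ γ₁ 0) ≤ 4 * 2 * 16 hG z`; so the number of such `γ` is at most the number of `γ'`
with `1 + Qd z (γ' 0) ≤ 128 hG z`: `packing` -/
theorem count_le {Γ : Subgroup SU11} (hd : IsDisc Γ) : ∃ C : ℝ, 0 < C ∧ ∀ z w : 𝔻,
    {γ : Γ | 1 + Qd z ((γ : SU11) • w) ≤ 2}.Finite ∧
      ({γ : Γ | 1 + Qd z ((γ : SU11) • w) ≤ 2}.ncard : ℝ) ≤ C * hG Γ z := by
  obtain ⟨C, hC, hCb⟩ := packing hd
  refine ⟨C * 128, by positivity, fun z w => ?_⟩
  have hz1 := one_le_hG Γ z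
  rcases Set.eq_empty_or_nonempty {γ : Γ | 1 + Qd z ((γ : SU11) • w) ≤ 2} with hemp | ⟨γ₀, hγ₀⟩
  · rw [hemp]
    refine ⟨Set.finite_empty, ?_⟩
    rw [Set.ncard_empty, Nat.cast_zero]
    positivity
  · have h0 : 1 + Qd z ((γ₀ : SU11) • w) ≤ 2 := hγ₀
    have hw : hG Γ w ≤ 8 * hG Γ z := by
      have h1 := hG_lip Γ ((γ₀ : SU11) • w) z
      rw [hG_smul γ₀.2, Qd_comm] at h1
      refine h1.trans ?_
      have h2 : 4 * (1 + Qd z ((γ₀ : SU11) • w)) ≤ 8 := by linarith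
      exact mul_le_mul_of_nonneg_right h2 (by linarith)
    obtain ⟨γ₁, hγ₁, h1⟩ := exists_hG Γ w
    have hmap : ∀ γ : Γ, 1 + Qd z ((γ : SU11) • w) ≤ 2 →
        1 + Qd z (((γ * ⟨γ₁, hγ₁⟩ : Γ) : SU11) • (0 : 𝔻)) ≤ 128 * hG Γ z := by
      intro γ hγ
      rw [Subgroup.coe_mul, mul_smul]
      have h2 := Qd_triangle z ((γ : SU11) • w) ((γ : SU11) • (γ₁ • (0 : 𝔻)))
      rw [Qd_smul] at h2
      have h3 := Qd_nonneg w (γ₁ • (0 : 𝔻))
      have h4 : (1 + Qd z ((γ : SU11) • w)) * (1 + Qd w (γ₁ • (0 : 𝔻))) ≤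
          2 * (16 * hG Γ z) := by
        refine mul_le_mul hγ ?_ (by linarith) (by norm_num)
        linarith
      change 1 + Qd z ((γ : SU11) • (γ₁ • (0 : 𝔻))) ≤ 128 * hG Γ z
      linarith
    obtain ⟨hfin, hcard⟩ := hCb z (128 * hG Γ z) (by linarith)
    have hinj : Set.InjOn (fun γ : Γ => γ * ⟨γ₁, hγ₁⟩) {γ : Γ | 1 + Qd z ((γ : SU11) • w) ≤ 2} :=
      fun a _ b _ hab => mul_right_cancel hab
    have hmaps : Set.MapsTo (fun γ : Γ => γ * ⟨γ₁, hγ₁⟩) {γ : Γ | 1 + Qd z ((γ : SU11) • w) ≤ 2}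
        {γ : Γ | 1 + Qd z ((γ : SU11) • (0 : 𝔻)) ≤ 128 * hG Γ z} := fun γ hγ => hmap γ hγ
    refine ⟨Set.Finite.of_injOn hmaps hinj hfin, ?_⟩
    have h5 := Set.ncard_le_ncard_of_injOn _ hmaps hinj hfin
    have h6 : ({γ : Γ | 1 + Qd z ((γ : SU11) • w) ≤ 2}.ncard : ℝ) ≤
        ({γ : Γ | 1 + Qd z ((γ : SU11) • (0 : 𝔻)) ≤ 128 * hG Γ z}.ncard : ℝ) := by
      exact_mod_cast h5
    calc ({γ : Γ | 1 + Qd z ((γ : SU11) • w) ≤ 2}.ncard : ℝ)
        ≤ C * (128 * hG Γ z) := h6.trans hcard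
      _ = C * 128 * hG Γ z := by ring

end

end Pool.Agent.Lib.MP_b16327_pr
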