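import Pool.Agent.Lib.MP_b16327_pr.XE
import Pool.Agent.Lib.MP_b16327_pr.XDm

/-! # Fundamental weight, lower and upper bounds of masses -/

namespace Pool.Agent.Lib.MP_b16327_pr

open Complex MeasureTheory ComplexConjugate Filter
open scoped Complex.UnitDisc Topology ENNReal

noncomputable section

private theorem XEc_meas_Qd (z : 𝔻) : Measurable (fun w : 𝔻 => 1 + Qd z w) := by
  have hc : Measurable (fun w : 𝔻 => (w : ℂ)) := measurableEmbedding_coe.measurable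
  unfold Qd
  fun_prop

private theorem XEc_smul_meas (g : SU11) : Measurable (fun w : 𝔻 => g • w) :=
  (continuous_smul_disc g).measurable

/-- a sum of indicators is a cardinality -/
private theorem XEc_tsum {ι : Type} (s : Set ι) (hs : s.Finite) :
    ∑' γ : ι, s.indicator (1 : ι → ℝ≥0∞) γ = (s.ncard : ℝ≥0∞) := by
  classical
  rw [← tsum_subtype s (1 : ι → ℝ≥0∞)]
  have := hs.fintype
  rw [tsum_fintype]
  simp only [Pi.one_apply, Finset.sum_const, Finset.card_univ, nsmul_eq_mul, mul_one]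
  rw [Set.ncard_eq_toFinset_card' s, Set.toFinset_card]

/-- a measurable fundamental weight, e.g. `χ = ρ / ∑_γ ρ ∘ γ` with `ρ = ∑_k 2^{-k} 1_{V_k} / C_k`,
`V_k = {1 + Qd 0 z ≤ k}`, `C_k` a bound for the number of `γ` with `γ z ∈ V_k` (`packing`), or
`ρ(z) = (1 - |z|^2)^2` (Poincare series) -/
theorem exists_chi {Γ : Subgroup SU11} (hd : IsDisc Γ) : ∃ χ : 𝔻 → ℝ≥0∞, Measurable χ ∧
    (∀ z, χ z ≠ ⊤) ∧ ∀ z : 𝔻, ∑' γ : Γ, χ ((γ : SU11) • z) = 1 := by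
  classical
  have hcount : Countable Γ := countable_of_disc hd
  obtain ⟨C, hC, hCb⟩ := packing hd
  -- the points for which `0` is a nearly nearest point of the orbit
  set D : Set 𝔻 := {z : 𝔻 | 1 + Qd 0 z ≤ 2 * hG Γ z} with hD
  have hDm : MeasurableSet D :=
    measurableSet_le (XEc_meas_Qd 0) ((measurable_hG Γ).const_mul 2)
  set ρ : 𝔻 → ℝ≥0∞ := D.indicator 1 with hρ
  have hρm : Measurable ρ := measurable_one.indicator hDm
  set Nf : 𝔻 → ℝ≥0∞ := fun z => ∑' γ : Γ, ρ ((γ : SU11) • z) with hNf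
  have hNm : Measurable Nf := Measurable.tsum fun γ => hρm.comp (XEc_smul_meas _)
  -- the set of `γ` with `γ z ∈ D`
  have hset : ∀ z : 𝔻, ∀ γ : Γ, (γ : SU11) • z ∈ D ↔
      1 + Qd z (((γ⁻¹ : Γ) : SU11) • (0 : 𝔻)) ≤ 2 * hG Γ z := by
    intro z γ
    change 1 + Qd 0 ((γ : SU11) • z) ≤ 2 * hG Γ ((γ : SU11) • z) ↔ _
    rw [hG_smul γ.2, Subgroup.coe_inv]
    have h1 := Qd_smul (γ : SU11) ((γ : SU11)⁻¹ • (0 : 𝔻)) z
    rw [smul_inv_smul] at h1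
    rw [h1, Qd_comm]
  have hfin : ∀ z : 𝔻, {γ : Γ | (γ : SU11) • z ∈ D}.Finite := by
    intro z
    have h1 := (hCb z (2 * hG Γ z) (by have := one_le_hG Γ z; linarith)).1
    refine Set.Finite.of_injOn (f := fun γ : Γ => γ⁻¹) (fun γ hγ => ?_)
      (fun a _ b _ hab => inv_injective hab) h1
    exact (hset z γ).1 hγ
  have hNval : ∀ z : 𝔻, Nf z = ({γ : Γ | (γ : SU11) • z ∈ D}.ncard : ℝ≥0∞) := by
    intro z
    rw [← XEc_tsum _ (hfin z)]
    refine tsum_congr fun γ => ?_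
    rw [hρ, Set.indicator_apply, Set.indicator_apply, Pi.one_apply, Pi.one_apply]
    rfl
  have hNtop : ∀ z, Nf z ≠ ⊤ := by
    intro z
    rw [hNval]
    exact ENNReal.natCast_ne_top _
  have hN1 : ∀ z, 1 ≤ Nf z := by
    intro z
    rw [hNval]
    have h1 : {γ : Γ | (γ : SU11) • z ∈ D}.Nonempty := by
      obtain ⟨γ, hγ, h2⟩ := exists_hG Γ z
      refine ⟨(⟨γ, hγ⟩ : Γ)⁻¹, ?_⟩
      change (((⟨γ, hγ⟩ : Γ)⁻¹ : Γ) : SU11) • z ∈ D
      rw [hset z, inv_inv]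
      exact h2
    have h3 : 0 < {γ : Γ | (γ : SU11) • z ∈ D}.ncard := (Set.ncard_pos (hfin z)).2 h1
    exact_mod_cast h3
  have hN0 : ∀ z, Nf z ≠ 0 := fun z => (lt_of_lt_of_le zero_lt_one (hN1 z)).ne'
  have hNinv : ∀ (γ : Γ) (z : 𝔻), Nf ((γ : SU11) • z) = Nf z := by
    intro γ z
    have h1 := (Equiv.mulRight γ).tsum_eq (fun δ : Γ => ρ ((δ : SU11) • z))
    rw [hNf]
    simp only
    rw [← h1]
    refine tsum_congr fun δ => ?_
    rw [Equiv.coe_mulRight, Subgroup.coe_mul, mul_smul]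
  refine ⟨fun z => ρ z / Nf z, hρm.div hNm, fun z => ?_, fun z => ?_⟩
  · refine (ENNReal.div_lt_top ?_ (hN0 z)).ne
    rw [hρ, Set.indicator_apply]
    split_ifs
    · exact ENNReal.one_ne_top
    · exact ENNReal.zero_ne_top
  · have h1 : ∀ γ : Γ, ρ ((γ : SU11) • z) / Nf ((γ : SU11) • z) =
        ρ ((γ : SU11) • z) * (Nf z)⁻¹ := by
      intro γ
      rw [hNinv γ z, div_eq_mul_inv]
    simp only [h1]
    rw [ENNReal.tsum_mul_right]
    exact ENNReal.mul_inv_cancel (hN0 z) (hNtop z)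

private theorem XEc_translate (T : ℝ) (z : 𝔻) :
    area {w : 𝔻 | 1 + Qd z w ≤ T} = area {w : 𝔻 | 1 + Qd 0 w ≤ T} := by
  have hm : MeasurableSet {w : 𝔻 | 1 + Qd z w ≤ T} := (XEc_meas_Qd z) measurableSet_Iic
  have h1 := (measurePreserving_smul (tr z)).measure_preimage hm.nullMeasurableSet
  rw [← h1]
  congr 1
  ext w
  simp only [Set.mem_preimage, Set.mem_ofPred_eq]
  have h2 := Qd_smul (tr z) 0 w
  rw [tr_smul_zero] at h2
  rw [h2]

private theorem XEc_V_pos : 0 < area {w : 𝔻 | 1 + Qd 0 w ≤ 2} := by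
  refine (area_ballD_pos (R := 1 / 2) (by norm_num)).trans_le (measure_mono ?_)
  intro w hw
  have h1 : ‖(w : ℂ)‖ < 1 / 2 := hw
  change 1 + Qd 0 w ≤ 2
  have h5 := one_sub_pd_sq 0 w
  rw [pd_zero_left] at h5
  have h6 := Qd_nonneg 0 w
  have h7 : 1 + Qd 0 w = 1 / (1 - ‖(w : ℂ)‖ ^ 2) := by rw [h5, one_div_one_div]
  have h2 := norm_nonneg (w : ℂ)
  have h3 : (0 : ℝ) < 1 - ‖(w : ℂ)‖ ^ 2 := by nlinarith
  rw [h7, div_le_iff₀ h3]
  nlinarith

/-- LOWER BOUND.  `U = {w : 1 + Qd z w ≤ 2}`, of area `≥ c₀` independent of `z`.  On `Γ U`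
`hG ≥ hG(z) / 8`.  `unfoldE` for `1_U`: `area U = ∫ χ(w) #{γ : γ w ∈ U} ≤ C hG(z) ∫ χ 1_{ΓU}`. -/
theorem lower_mass {Γ : Subgroup SU11} (hd : IsDisc Γ) (χ : 𝔻 → ℝ≥0∞) (hχ : Measurable χ)
    (hχ1 : ∀ z : 𝔻, ∑' γ : Γ, χ ((γ : SU11) • z) = 1) :
    ∃ c : ℝ≥0∞, 0 < c ∧ ∀ z : 𝔻, c ≤ ∫⁻ w, χ w *
      (if hG Γ z / 8 ≤ hG Γ w then ENNReal.ofReal (hG Γ w) else 0) ∂area := by
  classical
  have hcount : Countable Γ := countable_of_disc hd
  obtain ⟨C, hC, hCb⟩ := count_le hd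
  have hK0 : ENNReal.ofReal (8 * C) ≠ 0 := by
    rw [Ne, ENNReal.ofReal_eq_zero, not_le]
    positivity
  have hKt : ENNReal.ofReal (8 * C) ≠ ⊤ := ENNReal.ofReal_ne_top
  refine ⟨area {w : 𝔻 | 1 + Qd 0 w ≤ 2} / ENNReal.ofReal (8 * C),
    ENNReal.div_pos XEc_V_pos.ne' hKt, fun z => ?_⟩
  set U : Set 𝔻 := {w : 𝔻 | 1 + Qd z w ≤ 2} with hU
  have hUm : MeasurableSet U := (XEc_meas_Qd z) measurableSet_Iic
  set G : 𝔻 → ℝ≥0∞ := fun w =>
    (if hG Γ z / 8 ≤ hG Γ w then ENNReal.ofReal (hG Γ w) else 0) with hG'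
  have hGm : Measurable G := by
    refine Measurable.ite (measurableSet_le measurable_const (measurable_hG Γ))
      (measurable_hG Γ).ennreal_ofReal measurable_const
  have h1 := unfoldE χ hχ hχ1 (U.indicator 1) (measurable_one.indicator hUm)
  rw [lintegral_indicator_one hUm, XEc_translate 2 z] at h1
  have hpt : ∀ w : 𝔻, ∑' γ : Γ, U.indicator (1 : 𝔻 → ℝ≥0∞) ((γ : SU11) • w) ≤
      ENNReal.ofReal (8 * C) * G w := by
    intro w
    obtain ⟨hfin, hcard⟩ := hCb z w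
    have h2 : ∑' γ : Γ, U.indicator (1 : 𝔻 → ℝ≥0∞) ((γ : SU11) • w) =
        ({γ : Γ | 1 + Qd z ((γ : SU11) • w) ≤ 2}.ncard : ℝ≥0∞) := by
      rw [← XEc_tsum _ hfin]
      refine tsum_congr fun γ => ?_
      rw [Set.indicator_apply, Set.indicator_apply, Pi.one_apply, Pi.one_apply]
      rfl
    rw [h2]
    rcases Set.eq_empty_or_nonempty {γ : Γ | 1 + Qd z ((γ : SU11) • w) ≤ 2} with hemp | ⟨γ₀, hγ₀⟩
    · rw [hemp, Set.ncard_empty, Nat.cast_zero]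
      exact bot_le
    · have h0 : 1 + Qd z ((γ₀ : SU11) • w) ≤ 2 := hγ₀
      have hw1 := one_le_hG Γ w
      have hz : hG Γ z ≤ 8 * hG Γ w := by
        have h3 := hG_lip Γ z ((γ₀ : SU11) • w)
        rw [hG_smul γ₀.2] at h3
        refine h3.trans ?_
        exact mul_le_mul_of_nonneg_right (by linarith) (by linarith)
      have h4 : G w = ENNReal.ofReal (hG Γ w) := by
        rw [hG']
        simp only
        rw [if_pos (by linarith)]
      rw [h4, ← ENNReal.ofReal_mul (by positivity), ← ENNReal.ofReal_natCast]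
      apply ENNReal.ofReal_le_ofReal
      refine hcard.trans ?_
      calc C * hG Γ z ≤ C * (8 * hG Γ w) := mul_le_mul_of_nonneg_left hz hC.le
        _ = 8 * C * hG Γ w := by ring
  have h5 : area {w : 𝔻 | 1 + Qd 0 w ≤ 2} ≤ (∫⁻ w, χ w * G w ∂area) * ENNReal.ofReal (8 * C) := by
    have h6 : ENNReal.ofReal (8 * C) * ∫⁻ w, χ w * G w ∂area =
        ∫⁻ w, ENNReal.ofReal (8 * C) * (χ w * G w) ∂area :=
      (lintegral_const_mul _ (hχ.mul hGm)).symm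
    rw [h1, mul_comm, h6]
    refine lintegral_mono fun w => ?_
    calc χ w * ∑' γ : Γ, U.indicator (1 : 𝔻 → ℝ≥0∞) ((γ : SU11) • w)
        ≤ χ w * (ENNReal.ofReal (8 * C) * G w) := mul_le_mul_right (hpt w) _
      _ = ENNReal.ofReal (8 * C) * (χ w * G w) := by ring
  exact ENNReal.div_le_of_le_mul h5

/-- `1_{hG ≤ B}(w) ≤ ∑_γ 1_V(γ w)`, `V = {1 + Qd w 0 ≤ 2 B}`, and `unfoldE` -/
theorem finite_low {Γ : Subgroup SU11} (hd : IsDisc Γ) (χ : 𝔻 → ℝ≥0∞) (hχ : Measurable χ)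
    (hχ1 : ∀ z : 𝔻, ∑' γ : Γ, χ ((γ : SU11) • z) = 1) (B : ℝ) :
    ∫⁻ w, χ w * (if hG Γ w ≤ B then 1 else 0) ∂area < ⊤ := by
  classical
  have hcount : Countable Γ := countable_of_disc hd
  obtain ⟨C, hC, hCb⟩ := area_Qd_le
  set V : Set 𝔻 := {w : 𝔻 | 1 + Qd 0 w ≤ 2 * max B 1} with hV
  have hVm : MeasurableSet V := (XEc_meas_Qd 0) measurableSet_Iic
  have h1 := unfoldE χ hχ hχ1 (V.indicator 1) (measurable_one.indicator hVm)
  rw [lintegral_indicator_one hVm] at h1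
  have hVt : area V < ⊤ :=
    (hCb 0 (2 * max B 1) (by have := le_max_right B 1; linarith)).trans_lt ENNReal.ofReal_lt_top
  refine lt_of_le_of_lt ?_ hVt
  rw [h1]
  refine lintegral_mono fun w => ?_
  refine mul_le_mul_right ?_ _
  split_ifs with hB
  · obtain ⟨γ, hγ, h2⟩ := exists_hG Γ w
    have h3 : γ⁻¹ • w ∈ V := by
      have h4 := Qd_smul γ 0 (γ⁻¹ • w)
      rw [smul_inv_smul] at h4
      change 1 + Qd 0 (γ⁻¹ • w) ≤ 2 * max B 1
      rw [← h4, Qd_comm]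
      have := le_max_left B 1
      linarith
    have h5 : V.indicator (1 : 𝔻 → ℝ≥0∞) (((⟨γ, hγ⟩ : Γ)⁻¹ : Γ) • w) ≤
        ∑' γ : Γ, V.indicator (1 : 𝔻 → ℝ≥0∞) ((γ : SU11) • w) :=
      ENNReal.le_tsum (f := fun γ : Γ => V.indicator (1 : 𝔻 → ℝ≥0∞) ((γ : SU11) • w))
        ((⟨γ, hγ⟩ : Γ)⁻¹)
    refine le_trans (le_of_eq ?_) h5
    have h6 : (((⟨γ, hγ⟩ : Γ)⁻¹ : Γ) • w) = γ⁻¹ • w := rfl
    rw [h6, Set.indicator_of_mem h3, Pi.one_apply]
  · exact bot_le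

end

end Pool.Agent.Lib.MP_b16327_pr
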