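import Pool.Agent.Lib.MP_b16327_pr.Walk

/-! # Escape at positive speed, and convergence to the boundary -/

namespace Pool.Agent.Lib.MP_b16327_pr

open Complex MeasureTheory ComplexConjugate Filter
open scoped Complex.UnitDisc Topology ENNReal

noncomputable section

private theorem XH_bound (W : Walk) : ∃ K : ℝ, 0 ≤ K ∧
    ∀ (g : SU11) (i : W.ι), |Lg (g * W.h i) - Lg g| ≤ K := by
  have hlog : 0 ≤ Real.log 4 := Real.log_nonneg (by norm_num)
  refine ⟨∑ i, Lg (W.h i) + Real.log 4, ?_, ?_⟩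
  · exact add_nonneg (Finset.sum_nonneg fun i _ => Lg_nonneg _) hlog
  · intro g i
    have h1 := Lg_mul_le g (W.h i)
    have h2 := Lg_le_mul g (W.h i)
    have h3 : Lg (W.h i) ≤ ∑ i, Lg (W.h i) :=
      Finset.single_le_sum (f := fun i => Lg (W.h i)) (fun i _ => Lg_nonneg _) (Finset.mem_univ i)
    rw [abs_le]
    constructor <;> linarith

private theorem XH_step (W : Walk) (hdrift : ∀ g, Lg g + 1 ≤ ∑ i, W.p i * Lg (g * W.h i)) {K : ℝ}
    (hK0 : 0 ≤ K) (hK : ∀ (g : SU11) (i : W.ι), |Lg (g * W.h i) - Lg g| ≤ K) {s : ℝ}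
    (hs0 : 0 < s) (hs : s * (2 * K ^ 2 + 2) ≤ 1) (g : SU11) :
    ∑ i, W.p i * Real.exp (-(s * Lg (g * W.h i))) ≤
      Real.exp (-(s * Lg g)) * Real.exp (-(s / 2)) := by
  have h1 : ∀ i, W.p i * Real.exp (-(s * Lg (g * W.h i))) ≤ Real.exp (-(s * Lg g)) *
      (W.p i * (1 + s * Lg g + s ^ 2 * K ^ 2) - s * (W.p i * Lg (g * W.h i))) := by
    intro i
    have h2 := hK g i
    have h3 := abs_le.1 h2
    have hx : |(-(s * (Lg (g * W.h i) - Lg g)))| ≤ 1 := by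
      rw [abs_neg, abs_mul, abs_of_pos hs0]
      have h4 : s * |Lg (g * W.h i) - Lg g| ≤ s * K := mul_le_mul_of_nonneg_left h2 hs0.le
      have h5 : K ≤ 2 * K ^ 2 + 2 := by nlinarith [sq_nonneg (K - 1)]
      have h6 : s * K ≤ s * (2 * K ^ 2 + 2) := mul_le_mul_of_nonneg_left h5 hs0.le
      linarith
    have h7 := Real.abs_exp_sub_one_sub_id_le hx
    have h8 := (abs_le.1 h7).2
    have h9 : (-(s * (Lg (g * W.h i) - Lg g))) ^ 2 ≤ s ^ 2 * K ^ 2 := by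
      have : (Lg (g * W.h i) - Lg g) ^ 2 ≤ K ^ 2 := by
        rw [← sq_abs]
        exact pow_le_pow_left₀ (abs_nonneg _) h2 2
      calc (-(s * (Lg (g * W.h i) - Lg g))) ^ 2 = s ^ 2 * (Lg (g * W.h i) - Lg g) ^ 2 := by ring
        _ ≤ s ^ 2 * K ^ 2 := mul_le_mul_of_nonneg_left this (sq_nonneg s)
    have h10 : Real.exp (-(s * Lg (g * W.h i))) =
        Real.exp (-(s * Lg g)) * Real.exp (-(s * (Lg (g * W.h i) - Lg g))) := by
      rw [← Real.exp_add]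
      congr 1
      ring
    rw [h10]
    have h11 : Real.exp (-(s * (Lg (g * W.h i) - Lg g))) ≤
        1 + s * Lg g + s ^ 2 * K ^ 2 - s * Lg (g * W.h i) := by linarith
    have h12 := mul_le_mul_of_nonneg_left h11 (Real.exp_pos (-(s * Lg g))).le
    have h13 := mul_le_mul_of_nonneg_left h12 (W.nonneg i)
    calc W.p i * (Real.exp (-(s * Lg g)) * Real.exp (-(s * (Lg (g * W.h i) - Lg g))))
        ≤ _ := h13
      _ = _ := by ring
  refine (Finset.sum_le_sum fun i _ => h1 i).trans ?_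
  rw [← Finset.mul_sum, Finset.sum_sub_distrib, ← Finset.sum_mul, ← Finset.mul_sum, W.sum, one_mul]
  apply mul_le_mul_of_nonneg_left _ (Real.exp_pos _).le
  have h14 := hdrift g
  have h15 : s * (Lg g + 1) ≤ s * ∑ i, W.p i * Lg (g * W.h i) :=
    mul_le_mul_of_nonneg_left h14 hs0.le
  have h16 := Real.add_one_le_exp (-(s / 2))
  have h17 : s ^ 2 * K ^ 2 ≤ s / 2 := by
    have : s * (s * (2 * K ^ 2)) ≤ s * 1 := by
      apply mul_le_mul_of_nonneg_left _ hs0.le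
      nlinarith
    nlinarith
  linarith

private theorem XH_pow (W : Walk) (hdrift : ∀ g, Lg g + 1 ≤ ∑ i, W.p i * Lg (g * W.h i)) {K : ℝ}
    (hK0 : 0 ≤ K) (hK : ∀ (g : SU11) (i : W.ι), |Lg (g * W.h i) - Lg g| ≤ K) {s : ℝ}
    (hs0 : 0 < s) (hs : s * (2 * K ^ 2 + 2) ≤ 1) (n : ℕ) :
    ∑ i, (W.pow n).p i * Real.exp (-(s * Lg ((W.pow n).h i))) ≤ Real.exp (-(s * n / 2)) := by
  induction n with
  | zero =>
    change ∑ _i : Unit, (1 : ℝ) * Real.exp (-(s * Lg (1 : SU11))) ≤ _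
    rw [Lg_one]
    simp
  | succ n ih =>
    change ∑ q : (W.pow n).ι × W.ι, ((W.pow n).p q.1 * W.p q.2) *
      Real.exp (-(s * Lg ((W.pow n).h q.1 * W.h q.2))) ≤ _
    rw [Fintype.sum_prod_type]
    have h1 : ∀ i, ∑ j, ((W.pow n).p i * W.p j) * Real.exp (-(s * Lg ((W.pow n).h i * W.h j))) ≤
        ((W.pow n).p i * Real.exp (-(s * Lg ((W.pow n).h i)))) * Real.exp (-(s / 2)) := by
      intro i
      have h2 := XH_step W hdrift hK0 hK hs0 hs ((W.pow n).h i)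
      have h3 := mul_le_mul_of_nonneg_left h2 ((W.pow n).nonneg i)
      rw [Finset.mul_sum] at h3
      calc ∑ j, ((W.pow n).p i * W.p j) * Real.exp (-(s * Lg ((W.pow n).h i * W.h j)))
          = ∑ j, (W.pow n).p i * (W.p j * Real.exp (-(s * Lg ((W.pow n).h i * W.h j)))) :=
            Finset.sum_congr rfl fun j _ => mul_assoc _ _ _
        _ ≤ _ := h3
        _ = _ := (mul_assoc _ _ _).symm
    refine (Finset.sum_le_sum fun i _ => h1 i).trans ?_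
    rw [← Finset.sum_mul]
    have h4 := mul_le_mul_of_nonneg_right ih (Real.exp_pos (-(s / 2))).le
    refine h4.trans (le_of_eq ?_)
    rw [← Real.exp_add]
    congr 1
    push_cast
    ring

/-- ESCAPE.  Let `K` bound `|L(g h_i) - L(g)|` (`Lg_mul_le`, `Lg_le_mul`), `0 < s ≤ 1 / (2 K²+2)`:
`e^{-sx} ≤ 1 - s x + s² x²` for `|s x| ≤ 1`, so
`∑ p_i exp (-s (L(g h_i) - L(g))) ≤ 1 - s + s² K² ≤ e^{-s/2}`.  By induction
`∑_i (W.pow n).p i * exp (-s L((W.pow n).h i)) ≤ e^{-s n/2}`, and Markov. -/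
theorem escape (W : Walk) (hdrift : ∀ g, Lg g + 1 ≤ ∑ i, W.p i * Lg (g * W.h i)) {ε : ℝ}
    (hε : 0 < ε) : ∃ n₀ : ℕ, ∀ n : ℕ, n₀ ≤ n →
      ∑ i, (if Lg ((W.pow n).h i) < (n : ℝ) / 4 then (W.pow n).p i else 0) ≤ ε := by
  obtain ⟨K, hK0, hK⟩ := XH_bound W
  have hpos : 0 < 2 * K ^ 2 + 2 := by positivity
  set s : ℝ := 1 / (2 * K ^ 2 + 2) with hsdef
  have hs0 : 0 < s := by rw [hsdef]; positivity
  have hs : s * (2 * K ^ 2 + 2) ≤ 1 := by
    rw [hsdef, div_mul_cancel₀ _ hpos.ne']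
  obtain ⟨n₀, hn₀⟩ := exists_nat_ge (-(4 * Real.log ε) / s)
  refine ⟨n₀, fun n hn => ?_⟩
  have h1 := XH_pow W hdrift hK0 hK hs0 hs n
  have h2 : ∀ i, (if Lg ((W.pow n).h i) < (n : ℝ) / 4 then (W.pow n).p i else 0) ≤
      ((W.pow n).p i * Real.exp (-(s * Lg ((W.pow n).h i)))) * Real.exp (s * n / 4) := by
    intro i
    have hp := (W.pow n).nonneg i
    by_cases hi : Lg ((W.pow n).h i) < (n : ℝ) / 4
    · rw [if_pos hi, mul_assoc, ← Real.exp_add]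
      have h3 : 1 ≤ Real.exp (-(s * Lg ((W.pow n).h i)) + s * n / 4) := by
        apply Real.one_le_exp
        have := mul_le_mul_of_nonneg_left hi.le hs0.le
        linarith
      nlinarith
    · rw [if_neg hi]
      positivity
  refine (Finset.sum_le_sum fun i _ => h2 i).trans ?_
  rw [← Finset.sum_mul]
  refine (mul_le_mul_of_nonneg_right h1 (Real.exp_pos _).le).trans ?_
  rw [← Real.exp_add]
  have h4 : (-(4 * Real.log ε) / s) ≤ n := hn₀.trans (by exact_mod_cast hn)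
  rw [div_le_iff₀ hs0] at h4
  rw [← Real.le_log_iff_exp_le hε]
  linarith

/-- the sum is monotone in the threshold, so any threshold `≤ n / 4` works -/
theorem escape' (W : Walk) (hdrift : ∀ g, Lg g + 1 ≤ ∑ i, W.p i * Lg (g * W.h i)) {ε : ℝ}
    (hε : 0 < ε) (C : ℝ) : ∃ τ₀ : ℝ, ∀ τ : ℝ, τ₀ ≤ τ →
      ∑ i, (if Lg ((W.pow ⌈5 * τ⌉₊).h i) < τ + C then (W.pow ⌈5 * τ⌉₊).p i else 0) ≤ ε := by
  obtain ⟨n₀, hn₀⟩ := escape W hdrift hε
  refine ⟨max (4 * C) n₀, fun τ hτ => ?_⟩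
  have hτ1 : 4 * C ≤ τ := (le_max_left _ _).trans hτ
  have hτ2 : (n₀ : ℝ) ≤ τ := (le_max_right _ _).trans hτ
  have hτ0 : 0 ≤ τ := (Nat.cast_nonneg n₀).trans hτ2
  have hceil : 5 * τ ≤ (⌈5 * τ⌉₊ : ℝ) := Nat.le_ceil _
  have hn : n₀ ≤ ⌈5 * τ⌉₊ := by
    have : (n₀ : ℝ) ≤ (⌈5 * τ⌉₊ : ℝ) := by linarith
    exact_mod_cast this
  refine le_trans (Finset.sum_le_sum fun i _ => ?_) (hn₀ _ hn)
  have hp := (W.pow ⌈5 * τ⌉₊).nonneg i
  by_cases h1 : Lg ((W.pow ⌈5 * τ⌉₊).h i) < τ + C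
  · have h2 : Lg ((W.pow ⌈5 * τ⌉₊).h i) < (⌈5 * τ⌉₊ : ℝ) / 4 := by linarith
    rw [if_pos h1, if_pos h2]
  · rw [if_neg h1]
    by_cases h2 : Lg ((W.pow ⌈5 * τ⌉₊).h i) < (⌈5 * τ⌉₊ : ℝ) / 4
    · rw [if_pos h2]
      exact hp
    · rw [if_neg h2]

end

end Pool.Agent.Lib.MP_b16327_pr
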