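import Pool.Agent.Lib.MP_b16327_pr.XA
import Pool.Agent.Lib.MP_b16327_pr.CircB

/-! # Convergence to the boundary along a ray -/

namespace Pool.Agent.Lib.MP_b16327_pr

open Complex MeasureTheory ComplexConjugate Filter
open scoped Complex.UnitDisc Topology ENNReal

noncomputable section

private theorem XHx_inv_dist (g : SU11) (z : 𝔻) :
    ‖((g⁻¹ • z : 𝔻) : ℂ) - ((g⁻¹ • (0 : 𝔻) : 𝔻) : ℂ)‖ ≤ Real.exp (-Lg g) / (1 - ‖(z : ℂ)‖) := by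
  have hz : ‖(z : ℂ)‖ < 1 := z.norm_lt_one
  have ha : 0 < ‖g.a‖ := norm_pos_iff.2 g.a_ne_zero
  have hb := g.norm_b_lt
  rw [coe_smul, coe_smul, UnitDisc.coe_zero, mob_sub_mob g⁻¹ hz.le (by simp), sub_zero, norm_div,
    norm_mul]
  have h0 : ‖(g⁻¹).den 0‖ = ‖g.a‖ := by
    unfold SU11.den
    rw [mul_zero, zero_add, SU11.inv_a, Complex.conj_conj]
  have h1 : ‖g.a‖ * (1 - ‖(z : ℂ)‖) ≤ ‖(g⁻¹).den (z : ℂ)‖ := by
    have h : (g⁻¹).den (z : ℂ) = g.a - conj g.b * z := by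
      unfold SU11.den
      rw [SU11.inv_a, SU11.inv_b, Complex.conj_conj, map_neg]
      ring
    rw [h]
    have h2 : ‖conj g.b * (z : ℂ)‖ = ‖g.b‖ * ‖(z : ℂ)‖ := by
      rw [norm_mul, Complex.norm_conj]
    have h3 := norm_sub_norm_le g.a (conj g.b * (z : ℂ))
    rw [h2] at h3
    nlinarith [norm_nonneg (z : ℂ)]
  have he : Real.exp (-Lg g) = (‖g.a‖ ^ 2)⁻¹ := by
    unfold Lg
    rw [Real.exp_neg, Real.exp_log (normSq_pos.2 g.a_ne_zero), Complex.normSq_eq_norm_sq]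
  have h1' : 0 < 1 - ‖(z : ℂ)‖ := by linarith
  rw [h0, he]
  have hd : 0 < ‖g.a‖ * (1 - ‖(z : ℂ)‖) := mul_pos ha h1'
  have hd2 : 0 < ‖(g⁻¹).den (z : ℂ)‖ := lt_of_lt_of_le hd h1
  calc ‖(z : ℂ)‖ / (‖(g⁻¹).den (z : ℂ)‖ * ‖g.a‖)
      ≤ 1 / (‖g.a‖ * (1 - ‖(z : ℂ)‖) * ‖g.a‖) := by
        apply div_le_div₀ zero_le_one hz.le (by positivity)
        exact mul_le_mul_of_nonneg_right h1 ha.le
    _ = (‖g.a‖ ^ 2)⁻¹ / (1 - ‖(z : ℂ)‖) := by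
        field_simp

/-- GEOMETRY.  Let `y = k⁻¹ g`, `k = G * rotG (G⁻¹ g ξ)`, so `y ξ = 1`, `y⁻¹ 0 = g⁻¹ G 0`.
`tracking`: `|y 0 - 1| |ξ - y⁻¹ 0| = e^{-L(y)}`, `L(y) ≥ L(g) - L(G) - log 4`,
`|g⁻¹ G 0 - g⁻¹ 0| ≤ e^{-L(g)} / (1 - |G 0|)` (`mob_sub_mob`).  If `L(g)` is large,
`|ξ - y⁻¹ 0| ≥ δ/2` and `|1 - y 0| ≤ (2/δ) e^{-L(y)}` is `≤ 1`, so
`xc (y 0) = log (|1 + y 0| / |1 - y 0|) ≥ - log |1 - y 0| ≥ L(g) - C`.
If `L(g)` is bounded use `|xc| ≤ dL + log 4` (`xc z = log |(1+z)/(1-z)|`). -/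
theorem xc_ge (G : SU11) {δ : ℝ} (hδ : 0 < δ) : ∃ C : ℝ, ∀ (g : SU11) (ξ : Circle),
    δ ≤ ‖(ξ : ℂ) - ((g⁻¹ • (0 : 𝔻) : 𝔻) : ℂ)‖ →
    Lg g - C ≤ xc ((G * rotG (G⁻¹ • (g • ξ)))⁻¹ • (g • (0 : 𝔻))) := by
  have hr : ‖((G • (0 : 𝔻) : 𝔻) : ℂ)‖ < 1 := (G • (0 : 𝔻)).norm_lt_one
  set r := ‖((G • (0 : 𝔻) : 𝔻) : ℂ)‖ with hrdef
  set M1 := -Real.log (δ * (1 - r) / 2) with hM1
  set M2 := -Real.log (δ / 2) + Lg G + 2 * Real.log 4 with hM2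
  refine ⟨max (Lg G + 2 * Real.log 4 - Real.log (δ / 2))
    (2 * max M1 M2 + Lg G + 3 * Real.log 4), ?_⟩
  intro g ξ hξ
  set ζ : Circle := G⁻¹ • (g • ξ) with hζ
  set k : SU11 := G * rotG ζ with hk
  set y : SU11 := k⁻¹ * g with hy
  have hz : k⁻¹ • (g • (0 : 𝔻)) = y • (0 : 𝔻) := by rw [hy, mul_smul]
  rw [hz]
  have hk0 : k • (0 : 𝔻) = G • (0 : 𝔻) := by
    rw [hk, mul_smul, rotG_smul]
    congr 1
    apply UnitDisc.coe_injective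
    rw [UnitDisc.coe_circle_smul, UnitDisc.coe_zero, mul_zero]
  have hk1 : k • (1 : Circle) = g • ξ := by
    rw [hk, mul_smul, rotG_smul_circle, mul_one, hζ, smul_smul, mul_inv_cancel, one_smul]
  have hy1 : y • ξ = 1 := by
    rw [hy, mul_smul, ← hk1, smul_smul, inv_mul_cancel, one_smul]
  have hyi : y⁻¹ • (0 : 𝔻) = g⁻¹ • (G • (0 : 𝔻)) := by
    rw [hy, mul_inv_rev, inv_inv, mul_smul, hk0]
  have htr := tracking y ξ
  rw [hy1, hyi, Circle.coe_one] at htr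
  have hkL : Lg k ≤ Lg G + Real.log 4 := by
    have := Lg_mul_le G (rotG ζ)
    rw [Lg_rotG] at this
    rw [hk]
    linarith
  have hgy : Lg g ≤ Lg y + Lg G + 2 * Real.log 4 := by
    have h1 : g = k * y := by rw [hy]; group
    have h2 := Lg_mul_le k y
    rw [← h1] at h2
    linarith
  have hyg : Lg y ≤ Lg g + Lg G + 2 * Real.log 4 := by
    have h2 := Lg_mul_le k⁻¹ g
    rw [Lg_inv, ← hy] at h2
    linarith
  have hsmall : ∀ M : ℝ, M ≤ max M1 M2 → Lg g ≤ M →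
      Lg g - max (Lg G + 2 * Real.log 4 - Real.log (δ / 2))
        (2 * max M1 M2 + Lg G + 3 * Real.log 4) ≤ xc (y • (0 : 𝔻)) := by
    intro M hM hgM
    have h1 := (abs_le.1 (abs_xc_le (y • (0 : 𝔻)))).1
    rw [dL_smul_zero] at h1
    have h2 := le_max_right (Lg G + 2 * Real.log 4 - Real.log (δ / 2))
      (2 * max M1 M2 + Lg G + 3 * Real.log 4)
    linarith
  have h1r : 0 < 1 - r := by linarith
  by_cases hc1 : Real.exp (-Lg g) / (1 - r) ≤ δ / 2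
  · have h3 : δ / 2 ≤ ‖(ξ : ℂ) - ((g⁻¹ • (G • (0 : 𝔻)) : 𝔻) : ℂ)‖ := by
      have h4 := XHx_inv_dist g (G • (0 : 𝔻))
      rw [← hrdef] at h4
      have h5 : ‖(ξ : ℂ) - ((g⁻¹ • (0 : 𝔻) : 𝔻) : ℂ)‖ ≤
          ‖(ξ : ℂ) - ((g⁻¹ • (G • (0 : 𝔻)) : 𝔻) : ℂ)‖ +
          ‖((g⁻¹ • (G • (0 : 𝔻)) : 𝔻) : ℂ) - ((g⁻¹ • (0 : 𝔻) : 𝔻) : ℂ)‖ := by
        have := norm_add_le ((ξ : ℂ) - ((g⁻¹ • (G • (0 : 𝔻)) : 𝔻) : ℂ))
          (((g⁻¹ • (G • (0 : 𝔻)) : 𝔻) : ℂ) - ((g⁻¹ • (0 : 𝔻) : 𝔻) : ℂ))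
        rwa [sub_add_sub_cancel] at this
      linarith
    set u := ‖((y • (0 : 𝔻) : 𝔻) : ℂ) - 1‖ with hu
    have hu0 : 0 < u := by
      rw [hu, norm_pos_iff]
      intro h
      have h6 : ((y • (0 : 𝔻) : 𝔻) : ℂ) = 1 := by linear_combination h
      have h7 := (y • (0 : 𝔻)).norm_lt_one
      rw [h6, norm_one] at h7
      exact lt_irrefl _ h7
    have hule : u * (δ / 2) ≤ Real.exp (-Lg y) := by
      rw [← htr]
      exact mul_le_mul_of_nonneg_left h3 hu0.le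
    by_cases hc2 : u ≤ 1
    · have h8 : 1 ≤ ‖1 + ((y • (0 : 𝔻) : 𝔻) : ℂ)‖ := by
        have h9 : (2 : ℝ) ≤ ‖1 + ((y • (0 : 𝔻) : 𝔻) : ℂ)‖ + u := by
          have := norm_sub_le (1 + ((y • (0 : 𝔻) : 𝔻) : ℂ)) (((y • (0 : 𝔻) : 𝔻) : ℂ) - 1)
          have h10 : (1 + ((y • (0 : 𝔻) : 𝔻) : ℂ)) - (((y • (0 : 𝔻) : 𝔻) : ℂ) - 1) = 2 := by ring
          rw [h10] at this
          simpa using this
        linarith
      have h11 : xc (y • (0 : 𝔻)) = Real.log ‖1 + ((y • (0 : 𝔻) : 𝔻) : ℂ)‖ - Real.log u := by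
        unfold xc
        rw [norm_div, Real.log_div (by linarith) , hu, norm_sub_rev]
        rw [norm_sub_rev, ← hu]
        exact hu0.ne'
      have h12 : 0 ≤ Real.log ‖1 + ((y • (0 : 𝔻) : 𝔻) : ℂ)‖ := Real.log_nonneg h8
      have h13 : Real.log u + Real.log (δ / 2) ≤ -Lg y := by
        rw [← Real.log_mul hu0.ne' (by positivity)]
        have := Real.log_le_log (by positivity) hule
        rwa [Real.log_exp] at this
      have h14 := le_max_left (Lg G + 2 * Real.log 4 - Real.log (δ / 2))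
        (2 * max M1 M2 + Lg G + 3 * Real.log 4)
      rw [h11]
      linarith
    · push Not at hc2
      apply hsmall M2 (le_max_right _ _)
      have h15 : δ / 2 ≤ Real.exp (-Lg y) := by
        refine le_trans ?_ hule
        have : 0 < δ / 2 := by positivity
        nlinarith
      have h16 := Real.log_le_log (by positivity) h15
      rw [Real.log_exp] at h16
      rw [hM2]
      linarith
  · push Not at hc1
    apply hsmall M1 (le_max_left _ _)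
    rw [lt_div_iff₀ h1r] at hc1
    have h17 := Real.log_le_log (by positivity) hc1.le
    rw [Real.log_exp] at h17
    have h18 : δ / 2 * (1 - r) = δ * (1 - r) / 2 := by ring
    rw [h18] at h17
    rw [hM1]
    linarith

end

end Pool.Agent.Lib.MP_b16327_pr
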