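import Pool.Agent.Lib.MP_b16327_pr.XC
import Pool.Agent.Lib.MP_b16327_pr.XHx

/-! # Integrals along rays against a stationary measure -/

namespace Pool.Agent.Lib.MP_b16327_pr

open Complex MeasureTheory ComplexConjugate Filter
open scoped Complex.UnitDisc Topology ENNReal

noncomputable section

/-- the real version of `Walk.Stat.integral` -/
private theorem XJ_stat_integral {W : Walk} {ν : Measure Circle} [IsFiniteMeasure ν] (h : W.Stat ν)
    (F : Circle → ℝ) (hF : Integrable F ν) :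
    ∫ ξ, F ξ ∂ν = ∑ i, W.p i * ∫ ξ, F (W.h i • ξ) ∂ν := by
  have h1 := h.integral (fun ξ => (F ξ : ℂ)) hF.ofReal
  rw [integral_complex_ofReal] at h1
  have h2 : ∀ i, W.p i • ∫ ξ, ((F (W.h i • ξ) : ℝ) : ℂ) ∂ν =
      ((W.p i * ∫ ξ, F (W.h i • ξ) ∂ν : ℝ) : ℂ) := by
    intro i
    rw [integral_complex_ofReal, Complex.real_smul, ← Complex.ofReal_mul]
  rw [Finset.sum_congr rfl (fun i _ => h2 i), ← Complex.ofReal_sum] at h1
  exact Complex.ofReal_injective h1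

/-- a bounded measurable function is integrable -/
private theorem XJ_integrable {ν : Measure Circle} [IsFiniteMeasure ν] {f : Circle → ℝ}
    (hf : Measurable f) {K : ℝ} (h0 : ∀ ξ, 0 ≤ f ξ) (hK : ∀ ξ, f ξ ≤ K) : Integrable f ν := by
  refine Integrable.of_bound hf.aestronglyMeasurable K (Filter.Eventually.of_forall fun ξ => ?_)
  rw [Real.norm_eq_abs, abs_of_nonneg (h0 ξ)]
  exact hK ξ

/-- AVERAGED BOUND.  Stationarity of `ν` under `W.pow n`: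
`∫ Ψ dν = ∑ p_i ∫ Ψ(h_i ξ') dν(ξ')`, `Ψ(ξ) = ψ(ξ) ray G τ F (G⁻¹ ξ)`, `F = min hG B`.  If
`|ξ' - h_i⁻¹ 0| ≥ δ` and `L(h_i) ≥ τ + Cδ` (`xc_ge`) then `ray_pathwise` bounds the ray integral by
`CG + C2 n`; otherwise it is at most `B τ` (`ray_le`) and `ψ ≤ K`. -/
theorem ray_average (W : Walk) {Γ : Subgroup SU11} (hΓ : ∀ i, W.h i ∈ Γ) :
    ∃ C2 : ℝ, 0 ≤ C2 ∧ ∀ G : SU11, ∃ CG : ℝ, 0 ≤ CG ∧ ∀ δ : ℝ, 0 < δ → ∃ Cδ : ℝ,
      ∀ (ν : Measure Circle), IsProbabilityMeasure ν → W.Stat ν →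
      ∀ (B ε K τ : ℝ), 1 ≤ B → 0 ≤ ε → 0 ≤ K → 0 ≤ τ →
      (∀ x : ℂ, ν.real {ξ : Circle | ‖(ξ : ℂ) - x‖ < δ} ≤ ε) →
      ∀ ψ : Circle → ℝ, Measurable ψ → (∀ ξ, 0 ≤ ψ ξ) → (∀ ξ, ψ ξ ≤ K) → ∀ n : ℕ,
        ∫ ξ, ψ ξ * ray G τ (fun z => min (hG Γ z) B) (G⁻¹ • ξ) ∂ν ≤
          (CG + C2 * n) * ∫ ξ, ψ ξ ∂ν + B * τ * K * (ε +
            ∑ i, (if Lg ((W.pow n).h i) < τ + Cδ then (W.pow n).p i else 0)) := by
  obtain ⟨C2, hC2, hpath⟩ := ray_pathwise W hΓ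
  refine ⟨C2, hC2, fun G => ?_⟩
  obtain ⟨CG, hCG, hG'⟩ := hpath G
  refine ⟨CG, hCG, fun δ hδ => ?_⟩
  obtain ⟨Cδ, hxc⟩ := xc_ge G hδ
  refine ⟨Cδ, fun ν hν hst B ε K τ hB hε hK hτ hsmall ψ hψm hψ0 hψK n => ?_⟩
  set F : 𝔻 → ℝ := fun z => min (hG Γ z) B with hF
  have hFm : Measurable F := (measurable_hG Γ).min measurable_const
  have hF0 : ∀ z, 0 ≤ F z := fun z =>
    le_min (zero_le_one.trans (one_le_hG Γ z)) (zero_le_one.trans hB)
  have hFB : ∀ z, F z ≤ B := fun z => min_le_right _ _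
  have hray0 : ∀ ζ, 0 ≤ ray G τ F ζ := fun ζ => ray_nonneg G hτ hF0 ζ
  have hrayB : ∀ ζ, ray G τ F ζ ≤ B * τ := fun ζ => ray_le G hτ hFm hF0 hFB ζ
  have hBτ : 0 ≤ B * τ := mul_nonneg (zero_le_one.trans hB) hτ
  have hBτK : 0 ≤ B * τ * K := mul_nonneg hBτ hK
  set Ψ : Circle → ℝ := fun ξ => ψ ξ * ray G τ F (G⁻¹ • ξ) with hΨ
  have hΨm : Measurable Ψ :=
    hψm.mul ((measurable_ray G τ hFm).comp (continuous_smul_circle G⁻¹).measurable)
  have hΨ0 : ∀ ξ, 0 ≤ Ψ ξ := fun ξ => mul_nonneg (hψ0 ξ) (hray0 _)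
  have hΨK : ∀ ξ, Ψ ξ ≤ B * τ * K := by
    intro ξ
    calc Ψ ξ ≤ K * (B * τ) := mul_le_mul (hψK ξ) (hrayB _) (hray0 _) hK
      _ = B * τ * K := mul_comm _ _
  have hM : 0 ≤ CG + C2 * n := by positivity
  have hstn := hst.pow n
  have e1 := XJ_stat_integral hstn Ψ (XJ_integrable hΨm hΨ0 hΨK)
  have e2 := XJ_stat_integral hstn ψ (XJ_integrable hψm hψ0 hψK)
  rw [e1]
  -- the bound for every `i`
  have hi : ∀ i : (W.pow n).ι, ∫ ξ, Ψ ((W.pow n).h i • ξ) ∂ν ≤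
      (CG + C2 * n) * ∫ ξ, ψ ((W.pow n).h i • ξ) ∂ν + B * τ * K *
        (ε + (if Lg ((W.pow n).h i) < τ + Cδ then 1 else 0)) := by
    intro i
    set g := (W.pow n).h i with hg
    have hgm : Measurable (fun ξ : Circle => g • ξ) := (continuous_smul_circle g).measurable
    have hψi : Integrable (fun ξ => ψ (g • ξ)) ν :=
      XJ_integrable (hψm.comp hgm) (fun ξ => hψ0 _) (fun ξ => hψK _)
    have hΨi : Integrable (fun ξ => Ψ (g • ξ)) ν :=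
      XJ_integrable (hΨm.comp hgm) (fun ξ => hΨ0 _) (fun ξ => hΨK _)
    have hI0 : 0 ≤ ∫ ξ, ψ (g • ξ) ∂ν := integral_nonneg fun ξ => hψ0 _
    by_cases hL : Lg g < τ + Cδ
    · rw [if_pos hL]
      have h1 : ∫ ξ, Ψ (g • ξ) ∂ν ≤ ∫ _ξ, B * τ * K ∂ν :=
        integral_mono hΨi (integrable_const _) fun ξ => hΨK _
      rw [integral_const, probReal_univ, one_smul] at h1
      have h2 : 0 ≤ (CG + C2 * n) * ∫ ξ, ψ (g • ξ) ∂ν := mul_nonneg hM hI0
      nlinarith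
    · rw [if_neg hL, add_zero]
      push Not at hL
      set A : Set Circle := {ξ : Circle | ‖(ξ : ℂ) - ((g⁻¹ • (0 : 𝔻) : 𝔻) : ℂ)‖ < δ} with hA
      have hAm : MeasurableSet A := by
        apply IsOpen.measurableSet
        exact isOpen_lt (by fun_prop) continuous_const
      have hpt : ∀ ξ : Circle, Ψ (g • ξ) ≤ (CG + C2 * n) * ψ (g • ξ) +
          A.indicator (fun _ => B * τ * K) ξ := by
        intro ξ
        by_cases hξ : ξ ∈ A
        · rw [Set.indicator_of_mem hξ]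
          have h1 := hΨK (g • ξ)
          have h2 : 0 ≤ (CG + C2 * n) * ψ (g • ξ) := mul_nonneg hM (hψ0 _)
          linarith
        · rw [Set.indicator_of_notMem hξ, add_zero]
          have h1 : δ ≤ ‖(ξ : ℂ) - ((g⁻¹ • (0 : 𝔻) : 𝔻) : ℂ)‖ := not_lt.1 hξ
          have h2 := hxc g ξ h1
          have h3 : ray G τ F (G⁻¹ • (g • ξ)) ≤ CG + C2 * n :=
            hG' (G⁻¹ • (g • ξ)) τ B hτ hB n i (by linarith)
          calc Ψ (g • ξ) = ψ (g • ξ) * ray G τ F (G⁻¹ • (g • ξ)) := rfl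
            _ ≤ ψ (g • ξ) * (CG + C2 * n) := mul_le_mul_of_nonneg_left h3 (hψ0 _)
            _ = (CG + C2 * n) * ψ (g • ξ) := mul_comm _ _
      have hindi : Integrable (A.indicator (fun _ : Circle => B * τ * K)) ν :=
        (integrable_const _).indicator hAm
      have h1 := integral_mono hΨi ((hψi.const_mul (CG + C2 * n)).add hindi) hpt
      have h2 : ∫ ξ, ((CG + C2 * n) * ψ (g • ξ) + A.indicator (fun _ => B * τ * K) ξ) ∂ν =
          (CG + C2 * n) * ∫ ξ, ψ (g • ξ) ∂ν + ν.real A * (B * τ * K) := by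
        rw [integral_add (hψi.const_mul (CG + C2 * n)) hindi, integral_const_mul,
          integral_indicator hAm, setIntegral_const, smul_eq_mul]
      have h3 : ν.real A ≤ ε := hsmall _
      have h4 : ν.real A * (B * τ * K) ≤ B * τ * K * ε := by
        rw [mul_comm]
        exact mul_le_mul_of_nonneg_left h3 hBτK
      calc ∫ ξ, Ψ (g • ξ) ∂ν ≤
          ∫ ξ, ((CG + C2 * n) * ψ (g • ξ) + A.indicator (fun _ => B * τ * K) ξ) ∂ν := h1
        _ = _ := h2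
        _ ≤ _ := by linarith
  -- summation
  have hsum : ∑ i, (W.pow n).p i * ∫ ξ, Ψ ((W.pow n).h i • ξ) ∂ν ≤
      ∑ i, (W.pow n).p i * ((CG + C2 * n) * ∫ ξ, ψ ((W.pow n).h i • ξ) ∂ν + B * τ * K *
        (ε + (if Lg ((W.pow n).h i) < τ + Cδ then 1 else 0))) :=
    Finset.sum_le_sum fun i _ => mul_le_mul_of_nonneg_left (hi i) ((W.pow n).nonneg i)
  refine hsum.trans (le_of_eq ?_)
  rw [e2]
  have h3 : ∀ i, (W.pow n).p i * ((CG + C2 * n) * ∫ ξ, ψ ((W.pow n).h i • ξ) ∂ν + B * τ * K *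
        (ε + (if Lg ((W.pow n).h i) < τ + Cδ then 1 else 0))) =
      (CG + C2 * n) * ((W.pow n).p i * ∫ ξ, ψ ((W.pow n).h i • ξ) ∂ν) +
        (B * τ * K * ε * (W.pow n).p i +
        B * τ * K * (if Lg ((W.pow n).h i) < τ + Cδ then (W.pow n).p i else 0)) := by
    intro i
    split_ifs <;> ring
  rw [Finset.sum_congr rfl (fun i _ => h3 i), Finset.sum_add_distrib, Finset.sum_add_distrib,
    ← Finset.mul_sum, ← Finset.mul_sum, ← Finset.mul_sum, (W.pow n).sum]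
  ring

end

end Pool.Agent.Lib.MP_b16327_pr
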