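import Pool.Agent.Lib.MP_b16327_pr.XL

/-! # Orbit points near density points -/

namespace Pool.Agent.Lib.MP_b16327_pr

open Complex MeasureTheory ComplexConjugate Filter
open scoped Complex.UnitDisc Topology ENNReal

noncomputable section

private theorem XLg_dL_rad {τ : ℝ} (hτ : 0 ≤ τ) (ξ : Circle) : dL (ξ • rad τ) 0 = τ := by
  rw [dL_zero, UnitDisc.coe_circle_smul, norm_mul, Circle.norm_coe, one_mul, ← dL_zero, dL_rad hτ]

private theorem XLg_Lg_tr {τ : ℝ} (hτ : 0 ≤ τ) (ξ : Circle) : Lg (tr (ξ • rad τ)) = τ := by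
  rw [← dL_smul_zero, tr_smul_zero, XLg_dL_rad hτ]

private theorem XLg_cont (A : Set Circle) {τ : ℝ} (hτ : 0 ≤ τ) :
    Continuous (fun ξ : Circle => pm A (ξ • rad τ)) := by
  unfold pm
  refine continuous_of_dominated (bound := fun _ => 4 * Real.exp τ) ?_ ?_ ?_ ?_
  · exact fun ξ => (continuous_Jac _).aestronglyMeasurable
  · intro ξ
    refine Eventually.of_forall fun η => ?_
    rw [Real.norm_of_nonneg (Jac_pos _ _).le]
    have h := Jac_le (tr (ξ • rad τ)) η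
    rwa [XLg_Lg_tr hτ] at h
  · exact integrable_const _
  · refine Eventually.of_forall fun η => ?_
    have h1 : (fun ξ : Circle => Jac (tr (ξ • rad τ)) η) = fun ξ : Circle =>
        (1 - ‖(ξ : ℂ) * ((rad τ : 𝔻) : ℂ)‖ ^ 2) / ‖(η : ℂ) - (ξ : ℂ) * ((rad τ : 𝔻) : ℂ)‖ ^ 2 := by
      funext ξ
      rw [Jac_eq_poisson, tr_smul_zero, UnitDisc.coe_circle_smul]
    rw [h1]
    have hc : Continuous (fun ξ : Circle => (ξ : ℂ)) := continuous_subtype_val
    refine Continuous.div (by fun_prop) (by fun_prop) ?_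
    intro ξ
    have h2 : (η : ℂ) - (ξ : ℂ) * ((rad τ : 𝔻) : ℂ) ≠ 0 := by
      intro h
      have h3 : (η : ℂ) = (ξ : ℂ) * ((rad τ : 𝔻) : ℂ) := by linear_combination h
      have h4 : ‖(η : ℂ)‖ = ‖(ξ : ℂ) * ((rad τ : 𝔻) : ℂ)‖ := by rw [h3]
      rw [norm_mul, Circle.norm_coe, Circle.norm_coe, one_mul] at h4
      exact absurd (rad τ).norm_lt_one (by rw [← h4]; exact lt_irrefl _)
    exact pow_ne_zero _ (norm_ne_zero_iff.2 h2)

private theorem XLg_stat {W : Walk} {Γ : Subgroup SU11}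
    {ν : Measure Circle} [IsProbabilityMeasure ν] (hst : W.Stat ν)
    {J : Type} [Fintype J] {q : J → ℝ} {g : J → SU11} {N : ℝ}
    (h : ∀ (F : SU11 → ℂ) (B : ℂ), (∀ x ∈ Γ, W.P F x = F x + B) →
          ∑ j, (q j : ℂ) * F (g j) = F 1 + B * N)
    {H : Circle → ℂ} (hH : Continuous H) :
    ∑ j, (q j : ℂ) * ∫ ξ, H (g j • ξ) ∂ν = ∫ ξ, H ξ ∂ν := by
  have hint : ∀ x : SU11, Integrable (fun ξ => H (x • ξ)) ν := fun x =>
    Continuous.integrable_of_hasCompactSupport (hH.comp (continuous_smul_circle x))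
      (HasCompactSupport.of_compactSpace _)
  have h1 := h (fun x => ∫ ξ, H (x • ξ) ∂ν) 0 (fun x _ => by
    rw [add_zero, Walk.Stat.integral hst (fun ξ => H (x • ξ)) (hint x)]
    unfold Walk.P
    simp only [mul_smul])
  rw [h1]
  simp

private theorem XLg_stat_real {W : Walk} {Γ : Subgroup SU11}
    {ν : Measure Circle} [IsProbabilityMeasure ν] (hst : W.Stat ν)
    {J : Type} [Fintype J] {q : J → ℝ} {g : J → SU11} {N : ℝ}
    (h : ∀ (F : SU11 → ℂ) (B : ℂ), (∀ x ∈ Γ, W.P F x = F x + B) →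
          ∑ j, (q j : ℂ) * F (g j) = F 1 + B * N)
    {G : Circle → ℝ} (hG : Continuous G) :
    ∑ j, q j * ∫ ξ, G (g j • ξ) ∂ν = ∫ ξ, G ξ ∂ν := by
  have h1 := XLg_stat hst h (H := fun ξ => (G ξ : ℂ)) (Complex.continuous_ofReal.comp hG)
  simp only [integral_complex_ofReal] at h1
  exact_mod_cast h1

/-- DENSITY POINTS.  Suppose `pm A (γ z) > η` for all `γ ∈ Γ`; then `pm A (γ 0) ≥ c η` by Harnack.
For the stopped family `(q_j, g_j)` at level `τ`, `∫ Ψ dν = ∑ q_j ∫ Ψ(g_j ξ') dν` for bounded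
measurable `Ψ` (the Dynkin property with `F(g) = ∫ Ψ(g ξ') dν`, `B = 0`), applied to
`Ψ(ξ) = pm A (ξ rad τ)`; outside a set of mass `≤ 1/2` (`small_arcs` and `L(g_j) < τ`)
`dL (g_j 0) ((g_j ξ') rad τ) ≤ D` (`tracking_dL`), so `Ψ ≥ c' η` there: `∫ Ψ dν ≥ c' η / 2`,
contradiction to `radial_mass` and `ν A = 0`. -/
theorem exists_gamma (W : Walk) {Γ : Subgroup SU11} (hΓ : ∀ i, W.h i ∈ Γ)
    (hdrift : ∀ g, Lg g + 1 ≤ ∑ i, W.p i * Lg (g * W.h i))
    (ν : Measure Circle) [IsProbabilityMeasure ν] (hν : ν ≪ lam) (hst : W.Stat ν)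
    {A : Set Circle} (hA : MeasurableSet A) (hνA : ν A = 0) (z : 𝔻) {η : ℝ} (hη : 0 < η) :
    ∃ γ ∈ Γ, pm A (γ • z) ≤ η := by
  by_contra hcon
  push Not at hcon
  -- Harnack at the orbit of zero
  set c1 : ℝ := η / (4 * Real.exp (dL 0 z)) with hc1
  have hc1pos : 0 < c1 := by positivity
  have horb : ∀ γ ∈ Γ, c1 ≤ pm A (γ • (0 : 𝔻)) := by
    intro γ hγ
    have h1 := hcon γ hγ
    have h2 := pm_harnack A (γ • (0 : 𝔻)) (γ • z)
    rw [dL_smul] at h2
    rw [hc1, div_le_iff₀ (by positivity)]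
    calc η ≤ pm A (γ • z) := h1.le
      _ ≤ 4 * Real.exp (dL 0 z) * pm A (γ • (0 : 𝔻)) := h2
      _ = pm A (γ • (0 : 𝔻)) * (4 * Real.exp (dL 0 z)) := by ring
  obtain ⟨δ, hδ, _, hδ'⟩ := small_arcs ν hν (ε := 1 / 4) (by norm_num)
  have hR : ∀ i, Lg (W.h i) + Real.log 4 ≤ ∑ i, Lg (W.h i) + Real.log 4 := by
    intro i
    have h5 : Lg (W.h i) ≤ ∑ i, Lg (W.h i) :=
      Finset.single_le_sum (f := fun i => Lg (W.h i)) (fun i _ => Lg_nonneg _) (Finset.mem_univ i)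
    linarith
  obtain ⟨C, _, hC1, hstop⟩ := W.stopped (∑ i, Lg (W.h i) + Real.log 4) hR hdrift Γ hΓ
  obtain ⟨D, hD⟩ := tracking_dL C δ hδ
  set c2 : ℝ := c1 / (4 * Real.exp D) with hc2
  have hc2pos : 0 < c2 := by positivity
  have hlim := radial_mass hA ν hν
  have hνA' : ν.real A = 0 := by rw [Measure.real, hνA, ENNReal.toReal_zero]
  rw [hνA'] at hlim
  have hev := (hlim.eventually (gt_mem_nhds (show (0 : ℝ) < c2 / 2 by positivity)))
  obtain ⟨τ, hτ1, hτ2⟩ := (hev.and (eventually_ge_atTop (3 * C))).exists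
  have hτ3 : 3 ≤ τ := by linarith
  obtain ⟨J, _, q, g, N, hq0, hq1, hgΓ, hgL, _, _, hsm, hdyn, _⟩ := hstop τ (by linarith)
  have hτ0 : 0 ≤ τ := by linarith
  have hcont := XLg_cont A hτ0
  have hid := XLg_stat_real hst hdyn hcont
  -- lower bound for each term
  have hterm : ∀ j, (if Lg (g j) < τ then 0 else q j * (c2 * (3 / 4))) ≤
      q j * ∫ ξ, pm A ((g j • ξ) • rad τ) ∂ν := by
    intro j
    have hint : Integrable (fun ξ : Circle => pm A ((g j • ξ) • rad τ)) ν :=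
      Continuous.integrable_of_hasCompactSupport
        (hcont.comp (continuous_smul_circle (g j))) (HasCompactSupport.of_compactSpace _)
    have hnn : 0 ≤ ∫ ξ, pm A ((g j • ξ) • rad τ) ∂ν :=
      integral_nonneg fun ξ => pm_nonneg A _
    split_ifs with hj
    · exact mul_nonneg (hq0 j) hnn
    · push Not at hj
      apply mul_le_mul_of_nonneg_left _ (hq0 j)
      set S : Set Circle := {ξ : Circle | ‖(ξ : ℂ) - (((g j)⁻¹ • (0 : 𝔻) : 𝔻) : ℂ)‖ < δ} with hS
      have hSm : MeasurableSet S := by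
        apply IsOpen.measurableSet
        exact isOpen_lt (by fun_prop) continuous_const
      have hpt : ∀ ξ ∈ Sᶜ, c2 ≤ pm A ((g j • ξ) • rad τ) := by
        intro ξ hξ
        have hξ' : δ ≤ ‖(ξ : ℂ) - (((g j)⁻¹ • (0 : 𝔻) : 𝔻) : ℂ)‖ := not_lt.1 hξ
        have h1 := hD (g j) ξ τ hτ0 hj (hgL j) hξ'
        have h2 := pm_harnack A ((g j • ξ) • rad τ) (g j • (0 : 𝔻))
        rw [dL_comm] at h2
        have h3 := horb (g j) (hgΓ j)
        have h4 := pm_nonneg A ((g j • ξ) • rad τ)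
        rw [hc2, div_le_iff₀ (by positivity)]
        calc c1 ≤ pm A (g j • (0 : 𝔻)) := h3
          _ ≤ 4 * Real.exp (dL (g j • (0 : 𝔻)) ((g j • ξ) • rad τ)) *
              pm A ((g j • ξ) • rad τ) := h2
          _ ≤ 4 * Real.exp D * pm A ((g j • ξ) • rad τ) := by
              apply mul_le_mul_of_nonneg_right _ h4
              have := Real.exp_le_exp.2 h1
              linarith
          _ = pm A ((g j • ξ) • rad τ) * (4 * Real.exp D) := by ring
      have hmass : 3 / 4 ≤ ν.real Sᶜ := by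
        have h1 := measureReal_compl (μ := ν) hSm
        rw [h1, probReal_univ]
        have h2 := hδ' (((g j)⁻¹ • (0 : 𝔻) : 𝔻) : ℂ)
        linarith
      calc c2 * (3 / 4) ≤ c2 * ν.real Sᶜ := mul_le_mul_of_nonneg_left hmass hc2pos.le
        _ = ∫ _ξ in Sᶜ, c2 ∂ν := by
            rw [setIntegral_const, smul_eq_mul, mul_comm]
        _ ≤ ∫ ξ in Sᶜ, pm A ((g j • ξ) • rad τ) ∂ν :=
            setIntegral_mono_on (integrable_const _) hint.integrableOn hSm.compl hpt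
        _ ≤ ∫ ξ, pm A ((g j • ξ) • rad τ) ∂ν :=
            setIntegral_le_integral hint (Eventually.of_forall fun ξ => pm_nonneg A _)
  have hsum := Finset.sum_le_sum (fun j (_ : j ∈ Finset.univ) => hterm j)
  rw [hid] at hsum
  have hsplit : ∑ j, (if Lg (g j) < τ then 0 else q j * (c2 * (3 / 4))) =
      (c2 * (3 / 4)) * (1 - ∑ j, (if Lg (g j) < τ then q j else 0)) := by
    rw [← hq1, ← Finset.sum_sub_distrib, Finset.mul_sum]
    refine Finset.sum_congr rfl fun j _ => ?_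
    split_ifs <;> ring
  rw [hsplit] at hsum
  have hCτ : C / τ ^ 2 ≤ 1 / 9 := by
    rw [div_le_iff₀ (by positivity)]
    nlinarith
  have h9 : 8 / 9 ≤ 1 - ∑ j, (if Lg (g j) < τ then q j else 0) := by linarith
  have h10 : c2 * (3 / 4) * (8 / 9) ≤
      (c2 * (3 / 4)) * (1 - ∑ j, (if Lg (g j) < τ then q j else 0)) :=
    mul_le_mul_of_nonneg_left h9 (by positivity)
  have h11 : ∫ ξ : Circle, pm A (ξ • rad τ) ∂ν < c2 / 2 := hτ1
  nlinarith

end

end Pool.Agent.Lib.MP_b16327_pr
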