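import Pool.Agent.Lib.MP_b16327_pr.XJ
import Pool.Agent.Lib.MP_b16327_pr.XLg
import Pool.Agent.Lib.MP_b16327_pr.XH

/-! # Upper bound for the averages over spheres -/

namespace Pool.Agent.Lib.MP_b16327_pr

open Complex MeasureTheory ComplexConjugate Filter
open scoped Complex.UnitDisc Topology ENNReal

noncomputable section

private theorem XK_density (ν : Measure Circle) [IsProbabilityMeasure ν] (hν : ν ≪ lam) :
    ∃ f : Circle → ℝ, Measurable f ∧ (∀ ξ, 0 ≤ f ξ) ∧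
      ν = lam.withDensity (fun ξ => ENNReal.ofReal (f ξ)) := by
  refine ⟨fun ξ => (ν.rnDeriv lam ξ).toReal, (Measure.measurable_rnDeriv ν lam).ennreal_toReal,
    fun ξ => ENNReal.toReal_nonneg, ?_⟩
  conv_lhs => rw [← Measure.withDensity_rnDeriv_eq ν lam hν]
  apply withDensity_congr_ae
  filter_upwards [Measure.rnDeriv_lt_top ν lam] with ξ hξ
  rw [ENNReal.ofReal_toReal hξ.ne]

private theorem XK_int {ρ : Measure Circle} {f : Circle → ℝ} (hf : Measurable f)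
    (hf0 : ∀ ξ, 0 ≤ f ξ) (Y : Circle → ℝ) :
    ∫ ξ, Y ξ ∂(ρ.withDensity (fun ξ => ENNReal.ofReal (f ξ))) = ∫ ξ, f ξ * Y ξ ∂ρ := by
  rw [integral_withDensity_eq_integral_toReal_smul hf.ennreal_ofReal
    (Eventually.of_forall fun _ => ENNReal.ofReal_lt_top)]
  apply integral_congr_ae
  refine Eventually.of_forall fun ξ => ?_
  dsimp only
  rw [ENNReal.toReal_ofReal (hf0 ξ), smul_eq_mul]

private theorem XK_change (G : SU11) {Y : Circle → ℝ} (hY : Measurable Y) :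
    ∫ ζ, Y (G • ζ) ∂lam = ∫ ξ, Jac G ξ * Y ξ ∂lam := by
  have hm : Measurable (fun ξ : Circle => G • ξ) := (continuous_smul_circle G).measurable
  rw [← integral_map hm.aemeasurable hY.aestronglyMeasurable, map_lam]
  exact XK_int (continuous_Jac G).measurable (fun ξ => (Jac_pos G ξ).le) Y

/-- the weight `ψ` -/
private def XK_psi (f : Circle → ℝ) (G : SU11) (ε₀ : ℝ) (ξ : Circle) : ℝ :=
  if ε₀ < f ξ then Jac G ξ / f ξ else 0

private theorem XK_psi_meas {f : Circle → ℝ} (hf : Measurable f) (G : SU11) (ε₀ : ℝ) :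
    Measurable (XK_psi f G ε₀) :=
  Measurable.ite (measurableSet_lt measurable_const hf)
    ((continuous_Jac G).measurable.div hf) measurable_const

private theorem XK_psi_nonneg {f : Circle → ℝ} (hf0 : ∀ ξ, 0 ≤ f ξ) (G : SU11) (ε₀ : ℝ)
    (ξ : Circle) : 0 ≤ XK_psi f G ε₀ ξ := by
  unfold XK_psi
  split_ifs
  · exact div_nonneg (Jac_pos G ξ).le (hf0 ξ)
  · exact le_rfl

private theorem XK_psi_le {f : Circle → ℝ} (G : SU11) {ε₀ : ℝ} (hε : 0 < ε₀)
    (ξ : Circle) : XK_psi f G ε₀ ξ ≤ 4 * Real.exp (Lg G) / ε₀ := by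
  unfold XK_psi
  split_ifs with h
  · exact div_le_div₀ (by positivity) (Jac_le G ξ) hε h.le
  · positivity

private theorem XK_psi_int {f : Circle → ℝ} (hf : Measurable f) (hf0 : ∀ ξ, 0 ≤ f ξ)
    {ν : Measure Circle} (hν : ν = lam.withDensity (fun ξ => ENNReal.ofReal (f ξ)))
    (G : SU11) {ε₀ : ℝ} (hε : 0 < ε₀) {Y : Circle → ℝ} (hY : Measurable Y) :
    ∫ ξ, XK_psi f G ε₀ ξ * Y ξ ∂ν =
      ∫ ζ, (if ε₀ < f (G • ζ) then Y (G • ζ) else 0) ∂lam := by
  have hY' : Measurable (fun ξ => if ε₀ < f ξ then Y ξ else 0) :=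
    Measurable.ite (measurableSet_lt measurable_const hf) hY measurable_const
  have h1 := XK_change G hY'
  rw [h1, hν, XK_int hf hf0]
  apply integral_congr_ae
  refine Eventually.of_forall fun ξ => ?_
  dsimp only
  unfold XK_psi
  by_cases h : ε₀ < f ξ
  · rw [if_pos h, if_pos h]
    have : f ξ ≠ 0 := (hε.trans h).ne'
    field_simp
  · rw [if_neg h, if_neg h]
    ring

/-- continuity of measures -/
private theorem XK_small {F : Circle → ℝ} (hF : Measurable F) {a : ℝ} (ha : 0 < a)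
    (h : lam.real {ζ : Circle | F ζ ≤ 0} < a) :
    ∃ ε₀ : ℝ, 0 < ε₀ ∧ lam.real {ζ : Circle | F ζ ≤ ε₀} ≤ a := by
  have hs : ∀ n : ℕ, MeasurableSet {ζ : Circle | F ζ ≤ 1 / ((n : ℝ) + 1)} :=
    fun n => measurableSet_le hF measurable_const
  have h1 : Tendsto (fun n : ℕ => lam {ζ : Circle | F ζ ≤ 1 / ((n : ℝ) + 1)}) atTop
      (𝓝 (lam (⋂ n : ℕ, {ζ : Circle | F ζ ≤ 1 / ((n : ℝ) + 1)}))) := by
    apply tendsto_measure_iInter_atTop (fun n => (hs n).nullMeasurableSet)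
    · intro m n hmn ζ hζ
      have hmn' : (m : ℝ) ≤ n := by exact_mod_cast hmn
      have h5 : F ζ ≤ 1 / ((n : ℝ) + 1) := hζ
      have h6 : 1 / ((n : ℝ) + 1) ≤ 1 / ((m : ℝ) + 1) :=
        one_div_le_one_div_of_le (by positivity) (by linarith)
      exact h5.trans h6
    · exact ⟨0, measure_ne_top _ _⟩
  have h2 : (⋂ n : ℕ, {ζ : Circle | F ζ ≤ 1 / ((n : ℝ) + 1)}) = {ζ : Circle | F ζ ≤ 0} := by
    ext ζ
    rw [Set.mem_iInter]
    constructor
    · intro h3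
      change F ζ ≤ 0
      by_contra h4
      push Not at h4
      obtain ⟨n, hn⟩ := exists_nat_one_div_lt h4
      have h5 : F ζ ≤ 1 / ((n : ℝ) + 1) := h3 n
      linarith
    · intro h3 n
      have h4 : F ζ ≤ 0 := h3
      exact h4.trans (by positivity)
  rw [h2] at h1
  have h3 : lam {ζ : Circle | F ζ ≤ 0} < ENNReal.ofReal a := by
    rw [← ENNReal.ofReal_toReal (measure_ne_top lam {ζ : Circle | F ζ ≤ 0})]
    exact (ENNReal.ofReal_lt_ofReal_iff ha).2 h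
  obtain ⟨n, hn⟩ := (h1.eventually (gt_mem_nhds h3)).exists
  refine ⟨1 / ((n : ℝ) + 1), by positivity, ?_⟩
  exact ENNReal.toReal_le_of_le_ofReal ha.le hn.le

/-- UPPER BOUND.  `ν = f λ`, `C3 = 5 C2` (`C2` from `ray_average`).  Given `z, B, η`:
`γ` from `exists_gamma` for `A = {f ≤ 0}` (`ν A = 0`) with `pm A (γ z) ≤ η/(8B)`, `G = γ tr z`;
`ray G τ F ζ = ray (tr z) τ F ζ` by invariance of `F = min hG B`.  Choose `ε₀ > 0` with
`λ{ζ : f(G ζ) ≤ ε₀} ≤ η/(4B)` (`pm_smul_zero`, continuity of measures).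
`ψ(ξ) = 1_{f(ξ) > ε₀} Jac G ξ / f ξ ≤ K := 4 e^{L(G)} / ε₀`, `∫ ψ Y dν = ∫ 1_{f(Gζ) > ε₀} Y(Gζ) dλ`
(`map_lam`), `∫ ψ dν ≤ 1`.  `ray_average` with `ε` such that `B K ε ≤ η/8` (`small_arcs`),
`n = ⌈5 τ⌉₊`, and `escape'`:
`∫ ray (tr z) τ F dλ ≤ CG + C2 (5 τ + 1) + B τ K (ε + ε') + B τ η/(4B)`. -/
theorem upper (W : Walk) {Γ : Subgroup SU11} (hΓ : ∀ i, W.h i ∈ Γ)
    (hdrift : ∀ g, Lg g + 1 ≤ ∑ i, W.p i * Lg (g * W.h i))
    (ν : Measure Circle) [IsProbabilityMeasure ν] (hν : ν ≪ lam) (hst : W.Stat ν) :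
    ∃ C3 : ℝ, 0 ≤ C3 ∧ ∀ (z : 𝔻) (B η : ℝ), 1 ≤ B → 0 < η → ∃ τ₀ : ℝ, ∀ τ : ℝ, τ₀ ≤ τ →
      ∫ ζ, ray (tr z) τ (fun w => min (hG Γ w) B) ζ ∂lam ≤ (C3 + η) * τ := by
  obtain ⟨C2, hC2, hav⟩ := ray_average W hΓ
  obtain ⟨f, hf, hf0, hνf⟩ := XK_density ν hν
  refine ⟨5 * C2, by positivity, ?_⟩
  intro z B η hB hη
  have hB0 : 0 < B := by linarith
  have hA : MeasurableSet {ξ : Circle | f ξ ≤ 0} := measurableSet_le hf measurable_const
  have hνA : ν {ξ : Circle | f ξ ≤ 0} = 0 := by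
    rw [hνf, withDensity_apply _ hA]
    rw [lintegral_eq_zero_iff' hf.ennreal_ofReal.aemeasurable]
    rw [Filter.EventuallyEq, ae_restrict_iff' hA]
    refine Eventually.of_forall fun ξ hξ => ?_
    exact ENNReal.ofReal_of_nonpos hξ
  obtain ⟨γ, hγ, hpm⟩ := exists_gamma W hΓ hdrift ν hν hst hA hνA z
    (show 0 < η / (8 * B) by positivity)
  obtain ⟨G, hGdef⟩ : ∃ G : SU11, G = γ * tr z := ⟨_, rfl⟩
  have hG0 : γ • z = G • (0 : 𝔻) := by rw [hGdef, mul_smul, tr_smul_zero]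
  rw [hG0, pm_smul_zero hA] at hpm
  have hmG : Measurable (fun ξ : Circle => G • ξ) := (continuous_smul_circle G).measurable
  have hfG : Measurable (fun ζ : Circle => f (G • ζ)) := hf.comp hmG
  have hpm2 : lam.real {ζ : Circle | f (G • ζ) ≤ 0} < η / (4 * B) := by
    refine lt_of_le_of_lt hpm ?_
    rw [div_lt_div_iff₀ (by positivity) (by positivity)]
    nlinarith [mul_pos hη hB0]
  obtain ⟨ε₀, hε₀, hsmall⟩ := XK_small hfG (by positivity) hpm2
  -- the function F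
  obtain ⟨F, hF⟩ : ∃ F : 𝔻 → ℝ, F = fun w => min (hG Γ w) B := ⟨_, rfl⟩
  have hFm : Measurable F := by
    rw [hF]
    exact (measurable_hG Γ).min measurable_const
  have hF0 : ∀ w, 0 ≤ F w := by
    intro w
    rw [hF]
    exact le_min (by linarith [one_le_hG Γ w]) hB0.le
  have hFB : ∀ w, F w ≤ B := by
    intro w
    rw [hF]
    exact min_le_right _ _
  have hFinv : ∀ w, F (γ • w) = F w := by
    intro w
    rw [hF]
    dsimp only
    rw [hG_smul hγ]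
  have hray : ∀ (τ : ℝ) (ζ : Circle), ray (tr z) τ F ζ = ray G τ F ζ := by
    intro τ ζ
    unfold ray
    congr 1
    funext t
    rw [hGdef, mul_smul, hFinv]
  -- the constants
  obtain ⟨K, hK⟩ : ∃ K : ℝ, K = 4 * Real.exp (Lg G) / ε₀ := ⟨_, rfl⟩
  have hK0 : 0 < K := by rw [hK]; positivity
  obtain ⟨CG, hCG, hav2⟩ := hav G
  obtain ⟨ε, hε⟩ : ∃ ε : ℝ, ε = η / (8 * (B * K)) := ⟨_, rfl⟩
  have hε0 : 0 < ε := by rw [hε]; positivity
  have hBKε : B * K * ε = η / 8 := by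
    rw [hε]
    field_simp
  obtain ⟨δ, hδ, -, hsm⟩ := small_arcs ν hν hε0
  obtain ⟨Cδ, hav3⟩ := hav2 δ hδ
  obtain ⟨τ₁, hesc⟩ := escape' W hdrift hε0 Cδ
  refine ⟨max (max τ₁ 0) ((CG + C2) / (η / 2)), fun τ hτ => ?_⟩
  have hτ1 : τ₁ ≤ τ := le_trans (le_trans (le_max_left _ _) (le_max_left _ _)) hτ
  have hτ0 : 0 ≤ τ := le_trans (le_trans (le_max_right _ _) (le_max_left _ _)) hτ
  have hτ2 : CG + C2 ≤ τ * (η / 2) := by
    have h1 : (CG + C2) / (η / 2) ≤ τ := le_trans (le_max_right _ _) hτ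
    rwa [div_le_iff₀ (by positivity)] at h1
  have hsum := hesc τ hτ1
  obtain ⟨n, hn⟩ : ∃ n : ℕ, n = ⌈5 * τ⌉₊ := ⟨_, rfl⟩
  rw [← hn] at hsum
  have hn5 : (n : ℝ) ≤ 5 * τ + 1 := by
    rw [hn]
    exact (Nat.ceil_lt_add_one (by positivity)).le
  have hrm : Measurable (ray G τ F) := measurable_ray G τ hFm
  have hr0 : ∀ ζ, 0 ≤ ray G τ F ζ := ray_nonneg G hτ0 hF0
  have hrB : ∀ ζ, ray G τ F ζ ≤ B * τ := ray_le G hτ0 hFm hF0 hFB
  -- the average
  have hav4 := hav3 ν inferInstance hst B ε K τ hB hε0.le hK0.le hτ0 hsm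
    (XK_psi f G ε₀) (XK_psi_meas hf G ε₀) (XK_psi_nonneg hf0 G ε₀)
    (fun ξ => by rw [hK]; exact XK_psi_le G hε₀ ξ) n
  rw [← hF] at hav4
  have hψ1 : ∫ ξ, XK_psi f G ε₀ ξ ∂ν ≤ 1 := by
    have h1 := XK_psi_int hf hf0 hνf G hε₀ (Y := fun _ => (1 : ℝ)) measurable_const
    simp only [mul_one] at h1
    rw [h1]
    have h2 : ∫ ζ, (if ε₀ < f (G • ζ) then (1 : ℝ) else 0) ∂lam ≤ ∫ _ζ : Circle, (1 : ℝ) ∂lam := by
      apply integral_mono_of_nonneg
      · refine Eventually.of_forall fun ζ => ?_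
        dsimp only
        split_ifs <;> simp
      · exact integrable_const _
      · refine Eventually.of_forall fun ζ => ?_
        dsimp only
        split_ifs <;> simp
    refine h2.trans ?_
    simp
  have hYm : Measurable (fun ξ : Circle => ray G τ F (G⁻¹ • ξ)) :=
    hrm.comp (continuous_smul_circle G⁻¹).measurable
  have hψ2 := XK_psi_int hf hf0 hνf G hε₀ hYm
  simp only [inv_smul_smul] at hψ2
  rw [hψ2] at hav4
  -- splitting
  have hset : MeasurableSet {ζ : Circle | f (G • ζ) ≤ ε₀} := measurableSet_le hfG measurable_const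
  have hset2 : MeasurableSet {ζ : Circle | ε₀ < f (G • ζ)} := measurableSet_lt measurable_const hfG
  have hi1 : Integrable (fun ζ : Circle => if ε₀ < f (G • ζ) then ray G τ F ζ else 0) lam := by
    refine Integrable.of_bound (Measurable.ite hset2 hrm measurable_const).aestronglyMeasurable
      (B * τ) (Eventually.of_forall fun ζ => ?_)
    split_ifs
    · rw [Real.norm_of_nonneg (hr0 ζ)]
      exact hrB ζ
    · rw [norm_zero]
      positivity
  have hi2 : Integrable (fun ζ : Circle =>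
      Set.indicator {ζ : Circle | f (G • ζ) ≤ ε₀} (fun _ => B * τ) ζ) lam :=
    (integrable_const (B * τ)).indicator hset
  have hsplit : ∫ ζ, ray G τ F ζ ∂lam ≤
      ∫ ζ, ((if ε₀ < f (G • ζ) then ray G τ F ζ else 0) +
        Set.indicator {ζ : Circle | f (G • ζ) ≤ ε₀} (fun _ => B * τ) ζ) ∂lam := by
    apply integral_mono_of_nonneg (Eventually.of_forall hr0) (hi1.add hi2)
    refine Eventually.of_forall fun ζ => ?_
    rw [Pi.add_apply]
    by_cases h : ε₀ < f (G • ζ)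
    · rw [if_pos h]
      have : 0 ≤ Set.indicator {ζ : Circle | f (G • ζ) ≤ ε₀} (fun _ => B * τ) ζ :=
        Set.indicator_nonneg (fun _ _ => by positivity) ζ
      linarith
    · rw [if_neg h, Set.indicator_of_mem (show ζ ∈ {ζ : Circle | f (G • ζ) ≤ ε₀} from not_lt.1 h)]
      linarith [hrB ζ]
  rw [integral_add hi1 hi2, integral_indicator hset, setIntegral_const, smul_eq_mul] at hsplit
  have h3 : lam.real {ζ : Circle | f (G • ζ) ≤ ε₀} * (B * τ) ≤ τ * (η / 4) := by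
    have h4 : lam.real {ζ : Circle | f (G • ζ) ≤ ε₀} * (B * τ) ≤ η / (4 * B) * (B * τ) :=
      mul_le_mul_of_nonneg_right hsmall (by positivity)
    have h5 : η / (4 * B) * (B * τ) = τ * (η / 4) := by
      field_simp
    linarith
  have h6 : (CG + C2 * n) * ∫ ξ, XK_psi f G ε₀ ξ ∂ν ≤ CG + C2 * (5 * τ + 1) := by
    have h7 : (CG + C2 * n) * ∫ ξ, XK_psi f G ε₀ ξ ∂ν ≤ (CG + C2 * n) * 1 :=
      mul_le_mul_of_nonneg_left hψ1 (by positivity)
    have h8 : C2 * n ≤ C2 * (5 * τ + 1) := mul_le_mul_of_nonneg_left hn5 hC2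
    linarith
  have h9 : B * τ * K * (ε + ∑ i, (if Lg ((W.pow n).h i) < τ + Cδ then (W.pow n).p i else 0)) ≤
      τ * (η / 4) := by
    have h10 : B * τ * K * (ε + ∑ i, (if Lg ((W.pow n).h i) < τ + Cδ then (W.pow n).p i else 0)) ≤
        B * τ * K * (ε + ε) :=
      mul_le_mul_of_nonneg_left (by linarith) (by positivity)
    have h11 : B * τ * K * (ε + ε) = 2 * τ * (B * K * ε) := by ring
    rw [h11, hBKε] at h10
    linarith
  have h12 : ∫ ζ, ray (tr z) τ F ζ ∂lam = ∫ ζ, ray G τ F ζ ∂lam := by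
    congr 1
    funext ζ
    exact hray τ ζ
  rw [← hF, h12]
  nlinarith

end

end Pool.Agent.Lib.MP_b16327_pr
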