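import Pool.Agent.Lib.MP_b16327_pr.Stop
import Pool.Agent.Lib.MP_b16327_pr.CompA

/-! # Poisson integrals of sets and orbit points -/

namespace Pool.Agent.Lib.MP_b16327_pr

open Complex MeasureTheory ComplexConjugate Filter
open scoped Complex.UnitDisc Topology ENNReal

noncomputable section

/-- Harnack: `tr w = tr z * h`, `L(h) = dL z w`, `Jac_mul`, `Jac_le` -/
theorem Jac_harnack {g g' : SU11} (ξ : Circle) :
    Jac g' ξ ≤ 4 * Real.exp (dL (g • (0 : 𝔻)) (g' • (0 : 𝔻))) * Jac g ξ := by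
  have h1 : g' = g * (g⁻¹ * g') := by rw [mul_inv_cancel_left]
  have h2 : Lg (g⁻¹ * g') = dL (g • (0 : 𝔻)) (g' • (0 : 𝔻)) := by
    rw [← dL_smul_zero, ← dL_smul g, ← mul_smul, mul_inv_cancel_left, dL_comm]
  have h3 : Jac g' ξ = Jac g ξ * Jac (g⁻¹ * g') (g⁻¹ • ξ) := by
    conv_lhs => rw [h1]
    exact Jac_mul _ _ _
  rw [h3, ← h2, mul_comm]
  exact mul_le_mul_of_nonneg_right (Jac_le _ _) (Jac_pos _ _).le

/-- Poisson integral of the indicator function of `A` -/
def pm (A : Set Circle) (z : 𝔻) : ℝ := ∫ ξ in A, Jac (tr z) ξ ∂lam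

theorem pm_nonneg (A : Set Circle) (z : 𝔻) : 0 ≤ pm A z :=
  integral_nonneg fun _ => (Jac_pos _ _).le

private theorem XL_Jac_congr {g g' : SU11} (h : g • (0 : 𝔻) = g' • (0 : 𝔻)) (ξ : Circle) :
    Jac g ξ = Jac g' ξ := by
  rw [Jac_eq_poisson, Jac_eq_poisson, h]

private theorem XL_integrable (g : SU11) (μ : Measure Circle) [IsFiniteMeasure μ] :
    Integrable (Jac g) μ :=
  Integrable.of_bound (continuous_Jac g).aestronglyMeasurable (4 * Real.exp (Lg g))
    (Eventually.of_forall fun ξ => by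
      rw [Real.norm_of_nonneg (Jac_pos g ξ).le]
      exact Jac_le g ξ)

/-- `Jac g` depends only on `g 0` (`Jac_eq_poisson`); `map_lam` -/
theorem pm_smul_zero {A : Set Circle} (hA : MeasurableSet A) (g : SU11) :
    pm A (g • (0 : 𝔻)) = lam.real {ζ : Circle | g • ζ ∈ A} := by
  have h1 : pm A (g • (0 : 𝔻)) = ∫ ξ in A, Jac g ξ ∂lam := by
    unfold pm
    exact integral_congr_ae (Eventually.of_forall fun ξ => XL_Jac_congr (tr_smul_zero _) ξ)
  have hm : Measurable (fun ξ : Circle => g • ξ) := (continuous_smul_circle g).measurable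
  have h2 : lam {ζ : Circle | g • ζ ∈ A} = ∫⁻ ξ in A, ENNReal.ofReal (Jac g ξ) ∂lam := by
    have h3 : {ζ : Circle | g • ζ ∈ A} = (fun ξ : Circle => g • ξ) ⁻¹' A := rfl
    rw [h3, ← Measure.map_apply hm hA, map_lam, withDensity_apply _ hA]
  rw [h1, Measure.real, h2, integral_eq_lintegral_of_nonneg_ae
    (Eventually.of_forall fun ξ => (Jac_pos g ξ).le) (continuous_Jac g).aestronglyMeasurable]

theorem pm_harnack (A : Set Circle) (z w : 𝔻) :
    pm A w ≤ 4 * Real.exp (dL z w) * pm A z := by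
  unfold pm
  rw [← integral_const_mul]
  refine integral_mono (XL_integrable _ _) ((XL_integrable _ _).const_mul _) fun ξ => ?_
  have h := Jac_harnack (g := tr z) (g' := tr w) ξ
  rw [tr_smul_zero, tr_smul_zero] at h
  exact h

/-- continuity of translations -/
private theorem XL_translate (A : Set Circle) (ν : Measure Circle)
    [IsProbabilityMeasure ν] (hν : ν ≪ lam) :
    Tendsto (fun u : Circle => ν.real {ξ : Circle | ξ * u ∈ A}) (𝓝 1) (𝓝 (ν.real A)) := by
  have hinv : SMulInvariantMeasure Circle Circle lam := by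
    refine ⟨fun c s hs => ?_⟩
    have hcm : Measurable (fun η : Circle => c * η) :=
      (continuous_const.mul continuous_id).measurable
    conv_rhs => rw [← lam_rot c]
    rw [Measure.map_apply hcm hs]
    rfl
  have hne : Fact ((1 : ℝ≥0∞) ≠ ⊤) := ⟨ENNReal.one_ne_top⟩
  have hf : Integrable (fun ξ => (ν.rnDeriv lam ξ).toReal) lam := Measure.integrable_toReal_rnDeriv
  obtain ⟨f, hfdef⟩ : ∃ f : Circle → ℝ, f = fun ξ => (ν.rnDeriv lam ξ).toReal := ⟨_, rfl⟩
  rw [← hfdef] at hf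
  have hfm : MemLp f 1 lam := memLp_one_iff_integrable.2 hf
  have key : ∀ u : Circle, ν.real {ξ : Circle | ξ * u ∈ A} =
      ∫ η in A, (DomMulAct.mk u⁻¹ • hfm.toLp f : Lp ℝ 1 lam) η ∂lam := by
    intro u
    have e1 : ∫ η in A, (DomMulAct.mk u⁻¹ • hfm.toLp f : Lp ℝ 1 lam) η ∂lam =
        ∫ η in A, f (u⁻¹ * η) ∂lam := by
      refine integral_congr_ae (ae_restrict_of_ae ?_)
      rw [DomMulAct.mk_smul_toLp]
      exact MemLp.coeFn_toLp _
    have hmp : MeasurePreserving (fun ξ : Circle => u * ξ) lam lam :=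
      ⟨(continuous_const.mul continuous_id).measurable, lam_rot u⟩
    have e2 := hmp.setIntegral_preimage_emb (Homeomorph.mulLeft u).measurableEmbedding
      (fun η => f (u⁻¹ * η)) A
    rw [e1, ← e2]
    have e3 : (fun ξ : Circle => u * ξ) ⁻¹' A = {ξ : Circle | ξ * u ∈ A} := by
      ext ξ
      show u * ξ ∈ A ↔ ξ * u ∈ A
      rw [mul_comm]
    rw [e3]
    simp only [inv_mul_cancel_left]
    rw [hfdef, Measure.setIntegral_toReal_rnDeriv hν]
  have hcont : Continuous (fun u : Circle => ν.real {ξ : Circle | ξ * u ∈ A}) := by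
    have h1 : (fun u : Circle => ν.real {ξ : Circle | ξ * u ∈ A}) =
        fun u => ∫ η in A, (DomMulAct.mk u⁻¹ • hfm.toLp f : Lp ℝ 1 lam) η ∂lam := funext key
    rw [h1]
    refine (continuous_setIntegral A).comp ?_
    have h2 : Continuous (fun u : Circle => DomMulAct.mk u⁻¹) :=
      DomMulAct.continuous_mk.comp continuous_inv
    exact h2.smul continuous_const
  have h3 := hcont.tendsto 1
  simpa using h3

/-- the point `-1` has measure zero -/
private theorem XL_lam_neg_one : lam {ζ : Circle | (ζ : ℂ) = -1} = 0 := by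
  obtain ⟨C, hC, h⟩ := lam_arc_le
  refine le_antisymm (ENNReal.le_of_forall_pos_le_add fun ε hε _ => ?_) zero_le
  have hε' : (0 : ℝ) < ε := by exact_mod_cast hε
  rw [zero_add]
  have h1 := h (-1) (ε / C) (by positivity)
  rw [mul_div_cancel₀ _ hC.ne', ENNReal.ofReal_coe_nnreal] at h1
  refine (measure_mono fun ζ hζ => ?_).trans h1
  have hζ' : (ζ : ℂ) = -1 := hζ
  show ‖(ζ : ℂ) - -1‖ < ε / C
  rw [hζ', sub_self, norm_zero]
  positivity

private theorem XL_coe_rad {τ : ℝ} (hτ : 0 ≤ τ) :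
    ((rad τ : 𝔻) : ℂ) = (Real.sqrt (1 - Real.exp (-τ)) : ℝ) := by
  unfold rad
  rw [dif_pos hτ]
  rfl

private theorem XL_coe_tr (z : 𝔻) (ζ : Circle) :
    ((tr z • ζ : Circle) : ℂ) = ((ζ : ℂ) + z) / (1 + conj (z : ℂ) * ζ) := by
  have h := UnitDisc.sq_norm_lt_one z
  have h1 : 0 < 1 - ‖(z : ℂ)‖ ^ 2 := by linarith
  have hc : (((Real.sqrt (1 - ‖(z : ℂ)‖ ^ 2))⁻¹ : ℝ) : ℂ) ≠ 0 := by
    rw [Ne, Complex.ofReal_eq_zero]
    positivity
  rw [coe_smul_circle]
  show ((((Real.sqrt (1 - ‖(z : ℂ)‖ ^ 2))⁻¹ : ℝ) : ℂ) * ζ +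
    (((Real.sqrt (1 - ‖(z : ℂ)‖ ^ 2))⁻¹ : ℝ) : ℂ) * z) /
    (conj ((((Real.sqrt (1 - ‖(z : ℂ)‖ ^ 2))⁻¹ : ℝ) : ℂ) * z) * ζ +
      conj (((Real.sqrt (1 - ‖(z : ℂ)‖ ^ 2))⁻¹ : ℝ) : ℂ)) = _
  rw [map_mul, Complex.conj_ofReal, ← mul_add, mul_assoc,
    show ∀ c a b : ℂ, c * (a * b) + c = c * (1 + a * b) from fun c a b => by ring,
    mul_div_mul_left _ _ hc]

private theorem XL_tendsto {ζ : Circle} (hζ : (ζ : ℂ) ≠ -1) :
    Tendsto (fun τ : ℝ => tr (rad τ) • ζ) atTop (𝓝 1) := by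
  refine (Topology.IsInducing.subtypeVal.tendsto_nhds_iff).2 ?_
  show Tendsto (fun τ : ℝ => ((tr (rad τ) • ζ : Circle) : ℂ)) atTop (𝓝 ((1 : Circle) : ℂ))
  have hr : Tendsto (fun τ : ℝ => ((Real.sqrt (1 - Real.exp (-τ)) : ℝ) : ℂ)) atTop (𝓝 1) := by
    have h1 : Tendsto (fun τ : ℝ => Real.sqrt (1 - Real.exp (-τ))) atTop (𝓝 (Real.sqrt (1 - 0))) :=
      (tendsto_const_nhds.sub Real.tendsto_exp_neg_atTop_nhds_zero).sqrt
    rw [sub_zero, Real.sqrt_one] at h1
    have h2 := (Complex.continuous_ofReal.tendsto 1).comp h1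
    rw [Complex.ofReal_one] at h2
    exact h2
  have hne : (1 : ℂ) + 1 * ζ ≠ 0 := by
    intro h
    apply hζ
    linear_combination h
  have h1 : Tendsto (fun τ : ℝ => ((ζ : ℂ) + ((Real.sqrt (1 - Real.exp (-τ)) : ℝ) : ℂ)) /
      (1 + ((Real.sqrt (1 - Real.exp (-τ)) : ℝ) : ℂ) * ζ)) atTop (𝓝 (((ζ : ℂ) + 1) / (1 + 1 * ζ))) :=
    (tendsto_const_nhds.add hr).div (tendsto_const_nhds.add (hr.mul tendsto_const_nhds)) hne
  have h2 : ((ζ : ℂ) + 1) / (1 + 1 * ζ) = ((1 : Circle) : ℂ) := by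
    rw [Circle.coe_one, div_eq_one_iff_eq hne]
    ring
  rw [h2] at h1
  refine h1.congr' ?_
  filter_upwards [eventually_ge_atTop (0 : ℝ)] with τ hτ
  rw [XL_coe_tr, XL_coe_rad hτ, Complex.conj_ofReal]

/-- radial convergence in the mean: with `ν = f λ` and the symmetry
`Jac (tr (rξ)) η = Jac (tr (rη)) ξ` (`(1-r²)/|η - rξ|²`),
`∫ pm A (ξ rad τ) dν = ∫_A (P_r f)(η) dλ(η)` and `P_r f → f` in `L¹(λ)` (true uniformly for
continuous `f`, which are dense, and `‖P_r f‖₁ ≤ ‖f‖₁`) -/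
theorem radial_mass {A : Set Circle} (hA : MeasurableSet A) (ν : Measure Circle)
    [IsProbabilityMeasure ν] (hν : ν ≪ lam) :
    Tendsto (fun τ : ℝ => ∫ ξ : Circle, pm A (ξ • rad τ) ∂ν) atTop (𝓝 (ν.real A)) := by
  have hmeas : ∀ τ : ℝ, Measurable (fun p : Circle × Circle => p.1 * (tr (rad τ) • p.2)) := by
    intro τ
    exact (continuous_fst.mul ((continuous_smul_circle _).comp continuous_snd)).measurable
  have h1 : ∀ τ : ℝ, ∫ ξ : Circle, pm A (ξ • rad τ) ∂ν =
      ∫ ζ : Circle, ν.real {ξ : Circle | ξ * (tr (rad τ) • ζ) ∈ A} ∂lam := by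
    intro τ
    have e1 : ∀ ξ : Circle, pm A (ξ • rad τ) =
        ∫ ζ : Circle, A.indicator (fun _ => (1 : ℝ)) (ξ * (tr (rad τ) • ζ)) ∂lam := by
      intro ξ
      have e2 : ξ • rad τ = (rotG ξ * tr (rad τ)) • (0 : 𝔻) := by
        rw [mul_smul, tr_smul_zero, rotG_smul]
      rw [e2, pm_smul_zero hA]
      have e3 : {ζ : Circle | (rotG ξ * tr (rad τ)) • ζ ∈ A} =
          {ζ : Circle | ξ * (tr (rad τ) • ζ) ∈ A} := by
        ext ζ
        show (rotG ξ * tr (rad τ)) • ζ ∈ A ↔ ξ * (tr (rad τ) • ζ) ∈ A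
        rw [mul_smul, rotG_smul_circle]
      rw [e3]
      have e4 : MeasurableSet {ζ : Circle | ξ * (tr (rad τ) • ζ) ∈ A} :=
        (continuous_const.mul (continuous_smul_circle _)).measurable hA
      rw [← integral_indicator_one e4]
      rfl
    have e5 : ∀ ζ : Circle, ν.real {ξ : Circle | ξ * (tr (rad τ) • ζ) ∈ A} =
        ∫ ξ : Circle, A.indicator (fun _ => (1 : ℝ)) (ξ * (tr (rad τ) • ζ)) ∂ν := by
      intro ζ
      have e4 : MeasurableSet {ξ : Circle | ξ * (tr (rad τ) • ζ) ∈ A} :=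
        (continuous_id.mul continuous_const).measurable hA
      rw [← integral_indicator_one e4]
      rfl
    simp only [e1, e5]
    apply integral_integral_swap
    refine Integrable.of_bound (C := 1) ?_ (Eventually.of_forall fun p => ?_)
    · exact ((measurable_const.indicator hA).comp (hmeas τ)).aestronglyMeasurable
    · show ‖A.indicator (fun _ => (1 : ℝ)) (p.1 * (tr (rad τ) • p.2))‖ ≤ 1
      by_cases hp : p.1 * (tr (rad τ) • p.2) ∈ A
      · rw [Set.indicator_of_mem hp, norm_one]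
      · rw [Set.indicator_of_notMem hp, norm_zero]
        exact zero_le_one
  have h2 : ν.real A = ∫ _ζ : Circle, ν.real A ∂lam := by
    rw [integral_const, probReal_univ, one_smul]
  simp only [h1]
  rw [h2]
  refine tendsto_integral_filter_of_dominated_convergence (fun _ => (1 : ℝ))
    (Eventually.of_forall fun τ => ?_) (Eventually.of_forall fun τ =>
      Eventually.of_forall fun ζ => ?_) (integrable_const _) ?_
  · have e6 : Measurable (fun ζ : Circle => ν {ξ : Circle | ξ * (tr (rad τ) • ζ) ∈ A}) :=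
      measurable_measure_prodMk_right (hmeas τ hA)
    exact e6.ennreal_toReal.aestronglyMeasurable
  · rw [Real.norm_of_nonneg measureReal_nonneg]
    exact measureReal_le_one
  · have e7 : ∀ᵐ ζ : Circle ∂lam, (ζ : ℂ) ≠ -1 := by
      rw [ae_iff]
      simpa using XL_lam_neg_one
    filter_upwards [e7] with ζ hζ
    exact (XL_translate A ν hν).comp (XL_tendsto hζ)

end

end Pool.Agent.Lib.MP_b16327_pr
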