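import Pool.Agent.Lib.MP_b16327_pr.XC
import Pool.Agent.Lib.MP_b16327_pr.XDm

/-! # An absolutely continuous stationary measure forces cocompactness -/

namespace Pool.Agent.Lib.MP_b16327_pr

open Complex MeasureTheory ComplexConjugate Filter
open scoped Complex.UnitDisc Topology ENNReal

noncomputable section

private theorem XM_second : SecondCountableTopology 𝔻 :=
  Topology.IsInducing.secondCountableTopology (f := fun z : 𝔻 => (z : ℂ))
      UnitDisc.isEmbedding_coe.isInducing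

private theorem XM_secondCircle : SecondCountableTopology Circle :=
  TopologicalSpace.Subtype.secondCountableTopology _

private theorem XM_At_cont : Continuous (fun t : ℝ => At t • (0 : 𝔻)) := by
  rw [UnitDisc.isEmbedding_coe.continuous_iff]
  have h : (fun z : 𝔻 => (z : ℂ)) ∘ (fun t : ℝ => At t • (0 : 𝔻)) =
      fun t : ℝ => ((Real.sinh (t / 2) : ℝ) : ℂ) / ((Real.cosh (t / 2) : ℝ) : ℂ) := by
    funext t
    simp only [Function.comp, coe_smul, SU11.mob, SU11.den, At, UnitDisc.coe_zero, mul_zero,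
      zero_add, Complex.conj_ofReal]
  rw [h]
  refine Continuous.div (by fun_prop) (by fun_prop) ?_
  intro t
  exact_mod_cast (Real.cosh_pos _).ne'

private theorem XM_comp1 {X : Type*} [TopologicalSpace X] (u : X → Circle) (v : X → 𝔻)
    (hu : Continuous u) (hv : Continuous v) : Continuous (fun x => u x • v x) :=
  continuous_rot_smul.comp (hu.prodMk hv)

private theorem XM_comp2 {X : Type*} [TopologicalSpace X] (u : X → 𝔻) (v : X → 𝔻)
    (hu : Continuous u) (hv : Continuous v) : Continuous (fun x => tr (u x) • v x) := by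
  have h0 : Continuous (fun x => (u x, v x)) := hu.prodMk hv
  have h1 := Continuous.comp continuous_tr_smul h0
  have h2 : (fun p : 𝔻 × 𝔻 => tr p.1 • p.2) ∘ (fun x => (u x, v x)) = fun x => tr (u x) • v x := by
    funext x
    rfl
  rw [h2] at h1
  exact h1

private theorem XM_cont : Continuous (fun p : (𝔻 × ℝ) × Circle =>
    tr p.1.1 • (p.2 • (At p.1.2 • (0 : 𝔻)))) := by
  have h1 : Continuous (fun p : (𝔻 × ℝ) × Circle => At p.1.2 • (0 : 𝔻)) :=
    XM_At_cont.comp (continuous_snd.comp continuous_fst)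
  have h2 := XM_comp1 (fun p : (𝔻 × ℝ) × Circle => p.2) (fun p : (𝔻 × ℝ) × Circle => At p.1.2 • (0 : 𝔻))
    continuous_snd h1
  exact XM_comp2 (fun p : (𝔻 × ℝ) × Circle => p.1.1) _ (continuous_fst.comp continuous_fst) h2

private theorem XM_meas (Γ : Subgroup SU11) (B : ℝ) : Measurable (fun p : (𝔻 × ℝ) × Circle =>
    B - min (hG Γ (tr p.1.1 • (p.2 • (At p.1.2 • (0 : 𝔻))))) B) := by
  have := XM_second
  have := XM_secondCircle
  have h : Measurable (fun p : (𝔻 × ℝ) × Circle =>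
      tr p.1.1 • (p.2 • (At p.1.2 • (0 : 𝔻)))) := XM_cont.measurable
  exact measurable_const.sub (((measurable_hG Γ).comp h).min measurable_const)

private theorem XM_measE (Γ : Subgroup SU11) (B : ℝ) (τ : ℝ) : Measurable (fun z : 𝔻 =>
    ∫⁻ t in Set.Ioc (0 : ℝ) τ, ∫⁻ ξ : Circle,
        ENNReal.ofReal (B - min (hG Γ (tr z • (ξ • (At t • (0 : 𝔻))))) B) ∂lam) := by
  have h := (XM_meas Γ B).ennreal_ofReal
  have h1 := h.lintegral_prod_right' (ν := lam)
  exact h1.lintegral_prod_right' (ν := volume.restrict (Set.Ioc (0 : ℝ) τ))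

/-- passage to `ℝ≥0∞`: for `ψ = B - min hG B ≥ 0`,
`∫⁻ t in Ioc 0 τ, ∫⁻ ξ, ψ (tr z ξ At_t 0) = ofReal (B τ - ∫ ray (tr z) τ (min hG B) dλ)`
(Fubini; everything is bounded) -/
theorem lintegral_ray (Γ : Subgroup SU11) (z : 𝔻) {B : ℝ} (hB : 1 ≤ B) {τ : ℝ} (hτ : 0 ≤ τ) :
    ∫⁻ t in Set.Ioc (0 : ℝ) τ, ∫⁻ ξ : Circle,
        ENNReal.ofReal (B - min (hG Γ (tr z • (ξ • (At t • (0 : 𝔻))))) B) ∂lam =
      ENNReal.ofReal (B * τ - ∫ ζ, ray (tr z) τ (fun w => min (hG Γ w) B) ζ ∂lam) := by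
  classical
  -- the function on the product
  set F : ℝ → Circle → ℝ := fun t ξ =>
    min (hG Γ (tr z • (ξ • (At t • (0 : 𝔻))))) B with hF
  have hm : Measurable (fun p : ℝ × Circle => B - F p.1 p.2) := by
    have h1 : Measurable (fun p : ℝ × Circle => (((z, p.1), p.2) : (𝔻 × ℝ) × Circle)) :=
      (measurable_const.prodMk measurable_fst).prodMk measurable_snd
    have h2 := Measurable.comp (XM_meas Γ B) h1
    have h3 : (fun p : (𝔻 × ℝ) × Circle =>
        B - min (hG Γ (tr p.1.1 • (p.2 • (At p.1.2 • (0 : 𝔻))))) B) ∘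
        (fun p : ℝ × Circle => (((z, p.1), p.2) : (𝔻 × ℝ) × Circle)) =
        fun p : ℝ × Circle => B - F p.1 p.2 := by
      funext p
      rfl
    rw [h3] at h2
    exact h2
  have hmF : Measurable (fun p : ℝ × Circle => F p.1 p.2) := by
    have h1 := (measurable_const (a := B)).sub hm
    have h2 : (fun p : ℝ × Circle => F p.1 p.2) = fun p : ℝ × Circle => B - (B - F p.1 p.2) := by
      funext p; ring
    rw [h2]; exact h1
  have hF0 : ∀ t ξ, 0 ≤ F t ξ := fun t ξ =>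
    le_min (le_trans zero_le_one (one_le_hG Γ _)) (by linarith)
  have hFB : ∀ t ξ, F t ξ ≤ B := fun t ξ => min_le_right _ _
  set μ : Measure ℝ := volume.restrict (Set.Ioc (0 : ℝ) τ) with hμ
  have : IsFiniteMeasure μ := by
    rw [hμ]
    exact ⟨by rw [Measure.restrict_apply_univ, Real.volume_Ioc]; exact ENNReal.ofReal_lt_top⟩
  have hintF : Integrable (fun p : ℝ × Circle => F p.1 p.2) (μ.prod lam) := by
    refine Integrable.of_bound hmF.aestronglyMeasurable B (Eventually.of_forall fun p => ?_)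
    rw [Real.norm_eq_abs, abs_of_nonneg (hF0 _ _)]
    exact hFB _ _
  have hint : Integrable (fun p : ℝ × Circle => B - F p.1 p.2) (μ.prod lam) :=
    (integrable_const B).sub hintF
  have e1 : ∫⁻ t, ∫⁻ ξ : Circle, ENNReal.ofReal (B - F t ξ) ∂lam ∂μ =
      ∫⁻ p, ENNReal.ofReal (B - F p.1 p.2) ∂(μ.prod lam) :=
    (lintegral_prod (fun p : ℝ × Circle => ENNReal.ofReal (B - F p.1 p.2))
      hm.ennreal_ofReal.aemeasurable).symm
  have e2 : ∫⁻ p, ENNReal.ofReal (B - F p.1 p.2) ∂(μ.prod lam) =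
      ENNReal.ofReal (∫ p, (B - F p.1 p.2) ∂(μ.prod lam)) := by
    rw [ofReal_integral_eq_lintegral_ofReal hint]
    exact Eventually.of_forall fun p => sub_nonneg.2 (hFB _ _)
  have e3 : ∫ p, (B - F p.1 p.2) ∂(μ.prod lam) =
      B * τ - ∫ ζ, ray (tr z) τ (fun w => min (hG Γ w) B) ζ ∂lam := by
    rw [integral_sub (integrable_const B) hintF]
    congr 1
    · rw [integral_const]
      have : (μ.prod lam).real Set.univ = τ := by
        rw [Measure.real, ← Set.univ_prod_univ, Measure.prod_prod, hμ, Measure.restrict_apply_univ,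
          Real.volume_Ioc, measure_univ, mul_one, sub_zero, ENNReal.toReal_ofReal hτ]
      rw [this, smul_eq_mul, mul_comm]
    · rw [integral_prod_symm _ hintF]
      refine integral_congr_ae (Eventually.of_forall fun ζ => ?_)
      simp only [ray, intervalIntegral.integral_of_le hτ, hF, hμ]
  have e4 : ∫⁻ t in Set.Ioc (0 : ℝ) τ, ∫⁻ ξ : Circle,
        ENNReal.ofReal (B - min (hG Γ (tr z • (ξ • (At t • (0 : 𝔻))))) B) ∂lam =
      ∫⁻ t, ∫⁻ ξ : Circle, ENNReal.ofReal (B - F t ξ) ∂lam ∂μ := rfl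
  rw [e4, e1, e2, e3]

/-- FATOU.  `a_n(z) = (1/n) ∫⁻ t in Ioc 0 n, ∫⁻ ξ, ψ (…)` has `∫⁻ χ a_n = ∫⁻ χ ψ` by
`mass_conservation` and `liminf a_n(z) ≥ B - C3` by hypothesis and `lintegral_ray` -/
theorem mass_ineq {Γ : Subgroup SU11} (hd : IsDisc Γ) (χ : 𝔻 → ℝ≥0∞) (hχ : Measurable χ)
    (hχ1 : ∀ z : 𝔻, ∑' γ : Γ, χ ((γ : SU11) • z) = 1) {C3 : ℝ} (hC3 : 0 ≤ C3)
    (hup : ∀ (z : 𝔻) (B η : ℝ), 1 ≤ B → 0 < η → ∃ τ₀ : ℝ, ∀ τ : ℝ, τ₀ ≤ τ →
      ∫ ζ, ray (tr z) τ (fun w => min (hG Γ w) B) ζ ∂lam ≤ (C3 + η) * τ)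
    {B : ℝ} (hB : 1 ≤ B) :
    ENNReal.ofReal (B - C3) * ∫⁻ z, χ z ∂area ≤
      ∫⁻ z, χ z * ENNReal.ofReal (B - min (hG Γ z) B) ∂area := by
  have : Countable Γ := countable_of_disc hd
  set ψ : 𝔻 → ℝ≥0∞ := fun w => ENNReal.ofReal (B - min (hG Γ w) B) with hψ
  have hψm : Measurable ψ :=
    (measurable_const.sub ((measurable_hG Γ).min measurable_const)).ennreal_ofReal
  have hψinv : ∀ γ ∈ Γ, ∀ z : 𝔻, ψ (γ • z) = ψ z := by
    intro γ hγ z
    simp only [hψ, hG_smul hγ]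
  set A : ℕ → 𝔻 → ℝ≥0∞ := fun n z =>
    ∫⁻ t in Set.Ioc (0 : ℝ) (n : ℝ), ∫⁻ ξ : Circle, ψ (tr z • (ξ • (At t • (0 : 𝔻)))) ∂lam with hA
  have hAm : ∀ n, Measurable (A n) := fun n => XM_measE Γ B n
  have hcons : ∀ n : ℕ, ∫⁻ z, χ z * A n z ∂area =
      ENNReal.ofReal (n : ℝ) * ∫⁻ z, χ z * ψ z ∂area := fun n =>
    mass_conservation χ hχ hχ1 ψ hψm hψinv (Nat.cast_nonneg n)
  -- normalised functions
  set f : ℕ → 𝔻 → ℝ≥0∞ := fun n z => (ENNReal.ofReal (n : ℝ))⁻¹ * (χ z * A n z) with hf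
  have hfm : ∀ n, Measurable (f n) := fun n => measurable_const.mul (hχ.mul (hAm n))
  have hfint : ∀ n : ℕ, 0 < n → ∫⁻ z, f n z ∂area = ∫⁻ z, χ z * ψ z ∂area := by
    intro n hn
    have hn' : (0 : ℝ) < n := by exact_mod_cast hn
    have h0 : Measurable (fun z => χ z * A n z) := hχ.mul (hAm n)
    simp only [hf]
    rw [lintegral_const_mul _ h0, hcons n, ← mul_assoc,
      ENNReal.inv_mul_cancel (ENNReal.ofReal_pos.2 hn').ne' ENNReal.ofReal_ne_top, one_mul]
  -- pointwise lower bound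
  have hpt : ∀ z : 𝔻, ENNReal.ofReal (B - C3) * χ z ≤ liminf (fun n => f n z) atTop := by
    intro z
    have key : ∀ η : ℝ, 0 < η →
        ENNReal.ofReal (B - C3 - η) * χ z ≤ liminf (fun n => f n z) atTop := by
      intro η hη
      obtain ⟨τ₀, hτ₀⟩ := hup z B η hB hη
      refine le_liminf_of_le (by isBoundedDefault) ?_
      filter_upwards [eventually_ge_atTop (max 1 ⌈τ₀⌉₊)] with n hn
      have hn1 : 1 ≤ n := le_trans (le_max_left _ _) hn
      have hn2 : τ₀ ≤ (n : ℝ) :=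
        le_trans (Nat.le_ceil τ₀) (by exact_mod_cast le_trans (le_max_right _ _) hn)
      have hn' : (0 : ℝ) < n := by exact_mod_cast hn1
      have h1 : A n z = ENNReal.ofReal
          (B * n - ∫ ζ, ray (tr z) n (fun w => min (hG Γ w) B) ζ ∂lam) :=
        lintegral_ray Γ z hB (Nat.cast_nonneg n)
      have h2 := hτ₀ n hn2
      have h3 : ENNReal.ofReal ((B - C3 - η) * n) ≤ A n z := by
        rw [h1]
        apply ENNReal.ofReal_le_ofReal
        linarith
      have h4 : ENNReal.ofReal (B - C3 - η) ≤ (ENNReal.ofReal (n : ℝ))⁻¹ * A n z := by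
        rw [ENNReal.ofReal_mul' hn'.le] at h3
        calc ENNReal.ofReal (B - C3 - η) =
            (ENNReal.ofReal (n : ℝ))⁻¹ * (ENNReal.ofReal (B - C3 - η) * ENNReal.ofReal (n : ℝ)) := by
              rw [mul_comm (ENNReal.ofReal (B - C3 - η)), ← mul_assoc,
                ENNReal.inv_mul_cancel (ENNReal.ofReal_pos.2 hn').ne' ENNReal.ofReal_ne_top, one_mul]
          _ ≤ _ := by gcongr
      calc ENNReal.ofReal (B - C3 - η) * χ z ≤ ((ENNReal.ofReal (n : ℝ))⁻¹ * A n z) * χ z := by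
            gcongr
        _ = f n z := by simp only [hf]; ring
    have hlim : Tendsto (fun k : ℕ => ENNReal.ofReal (B - C3 - 1 / ((k : ℝ) + 1)) * χ z) atTop
        (𝓝 (ENNReal.ofReal (B - C3) * χ z)) ∨ ¬ (ENNReal.ofReal (B - C3) * χ z ≠ 0) := by
      by_cases h0 : ENNReal.ofReal (B - C3) * χ z ≠ 0
      · left
        have h1 : Tendsto (fun k : ℕ => B - C3 - 1 / ((k : ℝ) + 1)) atTop (𝓝 (B - C3 - 0)) :=
          tendsto_const_nhds.sub tendsto_one_div_add_atTop_nhds_zero_nat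
        rw [sub_zero] at h1
        have h2 := ENNReal.tendsto_ofReal h1
        refine ENNReal.Tendsto.mul_const h2 (Or.inl ?_)
        intro h3
        rw [h3, zero_mul] at h0
        exact h0 rfl
      · exact Or.inr h0
    rcases hlim with hlim | h0
    · refine le_of_tendsto hlim (Eventually.of_forall fun k => ?_)
      exact key _ (by positivity)
    · rw [not_not.1 h0]
      exact zero_le
  calc ENNReal.ofReal (B - C3) * ∫⁻ z, χ z ∂area
      = ∫⁻ z, ENNReal.ofReal (B - C3) * χ z ∂area := (lintegral_const_mul _ hχ).symm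
    _ ≤ ∫⁻ z, liminf (fun n => f n z) atTop ∂area := lintegral_mono hpt
    _ ≤ liminf (fun n => ∫⁻ z, f n z ∂area) atTop := lintegral_liminf_le hfm
    _ = ∫⁻ z, χ z * ψ z ∂area := by
        have : (fun n => ∫⁻ z, f n z ∂area) =ᶠ[atTop] fun _ => ∫⁻ z, χ z * ψ z ∂area := by
          filter_upwards [eventually_gt_atTop 0] with n hn
          exact hfint n hn
        rw [liminf_congr this]
        exact liminf_const _

end

end Pool.Agent.Lib.MP_b16327_pr
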