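import Pool.Agent.Lib.MP_b16327_pr.XM
import Pool.Agent.Lib.MP_b16327_pr.XEc
import Pool.Agent.Lib.MP_b16327_pr.XK
import Pool.Agent.Lib.MP_b16327_pr.DriftB

/-! # An absolutely continuous stationary measure forces cocompactness -/

namespace Pool.Agent.Lib.MP_b16327_pr

open Complex MeasureTheory ComplexConjugate Filter
open scoped Complex.UnitDisc Topology ENNReal

noncomputable section

/-- finiteness of the mass of the fundamental weight -/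
private theorem XMf_mass {Γ : Subgroup SU11} (hd : IsDisc Γ) (χ : 𝔻 → ℝ≥0∞)
    (hχ : Measurable χ) (hχ1 : ∀ z : 𝔻, ∑' γ : Γ, χ ((γ : SU11) • z) = 1) {C3 : ℝ}
    (hC3 : 0 ≤ C3)
    (hup : ∀ (z : 𝔻) (B η : ℝ), 1 ≤ B → 0 < η → ∃ τ₀ : ℝ, ∀ τ : ℝ, τ₀ ≤ τ →
      ∫ ζ, ray (tr z) τ (fun w => min (hG Γ w) B) ζ ∂lam ≤ (C3 + η) * τ) :
    ∫⁻ z, χ z ∂area < ⊤ := by
  have hB : (1 : ℝ) ≤ C3 + 1 := by linarith
  have h1 := mass_ineq hd χ hχ hχ1 hC3 hup hB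
  have e1 : C3 + 1 - C3 = 1 := by ring
  rw [e1, ENNReal.ofReal_one, one_mul] at h1
  refine lt_of_le_of_lt h1 ?_
  have h2 : ∀ z : 𝔻, χ z * ENNReal.ofReal (C3 + 1 - min (hG Γ z) (C3 + 1)) ≤
      ENNReal.ofReal (C3 + 1) * (χ z * (if hG Γ z ≤ C3 + 1 then 1 else 0)) := by
    intro z
    by_cases hz : hG Γ z ≤ C3 + 1
    · rw [if_pos hz, mul_one, mul_comm (ENNReal.ofReal (C3 + 1))]
      gcongr
      have := one_le_hG Γ z
      rw [min_eq_left hz]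
      linarith
    · rw [if_neg hz, min_eq_right (le_of_not_ge hz)]
      simp
  refine lt_of_le_of_lt (lintegral_mono h2) ?_
  have hm : Measurable (fun z : 𝔻 => χ z * (if hG Γ z ≤ C3 + 1 then (1 : ℝ≥0∞) else 0)) :=
    hχ.mul (Measurable.ite (measurableSet_le (measurable_hG Γ) measurable_const)
      measurable_const measurable_const)
  rw [lintegral_const_mul _ hm]
  exact ENNReal.mul_lt_top ENNReal.ofReal_lt_top (finite_low hd χ hχ hχ1 (C3 + 1))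

/-- the bound for the truncations -/
private theorem XMf_trunc {Γ : Subgroup SU11} (hd : IsDisc Γ) (χ : 𝔻 → ℝ≥0∞)
    (hχ : Measurable χ) (hχ1 : ∀ z : 𝔻, ∑' γ : Γ, χ ((γ : SU11) • z) = 1) {C3 : ℝ}
    (hC3 : 0 ≤ C3)
    (hup : ∀ (z : 𝔻) (B η : ℝ), 1 ≤ B → 0 < η → ∃ τ₀ : ℝ, ∀ τ : ℝ, τ₀ ≤ τ →
      ∫ ζ, ray (tr z) τ (fun w => min (hG Γ w) B) ζ ∂lam ≤ (C3 + η) * τ)
    (hm : ∫⁻ z, χ z ∂area < ⊤) {B : ℝ} (hB : 1 ≤ B) (hB3 : C3 ≤ B) :
    ∫⁻ z, χ z * ENNReal.ofReal (min (hG Γ z) B) ∂area ≤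
      ENNReal.ofReal C3 * ∫⁻ z, χ z ∂area := by
  have h1 := mass_ineq hd χ hχ hχ1 hC3 hup hB
  have hhm := measurable_hG Γ
  have hma : Measurable (fun z : 𝔻 => χ z * ENNReal.ofReal (B - min (hG Γ z) B)) :=
    hχ.mul (measurable_const.sub (hhm.min measurable_const)).ennreal_ofReal
  have h2 : (∫⁻ z, χ z * ENNReal.ofReal (B - min (hG Γ z) B) ∂area) +
      ∫⁻ z, χ z * ENNReal.ofReal (min (hG Γ z) B) ∂area =
      ENNReal.ofReal B * ∫⁻ z, χ z ∂area := by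
    rw [← lintegral_add_left hma, ← lintegral_const_mul _ hχ]
    apply lintegral_congr
    intro z
    have h3 : 0 ≤ B - min (hG Γ z) B := by
      have := min_le_right (hG Γ z) B
      linarith
    have h4 : 0 ≤ min (hG Γ z) B := le_min (by linarith [one_le_hG Γ z]) (by linarith)
    rw [← mul_add, ← ENNReal.ofReal_add h3 h4, mul_comm]
    congr 2
    ring
  have h5 : ENNReal.ofReal B = ENNReal.ofReal (B - C3) + ENNReal.ofReal C3 := by
    rw [← ENNReal.ofReal_add (by linarith) hC3]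
    congr 1
    ring
  rw [h5, add_mul] at h2
  have hfin : ENNReal.ofReal (B - C3) * ∫⁻ z, χ z ∂area ≠ ⊤ :=
    (ENNReal.mul_lt_top ENNReal.ofReal_lt_top hm).ne
  have h6 : ENNReal.ofReal (B - C3) * (∫⁻ z, χ z ∂area) +
      ∫⁻ z, χ z * ENNReal.ofReal (min (hG Γ z) B) ∂area ≤
      ENNReal.ofReal (B - C3) * (∫⁻ z, χ z ∂area) + ENNReal.ofReal C3 * ∫⁻ z, χ z ∂area := by
    rw [← h2]
    gcongr
  exact (ENNReal.add_le_add_iff_left hfin).1 h6

/-- `∫⁻ χ hG < ∞`: the right side of `mass_ineq` is at most `B ∫⁻ χ 1_{hG ≤ B} < ∞`, so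
`m = ∫⁻ χ < ∞` (take `B = C3 + 1`); then `∫⁻ χ min(hG, B) ≤ C3 m` for all `B`; monotone
convergence -/
theorem lintegral_hG_lt_top {Γ : Subgroup SU11} (hd : IsDisc Γ) (χ : 𝔻 → ℝ≥0∞)
    (hχ : Measurable χ) (hχ1 : ∀ z : 𝔻, ∑' γ : Γ, χ ((γ : SU11) • z) = 1) {C3 : ℝ}
    (hC3 : 0 ≤ C3)
    (hup : ∀ (z : 𝔻) (B η : ℝ), 1 ≤ B → 0 < η → ∃ τ₀ : ℝ, ∀ τ : ℝ, τ₀ ≤ τ →
      ∫ ζ, ray (tr z) τ (fun w => min (hG Γ w) B) ζ ∂lam ≤ (C3 + η) * τ) :
    ∫⁻ z, χ z * ENNReal.ofReal (hG Γ z) ∂area < ⊤ := by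
  have hm := XMf_mass hd χ hχ hχ1 hC3 hup
  have hhm := measurable_hG Γ
  have h1 : ∀ z : 𝔻, χ z * ENNReal.ofReal (hG Γ z) ≤
      ⨆ n : ℕ, χ z * ENNReal.ofReal (min (hG Γ z) (C3 + 1 + n)) := by
    intro z
    obtain ⟨n, hn⟩ := exists_nat_ge (hG Γ z)
    refine le_trans ?_ (le_iSup (fun n : ℕ => χ z * ENNReal.ofReal (min (hG Γ z) (C3 + 1 + n))) n)
    rw [min_eq_left (by linarith)]
  refine lt_of_le_of_lt (lintegral_mono h1) ?_
  have hmeas : ∀ n : ℕ, Measurable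
      (fun z : 𝔻 => χ z * ENNReal.ofReal (min (hG Γ z) (C3 + 1 + n))) :=
    fun n => hχ.mul (hhm.min measurable_const).ennreal_ofReal
  rw [lintegral_iSup hmeas ?_]
  · refine lt_of_le_of_lt (iSup_le fun n => ?_)
      (ENNReal.mul_lt_top (ENNReal.ofReal_lt_top (r := C3)) hm)
    have hn : (0 : ℝ) ≤ n := Nat.cast_nonneg n
    exact XMf_trunc hd χ hχ hχ1 hC3 hup hm (by linarith) (by linarith)
  · intro m n hmn z
    have : (m : ℝ) ≤ n := by exact_mod_cast hmn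
    dsimp only
    gcongr

/-- COCOMPACTNESS: if `hG` is not bounded, `lower_mass` at points with `hG ≥ 8 k` gives
`c ≤ ∫⁻ χ hG 1_{hG ≥ k}`, which tends to `0` when `∫⁻ χ hG < ∞`.  (Replace the walk by a power
with drift: `exists_drift`, `Stat.pow`, `pow_mem`.) -/
theorem cocpt_of_ac (W : Walk) {Γ : Subgroup SU11}
    (hΓ : Γ = Subgroup.closure (W.h '' {i | 0 < W.p i})) (hW : ∀ i, W.h i ∈ Γ)
    (hd : IsDisc Γ) (hunb : ∀ C : ℝ, ∃ g ∈ Γ, C ≤ Lg g)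
    (ν : Measure Circle) [IsProbabilityMeasure ν] (hν : ν ≪ lam) (hst : W.Stat ν) :
    IsCocpt Γ := by
  obtain ⟨n, hn, hdrift⟩ := W.exists_drift hΓ hunb ν hν hst
  have hV : ∀ i, (W.pow n).h i ∈ Γ := W.pow_mem hW n
  obtain ⟨C3, hC3, hup⟩ := upper (W.pow n) hV hdrift ν hν (hst.pow n)
  obtain ⟨χ, hχ, -, hχ1⟩ := exists_chi hd
  have hfin := lintegral_hG_lt_top hd χ hχ hχ1 hC3 hup
  obtain ⟨c, hc, hlow⟩ := lower_mass hd χ hχ hχ1
  have hhm := measurable_hG Γ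
  by_contra hcon
  have hunb2 : ∀ C : ℝ, ∃ z, C < hG Γ z := by
    intro C
    by_contra h
    push Not at h
    exact hcon (isCocpt_of_hG_le h)
  have hkey : ∀ k : ℕ, c ≤ ∫⁻ w, χ w *
      (if (k : ℝ) ≤ hG Γ w then ENNReal.ofReal (hG Γ w) else 0) ∂area := by
    intro k
    obtain ⟨z, hz⟩ := hunb2 (8 * k)
    refine (hlow z).trans (lintegral_mono fun w => ?_)
    dsimp only
    gcongr
    by_cases h1 : hG Γ z / 8 ≤ hG Γ w
    · rw [if_pos h1, if_pos (by linarith)]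
    · rw [if_neg h1]
      exact zero_le
  have hlim : Tendsto (fun k : ℕ => ∫⁻ w, χ w *
      (if (k : ℝ) ≤ hG Γ w then ENNReal.ofReal (hG Γ w) else 0) ∂area) atTop
      (𝓝 (∫⁻ _w : 𝔻, 0 ∂area)) := by
    refine tendsto_lintegral_of_dominated_convergence
      (fun w => χ w * ENNReal.ofReal (hG Γ w)) ?_ ?_ hfin.ne ?_
    · intro k
      exact hχ.mul (Measurable.ite (measurableSet_le measurable_const hhm)
        hhm.ennreal_ofReal measurable_const)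
    · intro k
      refine Eventually.of_forall fun w => ?_
      dsimp only
      gcongr
      split_ifs
      · exact le_rfl
      · exact zero_le
    · refine Eventually.of_forall fun w => ?_
      refine tendsto_const_nhds.congr' ?_
      obtain ⟨N, hN⟩ := exists_nat_gt (hG Γ w)
      filter_upwards [eventually_ge_atTop N] with k hk
      have h1 : (N : ℝ) ≤ k := by exact_mod_cast hk
      rw [if_neg (by linarith), mul_zero]
  rw [lintegral_zero] at hlim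
  have h0 : c ≤ 0 := ge_of_tendsto' hlim hkey
  exact absurd hc (not_lt.2 h0)

end

end Pool.Agent.Lib.MP_b16327_pr
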